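import Pool.Agent.Lib_MP_2c424f_lc1.T7
import Pool.Agent.Lib_MP_2c424f_thr.A5
import Pool.Agent.Lib_MP_2c424f_thr.T2

/-!
# LC1 A1: few sites of colour `c` with few available colours

`pin_wop` (with `ms_spec`): w.o.p. `∑ (av/q - al)² ≤ δ₁ N`, `∑ |al - als| ≤ δ₁ N`, `als ≥ 0.49`, so `#{v : av f v < q/4} ≤ C δ₁ N`.
For the class `b` of `v` resample `b` (`o = own class`): `1[av f v < q/4]` does not change, `P(f v = c) = zz/av ≤ 1/(c1 q)` at regular sites (`avail` for the others),
`WOPi_tail` for the fluctuation (`κ = 0`, level `K = 3`: `N/d^3 ≤ δ N/(4q)`).  Choose `δ₁` small depending on `δ`, `c1`.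
-/

set_option autoImplicit false

open Finset Filter

namespace Pool.Agent.LC

open Pool.Agent.LO Pool.Agent.LIN Pool.Agent.THR Pool.Agent.COR

section aux
variable {d k q : ℕ}

private theorem A1_prp {f : Site d k → Fin q} (hf : f ∈ prps d k q) : Prp f := by
  classical
  exact (mem_filter.1 hf).2

private theorem A1_NN (d k : ℕ) : 0 ≤ NN d k := by
  unfold NN
  positivity

private theorem A1_cn {α : Type} [Fintype α] (P : α → Prop) [DecidablePred P] :
    cn P = ∑ v, if P v then (1 : ℝ) else 0 := by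
  classical
  unfold cn
  rw [card_filter, Nat.cast_sum]
  refine sum_congr rfl fun v _ => ?_
  by_cases h : P v
  · simp [h]
  · simp [h]

open scoped Classical in
/-- sites of the class with colour `c` and few available colours -/
private noncomputable def A1Psi (b : Bool) (c : Fin q) (f : Site d k → Fin q) : ℝ :=
  ∑ v ∈ cls b d k, if (av f v : ℝ) < q / 4 then (if f v = c then (1 : ℝ) else 0) else 0

private theorem A1_ne (hk : 1 ≤ k) (b : Bool) {u v : Site d k} (hu : u ∈ cls b d k) (hv : v ∈ cls b d k) (σ : Stp d) :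
    u + sv σ ≠ v := by
  intro h
  rw [← h, mem_cls_step hk, cls_not] at hv
  exact hv hu

private theorem A1_av (hk : 1 ≤ k) (b : Bool) {u v : Site d k} (hu : u ∈ cls b d k) (hv : v ∈ cls b d k)
    (h : Site d k → Fin q) (γ : Fin q) : av (Function.update h v γ) u = av h u := by
  unfold av SS
  rw [Finset.image_congr fun σ _ => (Function.update_of_ne (A1_ne hk b hu hv σ) γ h)]

private theorem A1_lip (hk : 1 ≤ k) (b : Bool) (c : Fin q) :
    Lip b ((d : ℝ) ^ 0) (A1Psi b c : (Site d k → Fin q) → ℝ) := by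
  classical
  intro f _ h _ v hv γ _
  rw [pow_zero]
  unfold A1Psi
  rw [← sum_sub_distrib, ← add_sum_erase _ _ hv]
  rw [sum_eq_zero (s := (cls b d k).erase v), add_zero, A1_av hk b hv hv]
  · split_ifs <;> norm_num
  · intro u hu
    have hu1 := mem_erase.1 hu
    rw [A1_av hk b hu1.2 hv, Function.update_of_ne hu1.1, sub_self]

private theorem A1_fm {ε : ℝ} (hk : 1 ≤ k) (hq : 1 ≤ q) (b : Bool) (c : Fin q) {f : Site d k → Fin q}
    (hf : Prp f) : fm b (A1Psi b c) f ≤
      1 / (c1 ε * q) * cn (fun v : Site d k => (av f v : ℝ) < q / 4) + irr ε f := by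
  classical
  have h1 : fm b (A1Psi b c) f = ∑ v ∈ cls b d k,
      fm b (fun h => if (av h v : ℝ) < q / 4 then (if h v = c then (1 : ℝ) else 0) else 0) f := by
    unfold A1Psi
    exact fm_sum b f _ _
  have h2 : ∀ v ∈ cls b d k,
      fm b (fun h => if (av h v : ℝ) < q / 4 then (if h v = c then (1 : ℝ) else 0) else 0) f ≤
      1 / (c1 ε * q) * (if (av f v : ℝ) < q / 4 then (1 : ℝ) else 0) +
        (if (av f v : ℝ) < c1 ε * q then (1 : ℝ) else 0) := by
    intro v hv
    have h3 : fm b (fun h => if (av h v : ℝ) < q / 4 then (if h v = c then (1 : ℝ) else 0) else 0) f =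
        fm b (fun h => if (av f v : ℝ) < q / 4 then (if h v = c then (1 : ℝ) else 0) else 0) f := by
      refine fm_congr b fun h hh => ?_
      have : av h v = av f v := by
        unfold av
        rw [fib_SS hk b hh v hv]
      rw [this]
    rw [h3]
    have hc0 : 0 < c1 ε := by
      unfold c1
      positivity
    have hq0 : (0 : ℝ) < q := by exact_mod_cast hq
    have h5 : 0 ≤ 1 / (c1 ε * q) := by positivity
    by_cases hs : (av f v : ℝ) < q / 4
    · simp only [if_pos hs]
      rw [fm_ind hk b hf v hv c, mul_one]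
      by_cases hr : (av f v : ℝ) < c1 ε * q
      · rw [if_pos hr]
        have := (zz_av_le hf v c).2
        linarith
      · rw [if_neg hr, add_zero]
        exact zz_reg hq v (not_lt.1 hr) c
    · simp only [if_neg hs]
      rw [fm_const b hf 0, mul_zero, zero_add]
      split_ifs <;> norm_num
  rw [h1]
  refine (sum_le_sum h2).trans ?_
  rw [sum_add_distrib, ← mul_sum]
  have hc0 : 0 < c1 ε := by
    unfold c1
    positivity
  have hq0 : (0 : ℝ) < q := by exact_mod_cast hq
  have h5 : 0 ≤ 1 / (c1 ε * q) := by positivity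
  have h6 : ∑ v ∈ cls b d k, (if (av f v : ℝ) < q / 4 then (1 : ℝ) else 0) ≤
      cn (fun v : Site d k => (av f v : ℝ) < q / 4) := by
    rw [A1_cn]
    refine sum_le_sum_of_subset_of_nonneg (subset_univ _) fun v _ _ => ?_
    split_ifs <;> norm_num
  have h7 : ∑ v ∈ cls b d k, (if (av f v : ℝ) < c1 ε * q then (1 : ℝ) else 0) ≤ irr ε f := by
    have h8 : irr ε f = ∑ v : Site d k, (if (av f v : ℝ) < c1 ε * q then (1 : ℝ) else 0) := by
      unfold irr
      rw [card_filter, Nat.cast_sum]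
      refine sum_congr rfl fun v _ => ?_
      split_ifs <;> simp
    rw [h8]
    refine sum_le_sum_of_subset_of_nonneg (subset_univ _) fun v _ _ => ?_
    split_ifs <;> norm_num
  have h9 := mul_le_mul_of_nonneg_left h6 h5
  linarith

private theorem A1_split (c : Fin q) (f : Site d k → Fin q) :
    cn (fun v : Site d k => f v = c ∧ (av f v : ℝ) < q / 4) = A1Psi true c f + A1Psi false c f := by
  classical
  rw [A1_cn]
  unfold A1Psi cls evs ods
  simp only [if_true, Bool.false_eq_true, if_false]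
  rw [← sum_filter_add_sum_filter_not univ (fun v : Site d k => evn v)]
  congr 1 <;>
  · refine sum_congr rfl fun v _ => ?_
    by_cases h1 : f v = c <;> by_cases h2 : (av f v : ℝ) < q / 4 <;> simp [h1, h2]

/-- few sites with few available colours -/
private theorem A1_small {δ s : ℝ} {f : Site d k → Fin q} (hs : 49 / 100 ≤ s)
    (hq : 0 < q)
    (h1 : ∑ v : Site d k, ((av f v : ℝ) / q - al f v) ^ 2 ≤ δ * NN d k)
    (h2 : ∑ v : Site d k, |al f v - s| ≤ δ * NN d k) :
    cn (fun v : Site d k => (av f v : ℝ) < q / 4) ≤ 80 * (δ * NN d k) := by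
  classical
  have hq0 : (0 : ℝ) < q := by exact_mod_cast hq
  rw [A1_cn]
  have h3 : ∀ v : Site d k, (if (av f v : ℝ) < q / 4 then (1 : ℝ) else 0) ≤
      70 * ((av f v : ℝ) / q - al f v) ^ 2 + 9 * |al f v - s| := by
    intro v
    split_ifs with h
    · have h4 : (av f v : ℝ) / q < 1 / 4 := by
        rw [div_lt_iff₀ hq0]
        linarith
      have h5 : s - al f v ≤ |al f v - s| := by
        rw [abs_sub_comm]
        exact le_abs_self _
      obtain ⟨x, hx⟩ : ∃ x : ℝ, x = al f v - (av f v : ℝ) / q := ⟨_, rfl⟩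
      have h6 : ((av f v : ℝ) / q - al f v) ^ 2 = x ^ 2 := by
        rw [hx]
        ring
      have h7 : 6 / 25 ≤ |al f v - s| + x := by
        rw [hx]
        linarith
      rw [h6]
      have h8 : 0 ≤ |al f v - s| := abs_nonneg _
      nlinarith [sq_nonneg (x - 3 / 25), sq_nonneg x]
    · positivity
  refine (sum_le_sum fun v _ => h3 v).trans ?_
  rw [sum_add_distrib, ← mul_sum, ← mul_sum]
  have h9 : 0 ≤ δ * NN d k := le_trans (sum_nonneg fun v _ => abs_nonneg _) h2
  linarith

end aux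

theorem few_small (δ : ℝ) (hδ : 0 < δ) : WOP e3 fun d k q f => Rg d q → ∀ c : Fin q,
    cn (fun v => f v = c ∧ (av f v : ℝ) < q / 4) ≤ δ * NN d k / q := by
  have hε : 0 < e3 := by
    unfold e3
    norm_num
  have hε1 : e3 ≤ 1 := by
    unfold e3
    norm_num
  have hc0 : 0 < c1 e3 := by
    unfold c1
    positivity
  obtain ⟨δ₁, hδ₁⟩ : ∃ δ₁ : ℝ, δ₁ = δ * c1 e3 / 320 := ⟨_, rfl⟩
  have hδ₁0 : 0 < δ₁ := by
    rw [hδ₁]
    positivity
  obtain ⟨t, C₆, -, -, -, hpin⟩ := pin_wop hε hε1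
  have hL : EvT e3 fun d k q => ∀ i : Bool × Fin q, True → Lip i.1 ((d : ℝ) ^ 0) (A1Psi i.1 i.2 : (Site d k → Fin q) → ℝ) := by
    refine (EvT_reg hε hε1 1).mono fun d k q h i _ => ?_
    have hk : 1 ≤ k := by exact_mod_cast h.2.2.1
    exact A1_lip hk i.1 i.2
  have hT := WOPi_tail hε hε1 (fun _ _ q => Bool × Fin q) (fun _ _ _ i => i.1) (fun _ _ _ _ => True)
    (fun _ _ _ i => A1Psi i.1 i.2) 0 3 hL
  have hT2 := WOPi.all hT (fun _ q => 2 * (q : ℝ)) (fun d k q => by simp)
  refine ((hT2.and (avail hε hε1 3)).and (hpin δ₁ hδ₁0)).mono ?_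
  refine (EvT_reg hε hε1 (16 / δ + 2)).mono fun d k q h f hf hP hR c => ?_
  obtain ⟨⟨hP1, hP2⟩, hP3, hP4⟩ := hP
  obtain ⟨h1, h2, h3, h4, h5, h6, h7, h8⟩ := h
  have hδ16 : 0 < 16 / δ := by positivity
  have g1 : 2 ≤ d := by
    have : (2 : ℝ) ≤ d := by linarith
    exact_mod_cast this
  have g2 : 2 ≤ k := by
    have : (2 : ℝ) ≤ k := by linarith
    exact_mod_cast this
  have g3 : 1 ≤ q := by
    have : (1 : ℝ) ≤ q := by linarith
    exact_mod_cast this
  have hd0 : (0 : ℝ) < d := by linarith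
  have hq0 : (0 : ℝ) < q := by linarith
  have hN0 : 0 ≤ NN d k := A1_NN d k
  have hfP : Prp f := A1_prp hf
  obtain ⟨r1, r2, r3, r4, r5, r6, -⟩ := rg_pos (by omega : 1 ≤ d) hR
  have hm := ms_spec (by omega : 1 ≤ d) hR
  obtain ⟨yM, hyM⟩ := ym_exists (ra d q) (ms d q) (by linarith) hm
  have hpn := hP4 _ yM hm hyM
  have hmf := mf_num r2 hm
  have hals : 49 / 100 ≤ als (ra d q) (ms d q) := by
    have e1 : |als (ra d q) (ms d q) - 1 / 2| ≤ Real.exp (-ra d q) := hmf.2.2.2.2.1
    have e2 : Real.exp (-ra d q) ≤ 1 / 1001 := by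
      have e3 : (1001 : ℝ) ≤ Real.exp (ra d q) := by
        have := Real.add_one_le_exp (ra d q)
        linarith
      rw [Real.exp_neg, inv_eq_one_div]
      exact one_div_le_one_div_of_le (by norm_num) e3
    have e3 := (abs_le.1 e1).1
    linarith
  have hsm := A1_small hals r1 hP3.avl hpn.al
  have ht1 := hP1 (true, c) trivial
  have ht2 := hP1 (false, c) trivial
  have hf1 := A1_fm (ε := e3) (by omega : 1 ≤ k) g3 true c hfP
  have hf2 := A1_fm (ε := e3) (by omega : 1 ≤ k) g3 false c hfP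
  rw [A1_split]
  have hX : 1 / (c1 e3 * q) * cn (fun v : Site d k => (av f v : ℝ) < q / 4) ≤ δ * NN d k / (4 * q) := by
    have e1 : 0 ≤ 1 / (c1 e3 * q) := by positivity
    refine (mul_le_mul_of_nonneg_left hsm e1).trans (le_of_eq ?_)
    rw [hδ₁]
    field_simp
    ring
  have hY : NN d k / (d : ℝ) ^ 3 ≤ δ * NN d k / (8 * q) := by
    have e1 : (q : ℝ) ≤ 2 * d := by
      have : (0 : ℝ) ≤ e3 * d := by positivity
      linarith
    have e2 : 16 / δ ≤ (d : ℝ) ^ 2 := by nlinarith
    have e3 : 16 ≤ δ * (d : ℝ) ^ 2 := by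
      rw [div_le_iff₀ hδ] at e2
      linarith
    rw [div_le_div_iff₀ (by positivity) (by positivity)]
    have e4 : 8 * (q : ℝ) ≤ δ * (d : ℝ) ^ 3 := by
      calc 8 * (q : ℝ) ≤ 16 * d := by linarith
        _ ≤ δ * (d : ℝ) ^ 2 * d := mul_le_mul_of_nonneg_right e3 hd0.le
        _ = δ * (d : ℝ) ^ 3 := by ring
    calc NN d k * (8 * q) ≤ NN d k * (δ * (d : ℝ) ^ 3) := mul_le_mul_of_nonneg_left e4 hN0
      _ = δ * NN d k * (d : ℝ) ^ 3 := by ring
  have ht1' : A1Psi true c f ≤ fm true (A1Psi true c) f + NN d k / (d : ℝ) ^ 3 := ht1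
  have ht2' : A1Psi false c f ≤ fm false (A1Psi false c) f + NN d k / (d : ℝ) ^ 3 := ht2
  have hZ : δ * NN d k / (4 * q) * 2 + δ * NN d k / (8 * q) * 4 = δ * NN d k / q := by
    field_simp
    ring
  linarith

end Pool.Agent.LC
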