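import Pool.Agent.Lib_MP_2c424f_lc1.A1
import Pool.Agent.Lib_MP_2c424f_lc1.A2

/-!
# LC1 A3: every colour is used

LIN G3b `ratio_ge` with `q - 1` colours, `δ = 1/400`: `log ZZ (q-1) + 0.7 N/q ≤ log ZZ q`.  With `few_small (10^-6)` and `few_count`:
`#{|I_c| ≤ N/(20q)} ≤ ZZ exp (-0.4 N/q) + rare`; `q ≤ d`, so the exponent `max C 2 + 1` works.
-/

set_option autoImplicit false

open Finset Filter

namespace Pool.Agent.LC

open Pool.Agent.LO Pool.Agent.LIN Pool.Agent.THR Pool.Agent.COR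

theorem lowc : ∃ C : ℕ, EvT e3 fun d k q => Rg d q → ∀ c : Fin q,
    Rar C d k q fun f => cn (fun v => f v = c) ≤ NN d k / (20 * q) := by
  classical
  obtain ⟨C₁, h1⟩ := few_small (1 / 10 ^ 6) (by norm_num)
  have he0 : (0 : ℝ) < e3 := by unfold e3; norm_num
  have he1 : e3 ≤ (1 : ℝ) := by unfold e3; norm_num
  refine ⟨max C₁ 2 + 1, ?_⟩
  have hreg := EvT_reg (ε := e3) he0 he1 10000
  have hNN := EvT_NN (ε := e3) (fun d _ => (d : ℝ) ^ (max C₁ 2 + 1) * Real.log 2)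
  refine ((h1.and hreg).and hNN).mono ?_
  rintro d k q ⟨⟨h1, hM1, hM2, hM3, -, -, -, -, -⟩, hNN⟩ hRg c
  have hd : 10000 ≤ d := by exact_mod_cast hM1
  have hq : 10000 ≤ q := by exact_mod_cast hM2
  have hk : 10000 ≤ k := by exact_mod_cast hM3
  have hN0 : 0 ≤ NN d k := by unfold NN; positivity
  have hqr : (10000 : ℝ) ≤ q := hM2
  have hdr : (10000 : ℝ) ≤ d := hM1
  have hq0 : (0 : ℝ) < q := by linarith
  have hqd : (1000 : ℝ) * q ≤ 2 * d := by exact_mod_cast hRg.2.1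
  obtain ⟨p, rfl⟩ : ∃ p, q = p + 1 := ⟨q - 1, by omega⟩
  have hp : (9999 : ℝ) ≤ p := by
    push_cast at hqr
    linarith
  have hp0 : (0 : ℝ) < p := by linarith
  -- the ratio
  have hratio : ZZ d k p * Real.exp (3 / 10 * (NN d k / ((p + 1 : ℕ) : ℝ))) ≤
      ZZ d k (p + 1) * Real.exp (-(2 / 5 * (NN d k / ((p + 1 : ℕ) : ℝ)))) := by
    have h2 := ratio_ge (d := d) (k := k) (q := p) (δ := 1 / 400) (by norm_num) (by norm_num)
      (by norm_num; linarith) (by push_cast at hqd; linarith) (by omega)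
    have hs : Real.sqrt (14 * (1 / 400)) ≤ 19 / 100 := by
      rw [Real.sqrt_le_left (by norm_num)]
      norm_num
    have h3 : (2 : ℝ) / p ≤ 1 / 100 := by
      rw [div_le_iff₀ hp0]
      linarith
    have h4 : NN d k / ((p + 1 : ℕ) : ℝ) ≤ NN d k / p := by
      apply div_le_div_of_nonneg_left hN0 hp0
      push_cast
      linarith
    have h5 : 0 ≤ NN d k / ((p + 1 : ℕ) : ℝ) := by positivity
    have h6 : 7 / 10 * (NN d k / ((p + 1 : ℕ) : ℝ)) ≤
        NN d k / p * (1 - Real.sqrt (14 * (1 / 400)) - 2 / p) := by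
      have h7 : 7 / 10 ≤ 1 - Real.sqrt (14 * (1 / 400)) - 2 / p := by linarith
      calc 7 / 10 * (NN d k / ((p + 1 : ℕ) : ℝ)) ≤ 7 / 10 * (NN d k / p) := by
            linarith
        _ = NN d k / p * (7 / 10) := by ring
        _ ≤ _ := mul_le_mul_of_nonneg_left h7 (h5.trans h4)
    have hZ1 : 0 < ZZ d k p := ZZ_pos (by omega) (by omega)
    have hZ2 : 0 < ZZ d k (p + 1) := ZZ_pos (by omega) (by omega)
    have h8 : Real.log (ZZ d k p) + 7 / 10 * (NN d k / ((p + 1 : ℕ) : ℝ)) ≤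
        Real.log (ZZ d k (p + 1)) := by linarith
    have h9 : ZZ d k p * Real.exp (7 / 10 * (NN d k / ((p + 1 : ℕ) : ℝ))) ≤ ZZ d k (p + 1) := by
      have h10 := Real.exp_le_exp.2 h8
      rwa [Real.exp_add, Real.exp_log hZ1, Real.exp_log hZ2] at h10
    have h11 : Real.exp (3 / 10 * (NN d k / ((p + 1 : ℕ) : ℝ))) =
        Real.exp (7 / 10 * (NN d k / ((p + 1 : ℕ) : ℝ))) *
          Real.exp (-(2 / 5 * (NN d k / ((p + 1 : ℕ) : ℝ)))) := by
      rw [← Real.exp_add]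
      congr 1
      ring
    rw [h11, ← mul_assoc]
    exact mul_le_mul_of_nonneg_right h9 (Real.exp_pos _).le
  -- the exponent
  have hexp : NN d k / (d : ℝ) ^ max C₁ 2 ≤ 2 / 5 * (NN d k / ((p + 1 : ℕ) : ℝ)) := by
    have hd1 : (1 : ℝ) ≤ d := by linarith
    have h2 : (d : ℝ) ^ 2 ≤ (d : ℝ) ^ max C₁ 2 := pow_le_pow_right₀ hd1 (le_max_right _ _)
    have h3 : 5 / 2 * (((p + 1 : ℕ) : ℝ)) ≤ (d : ℝ) ^ 2 := by
      have h5 : 5 / 2 * (((p + 1 : ℕ) : ℝ)) ≤ d := by linarith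
      have h6 : (d : ℝ) ≤ (d : ℝ) ^ 2 := le_self_pow₀ hd1 two_ne_zero
      exact h5.trans h6
    have h4 : 2 / 5 * (NN d k / ((p + 1 : ℕ) : ℝ)) = NN d k / (5 / 2 * ((p + 1 : ℕ) : ℝ)) := by
      field_simp
    rw [h4]
    exact div_le_div_of_nonneg_left hN0 (by positivity) (h3.trans h2)
  have hev : Rar (max C₁ 2) d k (p + 1) fun f => Prp f ∧
      cn (fun v => f v = c) ≤ NN d k / (20 * ((p + 1 : ℕ) : ℝ)) ∧
      cn (fun v => f v = c ∧ (av f v : ℝ) < ((p + 1 : ℕ) : ℝ) / 4) ≤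
        1 / 10 ^ 6 * NN d k / ((p + 1 : ℕ) : ℝ) := by
    have h2 := few_count (d := d) (k := k) (q := p + 1) hd (le_trans (by norm_num) hk) hRg
      (le_trans (by norm_num) hq) c
    have h3 : p + 1 - 1 = p := rfl
    rw [h3] at h2
    unfold Rar
    have hZ2 : 0 < ZZ d k (p + 1) := ZZ_pos (by omega) (by omega)
    refine le_trans (b := cn (fun f : Site d k → Fin (p + 1) => Prp f ∧
      cn (fun v => f v = c) ≤ NN d k / (20 * ((p + 1 : ℕ) : ℝ)) ∧
      cn (fun v => f v = c ∧ (av f v : ℝ) < ((p + 1 : ℕ) : ℝ) / 4) ≤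
        1 / 10 ^ 6 * NN d k / ((p + 1 : ℕ) : ℝ))) ?_ ?_
    · unfold cn
      exact_mod_cast card_le_card (fun f hf => by
        rw [mem_filter] at hf ⊢
        exact ⟨mem_univ _, hf.2⟩)
    refine h2.trans (hratio.trans ?_)
    exact mul_le_mul_of_nonneg_left (Real.exp_le_exp.2 (neg_le_neg hexp)) hZ2.le
  have hun := Rar_union (C := max C₁ 2) (ι := Bool) (d := d) (k := k) (q := p + 1)
    (P := fun b f => if b then ¬ (Rg d (p + 1) → ∀ c, cn (fun v => f v = c ∧ (av f v : ℝ) < ((p + 1 : ℕ) : ℝ) / 4) ≤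
        1 / 10 ^ 6 * NN d k / ((p + 1 : ℕ) : ℝ)) else Prp f ∧
      cn (fun v => f v = c) ≤ NN d k / (20 * ((p + 1 : ℕ) : ℝ)) ∧
      cn (fun v => f v = c ∧ (av f v : ℝ) < ((p + 1 : ℕ) : ℝ) / 4) ≤
        1 / 10 ^ 6 * NN d k / ((p + 1 : ℕ) : ℝ)) (by omega) ?_ ?_
  · refine hun.mono ?_
    intro f hf hlow
    by_cases hb : Rg d (p + 1) → ∀ c, cn (fun v => f v = c ∧ (av f v : ℝ) < ((p + 1 : ℕ) : ℝ) / 4) ≤
        1 / 10 ^ 6 * NN d k / ((p + 1 : ℕ) : ℝ)
    · refine ⟨false, ?_⟩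
      simp only [Bool.false_eq_true, if_false]
      have hf' : Prp f := by
        unfold prps at hf
        rw [mem_filter] at hf
        exact hf.2
      exact ⟨hf', hlow, hb hRg c⟩
    · exact ⟨true, by simpa using hb⟩
  · intro b
    cases b
    · simpa using hev
    · simpa using h1.mono_C (by omega) (le_max_left _ _)
  · rw [Fintype.card_bool]
    exact_mod_cast hNN

end Pool.Agent.LC
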