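import Pool.Agent.Lib_MP_2c424f_lc1.A4
import Pool.Agent.Lib_MP_2c424f_thr.B6a

/-!
# LC1 A5: almost all blocks have a density pair `(τ, F τ)`

`breg_wop` (THR B6a) gives `tauG η' m yM c f t τ` for all but `δ' NN d k` of the blocks.  For the even points: `|Mp true s t (bq) - F τ| ≤ |Mp true s t (bq - gg)| +
Mp true s t |gg - zz/al| + |Mp true s t ((zz - zt)/al)| + Mp true s t |zt/al - ya| + Mp true s t |ya - F τ|`, `Mp true s t ≤ 4 Mp true none t` for nonnegative functions.
The first and third terms: `blk_bq2`, `blk_zz2`; second and fourth: `gg_det`, `zt_det` (THR B4) and `∑_t Mp true none t |φ| ≤ C (mean of |φ|) * NN d k`; the last one: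
every even pair is `flip` of an odd pair in `2d` ways (flip one of the `2d` bits), so `Mp true none t ψ = (1/2d) ∑_bits Mp false none t (ψ ∘ flip)`; the flipped point is a neighbour in the direction
of the bit, so `|ya x' - F τ| ≤ ∑_{ρ = ±} |ya (x + ρ e_i) - F (ya x)| + |F (ya x) - F τ|`: `Pin.yF`, and `F` is Lipschitz on `[0, ∞)` (constant `a/als`), `|ya x - τ| ≤ η'` for all but `η'` of the odd
points of the block (tauG), `ya ≤ e^a`.  Markov's inequality for the number of blocks.  Both `η'` and `δ'` small depending on `η, δ`.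
-/

set_option autoImplicit false

open Finset Filter

namespace Pool.Agent.LC

open Pool.Agent.LO Pool.Agent.LIN Pool.Agent.THR Pool.Agent.COR

section basic
variable {d k q : ℕ}

private theorem A5_od_flp (a b : Bt d) (i : Fin d) : od (flp a i) b ↔ ¬ od a b := by
  unfold od
  by_cases h : a i = b i
  · have h1 : (univ.filter fun r => flp a i r ≠ b r) = insert i (univ.filter fun r => a r ≠ b r) := by
      ext r
      simp only [Finset.mem_filter, Finset.mem_univ, true_and, Finset.mem_insert]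
      by_cases hr : r = i
      · subst hr
        simp [flp, h]
      · simp [flp, hr]
    rw [h1, Finset.card_insert_of_notMem (by simp [h]), Nat.odd_add_one]
  · have h1 : (univ.filter fun r => a r ≠ b r) = insert i (univ.filter fun r => flp a i r ≠ b r) := by
      ext r
      simp only [Finset.mem_filter, Finset.mem_univ, true_and, Finset.mem_insert]
      by_cases hr : r = i
      · subst hr
        simp [h]
      · simp [flp, hr]
    have h2 : flp a i i = b i := by
      simp only [flp, Function.update_self]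
      cases ha : a i <;> cases hb : b i <;> simp_all
    rw [h1, Finset.card_insert_of_notMem (by simp [h2]), Nat.odd_add_one, not_not]

private theorem A5_flp_flp (a : Bt d) (i : Fin d) : flp (flp a i) i = a := by
  unfold flp
  simp

private theorem A5_mem_eS (s : Shp d) (p : Bt d × Bt d) : p ∈ eS s ↔ ¬ od p.1 p.2 ∧ inS s p.1 p.2 := by
  simp [eS]

private theorem A5_mem_oS (s : Shp d) (p : Bt d × Bt d) : p ∈ oS s ↔ od p.1 p.2 ∧ inS s p.1 p.2 := by
  simp [oS]

private theorem A5_card (hd : 2 ≤ d) (s : Shp d) :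
    ((eS s).card : ℝ) = if s = none then (4 : ℝ) ^ d / 2 else (4 : ℝ) ^ (d - 1) / 2 := by
  have h := pS_card hd true s
  simpa [pS] using h

private theorem A5_card_pos (hd : 2 ≤ d) (s : Shp d) : (0 : ℝ) < ((eS s).card : ℝ) := by
  rw [A5_card hd s]
  split_ifs <;> positivity

private theorem A5_Mp (s : Shp d) (t : Blk d k) (φ : Site d (k + 1) → ℝ) :
    Mp true s t φ = (∑ p ∈ eS s, φ (pt t p.1 p.2)) / ((eS s).card : ℝ) := by
  simp [Mp, pS]

private theorem A5_Mpf (s : Shp d) (t : Blk d k) (φ : Site d (k + 1) → ℝ) : Mp false s t φ = Ms s t φ := by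
  simp [Mp, pS, Ms]

private theorem A5_mono (s : Shp d) (t : Blk d k) {φ ψ : Site d (k + 1) → ℝ} (h : ∀ x, φ x ≤ ψ x) :
    Mp true s t φ ≤ Mp true s t ψ := by
  rw [A5_Mp, A5_Mp]
  exact div_le_div_of_nonneg_right (Finset.sum_le_sum fun p _ => h _) (Nat.cast_nonneg _)

private theorem A5_add (s : Shp d) (t : Blk d k) (φ ψ : Site d (k + 1) → ℝ) :
    Mp true s t (fun x => φ x + ψ x) = Mp true s t φ + Mp true s t ψ := by
  rw [A5_Mp, A5_Mp, A5_Mp, Finset.sum_add_distrib, add_div]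

private theorem A5_const (hd : 2 ≤ d) (s : Shp d) (t : Blk d k) (c : ℝ) : Mp true s t (fun _ => c) = c := by
  rw [A5_Mp, Finset.sum_const, nsmul_eq_mul, mul_comm, mul_div_assoc, div_self (A5_card_pos hd s).ne', mul_one]

private theorem A5_abs (s : Shp d) (t : Blk d k) (φ : Site d (k + 1) → ℝ) :
    |Mp true s t φ| ≤ Mp true s t fun x => |φ x| := by
  rw [A5_Mp, A5_Mp, abs_div, Nat.abs_cast]
  exact div_le_div_of_nonneg_right (Finset.abs_sum_le_sum_abs _ _) (Nat.cast_nonneg _)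

private theorem A5_face (hd : 2 ≤ d) (s : Shp d) (t : Blk d k) (φ : Site d (k + 1) → ℝ) (h : ∀ x, 0 ≤ φ x) :
    Mp true s t φ ≤ 4 * Mp true none t φ := by
  classical
  have hsub : ∑ p ∈ eS s, φ (pt t p.1 p.2) ≤ ∑ p ∈ eS (none : Shp d), φ (pt t p.1 p.2) := by
    refine Finset.sum_le_sum_of_subset_of_nonneg ?_ fun p _ _ => h _
    intro p hp
    rw [A5_mem_eS] at hp ⊢
    exact ⟨hp.1, trivial⟩
  have h0 : 0 ≤ ∑ p ∈ eS (none : Shp d), φ (pt t p.1 p.2) := Finset.sum_nonneg fun p _ => h _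
  have hn : ((eS (none : Shp d)).card : ℝ) = (4 : ℝ) ^ d / 2 := by
    rw [A5_card hd, if_pos rfl]
  have hc : (4 : ℝ) ^ d / 2 ≤ 4 * ((eS s).card : ℝ) := by
    rw [A5_card hd s]
    have h4 : (4 : ℝ) ^ d = 4 ^ (d - 1) * 4 := by
      rw [← pow_succ]; congr 1; omega
    have h5 : (0 : ℝ) < 4 ^ (d - 1) := by positivity
    split_ifs
    · rw [h4]; linarith
    · rw [h4]; linarith
  have hp := A5_card_pos hd s
  have hp4 : (0 : ℝ) < (4 : ℝ) ^ d / 2 := by positivity
  rw [A5_Mp, A5_Mp, hn, ← mul_div_assoc, div_le_div_iff₀ hp hp4]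
  calc (∑ p ∈ eS s, φ (pt t p.1 p.2)) * ((4 : ℝ) ^ d / 2)
      ≤ (∑ p ∈ eS (none : Shp d), φ (pt t p.1 p.2)) * ((4 : ℝ) ^ d / 2) :=
        mul_le_mul_of_nonneg_right hsub hp4.le
    _ ≤ (∑ p ∈ eS (none : Shp d), φ (pt t p.1 p.2)) * (4 * ((eS s).card : ℝ)) :=
        mul_le_mul_of_nonneg_left hc h0
    _ = 4 * (∑ p ∈ eS (none : Shp d), φ (pt t p.1 p.2)) * ((eS s).card : ℝ) := by ring

/-- the even points are the flipped odd points -/
private theorem A5_flip (i : Fin d) (H : Bt d × Bt d → ℝ) :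
    ∑ p ∈ eS (none : Shp d), H p = ∑ p ∈ oS (none : Shp d), H (flp p.1 i, p.2) := by
  refine Finset.sum_nbij' (fun p => (flp p.1 i, p.2)) (fun p => (flp p.1 i, p.2)) ?_ ?_ ?_ ?_ ?_
  · intro p hp
    rw [A5_mem_eS] at hp
    rw [A5_mem_oS]
    refine ⟨?_, trivial⟩
    rw [A5_od_flp]
    exact hp.1
  · intro p hp
    rw [A5_mem_oS] at hp
    rw [A5_mem_eS]
    refine ⟨?_, trivial⟩
    rw [A5_od_flp, not_not]
    exact hp.1
  · intro p _
    simp [A5_flp_flp]
  · intro p _
    simp [A5_flp_flp]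
  · intro p _
    simp [A5_flp_flp]

private theorem A5_flip_le (hd : 2 ≤ d) (i : Fin d) (t : Blk d k) (ψ Φ : Site d (k + 1) → ℝ)
    (h : ∀ x β, ψ (x + sv (i, β)) ≤ Φ x) : Mp true none t ψ ≤ Ms none t Φ := by
  have e1 : ((eS (none : Shp d)).card : ℝ) = ((oS (none : Shp d)).card : ℝ) := by
    rw [A5_card hd, oS_card hd]
  rw [A5_Mp, A5_flip i (fun p => ψ (pt t p.1 p.2)), e1]
  unfold Ms
  refine div_le_div_of_nonneg_right (Finset.sum_le_sum fun p _ => ?_) (Nat.cast_nonneg _)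
  show ψ (pt t (flp p.1 i) p.2) ≤ Φ (pt t p.1 p.2)
  rw [(pt_flp t p.1 p.2 i).1]
  exact h _ _

/-- sum of the block means over the odd points of a nonnegative function -/
private theorem A5_sumo (hd : 2 ≤ d) (hk : 1 ≤ k) (D : ℝ) (φ : Site d (k + 1) → ℝ) (h0 : ∀ x, 0 ≤ φ x)
    (h : ∑ x, φ x ≤ D * NN d (k + 1)) : ∑ t : Blk d k, Ms none t φ ≤ 2 * D * NN d k := by
  rw [Ms_sum hd hk]
  have h1 : ∑ v ∈ ods d (k + 1), φ v ≤ ∑ x, φ x :=
    Finset.sum_le_sum_of_subset_of_nonneg (Finset.subset_univ _) fun x _ _ => h0 x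
  have h2 := h1.trans h
  rw [NN_succ] at h2
  have h3 : (0 : ℝ) < 2 ^ d := by positivity
  calc 2 / 2 ^ d * ∑ v ∈ ods d (k + 1), φ v ≤ 2 / 2 ^ d * (D * (2 ^ d * NN d k)) :=
        mul_le_mul_of_nonneg_left h2 (by positivity)
    _ = 2 * D * NN d k := by
        field_simp

private theorem A5_transl (τ : Site d (k + 1)) (φ : Site d (k + 1) → ℝ) : ∑ x, φ (x + τ) = ∑ x, φ x :=
  Fintype.sum_equiv (Equiv.addRight τ) _ _ fun _ => rfl

/-- sum of the block means over the even points of a nonnegative function -/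
private theorem A5_sume (hd : 2 ≤ d) (hk : 1 ≤ k) (D : ℝ) (φ : Site d (k + 1) → ℝ) (h0 : ∀ x, 0 ≤ φ x)
    (h : ∑ x, φ x ≤ D * NN d (k + 1)) : ∑ t : Blk d k, Mp true none t φ ≤ 4 * D * NN d k := by
  obtain ⟨i⟩ : Nonempty (Fin d) := ⟨⟨0, by omega⟩⟩
  have h1 : ∀ t : Blk d k, Mp true none t φ ≤ Ms none t fun x => φ (x + sv (i, true)) + φ (x + sv (i, false)) := by
    intro t
    refine A5_flip_le hd i t φ _ fun x β => ?_
    have e1 := h0 (x + sv (i, true))
    have e2 := h0 (x + sv (i, false))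
    cases β
    · linarith
    · linarith
  refine (Finset.sum_le_sum fun t _ => h1 t).trans ?_
  have h2 := A5_sumo (k := k) hd hk (2 * D) (fun x => φ (x + sv (i, true)) + φ (x + sv (i, false)))
    (fun x => add_nonneg (h0 _) (h0 _)) (by
      rw [Finset.sum_add_distrib, A5_transl, A5_transl]
      linarith)
  linarith

private theorem A5_exp {u v : ℝ} (hu : 0 ≤ u) (hv : 0 ≤ v) : |Real.exp (-u) - Real.exp (-v)| ≤ |u - v| := by
  wlog h : u ≤ v generalizing u v
  · rw [abs_sub_comm, abs_sub_comm u v]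
    exact this hv hu (le_of_not_ge h)
  have e1 : Real.exp (-v) = Real.exp (-u) * Real.exp (-(v - u)) := by
    rw [← Real.exp_add]
    congr 1
    ring
  have e2 := Real.add_one_le_exp (-(v - u))
  have e3 : Real.exp (-u) ≤ 1 := Real.exp_le_one_iff.mpr (by linarith)
  have e4 : Real.exp (-v) ≤ Real.exp (-u) := Real.exp_le_exp.mpr (by linarith)
  have e5 := Real.exp_pos (-u)
  rw [abs_of_nonneg (by linarith), abs_of_nonpos (by linarith), e1]
  nlinarith

private theorem A5_F {a m A y τ : ℝ} (ha0 : 0 ≤ a) (haA : a ≤ A) (hy : 0 ≤ y) (hτ : 0 ≤ τ) :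
    |Fy a m y - Fy a m τ| ≤ A * Real.exp A * |y - τ| ∧ |Fy a m y - Fy a m τ| ≤ Real.exp A := by
  have h1 : Real.exp (-A) ≤ als a m := by
    unfold als
    calc Real.exp (-A) ≤ Real.exp (-a) := Real.exp_le_exp.mpr (by linarith)
      _ = Real.exp (-a) * 1 := (mul_one _).symm
      _ ≤ Real.exp (-a) * Real.cosh (a * m) := mul_le_mul_of_nonneg_left (Real.one_le_cosh _) (Real.exp_pos _).le
  have h0 : 0 < als a m := (Real.exp_pos _).trans_le h1
  have h2 : 1 / als a m ≤ Real.exp A := by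
    rw [div_le_iff₀ h0]
    calc (1 : ℝ) = Real.exp A * Real.exp (-A) := by rw [← Real.exp_add]; simp
      _ ≤ _ := mul_le_mul_of_nonneg_left h1 (Real.exp_pos _).le
  have h3 : |Fy a m y - Fy a m τ| = |Real.exp (-(a * y)) - Real.exp (-(a * τ))| * (1 / als a m) := by
    unfold Fy
    rw [← sub_div, abs_div, abs_of_pos h0]
    ring
  have hay : 0 ≤ a * y := mul_nonneg ha0 hy
  have haτ : 0 ≤ a * τ := mul_nonneg ha0 hτ
  have hA0 : 0 ≤ A := ha0.trans haA
  constructor
  · have h4 := A5_exp hay haτ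
    have h5 : |a * y - a * τ| = a * |y - τ| := by
      rw [← mul_sub, abs_mul, abs_of_nonneg ha0]
    rw [h3]
    calc |Real.exp (-(a * y)) - Real.exp (-(a * τ))| * (1 / als a m) ≤ (a * |y - τ|) * Real.exp A :=
          mul_le_mul (h4.trans h5.le) h2 (by positivity) (by positivity)
      _ ≤ (A * |y - τ|) * Real.exp A := by gcongr
      _ = A * Real.exp A * |y - τ| := by ring
  · have h4 : |Real.exp (-(a * y)) - Real.exp (-(a * τ))| ≤ 1 := by
      have e1 : Real.exp (-(a * y)) ≤ 1 := Real.exp_le_one_iff.mpr (by linarith)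
      have e2 : Real.exp (-(a * τ)) ≤ 1 := Real.exp_le_one_iff.mpr (by linarith)
      have e3 := Real.exp_pos (-(a * y))
      have e4 := Real.exp_pos (-(a * τ))
      rw [abs_le]
      constructor <;> linarith
    rw [h3]
    calc |Real.exp (-(a * y)) - Real.exp (-(a * τ))| * (1 / als a m) ≤ 1 * Real.exp A :=
          mul_le_mul h4 h2 (by positivity) zero_le_one
      _ = Real.exp A := one_mul _

private theorem A5_ya (c : Fin q) (f : Site d k → Fin q) (v : Site d k) : 0 ≤ ya c f v := by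
  unfold ya al
  positivity

/-- one block -/
private theorem A5_block (hd : 2 ≤ d) (i : Fin d) {η η' m yM A : ℝ} (hη' : 0 < η') (hle : η' ≤ η)
    (hA : (A + 1) * Real.exp A * η' ≤ η / 48) (ha0 : 0 ≤ ra d q) (haA : ra d q ≤ A) (hm : 0 ≤ 1 - m) (hm' : 0 ≤ m)
    (hy : 0 ≤ yM) (c : Fin q) (f : Site d (k + 1) → Fin q) (t : Blk d k) (τ : ℝ) (hτ : tauG η' m yM c f t τ)
    (p1 : ∀ s, Mp true s t (fun x => bq c f x - gg c f x) ^ 2 ≤ (η / 6) ^ 2)
    (p2 : Mp true none t (fun x => |gg c f x - zz f x c / al f x|) ≤ η / 24)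
    (p3 : ∀ s, Mp true s t (fun x => (zz f x c - zt f x c) / al f x) ^ 2 ≤ (η / 6) ^ 2)
    (p4 : Mp true none t (fun x => |zt f x c / al f x - ya c f x|) ≤ η / 24)
    (p5 : Ms none t (fun x => |ya c f (x + sv (i, true)) - Fy (ra d q) m (ya c f x)| +
      |ya c f (x + sv (i, false)) - Fy (ra d q) m (ya c f x)|) ≤ η / 48) :
    tau2 η m yM c f t := by
  obtain ⟨t1, t2, t3⟩ := hτ
  have hη : 0 < η := hη'.trans_le hle
  have hτ0 : 0 ≤ τ := by
    rcases t1 with h | h | h <;> linarith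
  have hA0 : 0 ≤ A := ha0.trans haA
  have hE := Real.exp_pos A
  set F : ℝ := Fy (ra d q) m τ with hF
  refine ⟨τ, t1, fun s => ?_, fun s => ?_⟩
  · rw [A5_Mpf]
    exact (t2 s).trans hle
  · -- the last term
    have q5 : Mp true none t (fun x => |ya c f x - F|) ≤ η / 24 := by
      have h1 : Mp true none t (fun x => |ya c f x - F|) ≤
          Ms none t fun x => (|ya c f (x + sv (i, true)) - Fy (ra d q) m (ya c f x)| +
            |ya c f (x + sv (i, false)) - Fy (ra d q) m (ya c f x)|) + |Fy (ra d q) m (ya c f x) - F| := by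
        refine A5_flip_le hd i t _ _ fun x β => ?_
        show |ya c f (x + sv (i, β)) - F| ≤ _
        have e1 := abs_sub_le (ya c f (x + sv (i, β))) (Fy (ra d q) m (ya c f x)) F
        have e2 := abs_nonneg (ya c f (x + sv (i, true)) - Fy (ra d q) m (ya c f x))
        have e3 := abs_nonneg (ya c f (x + sv (i, false)) - Fy (ra d q) m (ya c f x))
        cases β
        · linarith
        · linarith
      have h2 : Ms none t (fun x => |Fy (ra d q) m (ya c f x) - F|) ≤
          Ms none t fun x => A * Real.exp A * η' + Real.exp A * (if η' < |ya c f x - τ| then (1 : ℝ) else 0) := by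
        refine Ms_mono none t fun a b _ => ?_
        obtain ⟨e1, e2⟩ := A5_F (m := m) ha0 haA (A5_ya c f (pt t a b)) hτ0
        have e0 : 0 ≤ A * Real.exp A := by positivity
        by_cases h : η' < |ya c f (pt t a b) - τ|
        · rw [if_pos h]
          have : 0 ≤ A * Real.exp A * η' := by positivity
          linarith
        · rw [if_neg h]
          have h3 : |ya c f (pt t a b) - τ| ≤ η' := not_lt.1 h
          have := mul_le_mul_of_nonneg_left h3 e0
          linarith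
      rw [Ms_add none t (fun x => |ya c f (x + sv (i, true)) - Fy (ra d q) m (ya c f x)| +
            |ya c f (x + sv (i, false)) - Fy (ra d q) m (ya c f x)|) (fun x => |Fy (ra d q) m (ya c f x) - F|)] at h1
      rw [Ms_add none t (fun _ => A * Real.exp A * η') (fun x => Real.exp A * (if η' < |ya c f x - τ| then (1 : ℝ) else 0)),
        Ms_const hd, Ms_mul] at h2
      have h3 := mul_le_mul_of_nonneg_left t3 hE.le
      have h4 : A * Real.exp A * η' + Real.exp A * η' = (A + 1) * Real.exp A * η' := by ring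
      linarith
    have hk4 : (0 : ℝ) ≤ η / 6 := by positivity
    have q1 : |Mp true s t (fun x => bq c f x - gg c f x)| ≤ η / 6 := abs_le_of_sq_le_sq (p1 s) hk4
    have q3 : |Mp true s t (fun x => (zz f x c - zt f x c) / al f x)| ≤ η / 6 := abs_le_of_sq_le_sq (p3 s) hk4
    have q2 : |Mp true s t (fun x => gg c f x - zz f x c / al f x)| ≤ η / 6 := by
      refine (A5_abs s t _).trans ?_
      refine (A5_face hd s t _ fun x => abs_nonneg _).trans ?_
      linarith
    have q4 : |Mp true s t (fun x => zt f x c / al f x - ya c f x)| ≤ η / 6 := by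
      refine (A5_abs s t _).trans ?_
      refine (A5_face hd s t _ fun x => abs_nonneg _).trans ?_
      linarith
    have q6 : |Mp true s t (fun x => ya c f x - F)| ≤ η / 6 := by
      refine (A5_abs s t _).trans ?_
      refine (A5_face hd s t _ fun x => abs_nonneg _).trans ?_
      linarith
    have key : Mp true s t (bq c f) =
        Mp true s t (fun x => bq c f x - gg c f x) + Mp true s t (fun x => gg c f x - zz f x c / al f x) +
          Mp true s t (fun x => (zz f x c - zt f x c) / al f x) + Mp true s t (fun x => zt f x c / al f x - ya c f x) +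
          Mp true s t (fun x => ya c f x - F) + F := by
      have h2 : bq c f = fun x => (((((bq c f x - gg c f x) + (gg c f x - zz f x c / al f x)) +
          ((zz f x c - zt f x c) / al f x)) + (zt f x c / al f x - ya c f x)) + (ya c f x - F)) + F := by
        funext x
        rw [sub_div]
        ring
      conv_lhs => rw [h2]
      rw [A5_add s t _ (fun _ => F), A5_const hd s t F, A5_add s t _ (fun x => ya c f x - F),
        A5_add s t _ (fun x => zt f x c / al f x - ya c f x), A5_add s t _ (fun x => (zz f x c - zt f x c) / al f x),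
        A5_add s t _ (fun x => gg c f x - zz f x c / al f x)]
    rw [key]
    have r1 := abs_le.1 q1
    have r2 := abs_le.1 q2
    have r3 := abs_le.1 q3
    have r4 := abs_le.1 q4
    have r6 := abs_le.1 q6
    rw [abs_le]
    constructor <;> linarith [r1.1, r1.2, r2.1, r2.2, r3.1, r3.2, r4.1, r4.2, r6.1, r6.2]

private theorem A5_mk {T : Type} [Fintype T] (P : T → Prop) (W : T → ℝ) (h0 : ∀ t, 0 ≤ W t) (h : ∀ t, P t → 1 ≤ W t) :
    cn P ≤ ∑ t, W t := by
  classical
  unfold cn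
  have h1 : ((univ.filter P).card : ℝ) = ∑ t ∈ univ.filter P, (1 : ℝ) := by simp
  rw [h1]
  calc ∑ t ∈ univ.filter P, (1 : ℝ) ≤ ∑ t ∈ univ.filter P, W t :=
        Finset.sum_le_sum fun t ht => h t (Finset.mem_filter.1 ht).2
    _ ≤ ∑ t, W t := Finset.sum_le_sum_of_subset_of_nonneg (Finset.subset_univ _) fun t _ _ => h0 t

private theorem A5_cn {T : Type} [Fintype T] (P : T → Prop) [inst : DecidablePred P] :
    cn P = ((univ.filter P).card : ℝ) := by
  unfold cn
  have h : inst = fun a => Classical.propDecidable (P a) := Subsingleton.elim _ _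
  rw [h]

private theorem A5_ind {T : Type} [Fintype T] (P : T → Prop) : ∑ t, ind (P t) = cn P := by
  classical
  unfold cn ind
  rw [Finset.sum_boole]

private theorem A5_shp (d : ℕ) : (Fintype.card (Shp d) : ℝ) = 2 * d + 1 := by
  rw [Fintype.card_option, Fintype.card_prod, Fintype.card_fin, Fintype.card_bool]
  push_cast
  ring

private theorem A5_Mp0 (s : Shp d) (t : Blk d k) (φ : Site d (k + 1) → ℝ) (h : ∀ x, 0 ≤ φ x) : 0 ≤ Mp true s t φ := by
  rw [A5_Mp]
  exact div_nonneg (Finset.sum_nonneg fun p _ => h _) (Nat.cast_nonneg _)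

private theorem A5_Ms0 (s : Shp d) (t : Blk d k) (φ : Site d (k + 1) → ℝ) (h : ∀ x, 0 ≤ φ x) : 0 ≤ Ms s t φ := by
  unfold Ms
  exact div_nonneg (Finset.sum_nonneg fun p _ => h _) (Nat.cast_nonneg _)

private theorem A5_sv (l : Fin d) (β : Bool) : (sv (l, β) : Site d k) + sv (l, !β) = 0 := by
  unfold sv
  rw [← Pi.single_add]
  cases β <;> simp

/-- number of exceptional blocks -/
private theorem A5_count (hd : 2 ≤ d) (hk : 1 ≤ k) (i : Fin d) {η η' m yM A δ : ℝ} (hδ : 0 < δ) (hη' : 0 < η')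
    (hle : η' ≤ η) (hA : (A + 1) * Real.exp A * η' ≤ η / 48) (ha0 : 0 ≤ ra d q) (haA : ra d q ≤ A) (hm : 0 ≤ 1 - m)
    (hm' : 0 ≤ m) (hy : 0 ≤ yM) (c : Fin q) (f : Site d (k + 1) → Fin q)
    (n0 : cn (fun t : Blk d k => ¬ ∃ τ, tauG η' m yM c f t τ) ≤ δ / 4 * NN d k)
    (n1 : ∀ s : Shp d, ∑ t : Blk d k, Mp true s t (fun x => bq c f x - gg c f x) ^ 2 ≤ NN d k / (d : ℝ) ^ 4)
    (n2 : ∑ x, |gg c f x - zz f x c / al f x| ≤ δ * η / 768 * NN d (k + 1))
    (n3 : ∀ s : Shp d,
      ∑ t : Blk d k, Mp true s t (fun x => (zz f x c - zt f x c) / al f x) ^ 2 ≤ NN d k / (d : ℝ) ^ 4)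
    (n4 : ∑ x, |zt f x c / al f x - ya c f x| ≤ δ * η / 768 * NN d (k + 1))
    (n5 : ∀ σ : Stp d, ∑ v, |ya c f v - Fy (ra d q) m (ya c f (v + sv σ))| ≤ δ * η / 768 * NN d (k + 1))
    (hdd : 864 / (η ^ 2 * δ) ≤ d) :
    cn (fun t : Blk d k => ¬ tau2 η m yM c f t) ≤ δ * NN d k := by
  classical
  have hη : 0 < η := hη'.trans_le hle
  have hN : 0 ≤ NN d k := by unfold NN; positivity
  have hd0 : (0 : ℝ) < d := by
    have : 0 < d := by omega
    exact_mod_cast this
  obtain ⟨E0, hE0⟩ : ∃ E : Blk d k → ℝ, ∀ t, E t = ind (¬ ∃ τ, tauG η' m yM c f t τ) := ⟨_, fun t => rfl⟩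
  obtain ⟨E1, hE1⟩ : ∃ E : Blk d k → ℝ, ∀ t, E t = ∑ s, Mp true s t (fun x => bq c f x - gg c f x) ^ 2 :=
    ⟨_, fun t => rfl⟩
  obtain ⟨E2, hE2⟩ : ∃ E : Blk d k → ℝ, ∀ t, E t = Mp true none t (fun x => |gg c f x - zz f x c / al f x|) :=
    ⟨_, fun t => rfl⟩
  obtain ⟨E3, hE3⟩ : ∃ E : Blk d k → ℝ, ∀ t, E t = ∑ s, Mp true s t (fun x => (zz f x c - zt f x c) / al f x) ^ 2 :=
    ⟨_, fun t => rfl⟩
  obtain ⟨E4, hE4⟩ : ∃ E : Blk d k → ℝ, ∀ t, E t = Mp true none t (fun x => |zt f x c / al f x - ya c f x|) :=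
    ⟨_, fun t => rfl⟩
  obtain ⟨E5, hE5⟩ : ∃ E : Blk d k → ℝ, ∀ t, E t = Ms none t (fun x =>
      |ya c f (x + sv (i, true)) - Fy (ra d q) m (ya c f x)| +
      |ya c f (x + sv (i, false)) - Fy (ra d q) m (ya c f x)|) := ⟨_, fun t => rfl⟩
  have m0 : ∀ t, 0 ≤ E0 t := fun t => by
    rw [hE0]
    unfold ind
    split_ifs <;> norm_num
  have m1 : ∀ t, 0 ≤ E1 t := fun t => by
    rw [hE1]
    exact Finset.sum_nonneg fun s _ => sq_nonneg _
  have m2 : ∀ t, 0 ≤ E2 t := fun t => by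
    rw [hE2]
    exact A5_Mp0 _ _ _ fun x => abs_nonneg _
  have m3 : ∀ t, 0 ≤ E3 t := fun t => by
    rw [hE3]
    exact Finset.sum_nonneg fun s _ => sq_nonneg _
  have m4 : ∀ t, 0 ≤ E4 t := fun t => by
    rw [hE4]
    exact A5_Mp0 _ _ _ fun x => abs_nonneg _
  have m5 : ∀ t, 0 ≤ E5 t := fun t => by
    rw [hE5]
    exact A5_Ms0 _ _ _ fun x => add_nonneg (abs_nonneg _) (abs_nonneg _)
  have hmk := A5_mk (fun t : Blk d k => ¬ tau2 η m yM c f t)
    (fun t => E0 t + 36 / η ^ 2 * E1 t + 24 / η * E2 t + 36 / η ^ 2 * E3 t + 24 / η * E4 t + 48 / η * E5 t) ?_ ?_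
  · refine hmk.trans ?_
    have s0 : ∑ t, E0 t ≤ δ / 4 * NN d k := by
      refine le_trans (le_of_eq ?_) n0
      rw [Finset.sum_congr rfl fun t _ => hE0 t]
      exact A5_ind _
    have s1 : ∑ t, E1 t ≤ (2 * d + 1) * (NN d k / (d : ℝ) ^ 4) := by
      rw [Finset.sum_congr rfl fun t _ => hE1 t, Finset.sum_comm, ← A5_shp, ← Finset.card_univ, ← nsmul_eq_mul,
        ← Finset.sum_const]
      exact Finset.sum_le_sum fun s _ => n1 s
    have s3 : ∑ t, E3 t ≤ (2 * d + 1) * (NN d k / (d : ℝ) ^ 4) := by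
      rw [Finset.sum_congr rfl fun t _ => hE3 t, Finset.sum_comm, ← A5_shp, ← Finset.card_univ, ← nsmul_eq_mul,
        ← Finset.sum_const]
      exact Finset.sum_le_sum fun s _ => n3 s
    have s2 : ∑ t, E2 t ≤ 4 * (δ * η / 768) * NN d k := by
      rw [Finset.sum_congr rfl fun t _ => hE2 t]
      exact A5_sume hd hk _ _ (fun x => abs_nonneg _) n2
    have s4 : ∑ t, E4 t ≤ 4 * (δ * η / 768) * NN d k := by
      rw [Finset.sum_congr rfl fun t _ => hE4 t]
      exact A5_sume hd hk _ _ (fun x => abs_nonneg _) n4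
    have n6 : ∀ β : Bool, ∑ x, |ya c f (x + sv (i, β)) - Fy (ra d q) m (ya c f x)| ≤
        δ * η / 768 * NN d (k + 1) := by
      intro β
      refine le_trans (le_of_eq ?_) (n5 (i, !β))
      rw [← A5_transl (sv (i, β)) fun v => |ya c f v - Fy (ra d q) m (ya c f (v + sv (i, !β)))|]
      refine Finset.sum_congr rfl fun x _ => ?_
      rw [add_assoc, A5_sv, add_zero]
    have s5 : ∑ t, E5 t ≤ 2 * (2 * (δ * η / 768)) * NN d k := by
      rw [Finset.sum_congr rfl fun t _ => hE5 t]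
      refine A5_sumo hd hk _ _ (fun x => add_nonneg (abs_nonneg _) (abs_nonneg _)) ?_
      rw [Finset.sum_add_distrib]
      have e1 := n6 true
      have e2 := n6 false
      linarith
    rw [Finset.sum_add_distrib, Finset.sum_add_distrib, Finset.sum_add_distrib, Finset.sum_add_distrib,
      Finset.sum_add_distrib, ← Finset.mul_sum, ← Finset.mul_sum, ← Finset.mul_sum, ← Finset.mul_sum, ← Finset.mul_sum]
    have hη2 : 0 < η ^ 2 := by positivity
    have w1 : 36 / η ^ 2 * ((2 * d + 1) * (NN d k / (d : ℝ) ^ 4)) ≤ δ / 8 * NN d k := by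
      have h3 : 864 ≤ d * (η ^ 2 * δ) := (div_le_iff₀ (by positivity)).1 hdd
      have hd1 : (1 : ℝ) ≤ d := by
        have : 1 ≤ d := by omega
        exact_mod_cast this
      have h4 : (1 : ℝ) ≤ (d : ℝ) ^ 2 := one_le_pow₀ hd1
      have h5 : 36 * (2 * (d : ℝ) + 1) ≤ δ / 8 * (η ^ 2 * (d : ℝ) ^ 4) := by
        calc 36 * (2 * (d : ℝ) + 1) ≤ 36 * (3 * d) := by linarith
          _ = 864 * (d / 8) := by ring
          _ ≤ d * (η ^ 2 * δ) * (d / 8) := mul_le_mul_of_nonneg_right h3 (by positivity)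
          _ = δ / 8 * (η ^ 2 * (d : ℝ) ^ 2) * 1 := by ring
          _ ≤ δ / 8 * (η ^ 2 * (d : ℝ) ^ 2) * (d : ℝ) ^ 2 := mul_le_mul_of_nonneg_left h4 (by positivity)
          _ = δ / 8 * (η ^ 2 * (d : ℝ) ^ 4) := by ring
      calc 36 / η ^ 2 * ((2 * d + 1) * (NN d k / (d : ℝ) ^ 4)) =
            36 * (2 * (d : ℝ) + 1) * (NN d k / (η ^ 2 * (d : ℝ) ^ 4)) := by field_simp
        _ ≤ δ / 8 * (η ^ 2 * (d : ℝ) ^ 4) * (NN d k / (η ^ 2 * (d : ℝ) ^ 4)) :=
            mul_le_mul_of_nonneg_right h5 (by positivity)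
        _ = δ / 8 * NN d k := by field_simp
    have v1 : 36 / η ^ 2 * ∑ t, E1 t ≤ δ / 8 * NN d k :=
      (mul_le_mul_of_nonneg_left s1 (by positivity)).trans w1
    have v3 : 36 / η ^ 2 * ∑ t, E3 t ≤ δ / 8 * NN d k :=
      (mul_le_mul_of_nonneg_left s3 (by positivity)).trans w1
    have w2 : 24 / η * (4 * (δ * η / 768) * NN d k) = δ / 8 * NN d k := by
      field_simp
      ring
    have w5 : 48 / η * (2 * (2 * (δ * η / 768)) * NN d k) = δ / 4 * NN d k := by
      field_simp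
      ring
    have v2 : 24 / η * ∑ t, E2 t ≤ δ / 8 * NN d k :=
      (mul_le_mul_of_nonneg_left s2 (by positivity)).trans w2.le
    have v4 : 24 / η * ∑ t, E4 t ≤ δ / 8 * NN d k :=
      (mul_le_mul_of_nonneg_left s4 (by positivity)).trans w2.le
    have v5 : 48 / η * ∑ t, E5 t ≤ δ / 4 * NN d k :=
      (mul_le_mul_of_nonneg_left s5 (by positivity)).trans w5.le
    linarith
  · intro t
    have := m0 t
    have := m1 t
    have := m2 t
    have := m3 t
    have := m4 t
    have := m5 t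
    positivity
  · intro t ht
    by_contra hW
    have hW' := not_le.1 hW
    have u1 : 0 ≤ 36 / η ^ 2 * E1 t := mul_nonneg (by positivity) (m1 t)
    have u2 : 0 ≤ 24 / η * E2 t := mul_nonneg (by positivity) (m2 t)
    have u3 : 0 ≤ 36 / η ^ 2 * E3 t := mul_nonneg (by positivity) (m3 t)
    have u4 : 0 ≤ 24 / η * E4 t := mul_nonneg (by positivity) (m4 t)
    have u5 : 0 ≤ 48 / η * E5 t := mul_nonneg (by positivity) (m5 t)
    have u0 := m0 t
    have x0 : E0 t < 1 := by linarith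
    have x1 : 36 / η ^ 2 * E1 t < 1 := by linarith
    have x2 : 24 / η * E2 t < 1 := by linarith
    have x3 : 36 / η ^ 2 * E3 t < 1 := by linarith
    have x4 : 24 / η * E4 t < 1 := by linarith
    have x5 : 48 / η * E5 t < 1 := by linarith
    have hη2 : 0 < η ^ 2 := by positivity
    have y1 : E1 t ≤ (η / 6) ^ 2 := by
      rw [div_mul_eq_mul_div, div_lt_one hη2] at x1
      nlinarith
    have y3 : E3 t ≤ (η / 6) ^ 2 := by
      rw [div_mul_eq_mul_div, div_lt_one hη2] at x3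
      nlinarith
    have y2 : E2 t ≤ η / 24 := by
      rw [div_mul_eq_mul_div, div_lt_one hη] at x2
      linarith
    have y4 : E4 t ≤ η / 24 := by
      rw [div_mul_eq_mul_div, div_lt_one hη] at x4
      linarith
    have y5 : E5 t ≤ η / 48 := by
      rw [div_mul_eq_mul_div, div_lt_one hη] at x5
      linarith
    have y0 : ∃ τ, tauG η' m yM c f t τ := by
      by_contra hc
      rw [hE0] at x0
      unfold ind at x0
      rw [if_pos hc] at x0
      exact lt_irrefl _ x0
    obtain ⟨τ, hτ⟩ := y0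
    rw [hE1] at y1
    rw [hE2] at y2
    rw [hE3] at y3
    rw [hE4] at y4
    rw [hE5] at y5
    refine ht (A5_block hd i hη' hle hA ha0 haA hm hm' hy c f t τ hτ (fun s => ?_) y2 (fun s => ?_) y4 y5)
    · exact (Finset.single_le_sum (f := fun s => Mp true s t (fun x => bq c f x - gg c f x) ^ 2)
        (fun s _ => sq_nonneg _) (Finset.mem_univ s)).trans y1
    · exact (Finset.single_le_sum (f := fun s => Mp true s t (fun x => (zz f x c - zt f x c) / al f x) ^ 2)
        (fun s _ => sq_nonneg _) (Finset.mem_univ s)).trans y3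

end basic

theorem tau2_wop (η δ : ℝ) (hη : 0 < η) (hδ : 0 < δ) :
    WOPb e3 fun d k q f => Rg d q → ∀ yM : ℝ, YM (ra d q) (ms d q) yM → ∀ c : Fin q,
      cn (fun t : Blk d k => ¬ tau2 η (ms d q) yM c f t) ≤ δ * NN d k := by
  have hε : 0 < e3 := by unfold e3; norm_num
  have hε1 : e3 ≤ 1 := by unfold e3; norm_num
  have hE := Real.exp_pos (A0 e3)
  have hA0 : 0 < A0 e3 := by unfold A0; positivity
  obtain ⟨η', hη', hle, hA⟩ : ∃ η' : ℝ, 0 < η' ∧ η' ≤ η ∧ (A0 e3 + 1) * Real.exp (A0 e3) * η' ≤ η / 48 := by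
    refine ⟨min η (η / 48 / ((A0 e3 + 1) * Real.exp (A0 e3))), lt_min hη (by positivity), min_le_left _ _, ?_⟩
    have h1 := min_le_right η (η / 48 / ((A0 e3 + 1) * Real.exp (A0 e3)))
    rw [le_div_iff₀ (by positivity)] at h1
    linarith
  have hδ2 : 0 < δ * η / 768 := by positivity
  obtain ⟨t₀, C₆, -, -, -, hpin⟩ := pin_wop hε hε1
  obtain ⟨δ₁, hδ₁, hgg⟩ := gg_det hε hε1 C₆ t₀ (δ * η / 768) hδ2
  have hzt := zt_det hε hε1 C₆ t₀ (δ * η / 768) hδ2
  have hreg := EvT_reg hε hε1 (max 2 (864 / (η ^ 2 * δ)))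
  have hb := breg_wop hε hε1 η' (δ / 4) hη' (by positivity)
  refine (((((hpin (min δ₁ (δ * η / 768)) (lt_min hδ₁ hδ2)).blk).and hb).and blk_bq2).and blk_zz2).mono
    (((hgg.shift.and hzt.shift).and hreg).mono ?_)
  rintro d k q ⟨⟨hg, hz⟩, hMd, hMq, hMk, hdq, -, -, haA, -⟩ f hf ⟨⟨⟨⟨hG, hP⟩, hB⟩, h3⟩, h4⟩ hR yM hyM c
  have hd2 : (2 : ℝ) ≤ d := (le_max_left _ _).trans hMd
  have hd : 2 ≤ d := by exact_mod_cast hd2
  have hk2 : (2 : ℝ) ≤ k := (le_max_left _ _).trans hMk
  have hk : 1 ≤ k := by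
    have : 2 ≤ k := by exact_mod_cast hk2
    omega
  obtain ⟨i⟩ : Nonempty (Fin d) := ⟨⟨0, by omega⟩⟩
  have hms := ms_spec (by omega : 1 ≤ d) hR
  obtain ⟨-, ha, -, -, -, -, -, -, -⟩ := rg_pos (by omega : 1 ≤ d) hR
  obtain ⟨hm0, hm1, -⟩ := mf_num ha hms
  have hNN : 0 ≤ NN d (k + 1) := by unfold NN; positivity
  have hle1 : min δ₁ (δ * η / 768) * NN d (k + 1) ≤ δ₁ * NN d (k + 1) :=
    mul_le_mul_of_nonneg_right (min_le_left _ _) hNN
  have hle2 : min δ₁ (δ * η / 768) * NN d (k + 1) ≤ δ * η / 768 * NN d (k + 1) :=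
    mul_le_mul_of_nonneg_right (min_le_right _ _) hNN
  have hG1 : Good e3 δ₁ C₆ t₀ f :=
    ⟨hG.irr4, hG.grad, hG.smo, fun c σ τ => (hG.hom c σ τ).trans hle1, hG.avl.trans hle1,
      fun c σ => (hG.mf c σ).trans hle1, fun c => (hG.sm0 c).trans hle1, fun c σ => (hG.sm1 c σ).trans hle1,
      fun c => (hG.sm2 c).trans hle1⟩
  have hPin := hP (ms d q) yM hms hyM
  have hB' := hB (ms d q) yM hms hyM c
  refine A5_count hd hk i hδ hη' hle hA (by linarith) haA (by linarith) hm0.le hyM.1 c f ?_ (fun s => h3 true c s)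
    (hg f hf hG1 c) (fun s => h4 true c s) (hz f hf hG.irr4 c) (fun σ => (hPin.yF c σ).trans hle2)
    ((le_max_right _ _).trans hMd)
  exact (@A5_cn _ _ _ (_)).trans_le hB'

end Pool.Agent.LC
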