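import Pool.Agent.Lib_MP_2c424f_lc1.A3
import Pool.Agent.Lib_MP_2c424f_lc1.A5

/-!
# LC1 A6: all blocks without label

`yM_small`: `yM = e^{-a yM}/als`, `als ≥ 0.49`; for `y = 1/100`, `a ≥ 1000`: `e^{-a y}/als ≤ e^{-10}/0.49 < y`, and `y ↦ y - e^{-ay}/als` is increasing.
`allbd`: if `bdP η c (pat f t)` for all `t` then (as `frq e s c (pat f t) = Mp e s t (bq c f)`, `Fy (1-m) = 1+m`, `Fy (1+m) = 1-m`) no block satisfies `tau2 η` with `τ = 1 ± m`, so by
`tau2_wop (min η (1/1000)) δ` all but `δ NN d k` of the blocks have the density `≤ 1/100 + 1/1000` at the odd points and `≤ 1/100 + 1/1000` at the even points (`F yM = yM`).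
`q |I_c| = ∑_x bq c f x = 2^(d-1) ∑_t (Mp false none t + Mp true none t) (bq c f)` (points `pt t a b`, `LO.sum_pt`).  The exceptional blocks contribute at most
`2^(d-1) ∑ (|Mp (bq - gg)| + Mp gg)`: `blk_bq2` and Cauchy-Schwarz, `gg ≤ 1/c1` at regular sites, `q` at the others (`avail`): `≤ small * N`.  So `|I_c| ≤ N/(20 q)`: `lowc` (shifted to `k+1`).
-/

set_option autoImplicit false

open Finset Filter

namespace Pool.Agent.LC

open Pool.Agent.LO Pool.Agent.LIN Pool.Agent.THR Pool.Agent.COR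

theorem yM_small {a m y : ℝ} (ha : 1000 ≤ a) (hm : MFE a m) (hy : YM a m y) : y ≤ 1 / 100 := by
  obtain ⟨-, -, -, -, h5, -⟩ := mf_num ha hm
  obtain ⟨hy0, hy1⟩ := hy
  by_contra hcon
  push Not at hcon
  have he1 : (2 : ℝ) ≤ Real.exp 1 := by
    have h := Real.add_one_le_exp (1 : ℝ)
    linarith
  have he10 : (1024 : ℝ) ≤ Real.exp 10 := by
    have h1 : Real.exp 10 = Real.exp 1 ^ 10 := by
      rw [← Real.exp_nat_mul]
      norm_num
    rw [h1]
    calc (1024 : ℝ) = 2 ^ 10 := by norm_num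
      _ ≤ Real.exp 1 ^ 10 := pow_le_pow_left₀ (by norm_num) he1 10
  have he : Real.exp (-10) ≤ 1 / 1024 := by
    rw [Real.exp_neg, ← one_div]
    exact one_div_le_one_div_of_le (by norm_num) he10
  have h6 : Real.exp (-a) ≤ 1 / 1024 := (Real.exp_le_exp.mpr (by linarith)).trans he
  have h7 : Real.exp (-(a * y)) ≤ 1 / 1024 := (Real.exp_le_exp.mpr (by nlinarith)).trans he
  have h8 : (49 : ℝ) / 100 ≤ als a m := by
    have h9 := (abs_le.mp h5).1
    linarith
  have h10 : y * als a m = Real.exp (-(a * y)) := by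
    have h11 : als a m ≠ 0 := by linarith
    have h12 : y = Real.exp (-(a * y)) / als a m := hy1
    rw [eq_div_iff h11] at h12
    exact h12
  nlinarith

theorem frq_eq {d k q : ℕ} (e : Bool) (s : Shp d) (c : Fin q) (f : Site d (k + 1) → Fin q) (t : Blk d k) :
    frq e s c (pat f t) = Mp e s t (bq c f) := rfl

section A6aux
variable {d k q : ℕ}

private theorem A6_ind0 (P : Prop) : 0 ≤ ind P := by
  classical
  unfold ind
  split_ifs <;> norm_num

private theorem A6_cn {α : Type} [Fintype α] (P : α → Prop) : cn P = ∑ x, ind (P x) := by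
  classical
  unfold cn ind
  rw [Finset.card_filter, Nat.cast_sum]
  refine Finset.sum_congr rfl fun x _ => ?_
  by_cases h : P x
  · rw [if_pos h, if_pos h, Nat.cast_one]
  · rw [if_neg h, if_neg h, Nat.cast_zero]

private theorem A6_add (e : Bool) (s : Shp d) (t : Blk d k) (φ ψ : Site d (k + 1) → ℝ) :
    Mp e s t (fun x => φ x + ψ x) = Mp e s t φ + Mp e s t ψ := by
  unfold Mp
  rw [Finset.sum_add_distrib, add_div]

private theorem A6_mul (e : Bool) (s : Shp d) (t : Blk d k) (a : ℝ) (φ : Site d (k + 1) → ℝ) :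
    Mp e s t (fun x => a * φ x) = a * Mp e s t φ := by
  unfold Mp
  rw [← Finset.mul_sum, mul_div_assoc]

private theorem A6_mono (e : Bool) (s : Shp d) (t : Blk d k) {φ ψ : Site d (k + 1) → ℝ} (h : ∀ x, φ x ≤ ψ x) :
    Mp e s t φ ≤ Mp e s t ψ := by
  unfold Mp
  exact div_le_div_of_nonneg_right (Finset.sum_le_sum fun p _ => h _) (Nat.cast_nonneg _)

private theorem A6_const (hd : 2 ≤ d) (e : Bool) (s : Shp d) (t : Blk d k) (a : ℝ) : Mp e s t (fun _ => a) = a := by
  have h1 : (0 : ℝ) < ((pS e s : Finset (Bt d × Bt d)).card : ℝ) := by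
    rw [pS_card hd]
    split_ifs <;> positivity
  unfold Mp
  rw [Finset.sum_const, nsmul_eq_mul, mul_comm, mul_div_assoc, div_self h1.ne', mul_one]

private theorem A6_nonneg (hd : 2 ≤ d) (e : Bool) (s : Shp d) (t : Blk d k) {φ : Site d (k + 1) → ℝ} (h : ∀ x, 0 ≤ φ x) :
    0 ≤ Mp e s t φ := by
  have h1 := A6_mono (φ := fun _ => (0 : ℝ)) (ψ := φ) e s t h
  rwa [A6_const hd] at h1

/-- sum over the blocks -/
private theorem A6_sum (hd : 2 ≤ d) (φ : Site d (k + 1) → ℝ) :
    ∑ t : Blk d k, (Mp false none t φ + Mp true none t φ) = 2 / 2 ^ d * ∑ x, φ x := by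
  classical
  have h1 : ∀ t : Blk d k, Mp false none t φ + Mp true none t φ =
      2 / 4 ^ d * ∑ a : Bt d, ∑ b : Bt d, φ (pt t a b) := by
    intro t
    have h2 : ∑ p ∈ (pS true none : Finset (Bt d × Bt d)), φ (pt t p.1 p.2) +
        ∑ p ∈ (pS false none : Finset (Bt d × Bt d)), φ (pt t p.1 p.2) = ∑ a : Bt d, ∑ b : Bt d, φ (pt t a b) := by
      have e1 : (pS true none : Finset (Bt d × Bt d)) = univ.filter fun p => ¬ od p.1 p.2 := by
        ext p
        simp [pS, eS, inS]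
      have e2 : (pS false none : Finset (Bt d × Bt d)) = univ.filter fun p => od p.1 p.2 := by
        ext p
        simp [pS, oS, inS]
      rw [e1, e2, add_comm, Finset.sum_filter_add_sum_filter_not, Fintype.sum_prod_type]
    have e3 := pS_card hd false (none : Shp d)
    have e4 := pS_card hd true (none : Shp d)
    rw [if_pos rfl] at e3 e4
    unfold Mp
    rw [e3, e4, ← h2]
    have h4 : (4 : ℝ) ^ d ≠ 0 := by positivity
    field_simp
    ring
  rw [Finset.sum_congr rfl fun t _ => h1 t, ← Finset.mul_sum]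
  have h3 := sum_pt (k := k) (d := d) (fun (x : Site d (k + 1)) (_ : Bt d) => φ x)
  rw [h3]
  have h4 : ∀ x : Site d (k + 1), ∑ _b : Bt d, φ x = 2 ^ d * φ x := by
    intro x
    rw [Finset.sum_const, Finset.card_univ, Fintype.card_fun, Fintype.card_bool, Fintype.card_fin, nsmul_eq_mul]
    push_cast
    rfl
  rw [Finset.sum_congr rfl fun x _ => h4 x, ← Finset.mul_sum]
  have h5 : (4 : ℝ) ^ d = 2 ^ d * 2 ^ d := by
    rw [← mul_pow]
    norm_num
  rw [h5]
  have h6 : (2 : ℝ) ^ d ≠ 0 := by positivity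
  field_simp

private theorem A6_gg (c : Fin q) {f : Site d (k + 1) → Fin q} (hf : Prp f) (hc : 0 < c1 e3) (hq : 1 ≤ q)
    (x : Site d (k + 1)) :
    0 ≤ THR.gg c f x ∧ THR.gg c f x ≤ 1 / c1 e3 + q * ind ((av f x : ℝ) < c1 e3 * q) := by
  classical
  have h1 : THR.gg c f x = q * (zz f x c / (av f x : ℝ)) := by
    unfold THR.gg
    rw [mul_div_assoc]
  have hq' : (1 : ℝ) ≤ q := by exact_mod_cast hq
  obtain ⟨h2, h3⟩ := zz_av_le hf x c
  rw [h1]
  refine ⟨mul_nonneg (by linarith) h2, ?_⟩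
  unfold ind
  split_ifs with h
  · have h4 : 0 < 1 / c1 e3 := by positivity
    nlinarith
  · have h4 := zz_reg hq x (not_lt.mp h) c
    rw [mul_zero, add_zero]
    calc (q : ℝ) * (zz f x c / (av f x : ℝ)) ≤ q * (1 / (c1 e3 * q)) :=
          mul_le_mul_of_nonneg_left h4 (by linarith)
      _ = 1 / c1 e3 := by
        field_simp

private theorem A6_abs (n x : ℝ) (hn : 0 < n) : x ≤ n * x ^ 2 + 1 / n := by
  have h1 : n * x ^ 2 + 1 / n - x = n * (x - 1 / (2 * n)) ^ 2 + 3 / (4 * n) := by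
    field_simp
    ring
  have h2 : 0 ≤ n * (x - 1 / (2 * n)) ^ 2 + 3 / (4 * n) := by positivity
  linarith

/-- the deterministic part -/
private theorem A6_det (hd : 400 ≤ d) (hq : 1 ≤ q) (hqd : (q : ℝ) ≤ d) (hc : 0 < c1 e3) (c : Fin q)
    {f : Site d (k + 1) → Fin q} (hf : Prp f) (B : Blk d k → Prop) (hB : cn B ≤ c1 e3 / 100 * NN d k)
    (hG : ∀ t, ¬ B t → Mp false none t (bq c f) + Mp true none t (bq c f) ≤ 22 / 1000)
    (h2 : ∀ e : Bool, ∑ t : Blk d k, Mp e none t (fun x => bq c f x - THR.gg c f x) ^ 2 ≤ NN d k / (d : ℝ) ^ 4)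
    (h3 : cn (fun v : Site d (k + 1) => (av f v : ℝ) < c1 e3 * q) ≤ NN d (k + 1) / (d : ℝ) ^ 3) :
    cn (fun v => f v = c) ≤ NN d (k + 1) / (20 * q) := by
  classical
  have hd2 : 2 ≤ d := by omega
  have hd' : (400 : ℝ) ≤ d := by exact_mod_cast hd
  have hd0 : (0 : ℝ) < d := by linarith
  have hq' : (1 : ℝ) ≤ q := by exact_mod_cast hq
  have hN0 : 0 ≤ NN d k := by unfold NN; positivity
  set ι : Site d (k + 1) → ℝ := fun v => ind ((av f v : ℝ) < c1 e3 * q) with hι
  have hι0 : ∀ v, 0 ≤ ι v := fun v => A6_ind0 _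
  set D : Bool → Blk d k → ℝ := fun e t => Mp e none t (fun x => bq c f x - THR.gg c f x) with hD
  have hsplit : ∀ e t, Mp e none t (bq c f) ≤ D e t + (1 / c1 e3 + q * Mp e none t ι) := by
    intro e t
    have h4 : Mp e none t (bq c f) = D e t + Mp e none t (THR.gg c f) := by
      have h6 := A6_add e none t (fun x => bq c f x - THR.gg c f x) (THR.gg c f)
      rw [← h6]
      congr 1
      funext x
      ring
    have h5 : Mp e none t (THR.gg c f) ≤ 1 / c1 e3 + q * Mp e none t ι := by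
      refine (A6_mono e none t fun x => (A6_gg c hf hc hq x).2).trans (le_of_eq ?_)
      rw [A6_add e none t (fun _ => 1 / c1 e3) (fun x => (q : ℝ) * ι x), A6_const hd2, A6_mul]
    rw [h4]
    linarith
  have hblk : ∀ t : Blk d k, Mp false none t (bq c f) + Mp true none t (bq c f) ≤
      22 / 1000 + (d * D false t ^ 2 + 1 / d) + (d * D true t ^ 2 + 1 / d) + 2 / c1 e3 * ind (B t) +
        q * (Mp false none t ι + Mp true none t ι) := by
    intro t
    have n1 : 0 ≤ d * D false t ^ 2 + 1 / d := by positivity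
    have n2 : 0 ≤ d * D true t ^ 2 + 1 / d := by positivity
    have n3 : 0 ≤ q * (Mp false none t ι + Mp true none t ι) := by
      have a1 := A6_nonneg hd2 false none t hι0
      have a2 := A6_nonneg hd2 true none t hι0
      positivity
    by_cases ht : B t
    · have e1 : ind (B t) = 1 := by
        unfold ind
        rw [if_pos ht]
      have s1 := hsplit false t
      have s2 := hsplit true t
      have b1 := A6_abs d (D false t) hd0
      have b2 := A6_abs d (D true t) hd0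
      have e2 : 2 / c1 e3 * (1 : ℝ) = 1 / c1 e3 + 1 / c1 e3 := by ring
      rw [e1, e2]
      nlinarith
    · have e1 : ind (B t) = 0 := by
        unfold ind
        rw [if_neg ht]
      rw [e1, mul_zero]
      have g1 := hG t ht
      linarith
  obtain ⟨E, hE⟩ : ∃ E : Blk d k → ℝ, ∀ t, E t = Mp false none t ι + Mp true none t ι := ⟨_, fun _ => rfl⟩
  have hEs : ∑ t : Blk d k, E t = 2 / 2 ^ d * ∑ x, ι x := by
    rw [Finset.sum_congr rfl fun t _ => hE t]
    exact A6_sum hd2 ι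
  have hR : ∑ t : Blk d k, (22 / 1000 + (d * D false t ^ 2 + 1 / d) + (d * D true t ^ 2 + 1 / d) +
      2 / c1 e3 * ind (B t) + q * E t) = NN d k * (22 / 1000) + (d * ∑ t : Blk d k, D false t ^ 2 + NN d k * (1 / d)) +
        (d * ∑ t : Blk d k, D true t ^ 2 + NN d k * (1 / d)) + 2 / c1 e3 * cn B + q * (2 / 2 ^ d * ∑ x, ι x) := by
    simp only [Finset.sum_add_distrib, ← Finset.mul_sum, Finset.sum_const, Finset.card_univ, nsmul_eq_mul, card_Blk, hEs,
      ← A6_cn B]
  have hsum : 2 / 2 ^ d * ∑ x, bq c f x ≤ NN d k * (22 / 1000) + (d * ∑ t : Blk d k, D false t ^ 2 + NN d k * (1 / d)) +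
        (d * ∑ t : Blk d k, D true t ^ 2 + NN d k * (1 / d)) + 2 / c1 e3 * cn B + q * (2 / 2 ^ d * ∑ x, ι x) := by
    rw [← hR, ← A6_sum hd2]
    refine Finset.sum_le_sum fun t _ => ?_
    rw [hE]
    exact hblk t
  have hbq : ∑ x, bq c f x = q * cn (fun v => f v = c) := by
    rw [A6_cn, Finset.mul_sum]
    refine Finset.sum_congr rfl fun x _ => ?_
    unfold bq ind
    split_ifs <;> simp
  have hιs : ∑ x, ι x = cn (fun v : Site d (k + 1) => (av f v : ℝ) < c1 e3 * q) := (A6_cn _).symm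
  rw [hbq, hιs] at hsum
  set I := cn (fun v => f v = c) with hI
  set J := cn (fun v : Site d (k + 1) => (av f v : ℝ) < c1 e3 * q) with hJ
  have q1 := h2 false
  have q2 := h2 true
  have hd3 : d * (NN d k / (d : ℝ) ^ 4) ≤ NN d k / d := by
    rw [div_eq_mul_inv, div_eq_mul_inv, ← mul_assoc, mul_comm (d : ℝ), mul_assoc]
    refine mul_le_mul_of_nonneg_left ?_ hN0
    have h5 : (1 : ℝ) ≤ (d : ℝ) ^ 2 := one_le_pow₀ (by linarith)
    have h6 : (d : ℝ) * ((d : ℝ) ^ 4)⁻¹ = (d : ℝ)⁻¹ * ((d : ℝ) ^ 2)⁻¹ := by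
      field_simp
    rw [h6]
    exact mul_le_of_le_one_right (by positivity) (inv_le_one_of_one_le₀ h5)
  have r1 : d * ∑ t : Blk d k, D false t ^ 2 ≤ NN d k / d := (mul_le_mul_of_nonneg_left q1 hd0.le).trans hd3
  have r2 : d * ∑ t : Blk d k, D true t ^ 2 ≤ NN d k / d := (mul_le_mul_of_nonneg_left q2 hd0.le).trans hd3
  have r3 : NN d k / d ≤ NN d k / 400 := div_le_div_of_nonneg_left hN0 (by norm_num) hd'
  have r4 : 2 / c1 e3 * cn B ≤ NN d k / 50 := by
    calc 2 / c1 e3 * cn B ≤ 2 / c1 e3 * (c1 e3 / 100 * NN d k) := mul_le_mul_of_nonneg_left hB (by positivity)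
      _ = NN d k / 50 := by
        field_simp
        ring
  have h2d : (0 : ℝ) < 2 ^ d := by positivity
  have r5 : q * (2 / 2 ^ d * J) ≤ NN d k / 100 := by
    have h7 : q * (2 / 2 ^ d * J) ≤ d * (2 / 2 ^ d * (NN d (k + 1) / (d : ℝ) ^ 3)) := by
      have hJ0 : 0 ≤ J := by rw [hJ, A6_cn]; exact Finset.sum_nonneg fun x _ => A6_ind0 _
      refine mul_le_mul hqd (mul_le_mul_of_nonneg_left h3 (by positivity)) (by positivity) hd0.le
    refine h7.trans ?_
    rw [NN_succ]
    have h8 : (d : ℝ) * (2 / 2 ^ d * (2 ^ d * NN d k / (d : ℝ) ^ 3)) = 2 * NN d k / (d : ℝ) ^ 2 := by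
      field_simp
    rw [h8, div_le_div_iff₀ (by positivity) (by norm_num)]
    have h9 : (200 : ℝ) ≤ (d : ℝ) ^ 2 := by nlinarith
    nlinarith
  have hfin : 2 / 2 ^ d * (q * I) ≤ NN d k / 10 := by
    have r6 : NN d k * (1 / (d : ℝ)) = NN d k / d := by ring
    rw [r6] at hsum
    linarith
  rw [le_div_iff₀ (by positivity), NN_succ]
  have h10 : 2 / 2 ^ d * (q * I) = 2 * (q * I) / 2 ^ d := by ring
  rw [h10, div_le_iff₀ h2d] at hfin
  nlinarith

private theorem A6_union2 {C d k q : ℕ} {P Q : (Site d k → Fin q) → Prop} (hd : 2 ≤ d)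
    (h : Rar C d k q P) (h' : Rar C d k q Q)
    (hN : (d : ℝ) ^ (C + 1) * Real.log 2 ≤ NN d k) :
    Rar (C + 1) d k q fun f => P f ∨ Q f := by
  have h1 : Rar (C + 1) d k q fun f => ∃ i : Bool, (fun b : Bool => if b then P else Q) i f := by
    refine Rar_union hd ?_ ?_
    · intro i
      cases i
      · simpa using h'
      · simpa using h
    · rw [Fintype.card_bool]
      exact_mod_cast hN
  refine h1.mono ?_
  intro f _ hf
  rcases hf with hf | hf
  · exact ⟨true, by simpa using hf⟩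
  · exact ⟨false, by simpa using hf⟩

end A6aux

theorem allbd (η : ℝ) (hη : 0 < η) : ∃ C : ℕ, EvT e3 fun d k q => Rg d q → ∀ c : Fin q,
    Rar C d (k + 1) q fun f => ∀ t : Blk d k, bdP η c (pat f t) := by
  classical
  have he : 0 < e3 := by unfold e3; norm_num
  have he1 : e3 ≤ 1 := by unfold e3; norm_num
  have hc1 : 0 < c1 e3 := by
    unfold c1
    have : (0 : ℝ) < (4 : ℝ) ^ (-A0 e3) := Real.rpow_pos_of_pos (by norm_num) _
    positivity
  have hη' : 0 < min η (1 / 1000) := lt_min hη (by norm_num)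
  obtain ⟨C, hW⟩ := ((tau2_wop (min η (1 / 1000)) (c1 e3 / 100) hη' (by positivity)).and blk_bq2).and
    (avail he he1 3).blk
  obtain ⟨C', hL⟩ := lowc
  refine ⟨max C C' + 1, ((((hW.and hL.shift).and (EvT_reg he he1 400)).and
    (EvT_NN (ε := e3) fun d _ => (d : ℝ) ^ (max C C' + 1) * Real.log 2).shift)).mono ?_⟩
  rintro d k q ⟨⟨⟨h1, h2⟩, h3⟩, h4⟩ hR c
  have hd400 : 400 ≤ d := by exact_mod_cast h3.1
  have hd1 : 1 ≤ d := by omega
  obtain ⟨hq, ha, -⟩ := rg_pos hd1 hR
  have hqd : (q : ℝ) ≤ d := by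
    have h5 := hR.2.1
    have h6 : (1000 : ℝ) * q ≤ 2 * d := by exact_mod_cast h5
    have h7 : (0 : ℝ) ≤ q := Nat.cast_nonneg q
    linarith
  have hms := ms_spec hd1 hR
  obtain ⟨yM, hyM⟩ := ym_exists (ra d q) (ms d q) (by linarith) hms
  have hyS := yM_small ha hms hyM
  refine (A6_union2 (by omega) (h1.mono_C hd1 (le_max_left C C')) ((h2 hR c).mono_C hd1 (le_max_right C C')) h4).mono ?_
  intro f hf hbd
  by_contra hcon
  rw [not_or, not_not] at hcon
  obtain ⟨⟨⟨w1, w2⟩, w3⟩, w4⟩ := hcon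
  refine w4 ?_
  have hP : Prp f := (mem_filter.1 hf).2
  refine A6_det hd400 hq hqd hc1 c hP (fun t => ¬ tau2 (min η (1 / 1000)) (ms d q) yM c f t)
    (w1 hR yM hyM c) ?_ (fun e => w2 e c none) ?_
  · intro t ht
    rw [not_not] at ht
    obtain ⟨τ, hτ, t1, t2⟩ := ht
    obtain ⟨b1, b2⟩ := hbd t
    have hm1 : min η (1 / 1000) ≤ η := min_le_left _ _
    have hm2 : min η (1 / 1000) ≤ 1 / 1000 := min_le_right _ _
    rcases hτ with hτ | hτ | hτ
    · exfalso
      refine b2 fun s => ⟨?_, ?_⟩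
      · have h5 := t2 s
        rw [hτ, Fy_sub _ _ hms] at h5
        rw [frq_eq]
        exact h5.trans hm1
      · have h5 := t1 s
        rw [hτ] at h5
        rw [frq_eq]
        exact h5.trans hm1
    · have h5 := (abs_le.mp (t1 none)).2
      have h6 := (abs_le.mp (t2 none)).2
      rw [hτ] at h5 h6
      have h7 : Fy (ra d q) (ms d q) yM = yM := hyM.2.symm
      rw [h7] at h6
      linarith
    · exfalso
      refine b1 fun s => ⟨?_, ?_⟩
      · have h5 := t1 s
        rw [hτ] at h5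
        rw [frq_eq]
        exact h5.trans hm1
      · have h5 := t2 s
        rw [hτ, Fy_add _ _ hms] at h5
        rw [frq_eq]
        exact h5.trans hm1
  · exact w3

end Pool.Agent.LC
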