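import Pool.Agent.Lib_MP_2c424f_lc1.A6
import Pool.Agent.Lib_MP_2c424f_thr.B6

/-!
# LC1 A7: few blocks without label

`bd_chess`: as THR B6 `pbadT` (LO.rp, LO.chess), with locality (`bdP` depends on the colours of the points of the closed block) and reflection invariance
(`pt (rb j α t) a' b' = rs j α (pt t a b)` with the bits of direction `j` complemented; parity of the pair unchanged, shapes are permuted), compare THR B1b `bdT_loc`, `bdT_sym`.
`bd_few`: union bound over `Γ`, `|Γ| ≥ N_b/d^(K+1)` (`N_b = NN d k`), and over the colours: `q 2^(N_b) exp (-2^d/d^C * N_b/d^(K+1)) ≤ exp (-N/d^(C+K+2))`, `N = 2^d N_b`.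
-/

set_option autoImplicit false

open Finset Filter

namespace Pool.Agent.LC

open Pool.Agent.LO Pool.Agent.LIN Pool.Agent.THR Pool.Agent.COR

private theorem A7_flp_self {d : ℕ} (a : Bt d) (j : Fin d) : flp a j j = !a j := by
  unfold flp
  exact Function.update_self _ _ _

private theorem A7_flp_ne {d : ℕ} (a : Bt d) (i j : Fin d) (h : i ≠ j) : flp a j i = a i := by
  unfold flp
  exact Function.update_of_ne h _ _

private theorem A7_flp_flp {d : ℕ} (a : Bt d) (j : Fin d) : flp (flp a j) j = a := by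
  funext i
  by_cases h : i = j
  · subst h
    rw [A7_flp_self, A7_flp_self, Bool.not_not]
  · rw [A7_flp_ne _ _ _ h, A7_flp_ne _ _ _ h]

private theorem A7_od {d : ℕ} (j : Fin d) (a b : Bt d) : od (flp a j) (flp b j) ↔ od a b := by
  unfold od
  have h : (univ.filter fun i => flp a j i ≠ flp b j i) = univ.filter fun i => a i ≠ b i := by
    apply Finset.filter_congr
    intro i _
    by_cases hi : i = j
    · subst hi
      rw [A7_flp_self, A7_flp_self]
      cases a i <;> cases b i <;> simp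
    · rw [A7_flp_ne _ _ _ hi, A7_flp_ne _ _ _ hi]
  rw [h]

/-- the reflected shape -/
private def A7_fl {d : ℕ} (j : Fin d) (s : Shp d) : Shp d :=
  match s with
  | none => none
  | some (i, β) => some (i, if i = j then !β else β)

private theorem A7_fl_fl {d : ℕ} (j : Fin d) (s : Shp d) : A7_fl j (A7_fl j s) = s := by
  rcases s with _ | ⟨i, β⟩
  · rfl
  · unfold A7_fl
    by_cases h : i = j <;> simp [h]

private theorem A7_inS {d : ℕ} (j : Fin d) (s : Shp d) (a b : Bt d) :
    inS s a b ↔ inS (A7_fl j s) (flp a j) (flp b j) := by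
  rcases s with _ | ⟨i, β⟩
  · exact Iff.rfl
  · unfold inS A7_fl
    by_cases h : i = j
    · subst h
      simp only [if_true, A7_flp_self]
      cases β <;> cases a i <;> cases b i <;> simp
    · simp only [if_neg h, A7_flp_ne _ _ _ h]

/-- the points of the shape of one parity -/
private noncomputable def A7_S {d : ℕ} (e : Bool) (s : Shp d) : Finset (Bt d × Bt d) :=
  if e then eS s else oS s

private theorem A7_mem {d : ℕ} (e : Bool) (s : Shp d) (p : Bt d × Bt d) :
    p ∈ A7_S e s ↔ (od p.1 p.2 ↔ e = false) ∧ inS s p.1 p.2 := by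
  classical
  unfold A7_S
  cases e
  · rw [if_neg (by simp)]
    unfold oS
    rw [mem_filter]
    simp
  · rw [if_pos rfl]
    unfold eS
    rw [mem_filter]
    simp

private theorem A7_sum {d : ℕ} (e : Bool) (s : Shp d) (j : Fin d) (F G : Bt d × Bt d → ℝ)
    (hFG : ∀ p, F p = G (flp p.1 j, flp p.2 j)) :
    ∑ p ∈ A7_S e s, F p = ∑ p ∈ A7_S e (A7_fl j s), G p := by
  refine Finset.sum_nbij' (fun p => (flp p.1 j, flp p.2 j)) (fun p => (flp p.1 j, flp p.2 j))
    ?_ ?_ ?_ ?_ (fun p _ => hFG p)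
  · intro p hp
    rw [A7_mem] at hp ⊢
    exact ⟨(A7_od j p.1 p.2).trans hp.1, (A7_inS j s p.1 p.2).1 hp.2⟩
  · intro p hp
    rw [A7_mem] at hp ⊢
    refine ⟨(A7_od j p.1 p.2).trans hp.1, ?_⟩
    rw [A7_inS j s, A7_flp_flp, A7_flp_flp]
    exact hp.2
  · intro p _
    simp only [A7_flp_flp]
  · intro p _
    simp only [A7_flp_flp]

private theorem A7_frq {d q : ℕ} (e : Bool) (s : Shp d) (c : Fin q) (g : Pat d q) (j : Fin d) :
    frq e s c (fun a b => g (flp a j) (flp b j)) = frq e (A7_fl j s) c g := by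
  have h1 := A7_sum e s j (fun p => if g (flp p.1 j) (flp p.2 j) = c then (q : ℝ) else 0)
    (fun p => if g p.1 p.2 = c then (q : ℝ) else 0) (fun _ => rfl)
  have h2 := A7_sum e s j (fun _ => 1) (fun _ => 1) (fun _ => rfl)
  rw [Finset.sum_const, Finset.sum_const, nsmul_eq_mul, nsmul_eq_mul, mul_one, mul_one] at h2
  unfold A7_S at h1 h2
  unfold frq
  rw [h2]
  congr 1

private theorem A7_st {d q : ℕ} (η : ℝ) (hi : Bool) (c : Fin q) (g : Pat d q) (j : Fin d)
    (h : st η hi c (fun a b => g (flp a j) (flp b j))) : st η hi c g := by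
  intro s
  have h1 := h (A7_fl j s)
  rw [A7_frq, A7_frq, A7_fl_fl] at h1
  exact h1

private theorem A7_sym {d k q : ℕ} (η : ℝ) (c : Fin q) (j : Fin d) (α : ZMod (2 ^ k)) (t : Blk d k)
    (f : Site d (k + 1) → Fin q) (hb : bdP η c (pat f t)) :
    bdP η c (pat (fun x => f (rs j α x)) (rb j α t)) := by
  have e : pat (fun x => f (rs j α x)) (rb j α t) = fun a b => pat f t (flp a j) (flp b j) := by
    funext a b
    unfold pat
    beta_reduce
    rw [rs_pt, rb_rb]
  rw [e]
  exact ⟨fun h => hb.1 (A7_st η true c _ j h), fun h => hb.2 (A7_st η false c _ j h)⟩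

private theorem A7_loc {d k q : ℕ} (η : ℝ) (c : Fin q) (t : Blk d k)
    (f g : Site d (k + 1) → Fin q) (h : ∀ a b, f (pt t a b) = g (pt t a b))
    (hb : bdP η c (pat f t)) : bdP η c (pat g t) := by
  have e : pat f t = pat g t := by
    funext a b
    exact h a b
  rwa [← e]

private theorem A7_ZZ (d k q : ℕ) : 0 ≤ ZZ d k q := by
  unfold ZZ
  positivity

private theorem A7_e3 : (0 : ℝ) < e3 := by unfold e3; norm_num

private theorem A7_e3' : e3 ≤ (1 : ℝ) := by unfold e3; norm_num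

theorem bd_chess (η : ℝ) (hη : 0 < η) : ∃ C : ℕ, EvT e3 fun d k q => Rg d q → ∀ (c : Fin q) (Γ : Finset (Blk d k)),
    cE (fun t f => bdP η c (pat f t)) Γ ≤ ZZ d (k + 1) q * Real.exp (-(2 ^ d / (d : ℝ) ^ C)) ^ Γ.card := by
  classical
  obtain ⟨C, hab⟩ := allbd η hη
  refine ⟨C, (hab.and (EvT_reg A7_e3 A7_e3' 1)).mono fun d k q h => ?_⟩
  obtain ⟨hab, -, -, hk, -⟩ := h
  have hk1 : 1 ≤ k := by exact_mod_cast hk
  intro hR c
  have hfull : cE (fun t f => bdP η c (pat f t)) (univ : Finset (Blk d k)) ≤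
      ZZ d (k + 1) q * Real.exp (-(2 ^ d / (d : ℝ) ^ C)) ^ (Fintype.card (Blk d k)) := by
    have h1 := hab hR c
    unfold Rar at h1
    have h2 : cE (fun t f => bdP η c (pat f t)) (univ : Finset (Blk d k)) ≤
        ZZ d (k + 1) q * Real.exp (-(NN d (k + 1) / (d : ℝ) ^ C)) := by
      refine le_trans (le_of_eq ?_) h1
      unfold cE
      congr 2
      ext f
      simp only [mem_filter, mem_univ, forall_const]
    refine le_trans h2 ?_
    apply mul_le_mul_of_nonneg_left _ (A7_ZZ _ _ _)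
    rw [← Real.exp_nat_mul]
    apply Real.exp_le_exp.2
    rw [card_Blk, NN_succ]
    have : NN d k * -((2 : ℝ) ^ d / (d : ℝ) ^ C) = -(2 ^ d * NN d k / (d : ℝ) ^ C) := by ring
    rw [this]
  exact chess hk1 (cE (fun t f => bdP η c (pat f t))) (ZZ d (k + 1) q)
    (Real.exp (-(2 ^ d / (d : ℝ) ^ C))) (Real.exp_pos _) (A7_ZZ _ _ _)
    (fun Γ => by unfold cE; positivity)
    (fun j α Γ => rp hk1 (fun t f => bdP η c (pat f t))
      (fun t f g h hb => A7_loc η c t f g h hb)
      (fun j α t f hb => A7_sym η c j α t f hb) j α Γ)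
    (by
      unfold cE ZZ
      exact_mod_cast Finset.card_le_card (Finset.filter_subset _ _))
    hfull

private theorem A7_Rar_false {C d k q : ℕ} {P : (Site d k → Fin q) → Prop} (h : ∀ f, ¬ P f) :
    Rar C d k q P := by
  classical
  unfold Rar
  have e : (prps d k q).filter P = ∅ := by
    ext f
    simp [h f]
  rw [filter_congr_decidable, e, Finset.card_empty, Nat.cast_zero]
  exact mul_nonneg (A7_ZZ _ _ _) (Real.exp_pos _).le

private theorem A7_pow (m : ℕ) : ∀ᶠ d : ℕ in atTop, 2 * (d : ℝ) ^ m ≤ 2 ^ d := by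
  have h1 : ∀ᶠ n : ℕ in Filter.atTop, (n : ℝ) ^ m / (2 : ℝ) ^ n < 1 / 2 :=
    (tendsto_pow_const_div_const_pow_of_one_lt m (by norm_num : (1 : ℝ) < 2)).eventually
      (gt_mem_nhds (by norm_num))
  filter_upwards [h1] with d hd
  have h2p : (0 : ℝ) < 2 ^ d := by positivity
  rw [div_lt_div_iff₀ h2p (by norm_num)] at hd
  linarith

private theorem A7_NN (d k : ℕ) : 0 ≤ NN d k := by
  unfold NN
  positivity

theorem bd_few (η : ℝ) (hη : 0 < η) (K : ℕ) : WOPb e3 fun d k q f => Rg d q →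
    cn (fun t : Blk d k => ∃ c : Fin q, bdP η c (pat f t)) ≤ NN d k / (d : ℝ) ^ K := by
  classical
  obtain ⟨C, hC⟩ := bd_chess η hη
  refine ⟨C + K + 1 + 1, ((((hC.and (EvT_reg A7_e3 A7_e3' 2)).and
    (EvT_d (A7_pow (C + K + 1 + 1)))).and (EvT_NN (ε := e3) fun _ q => (q : ℝ)))).mono ?_⟩
  rintro d k q ⟨⟨⟨hC, hd, hq, -⟩, hp⟩, hqN⟩
  by_cases hR : Rg d q
  swap
  · exact A7_Rar_false fun f hf => hf fun h => absurd h hR
  have hC1 := hC hR
  have hdn : 2 ≤ d := by exact_mod_cast hd
  have hd0 : (0 : ℝ) < d := by linarith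
  have hN := A7_NN d k
  have hqd : (q : ℝ) ≤ d := by
    have h1 : ((1000 * q : ℕ) : ℝ) ≤ ((2 * d : ℕ) : ℝ) := by exact_mod_cast hR.2.1
    push_cast at h1
    linarith
  have hq0 : (0 : ℝ) < q := by linarith
  have hone : ∀ i : Fin q × Finset (Blk d k), Rar (C + K + 1) d (k + 1) q fun f =>
      NN d k / (d : ℝ) ^ (K + 1) ≤ (i.2.card : ℝ) ∧ ∀ t ∈ i.2, bdP η i.1 (pat f t) := by
    rintro ⟨c, Γ⟩
    by_cases hΓ : NN d k / (d : ℝ) ^ (K + 1) ≤ (Γ.card : ℝ)
    swap
    · exact A7_Rar_false fun f hf => hΓ hf.1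
    have h1 := hC1 c Γ
    unfold Rar
    have h2 : ZZ d (k + 1) q * Real.exp (-(2 ^ d / (d : ℝ) ^ C)) ^ Γ.card ≤
        ZZ d (k + 1) q * Real.exp (-(NN d (k + 1) / (d : ℝ) ^ (C + K + 1))) := by
      apply mul_le_mul_of_nonneg_left _ (A7_ZZ _ _ _)
      rw [← Real.exp_nat_mul]
      apply Real.exp_le_exp.2
      rw [NN_succ]
      have h3 : (2 ^ d * NN d k / (d : ℝ) ^ (C + K + 1)) =
          (2 ^ d / (d : ℝ) ^ C) * (NN d k / (d : ℝ) ^ (K + 1)) := by
        rw [div_mul_div_comm, ← pow_add, add_assoc]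
      rw [h3, mul_neg, neg_le_neg_iff, mul_comm]
      exact mul_le_mul_of_nonneg_right hΓ (by positivity)
    refine le_trans (le_trans (le_of_eq ?_) h1) h2
    unfold cE
    congr 2
    ext f
    simp only [mem_filter, hΓ, true_and]
  have hun := Rar_union hdn hone (by
    have hcard : (Fintype.card (Fin q × Finset (Blk d k)) : ℝ) =
        q * 2 ^ (Fintype.card (Blk d k)) := by
      rw [Fintype.card_prod, Fintype.card_fin, Fintype.card_finset]
      push_cast
      rfl
    rw [hcard, Real.log_mul hq0.ne' (by positivity), Real.log_pow, card_Blk, NN_succ]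
    have h1 : Real.log q ≤ NN d k := by
      have := Real.log_le_sub_one_of_pos hq0
      linarith
    have h2 : Real.log 2 ≤ 1 := by
      have := Real.log_two_lt_d9
      linarith
    have h3 : Real.log q + NN d k * Real.log 2 ≤ 2 * NN d k := by nlinarith
    calc (d : ℝ) ^ (C + K + 1 + 1) * (Real.log q + NN d k * Real.log 2)
        ≤ (d : ℝ) ^ (C + K + 1 + 1) * (2 * NN d k) :=
          mul_le_mul_of_nonneg_left h3 (by positivity)
      _ = 2 * (d : ℝ) ^ (C + K + 1 + 1) * NN d k := by ring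
      _ ≤ 2 ^ d * NN d k := mul_le_mul_of_nonneg_right hp hN)
  refine hun.mono ?_
  intro f _ hf
  have hf2 : ¬ (cn (fun t : Blk d k => ∃ c : Fin q, bdP η c (pat f t)) ≤ NN d k / (d : ℝ) ^ K) :=
    fun h => hf fun _ => h
  by_contra hno
  apply hf2
  have hsm : ∀ c : Fin q, ((univ.filter fun t : Blk d k => bdP η c (pat f t)).card : ℝ) <
      NN d k / (d : ℝ) ^ (K + 1) := by
    intro c
    by_contra hcc
    exact hno ⟨(c, univ.filter fun t : Blk d k => bdP η c (pat f t)), not_lt.mp hcc,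
      fun t ht => (mem_filter.mp ht).2⟩
  have h1 : cn (fun t : Blk d k => ∃ c : Fin q, bdP η c (pat f t)) ≤
      ∑ c : Fin q, ((univ.filter fun t : Blk d k => bdP η c (pat f t)).card : ℝ) := by
    unfold cn
    have h2 : (univ.filter fun t : Blk d k => ∃ c : Fin q, bdP η c (pat f t)) ⊆
        (univ : Finset (Fin q)).biUnion fun c => univ.filter fun t : Blk d k =>
          bdP η c (pat f t) := by
      intro t ht
      rw [mem_filter] at ht
      obtain ⟨_, c, hc⟩ := ht
      rw [mem_biUnion]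
      exact ⟨c, mem_univ _, mem_filter.mpr ⟨mem_univ _, hc⟩⟩
    have h3 := (card_le_card h2).trans card_biUnion_le
    rw [filter_congr_decidable]
    exact_mod_cast h3
  refine h1.trans ?_
  refine (Finset.sum_le_sum fun c _ => (hsm c).le).trans ?_
  rw [Finset.sum_const, Finset.card_univ, Fintype.card_fin, nsmul_eq_mul]
  have h4 : NN d k / (d : ℝ) ^ K = d * (NN d k / (d : ℝ) ^ (K + 1)) := by
    rw [pow_succ]
    field_simp
  rw [h4]
  exact mul_le_mul_of_nonneg_right hqd (by positivity)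

end Pool.Agent.LC
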