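import Pool.Agent.Lib_MP_2c424f_lc1.Defs
import Pool.Agent.Lib_MP_2c424f_thr.A1
import Pool.Agent.Lib_MP_2c424f_thr.A2

/-!
# LC1 T7: the mean-field numbers in the regime `1000 ≤ a ≤ 2000`

THR A1 (existence and uniqueness of `m`), A2 (`1 ± m` are exchanged by `Fy`).  `m ≥ 1 - 3 e^{-2a}`: `1 - tanh x = 2/(e^{2x}+1) ≤ 2 e^{-2x}`; first `1 - m ≤ 1 - m² ≤ 1/a²` (`mfe_nondeg`)
so `a(1-m) ≤ 1/a` is tiny, then
`1 - m ≤ 2 e^{-2a} e^{2a(1-m)} ≤ 3 e^{-2a}`.
`als a m = (e^{-a(1-m)} + e^{-a(1+m)})/2`.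
-/

set_option autoImplicit false

open Finset Filter

namespace Pool.Agent.LC

open Pool.Agent.LO Pool.Agent.LIN Pool.Agent.THR Pool.Agent.COR

/-- facts about the regime -/
theorem rg_pos {d q : ℕ} (hd : 1 ≤ d) (h : Rg d q) : 0 < q ∧ (1000 : ℝ) ≤ ra d q ∧ ra d q ≤ 2000 ∧ 2 * (d : ℝ) = ra d q * q ∧
    e3 * d ≤ q ∧ (q : ℝ) ≤ (2 - e3) * d ∧ 0 < e3 ∧ e3 ≤ 1 ∧ A0 e3 = 2000 := by
  obtain ⟨_, h1, h2⟩ := h
  have hq : 0 < q := by
    rcases Nat.eq_zero_or_pos q with rfl | hq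
    · omega
    · exact hq
  have hqr : (0 : ℝ) < q := by exact_mod_cast hq
  have h1r : 1000 * (q : ℝ) ≤ 2 * d := by exact_mod_cast h1
  have h2r : 2 * (d : ℝ) ≤ 2000 * q := by exact_mod_cast h2
  have hdr : (1 : ℝ) ≤ d := by exact_mod_cast hd
  refine ⟨hq, ?_, ?_, ?_, ?_, ?_, ?_, ?_, ?_⟩
  · unfold ra
    rw [le_div_iff₀ hqr]
    exact h1r
  · unfold ra
    rw [div_le_iff₀ hqr]
    exact h2r
  · unfold ra
    rw [div_mul_cancel₀ _ hqr.ne']
  · unfold e3
    linarith
  · unfold e3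
    linarith
  · unfold e3
    norm_num
  · unfold e3
    norm_num
  · unfold A0 e3
    norm_num

theorem mf_num {a m : ℝ} (ha : 1000 ≤ a) (hm : MFE a m) : 0 < m ∧ m < 1 ∧ 1 - m ≤ 3 * Real.exp (-(2 * a)) ∧
    0 < 1 - m ∧ |als a m - 1 / 2| ≤ Real.exp (-a) ∧ Real.exp (-(a * (1 - m))) = als a m * (1 + m) ∧
    Real.exp (-(a * (1 + m))) = als a m * (1 - m) ∧ 0 < als a m ∧ als a m ≤ 1 ∧ Real.exp (-1) ≤ als a m ∧
    a * (1 - m) ≤ Real.exp (-a) := by
  have hm0 : 0 < m := hm.1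
  have hm1 : m < 1 := mfe_lt a m hm
  have ha0 : 0 < a := by linarith
  have hals := als_pos a m
  have hsub : Real.exp (-(a * (1 - m))) = als a m * (1 + m) := by
    have h := Fy_sub a m hm
    unfold Fy at h
    rw [div_eq_iff hals.ne'] at h
    rw [h]; ring
  have hadd : Real.exp (-(a * (1 + m))) = als a m * (1 - m) := by
    have h := Fy_add a m hm
    unfold Fy at h
    rw [div_eq_iff hals.ne'] at h
    rw [h]; ring
  have hnd := mfe_nondeg a m (by linarith) hm
  have h1m : 0 < 1 - m := by linarith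
  have hsmall : a * (1 - m) ≤ 1 / 1000 := by
    have h2 : a ^ 2 * (1 - m) ≤ 1 := by
      have : a ^ 2 * (1 - m) ≤ a ^ 2 * (1 - m ^ 2) := by
        apply mul_le_mul_of_nonneg_left _ (by positivity)
        nlinarith
      linarith
    have h3 : 1000 * (a * (1 - m)) ≤ a * (a * (1 - m)) :=
      mul_le_mul_of_nonneg_right ha (by positivity)
    nlinarith
  have hup : 1 - m ≤ 3 * Real.exp (-(2 * a)) := by
    have hr : Real.exp (-(a * (1 + m))) * (1 + m) = Real.exp (-(a * (1 - m))) * (1 - m) := by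
      rw [hsub, hadd]; ring
    have hr2 : 1 - m = (1 + m) * (Real.exp (-(2 * a)) * Real.exp (2 * (a * (1 - m)))) := by
      have e1 : Real.exp (-(2 * a)) * Real.exp (2 * (a * (1 - m))) * Real.exp (-(a * (1 - m))) =
          Real.exp (-(a * (1 + m))) := by
        rw [← Real.exp_add, ← Real.exp_add]
        congr 1; ring
      have hp := Real.exp_pos (-(a * (1 - m)))
      have : Real.exp (-(a * (1 - m))) * (1 - m) =
          Real.exp (-(a * (1 - m))) * ((1 + m) * (Real.exp (-(2 * a)) * Real.exp (2 * (a * (1 - m))))) := by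
        rw [← hr, ← e1]; ring
      exact mul_left_cancel₀ hp.ne' this
    have he2 : Real.exp (2 * (a * (1 - m))) ≤ 3 / 2 := by
      have h5 : Real.exp (2 * (a * (1 - m))) ≤ Real.exp (1 / 500) := Real.exp_le_exp.2 (by linarith)
      have h6 : Real.exp (1 / 500 : ℝ) ≤ 1 / (1 - 1 / 500) := by
        rw [le_div_iff₀ (by norm_num)]
        have h7 : 1 - (1 / 500 : ℝ) ≤ Real.exp (-(1 / 500)) := by
          have := Real.add_one_le_exp (-(1 / 500 : ℝ))
          linarith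
        calc Real.exp (1 / 500 : ℝ) * (1 - 1 / 500) ≤ Real.exp (1 / 500 : ℝ) * Real.exp (-(1 / 500)) :=
              mul_le_mul_of_nonneg_left h7 (Real.exp_pos _).le
          _ = 1 := by rw [← Real.exp_add]; simp
      have h8 : (1 : ℝ) / (1 - 1 / 500) ≤ 3 / 2 := by norm_num
      linarith
    have hp2 := Real.exp_pos (-(2 * a))
    calc 1 - m = (1 + m) * (Real.exp (-(2 * a)) * Real.exp (2 * (a * (1 - m)))) := hr2
      _ ≤ 2 * (Real.exp (-(2 * a)) * (3 / 2)) := by
          apply mul_le_mul (by linarith) _ (by positivity) (by norm_num)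
          exact mul_le_mul_of_nonneg_left he2 hp2.le
      _ = 3 * Real.exp (-(2 * a)) := by ring
  have hea : 3 * a * Real.exp (-a) ≤ 1 := by
    have h9 : a ^ 2 / 2 ≤ Real.exp a := by
      have := Real.quadratic_le_exp_of_nonneg ha0.le
      nlinarith
    have h10 : 3 * a ≤ Real.exp a := by nlinarith
    calc 3 * a * Real.exp (-a) ≤ Real.exp a * Real.exp (-a) :=
          mul_le_mul_of_nonneg_right h10 (Real.exp_pos _).le
      _ = 1 := by rw [← Real.exp_add]; simp
  have hlast : a * (1 - m) ≤ Real.exp (-a) := by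
    have e2 : Real.exp (-(2 * a)) = Real.exp (-a) * Real.exp (-a) := by
      rw [← Real.exp_add]; congr 1; ring
    calc a * (1 - m) ≤ a * (3 * Real.exp (-(2 * a))) := mul_le_mul_of_nonneg_left hup ha0.le
      _ = 3 * a * Real.exp (-a) * Real.exp (-a) := by rw [e2]; ring
      _ ≤ 1 * Real.exp (-a) := mul_le_mul_of_nonneg_right hea (Real.exp_pos _).le
      _ = Real.exp (-a) := one_mul _
  have hsum : 2 * als a m = Real.exp (-(a * (1 - m))) + Real.exp (-(a * (1 + m))) := by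
    rw [hsub, hadd]; ring
  have hb1 : 1 - a * (1 - m) ≤ Real.exp (-(a * (1 - m))) := by
    have := Real.add_one_le_exp (-(a * (1 - m)))
    linarith
  have hb2 : Real.exp (-(a * (1 - m))) ≤ 1 := Real.exp_le_one_iff.2 (by
    have : 0 < a * (1 - m) := by positivity
    linarith)
  have hb3 : Real.exp (-(a * (1 + m))) ≤ Real.exp (-a) := Real.exp_le_exp.2 (by
    have : 0 < a * m := by positivity
    nlinarith)
  have hb4 := Real.exp_pos (-(a * (1 + m)))
  have habs : |als a m - 1 / 2| ≤ Real.exp (-a) := by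
    rw [abs_le]
    constructor <;> linarith
  have hbd := als_bounds a m ha0.le (by rw [abs_of_pos hm0]; exact hm1.le)
  refine ⟨hm0, hm1, hup, h1m, habs, hsub, hadd, hals, hbd.2, ?_, hlast⟩
  have h11 := Real.exp_neg_one_lt_d9
  have h12 : Real.exp (-a) ≤ 1 / 3000 := by
    have h13 : 3000 * Real.exp (-a) ≤ 3 * a * Real.exp (-a) :=
      mul_le_mul_of_nonneg_right (by linarith) (Real.exp_pos _).le
    linarith
  have h14 := (abs_le.1 habs).1
  norm_num at h11
  linarith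

/-- the number `ms d q` -/
theorem ms_spec {d q : ℕ} (hd : 1 ≤ d) (h : Rg d q) : MFE (ra d q) (ms d q) := by
  have hex : ∃ m : ℝ, MFE (ra d q) m := mfe_exists _ (by have := (rg_pos hd h).2.1; linarith)
  unfold ms
  rw [dif_pos hex]
  exact hex.choose_spec

/-- uniqueness -/
theorem ms_uniq {d q : ℕ} (hd : 1 ≤ d) (h : Rg d q) {m : ℝ} (hm : MFE (ra d q) m) : m = ms d q := by
  exact mfe_unique (ra d q) m (ms d q) (by have := (rg_pos hd h).2.1; linarith) hm (ms_spec hd h)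

/-- from `THR` to the regime `Rg` -/
theorem EvR_of_EvT {P : ℕ → ℕ → ℕ → Prop} (h : EvT e3 fun d k q => Rg d q → P d k q) : EvR P := by
  obtain ⟨d₀, hd₀⟩ := h
  refine ⟨max d₀ 1, fun d q hd hR => ?_⟩
  have h1 : 1 ≤ d := le_trans (le_max_right _ _) hd
  obtain ⟨_, _, _, _, h2, h3, _⟩ := rg_pos h1 hR
  exact (hd₀ d q (le_trans (le_max_left _ _) hd) h2 h3).mono fun k hk => hk hR

/-- facts in the regime, `d` large -/
theorem EvT_of_Rg {P : ℕ → ℕ → ℕ → Prop} (h : EvR P) : EvT e3 fun d k q => Rg d q → P d k q := by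
  obtain ⟨d₀, hd₀⟩ := h
  refine ⟨d₀, fun d q hd _ _ => ?_⟩
  by_cases hR : Rg d q
  · exact (hd₀ d q hd hR).mono fun k hk _ => hk
  · exact Eventually.of_forall fun k hk => absurd hk hR

end Pool.Agent.LC
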