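import Pool.Agent.Lib_MP_2c424f_lc1.T2
import Pool.Agent.Lib_MP_2c424f_lc1.T7
import Pool.Agent.Lib_MP_2c424f_lc1.B1

/-!
# LC1 B2: small gradients of the `t`-step averages outside few sites

Fix `b, c, c', σ, τ`, `D x := PP^[t] (sg c c' f) (x+σ) - PP^[t] (sg c c' f) (x+τ)`, `φ = 1` where `D x > 2C₄/q²` (`x ∈ cls b`): `iso_K` at the level `K + 8`:
`2C₄/q² #φ ≤ C₄/q² #φ + 2N/d^(K+8)`, so `#φ ≤ 2 q² N/(C₄ d^(K+8))`.  The union over `b, c, c', σ, τ` (at most `2 q² (2d)²`, both signs by exchanging `σ, τ`) has at most `N/d^K` sites.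
Outside: `bq c f - 1 = ∑_{c'} sg c c' f` (`∑_{c'} 1[f = c'] = 1`, and `sg c c = 0`), so `|PP^[t](bq c f)(x+σ) - PP^[t](bq c f)(x+τ)| ≤ q * 2C₄/q²`.  `C₄' = 2 C₄`.
-/

set_option autoImplicit false

open Finset Filter

namespace Pool.Agent.LC

open Pool.Agent.LO Pool.Agent.LIN Pool.Agent.THR Pool.Agent.COR

/-- the gradient of one difference -/
noncomputable def B2_D {d k q : ℕ} (t : ℕ) (f : Site d k → Fin q) (c c' : Fin q) (σ τ : Stp d) (x : Site d k) : ℝ :=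
  PP^[t] (THR.sg c c' f) (x + sv σ) - PP^[t] (THR.sg c c' f) (x + sv τ)

theorem B2_bq {d k q : ℕ} (c : Fin q) (f : Site d k → Fin q) (v : Site d k) :
    bq c f v = ∑ c', THR.sg c c' f v + 1 := by
  unfold bq THR.sg
  rw [Finset.sum_sub_distrib, Finset.sum_const, Finset.card_univ, Fintype.card_fin, nsmul_eq_mul]
  simp only [Finset.sum_ite_eq, Finset.mem_univ, if_true]
  split_ifs <;> simp

theorem B2_grad {d k q : ℕ} (hd : 1 ≤ d) (t : ℕ) (f : Site d k → Fin q) (c : Fin q) (σ τ : Stp d) (x : Site d k) :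
    PP^[t] (bq c f) (x + sv σ) - PP^[t] (bq c f) (x + sv τ) = ∑ c', B2_D t f c c' σ τ x := by
  have h1 : ∀ y : Site d k, PP^[t] (bq c f) y = ∑ c', PP^[t] (THR.sg c c' f) y + 1 := by
    intro y
    have h2 : bq c f = fun y => (∑ c', THR.sg c c' f y) - (-1 : ℝ) := by
      funext v
      rw [B2_bq]
      ring
    rw [h2, PPt_sub, PPt_sum, PPt_const hd]
    ring
  rw [h1, h1]
  unfold B2_D
  rw [Finset.sum_sub_distrib]
  ring

/-- the sites with a large gradient of one difference -/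
noncomputable def B2_S {d k q : ℕ} (C₄ : ℝ) (t : ℕ) (f : Site d k → Fin q)
    (i : Bool × Fin q × Fin q × Stp d × Stp d) : Finset (Site d k) := by
  classical
  exact univ.filter fun x => x ∈ cls i.1 d k ∧ 2 * C₄ / (q : ℝ) ^ 2 < B2_D t f i.2.1 i.2.2.1 i.2.2.2.1 i.2.2.2.2 x

theorem grad_K : ∃ C₄ : ℝ, 0 < C₄ ∧ ∀ K : ℕ, ∃ t : ℕ, Even t ∧ 20 ≤ t ∧ SRK K fun _ _ _ f v => Gb C₄ t f v := by
  classical
  obtain ⟨C₄, hC0, hC⟩ := iso_K (ε := e3) (by unfold e3; norm_num) (by unfold e3; norm_num)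
  refine ⟨2 * C₄, by positivity, fun K => ?_⟩
  obtain ⟨t, ht, ht20, hW⟩ := hC (K + 8)
  refine ⟨t, ht, ht20, hW.mono ?_⟩
  obtain ⟨D0, hD0⟩ := exists_nat_ge (16 / C₄)
  refine ⟨max D0 2, fun d q hd _ _ => Filter.Eventually.of_forall fun k f hf hiso hR => ?_⟩
  have hdD : D0 ≤ d := (le_max_left _ _).trans hd
  have hd2 : 2 ≤ d := (le_max_right _ _).trans hd
  have hdR : (2 : ℝ) ≤ d := by exact_mod_cast hd2
  obtain ⟨hq0, ha1, ha2, hda, -⟩ := rg_pos (by omega) hR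
  have hq0R : (0 : ℝ) < q := by exact_mod_cast hq0
  have hqd : (q : ℝ) ≤ d := by
    have h1 : 1000 * (q : ℝ) ≤ 2 * d := by exact_mod_cast hR.2.1
    linarith
  have hN0 : 0 ≤ NN d k := by unfold NN; positivity
  -- the size of one set
  have h1 : ∀ i, ((B2_S C₄ t f i).card : ℝ) ≤ 2 * (q : ℝ) ^ 2 / C₄ * (NN d k / (d : ℝ) ^ (K + 8)) := by
    rintro ⟨b, c, c', σ, τ⟩
    set A := B2_S C₄ t f (b, c, c', σ, τ) with hA
    have hAm : ∀ x, x ∈ A ↔ x ∈ cls b d k ∧ 2 * C₄ / (q : ℝ) ^ 2 < B2_D t f c c' σ τ x := by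
      intro x
      rw [hA, B2_S, Finset.mem_filter]
      simp only [Finset.mem_univ, true_and]
    have h2 := hiso b c c' σ τ (fun x => if x ∈ A then 1 else 0) (fun x => by
      by_cases hx : x ∈ A
      · right; left; simp [hx]
      · left; simp [hx]) (fun x hx => by
      have : x ∉ A := fun h => hx ((hAm x).1 h).1
      simp [this])
    have h3 : ∑ x, |(if x ∈ A then (1 : ℝ) else 0)| = (A.card : ℝ) := by
      have : ∀ x, |(if x ∈ A then (1 : ℝ) else 0)| = if x ∈ A then 1 else 0 := by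
        intro x
        split_ifs <;> simp
      simp only [this]
      rw [Finset.sum_ite_mem, Finset.univ_inter, Finset.sum_const, nsmul_eq_mul, mul_one]
    have h4 : 2 * C₄ / (q : ℝ) ^ 2 * A.card ≤
        ∑ x, (if x ∈ A then (1 : ℝ) else 0) * (PP^[t] (THR.sg c c' f) (x + sv σ) - PP^[t] (THR.sg c c' f) (x + sv τ)) := by
      have h5 : ∑ x, (if x ∈ A then (1 : ℝ) else 0) *
          (PP^[t] (THR.sg c c' f) (x + sv σ) - PP^[t] (THR.sg c c' f) (x + sv τ)) =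
          ∑ x ∈ A, B2_D t f c c' σ τ x := by
        simp only [ite_mul, one_mul, zero_mul]
        rw [Finset.sum_ite_mem, Finset.univ_inter]
        rfl
      rw [h5]
      calc 2 * C₄ / (q : ℝ) ^ 2 * A.card = ∑ _x ∈ A, 2 * C₄ / (q : ℝ) ^ 2 := by
            rw [Finset.sum_const, nsmul_eq_mul, mul_comm]
        _ ≤ _ := Finset.sum_le_sum fun x hx => ((hAm x).1 hx).2.le
    rw [h3] at h2
    have h6 : C₄ / (q : ℝ) ^ 2 * A.card ≤ 2 * NN d k / (d : ℝ) ^ (K + 8) := by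
      have : 2 * C₄ / (q : ℝ) ^ 2 * A.card = 2 * (C₄ / (q : ℝ) ^ 2 * A.card) := by ring
      linarith
    have h7 : (A.card : ℝ) = (q : ℝ) ^ 2 / C₄ * (C₄ / (q : ℝ) ^ 2 * A.card) := by
      field_simp
    rw [h7]
    calc (q : ℝ) ^ 2 / C₄ * (C₄ / (q : ℝ) ^ 2 * A.card) ≤ (q : ℝ) ^ 2 / C₄ * (2 * NN d k / (d : ℝ) ^ (K + 8)) :=
          mul_le_mul_of_nonneg_left h6 (by positivity)
      _ = _ := by ring
  -- the union
  have h2 : (univ.filter fun v => Gb (2 * C₄) t f v) ⊆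
      (univ : Finset (Bool × Fin q × Fin q × Stp d × Stp d)).biUnion fun i => B2_S C₄ t f i := by
    intro v hv
    obtain ⟨c, σ, τ, h3⟩ := (Finset.mem_filter.1 hv).2
    rw [B2_grad (by omega)] at h3
    have h4 : ∃ c', 2 * C₄ / (q : ℝ) ^ 2 < |B2_D t f c c' σ τ v| := by
      by_contra h
      push Not at h
      have h5 : |∑ c', B2_D t f c c' σ τ v| ≤ 2 * C₄ / q := by
        refine (Finset.abs_sum_le_sum_abs _ _).trans ((Finset.sum_le_sum fun c' _ => h c').trans (le_of_eq ?_))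
        rw [Finset.sum_const, Finset.card_univ, Fintype.card_fin, nsmul_eq_mul]
        field_simp
      linarith
    obtain ⟨c', h4⟩ := h4
    have hcl : ∃ b, v ∈ cls b d k := by
      by_cases he : evn v
      · exact ⟨true, by simp [cls, evs, he]⟩
      · exact ⟨false, by simp [cls, ods, he]⟩
    obtain ⟨b, hb⟩ := hcl
    rcases lt_abs.1 h4 with h5 | h5
    · exact Finset.mem_biUnion.2 ⟨(b, c, c', σ, τ), Finset.mem_univ _, by
        rw [B2_S, Finset.mem_filter]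
        exact ⟨Finset.mem_univ _, hb, h5⟩⟩
    · refine Finset.mem_biUnion.2 ⟨(b, c, c', τ, σ), Finset.mem_univ _, ?_⟩
      rw [B2_S, Finset.mem_filter]
      refine ⟨Finset.mem_univ _, hb, ?_⟩
      have h6 : B2_D t f c c' τ σ v = -B2_D t f c c' σ τ v := by
        unfold B2_D
        ring
      rw [h6]
      exact h5
  have h3 : cn (fun v => Gb (2 * C₄) t f v) ≤
      8 * (q : ℝ) ^ 2 * d ^ 2 * (2 * (q : ℝ) ^ 2 / C₄ * (NN d k / (d : ℝ) ^ (K + 8))) := by
    unfold cn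
    have h4 : ((univ.filter fun v => Gb (2 * C₄) t f v).card : ℝ) ≤
        ∑ i : Bool × Fin q × Fin q × Stp d × Stp d, ((B2_S C₄ t f i).card : ℝ) := by
      rw [← Nat.cast_sum]
      exact Nat.cast_le.2 ((Finset.card_le_card h2).trans Finset.card_biUnion_le)
    have h5 := Finset.sum_le_sum fun i (_ : i ∈ (univ : Finset (Bool × Fin q × Fin q × Stp d × Stp d))) => h1 i
    rw [Finset.sum_const, Finset.card_univ, nsmul_eq_mul] at h5
    have h6 : ((Fintype.card (Bool × Fin q × Fin q × Stp d × Stp d) : ℕ) : ℝ) = 8 * (q : ℝ) ^ 2 * d ^ 2 := by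
      simp only [Stp, Fintype.card_prod, Fintype.card_fin, Fintype.card_bool]
      push_cast
      ring
    rw [h6] at h5
    refine le_trans (le_of_eq ?_) (h4.trans h5)
    exact congrArg _ (congrArg _ (Finset.filter_congr_decidable _ _ _))
  refine h3.trans ?_
  have hdp : (0 : ℝ) < (d : ℝ) ^ K := by positivity
  have h4 : 8 * (q : ℝ) ^ 2 * d ^ 2 * (2 * (q : ℝ) ^ 2 / C₄ * (NN d k / (d : ℝ) ^ (K + 8))) =
      (16 / C₄) * (q / d) ^ 4 * (1 / d ^ 2) * (NN d k / (d : ℝ) ^ K) := by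
    rw [pow_add]
    field_simp
    ring
  rw [h4]
  have h5 : ((q : ℝ) / d) ^ 4 ≤ 1 := pow_le_one₀ (by positivity) (by
    rw [div_le_one (by linarith)]
    exact hqd)
  have h6 : (16 / C₄) * (1 / (d : ℝ) ^ 2) ≤ 1 := by
    have h7 : 16 / C₄ ≤ d := hD0.trans (by exact_mod_cast hdD)
    rw [mul_one_div, div_le_one (by positivity)]
    nlinarith
  have h8 : 0 ≤ NN d k / (d : ℝ) ^ K := by positivity
  have h9 : (16 / C₄) * ((q : ℝ) / d) ^ 4 * (1 / d ^ 2) ≤ 1 := by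
    calc (16 / C₄) * ((q : ℝ) / d) ^ 4 * (1 / d ^ 2) = ((q : ℝ) / d) ^ 4 * ((16 / C₄) * (1 / (d : ℝ) ^ 2)) := by ring
      _ ≤ 1 * 1 := mul_le_mul h5 h6 (by positivity) (by norm_num)
      _ = 1 := by norm_num
  calc _ ≤ 1 * (NN d k / (d : ℝ) ^ K) := mul_le_mul_of_nonneg_right h9 h8
    _ = _ := one_mul _

end Pool.Agent.LC
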