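import Pool.Agent.Lib_MP_2c424f_lc1.Defs

/-!
# LC1 T6: Azuma's inequality with exceptional differences

`az_stop`.  `mean φ = (∑ φ)/2^n`.  Induction over `n` (first bit) for the following statement.  For `φ : (Fin n → Bool) → ℝ` call `w` good if for all `i < n` the conditional means
`E(φ | w_0..w_{i-1}, 0)` and `E(φ | w_0..w_{i-1}, 1)` differ by at most `2L`.  Then `E (exp (λ (φ - mean φ)) 1[good]) ≤ exp (n λ² L²/2)`
(`cosh x ≤ exp (x²/2)`).  With `λ = θ/(n L²)` and Markov: `P(good, |φ - mean| ≥ θ) ≤ 2 exp (-θ²/(2nL²))`.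
`P(not good) ≤ ∑_i P(|E(φ|..0) - E(φ|..1)| > 2L)`; this difference is at most the conditional mean of `|φ(w) - φ(flip_i w)|`, so at most
`L + 2M P(B(w,i) | w_0..w_{i-1})`, so `> 2L` only if `P(B | ..) > L/(2M)`, probability `≤ (2M/L) P(B(w,i))`.  (`M > 0`; `n = 0` trivial.)

`az_odd`: the pairs `(a,b)` of one parity are parametrised by all bits except `b_l`; flipping a bit and the bit `b_l` stays in the class.
-/

set_option autoImplicit false

open Finset Filter

namespace Pool.Agent.LC

open Pool.Agent.LO Pool.Agent.LIN Pool.Agent.THR Pool.Agent.COR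

open scoped Classical in
private theorem T6_cn {α : Type} [Fintype α] (P : α → Prop) :
    cn P = ∑ x, if P x then (1 : ℝ) else 0 := by
  unfold cn
  rw [Finset.card_filter]
  push_cast
  rfl

private theorem T6_sum {n : ℕ} (f : (Fin (n + 1) → Bool) → ℝ) :
    ∑ w, f w = ∑ v : Fin n → Bool, f (Fin.cons false v) + ∑ v : Fin n → Bool, f (Fin.cons true v) := by
  rw [← (Fin.consEquiv (fun _ : Fin (n + 1) => Bool)).sum_comp, Fintype.sum_prod_type,
    Fintype.sum_bool, add_comm]
  rfl

/-- mean over the cube -/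
private noncomputable def T6_E {n : ℕ} (φ : (Fin n → Bool) → ℝ) : ℝ := (∑ w, φ w) / 2 ^ n

private theorem T6_E_succ {n : ℕ} (φ : (Fin (n + 1) → Bool) → ℝ) :
    T6_E φ = (T6_E (fun v => φ (Fin.cons false v)) + T6_E (fun v => φ (Fin.cons true v))) / 2 := by
  unfold T6_E
  rw [T6_sum, pow_succ]
  field_simp

/-- good words: all conditional means differ by at most `2 L` -/
private def T6_G (L : ℝ) : (n : ℕ) → ((Fin n → Bool) → ℝ) → (Fin n → Bool) → Prop
  | 0, _, _ => True
  | n + 1, φ, w => |T6_E (fun v => φ (Fin.cons false v)) - T6_E (fun v => φ (Fin.cons true v))| ≤ 2 * L ∧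
      T6_G L n (fun v => φ (Fin.cons (w 0) v)) (Fin.tail w)

private theorem T6_G_cons (L : ℝ) {n : ℕ} (φ : (Fin (n + 1) → Bool) → ℝ) (b : Bool) (v : Fin n → Bool) :
    T6_G L (n + 1) φ (Fin.cons b v) ↔
      |T6_E (fun v => φ (Fin.cons false v)) - T6_E (fun v => φ (Fin.cons true v))| ≤ 2 * L ∧
        T6_G L n (fun v => φ (Fin.cons b v)) v := by
  rw [T6_G]
  simp only [Fin.cons_zero, Fin.tail_cons]

open scoped Classical in
private theorem T6_exp (L lam : ℝ) (n : ℕ) : ∀ φ : (Fin n → Bool) → ℝ,
    ∑ w, (if T6_G L n φ w then Real.exp (lam * (φ w - T6_E φ)) else 0) ≤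
      2 ^ n * Real.exp (n * (lam ^ 2 * L ^ 2 / 2)) := by
  induction n with
  | zero =>
    intro φ
    have h1 : ∀ w : Fin 0 → Bool, T6_E φ = φ w := by
      intro w
      unfold T6_E
      rw [Fintype.sum_unique]
      simp only [pow_zero, div_one]
      congr 1
      exact Subsingleton.elim _ _
    rw [Fintype.sum_unique, T6_G, if_pos trivial, ← h1]
    simp
  | succ n ih =>
    intro φ
    set D := T6_E (fun v => φ (Fin.cons false v)) - T6_E (fun v => φ (Fin.cons true v)) with hD
    by_cases hc : |D| ≤ 2 * L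
    · rw [T6_sum]
      have h1 : ∀ b : Bool, ∑ v : Fin n → Bool, (if T6_G L (n + 1) φ (Fin.cons b v) then
          Real.exp (lam * (φ (Fin.cons b v) - T6_E φ)) else 0) =
          Real.exp (lam * (T6_E (fun v => φ (Fin.cons b v)) - T6_E φ)) *
          ∑ v : Fin n → Bool, (if T6_G L n (fun v => φ (Fin.cons b v)) v then
            Real.exp (lam * (φ (Fin.cons b v) - T6_E (fun v => φ (Fin.cons b v)))) else 0) := by
        intro b
        rw [Finset.mul_sum]
        apply Finset.sum_congr rfl
        intro v _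
        by_cases hG : T6_G L n (fun v => φ (Fin.cons b v)) v
        · rw [if_pos hG, if_pos ((T6_G_cons L φ b v).mpr ⟨hc, hG⟩), ← Real.exp_add]
          congr 1
          ring
        · rw [if_neg hG, if_neg (fun h => hG ((T6_G_cons L φ b v).mp h).2), mul_zero]
      rw [h1 false, h1 true]
      have i0 := ih (fun v => φ (Fin.cons false v))
      have i1 := ih (fun v => φ (Fin.cons true v))
      have e0 : T6_E (fun v => φ (Fin.cons false v)) - T6_E φ = D / 2 := by
        rw [T6_E_succ, hD]
        ring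
      have e1 : T6_E (fun v => φ (Fin.cons true v)) - T6_E φ = -(D / 2) := by
        rw [T6_E_succ, hD]
        ring
      rw [e0, e1]
      have h2 : Real.exp (lam * (D / 2)) + Real.exp (lam * -(D / 2)) ≤
          2 * Real.exp (lam ^ 2 * L ^ 2 / 2) := by
        have h3 := Real.cosh_le_exp_half_sq (lam * (D / 2))
        rw [Real.cosh_eq] at h3
        have h4 : (lam * (D / 2)) ^ 2 / 2 ≤ lam ^ 2 * L ^ 2 / 2 := by
          have h5 : D ^ 2 ≤ (2 * L) ^ 2 := sq_le_sq' (by linarith [abs_le.mp hc]) (abs_le.mp hc).2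
          have h6 : 0 ≤ lam ^ 2 := sq_nonneg _
          nlinarith
        have h5 := h3.trans (Real.exp_le_exp.mpr h4)
        rw [show lam * -(D / 2) = -(lam * (D / 2)) by ring]
        linarith
      have hp : (0 : ℝ) ≤ 2 ^ n * Real.exp (n * (lam ^ 2 * L ^ 2 / 2)) := by positivity
      calc _ ≤ Real.exp (lam * (D / 2)) * (2 ^ n * Real.exp (n * (lam ^ 2 * L ^ 2 / 2))) +
            Real.exp (lam * -(D / 2)) * (2 ^ n * Real.exp (n * (lam ^ 2 * L ^ 2 / 2))) :=
            add_le_add (mul_le_mul_of_nonneg_left i0 (Real.exp_pos _).le)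
              (mul_le_mul_of_nonneg_left i1 (Real.exp_pos _).le)
        _ = (Real.exp (lam * (D / 2)) + Real.exp (lam * -(D / 2))) *
            (2 ^ n * Real.exp (n * (lam ^ 2 * L ^ 2 / 2))) := by ring
        _ ≤ (2 * Real.exp (lam ^ 2 * L ^ 2 / 2)) *
            (2 ^ n * Real.exp (n * (lam ^ 2 * L ^ 2 / 2))) := mul_le_mul_of_nonneg_right h2 hp
        _ = 2 ^ (n + 1) * Real.exp (((n + 1 : ℕ) : ℝ) * (lam ^ 2 * L ^ 2 / 2)) := by
            have : Real.exp (((n + 1 : ℕ) : ℝ) * (lam ^ 2 * L ^ 2 / 2)) =
                Real.exp (lam ^ 2 * L ^ 2 / 2) * Real.exp (n * (lam ^ 2 * L ^ 2 / 2)) := by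
              rw [← Real.exp_add]
              congr 1
              push_cast
              ring
            rw [this, pow_succ]
            ring
    · have h1 : ∑ w, (if T6_G L (n + 1) φ w then Real.exp (lam * (φ w - T6_E φ)) else 0) = 0 := by
        apply Finset.sum_eq_zero
        intro w _
        rw [if_neg]
        intro h
        rw [T6_G] at h
        exact hc h.1
      rw [h1]
      positivity

open scoped Classical in
private theorem T6_bad (M L : ℝ) (hM : 0 < M) (hL : 0 < L) (n : ℕ) :
    ∀ (φ : (Fin n → Bool) → ℝ) (_ : ∀ w, |φ w| ≤ M) (B : (Fin n → Bool) → Fin n → Prop)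
    (_ : ∀ w i, ¬ B w i → |φ w - φ (Function.update w i (!w i))| ≤ L),
    ∑ w, (if T6_G L n φ w then (0 : ℝ) else 1) ≤
      2 * M / L * ∑ i, ∑ w, (if B w i then (1 : ℝ) else 0) := by
  induction n with
  | zero =>
    intro φ _ B _
    have : ∑ w : Fin 0 → Bool, (if T6_G L 0 φ w then (0 : ℝ) else 1) = 0 := by
      apply Finset.sum_eq_zero
      intro w _
      rw [T6_G, if_pos trivial]
    rw [this]
    simp
  | succ n ih =>
    intro φ hφ B h
    rw [Fin.sum_univ_succ]
    set b0 : ℝ := ∑ w, (if B w 0 then (1 : ℝ) else 0) with hb0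
    have hk : 0 < 2 * M / L := by positivity
    have hrest : 0 ≤ ∑ i : Fin n, ∑ w, (if B w i.succ then (1 : ℝ) else 0) := by
      apply Finset.sum_nonneg
      intro i _
      apply Finset.sum_nonneg
      intro w _
      split_ifs <;> norm_num
    set D := T6_E (fun v => φ (Fin.cons false v)) - T6_E (fun v => φ (Fin.cons true v)) with hD
    by_cases hc : |D| ≤ 2 * L
    · rw [T6_sum]
      have h1 : ∀ b : Bool, ∑ v : Fin n → Bool, (if T6_G L (n + 1) φ (Fin.cons b v) then
          (0 : ℝ) else 1) =
          ∑ v : Fin n → Bool, (if T6_G L n (fun v => φ (Fin.cons b v)) v then (0 : ℝ) else 1) := by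
        intro b
        apply Finset.sum_congr rfl
        intro v _
        by_cases hG : T6_G L n (fun v => φ (Fin.cons b v)) v
        · rw [if_pos hG, if_pos ((T6_G_cons L φ b v).mpr ⟨hc, hG⟩)]
        · rw [if_neg hG, if_neg (fun h => hG ((T6_G_cons L φ b v).mp h).2)]
      rw [h1 false, h1 true]
      have h2 : ∀ b : Bool, ∑ v : Fin n → Bool,
          (if T6_G L n (fun v => φ (Fin.cons b v)) v then (0 : ℝ) else 1) ≤
          2 * M / L * ∑ i : Fin n, ∑ v : Fin n → Bool,
            (if B (Fin.cons b v) i.succ then (1 : ℝ) else 0) := by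
        intro b
        apply ih (fun v => φ (Fin.cons b v)) (fun v => hφ _) (fun v i => B (Fin.cons b v) i.succ)
        intro v i hB
        have h3 := h (Fin.cons b v) i.succ hB
        rw [← Fin.cons_update, Fin.cons_succ] at h3
        exact h3
      have h3 : ∑ i : Fin n, ∑ w, (if B w i.succ then (1 : ℝ) else 0) =
          (∑ i : Fin n, ∑ v : Fin n → Bool, (if B (Fin.cons false v) i.succ then (1 : ℝ) else 0)) +
          ∑ i : Fin n, ∑ v : Fin n → Bool, (if B (Fin.cons true v) i.succ then (1 : ℝ) else 0) := by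
        rw [← Finset.sum_add_distrib]
        apply Finset.sum_congr rfl
        intro i _
        rw [T6_sum]
      have hb0' : 0 ≤ b0 := by
        rw [hb0]
        apply Finset.sum_nonneg
        intro w _
        split_ifs <;> norm_num
      have h4 := h2 false
      have h5 := h2 true
      rw [h3, mul_add, mul_add]
      have h6 : 0 ≤ 2 * M / L * b0 := by positivity
      linarith
    · push Not at hc
      have h1 : ∀ v : Fin n → Bool, |φ (Fin.cons false v) - φ (Fin.cons true v)| ≤
          L + M * ((if B (Fin.cons false v) 0 then (1 : ℝ) else 0) +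
            (if B (Fin.cons true v) 0 then (1 : ℝ) else 0)) := by
        intro v
        have hMM : |φ (Fin.cons false v) - φ (Fin.cons true v)| ≤ 2 * M := by
          have := abs_sub (φ (Fin.cons false v)) (φ (Fin.cons true v))
          linarith [hφ (Fin.cons false v), hφ (Fin.cons true v)]
        by_cases hB0 : B (Fin.cons false v) 0
        · by_cases hB1 : B (Fin.cons true v) 0
          · rw [if_pos hB0, if_pos hB1]
            linarith
          · have := h _ _ hB1
            rw [Fin.cons_zero, Fin.update_cons_zero, Bool.not_true, abs_sub_comm] at this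
            rw [if_pos hB0, if_neg hB1]
            linarith
        · have := h _ _ hB0
          rw [Fin.cons_zero, Fin.update_cons_zero, Bool.not_false] at this
          rw [if_neg hB0]
          split_ifs
          · linarith
          · linarith
      have h2 : |D| ≤ L + M * b0 / 2 ^ n := by
        have h3 : D = (∑ v : Fin n → Bool, (φ (Fin.cons false v) - φ (Fin.cons true v))) / 2 ^ n := by
          rw [hD, Finset.sum_sub_distrib, sub_div]
          rfl
        have h4 : |∑ v : Fin n → Bool, (φ (Fin.cons false v) - φ (Fin.cons true v))| ≤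
            2 ^ n * L + M * b0 := by
          refine (Finset.abs_sum_le_sum_abs _ _).trans ((Finset.sum_le_sum fun v _ => h1 v).trans ?_)
          rw [Finset.sum_add_distrib, ← Finset.mul_sum, Finset.sum_add_distrib, hb0, T6_sum]
          simp [Finset.card_univ]
        rw [h3, abs_div, abs_of_pos (by positivity : (0 : ℝ) < 2 ^ n)]
        have h5 : (0 : ℝ) < 2 ^ n := by positivity
        rw [div_le_iff₀ h5]
        have h6 : (L + M * b0 / 2 ^ n) * 2 ^ n = 2 ^ n * L + M * b0 := by
          field_simp
        rw [h6]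
        exact h4
      have h3 : L < M * b0 / 2 ^ n := by linarith
      have h5 : (0 : ℝ) < 2 ^ n := by positivity
      rw [lt_div_iff₀ h5] at h3
      have h4 : ∑ w, (if T6_G L (n + 1) φ w then (0 : ℝ) else 1) ≤ 2 ^ (n + 1) := by
        have h6 : ∀ w ∈ (univ : Finset (Fin (n + 1) → Bool)),
            (if T6_G L (n + 1) φ w then (0 : ℝ) else 1) ≤ 1 := by
          intro w _
          split_ifs <;> norm_num
        refine (Finset.sum_le_sum h6).trans ?_
        simp [Finset.card_univ]
      refine h4.trans ?_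
      rw [mul_add]
      have h7 : 2 ^ (n + 1) ≤ 2 * M / L * b0 := by
        rw [div_mul_eq_mul_div, le_div_iff₀ hL, pow_succ]
        linarith
      have h8 : 0 ≤ 2 * M / L * ∑ i : Fin n, ∑ w, (if B w i.succ then (1 : ℝ) else 0) := by
        positivity
      linarith

theorem az_stop (n : ℕ) (hn : 1 ≤ n) (φ : (Fin n → Bool) → ℝ) (M L θ : ℝ) (hM : 0 < M) (hφ : ∀ w, |φ w| ≤ M) (hL : 0 < L) (hθ : 0 ≤ θ)
    (B : (Fin n → Bool) → Fin n → Prop)
    (h : ∀ w i, ¬ B w i → |φ w - φ (Function.update w i (!w i))| ≤ L) :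
    cn (fun w : Fin n → Bool => θ ≤ |φ w - (∑ w', φ w') / 2 ^ n|) / 2 ^ n ≤
      2 * Real.exp (-(θ ^ 2 / (2 * n * L ^ 2))) + 2 * M / L * ∑ i, cn (fun w : Fin n → Bool => B w i) / 2 ^ n := by
  classical
  have hn' : (0 : ℝ) < n := by exact_mod_cast hn
  set m : ℝ := (∑ w', φ w') / 2 ^ n with hm
  have hmE : T6_E φ = m := rfl
  set lam : ℝ := θ / (n * L ^ 2) with hlam
  have hlam0 : 0 ≤ lam := by positivity
  have h1 := T6_exp L lam n φ
  have h2 := T6_exp L (-lam) n φ
  have h3 := T6_bad M L hM hL n φ hφ B h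
  rw [hmE] at h1 h2
  have hpt : ∀ w : Fin n → Bool, (if θ ≤ |φ w - m| then (1 : ℝ) else 0) ≤
      (if T6_G L n φ w then (0 : ℝ) else 1) +
      Real.exp (-(lam * θ)) * ((if T6_G L n φ w then Real.exp (lam * (φ w - m)) else 0) +
        (if T6_G L n φ w then Real.exp (-lam * (φ w - m)) else 0)) := by
    intro w
    by_cases hG : T6_G L n φ w
    · rw [if_pos hG, if_pos hG, if_pos hG, mul_add, ← Real.exp_add, ← Real.exp_add]
      split_ifs with hθ'
      · rcases le_abs.mp hθ' with h' | h'
        · have h4 : (1 : ℝ) ≤ Real.exp (-(lam * θ) + lam * (φ w - m)) := by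
            apply Real.one_le_exp
            nlinarith
          have h5 := Real.exp_pos (-(lam * θ) + -lam * (φ w - m))
          linarith
        · have h4 : (1 : ℝ) ≤ Real.exp (-(lam * θ) + -lam * (φ w - m)) := by
            apply Real.one_le_exp
            nlinarith
          have h5 := Real.exp_pos (-(lam * θ) + lam * (φ w - m))
          linarith
      · have h4 := Real.exp_pos (-(lam * θ) + lam * (φ w - m))
        have h5 := Real.exp_pos (-(lam * θ) + -lam * (φ w - m))
        linarith
    · rw [if_neg hG, if_neg hG, if_neg hG]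
      split_ifs <;> norm_num
  have hsum : cn (fun w : Fin n → Bool => θ ≤ |φ w - m|) ≤
      2 * M / L * ∑ i, ∑ w, (if B w i then (1 : ℝ) else 0) +
      Real.exp (-(lam * θ)) * (2 * (2 ^ n * Real.exp (n * (lam ^ 2 * L ^ 2 / 2)))) := by
    rw [T6_cn]
    refine (Finset.sum_le_sum fun w _ => hpt w).trans ?_
    rw [Finset.sum_add_distrib, ← Finset.mul_sum, Finset.sum_add_distrib]
    rw [neg_sq] at h2
    have h4 : 0 ≤ Real.exp (-(lam * θ)) := (Real.exp_pos _).le
    have h5 := mul_le_mul_of_nonneg_left (add_le_add h1 h2) h4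
    refine (add_le_add h3 h5).trans (le_of_eq ?_)
    ring
  have hexp : Real.exp (-(lam * θ)) * Real.exp (n * (lam ^ 2 * L ^ 2 / 2)) =
      Real.exp (-(θ ^ 2 / (2 * n * L ^ 2))) := by
    rw [← Real.exp_add]
    congr 1
    rw [hlam]
    field_simp
    ring
  have h2n : (0 : ℝ) < 2 ^ n := by positivity
  rw [div_le_iff₀ h2n]
  refine hsum.trans (le_of_eq ?_)
  have h6 : Real.exp (-(lam * θ)) * (2 * (2 ^ n * Real.exp (n * (lam ^ 2 * L ^ 2 / 2)))) =
      2 ^ n * 2 * (Real.exp (-(lam * θ)) * Real.exp (n * (lam ^ 2 * L ^ 2 / 2))) := by ring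
  rw [h6, hexp]
  have h7 : ∑ i, cn (fun w : Fin n → Bool => B w i) / 2 ^ n =
      (∑ i, ∑ w, (if B w i then (1 : ℝ) else 0)) / 2 ^ n := by
    rw [Finset.sum_div]
    apply Finset.sum_congr rfl
    intro i _
    rw [T6_cn]
  rw [h7]
  field_simp
  ring

/-- flip the bit `i` of `a` (`s = false`) or `b` (`s = true`) -/
def flp {d : ℕ} (i : Fin d × Bool) (p : Bt d × Bt d) : Bt d × Bt d :=
  if i.2 then (p.1, Function.update p.2 i.1 (!p.2 i.1)) else (Function.update p.1 i.1 (!p.1 i.1), p.2)

private theorem T6_od_flp {d : ℕ} (a b : Bt d) (i : Fin d) :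
    od (Function.update a i (!a i)) b ↔ ¬ od a b := by
  unfold od
  by_cases h : a i = b i
  · have h1 : (univ.filter fun r => Function.update a i (!a i) r ≠ b r) =
        insert i (univ.filter fun r => a r ≠ b r) := by
      ext r
      simp only [Finset.mem_filter, Finset.mem_univ, true_and, Finset.mem_insert]
      by_cases hr : r = i
      · subst hr
        simp [h]
      · simp [hr]
    rw [h1, Finset.card_insert_of_notMem (by simp [h]), Nat.odd_add_one]
  · have h1 : (univ.filter fun r => a r ≠ b r) =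
        insert i (univ.filter fun r => Function.update a i (!a i) r ≠ b r) := by
      ext r
      simp only [Finset.mem_filter, Finset.mem_univ, true_and, Finset.mem_insert]
      by_cases hr : r = i
      · subst hr
        simp [h]
      · simp [hr]
    have h2 : Function.update a i (!a i) i = b i := by
      simp only [Function.update_self]
      cases ha : a i <;> cases hb : b i <;> simp_all
    rw [h1, Finset.card_insert_of_notMem (by rw [Finset.mem_filter, h2]; simp), Nat.odd_add_one,
      not_not]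

private theorem T6_od_comm {d : ℕ} (a b : Bt d) : od a b ↔ od b a := by
  unfold od
  have : (univ.filter fun r => a r ≠ b r) = univ.filter fun r => b r ≠ a r := by
    ext r
    simp [ne_comm]
  rw [this]

private theorem T6_mem {d : ℕ} (e : Bool) (p : Bt d × Bt d) :
    p ∈ (pS e none : Finset (Bt d × Bt d)) ↔ (od p.1 p.2 ↔ e = false) := by
  unfold pS
  cases e
  · simp [oS, inS]
  · simp [eS, inS]

private theorem T6_mem_flp {d : ℕ} (e : Bool) (i : Fin d × Bool) (p : Bt d × Bt d) :
    flp i p ∈ (pS e none : Finset (Bt d × Bt d)) ↔ p ∉ (pS e none : Finset (Bt d × Bt d)) := by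
  rw [T6_mem, T6_mem]
  have h1 : od (flp i p).1 (flp i p).2 ↔ ¬ od p.1 p.2 := by
    unfold flp
    split_ifs
    · simp only
      rw [T6_od_comm, T6_od_flp, T6_od_comm]
    · simp only
      rw [T6_od_flp]
  rw [h1]
  tauto

private theorem T6_flp_flp {d : ℕ} (i : Fin d × Bool) (p : Bt d × Bt d) : flp i (flp i p) = p := by
  unfold flp
  split_ifs
  · simp
  · simp

private theorem T6_flp_comm {d : ℕ} (i l : Fin d × Bool) (p : Bt d × Bt d) :
    flp i (flp l p) = flp l (flp i p) := by
  obtain ⟨i, s⟩ := i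
  obtain ⟨l, t⟩ := l
  unfold flp
  by_cases hil : i = l
  · subst hil
    cases s <;> cases t <;> simp
  · have hli : l ≠ i := fun h => hil h.symm
    cases s <;> cases t <;> simp [hil, hli, Function.update_of_ne, Function.update_comm hli]

theorem az_odd {d : ℕ} (hd : 2 ≤ d) (e : Bool) (l : Fin d × Bool) (φ : Bt d × Bt d → ℝ) (M L θ : ℝ) (hM : 0 < M)
    (hφ : ∀ p, |φ p| ≤ M) (hL : 0 < L) (hθ : 0 ≤ θ) (B : Bt d × Bt d → Fin d × Bool → Prop)
    (h : ∀ p ∈ pS e none, ∀ i, ¬ B p i → |φ p - φ (flp l (flp i p))| ≤ L) :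
    cn (fun p : Bt d × Bt d => p ∈ pS e none ∧ θ ≤ |φ p - (∑ p' ∈ pS e none, φ p') / ((pS e none : Finset (Bt d × Bt d)).card : ℝ)|) /
        (4 ^ d / 2) ≤
      2 * Real.exp (-(θ ^ 2 / (4 * d * L ^ 2))) +
        2 * M / L * ∑ i, cn (fun p : Bt d × Bt d => p ∈ pS e none ∧ B p i) / (4 ^ d / 2) := by
  classical
  set P : Finset (Bt d × Bt d) := pS e none with hP
  set ψ : Bt d × Bt d → ℝ := fun p => if p ∈ P then φ p else φ (flp l p) with hψ
  set B' : Bt d × Bt d → Fin d × Bool → Prop := fun p i => if p ∈ P then B p i else B (flp l p) i with hB'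
  have hmemf : ∀ (i : Fin d × Bool) (p : Bt d × Bt d), flp i p ∈ P ↔ p ∉ P := fun i p => T6_mem_flp e i p
  have hψl : ∀ p, ψ (flp l p) = ψ p := by
    intro p
    simp only [hψ]
    by_cases hp : p ∈ P
    · rw [if_neg (by rw [hmemf]; simpa using hp), if_pos hp, T6_flp_flp]
    · rw [if_pos (by rw [hmemf]; exact hp), if_neg hp]
  -- sums over all pairs are twice the sums over the class
  set F : Bt d × Bt d ≃ Bt d × Bt d := ⟨flp l, flp l, T6_flp_flp l, T6_flp_flp l⟩ with hF
  have hdouble : ∀ g : Bt d × Bt d → ℝ, (∀ p, g (flp l p) = g p) → ∑ p, g p = 2 * ∑ p ∈ P, g p := by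
    intro g hg
    rw [← Finset.sum_filter_add_sum_filter_not univ (fun p => p ∈ P)]
    have e1 : univ.filter (fun p => p ∈ P) = P := by
      ext p
      simp
    have e2 : ∑ p ∈ univ.filter (fun p => ¬ p ∈ P), g p = ∑ p ∈ P, g p := by
      apply Finset.sum_equiv F
      · intro p
        simp only [Finset.mem_filter, Finset.mem_univ, true_and]
        exact (hmemf l p).symm
      · intro p _
        exact (hg p).symm
    rw [e1, e2]
    ring
  have hcard : ((P.card : ℕ) : ℝ) = 4 ^ d / 2 := by
    have h1 := hdouble (fun _ => 1) (fun _ => rfl)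
    rw [Finset.sum_const, Finset.sum_const, Finset.card_univ, Fintype.card_prod, Fintype.card_fun,
      Fintype.card_bool, Fintype.card_fin] at h1
    simp only [nsmul_eq_mul, mul_one] at h1
    push_cast at h1
    have h2 : (2 : ℝ) ^ d * 2 ^ d = 4 ^ d := by
      rw [← mul_pow]
      norm_num
    rw [h2] at h1
    linarith
  -- the cube
  have hcd : Fintype.card (Fin d × Bool) = 2 * d := by
    rw [Fintype.card_prod, Fintype.card_fin, Fintype.card_bool, mul_comm]
  set e0 : Fin d × Bool ≃ Fin (2 * d) := Fintype.equivFinOfCardEq hcd with he0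
  set T : (Fin (2 * d) → Bool) ≃ Bt d × Bt d :=
    { toFun := fun w => (fun i => w (e0 (i, false)), fun i => w (e0 (i, true)))
      invFun := fun p j => if (e0.symm j).2 then p.2 (e0.symm j).1 else p.1 (e0.symm j).1
      left_inv := by
        intro w
        funext j
        obtain ⟨⟨i, s⟩, rfl⟩ := e0.surjective j
        cases s <;> simp
      right_inv := by
        rintro ⟨a, b⟩
        simp } with hT
  have hTflp : ∀ w j, T (Function.update w j (!w j)) = flp (e0.symm j) (T w) := by
    intro w j
    obtain ⟨⟨i, s⟩, rfl⟩ := e0.surjective j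
    have hupd : ∀ (w : Fin (2 * d) → Bool) (i i' : Fin d) (s s' : Bool) (x : Bool),
        Function.update w (e0 (i, s)) x (e0 (i', s')) =
          if i' = i ∧ s' = s then x else w (e0 (i', s')) := by
      intro w i i' s s' x
      by_cases hh : i' = i ∧ s' = s
      · rw [if_pos hh, hh.1, hh.2, Function.update_self]
      · rw [if_neg hh, Function.update_of_ne]
        intro h'
        apply hh
        have := e0.injective h'
        simpa using this
    rw [Equiv.symm_apply_apply]
    unfold flp
    cases s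
    · simp only [hT, Equiv.coe_fn_mk, Bool.false_eq_true, if_false]
      refine Prod.ext ?_ ?_
      · funext i'
        simp only
        rw [hupd, Function.update_apply]
        simp
      · funext i'
        simp only
        rw [hupd]
        simp
    · simp only [hT, Equiv.coe_fn_mk, if_true]
      refine Prod.ext ?_ ?_
      · funext i'
        simp only
        rw [hupd]
        simp
      · funext i'
        simp only
        rw [hupd, Function.update_apply]
        simp
  have hψM : ∀ w, |ψ (T w)| ≤ M := by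
    intro w
    simp only [hψ]
    split_ifs
    · exact hφ _
    · exact hφ _
  have hψL : ∀ w j, ¬ B' (T w) (e0.symm j) → |ψ (T w) - ψ (T (Function.update w j (!w j)))| ≤ L := by
    intro w j hB
    rw [hTflp]
    generalize T w = p at hB ⊢
    generalize e0.symm j = i at hB ⊢
    simp only [hB', hψ] at hB ⊢
    by_cases hp : p ∈ P
    · rw [if_pos hp] at hB
      rw [if_pos hp, if_neg (by rw [hmemf]; simpa using hp)]
      exact h p hp i hB
    · rw [if_neg hp] at hB
      rw [if_neg hp, if_pos (by rw [hmemf]; exact hp)]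
      have hp' : flp l p ∈ P := by
        rw [hmemf]
        exact hp
      have h1 := h (flp l p) hp' i hB
      rw [T6_flp_comm i l p, T6_flp_flp] at h1
      exact h1
  have hmain := az_stop (2 * d) (by omega) (fun w => ψ (T w)) M L θ hM hψM hL hθ
    (fun w j => B' (T w) (e0.symm j)) hψL
  -- translation
  have hmean : (∑ w', ψ (T w')) / 2 ^ (2 * d) = (∑ p' ∈ P, φ p') / ((P.card : ℕ) : ℝ) := by
    rw [Equiv.sum_comp T ψ, hdouble ψ hψl, hcard, pow_mul]
    have h1 : ∑ p ∈ P, ψ p = ∑ p ∈ P, φ p := by
      apply Finset.sum_congr rfl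
      intro p hp
      simp only [hψ]
      rw [if_pos hp]
    rw [h1]
    norm_num
    field_simp
  have hcnT : ∀ Q : Bt d × Bt d → Prop, (∀ p, Q (flp l p) ↔ Q p) →
      cn (fun w => Q (T w)) / 2 ^ (2 * d) = cn (fun p => p ∈ P ∧ Q p) / (4 ^ d / 2) := by
    intro Q hQ
    rw [T6_cn, Equiv.sum_comp T (fun p => if Q p then (1 : ℝ) else 0),
      hdouble _ (fun p => by simp only [hQ p]), pow_mul]
    have h1 : ∑ p ∈ P, (if Q p then (1 : ℝ) else 0) = cn (fun p => p ∈ P ∧ Q p) := by
      unfold cn
      rw [← Finset.sum_filter, Finset.sum_const, nsmul_eq_mul, mul_one]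
      congr 2
      ext p
      simp
    rw [h1]
    generalize cn (fun p => p ∈ P ∧ Q p) = Z
    rw [show (2 : ℝ) ^ 2 = 4 by norm_num]
    field_simp
  rw [hmean] at hmain
  set m : ℝ := (∑ p' ∈ P, φ p') / ((P.card : ℕ) : ℝ) with hm
  have h1 := hcnT (fun p => θ ≤ |ψ p - m|) (fun p => by rw [hψl])
  have h2 : cn (fun p => p ∈ P ∧ θ ≤ |ψ p - m|) = cn (fun p => p ∈ P ∧ θ ≤ |φ p - m|) := by
    congr 1
    funext p
    apply propext
    apply and_congr_right
    intro hp
    simp only [hψ]
    rw [if_pos hp]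
  have h3 : ∑ j, cn (fun w => B' (T w) (e0.symm j)) / 2 ^ (2 * d) =
      ∑ i, cn (fun p => p ∈ P ∧ B p i) / (4 ^ d / 2) := by
    rw [← Equiv.sum_comp e0]
    apply Finset.sum_congr rfl
    intro i _
    rw [Equiv.symm_apply_apply, hcnT (fun p => B' p i)]
    · congr 2
      funext p
      apply propext
      apply and_congr_right
      intro hp
      simp only [hB']
      rw [if_pos hp]
    · intro p
      simp only [hB']
      by_cases hp : p ∈ P
      · rw [if_neg (by rw [hmemf]; simpa using hp), if_pos hp, T6_flp_flp]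
      · rw [if_pos (by rw [hmemf]; exact hp), if_neg hp]
  rw [h1, h2, h3] at hmain
  have h4 : 2 * (((2 * d : ℕ)) : ℝ) * L ^ 2 = 4 * d * L ^ 2 := by
    push_cast
    ring
  rw [h4] at hmain
  exact hmain

end Pool.Agent.LC
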