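import Pool.Agent.Lib_MP_2c424f_lc1.T2
import Pool.Agent.Lib_MP_2c424f_lc1.T6
import Pool.Agent.Lib_MP_2c424f_lc1.T7
import Pool.Agent.Lib_MP_2c424f_lc1.A4
import Pool.Agent.Lib_MP_2c424f_thr.N1

/-!
# LC1 B4: the `t`-step averages are nearly constant in the blocks

Deterministic.  `G c := PP^[t] (bq c f)`, `0 ≤ G c ≤ q`.  In a block `u`, `φ p := G c (pt u p.1 p.2)`.  For `p ∈ pS e none` and a bit `i`: `x := pt u (flp i p)` is a neighbour of `pt u p` and of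
`pt u (flp l (flp i p))` (flipping a bit moves the point by one step; fixed `l`, e.g. the first bit, if `i = l` the two points are equal).  So if `¬ Gb C₄ t f x` then `|φ p - φ (flp l (flp i p))| ≤ C₄/q`.
`az_odd` with `L = C₄/q`, `M = q`, `B p i := Gb C₄ t f (pt u (flp i p))`, for each `c` and `e`: the number of bad `p` is at most
`(4^d/2) (2 exp (-δ² q²/(4 d C₄²))) + (2q²/C₄) ∑_i #{p : Gb (pt u (flp i p))}`.  Sum over `u`, `e`, `c`: `∑_u ∑_p 1[Gb (pt u (flp i p))] = 2^d #{x : Gb x} ≤ 2^d N'/d^(K+6)`, `N' = 2^d NN d k`,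
so the total is at most `4^d NN d k (2 q exp (-c d) + q (2q²/C₄) (2d) / d^(K+6)) ≤ 4^d NN d k/d^K`  (`q ≤ d/500`).
-/

set_option autoImplicit false

open Finset Filter

namespace Pool.Agent.LC

open Pool.Agent.LO Pool.Agent.LIN Pool.Agent.THR Pool.Agent.COR

private theorem B4_cn {α : Type} [Fintype α] (P : α → Prop) : cn P = ∑ x, ind (P x) := by
  unfold cn ind
  rw [Finset.natCast_card_filter]

private theorem B4_ind_nonneg (P : Prop) : 0 ≤ ind P := by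
  unfold ind
  split_ifs <;> norm_num

private theorem B4_ind_mono {P Q : Prop} (h : P → Q) : ind P ≤ ind Q := by
  unfold ind
  by_cases hp : P
  · rw [if_pos hp, if_pos (h hp)]
  · rw [if_neg hp]
    split_ifs <;> norm_num

private theorem B4_ind_ex {ι : Type} [Fintype ι] {P : Prop} {Q : ι → Prop} (h : P → ∃ i, Q i) :
    ind P ≤ ∑ i, ind (Q i) := by
  by_cases hp : P
  · obtain ⟨i, hi⟩ := h hp
    have h1 : ind (Q i) ≤ ∑ i, ind (Q i) :=
      Finset.single_le_sum (f := fun i => ind (Q i)) (fun i _ => B4_ind_nonneg _) (Finset.mem_univ i)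
    refine le_trans ?_ h1
    unfold ind
    rw [if_pos hp, if_pos hi]
  · have h0 : ind P = 0 := by
      unfold ind
      rw [if_neg hp]
    rw [h0]
    exact Finset.sum_nonneg fun i _ => B4_ind_nonneg _

private theorem B4_cn_nonneg {α : Type} [Fintype α] (P : α → Prop) : 0 ≤ cn P := by
  unfold cn
  exact Nat.cast_nonneg _

private theorem B4_cn_mono {α : Type} [Fintype α] {P Q : α → Prop} (h : ∀ x, P x → Q x) : cn P ≤ cn Q := by
  rw [B4_cn, B4_cn]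
  exact Finset.sum_le_sum fun x _ => B4_ind_mono (h x)

private theorem B4_flp_flp {d : ℕ} (i : Fin d × Bool) (p : Bt d × Bt d) : flp i (flp i p) = p := by
  obtain ⟨j, s⟩ := i
  obtain ⟨a, b⟩ := p
  unfold flp
  cases s
  · simp
  · simp

private theorem B4_step {d k : ℕ} (u : Blk d k) (i : Fin d × Bool) (p : Bt d × Bt d) :
    ∃ σ : Stp d, pt u (flp i p).1 (flp i p).2 = pt u p.1 p.2 + sv σ := by
  obtain ⟨j, s⟩ := i
  obtain ⟨a, b⟩ := p
  cases s
  · exact ⟨(j, !a j), (pt_flp u a b j).1⟩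
  · exact ⟨(j, !b j), (pt_flp u a b j).2⟩

private theorem B4_step' {d k : ℕ} (u : Blk d k) (i : Fin d × Bool) (p : Bt d × Bt d) :
    ∃ σ : Stp d, pt u p.1 p.2 = pt u (flp i p).1 (flp i p).2 + sv σ := by
  obtain ⟨σ, hσ⟩ := B4_step u i (flp i p)
  rw [B4_flp_flp] at hσ
  exact ⟨σ, hσ⟩

private theorem B4_sumG {d k : ℕ} (G : Site d (k + 1) → Prop) (i : Fin d × Bool) :
    ∑ u : Blk d k, cn (fun p : Bt d × Bt d => G (pt u (flp i p).1 (flp i p).2)) = 2 ^ d * cn G := by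
  have h1 : ∀ u : Blk d k, cn (fun p : Bt d × Bt d => G (pt u (flp i p).1 (flp i p).2)) =
      ∑ a : Bt d, ∑ b : Bt d, ind (G (pt u a b)) := by
    intro u
    rw [B4_cn]
    have hinv : Function.Involutive (fun p : Bt d × Bt d => flp i p) := fun p => B4_flp_flp i p
    rw [Fintype.sum_equiv hinv.toPerm (fun p : Bt d × Bt d => ind (G (pt u (flp i p).1 (flp i p).2)))
      (fun p : Bt d × Bt d => ind (G (pt u p.1 p.2))) (fun _ => rfl)]
    rw [Fintype.sum_prod_type]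
  rw [Finset.sum_congr rfl fun u _ => h1 u, sum_pt (fun x _ => ind (G x)), B4_cn, Finset.mul_sum]
  refine Finset.sum_congr rfl fun x _ => ?_
  rw [Finset.sum_const, nsmul_eq_mul, Finset.card_univ, Fintype.card_fun, Fintype.card_bool, Fintype.card_fin]
  push_cast
  rfl

open scoped Classical in
private theorem B4_mem_pS {d : ℕ} (p : Bt d × Bt d) : p ∈ (pS (decide (¬ od p.1 p.2)) none : Finset (Bt d × Bt d)) := by
  unfold pS
  by_cases h : od p.1 p.2
  · have : decide (¬ od p.1 p.2) = false := by simpa using h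
    rw [this]
    simp only [Bool.false_eq_true, if_false]
    unfold oS
    rw [Finset.mem_filter]
    exact ⟨Finset.mem_univ _, h, trivial⟩
  · have : decide (¬ od p.1 p.2) = true := by simpa using h
    rw [this, if_pos rfl]
    unfold eS
    rw [Finset.mem_filter]
    exact ⟨Finset.mem_univ _, h, trivial⟩

private theorem B4_iter_range {d k : ℕ} (hd : 1 ≤ d) (t : ℕ) (g : Site d k → ℝ) (M : ℝ) (h0 : ∀ x, 0 ≤ g x) (hM : ∀ x, g x ≤ M)
    (x : Site d k) : |PP^[t] g x| ≤ M := by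
  have h1 : 0 ≤ PP^[t] g x := by
    have := PPt_mono t (g := fun _ => (0 : ℝ)) (h := g) h0 x
    rwa [PPt_const hd] at this
  have h2 : PP^[t] g x ≤ M := by
    have := PPt_mono t (g := g) (h := fun _ => M) hM x
    rwa [PPt_const hd] at this
  rw [abs_of_nonneg h1]
  exact h2

private theorem B4_tot {ι : Type} [Fintype ι] (n q A c : ℝ) (hn : (Fintype.card ι : ℝ) = n) (S : ι → ℝ) :
    ∑ u, q * (2 * (A + c * S u)) = 2 * q * (n * A + c * ∑ u, S u) := by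
  have h : ∀ u ∈ (Finset.univ : Finset ι), q * (2 * (A + c * S u)) = 2 * q * A + (2 * q * c) * S u := fun u _ => by ring
  rw [Finset.sum_congr rfl h, Finset.sum_add_distrib, Finset.sum_const, nsmul_eq_mul, Finset.card_univ, hn, ← Finset.mul_sum]
  ring

/-- one block, one colour, one parity -/
private theorem B4_one {d k q : ℕ} (hd : 2 ≤ d) (hq : 0 < q) (C₄ δ : ℝ) (hC : 0 < C₄) (hδ : 0 < δ) (t : ℕ)
    (f : Site d (k + 1) → Fin q) (u : Blk d k) (c : Fin q) (e : Bool) :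
    cn (fun p : Bt d × Bt d => p ∈ (pS e none : Finset (Bt d × Bt d)) ∧
      δ ≤ |PP^[t] (bq c f) (pt u p.1 p.2) - Mp e none u (PP^[t] (bq c f))|) ≤
    4 ^ d * Real.exp (-(δ ^ 2 / (4 * d * (C₄ / q) ^ 2))) +
      2 * q ^ 2 / C₄ * ∑ i : Fin d × Bool,
        cn (fun p : Bt d × Bt d => Gb C₄ t f (pt u (flp i p).1 (flp i p).2)) := by
  have hqR : (0 : ℝ) < q := by exact_mod_cast hq
  have hL : 0 < C₄ / (q : ℝ) := div_pos hC hqR
  have h4 : (0 : ℝ) < 4 ^ d / 2 := by positivity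
  have haz := az_odd hd e ((⟨0, by omega⟩ : Fin d), false)
    (fun p : Bt d × Bt d => PP^[t] (bq c f) (pt u p.1 p.2)) q (C₄ / q) δ hqR
    (fun p => B4_iter_range (by omega) t (bq c f) q
      (fun x => by unfold bq; split_ifs <;> positivity)
      (fun x => by unfold bq; split_ifs; exacts [le_refl _, hqR.le]) _)
    hL hδ.le (fun p i => Gb C₄ t f (pt u (flp i p).1 (flp i p).2))
    (fun p _ i hB => by
      obtain ⟨σ, hσ⟩ := B4_step' u i p
      obtain ⟨τ, hτ⟩ := B4_step u ((⟨0, by omega⟩ : Fin d), false) (flp i p)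
      show |PP^[t] (bq c f) (pt u p.1 p.2) - PP^[t] (bq c f) (pt u _ _)| ≤ _
      rw [hσ, hτ]
      by_contra hlt
      exact hB ⟨c, σ, τ, not_le.1 hlt⟩)
  rw [← Finset.sum_div] at haz
  have hsum : ∑ i : Fin d × Bool, cn (fun p : Bt d × Bt d => p ∈ (pS e none : Finset (Bt d × Bt d)) ∧
      Gb C₄ t f (pt u (flp i p).1 (flp i p).2)) ≤
      ∑ i : Fin d × Bool, cn (fun p : Bt d × Bt d => Gb C₄ t f (pt u (flp i p).1 (flp i p).2)) :=
    Finset.sum_le_sum fun i _ => B4_cn_mono fun x h => h.2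
  rw [div_le_iff₀ h4] at haz
  have hMp : Mp e none u (PP^[t] (bq c f)) =
      (∑ p' ∈ (pS e none : Finset (Bt d × Bt d)), PP^[t] (bq c f) (pt u p'.1 p'.2)) /
        ((pS e none : Finset (Bt d × Bt d)).card : ℝ) := rfl
  rw [hMp]
  refine haz.trans ?_
  have hk2 : (0 : ℝ) ≤ 2 * q / (C₄ / q) := by positivity
  calc (2 * Real.exp (-(δ ^ 2 / (4 * d * (C₄ / q) ^ 2))) + 2 * q / (C₄ / q) *
        ((∑ i : Fin d × Bool, cn (fun p : Bt d × Bt d => p ∈ (pS e none : Finset (Bt d × Bt d)) ∧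
          Gb C₄ t f (pt u (flp i p).1 (flp i p).2))) / (4 ^ d / 2))) * (4 ^ d / 2)
      = 4 ^ d * Real.exp (-(δ ^ 2 / (4 * d * (C₄ / q) ^ 2))) + 2 * q / (C₄ / q) *
        (∑ i : Fin d × Bool, cn (fun p : Bt d × Bt d => p ∈ (pS e none : Finset (Bt d × Bt d)) ∧
          Gb C₄ t f (pt u (flp i p).1 (flp i p).2))) := by
        field_simp
    _ ≤ 4 ^ d * Real.exp (-(δ ^ 2 / (4 * d * (C₄ / q) ^ 2))) + 2 * q / (C₄ / q) *
        (∑ i : Fin d × Bool, cn (fun p : Bt d × Bt d => Gb C₄ t f (pt u (flp i p).1 (flp i p).2))) := by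
        have := mul_le_mul_of_nonneg_left hsum hk2
        linarith
    _ = _ := by
        congr 2
        field_simp

private theorem B4_evd (K : ℕ) (C₄ δ : ℝ) (hC : 0 < C₄) (hδ : 0 < δ) : ∀ᶠ d : ℕ in atTop,
    4 * (d : ℝ) * Real.exp (-(δ ^ 2 / (4000000 * C₄ ^ 2) * d)) ≤ 1 / 2 / (d : ℝ) ^ K ∧
      64 / (C₄ * (d : ℝ) ^ 2) ≤ 1 / 2 := by
  have hκ : 0 < δ ^ 2 / (4000000 * C₄ ^ 2) := by positivity
  have h1 : Tendsto (fun d : ℕ => (d : ℝ) ^ (K + 1) * Real.exp (-(δ ^ 2 / (4000000 * C₄ ^ 2)) * d)) atTop (nhds 0) := by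
    have h := (isLittleO_pow_exp_pos_mul_atTop (k := K + 1) hκ).tendsto_div_nhds_zero
    have h' := h.comp tendsto_natCast_atTop_atTop
    refine h'.congr fun d => ?_
    show (d : ℝ) ^ (K + 1) / Real.exp (δ ^ 2 / (4000000 * C₄ ^ 2) * d) = _
    rw [neg_mul, Real.exp_neg, div_eq_mul_inv]
  have h2 : ∀ᶠ d : ℕ in atTop, (d : ℝ) ^ (K + 1) * Real.exp (-(δ ^ 2 / (4000000 * C₄ ^ 2)) * d) < 1 / 8 :=
    h1.eventually (gt_mem_nhds (by norm_num))
  obtain ⟨m, hm⟩ := exists_nat_ge (128 / C₄)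
  filter_upwards [h2, eventually_ge_atTop (max m 1)] with d hd hdm
  have hd1 : 1 ≤ d := le_trans (le_max_right _ _) hdm
  have hd1R : (1 : ℝ) ≤ d := by exact_mod_cast hd1
  have hd0 : (0 : ℝ) < d := by linarith
  have hdm' : (m : ℝ) ≤ d := by exact_mod_cast le_trans (le_max_left _ _) hdm
  refine ⟨?_, ?_⟩
  · rw [le_div_iff₀ (by positivity)]
    have e : -(δ ^ 2 / (4000000 * C₄ ^ 2)) * (d : ℝ) = -(δ ^ 2 / (4000000 * C₄ ^ 2) * d) := by ring
    rw [e] at hd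
    have : 4 * (d : ℝ) * Real.exp (-(δ ^ 2 / (4000000 * C₄ ^ 2) * d)) * (d : ℝ) ^ K =
        4 * ((d : ℝ) ^ (K + 1) * Real.exp (-(δ ^ 2 / (4000000 * C₄ ^ 2) * d))) := by ring
    rw [this]
    linarith
  · rw [div_le_iff₀ (by positivity)]
    have h3 : 128 ≤ C₄ * (d : ℝ) := by
      have := hm.trans hdm'
      rw [div_le_iff₀ hC] at this
      linarith
    have h4 : C₄ * (d : ℝ) ≤ C₄ * (d : ℝ) ^ 2 := by
      refine mul_le_mul_of_nonneg_left ?_ hC.le
      nlinarith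
    linarith

open scoped Classical in
theorem blk_conc (C₄ : ℝ) (hC : 0 < C₄) (t : ℕ) (K : ℕ) (h : SRK (K + 6) fun _ _ _ f v => Gb C₄ t f v)
    (δ : ℝ) (hδ : 0 < δ) : TRK K fun _ _ q f p => ∃ c : Fin q,
      δ < |PP^[t] (bq c f) (tp p) - Mp (decide (¬ od p.2.1 p.2.2)) none p.1 (PP^[t] (bq c f))| := by
  have hb := WOP.blk h
  refine WOPb.mono hb ?_
  refine ((EvT_d (ε := e3) (B4_evd K C₄ δ hC hδ)).and (EvT_d (eventually_ge_atTop 2))).mono ?_
  rintro d k q ⟨⟨hE1, hE2⟩, hd⟩ f _ hG hRg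
  obtain ⟨hq, _, _, _, hqd, hqd', _, _, _⟩ := rg_pos (by omega) hRg
  have hG' := hG hRg
  have hqR : (0 : ℝ) < q := by exact_mod_cast hq
  have hd2 : (2 : ℝ) ≤ d := by exact_mod_cast hd
  have hd0 : (0 : ℝ) < d := by linarith
  have he3 : e3 = 1 / 1000 := rfl
  rw [he3] at hqd hqd'
  have hqd1 : (d : ℝ) ≤ 1000 * q := by linarith
  have hqd2 : (q : ℝ) ≤ 2 * d := by linarith
  have hNN : 0 ≤ NN d k := by
    unfold NN
    positivity
  set E : ℝ := Real.exp (-(δ ^ 2 / (4 * d * (C₄ / q) ^ 2))) with hEdef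
  have hE0 : 0 < E := Real.exp_pos _
  have hEle : E ≤ Real.exp (-(δ ^ 2 / (4000000 * C₄ ^ 2) * d)) := by
    rw [hEdef]
    refine Real.exp_le_exp.2 (neg_le_neg ?_)
    have e1 : δ ^ 2 / (4 * d * (C₄ / q) ^ 2) = δ ^ 2 * q ^ 2 / (4 * d * C₄ ^ 2) := by
      field_simp
    rw [e1, div_mul_eq_mul_div, div_le_div_iff₀ (by positivity) (by positivity)]
    have e2 : (d : ℝ) ^ 2 ≤ 1000000 * (q : ℝ) ^ 2 := by nlinarith
    have e3' : (0 : ℝ) ≤ 4 * δ ^ 2 * C₄ ^ 2 := by positivity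
    nlinarith [mul_le_mul_of_nonneg_left e2 e3']
  -- the sum
  set X : Blk d k → Fin d × Bool → ℝ := fun u i =>
    cn (fun p : Bt d × Bt d => Gb C₄ t f (pt u (flp i p).1 (flp i p).2)) with hX
  have hmain : cn (fun p : Tpl d k => ∃ c : Fin q,
      δ < |PP^[t] (bq c f) (tp p) - Mp (decide (¬ od p.2.1 p.2.2)) none p.1 (PP^[t] (bq c f))|) ≤
      ∑ u : Blk d k, ∑ _c : Fin q, ∑ _e : Bool, (4 ^ d * E + 2 * q ^ 2 / C₄ * ∑ i : Fin d × Bool, X u i) := by
    rw [B4_cn, Fintype.sum_prod_type]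
    refine Finset.sum_le_sum fun u _ => ?_
    have h1 : ∀ p : Bt d × Bt d, ind (∃ c : Fin q,
        δ < |PP^[t] (bq c f) (tp (u, p)) - Mp (decide (¬ od p.1 p.2)) none u (PP^[t] (bq c f))|) ≤
        ∑ c : Fin q, ∑ e : Bool, ind (p ∈ (pS e none : Finset (Bt d × Bt d)) ∧
          δ ≤ |PP^[t] (bq c f) (pt u p.1 p.2) - Mp e none u (PP^[t] (bq c f))|) := by
      intro p
      rw [← Fintype.sum_prod_type (f := fun ce : Fin q × Bool => ind (p ∈ (pS ce.2 none : Finset (Bt d × Bt d)) ∧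
          δ ≤ |PP^[t] (bq ce.1 f) (pt u p.1 p.2) - Mp ce.2 none u (PP^[t] (bq ce.1 f))|))]
      refine B4_ind_ex ?_
      rintro ⟨c, hc⟩
      exact ⟨(c, decide (¬ od p.1 p.2)), B4_mem_pS p, hc.le⟩
    refine (Finset.sum_le_sum fun p _ => h1 p).trans ?_
    rw [Finset.sum_comm]
    refine Finset.sum_le_sum fun c _ => ?_
    rw [Finset.sum_comm]
    refine Finset.sum_le_sum fun e _ => ?_
    rw [← B4_cn (fun p : Bt d × Bt d => p ∈ (pS e none : Finset (Bt d × Bt d)) ∧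
          δ ≤ |PP^[t] (bq c f) (pt u p.1 p.2) - Mp e none u (PP^[t] (bq c f))|)]
    exact B4_one hd hq C₄ δ hC hδ t f u c e
  refine hmain.trans ?_
  have hsumX : ∑ u : Blk d k, ∑ i : Fin d × Bool, X u i ≤ 2 * d * (4 ^ d * NN d k / (d : ℝ) ^ (K + 6)) := by
    rw [Finset.sum_comm]
    have h1 : ∀ i : Fin d × Bool, ∑ u : Blk d k, X u i ≤ 4 ^ d * NN d k / (d : ℝ) ^ (K + 6) := by
      intro i
      rw [hX]
      rw [B4_sumG (fun x => Gb C₄ t f x) i]
      have h2 : (2 : ℝ) ^ d * cn (fun x => Gb C₄ t f x) ≤ 2 ^ d * (NN d (k + 1) / (d : ℝ) ^ (K + 6)) :=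
        mul_le_mul_of_nonneg_left hG' (by positivity)
      refine h2.trans (le_of_eq ?_)
      rw [NN_succ]
      have : (4 : ℝ) ^ d = 2 ^ d * 2 ^ d := by
        rw [← mul_pow]
        norm_num
      rw [this]
      ring
    refine (Finset.sum_le_sum fun i _ => h1 i).trans (le_of_eq ?_)
    rw [Finset.sum_const, nsmul_eq_mul, Finset.card_univ, Fintype.card_prod, Fintype.card_fin, Fintype.card_bool]
    push_cast
    ring
  have htot : ∑ u : Blk d k, ∑ _c : Fin q, ∑ _e : Bool, (4 ^ d * E + 2 * q ^ 2 / C₄ * ∑ i : Fin d × Bool, X u i) =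
      2 * q * (NN d k * (4 ^ d * E) + 2 * q ^ 2 / C₄ * ∑ u : Blk d k, ∑ i : Fin d × Bool, X u i) := by
    simp only [Finset.sum_const, Finset.card_univ, Fintype.card_bool, Fintype.card_fin, nsmul_eq_mul, Nat.cast_ofNat]
    exact B4_tot _ _ _ _ (card_Blk d k) _
  rw [htot]
  have hdK : (0 : ℝ) < (d : ℝ) ^ K := by positivity
  -- first term
  have t1 : 2 * q * (NN d k * (4 ^ d * E)) ≤ 4 ^ d * NN d k * (1 / 2 / (d : ℝ) ^ K) := by
    have h1 : 2 * (q : ℝ) * E ≤ 1 / 2 / (d : ℝ) ^ K := by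
      refine le_trans ?_ hE1
      have h2 : 2 * (q : ℝ) ≤ 4 * d := by linarith
      exact mul_le_mul h2 hEle hE0.le (by positivity)
    have h2 : 2 * q * (NN d k * (4 ^ d * E)) = 4 ^ d * NN d k * (2 * q * E) := by ring
    rw [h2]
    exact mul_le_mul_of_nonneg_left h1 (by positivity)
  have t2 : 2 * q * (2 * q ^ 2 / C₄ * ∑ u : Blk d k, ∑ i : Fin d × Bool, X u i) ≤
      4 ^ d * NN d k * (1 / 2 / (d : ℝ) ^ K) := by
    have h1 : 2 * q * (2 * q ^ 2 / C₄ * ∑ u : Blk d k, ∑ i : Fin d × Bool, X u i) ≤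
        2 * q * (2 * q ^ 2 / C₄ * (2 * d * (4 ^ d * NN d k / (d : ℝ) ^ (K + 6)))) := by
      refine mul_le_mul_of_nonneg_left ?_ (by positivity)
      exact mul_le_mul_of_nonneg_left hsumX (by positivity)
    refine h1.trans ?_
    have h2 : 2 * q * (2 * q ^ 2 / C₄ * (2 * d * (4 ^ d * NN d k / (d : ℝ) ^ (K + 6)))) =
        4 ^ d * NN d k * (8 * q ^ 3 * d / (C₄ * (d : ℝ) ^ (K + 6))) := by
      field_simp
      ring
    rw [h2]
    refine mul_le_mul_of_nonneg_left ?_ (by positivity)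
    have h3 : (q : ℝ) ^ 3 ≤ (2 * d) ^ 3 := by gcongr
    calc 8 * (q : ℝ) ^ 3 * d / (C₄ * (d : ℝ) ^ (K + 6)) ≤ 8 * (2 * (d : ℝ)) ^ 3 * d / (C₄ * (d : ℝ) ^ (K + 6)) := by gcongr
      _ = 64 / (C₄ * (d : ℝ) ^ 2) / (d : ℝ) ^ K := by
          field_simp
          ring
      _ ≤ 1 / 2 / (d : ℝ) ^ K := by gcongr
  calc 2 * q * (NN d k * (4 ^ d * E) + 2 * q ^ 2 / C₄ * ∑ u : Blk d k, ∑ i : Fin d × Bool, X u i)
      = 2 * q * (NN d k * (4 ^ d * E)) + 2 * q * (2 * q ^ 2 / C₄ * ∑ u : Blk d k, ∑ i : Fin d × Bool, X u i) := by ring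
    _ ≤ 4 ^ d * NN d k * (1 / 2 / (d : ℝ) ^ K) + 4 ^ d * NN d k * (1 / 2 / (d : ℝ) ^ K) := add_le_add t1 t2
    _ = 4 ^ d * NN d k / (d : ℝ) ^ K := by ring

end Pool.Agent.LC
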