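import Pool.Agent.Lib_MP_2c424f_lc1.Defs
import Pool.Agent.Lib_MP_2c424f_thr.T2

/-!
# LC1 T4: deviations on a fibre; product formula

* `fm_mcd`: `fib b f = Fintype.piFinset t` (`t x = (SS f x)ᶜ` on the class, `{f x}` off it); `LIN.mcdiarmid` for `λ F`, `λ = θ/(2S)`, `λ c_v ≤ 1`:
  mean of `exp (λ (F - mean)) ≤ exp (λ² S)`; Markov: `exp (-λθ + λ²S) = exp (-θ²/(4S))`; the same for `-F`.  (Compare THR T1, private `T1_mcd`.)
* `fm_prod`: the sites of the class are independent on the fibre: induction over `U` with THR `fm_indep2` (or directly: sums over `piFinset` factorise).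
* `fm_expn`: `X = ∑_{u ∈ U} 1[h u = c]`: product formula, `fm (e^{x 1[h u = c]}) = 1 + (e^x - 1) z_u/x_u ≤ exp ((e^x-1) z_u/x_u)`.
-/

set_option autoImplicit false

open Finset Filter

namespace Pool.Agent.LC

open Pool.Agent.LO Pool.Agent.LIN Pool.Agent.THR Pool.Agent.COR

variable {d k q : ℕ}

private theorem T4_mcd (b : Bool) {f : Site d k → Fin q} (hf : Prp f)
    (F : (Site d k → Fin q) → ℝ) (c : Site d k → ℝ) (hc0 : ∀ v, 0 ≤ c v)
    (hc1 : ∀ v ∈ cls b d k, c v ≤ 1)
    (hF : ∀ h ∈ fib b f, ∀ v ∈ cls b d k, ∀ γ, γ ∉ SS f v → |F (Function.update h v γ) - F h| ≤ c v) :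
    fm b (fun h => Real.exp (F h)) f ≤ Real.exp (fm b F f + ∑ v ∈ cls b d k, c v ^ 2) := by
  classical
  have hself := fib_self b hf
  set t : Site d k → Finset (Fin q) := fun x => if x ∈ cls b d k then (SS f x)ᶜ else {f x} with ht
  have hfib : fib b f = Fintype.piFinset t := by
    unfold fib
    rw [ht]
  have htne : ∀ i, (t i).Nonempty := fun i =>
    ⟨f i, Fintype.mem_piFinset.1 (hfib ▸ hself) i⟩
  have hdiff : ∀ h ∈ Fintype.piFinset t, ∀ i, ∀ a ∈ t i,
      |F (Function.update h i a) - F h| ≤ if i ∈ cls b d k then c i else 0 := by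
    intro h hh i a ha
    by_cases hi : i ∈ cls b d k
    · rw [if_pos hi]
      refine hF h (hfib ▸ hh) i hi a ?_
      rw [ht] at ha
      dsimp only at ha
      rw [if_pos hi] at ha
      exact Finset.mem_compl.1 ha
    · have hti : t i = {f i} := by
        rw [ht]
        dsimp only
        rw [if_neg hi]
      have h1 : a = f i := by
        rw [hti] at ha
        exact Finset.mem_singleton.1 ha
      have h2 : h i = f i := by
        have := Fintype.mem_piFinset.1 hh i
        rw [hti] at this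
        exact Finset.mem_singleton.1 this
      have h3 : Function.update h i a = h := by
        rw [h1, ← h2, Function.update_eq_self]
      rw [h3, sub_self, abs_zero, if_neg hi]
  have hmc := mcdiarmid t htne F (fun i => if i ∈ cls b d k then c i else 0)
    (fun i => by
      split_ifs
      · exact hc0 i
      · exact le_rfl)
    (fun i => by
      split_ifs with hi
      · exact hc1 i hi
      · exact zero_le_one) hdiff
  have hcard : 0 < ((Fintype.piFinset t).card : ℝ) := by
    rw [← hfib]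
    exact_mod_cast Finset.card_pos.2 ⟨f, hself⟩
  have hsum : ∑ i, (if i ∈ cls b d k then c i else 0) ^ 2 = ∑ v ∈ cls b d k, c v ^ 2 := by
    have h1 : ∀ i, (if i ∈ cls b d k then c i else 0) ^ 2 = if i ∈ cls b d k then c i ^ 2 else 0 := by
      intro i
      split_ifs
      · rfl
      · simp
    rw [Finset.sum_congr rfl fun i _ => h1 i, Finset.sum_ite_mem, Finset.univ_inter]
  rw [hsum] at hmc
  unfold fm
  rw [hfib, div_le_iff₀ hcard, mul_comm]
  exact hmc

private theorem T4_center (b : Bool) {f : Site d k → Fin q} (hf : Prp f)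
    (F : (Site d k → Fin q) → ℝ) (l : ℝ) :
    fm b (fun h => l * (F h - fm b F f)) f = 0 := by
  rw [fm_mul, fm_sub, fm_const b hf, sub_self, mul_zero]

private theorem T4_exp (b : Bool) {f : Site d k → Fin q} (hf : Prp f) (F : (Site d k → Fin q) → ℝ)
    (c : Site d k → ℝ) (hc : ∀ v, 0 ≤ c v)
    (h : ∀ h ∈ fib b f, ∀ v ∈ cls b d k, ∀ γ, γ ∉ SS f v → |F (Function.update h v γ) - F h| ≤ c v)
    (S l s : ℝ) (hS : ∑ v ∈ cls b d k, c v ^ 2 ≤ S) (hs : |s| = l)
    (hcS : ∀ v ∈ cls b d k, l * c v ≤ 1) :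
    fm b (fun h => Real.exp (s * (F h - fm b F f))) f ≤ Real.exp (l ^ 2 * S) := by
  have hl0 : 0 ≤ l := by
    rw [← hs]
    exact abs_nonneg s
  have h2 := T4_mcd b hf (fun h => s * (F h - fm b F f)) (fun v => l * c v)
    (fun v => mul_nonneg hl0 (hc v)) hcS (by
      intro g hg v hv γ hγ
      have h3 := h g hg v hv γ hγ
      have h4 : s * (F (Function.update g v γ) - fm b F f) - s * (F g - fm b F f) =
          s * (F (Function.update g v γ) - F g) := by ring
      rw [h4, abs_mul, hs]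
      exact mul_le_mul_of_nonneg_left h3 hl0)
  rw [T4_center b hf F s, zero_add] at h2
  refine h2.trans (Real.exp_le_exp.2 ?_)
  have h5 : ∑ v ∈ cls b d k, (l * c v) ^ 2 = l ^ 2 * ∑ v ∈ cls b d k, c v ^ 2 := by
    rw [Finset.mul_sum]
    refine Finset.sum_congr rfl fun v _ => ?_
    ring
  rw [h5]
  exact mul_le_mul_of_nonneg_left hS (sq_nonneg l)

private theorem T4_point (θ l x : ℝ) (hl : 0 ≤ l) :
    ind (θ ≤ |x|) ≤ Real.exp (-(l * θ)) * (Real.exp (l * x) + Real.exp (-l * x)) := by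
  unfold ind
  split_ifs with h
  · rw [mul_add, ← Real.exp_add, ← Real.exp_add]
    rcases le_total 0 x with hx | hx
    · rw [abs_of_nonneg hx] at h
      have h1 : 0 ≤ -(l * θ) + l * x := by nlinarith
      have h2 := Real.one_le_exp h1
      have h3 := Real.exp_pos (-(l * θ) + -l * x)
      linarith
    · rw [abs_of_nonpos hx] at h
      have h1 : 0 ≤ -(l * θ) + -l * x := by nlinarith
      have h2 := Real.one_le_exp h1
      have h3 := Real.exp_pos (-(l * θ) + l * x)
      linarith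
  · positivity

theorem fm_mcd (hk : 2 ≤ k) (b : Bool) {f : Site d k → Fin q} (hf : Prp f) (F : (Site d k → Fin q) → ℝ)
    (c : Site d k → ℝ) (hc : ∀ v, 0 ≤ c v)
    (h : ∀ h ∈ fib b f, ∀ v ∈ cls b d k, ∀ γ, γ ∉ SS f v → |F (Function.update h v γ) - F h| ≤ c v)
    (S θ : ℝ) (hS : ∑ v ∈ cls b d k, c v ^ 2 ≤ S) (hS0 : 0 < S) (hθ : 0 ≤ θ) (hcS : ∀ v ∈ cls b d k, θ * c v ≤ 2 * S) :
    fm b (fun h => ind (θ ≤ |F h - fm b F f|)) f ≤ 2 * Real.exp (-(θ ^ 2 / (4 * S))) := by
  have _ := hk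
  set l : ℝ := θ / (2 * S) with hl
  have hl0 : 0 ≤ l := by positivity
  have hlc : ∀ v ∈ cls b d k, l * c v ≤ 1 := by
    intro v hv
    have h1 := hcS v hv
    rw [hl, div_mul_eq_mul_div, div_le_one (by positivity)]
    exact h1
  have h1 := T4_exp b hf F c hc h S l l hS (abs_of_nonneg hl0) hlc
  have h2 := T4_exp b hf F c hc h S l (-l) hS (by rw [abs_neg, abs_of_nonneg hl0]) hlc
  have h3 : fm b (fun h => ind (θ ≤ |F h - fm b F f|)) f ≤
      fm b (fun h => Real.exp (-(l * θ)) * (Real.exp (l * (F h - fm b F f)) +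
        Real.exp (-l * (F h - fm b F f)))) f :=
    fm_mono b hf fun g _ => T4_point θ l _ hl0
  rw [fm_mul, fm_add] at h3
  refine h3.trans ?_
  have h4 : Real.exp (-(l * θ)) * (Real.exp (l ^ 2 * S) + Real.exp (l ^ 2 * S)) =
      2 * Real.exp (-(θ ^ 2 / (4 * S))) := by
    have h5 : -(θ ^ 2 / (4 * S)) = -(l * θ) + l ^ 2 * S := by
      rw [hl]
      field_simp
      ring
    rw [h5, Real.exp_add]
    ring
  rw [← h4]
  exact mul_le_mul_of_nonneg_left (add_le_add h1 h2) (Real.exp_pos _).le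

theorem fm_prod (hk : 2 ≤ k) (b : Bool) {f : Site d k → Fin q} (hf : Prp f) (U : Finset (Site d k)) (hU : U ⊆ cls b d k)
    (g : Site d k → Fin q → ℝ) : fm b (fun h => ∏ u ∈ U, g u (h u)) f = ∏ u ∈ U, fm b (fun h => g u (h u)) f := by
  rw [Pool.Agent.LIN.fm_prod (by omega : 1 ≤ k) b hf U hU g]
  refine Finset.prod_congr rfl fun u hu => ?_
  rw [fm_one (by omega : 1 ≤ k) b hf u (hU hu) (g u)]

open scoped Classical in
theorem fm_expn (hk : 2 ≤ k) (b : Bool) {f : Site d k → Fin q} (hf : Prp f) (U : Finset (Site d k)) (hU : U ⊆ cls b d k)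
    (c : Fin q) (x : ℝ) (hx : 0 ≤ x) :
    fm b (fun h => Real.exp (x * ((U.filter fun u => h u = c).card : ℝ))) f ≤
      Real.exp ((Real.exp x - 1) * ∑ u ∈ U, zz f u c / (av f u : ℝ)) := by
  have hk1 : 1 ≤ k := by omega
  have h1 : ∀ h : Site d k → Fin q, Real.exp (x * ((U.filter fun u => h u = c).card : ℝ)) =
      ∏ u ∈ U, (1 + (Real.exp x - 1) * (if h u = c then (1 : ℝ) else 0)) := by
    intro h
    have h2 : ((U.filter fun u => h u = c).card : ℝ) = ∑ u ∈ U, (if h u = c then (1 : ℝ) else 0) := by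
      rw [Finset.sum_boole]
    rw [h2, Finset.mul_sum, Real.exp_sum]
    refine Finset.prod_congr rfl fun u _ => ?_
    split_ifs
    · rw [mul_one, mul_one]
      ring
    · rw [mul_zero, mul_zero, Real.exp_zero, add_zero]
  have h3 : fm b (fun h => Real.exp (x * ((U.filter fun u => h u = c).card : ℝ))) f =
      fm b (fun h => ∏ u ∈ U, (1 + (Real.exp x - 1) * (if h u = c then (1 : ℝ) else 0))) f :=
    fm_congr b fun h _ => h1 h
  rw [h3, fm_prod hk b hf U hU (fun _ γ => 1 + (Real.exp x - 1) * (if γ = c then (1 : ℝ) else 0)),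
    Finset.mul_sum, Real.exp_sum]
  have hx1 : 0 ≤ Real.exp x - 1 := by
    have := Real.one_le_exp hx
    linarith
  have h4 : ∀ u ∈ U, fm b (fun h => 1 + (Real.exp x - 1) * (if h u = c then (1 : ℝ) else 0)) f =
      1 + (Real.exp x - 1) * (zz f u c / (av f u : ℝ)) := by
    intro u hu
    rw [fm_add, fm_const b hf, fm_mul, fm_ind hk1 b hf u (hU hu) c]
  refine Finset.prod_le_prod (fun u hu => ?_) fun u hu => ?_
  · rw [h4 u hu]
    have h5 := (zz_av_le hf u c).1
    positivity
  · rw [h4 u hu, add_comm]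
    exact Real.add_one_le_exp _

end Pool.Agent.LC
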