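import Pool.Agent.Lib_MP_2c424f_lc1.T3
import Pool.Agent.Lib_MP_2c424f_lc1.T4
import Pool.Agent.Lib_MP_2c424f_lc1.T7
import Pool.Agent.Lib_MP_2c424f_thr.N1
import Pool.Agent.Lib_MP_2c424f_thr.N1a
import Pool.Agent.Lib_MP_2c424f_thr.T2

/-!
# LC1 B5: averages of the colour and of its conditional probability

`SR_local` with `o = true` (resample the class `b` of `v`; `t` even, so `PP^[t]` at `v` averages over the class `b`, `Kt_cls`), `R = True`, radius `t + 2`.  `gg c f y` for `y` in the class `b`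
depends on the other class only, it is the conditional mean of `bq c f y` (`fm_ind`).  `fm_mcd` with the influences `q Kt t v y`, `∑ (q Kt)² ≤ q² sup Kt =: S` (`Kt_one`, `Kt_sup` with `2s = t`,
`s ≥ 10`: `sup Kt ≤ (8s)^(2s)/(2d)^10`), so `S ≤ C d^(-8)` and `2 exp (-δ²/(4S)) ≤ 1/(q d^K)`; union over `c`.  `2^k > t` for `k` large.
-/

set_option autoImplicit false

open Finset Filter

namespace Pool.Agent.LC

open Pool.Agent.LO Pool.Agent.LIN Pool.Agent.THR Pool.Agent.COR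

private theorem B5_ind_nonneg (P : Prop) : 0 ≤ ind P := by
  unfold ind
  split_ifs <;> norm_num

private theorem B5_ind_mono {P Q : Prop} (h : P → Q) : ind P ≤ ind Q := by
  unfold ind
  by_cases hp : P
  · rw [if_pos hp, if_pos (h hp)]
  · rw [if_neg hp]
    split_ifs <;> norm_num

private theorem B5_ind_ex {ι : Type} [Fintype ι] {P : Prop} {Q : ι → Prop} (h : P → ∃ i, Q i) :
    ind P ≤ ∑ i, ind (Q i) := by
  by_cases hp : P
  · obtain ⟨i, hi⟩ := h hp
    have h1 : ind (Q i) ≤ ∑ i, ind (Q i) :=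
      Finset.single_le_sum (f := fun i => ind (Q i)) (fun i _ => B5_ind_nonneg _) (Finset.mem_univ i)
    refine le_trans ?_ h1
    unfold ind
    rw [if_pos hp, if_pos hi]
  · have h0 : ind P = 0 := by
      unfold ind
      rw [if_neg hp]
    rw [h0]
    exact Finset.sum_nonneg fun i _ => B5_ind_nonneg _

private theorem B5_loc {d k q : ℕ} (t : ℕ) (c : Fin q) {f g : Site d k → Fin q} {v : Site d k}
    (h : ∀ u, nr (t + 2) v u → f u = g u) :
    PP^[t] (bq c f) v = PP^[t] (bq c g) v ∧ PP^[t] (gg c f) v = PP^[t] (gg c g) v := by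
  constructor
  · refine loc_PPt t fun u hu => ?_
    unfold bq
    rw [h u (nr_mono (by omega) hu)]
  · refine loc_PPt t fun u hu => ?_
    have hl : ∀ w, nr 1 u w → f w = g w := fun w hw => h w (nr_mono (by omega) (nr_trans hu hw))
    obtain ⟨_, h2, h3⟩ := loc_av hl
    unfold THR.gg
    rw [h2, h3 c]

/-- the fibre mean -/
private theorem B5_mean {d k q : ℕ} (hk : 1 ≤ k) (t : ℕ) (ht : Even t) (b : Bool) {f : Site d k → Fin q} (hf : Prp f)
    (v : Site d k) (hv : v ∈ cls b d k) (c : Fin q) (h : Site d k → Fin q) (hh : h ∈ fib b f) :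
    fm b (fun h => PP^[t] (bq c h) v) f = PP^[t] (gg c h) v := by
  have h1 : (fun h : Site d k → Fin q => PP^[t] (bq c h) v) = fun h => ∑ y, Kt t v y * bq c h y := by
    funext h
    exact Kt_repr t _ v
  rw [h1, fm_sum b f (Finset.univ) (fun y h => Kt t v y * bq c h y), Kt_repr t (gg c h) v]
  refine Finset.sum_congr rfl fun y _ => ?_
  by_cases hy : y ∈ cls b d k
  · rw [fm_mul b f (Kt t v y) (fun h => bq c h y)]
    congr 1
    have h2 : (fun h : Site d k → Fin q => bq c h y) = fun h => (q : ℝ) * (if h y = c then (1 : ℝ) else 0) := by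
      funext h
      unfold bq
      split_ifs
      · rw [mul_one]
      · rw [mul_zero]
    rw [h2, fm_mul b f (q : ℝ) (fun h => if h y = c then (1 : ℝ) else 0)]
    have h3 := fm_ind hk b hf y hy c
    have h4 : fm b (fun h => if h y = c then (1 : ℝ) else 0) f = zz f y c / (av f y : ℝ) := by
      rw [← h3]
    rw [h4]
    unfold THR.gg
    have hS := fib_SS hk b hh y hy
    have e1 : zz h y c = zz f y c := by
      unfold zz
      rw [hS]
    have e2 : av h y = av f y := by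
      unfold av
      rw [hS]
    rw [e1, e2]
    ring
  · have hy' : y ∈ cls (!b) d k := (cls_not b y).2 hy
    rw [fm_mul b f (Kt t v y) (fun h => bq c h y), Kt_cls hk t ht b v y hv hy']
    ring

private theorem B5_inf {d k q : ℕ} (t : ℕ) (c : Fin q) (v y : Site d k) (h : Site d k → Fin q) (γ : Fin q) :
    |PP^[t] (bq c (Function.update h y γ)) v - PP^[t] (bq c h) v| ≤ q * Kt t v y := by
  classical
  rw [Kt_repr t (bq c (Function.update h y γ)) v, Kt_repr t (bq c h) v, ← Finset.sum_sub_distrib]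
  have hK := Kt_nonneg t v y
  rw [Finset.sum_eq_single y]
  · rw [← mul_sub, abs_mul, abs_of_nonneg hK, mul_comm (q : ℝ)]
    refine mul_le_mul_of_nonneg_left ?_ hK
    have hq : (0 : ℝ) ≤ q := Nat.cast_nonneg q
    unfold bq
    split_ifs <;> simp
  · intro z _ hz
    have : bq c (Function.update h y γ) z = bq c h z := by
      unfold bq
      rw [Function.update_of_ne hz]
    rw [this, sub_self]
  · intro h
    exact absurd (Finset.mem_univ _) h

private theorem B5_evd (K : ℕ) (κ : ℝ) (hκ : 0 < κ) : ∀ᶠ d : ℕ in atTop,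
    2 * d * (2 * Real.exp (-(κ * (2 * (d : ℝ)) ^ 8))) ≤ 1 / (d : ℝ) ^ K := by
  have h1 : Tendsto (fun d : ℕ => (d : ℝ) ^ (K + 1) * Real.exp (-κ * d)) atTop (nhds 0) := by
    have h := (isLittleO_pow_exp_pos_mul_atTop (k := K + 1) hκ).tendsto_div_nhds_zero
    have h' := h.comp tendsto_natCast_atTop_atTop
    refine h'.congr fun d => ?_
    show (d : ℝ) ^ (K + 1) / Real.exp (κ * d) = _
    rw [neg_mul, Real.exp_neg, div_eq_mul_inv]
  have h2 : ∀ᶠ d : ℕ in atTop, (d : ℝ) ^ (K + 1) * Real.exp (-κ * d) < 1 / 4 :=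
    h1.eventually (gt_mem_nhds (by norm_num))
  filter_upwards [h2, eventually_ge_atTop 1] with d hd hd1
  have hd1R : (1 : ℝ) ≤ d := by exact_mod_cast hd1
  have hd0 : (0 : ℝ) < d := by linarith
  have h3 : (d : ℝ) ≤ (2 * (d : ℝ)) ^ 8 := by
    calc (d : ℝ) ≤ 2 * d := by linarith
      _ ≤ (2 * (d : ℝ)) ^ 8 := le_self_pow₀ (by linarith) (by norm_num)
  have h4 : Real.exp (-(κ * (2 * (d : ℝ)) ^ 8)) ≤ Real.exp (-κ * d) := by
    refine Real.exp_le_exp.2 ?_
    rw [neg_mul]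
    exact neg_le_neg (mul_le_mul_of_nonneg_left h3 hκ.le)
  rw [le_div_iff₀ (by positivity)]
  calc 2 * d * (2 * Real.exp (-(κ * (2 * (d : ℝ)) ^ 8))) * (d : ℝ) ^ K
      ≤ 2 * d * (2 * Real.exp (-κ * d)) * (d : ℝ) ^ K := by gcongr
    _ = 4 * ((d : ℝ) ^ (K + 1) * Real.exp (-κ * d)) := by ring
    _ ≤ 1 := by linarith

/-- the conditional probability -/
private theorem B5_prob {d k q : ℕ} (hd : 1 ≤ d) (hk : 2 ≤ k) (s : ℕ) (hs : 10 ≤ s) (hks : 2 * s < 2 ^ k) (δ : ℝ) (hδ : 0 < δ)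
    (hq : 0 < q) (hq2 : (q : ℝ) ≤ 2 * d) (hqδ : δ ≤ q) (b : Bool) {f : Site d k → Fin q} (hf : Prp f)
    (v : Site d k) (hv : v ∈ cls b d k) :
    fm b (fun h => ind (∃ c : Fin q, δ < |PP^[2 * s] (bq c h) v - PP^[2 * s] (gg c h) v|)) f ≤
      2 * d * (2 * Real.exp (-(δ ^ 2 / (4 * (8 * (s : ℝ)) ^ (2 * s)) * (2 * (d : ℝ)) ^ 8))) := by
  have hqR : (0 : ℝ) < q := by exact_mod_cast hq
  have hd1 : (1 : ℝ) ≤ d := by exact_mod_cast hd
  have hd0 : (0 : ℝ) < d := by linarith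
  have hs0 : (0 : ℝ) < s := by
    have : 0 < s := by omega
    exact_mod_cast this
  set κ : ℝ := (8 * (s : ℝ)) ^ (2 * s) / (2 * (d : ℝ)) ^ s with hκ
  have hκ0 : 0 < κ := by positivity
  have hKs : ∀ u y : Site d k, Kt (2 * s) u y ≤ κ := fun u y => Kt_sup hd s hks u y
  have hone : ∀ c : Fin q, fm b (fun h => ind (δ ≤ |PP^[2 * s] (bq c h) v - fm b (fun h => PP^[2 * s] (bq c h) v) f|)) f ≤
      2 * Real.exp (-(δ ^ 2 / (4 * (q ^ 2 * κ)))) := by
    intro c
    refine fm_mcd hk b hf (fun h => PP^[2 * s] (bq c h) v) (fun y => q * Kt (2 * s) v y)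
      (fun y => mul_nonneg hqR.le (Kt_nonneg _ _ _)) (fun h _ y _ γ _ => B5_inf (2 * s) c v y h γ) (q ^ 2 * κ) δ ?_ (by positivity) hδ.le ?_
    · calc ∑ y ∈ cls b d k, (q * Kt (2 * s) v y) ^ 2 ≤ ∑ y ∈ cls b d k, q ^ 2 * κ * Kt (2 * s) v y := by
            refine Finset.sum_le_sum fun y _ => ?_
            have h1 := hKs v y
            have h2 := Kt_nonneg (2 * s) v y
            calc (q * Kt (2 * s) v y) ^ 2 = q ^ 2 * Kt (2 * s) v y * Kt (2 * s) v y := by ring
              _ ≤ q ^ 2 * κ * Kt (2 * s) v y := by gcongr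
        _ ≤ ∑ y, q ^ 2 * κ * Kt (2 * s) v y := by
            refine Finset.sum_le_sum_of_subset_of_nonneg (Finset.subset_univ _) fun y _ _ => ?_
            have h2 := Kt_nonneg (2 * s) v y
            positivity
        _ = q ^ 2 * κ := by rw [← Finset.mul_sum, Kt_one hd, mul_one]
    · intro y _
      have h1 := hKs v y
      have h2 := Kt_nonneg (2 * s) v y
      calc δ * (q * Kt (2 * s) v y) ≤ q * (q * κ) := by gcongr
        _ ≤ 2 * (q ^ 2 * κ) := by nlinarith [mul_pos (pow_pos hqR 2) hκ0]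
  have hexp : Real.exp (-(δ ^ 2 / (4 * (q ^ 2 * κ)))) ≤
      Real.exp (-(δ ^ 2 / (4 * (8 * (s : ℝ)) ^ (2 * s)) * (2 * (d : ℝ)) ^ 8)) := by
    refine Real.exp_le_exp.2 (neg_le_neg ?_)
    have hC : (0 : ℝ) < (8 * (s : ℝ)) ^ (2 * s) := by positivity
    have h1 : q ^ 2 * κ ≤ (8 * (s : ℝ)) ^ (2 * s) / (2 * (d : ℝ)) ^ 8 := by
      have h2 : (2 * (d : ℝ)) ^ 10 ≤ (2 * (d : ℝ)) ^ s := pow_le_pow_right₀ (by linarith) hs
      rw [hκ]
      calc (q : ℝ) ^ 2 * ((8 * (s : ℝ)) ^ (2 * s) / (2 * (d : ℝ)) ^ s)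
          ≤ (2 * (d : ℝ)) ^ 2 * ((8 * (s : ℝ)) ^ (2 * s) / (2 * (d : ℝ)) ^ 10) := by gcongr
        _ = (8 * (s : ℝ)) ^ (2 * s) / (2 * (d : ℝ)) ^ 8 := by
            field_simp
    calc δ ^ 2 / (4 * (8 * (s : ℝ)) ^ (2 * s)) * (2 * (d : ℝ)) ^ 8
        = δ ^ 2 / (4 * ((8 * (s : ℝ)) ^ (2 * s) / (2 * (d : ℝ)) ^ 8)) := by field_simp
      _ ≤ δ ^ 2 / (4 * (q ^ 2 * κ)) := by gcongr
  calc fm b (fun h => ind (∃ c : Fin q, δ < |PP^[2 * s] (bq c h) v - PP^[2 * s] (gg c h) v|)) f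
      ≤ fm b (fun h => ∑ c : Fin q, ind (δ ≤ |PP^[2 * s] (bq c h) v - fm b (fun h => PP^[2 * s] (bq c h) v) f|)) f := by
        refine fm_mono b hf fun h hh => ?_
        refine B5_ind_ex ?_
        rintro ⟨c, hc⟩
        refine ⟨c, ?_⟩
        rw [B5_mean (by omega) (2 * s) (even_two_mul s) b hf v hv c h hh]
        exact hc.le
    _ = ∑ c : Fin q, fm b (fun h => ind (δ ≤ |PP^[2 * s] (bq c h) v - fm b (fun h => PP^[2 * s] (bq c h) v) f|)) f :=
        fm_sum b f Finset.univ _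
    _ ≤ ∑ _c : Fin q, 2 * Real.exp (-(δ ^ 2 / (4 * (q ^ 2 * κ)))) := Finset.sum_le_sum fun c _ => hone c
    _ = q * (2 * Real.exp (-(δ ^ 2 / (4 * (q ^ 2 * κ))))) := by
        rw [Finset.sum_const, nsmul_eq_mul, Finset.card_univ, Fintype.card_fin]
    _ ≤ 2 * d * (2 * Real.exp (-(δ ^ 2 / (4 * (8 * (s : ℝ)) ^ (2 * s)) * (2 * (d : ℝ)) ^ 8))) := by gcongr

theorem smooth_pt (t : ℕ) (ht : Even t) (ht' : 20 ≤ t) (δ : ℝ) (hδ : 0 < δ) : SR fun _ _ q f v =>
    ∃ c : Fin q, δ < |PP^[t] (bq c f) v - PP^[t] (gg c f) v| := by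
  obtain ⟨s, hs⟩ := ht
  have hs2 : t = 2 * s := by omega
  clear hs
  subst hs2
  have hs10 : 10 ≤ s := by omega
  refine SR_local true (2 * s + 2) (fun _ _ _ _ _ => True) _ ?_ ?_ ?_ ?_ ?_
  · intro K
    refine ⟨0, 0, fun d q _ _ _ => Eventually.of_forall fun k => ?_⟩
    unfold Rar
    refine le_trans (le_of_eq (?_ : _ = (0 : ℝ))) ?_
    · rw [Nat.cast_eq_zero, Finset.card_eq_zero]
      refine Finset.eq_empty_of_forall_notMem fun f hf => ?_
      have hn := ((@Finset.mem_filter _ _ (_) _ _).1 hf).2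
      apply hn
      intro _
      have : cn (fun v : Site d k => ¬ True) = 0 := by
        unfold cn
        rw [Nat.cast_eq_zero, Finset.card_eq_zero]
        exact Finset.eq_empty_of_forall_notMem fun v hv => ((@Finset.mem_filter _ _ (_) _ _).1 hv).2 trivial
      show cn (fun v : Site d k => ¬ True) ≤ _
      rw [this]
      have hNN : 0 ≤ NN d k := by
        unfold NN
        positivity
      positivity
    · have hZ : 0 ≤ ZZ d k q := by
        unfold ZZ
        positivity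
      positivity
  · intro d k q f g v _
    exact Iff.rfl
  · intro d k q f g v h
    constructor
    · rintro ⟨c, hc⟩
      obtain ⟨h1, h2⟩ := B5_loc (2 * s) c h
      exact ⟨c, by rw [← h1, ← h2]; exact hc⟩
    · rintro ⟨c, hc⟩
      obtain ⟨h1, h2⟩ := B5_loc (2 * s) c h
      exact ⟨c, by rw [h1, h2]; exact hc⟩
  · refine ⟨0, fun d q _ _ _ => Eventually.of_forall fun k => ?_⟩
    intro _ f _ b v _ h _
    exact Iff.rfl
  · intro K
    have hκ : 0 < δ ^ 2 / (4 * (8 * (s : ℝ)) ^ (2 * s)) := by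
      have : (0 : ℝ) < s := by
        have : 0 < s := by omega
        exact_mod_cast this
      positivity
    refine ((((EvT_d (ε := e3) (B5_evd K _ hκ)).and (EvT_d (eventually_ge_atTop 1))).and
      (EvT_reg (ε := e3) (by unfold e3; norm_num) (by unfold e3; norm_num) (max 2 δ))).and
      (EvT_pow (ε := e3) fun _ _ => ((2 * s + 1 : ℕ) : ℝ))).mono ?_
    rintro d k q ⟨⟨⟨h1, hd⟩, hreg⟩, hpw⟩ hRg f hf b v hv _
    have hk : 2 ≤ k := by
      have : (2 : ℝ) ≤ k := le_trans (le_max_left _ _) hreg.2.2.1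
      exact_mod_cast this
    have hks : 2 * s < 2 ^ k := by
      have : ((2 * s + 1 : ℕ) : ℝ) ≤ ((2 ^ k : ℕ) : ℝ) := by
        push_cast
        push_cast at hpw
        exact hpw
      have := Nat.cast_le.1 this
      omega
    obtain ⟨hq, _, _, _, _, hqd', _, _, _⟩ := rg_pos hd hRg
    have hd0 : (1 : ℝ) ≤ d := by exact_mod_cast hd
    have hq2 : (q : ℝ) ≤ 2 * d := by
      have he3 : e3 = 1 / 1000 := rfl
      rw [he3] at hqd'
      linarith
    have hfP : Prp f := by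
      unfold prps at hf
      exact ((@Finset.mem_filter _ _ (_) _ _).1 hf).2
    exact (B5_prob hd hk s hs10 hks δ hδ hq hq2 (le_trans (le_max_right _ _) hreg.2.1) b hfP v hv).trans h1

end Pool.Agent.LC
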