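import Pool.Agent.Lib_MP_2c424f_lc1.A7
import Pool.Agent.Lib_MP_2c424f_lc1.B2
import Pool.Agent.Lib_MP_2c424f_lc1.B3
import Pool.Agent.Lib_MP_2c424f_lc1.B4

/-!
# LC1 B6: pinning

`C₄` from `grad_K`; for `K` take `t` from `grad_K` at the level `K + 10`.  For `δ > 0` put `η = min (δ/4) (1/1000)`.  Outside the triples of `blk_conc (δ/4)` (level `K+2`), of the blocks of `blk_iso (δ/4)` and
`bd_few η` (`TRK_blk`, levels `K+2`): every colour `c` has a label with precision `η`: `st η true c` or `st η false c`; it is the label with precision `et` (the values `1 ± m` are separated), so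
`|Mp e none u (bq c f) - (1 ± m)| ≤ η` with the sign of `gm (ALP (pat f u)) (tp p) c` (`frq_eq`; `tp p` is even iff `¬ od p.2.1 p.2.2`: `LO.evn_pt`), and `Pn δ t (ALP (pat f u)) f (tp p)`.
-/

set_option autoImplicit false

open Finset Filter

namespace Pool.Agent.LC

open Pool.Agent.LO Pool.Agent.LIN Pool.Agent.THR Pool.Agent.COR

private theorem B6_st_et {d q : ℕ} {η : ℝ} (hη : η ≤ et) {hi : Bool} {c : Fin q} {g : Pat d q} (h : st η hi c g) :
    st et hi c g := fun s => ⟨(h s).1.trans hη, (h s).2.trans hη⟩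

private theorem B6_sep {d q : ℕ} (hm : 1 / 2 < ms d q) {c : Fin q} {g : Pat d q} (h : st et true c g)
    (h' : st et false c g) : False := by
  have h1 := (h none).1
  have h2 := (h' none).2
  have h3 : (!true) = false := rfl
  rw [h3] at h1
  have e : et = 1 / 1000 := rfl
  rw [e] at h1 h2
  rw [abs_le] at h1 h2
  linarith

/-- the frequency of a colour with a label at the points of the parity of `tp p` -/
private theorem B6_lab {d k q : ℕ} (hm : 1 / 2 < ms d q) {η : ℝ} (hη : η ≤ et) (f : Site d (k + 1) → Fin q)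
    (p : Tpl d k) (e : Bool) (he : e = true ↔ ¬ od p.2.1 p.2.2) (c : Fin q) (h : ¬ bdP η c (pat f p.1)) :
    |Mp e none p.1 (bq c f) - gm (ALP (pat f p.1)) (tp p) c| ≤ η := by
  classical
  have hv : evn (tp p) ↔ e = true := by
    rw [he]
    exact evn_pt _ _ _
  have hA : c ∈ ALP (pat f p.1) ↔ st et false c (pat f p.1) := by
    unfold ALP
    rw [Finset.mem_filter]
    simp only [Finset.mem_univ, true_and]
  rw [← frq_eq]
  unfold bdP at h
  rw [not_and_or, not_not, not_not] at h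
  rcases h with h | h
  · have hn : c ∉ ALP (pat f p.1) := fun hc => B6_sep hm (B6_st_et hη h) (hA.1 hc)
    obtain ⟨h1, h2⟩ := h none
    have e3 : (!true) = false := rfl
    rw [e3] at h1
    unfold gm tS
    cases e with
    | true =>
      have : ¬ (evn (tp p) ↔ c ∈ ALP (pat f p.1)) := fun hh => hn (hh.1 (hv.2 rfl))
      rw [if_neg this]
      exact h2
    | false =>
      have hne : ¬ evn (tp p) := fun hh => Bool.false_ne_true (hv.1 hh)
      have : (evn (tp p) ↔ c ∈ ALP (pat f p.1)) := ⟨fun hh => absurd hh hne, fun hh => absurd hh hn⟩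
      rw [if_pos this]
      exact h1
  · have hy : c ∈ ALP (pat f p.1) := hA.2 (B6_st_et hη h)
    obtain ⟨h1, h2⟩ := h none
    have e3 : (!false) = true := rfl
    rw [e3] at h1
    unfold gm tS
    cases e with
    | true =>
      have : (evn (tp p) ↔ c ∈ ALP (pat f p.1)) := ⟨fun _ => hy, fun _ => hv.2 rfl⟩
      rw [if_pos this]
      exact h1
    | false =>
      have hne : ¬ evn (tp p) := fun hh => Bool.false_ne_true (hv.1 hh)
      have : ¬ (evn (tp p) ↔ c ∈ ALP (pat f p.1)) := fun hh => hne (hh.2 hy)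
      rw [if_neg this]
      exact h2

theorem pin_T : ∃ C₄ : ℝ, 0 < C₄ ∧ ∀ K : ℕ, ∃ t : ℕ, Even t ∧ 20 ≤ t ∧ (SRK K fun _ _ _ f v => Gb C₄ t f v) ∧
    ∀ δ : ℝ, 0 < δ → TRK K fun _ _ _ f p => G0P (pat f p.1) ∧ ¬ Pn δ t (ALP (pat f p.1)) f (tp p) := by
  classical
  obtain ⟨C₄, hC, hgr⟩ := grad_K
  refine ⟨C₄, hC, fun K => ?_⟩
  obtain ⟨t, ht, ht20, hG⟩ := hgr (K + 10)
  refine ⟨t, ht, ht20, SRK.le (by omega) hG, fun δ hδ => ?_⟩
  set η : ℝ := min (δ / 4) (1 / 1000) with hη
  have hη0 : 0 < η := lt_min (by linarith) (by norm_num)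
  have hη1 : η ≤ δ / 4 := min_le_left _ _
  have hη2 : η ≤ et := min_le_right _ _
  have T1 := blk_conc C₄ hC t (K + 1) (SRK.le (by omega) hG) (δ / 4) (by linarith)
  have T2 := TRK_blk (blk_iso t ht (K + 2) (δ / 4) (by linarith))
  have T3 := TRK_blk (bd_few η hη0 (K + 2))
  have T := T1.or (T2.or T3)
  refine T.mono ((EvT_d (ε := e3) (eventually_ge_atTop 1)).mono ?_)
  rintro d k q hd hR f _ p ⟨_, hP⟩
  by_contra hcon
  rw [not_or, not_or] at hcon
  obtain ⟨h1, h2, h3⟩ := hcon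
  refine hP fun c => ?_
  have hm : 1 / 2 < ms d q := by
    obtain ⟨_, ha, _⟩ := rg_pos hd hR
    obtain ⟨_, _, hm3, _⟩ := mf_num ha (ms_spec hd hR)
    have h4 : Real.exp (-(2 * ra d q)) ≤ 1 / 2001 := by
      rw [Real.exp_neg, ← one_div]
      refine one_div_le_one_div_of_le (by norm_num) ?_
      have := Real.add_one_le_exp (2 * ra d q)
      linarith
    linarith
  set e : Bool := decide (¬ od p.2.1 p.2.2) with he
  have g1 : |PP^[t] (bq c f) (tp p) - Mp e none p.1 (PP^[t] (bq c f))| ≤ δ / 4 := by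
    by_contra hlt
    exact h1 ⟨c, not_le.1 hlt⟩
  have g2 : |Mp e none p.1 (PP^[t] (bq c f)) - Mp e none p.1 (bq c f)| ≤ δ / 4 := by
    by_contra hlt
    exact h2 ⟨e, c, not_le.1 hlt⟩
  have g3 : |Mp e none p.1 (bq c f) - gm (ALP (pat f p.1)) (tp p) c| ≤ η :=
    B6_lab hm hη2 f p e (by rw [he, decide_eq_true_iff]) c fun hb => h3 ⟨c, hb⟩
  rw [abs_le] at g1 g2 g3 ⊢
  constructor <;> linarith [g1.1, g1.2, g2.1, g2.2, g3.1, g3.2]

end Pool.Agent.LC
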