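import Pool.Agent.Lib_MP_2c424f_lc1.T2
import Pool.Agent.Lib_MP_2c424f_lc1.T7
import Pool.Agent.Lib_MP_2c424f_thr.S4
import Pool.Agent.Lib_MP_2c424f_thr.M1

/-!
# LC1 C0: elementary facts about `hc`; regular sites

* `zc f x v c = 1` iff no neighbour of `x`, except `v`, has the colour `c`; `zz f x c ≤ zc f x v c` and equality if `f v ≠ c`;  if `f v = c` and `v ~ x` then `zz f x c = 0`.
* `reg_pt`: `avail` (THR S4); `irr`.
* `nc_pt`: all sites within two steps are regular (`SR.nb` twice).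
-/

set_option autoImplicit false

open Finset Filter

namespace Pool.Agent.LC

open Pool.Agent.LO Pool.Agent.LIN Pool.Agent.THR Pool.Agent.COR

variable {d k q : ℕ}

private theorem C0_mem (f : Site d k → Fin q) (x : Site d k) (c : Fin q) :
    c ∈ SS f x ↔ ∃ τ : Stp d, f (x + sv τ) = c := by
  unfold SS
  simp only [Finset.mem_image, Finset.mem_univ, true_and]

private theorem C0_opp (v : Site d k) (σ : Stp d) : v + sv σ + sv (σ.1, !σ.2) = v := by
  rw [add_assoc, show (sv σ : Site d k) + sv (σ.1, !σ.2) = 0 from sv_opp σ.1 σ.2, add_zero]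

private theorem C0_card : (Fintype.card (Stp d) : ℝ) = 2 * d := by
  rw [Fintype.card_prod, Fintype.card_fin, Fintype.card_bool]
  push_cast
  ring

theorem zc_01 (f : Site d k → Fin q) (x v : Site d k) (c : Fin q) : zc f x v c = 0 ∨ zc f x v c = 1 := by
  unfold zc
  split_ifs
  · exact Or.inr rfl
  · exact Or.inl rfl

theorem zz_le_zc (f : Site d k → Fin q) (x v : Site d k) (c : Fin q) : zz f x c ≤ zc f x v c := by
  by_cases h : c ∈ SS f x
  · have h1 : zz f x c = 0 := by
      unfold zz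
      rw [if_pos h]
    rw [h1]
    rcases zc_01 f x v c with h2 | h2 <;> rw [h2]
    exact zero_le_one
  · have h1 : zz f x c = 1 := by
      unfold zz
      rw [if_neg h]
    have h2 : zc f x v c = 1 := by
      unfold zc
      rw [if_pos]
      intro τ _ hτ
      exact h ((C0_mem f x c).2 ⟨τ, hτ⟩)
    rw [h1, h2]

private theorem C0_zz_eq (f : Site d k → Fin q) (x v : Site d k) (c : Fin q) (h : f v ≠ c) :
    zc f x v c = zz f x c := by
  by_cases hc : c ∈ SS f x
  · have h1 : zz f x c = 0 := by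
      unfold zz
      rw [if_pos hc]
    have h2 : zc f x v c = 0 := by
      unfold zc
      rw [if_neg]
      intro hall
      obtain ⟨τ, hτ⟩ := (C0_mem f x c).1 hc
      refine hall τ ?_ hτ
      intro hx
      rw [hx] at hτ
      exact h hτ
    rw [h1, h2]
  · refine le_antisymm ?_ (zz_le_zc f x v c)
    have h1 : zz f x c = 1 := by
      unfold zz
      rw [if_neg hc]
    rw [h1]
    rcases zc_01 f x v c with h2 | h2 <;> rw [h2]
    exact zero_le_one

theorem hc_eq (f : Site d k → Fin q) (v : Site d k) (c : Fin q) (h : f v ≠ c) : hc c f v = hh c f v := by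
  unfold hc THR.hh
  exact Finset.sum_congr rfl fun σ _ => by rw [C0_zz_eq f _ v c h]

theorem hh_le_hc (f : Site d k → Fin q) (v : Site d k) (c : Fin q) : hh c f v ≤ hc c f v := by
  unfold hc THR.hh
  exact Finset.sum_le_sum fun σ _ =>
    div_le_div_of_nonneg_right (zz_le_zc f _ v c) (Nat.cast_nonneg _)

theorem hh_self (f : Site d k → Fin q) (v : Site d k) : hh (f v) f v = 0 := by
  unfold THR.hh
  refine Finset.sum_eq_zero fun σ _ => ?_
  have h1 : f v ∈ SS f (v + sv σ) := (C0_mem f _ _).2 ⟨(σ.1, !σ.2), by rw [C0_opp]⟩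
  have h2 : zz f (v + sv σ) (f v) = 0 := by
    unfold zz
    rw [if_pos h1]
  rw [h2, zero_div]

theorem hc_le {f : Site d k → Fin q} (hf : Prp f) (v : Site d k) (c : Fin q) : 0 ≤ hc c f v ∧ hc c f v ≤ 2 * d := by
  have h1 : ∀ σ : Stp d, 0 ≤ zc f (v + sv σ) v c / (av f (v + sv σ) : ℝ) ∧
      zc f (v + sv σ) v c / (av f (v + sv σ) : ℝ) ≤ 1 := by
    intro σ
    have h2 : (1 : ℝ) ≤ av f (v + sv σ) := by exact_mod_cast av_pos hf (v + sv σ)
    rcases zc_01 f (v + sv σ) v c with h3 | h3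
    · rw [h3, zero_div]
      exact ⟨le_rfl, zero_le_one⟩
    · rw [h3]
      refine ⟨div_nonneg zero_le_one (by linarith), ?_⟩
      rw [div_le_one (by linarith)]
      exact h2
  unfold hc
  refine ⟨Finset.sum_nonneg fun σ _ => (h1 σ).1, ?_⟩
  calc ∑ σ : Stp d, zc f (v + sv σ) v c / (av f (v + sv σ) : ℝ) ≤ ∑ _σ : Stp d, (1 : ℝ) :=
        Finset.sum_le_sum fun σ _ => (h1 σ).2
    _ = 2 * d := by
        rw [Finset.sum_const, nsmul_eq_mul, mul_one, Finset.card_univ, C0_card]

private theorem C0_true : EvT e3 fun _ _ _ => True :=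
  (EvT_d (P := fun _ => True) (Filter.Eventually.of_forall fun _ => trivial)).mono
    fun _ _ _ _ => trivial

theorem reg_pt : SR fun _ _ _ f v => ¬ THR.Rg e3 f v := by
  intro K
  have he : 0 < e3 := by unfold e3; norm_num
  have he1 : e3 ≤ 1 := by unfold e3; norm_num
  refine (avail he he1 K).mono (C0_true.mono ?_)
  intro d k q _ f _ h _
  refine le_trans (le_of_eq ?_) h
  unfold cn irr THR.Rg
  congr 2
  ext v
  simp only [Finset.mem_filter, Finset.mem_univ, true_and, not_le]

theorem nc_pt : SR fun d _ _ f v => ¬ (THR.Rg e3 f v ∧ (∀ σ : Stp d, THR.Rg e3 f (v + sv σ)) ∧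
    ∀ σ τ : Stp d, THR.Rg e3 f (v + sv σ + sv τ)) := by
  refine (reg_pt.or (reg_pt.nb.or reg_pt.nb.nb)).mono (C0_true.mono ?_)
  intro d k q _ _ f _ v h
  by_contra hcon
  push Not at hcon
  obtain ⟨h1, h2, h3⟩ := hcon
  exact h ⟨h1, h2, h3⟩

end Pool.Agent.LC
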