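import Pool.Agent.Lib_MP_2c424f_lc1.T3
import Pool.Agent.Lib_MP_2c424f_lc1.T4
import Pool.Agent.Lib_MP_2c424f_lc1.C0
import Pool.Agent.Lib_MP_2c424f_thr.T2

/-!
# LC1 C1: the number of available colours, the number of neighbours of one colour

`SR_local` with `o = false` (`v ∈ cls b`, resample the class `!b` of the neighbours), `R f v := ∀ σ, THR.Rg e3 f (v+σ)` (`av f (v+σ)` depends on the class `b`: does not change, `reg_pt` and `SR.nb`).
* `av_pt`: `al f v` does not change (THR M1 `loc_fib`); `av f v = ∑_c zz f v c`, mean `∑_c zt f v c` (LIN), `|zt - e^{-hh}| ≤ a/(c1² q)` (`zt_exp`, `Nc`), so the mean of `av/q` is within `δ/2` of `al`;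
  changing the colour of one neighbour changes `av f v` by at most `1`: `fm_mcd` with `S = 2d`, `θ = δq/2`: `2 exp (-δ²q²/(32 d)) ≤ d^(-K)`.
* `nf_pt`: `nf c f v = ∑_σ 1[f (v+σ) = c]`, mean `hh c f v ≤ 2d/(c1 q)`; changes by at most `1`: `fm_mcd`, `θ = δd/2`, union over `c`.   (`k ≥ 2`: the neighbours are distinct.)
-/

set_option autoImplicit false

open Finset Filter

namespace Pool.Agent.LC

open Pool.Agent.LO Pool.Agent.LIN Pool.Agent.THR Pool.Agent.COR

private theorem C1_ind_mono {P Q : Prop} (h : P → Q) : ind P ≤ ind Q := by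
  unfold ind
  by_cases hP : P
  · rw [if_pos hP, if_pos (h hP)]
  · rw [if_neg hP]
    split_ifs <;> norm_num

private theorem C1_ind_ex {α : Type} [Fintype α] (P : α → Prop) : ind (∃ c, P c) ≤ ∑ c, ind (P c) := by
  have h0 : ∀ c, 0 ≤ ind (P c) := fun c => by
    unfold ind
    split_ifs <;> norm_num
  by_cases h : ∃ c, P c
  · obtain ⟨c, hc⟩ := h
    have h1 : ind (∃ c, P c) ≤ ind (P c) := C1_ind_mono fun _ => hc
    exact h1.trans (single_le_sum (f := fun c => ind (P c)) (fun c _ => h0 c) (mem_univ c))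
  · have h1 : ind (∃ c, P c) = 0 := by
      unfold ind
      rw [if_neg h]
    rw [h1]
    exact sum_nonneg fun c _ => h0 c

private theorem C1_exp (K : ℕ) {c : ℝ} (hc : 0 < c) :
    ∀ᶠ d : ℕ in atTop, 4 * (d : ℝ) * Real.exp (-(c * d)) ≤ 1 / (d : ℝ) ^ K := by
  have h1 : Tendsto (fun d : ℕ => c * (d : ℝ)) atTop atTop :=
    (tendsto_natCast_atTop_atTop).const_mul_atTop hc
  have h2 := (Real.tendsto_pow_mul_exp_neg_atTop_nhds_zero (K + 1)).comp h1
  have h3 : (0 : ℝ) < c ^ (K + 1) / 4 := by positivity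
  filter_upwards [h2.eventually (ge_mem_nhds h3), eventually_ge_atTop 1] with d h4 hd
  have hd' : (0 : ℝ) < d := by exact_mod_cast hd
  simp only [Function.comp_apply] at h4
  rw [le_div_iff₀ (by positivity)]
  have h5 : (c * d) ^ (K + 1) * Real.exp (-(c * d)) = c ^ (K + 1) * ((d : ℝ) ^ (K + 1) * Real.exp (-(c * d))) := by
    rw [mul_pow]; ring
  rw [h5] at h4
  have h6 : (d : ℝ) ^ (K + 1) * Real.exp (-(c * d)) ≤ 1 / 4 := by
    have h7 : (0 : ℝ) < c ^ (K + 1) := by positivity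
    have h8 : c ^ (K + 1) * ((d : ℝ) ^ (K + 1) * Real.exp (-(c * d))) ≤ c ^ (K + 1) * (1 / 4) := by linarith
    exact le_of_mul_le_mul_left h8 h7
  have h9 : 4 * (d : ℝ) * Real.exp (-(c * d)) * (d : ℝ) ^ K = 4 * ((d : ℝ) ^ (K + 1) * Real.exp (-(c * d))) := by
    rw [pow_succ]; ring
  rw [h9]
  linarith

variable {d k q : ℕ}

private theorem C1_step {b : Bool} (hk : 1 ≤ k) {v : Site d k} (hv : v ∈ cls b d k) (σ : Stp d) :
    v + sv σ ∈ cls (!b) d k := by
  rw [mem_cls_step hk, Bool.not_not]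
  exact hv

private theorem C1_card : ((univ : Finset (Stp d)).card : ℝ) = 2 * d := by
  rw [card_univ, Fintype.card_prod, Fintype.card_fin, Fintype.card_bool]
  push_cast
  ring

private theorem C1_mcd (hk : 2 ≤ k) (b : Bool) {f : Site d k → Fin q} (hf : Prp f) (v : Site d k)
    (F : (Site d k → Fin q) → ℝ) (hF : ∀ h w γ, |F (Function.update h w γ) - F h| ≤ 1)
    (hF0 : ∀ h w γ, (∀ σ : Stp d, w ≠ v + sv σ) → F (Function.update h w γ) = F h)
    (θ : ℝ) (hθ : 0 ≤ θ) (hθ' : θ ≤ 4 * d) (hd : 1 ≤ d) :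
    fm b (fun h => ind (θ ≤ |F h - fm b F f|)) f ≤ 2 * Real.exp (-(θ ^ 2 / (8 * d))) := by
  classical
  have hd' : (0 : ℝ) < d := by exact_mod_cast hd
  have key := fm_mcd hk b hf F (fun w => if w ∈ univ.image (fun σ : Stp d => v + sv σ) then (1 : ℝ) else 0)
    (fun w => by split_ifs <;> norm_num) ?_ (2 * d) θ ?_ (by positivity) hθ ?_
  · have e1 : (4 : ℝ) * (2 * d) = 8 * d := by ring
    rw [e1] at key
    exact key
  · intro h _ w _ γ _
    by_cases hw : w ∈ univ.image (fun σ : Stp d => v + sv σ)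
    · simp only [if_pos hw]
      exact hF h w γ
    · simp only [if_neg hw]
      rw [hF0 h w γ fun σ hσ => hw (mem_image.2 ⟨σ, mem_univ σ, hσ.symm⟩), sub_self, abs_zero]
  · have e2 : ∀ w ∈ cls b d k, (if w ∈ univ.image (fun σ : Stp d => v + sv σ) then (1 : ℝ) else 0) ^ 2 =
        if w ∈ univ.image (fun σ : Stp d => v + sv σ) then (1 : ℝ) else 0 := fun w _ => by
      split_ifs <;> norm_num
    rw [sum_congr rfl e2, ← sum_filter, sum_const, nsmul_eq_mul, mul_one, ← C1_card]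
    refine Nat.cast_le.2 ((card_le_card ?_).trans (card_image_le (s := (univ : Finset (Stp d))) (f := fun σ => v + sv σ)))
    intro w hw
    exact (mem_filter.1 hw).2
  · intro w _
    split_ifs
    · linarith
    · linarith

private theorem C1_av1 (v : Site d k) (h : Site d k → Fin q) (w : Site d k) (γ : Fin q) :
    |(av (Function.update h w γ) v : ℝ) - av h v| ≤ 1 := by
  have hc : ∀ g : Site d k → Fin q, (av g v : ℝ) = q - ((SS g v).card : ℝ) := by
    intro g
    unfold av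
    rw [Nat.cast_sub]
    have := card_le_univ (SS g v)
    rwa [Fintype.card_fin] at this
  have h1 : SS (Function.update h w γ) v ⊆ insert γ (SS h v) := by
    intro c hcc
    unfold SS at hcc ⊢
    obtain ⟨σ, -, hσ⟩ := mem_image.1 hcc
    by_cases e : v + sv σ = w
    · rw [e, Function.update_self] at hσ
      rw [← hσ]
      exact mem_insert_self _ _
    · rw [Function.update_of_ne e] at hσ
      exact mem_insert_of_mem (mem_image.2 ⟨σ, mem_univ σ, hσ⟩)
  have h2 : SS h v ⊆ insert (h w) (SS (Function.update h w γ) v) := by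
    intro c hcc
    unfold SS at hcc ⊢
    obtain ⟨σ, -, hσ⟩ := mem_image.1 hcc
    by_cases e : v + sv σ = w
    · rw [e] at hσ
      rw [← hσ]
      exact mem_insert_self _ _
    · refine mem_insert_of_mem (mem_image.2 ⟨σ, mem_univ σ, ?_⟩)
      rw [Function.update_of_ne e]
      exact hσ
  have h3 : ((SS (Function.update h w γ) v).card : ℝ) ≤ (SS h v).card + 1 := by
    exact_mod_cast (card_le_card h1).trans (card_insert_le _ _)
  have h4 : ((SS h v).card : ℝ) ≤ (SS (Function.update h w γ) v).card + 1 := by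
    exact_mod_cast (card_le_card h2).trans (card_insert_le _ _)
  rw [hc, hc, abs_le]
  constructor <;> linarith

private theorem C1_av0 (v : Site d k) (h : Site d k → Fin q) (w : Site d k) (γ : Fin q)
    (hw : ∀ σ : Stp d, w ≠ v + sv σ) : (av (Function.update h w γ) v : ℝ) = av h v := by
  have h1 : SS (Function.update h w γ) v = SS h v := by
    unfold SS
    refine image_congr fun σ _ => ?_
    exact Function.update_of_ne (fun e => hw σ e.symm) _ _
  unfold av
  rw [h1]

open scoped Classical in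
private theorem C1_nf (c : Fin q) (h : Site d k → Fin q) (v : Site d k) :
    nf c h v = ∑ σ : Stp d, if h (v + sv σ) = c then (1 : ℝ) else 0 := by
  unfold nf
  rw [sum_boole]

private theorem C1_nf1 (hk : 2 ≤ k) (c : Fin q) (v : Site d k) (h : Site d k → Fin q) (w : Site d k) (γ : Fin q) :
    |nf c (Function.update h w γ) v - nf c h v| ≤ 1 := by
  classical
  rw [C1_nf, C1_nf, ← sum_sub_distrib]
  by_cases hw : ∃ σ₀ : Stp d, v + sv σ₀ = w
  · obtain ⟨σ₀, hσ₀⟩ := hw
    rw [sum_eq_single σ₀]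
    · split_ifs <;> norm_num
    · intro σ _ hσ
      have e : v + sv σ ≠ w := fun e => hσ (sv_inj hk (add_left_cancel (e.trans hσ₀.symm)))
      rw [Function.update_of_ne e, sub_self]
    · intro hn
      exact absurd (mem_univ σ₀) hn
  · have e1 : ∀ σ ∈ (univ : Finset (Stp d)), ((if Function.update h w γ (v + sv σ) = c then (1 : ℝ) else 0) -
        if h (v + sv σ) = c then (1 : ℝ) else 0) = 0 := fun σ _ => by
      have e : v + sv σ ≠ w := fun e => hw ⟨σ, e⟩
      rw [Function.update_of_ne e, sub_self]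
    rw [sum_congr rfl e1, sum_const_zero, abs_zero]
    exact zero_le_one

private theorem C1_nf0 (c : Fin q) (v : Site d k) (h : Site d k → Fin q) (w : Site d k) (γ : Fin q)
    (hw : ∀ σ : Stp d, w ≠ v + sv σ) : nf c (Function.update h w γ) v = nf c h v := by
  classical
  rw [C1_nf, C1_nf]
  refine sum_congr rfl fun σ _ => ?_
  rw [Function.update_of_ne (fun e => hw σ e.symm)]

private theorem C1_fmav (hk : 2 ≤ k) (b : Bool) {f : Site d k → Fin q} (hf : Prp f) (v : Site d k)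
    (hv : v ∈ cls b d k) : fm (!b) (fun h => (av h v : ℝ)) f = ∑ c, zt f v c := by
  have e1 : (fun h : Site d k → Fin q => (av h v : ℝ)) = fun h => ∑ c, zz h v c := funext fun h => av_eq h v
  rw [e1, fm_sum]
  exact sum_congr rfl fun c _ => fm_zz hk b hf v hv c

private theorem C1_fmnf (hk : 2 ≤ k) (b : Bool) {f : Site d k → Fin q} (hf : Prp f) (v : Site d k)
    (hv : v ∈ cls b d k) (c : Fin q) : fm (!b) (fun h => nf c h v) f = hh c f v := by
  classical
  have e1 : (fun h : Site d k → Fin q => nf c h v) = fun h => ∑ σ : Stp d, if h (v + sv σ) = c then (1 : ℝ) else 0 :=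
    funext fun h => C1_nf c h v
  rw [e1, fm_sum]
  unfold THR.hh
  exact sum_congr rfl fun σ _ => fm_ind (by omega) (!b) hf (v + sv σ) (C1_step (by omega) hv σ) c

private theorem C1_loc (B : ∀ d k q : ℕ, (Site d k → Fin q) → Site d k → Prop)
    (lB : ∀ (d k q : ℕ) (f g : Site d k → Fin q) (v : Site d k), (∀ u, nr 2 v u → f u = g u) → (B d k q f v ↔ B d k q g v))
    (hp : ∀ K : ℕ, EvT e3 fun d k q => Rg d q → ∀ f ∈ prps d k q, ∀ b, ∀ v ∈ cls b d k,
      (∀ σ : Stp d, THR.Rg e3 f (v + sv σ)) → fm (!b) (fun h => ind (B d k q h v)) f ≤ 1 / (d : ℝ) ^ K) : SR B := by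
  refine SR_local false 2 (fun d k q f v => ∀ σ : Stp d, THR.Rg e3 f (v + sv σ)) B ?_ ?_ lB ?_ hp
  · refine reg_pt.nb.mono ?_
    have h0 : EvT e3 fun d _ _ => 1 ≤ d := EvT_d (eventually_ge_atTop 1)
    refine h0.mono fun d k q _ _ f _ v h => ?_
    exact not_forall.1 h
  · intro d k q f g v h
    have h1 : ∀ σ : Stp d, av f (v + sv σ) = av g (v + sv σ) := by
      intro σ
      refine (loc_av fun u hu => h u ?_).2.1
      exact nr_trans (nr_step v σ) hu
    unfold THR.Rg
    simp only [h1]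
  · have h0 : EvT e3 fun _ k _ => 1 ≤ k := by
      have h1 := EvT_reg (ε := e3) (by unfold e3; norm_num) (by unfold e3; norm_num) 1
      refine h1.mono fun d k q h => ?_
      exact_mod_cast h.2.2.1
    refine h0.mono fun d k q hk _ f _ b v hv h hh' => ?_
    have h1 : ∀ σ : Stp d, av h (v + sv σ) = av f (v + sv σ) := by
      intro σ
      unfold av
      rw [fib_SS hk (!b) hh' (v + sv σ) (C1_step hk hv σ)]
    unfold THR.Rg
    simp only [h1]

private theorem C1_prps {f : Site d k → Fin q} (hf : f ∈ prps d k q) : Prp f := by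
  classical
  unfold prps at hf
  exact (mem_filter.1 hf).2

private theorem C1_mean {δ : ℝ} (hδ : 0 < δ) (hq : 2 / c1 e3 ≤ q) (hq2 : 2000 / (c1 e3 ^ 2 * q) ≤ δ / 2)
    (hra : ra d q ≤ 2000) {f : Site d k → Fin q} (hf : Prp f) (v : Site d k) (h : ∀ σ : Stp d, THR.Rg e3 f (v + sv σ)) :
    |(∑ c, zt f v c) - q * al f v| ≤ q * (δ / 2) := by
  have hc1 : 0 < c1 e3 := by
    unfold c1
    positivity
  have hq0 : (0 : ℝ) < q := lt_of_lt_of_le (by positivity) hq
  have e0 : (q : ℝ) * al f v = ∑ c : Fin q, Real.exp (-hh c f v) := by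
    unfold al
    field_simp
  rw [e0, ← sum_sub_distrib]
  refine (abs_sum_le_sum_abs _ _).trans ?_
  have e1 : ∀ c ∈ (univ : Finset (Fin q)), |zt f v c - Real.exp (-hh c f v)| ≤ δ / 2 := by
    intro c _
    refine (zt_exp (ε := e3) (by unfold e3; norm_num) hq hf c v h).trans (le_trans ?_ hq2)
    exact div_le_div_of_nonneg_right hra (by positivity)
  refine (sum_le_sum e1).trans ?_
  rw [sum_const, card_univ, Fintype.card_fin, nsmul_eq_mul]

private theorem C1_av (δ : ℝ) (hδ : 0 < δ) (hδ1 : δ ≤ 1) : SR fun _ _ q f v => δ < |(av f v : ℝ) / q - al f v| := by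
  have hc1 : 0 < c1 e3 := by
    unfold c1
    positivity
  refine C1_loc (fun _ _ q f v => δ < |(av f v : ℝ) / q - al f v|) ?_ ?_
  · intro d k q f g v h
    rw [(loc_av fun u hu => h u (nr_mono (by norm_num) hu)).2.1, (loc_hh h (f v)).2.1]
  · intro K
    obtain ⟨M, hM⟩ : ∃ M : ℝ, M = 2 / c1 e3 + 2000 / (c1 e3 ^ 2 * (δ / 2)) + 2 := ⟨_, rfl⟩
    have hM1 : 0 ≤ 2 / c1 e3 := by positivity
    have hM2 : 0 ≤ 2000 / (c1 e3 ^ 2 * (δ / 2)) := by positivity
    have h1 := EvT_reg (ε := e3) (by unfold e3; norm_num) (by unfold e3; norm_num) M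
    have hc : (0 : ℝ) < δ ^ 2 * e3 ^ 2 / 32 := by unfold e3; positivity
    have h2 : EvT e3 fun d _ _ => 4 * (d : ℝ) * Real.exp (-(δ ^ 2 * e3 ^ 2 / 32 * d)) ≤ 1 / (d : ℝ) ^ K := EvT_d (C1_exp K hc)
    refine (h1.and h2).mono ?_
    rintro d k q ⟨⟨hd, hq, hk, hreg, hreg', -, -, hda⟩, hexp⟩ hR f hf b v hv hreg2
    have hd1 : (1 : ℝ) ≤ d := by linarith
    have hd1' : 1 ≤ d := by exact_mod_cast hd1
    have hk2 : 2 ≤ k := by
      have : (2 : ℝ) ≤ k := by linarith
      exact_mod_cast this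
    have hq0 : (0 : ℝ) < q := by linarith
    obtain ⟨-, -, hra, -⟩ := rg_pos hd1' hR
    have hfP := C1_prps hf
    have hm := C1_mean hδ (by linarith) (by
      rw [div_le_iff₀ (by positivity)]
      have e1 : 2000 / (c1 e3 ^ 2 * (δ / 2)) ≤ q := by linarith
      rw [div_le_iff₀ (by positivity)] at e1
      linarith) hra hfP v hreg2
    rw [← C1_fmav hk2 b hfP v hv] at hm
    have hle : ∀ h ∈ fib (!b) f, ind (δ < |(av h v : ℝ) / q - al h v|) ≤
        ind (δ / 2 * q ≤ |(av h v : ℝ) - fm (!b) (fun h => (av h v : ℝ)) f|) := by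
      intro h hh'
      refine C1_ind_mono fun hlt => ?_
      rw [(loc_fib hk2 b hh' v hv (f v)).2.1] at hlt
      have e2 : |(av h v : ℝ) - q * al f v| = q * |(av h v : ℝ) / q - al f v| := by
        rw [← abs_of_pos hq0, ← abs_mul, abs_of_pos hq0]
        congr 1
        field_simp
      have e3' : q * δ ≤ |(av h v : ℝ) - q * al f v| := by
        rw [e2]
        exact mul_le_mul_of_nonneg_left hlt.le hq0.le
      have e4 := abs_sub_le (av h v : ℝ) (fm (!b) (fun h => (av h v : ℝ)) f) (q * al f v)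
      linarith
    refine (fm_mono (!b) hfP hle).trans ?_
    have hθ : δ / 2 * q ≤ 4 * d := by
      have e5 : δ / 2 * q ≤ 1 / 2 * q := mul_le_mul_of_nonneg_right (by linarith) hq0.le
      have e6 : (q : ℝ) ≤ 2 * d := by
        refine hreg'.trans ?_
        refine mul_le_mul_of_nonneg_right ?_ (by linarith)
        unfold e3
        norm_num
      linarith
    refine (C1_mcd hk2 (!b) hfP v (fun h => (av h v : ℝ)) (fun h w γ => C1_av1 v h w γ)
      (fun h w γ hw => C1_av0 v h w γ hw) (δ / 2 * q) (by positivity) hθ hd1').trans ?_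
    refine le_trans ?_ hexp
    have e7 : δ ^ 2 * e3 ^ 2 / 32 * d ≤ (δ / 2 * q) ^ 2 / (8 * d) := by
      rw [le_div_iff₀ (by linarith)]
      have e8 : (e3 * d) ^ 2 ≤ (q : ℝ) ^ 2 := pow_le_pow_left₀ (by unfold e3; positivity) hreg 2
      have e9 : δ ^ 2 * (e3 * d) ^ 2 ≤ δ ^ 2 * (q : ℝ) ^ 2 := mul_le_mul_of_nonneg_left e8 (by positivity)
      calc δ ^ 2 * e3 ^ 2 / 32 * d * (8 * d) = δ ^ 2 * (e3 * d) ^ 2 / 4 := by ring
        _ ≤ δ ^ 2 * (q : ℝ) ^ 2 / 4 := by linarith
        _ = (δ / 2 * q) ^ 2 := by ring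
    have e10 : Real.exp (-((δ / 2 * q) ^ 2 / (8 * d))) ≤ Real.exp (-(δ ^ 2 * e3 ^ 2 / 32 * d)) :=
      Real.exp_le_exp.2 (by linarith)
    have e11 := Real.exp_pos (-(δ ^ 2 * e3 ^ 2 / 32 * d))
    have e12 : 2 * Real.exp (-(δ ^ 2 * e3 ^ 2 / 32 * d)) ≤ 4 * d * Real.exp (-(δ ^ 2 * e3 ^ 2 / 32 * d)) :=
      mul_le_mul_of_nonneg_right (by linarith) e11.le
    linarith

theorem av_pt (δ : ℝ) (hδ : 0 < δ) : SR fun _ _ q f v => δ < |(av f v : ℝ) / q - al f v| := by
  refine (C1_av (min δ 1) (lt_min hδ one_pos) (min_le_right _ _)).mono ?_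
  have h0 : EvT e3 fun d _ _ => 1 ≤ d := EvT_d (eventually_ge_atTop 1)
  exact h0.mono fun d k q _ _ f _ v h => lt_of_le_of_lt (min_le_left _ _) h

private theorem C1_nfp (δ : ℝ) (hδ : 0 < δ) (hδ1 : δ ≤ 1) : SR fun d _ q f v => ∃ c : Fin q, δ * d < nf c f v := by
  have hc1 : 0 < c1 e3 := by
    unfold c1
    positivity
  refine C1_loc (fun d _ q f v => ∃ c : Fin q, δ * d < nf c f v) ?_ ?_
  · intro d k q f g v h
    have h1 : ∀ c, nf c f v = nf c g v := by
      intro c
      classical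
      rw [C1_nf, C1_nf]
      refine sum_congr rfl fun σ _ => ?_
      rw [h _ (nr_mono (by norm_num) (nr_step v σ))]
    simp only [h1]
  · intro K
    obtain ⟨M, hM⟩ : ∃ M : ℝ, M = 2000 / c1 e3 / (δ / 2) + 2 := ⟨_, rfl⟩
    have hM1 : 0 ≤ 2000 / c1 e3 / (δ / 2) := by positivity
    have h1 := EvT_reg (ε := e3) (by unfold e3; norm_num) (by unfold e3; norm_num) M
    have hc : (0 : ℝ) < δ ^ 2 / 32 := by positivity
    have h2 : EvT e3 fun d _ _ => 4 * (d : ℝ) * Real.exp (-(δ ^ 2 / 32 * d)) ≤ 1 / (d : ℝ) ^ K := EvT_d (C1_exp K hc)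
    refine (h1.and h2).mono ?_
    rintro d k q ⟨⟨hd, hq, hk, hreg, hreg', -, -, hda⟩, hexp⟩ hR f hf b v hv hreg2
    have hd1 : (1 : ℝ) ≤ d := by linarith
    have hd1' : 1 ≤ d := by exact_mod_cast hd1
    have hd0 : (0 : ℝ) < d := by linarith
    have hk2 : 2 ≤ k := by
      have : (2 : ℝ) ≤ k := by linarith
      exact_mod_cast this
    have hq0 : (0 : ℝ) < q := by linarith
    have hq1 : 1 ≤ q := by exact_mod_cast hq0
    obtain ⟨-, -, hra, -⟩ := rg_pos hd1' hR
    have hfP := C1_prps hf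
    have hmean : ∀ c : Fin q, fm (!b) (fun h => nf c h v) f ≤ δ / 2 * d := by
      intro c
      rw [C1_fmnf hk2 b hfP v hv c]
      refine (hh_le_reg hq1 c f v hreg2).trans ?_
      have e1 : 2000 / c1 e3 / (δ / 2) ≤ d := by linarith
      rw [div_le_iff₀ (by positivity)] at e1
      have e2 : ra d q / c1 e3 ≤ 2000 / c1 e3 := div_le_div_of_nonneg_right hra hc1.le
      linarith
    have hle : ∀ h ∈ fib (!b) f, ind (∃ c : Fin q, δ * d < nf c h v) ≤
        ∑ c : Fin q, ind (δ / 2 * d ≤ |nf c h v - fm (!b) (fun h => nf c h v) f|) := by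
      intro h _
      refine (C1_ind_ex fun c : Fin q => δ * d < nf c h v).trans (sum_le_sum fun c _ => ?_)
      refine C1_ind_mono fun hlt => ?_
      refine le_trans ?_ (le_abs_self _)
      have := hmean c
      linarith
    refine (fm_mono (!b) hfP hle).trans ?_
    rw [fm_sum]
    have hθ : δ / 2 * d ≤ 4 * d := mul_le_mul_of_nonneg_right (by linarith) hd0.le
    have hone : ∀ c ∈ (univ : Finset (Fin q)),
        fm (!b) (fun h => ind (δ / 2 * d ≤ |nf c h v - fm (!b) (fun h => nf c h v) f|)) f ≤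
          2 * Real.exp (-(δ ^ 2 / 32 * d)) := by
      intro c _
      refine (C1_mcd hk2 (!b) hfP v (fun h => nf c h v) (fun h w γ => C1_nf1 hk2 c v h w γ)
        (fun h w γ hw => C1_nf0 c v h w γ hw) (δ / 2 * d) (by positivity) hθ hd1').trans (le_of_eq ?_)
      have e7 : (δ / 2 * d) ^ 2 / (8 * (d : ℝ)) = δ ^ 2 / 32 * d := by
        field_simp
        ring
      rw [e7]
    refine (sum_le_sum hone).trans ?_
    rw [sum_const, card_univ, Fintype.card_fin, nsmul_eq_mul]
    refine le_trans ?_ hexp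
    have e6 : (q : ℝ) ≤ 2 * d := by
      refine hreg'.trans ?_
      refine mul_le_mul_of_nonneg_right ?_ (by linarith)
      unfold e3
      norm_num
    have e11 := Real.exp_pos (-(δ ^ 2 / 32 * (d : ℝ)))
    calc (q : ℝ) * (2 * Real.exp (-(δ ^ 2 / 32 * (d : ℝ)))) ≤ 2 * d * (2 * Real.exp (-(δ ^ 2 / 32 * (d : ℝ)))) :=
          mul_le_mul_of_nonneg_right e6 (by positivity)
      _ = 4 * (d : ℝ) * Real.exp (-(δ ^ 2 / 32 * (d : ℝ))) := by ring

theorem nf_pt (δ : ℝ) (hδ : 0 < δ) : SR fun d _ q f v => ∃ c : Fin q, δ * d < nf c f v := by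
  refine (C1_nfp (min δ 1) (lt_min hδ one_pos) (min_le_right _ _)).mono ?_
  have h0 : EvT e3 fun d _ _ => 1 ≤ d := EvT_d (eventually_ge_atTop 1)
  refine h0.mono fun d k q _ _ f _ v h => ?_
  obtain ⟨c, hc⟩ := h
  exact ⟨c, lt_of_le_of_lt (mul_le_mul_of_nonneg_right (min_le_left _ _) (Nat.cast_nonneg _)) hc⟩

end Pool.Agent.LC
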