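import Pool.Agent.Lib_MP_2c424f_lc1.Defs
import Pool.Agent.Lib_MP_2c424f_thr.T2

/-!
# LC1 T5: Bernstein's inequality for functions of the indicators of one colour

* `bern`: as `LIN.mcdiarmid` (L5: Doob averages over the coordinates one after the other), but the increment in the coordinate `i` is a centred two-valued variable:
  a function `X` on `t i` with `X a = X a'` for `a, a' ≠ c i`, `|X a - X a'| ≤ M i ≤ 1`, and the fraction of `c i` in `t i` is `≤ p i`:
  mean of `exp (X - mean X)` is `(1-π) e^{-πδ} + π e^{(1-π)δ} ≤ exp (π (e^δ - 1 - δ)) ≤ exp (p i * M i ^ 2)`, `π` the fraction, `δ` the difference, `|δ| ≤ 1`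
  (`log (1 + π (e^δ - 1)) ≤ π (e^δ - 1)`, `e^δ - 1 - δ ≤ δ²` for `|δ| ≤ 1`).  The averages over other coordinates keep both properties.
* `fm_bern`: `bern` for `± λ F` on the fibre, `M = λ M` on `W`, `0` elsewhere; Markov.
-/

set_option autoImplicit false

open Finset Filter

namespace Pool.Agent.LC

open Pool.Agent.LO Pool.Agent.LIN Pool.Agent.THR Pool.Agent.COR

section

variable {ι α : Type*} [DecidableEq ι]

private noncomputable def T5_avg (t : ι → Finset α) (i : ι) (G : (ι → α) → ℝ) (f : ι → α) : ℝ :=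
  (∑ a ∈ t i, G (Function.update f i a)) / (t i).card

private noncomputable def T5_S (t : ι → Finset α) : List ι → ((ι → α) → ℝ) → (ι → α) → ℝ
  | [], G => G
  | i :: l, G => T5_avg t i (T5_S t l G)

/-- one coordinate -/
private theorem T5_one (T : Finset α) (hT : T.Nonempty) (H : α → ℝ) (c : α) (M p : ℝ) (hM1 : M ≤ 1) (hp0 : 0 ≤ p)
    (hH : ∀ a ∈ T, ∀ b ∈ T, |H a - H b| ≤ M) (hc : ∀ a ∈ T, ∀ b ∈ T, a ≠ c → b ≠ c → H a = H b)
    (hp : 0 < M → c ∈ T → 1 / (T.card : ℝ) ≤ p) :
    (∑ a ∈ T, Real.exp (H a)) / T.card ≤ Real.exp ((∑ a ∈ T, H a) / T.card + p * M ^ 2) := by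
  classical
  have hT0 : (0 : ℝ) < T.card := by exact_mod_cast hT.card_pos
  have hM0 : 0 ≤ M := by
    obtain ⟨a, ha⟩ := hT
    exact (abs_nonneg _).trans (hH a ha a ha)
  have hconst : (∀ a ∈ T, ∀ b ∈ T, H a = H b) →
      (∑ a ∈ T, Real.exp (H a)) / T.card ≤ Real.exp ((∑ a ∈ T, H a) / T.card + p * M ^ 2) := by
    intro h
    obtain ⟨b, hb⟩ := hT
    have h1 : ∑ a ∈ T, Real.exp (H a) = T.card * Real.exp (H b) := by
      rw [Finset.sum_congr rfl fun a ha => by rw [h a ha b hb], Finset.sum_const, nsmul_eq_mul]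
    have h2 : ∑ a ∈ T, H a = T.card * H b := by
      rw [Finset.sum_congr rfl fun a ha => h a ha b hb, Finset.sum_const, nsmul_eq_mul]
    rw [h1, h2, mul_div_cancel_left₀ _ hT0.ne', mul_div_cancel_left₀ _ hT0.ne']
    exact Real.exp_le_exp.2 (le_add_of_nonneg_right (by positivity))
  by_cases hcT : c ∈ T
  · by_cases hMz : 0 < M
    · by_cases hex : ∃ b ∈ T, b ≠ c
      · obtain ⟨b, hb, hbc⟩ := hex
        set β : ℝ := H b with hβ
        set δ : ℝ := H c - β with hδ
        set π : ℝ := 1 / (T.card : ℝ) with hπ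
        have hπ0 : 0 ≤ π := by positivity
        have hoff : ∀ a ∈ T.erase c, H a = β := by
          intro a ha
          rw [Finset.mem_erase] at ha
          exact hc a ha.2 b hb ha.1 hbc
        have hcard : ((T.erase c).card : ℝ) = T.card - 1 := by
          rw [Finset.card_erase_of_mem hcT, Nat.cast_sub hT.card_pos]
          simp
        have h1 : ∑ a ∈ T, Real.exp (H a) = T.card * (Real.exp β * (1 + π * (Real.exp δ - 1))) := by
          rw [← Finset.add_sum_erase T _ hcT, Finset.sum_congr rfl fun a ha => by rw [hoff a ha],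
            Finset.sum_const, nsmul_eq_mul, hcard]
          have h2 : Real.exp (H c) = Real.exp β * Real.exp δ := by
            rw [← Real.exp_add, hδ]
            congr 1
            ring
          rw [h2, hπ]
          field_simp
          ring
        have h2 : ∑ a ∈ T, H a = T.card * (β + π * δ) := by
          rw [← Finset.add_sum_erase T _ hcT, Finset.sum_congr rfl fun a ha => hoff a ha,
            Finset.sum_const, nsmul_eq_mul, hcard, hπ, hδ]
          field_simp
          ring
        rw [h1, h2, mul_div_cancel_left₀ _ hT0.ne', mul_div_cancel_left₀ _ hT0.ne']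
        have h3 : |δ| ≤ M := hH c hcT b hb
        have h4 : Real.exp δ - 1 ≤ δ + δ ^ 2 := by
          have := (abs_le.1 (Real.abs_exp_sub_one_sub_id_le (h3.trans hM1))).2
          linarith
        have h5 : δ ^ 2 ≤ M ^ 2 := by
          rw [← sq_abs δ]
          exact pow_le_pow_left₀ (abs_nonneg _) h3 2
        have h6 : π * δ ^ 2 ≤ p * M ^ 2 :=
          mul_le_mul (hp hMz hcT) h5 (sq_nonneg _) hp0
        calc Real.exp β * (1 + π * (Real.exp δ - 1)) ≤ Real.exp β * Real.exp (π * (Real.exp δ - 1)) := by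
              refine mul_le_mul_of_nonneg_left ?_ (Real.exp_pos _).le
              have := Real.add_one_le_exp (π * (Real.exp δ - 1))
              linarith
          _ = Real.exp (β + π * (Real.exp δ - 1)) := (Real.exp_add _ _).symm
          _ ≤ Real.exp (β + π * δ + p * M ^ 2) := by
              refine Real.exp_le_exp.2 ?_
              have h7 : π * (Real.exp δ - 1) ≤ π * (δ + δ ^ 2) := mul_le_mul_of_nonneg_left h4 hπ0
              linarith
      · refine hconst fun a ha b hb => ?_
        have h1 : ∀ x ∈ T, x = c := by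
          intro x hx
          by_contra hxc
          exact hex ⟨x, hx, hxc⟩
        rw [h1 a ha, h1 b hb]
    · refine hconst fun a ha b hb => ?_
      have h1 := (hH a ha b hb).trans (not_lt.1 hMz)
      have h2 := abs_nonpos_iff.1 h1
      linarith
  · refine hconst fun a ha b hb => ?_
    exact hc a ha b hb (fun h => hcT (h ▸ ha)) (fun h => hcT (h ▸ hb))

private theorem T5_inv (t : ι → Finset α) (G : (ι → α) → ℝ) :
    ∀ (l : List ι) (i : ι), i ∈ l → ∀ (f : ι → α) (a : α),
      T5_S t l G (Function.update f i a) = T5_S t l G f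
  | [], i, hi, f, a => by simp at hi
  | j :: l, i, hi, f, a => by
    change T5_avg t j (T5_S t l G) (Function.update f i a) = T5_avg t j (T5_S t l G) f
    unfold T5_avg
    by_cases hij : i = j
    · subst hij
      simp only [Function.update_idem]
    · have hi' : i ∈ l := by
        rcases List.mem_cons.1 hi with h | h
        · exact absurd h hij
        · exact h
      congr 1
      refine Finset.sum_congr rfl fun b _ => ?_
      rw [Function.update_comm hij, T5_inv t G l i hi']

private theorem T5_const [Fintype ι] (S : (ι → α) → ℝ)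
    (h : ∀ i f a, S (Function.update f i a) = S f) (f g : ι → α) : S g = S f := by
  have key : ∀ s : Finset ι, S (fun i => if i ∈ s then g i else f i) = S f := by
    intro s
    induction s using Finset.induction_on with
    | empty => simp
    | insert a s ha ih =>
      have h1 : (fun i => if i ∈ insert a s then g i else f i) =
          Function.update (fun i => if i ∈ s then g i else f i) a (g a) := by
        funext i
        by_cases hi : i = a
        · subst hi
          simp
        · simp [hi]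
      rw [h1, h, ih]
  have h2 := key univ
  simpa using h2

private theorem T5_mem [Fintype ι] [DecidableEq α] (t : ι → Finset α) {f : ι → α}
    (hf : f ∈ Fintype.piFinset t) {i : ι} {a : α} (ha : a ∈ t i) :
    Function.update f i a ∈ Fintype.piFinset t := by
  rw [Fintype.mem_piFinset] at hf ⊢
  intro j
  by_cases h : j = i
  · subst h
    rwa [Function.update_self]
  · rw [Function.update_of_ne h]
    exact hf j

private theorem T5_sum1 [Fintype ι] [DecidableEq α] (t : ι → Finset α) (ht : ∀ i, (t i).Nonempty)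
    (i : ι) (G : (ι → α) → ℝ) :
    ∑ f ∈ Fintype.piFinset t, T5_avg t i G f = ∑ f ∈ Fintype.piFinset t, G f := by
  have hT0 : (0 : ℝ) < (t i).card := by exact_mod_cast (ht i).card_pos
  have h1 : ∑ f ∈ Fintype.piFinset t, ∑ a ∈ t i, G (Function.update f i a) =
      ∑ f ∈ Fintype.piFinset t, ∑ a ∈ t i, G f := by
    rw [← Finset.sum_product', ← Finset.sum_product']
    refine Finset.sum_nbij' (fun p => (Function.update p.1 i p.2, p.1 i))
      (fun p => (Function.update p.1 i p.2, p.1 i)) ?_ ?_ ?_ ?_ ?_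
    · rintro ⟨f, a⟩ hp
      rw [Finset.mem_product] at hp ⊢
      exact ⟨T5_mem t hp.1 hp.2, (Fintype.mem_piFinset.1 hp.1) i⟩
    · rintro ⟨f, a⟩ hp
      rw [Finset.mem_product] at hp ⊢
      exact ⟨T5_mem t hp.1 hp.2, (Fintype.mem_piFinset.1 hp.1) i⟩
    · rintro ⟨f, a⟩ _
      simp
    · rintro ⟨f, a⟩ _
      simp
    · rintro ⟨f, a⟩ _
      rfl
  unfold T5_avg
  rw [← Finset.sum_div, h1]
  simp only [Finset.sum_const, nsmul_eq_mul]
  rw [← Finset.mul_sum, mul_div_cancel_left₀ _ hT0.ne']

end

theorem bern {ι α : Type*} [Fintype ι] [DecidableEq ι] [DecidableEq α] (t : ι → Finset α)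
    (ht : ∀ i, (t i).Nonempty) (F : (ι → α) → ℝ) (c : ι → α) (M p : ι → ℝ) (hM : ∀ i, 0 ≤ M i) (hM1 : ∀ i, M i ≤ 1)
    (hF : ∀ f ∈ Fintype.piFinset t, ∀ i, ∀ a ∈ t i, |F (Function.update f i a) - F f| ≤ M i)
    (hc : ∀ f ∈ Fintype.piFinset t, ∀ i, ∀ a ∈ t i, ∀ a' ∈ t i, a ≠ c i → a' ≠ c i →
      F (Function.update f i a) = F (Function.update f i a'))
    (hp : ∀ i, 0 < M i → c i ∈ t i → 1 / ((t i).card : ℝ) ≤ p i) (hp0 : ∀ i, 0 ≤ p i) :
    ∑ f ∈ Fintype.piFinset t, Real.exp (F f) ≤
      ((Fintype.piFinset t).card : ℝ) * Real.exp ((∑ f ∈ Fintype.piFinset t, F f) /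
        ((Fintype.piFinset t).card : ℝ) + ∑ i, p i * M i ^ 2) := by

  have hdiff : ∀ (l : List ι), ∀ f ∈ Fintype.piFinset t, ∀ i ∉ l, ∀ a ∈ t i,
      |T5_S t l F (Function.update f i a) - T5_S t l F f| ≤ M i := by
    intro l
    induction l with
    | nil => exact fun f hf i _ a ha => hF f hf i a ha
    | cons j l ih =>
      intro f hf i hi a ha
      rw [List.mem_cons, not_or] at hi
      have hT0 : (0 : ℝ) < (t j).card := by exact_mod_cast (ht j).card_pos
      change |T5_avg t j (T5_S t l F) (Function.update f i a) - T5_avg t j (T5_S t l F) f| ≤ M i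
      unfold T5_avg
      rw [← sub_div, ← Finset.sum_sub_distrib, abs_div, abs_of_pos hT0, div_le_iff₀ hT0]
      refine (Finset.abs_sum_le_sum_abs _ _).trans ?_
      refine (Finset.sum_le_sum (g := fun _ => M i) fun b hb => ?_).trans ?_
      · rw [Function.update_comm hi.1]
        exact ih _ (T5_mem t hf hb) i hi.2 a ha
      · rw [Finset.sum_const, nsmul_eq_mul, mul_comm]
  have hcst : ∀ (l : List ι), ∀ f ∈ Fintype.piFinset t, ∀ i ∉ l, ∀ a ∈ t i, ∀ a' ∈ t i, a ≠ c i → a' ≠ c i →
      T5_S t l F (Function.update f i a) = T5_S t l F (Function.update f i a') := by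
    intro l
    induction l with
    | nil => exact fun f hf i _ a ha a' ha' h1 h2 => hc f hf i a ha a' ha' h1 h2
    | cons j l ih =>
      intro f hf i hi a ha a' ha' h1 h2
      rw [List.mem_cons, not_or] at hi
      change T5_avg t j (T5_S t l F) (Function.update f i a) = T5_avg t j (T5_S t l F) (Function.update f i a')
      unfold T5_avg
      congr 1
      refine Finset.sum_congr rfl fun b hb => ?_
      rw [Function.update_comm hi.1, Function.update_comm hi.1]
      exact ih _ (T5_mem t hf hb) i hi.2 a ha a' ha' h1 h2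
  have hexp : ∀ (l : List ι), l.Nodup → ∀ f ∈ Fintype.piFinset t,
      T5_S t l (fun g => Real.exp (F g)) f ≤
        Real.exp (T5_S t l F f + (l.map fun i => p i * M i ^ 2).sum) := by
    intro l
    induction l with
    | nil =>
      intro _ f _
      simp [T5_S]
    | cons j l ih =>
      intro hl f hf
      rw [List.nodup_cons] at hl
      have hT0 : (0 : ℝ) < (t j).card := by exact_mod_cast (ht j).card_pos
      change (∑ a ∈ t j, T5_S t l (fun g => Real.exp (F g)) (Function.update f j a)) / (t j).card ≤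
        Real.exp ((∑ a ∈ t j, T5_S t l F (Function.update f j a)) / (t j).card + _)
      have h1 : (∑ a ∈ t j, T5_S t l (fun g => Real.exp (F g)) (Function.update f j a)) ≤
          (∑ a ∈ t j, Real.exp (T5_S t l F (Function.update f j a))) *
            Real.exp ((l.map fun i => p i * M i ^ 2).sum) := by
        rw [Finset.sum_mul]
        refine Finset.sum_le_sum fun a ha => ?_
        rw [← Real.exp_add]
        exact ih hl.2 _ (T5_mem t hf ha)
      have h2 := T5_one (t j) (ht j) (fun a => T5_S t l F (Function.update f j a)) (c j) (M j) (p j) (hM1 j) (hp0 j) (by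
        intro a ha b hb
        have h3 := hdiff l (Function.update f j b) (T5_mem t hf hb) j hl.1 a ha
        rwa [Function.update_idem] at h3) (by
        intro a ha b hb hac hbc
        exact hcst l f hf j hl.1 a ha b hb hac hbc) (hp j)
      rw [List.map_cons, List.sum_cons, ← add_assoc, Real.exp_add]
      calc _ ≤ (∑ a ∈ t j, Real.exp (T5_S t l F (Function.update f j a))) *
            Real.exp ((l.map fun i => p i * M i ^ 2).sum) / (t j).card :=
            div_le_div_of_nonneg_right h1 hT0.le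
        _ = (∑ a ∈ t j, Real.exp (T5_S t l F (Function.update f j a))) / (t j).card *
            Real.exp ((l.map fun i => p i * M i ^ 2).sum) := by ring
        _ ≤ _ := mul_le_mul_of_nonneg_right h2 (Real.exp_pos _).le
  have hsum : ∀ (l : List ι) (G : (ι → α) → ℝ),
      ∑ f ∈ Fintype.piFinset t, T5_S t l G f = ∑ f ∈ Fintype.piFinset t, G f := by
    intro l
    induction l with
    | nil => exact fun G => rfl
    | cons j l ih => exact fun G => (T5_sum1 t ht j _).trans (ih G)
  obtain ⟨f₀, hf₀⟩ : (Fintype.piFinset t).Nonempty := Fintype.piFinset_nonempty.2 ht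
  have hcard : (0 : ℝ) < (Fintype.piFinset t).card := by exact_mod_cast Finset.card_pos.2 ⟨f₀, hf₀⟩
  have hval : ∀ G : (ι → α) → ℝ, ∑ f ∈ Fintype.piFinset t, G f =
      ((Fintype.piFinset t).card : ℝ) * T5_S t (univ : Finset ι).toList G f₀ := by
    intro G
    rw [← hsum (univ : Finset ι).toList G]
    have h1 : ∀ f, T5_S t (univ : Finset ι).toList G f = T5_S t (univ : Finset ι).toList G f₀ :=
      fun f => T5_const _ (fun i g a => T5_inv t G _ i (by simp) g a) f₀ f
    simp only [h1, Finset.sum_const, nsmul_eq_mul]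
  have h1 := hexp (univ : Finset ι).toList (Finset.nodup_toList _) f₀ hf₀
  rw [hval (fun f => Real.exp (F f)), hval F, mul_div_cancel_left₀ _ hcard.ne']
  refine mul_le_mul_of_nonneg_left ?_ hcard.le
  rwa [← Multiset.sum_coe, ← Multiset.map_coe, Finset.coe_toList] at h1

variable {d k q : ℕ}

private theorem T5_mcd (b : Bool) {f : Site d k → Fin q} (hf : Prp f) (c : Fin q)
    (F : (Site d k → Fin q) → ℝ) (W : Finset (Site d k)) (M p : ℝ) (hM : 0 ≤ M) (hM1 : M ≤ 1) (hp0 : 0 ≤ p)
    (h0 : ∀ h ∈ fib b f, ∀ v ∈ cls b d k, v ∉ W → ∀ γ, γ ∉ SS f v → F (Function.update h v γ) = F h)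
    (h1 : ∀ h ∈ fib b f, ∀ v ∈ cls b d k, v ∈ W → ∀ γ, γ ∉ SS f v → |F (Function.update h v γ) - F h| ≤ M)
    (h2 : ∀ h ∈ fib b f, ∀ v ∈ cls b d k, ∀ γ γ', γ ∉ SS f v → γ' ∉ SS f v → γ ≠ c → γ' ≠ c →
      F (Function.update h v γ) = F (Function.update h v γ'))
    (hp : ∀ v ∈ cls b d k, v ∈ W → 1 / (av f v : ℝ) ≤ p) :
    fm b (fun h => Real.exp (F h)) f ≤ Real.exp (fm b F f + p * M ^ 2 * W.card) := by
  classical
  have hself := fib_self b hf
  set t : Site d k → Finset (Fin q) := fun x => if x ∈ cls b d k then (SS f x)ᶜ else {f x} with ht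
  have hfib : fib b f = Fintype.piFinset t := by
    unfold fib
    rw [ht]
  have htne : ∀ i, (t i).Nonempty := fun i =>
    ⟨f i, Fintype.mem_piFinset.1 (hfib ▸ hself) i⟩
  have hton : ∀ i, i ∈ cls b d k → ∀ a, a ∈ t i → a ∉ SS f i := by
    intro i hi a ha
    rw [ht] at ha
    dsimp only at ha
    rw [if_pos hi] at ha
    exact Finset.mem_compl.1 ha
  have htoff : ∀ i, i ∉ cls b d k → ∀ h ∈ Fintype.piFinset t, ∀ a ∈ t i, Function.update h i a = h := by
    intro i hi h hh a ha
    have hti : t i = {f i} := by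
      rw [ht]
      dsimp only
      rw [if_neg hi]
    have h1 : a = f i := by
      rw [hti] at ha
      exact Finset.mem_singleton.1 ha
    have h2 : h i = f i := by
      have := Fintype.mem_piFinset.1 hh i
      rw [hti] at this
      exact Finset.mem_singleton.1 this
    rw [h1, ← h2, Function.update_eq_self]
  have hb := bern t htne F (fun _ => c) (fun v => if v ∈ cls b d k ∧ v ∈ W then M else 0) (fun _ => p)
    (fun i => by
      split_ifs
      · exact hM
      · exact le_rfl)
    (fun i => by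
      split_ifs
      · exact hM1
      · exact zero_le_one)
    (by
      intro h hh i a ha
      by_cases hi : i ∈ cls b d k
      · by_cases hw : i ∈ W
        · rw [if_pos ⟨hi, hw⟩]
          exact h1 h (hfib ▸ hh) i hi hw a (hton i hi a ha)
        · rw [if_neg fun e => hw e.2, h0 h (hfib ▸ hh) i hi hw a (hton i hi a ha), sub_self, abs_zero]
      · rw [if_neg fun e => hi e.1, htoff i hi h hh a ha, sub_self, abs_zero])
    (by
      intro h hh i a ha a' ha' hac hac'
      by_cases hi : i ∈ cls b d k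
      · exact h2 h (hfib ▸ hh) i hi a a' (hton i hi a ha) (hton i hi a' ha') hac hac'
      · rw [htoff i hi h hh a ha, htoff i hi h hh a' ha'])
    (by
      intro i hi _
      by_cases hiw : i ∈ cls b d k ∧ i ∈ W
      · have h3 := hp i hiw.1 hiw.2
        have h4 : (t i).card = av f i := by
          rw [ht]
          dsimp only
          rw [if_pos hiw.1, Finset.card_compl, Fintype.card_fin]
          rfl
        rw [h4]
        exact h3
      · exfalso
        rw [if_neg hiw] at hi
        exact lt_irrefl _ hi)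
    (fun _ => hp0)
  have hcard : 0 < ((Fintype.piFinset t).card : ℝ) := by
    rw [← hfib]
    exact_mod_cast Finset.card_pos.2 ⟨f, hself⟩
  have hsum : ∑ i, p * (if i ∈ cls b d k ∧ i ∈ W then M else 0) ^ 2 ≤ p * M ^ 2 * W.card := by
    have h3 : ∀ i, p * (if i ∈ cls b d k ∧ i ∈ W then M else 0) ^ 2 ≤ if i ∈ W then p * M ^ 2 else 0 := by
      intro i
      by_cases hw : i ∈ W
      · rw [if_pos hw]
        split_ifs
        · exact le_rfl
        · rw [zero_pow two_ne_zero, mul_zero]
          positivity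
      · rw [if_neg hw, if_neg fun e => hw e.2, zero_pow two_ne_zero, mul_zero]
    refine (Finset.sum_le_sum fun i _ => h3 i).trans ?_
    rw [Finset.sum_ite_mem, Finset.univ_inter, Finset.sum_const, nsmul_eq_mul, mul_comm]
  unfold fm
  rw [hfib, div_le_iff₀ hcard, mul_comm]
  refine hb.trans ?_
  refine mul_le_mul_of_nonneg_left ?_ hcard.le
  refine Real.exp_le_exp.2 ?_
  linarith

private theorem T5_exp (b : Bool) {f : Site d k → Fin q} (hf : Prp f) (c : Fin q) (F : (Site d k → Fin q) → ℝ)
    (W : Finset (Site d k)) (M p lam s : ℝ) (hM : 0 ≤ M) (hp0 : 0 ≤ p) (hs : |s| = lam) (hlM : lam * M ≤ 1)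
    (h0 : ∀ h ∈ fib b f, ∀ v ∈ cls b d k, v ∉ W → ∀ γ, γ ∉ SS f v → F (Function.update h v γ) = F h)
    (h1 : ∀ h ∈ fib b f, ∀ v ∈ cls b d k, v ∈ W → ∀ γ, γ ∉ SS f v → |F (Function.update h v γ) - F h| ≤ M)
    (h2 : ∀ h ∈ fib b f, ∀ v ∈ cls b d k, ∀ γ γ', γ ∉ SS f v → γ' ∉ SS f v → γ ≠ c → γ' ≠ c →
      F (Function.update h v γ) = F (Function.update h v γ'))
    (hp : ∀ v ∈ cls b d k, v ∈ W → 1 / (av f v : ℝ) ≤ p) :
    fm b (fun h => Real.exp (s * (F h - fm b F f))) f ≤ Real.exp (lam ^ 2 * M ^ 2 * p * W.card) := by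
  have hl0 : 0 ≤ lam := by
    rw [← hs]
    exact abs_nonneg s
  have h3 := T5_mcd b hf c (fun h => s * (F h - fm b F f)) W (lam * M) p (mul_nonneg hl0 hM) hlM hp0
    (by
      intro g hg v hv hw γ hγ
      rw [h0 g hg v hv hw γ hγ])
    (by
      intro g hg v hv hw γ hγ
      have h4 : s * (F (Function.update g v γ) - fm b F f) - s * (F g - fm b F f) =
          s * (F (Function.update g v γ) - F g) := by ring
      rw [h4, abs_mul, hs]
      exact mul_le_mul_of_nonneg_left (h1 g hg v hv hw γ hγ) hl0)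
    (by
      intro g hg v hv γ γ' hγ hγ' hc hc'
      rw [h2 g hg v hv γ γ' hγ hγ' hc hc'])
    hp
  rw [fm_mul, fm_sub, fm_const b hf, sub_self, mul_zero, zero_add] at h3
  refine h3.trans (Real.exp_le_exp.2 (le_of_eq ?_))
  ring

private theorem T5_point (lam θ x : ℝ) (hl : 0 ≤ lam) :
    ind (θ ≤ |x|) ≤ Real.exp (-(lam * θ)) * (Real.exp (lam * x) + Real.exp (-lam * x)) := by
  unfold ind
  split_ifs with h
  · rw [mul_add, ← Real.exp_add, ← Real.exp_add]
    rcases le_total 0 x with hx | hx
    · rw [abs_of_nonneg hx] at h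
      have h1 : 0 ≤ -(lam * θ) + lam * x := by nlinarith
      have h2 := Real.one_le_exp h1
      have h3 := Real.exp_pos (-(lam * θ) + -lam * x)
      linarith
    · rw [abs_of_nonpos hx] at h
      have h1 : 0 ≤ -(lam * θ) + -lam * x := by nlinarith
      have h2 := Real.one_le_exp h1
      have h3 := Real.exp_pos (-(lam * θ) + lam * x)
      linarith
  · positivity

theorem fm_bern (hk : 2 ≤ k) (b : Bool) {f : Site d k → Fin q} (hf : Prp f) (c : Fin q) (F : (Site d k → Fin q) → ℝ)
    (W : Finset (Site d k)) (M p lam θ : ℝ) (hM : 0 ≤ M) (hp0 : 0 ≤ p) (hl : 0 ≤ lam) (hlM : lam * M ≤ 1)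
    (h0 : ∀ h ∈ fib b f, ∀ v ∈ cls b d k, v ∉ W → ∀ γ, γ ∉ SS f v → F (Function.update h v γ) = F h)
    (h1 : ∀ h ∈ fib b f, ∀ v ∈ cls b d k, v ∈ W → ∀ γ, γ ∉ SS f v → |F (Function.update h v γ) - F h| ≤ M)
    (h2 : ∀ h ∈ fib b f, ∀ v ∈ cls b d k, ∀ γ γ', γ ∉ SS f v → γ' ∉ SS f v → γ ≠ c → γ' ≠ c →
      F (Function.update h v γ) = F (Function.update h v γ'))
    (hp : ∀ v ∈ cls b d k, v ∈ W → 1 / (av f v : ℝ) ≤ p) :
    fm b (fun h => ind (θ ≤ |F h - fm b F f|)) f ≤ 2 * Real.exp (-(lam * θ) + lam ^ 2 * M ^ 2 * p * W.card) := by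
  have _ := hk
  have e1 := T5_exp b hf c F W M p lam lam hM hp0 (abs_of_nonneg hl) hlM h0 h1 h2 hp
  have e2 := T5_exp b hf c F W M p lam (-lam) hM hp0 (by rw [abs_neg, abs_of_nonneg hl]) hlM h0 h1 h2 hp
  have e3 : fm b (fun h => ind (θ ≤ |F h - fm b F f|)) f ≤
      fm b (fun h => Real.exp (-(lam * θ)) * (Real.exp (lam * (F h - fm b F f)) +
        Real.exp (-lam * (F h - fm b F f)))) f :=
    fm_mono b hf fun g _ => T5_point lam θ _ hl
  rw [fm_mul, fm_add] at e3
  refine e3.trans ?_
  rw [Real.exp_add]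
  have e4 := mul_le_mul_of_nonneg_left (add_le_add e1 e2) (Real.exp_pos (-(lam * θ))).le
  refine e4.trans (le_of_eq ?_)
  ring

end Pool.Agent.LC
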