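import Pool.Agent.Lib_MP_2c424f_lc1.T3
import Pool.Agent.Lib_MP_2c424f_lc1.T5
import Pool.Agent.Lib_MP_2c424f_lc1.C0
import Pool.Agent.Lib_MP_2c424f_thr.T2
import Pool.Agent.Lib_MP_2c424f_thr.T2c

/-!
# LC1 C2: `hc` with `av` replaced by `q al`

`F c f v := ∑_σ zc f (v+σ) v c / (q al f (v+σ))`.  Claim: `SR (∃ c, δ < |F - a PP (ya c f) v|)`.
`SR_local` with `o = true` (`v ∈ cls b`, resample the class `b`; `al f x`, `hh c f x`, `ya` for `x ~ v` (class `!b`) depend on `av, zz` at the sites `w` of the class `b`, i.e. on `f` on the class `!b`: do not change,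
THR M1 `loc_fib` with `!b`), `R f v :=` all sites `v + σ + τ` are regular (does not change either; includes `w = v`).  Radius 3.
Mean of `F`: the sites `w ~ x`, `w ≠ v` are independent (`fm_prod` / LIN): `∏_{w ~ x, w ≠ v} (1 - z_w/x_w)`, compared with `e^{-hh c f x}`: `zt f x c = (1 - z_v/x_v) ∏ ..`, `z_v/x_v ≤ 1/(c1 q)`,
`|zt f x c - e^{-hh}| ≤ a/(c1² q)` (`zt_exp`); so `|mean F - a PP (ya c f) v| ≤ 2d C e^a/(q²) ≤ δ/2`, as `a PP (ya c f) v = (1/q) ∑_σ e^{-hh}/al`.
`fm_bern` for `F` (it depends on the indicators of `c` at the sites `w = v + σ + τ ≠ v`, at most `4d²`; a site `w ≠ v` has at most two common neighbours with `v` (`k ≥ 3`), so `M = 2e^a/q`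
(`al ≥ e^{-a}`), `p = 1/(c1 q)`), `lam = s q`, `s` small constant: `-(lam δ/2) + lam² M² p 4d² ≤ -c q`; union over `c`.
-/

set_option autoImplicit false

open Finset Filter

namespace Pool.Agent.LC

open Pool.Agent.LO Pool.Agent.LIN Pool.Agent.THR Pool.Agent.COR

section
variable {d k q : ℕ}

private theorem C2_zc (f : Site d k → Fin q) (x v : Site d k) (c : Fin q) :
    zc f x v c = ∏ u ∈ (univ.image fun σ : Stp d => x + sv σ).erase v, (if f u = c then (0 : ℝ) else 1) := by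
  unfold zc
  split_ifs with h
  · symm
    refine prod_eq_one fun u hu => ?_
    obtain ⟨huv, hu⟩ := mem_erase.1 hu
    obtain ⟨σ, -, rfl⟩ := mem_image.1 hu
    exact if_neg (h σ huv)
  · push Not at h
    obtain ⟨τ, h1, h2⟩ := h
    have h3 : x + sv τ ∈ (univ.image fun σ : Stp d => x + sv σ).erase v :=
      mem_erase.2 ⟨h1, mem_image.2 ⟨τ, mem_univ _, rfl⟩⟩
    symm
    apply Finset.prod_eq_zero h3
    exact if_pos h2

private theorem C2_upd (h : Site d k → Fin q) (x v u : Site d k) (γ c : Fin q)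
    (hu : ∀ τ : Stp d, x + sv τ = u → u = v) :
    zc (Function.update h u γ) x v c = zc h x v c := by
  have h1 : (∀ τ : Stp d, x + sv τ ≠ v → Function.update h u γ (x + sv τ) ≠ c) ↔
      (∀ τ : Stp d, x + sv τ ≠ v → h (x + sv τ) ≠ c) := by
    refine forall_congr' fun τ => forall_congr' fun hτ => ?_
    rw [Function.update_of_ne]
    intro h2
    exact hτ (h2.trans (hu τ h2))
  unfold zc
  exact if_congr h1 rfl rfl

private theorem C2_upd2 (h : Site d k → Fin q) (x v u : Site d k) (γ γ' c : Fin q) (hγ : γ ≠ c) (hγ' : γ' ≠ c) :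
    zc (Function.update h u γ) x v c = zc (Function.update h u γ') x v c := by
  have h1 : (∀ τ : Stp d, x + sv τ ≠ v → Function.update h u γ (x + sv τ) ≠ c) ↔
      (∀ τ : Stp d, x + sv τ ≠ v → Function.update h u γ' (x + sv τ) ≠ c) := by
    refine forall_congr' fun τ => forall_congr' fun hτ => ?_
    by_cases h2 : x + sv τ = u
    · rw [h2, Function.update_self, Function.update_self]
      exact iff_of_true hγ hγ'
    · rw [Function.update_of_ne h2, Function.update_of_ne h2]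
  unfold zc
  exact if_congr h1 rfl rfl

private theorem C2_abs (h h' : Site d k → Fin q) (x v : Site d k) (c : Fin q) :
    |zc h x v c - zc h' x v c| ≤ 1 := by
  rcases zc_01 h x v c with h1 | h1 <;> rcases zc_01 h' x v c with h2 | h2 <;> rw [h1, h2] <;> norm_num

private theorem C2_al {f : Site d k → Fin q} (hf : Prp f) (hq : 1 ≤ q) (x : Site d k) (A : ℝ) (hA : ra d q ≤ A) :
    0 < (q : ℝ) * al f x ∧ 1 / ((q : ℝ) * al f x) ≤ Real.exp A / q := by
  have hq' : (0 : ℝ) < q := by exact_mod_cast hq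
  have h1 := al_ge hq hf x
  have h2 : 0 < al f x := lt_of_lt_of_le (Real.exp_pos _) h1
  refine ⟨mul_pos hq' h2, ?_⟩
  rw [div_le_div_iff₀ (mul_pos hq' h2) hq']
  have h3 : Real.exp (-A) ≤ al f x := le_trans (Real.exp_le_exp.2 (by linarith)) h1
  have h4 : 1 ≤ Real.exp A * al f x := by
    calc (1 : ℝ) = Real.exp A * Real.exp (-A) := by rw [← Real.exp_add, add_neg_cancel, Real.exp_zero]
      _ ≤ _ := mul_le_mul_of_nonneg_left h3 (Real.exp_nonneg _)
  nlinarith

private theorem C2_cmn (hk : 3 ≤ k) (v u : Site d k) (huv : u ≠ v) :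
    (univ.filter fun σ : Stp d => ∃ τ : Stp d, v + sv σ + sv τ = u).card ≤ 2 := by
  refine le_trans ?_ (cmn_card hk v u (Ne.symm huv))
  refine card_le_card_of_injOn (fun σ => v + sv σ) ?_ ?_
  · intro σ hσ
    obtain ⟨τ, hτ⟩ := (mem_filter.1 (mem_coe.1 hσ)).2
    refine mem_coe.2 (mem_inter.2 ⟨mem_image_of_mem _ (mem_univ σ), mem_image.2 ⟨(τ.1, !τ.2), mem_univ _, ?_⟩⟩)
    have h5 : (sv τ : Site d k) + sv (τ.1, !τ.2) = 0 := sv_opp τ.1 τ.2
    show u + sv (τ.1, !τ.2) = v + sv σ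
    rw [← hτ, add_assoc, h5, add_zero]
  · intro σ _ σ' _ h
    exact sv_inj (by omega) (add_left_cancel h)

private theorem C2_lip (hk : 3 ≤ k) (hq : 1 ≤ q) {f : Site d k → Fin q} (hf : Prp f) (h : Site d k → Fin q)
    (v u : Site d k) (huv : u ≠ v) (γ c : Fin q) (A : ℝ) (hA : ra d q ≤ A) :
    |∑ σ : Stp d, zc (Function.update h u γ) (v + sv σ) v c / (q * al f (v + sv σ)) -
      ∑ σ : Stp d, zc h (v + sv σ) v c / (q * al f (v + sv σ))| ≤ 2 * (Real.exp A / q) := by
  rw [← sum_sub_distrib]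
  refine (abs_sum_le_sum_abs _ _).trans ?_
  have h1 : ∀ σ ∈ (univ : Finset (Stp d)), |zc (Function.update h u γ) (v + sv σ) v c / (q * al f (v + sv σ)) -
      zc h (v + sv σ) v c / (q * al f (v + sv σ))| ≤
      if ∃ τ : Stp d, v + sv σ + sv τ = u then Real.exp A / q else 0 := by
    intro σ _
    obtain ⟨h2, h3⟩ := C2_al hf hq (v + sv σ) A hA
    split_ifs with h4
    · rw [← sub_div, abs_div, abs_of_pos h2]
      refine le_trans ?_ h3
      exact div_le_div_of_nonneg_right (C2_abs _ _ _ _ _) h2.le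
    · rw [C2_upd h (v + sv σ) v u γ c fun τ hτ => absurd ⟨τ, hτ⟩ h4, sub_self, abs_zero]
  refine (sum_le_sum h1).trans ?_
  rw [← sum_filter, sum_const, nsmul_eq_mul]
  refine mul_le_mul_of_nonneg_right ?_ (by positivity)
  exact_mod_cast C2_cmn hk v u huv

private theorem C2_prod (s : Finset (Site d k)) (p : Site d k → ℝ) (h0 : ∀ i, 0 ≤ p i) (h1 : ∀ i, p i ≤ 1) :
    0 ≤ ∏ i ∈ s, (1 - p i) ∧ ∏ i ∈ s, (1 - p i) ≤ 1 :=
  ⟨prod_nonneg fun i _ => by linarith [h1 i], prod_le_one (fun i _ => by linarith [h1 i]) fun i _ => by linarith [h0 i]⟩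

/-- mean of `zc` -/
private theorem C2_mean (hk : 2 ≤ k) (b : Bool) {f : Site d k → Fin q} (hf : Prp f) (x v : Site d k)
    (hx : x ∈ cls (!b) d k) (hv : ∃ τ : Stp d, x + sv τ = v) (c : Fin q) (A : ℝ) (hA : ra d q ≤ A)
    (hq : 2 / c1 e3 ≤ q) (hR : ∀ τ : Stp d, THR.Rg e3 f (x + sv τ)) :
    |fm b (fun h => zc h x v c) f - Real.exp (-hh c f x)| ≤ (1 / c1 e3 + A / c1 e3 ^ 2) / q := by
  have hc1 : 0 < c1 e3 := by
    unfold c1
    positivity
  have hq0 : (0 : ℝ) < q := lt_of_lt_of_le (by positivity) hq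
  have hq1 : 1 ≤ q := by
    have : 0 < q := by exact_mod_cast hq0
    omega
  obtain ⟨τ, hτ⟩ := hv
  have h1 : fm b (fun h => zc h x v c) f =
      ∏ u ∈ (univ.image fun σ : Stp d => x + sv σ).erase v, (1 - zz f u c / (av f u : ℝ)) := by
    rw [show (fun h : Site d k → Fin q => zc h x v c) =
      fun h => ∏ u ∈ (univ.image fun σ : Stp d => x + sv σ).erase v, (if h u = c then (0 : ℝ) else 1) from
      funext fun h => C2_zc h x v c]
    refine T2c_mean (by omega) b hf _ ?_ c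
    intro u hu
    obtain ⟨σ, -, rfl⟩ := mem_image.1 (mem_of_mem_erase hu)
    rw [mem_cls_step (by omega)]
    exact hx
  have h2 : zt f x c = (1 - zz f v c / (av f v : ℝ)) *
      ∏ u ∈ (univ.image fun σ : Stp d => x + sv σ).erase v, (1 - zz f u c / (av f u : ℝ)) := by
    have h3 : v ∈ univ.image fun σ : Stp d => x + sv σ := mem_image.2 ⟨τ, mem_univ _, hτ⟩
    rw [mul_prod_erase _ (fun u => 1 - zz f u c / (av f u : ℝ)) h3,
      prod_image fun σ _ σ' _ h => sv_inj hk (add_left_cancel h)]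
    rfl
  have h3 := zt_exp (ε := e3) (by unfold e3; norm_num) hq hf c x hR
  obtain ⟨h4, h5⟩ := C2_prod ((univ.image fun σ : Stp d => x + sv σ).erase v)
    (fun u => zz f u c / (av f u : ℝ)) (fun u => (zz_av_le hf u c).1) (fun u => (zz_av_le hf u c).2)
  have h6 := (zz_av_le hf v c).1
  have h7 : zz f v c / (av f v : ℝ) ≤ 1 / (c1 e3 * q) := by
    refine zz_reg hq1 v ?_ c
    rw [← hτ]
    exact hR τ
  rw [h1]
  set P := ∏ u ∈ (univ.image fun σ : Stp d => x + sv σ).erase v, (1 - zz f u c / (av f u : ℝ)) with hP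
  set p := zz f v c / (av f v : ℝ) with hp
  have h8 : |P - zt f x c| ≤ 1 / (c1 e3 * q) := by
    rw [h2]
    have h9 : P - (1 - p) * P = p * P := by ring
    rw [h9, abs_of_nonneg (mul_nonneg h6 h4)]
    calc p * P ≤ p * 1 := mul_le_mul_of_nonneg_left h5 h6
      _ = p := mul_one _
      _ ≤ _ := h7
  have h10 : ra d q / (c1 e3 ^ 2 * q) ≤ A / (c1 e3 ^ 2 * q) := by gcongr
  calc |P - Real.exp (-hh c f x)| ≤ |P - zt f x c| + |zt f x c - Real.exp (-hh c f x)| := abs_sub_le _ _ _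
    _ ≤ 1 / (c1 e3 * q) + A / (c1 e3 ^ 2 * q) := add_le_add h8 (h3.trans h10)
    _ = _ := by field_simp

/-- mean of the sum -/
private theorem C2_mu (hk : 2 ≤ k) (hd : 1 ≤ d) (b : Bool) {f : Site d k → Fin q} (hf : Prp f) (v : Site d k)
    (hv : v ∈ cls b d k) (c : Fin q) (A : ℝ) (hA0 : 0 ≤ A) (hA : ra d q ≤ A)
    (hq : 2 / c1 e3 ≤ q) (hR : ∀ σ τ : Stp d, THR.Rg e3 f (v + sv σ + sv τ)) :
    |fm b (fun h => ∑ σ : Stp d, zc h (v + sv σ) v c / (q * al f (v + sv σ))) f - ra d q * PP (ya c f) v| ≤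
      A * (1 / c1 e3 + A / c1 e3 ^ 2) * Real.exp A / q := by
  have hc1 : 0 < c1 e3 := by
    unfold c1
    positivity
  have hq0 : (0 : ℝ) < q := lt_of_lt_of_le (by positivity) hq
  have hq1 : 1 ≤ q := by
    have : 0 < q := by exact_mod_cast hq0
    omega
  have hd0 : (0 : ℝ) < d := by exact_mod_cast hd
  have h1 : ra d q * PP (ya c f) v = ∑ σ : Stp d, Real.exp (-hh c f (v + sv σ)) / (q * al f (v + sv σ)) := by
    unfold PP ra ya
    have h2 : ∑ σ : Stp d, Real.exp (-hh c f (v + sv σ)) / (q * al f (v + sv σ)) =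
        (∑ σ : Stp d, Real.exp (-hh c f (v + sv σ)) / al f (v + sv σ)) / q := by
      rw [sum_div]
      refine sum_congr rfl fun σ _ => ?_
      rw [div_div, mul_comm (q : ℝ)]
    rw [h2]
    field_simp
  have h3 : fm b (fun h => ∑ σ : Stp d, zc h (v + sv σ) v c / (q * al f (v + sv σ))) f =
      ∑ σ : Stp d, fm b (fun h => zc h (v + sv σ) v c) f / (q * al f (v + sv σ)) := by
    rw [fm_sum b f (univ : Finset (Stp d)) fun σ h => zc h (v + sv σ) v c / (q * al f (v + sv σ))]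
    refine sum_congr rfl fun σ _ => ?_
    have h4 : (fun h : Site d k → Fin q => zc h (v + sv σ) v c / (q * al f (v + sv σ))) =
        fun h => (1 / (q * al f (v + sv σ))) * zc h (v + sv σ) v c := by
      funext h
      ring
    rw [h4, fm_mul]
    ring
  rw [h1, h3, ← sum_sub_distrib]
  refine (abs_sum_le_sum_abs _ _).trans ?_
  have h5 : ∀ σ ∈ (univ : Finset (Stp d)), |fm b (fun h => zc h (v + sv σ) v c) f / (q * al f (v + sv σ)) -
      Real.exp (-hh c f (v + sv σ)) / (q * al f (v + sv σ))| ≤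
      ((1 / c1 e3 + A / c1 e3 ^ 2) / q) * (Real.exp A / q) := by
    intro σ _
    obtain ⟨h6, h7⟩ := C2_al hf hq1 (v + sv σ) A hA
    have h8 : v + sv σ ∈ cls (!b) d k := by
      rw [mem_cls_step (by omega), Bool.not_not]
      exact hv
    have h9 := C2_mean hk b hf (v + sv σ) v h8 ⟨(σ.1, !σ.2), by rw [add_assoc, sv_opp, add_zero]⟩ c A hA hq (hR σ)
    rw [← sub_div, abs_div, abs_of_pos h6, div_eq_mul_one_div]
    exact mul_le_mul h9 h7 (by positivity) (by positivity)
  refine (sum_le_sum h5).trans ?_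
  rw [sum_const, card_univ, nsmul_eq_mul]
  have h6 : ((Fintype.card (Stp d) : ℕ) : ℝ) = ra d q * q := by
    rw [Fintype.card_prod, Fintype.card_fin, Fintype.card_bool]
    unfold ra
    push_cast
    field_simp
  rw [h6]
  have h7 : ra d q * q * ((1 / c1 e3 + A / c1 e3 ^ 2) / q * (Real.exp A / q)) =
      ra d q * ((1 / c1 e3 + A / c1 e3 ^ 2) * Real.exp A / q) := by
    field_simp
  rw [h7]
  have h8 : A * (1 / c1 e3 + A / c1 e3 ^ 2) * Real.exp A / q =
      A * ((1 / c1 e3 + A / c1 e3 ^ 2) * Real.exp A / q) := by ring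
  rw [h8]
  exact mul_le_mul_of_nonneg_right hA (by positivity)

/-- locality -/
private theorem C2_loc (f g : Site d k → Fin q) (v : Site d k) (h : ∀ u, nr 3 v u → f u = g u) :
    (∀ σ τ : Stp d, SS f (v + sv σ + sv τ) = SS g (v + sv σ + sv τ)) ∧
      ∀ (σ : Stp d) (c : Fin q), al f (v + sv σ) = al g (v + sv σ) ∧ ya c f (v + sv σ) = ya c g (v + sv σ) ∧
        zc f (v + sv σ) v c = zc g (v + sv σ) v c := by
  have h1 : ∀ σ τ : Stp d, SS f (v + sv σ + sv τ) = SS g (v + sv σ + sv τ) := by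
    intro σ τ
    unfold SS
    refine image_congr fun ρ _ => ?_
    exact h _ (Or.inr ⟨σ, Or.inr ⟨τ, Or.inr ⟨ρ, rfl⟩⟩⟩)
  have h2 : ∀ (σ : Stp d) (c : Fin q), hh c f (v + sv σ) = hh c g (v + sv σ) := by
    intro σ c
    unfold THR.hh
    refine sum_congr rfl fun τ _ => ?_
    unfold zz av
    rw [h1 σ τ]
  have h3 : ∀ σ : Stp d, al f (v + sv σ) = al g (v + sv σ) := by
    intro σ
    unfold al
    congr 1
    exact sum_congr rfl fun c _ => by rw [h2 σ c]
  refine ⟨h1, fun σ c => ⟨h3 σ, ?_, ?_⟩⟩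
  · unfold ya
    rw [h2 σ c, h3 σ]
  · have h4 : (∀ τ : Stp d, v + sv σ + sv τ ≠ v → f (v + sv σ + sv τ) ≠ c) ↔
        (∀ τ : Stp d, v + sv σ + sv τ ≠ v → g (v + sv σ + sv τ) ≠ c) := by
      refine forall_congr' fun τ => forall_congr' fun _ => ?_
      rw [h _ (Or.inr ⟨σ, Or.inr ⟨τ, Or.inl rfl⟩⟩)]
    unfold zc
    exact if_congr h4 rfl rfl

/-- Bernstein -/
private theorem C2_bern (hk : 3 ≤ k) (b : Bool) {f : Site d k → Fin q} (hf : Prp f) (v : Site d k) (c : Fin q) (A s δ : ℝ) (hA0 : 0 < A) (hA : ra d q ≤ A)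
    (hq : 2 / c1 e3 ≤ q) (hR : ∀ σ τ : Stp d, THR.Rg e3 f (v + sv σ + sv τ)) (hs : 0 < s)
    (hs1 : 2 * s * Real.exp A ≤ 1) (hs2 : 16 * s * Real.exp A ^ 2 * A ^ 2 ≤ δ * c1 e3) :
    fm b (fun h => ind (δ / 2 ≤ |∑ σ : Stp d, zc h (v + sv σ) v c / (q * al f (v + sv σ)) -
      fm b (fun h => ∑ σ : Stp d, zc h (v + sv σ) v c / (q * al f (v + sv σ))) f|)) f ≤
      2 * Real.exp (-(s * δ / 4 * q)) := by
  have hc1 : 0 < c1 e3 := by
    unfold c1
    positivity
  have hq0 : (0 : ℝ) < q := lt_of_lt_of_le (by positivity) hq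
  have hq1 : 1 ≤ q := by
    have : 0 < q := by exact_mod_cast hq0
    omega
  set W : Finset (Site d k) := (univ.image fun p : Stp d × Stp d => v + sv p.1 + sv p.2).erase v with hW
  have h := fm_bern (d := d) (k := k) (q := q) (by omega) b hf c
    (fun h => ∑ σ : Stp d, zc h (v + sv σ) v c / (q * al f (v + sv σ))) W (2 * (Real.exp A / q)) (1 / (c1 e3 * q))
    (s * q) (δ / 2) (by positivity) (by positivity) (by positivity) (by
      have : s * q * (2 * (Real.exp A / q)) = 2 * s * Real.exp A := by field_simp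
      rw [this]
      exact hs1) ?_ ?_ ?_ ?_
  · refine h.trans ?_
    refine mul_le_mul_of_nonneg_left (Real.exp_le_exp.2 ?_) (by norm_num)
    have h1 : (W.card : ℝ) ≤ (A * q) ^ 2 := by
      have h2 : W.card ≤ (2 * d) ^ 2 := by
        refine (card_le_card (erase_subset _ _)).trans (card_image_le.trans (le_of_eq ?_))
        rw [card_univ, Fintype.card_prod, Fintype.card_prod, Fintype.card_fin, Fintype.card_bool]
        ring
      have h3 : 2 * (d : ℝ) ≤ A * q := by
        have : 2 * (d : ℝ) = ra d q * q := by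
          unfold ra
          field_simp
        rw [this]
        exact mul_le_mul_of_nonneg_right hA hq0.le
      calc (W.card : ℝ) ≤ (2 * (d : ℝ)) ^ 2 := by exact_mod_cast h2
        _ ≤ _ := pow_le_pow_left₀ (by positivity) h3 2
    have h4 : (s * q) ^ 2 * (2 * (Real.exp A / q)) ^ 2 * (1 / (c1 e3 * q)) * (W.card : ℝ) ≤
        (s * q) ^ 2 * (2 * (Real.exp A / q)) ^ 2 * (1 / (c1 e3 * q)) * (A * q) ^ 2 :=
      mul_le_mul_of_nonneg_left h1 (by positivity)
    have h5 : (s * q) ^ 2 * (2 * (Real.exp A / q)) ^ 2 * (1 / (c1 e3 * q)) * (A * q) ^ 2 =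
        s * q / 4 * ((16 * s * Real.exp A ^ 2 * A ^ 2) / c1 e3) := by
      field_simp
      ring
    have h6 : (16 * s * Real.exp A ^ 2 * A ^ 2) / c1 e3 ≤ δ := by
      rw [div_le_iff₀ hc1]
      exact hs2
    have h7 : s * q / 4 * ((16 * s * Real.exp A ^ 2 * A ^ 2) / c1 e3) ≤ s * q / 4 * δ :=
      mul_le_mul_of_nonneg_left h6 (by positivity)
    have h8 := h4.trans (h5.le.trans h7)
    calc -(s * q * (δ / 2)) + (s * q) ^ 2 * (2 * (Real.exp A / q)) ^ 2 * (1 / (c1 e3 * q)) * (W.card : ℝ)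
        ≤ -(s * q * (δ / 2)) + s * q / 4 * δ := by linarith
      _ = -(s * δ / 4 * q) := by ring
  · intro h _ u _ hu γ _
    refine sum_congr rfl fun σ _ => ?_
    congr 1
    refine C2_upd h (v + sv σ) v u γ c fun τ hτ => ?_
    by_contra huv
    exact hu (mem_erase.2 ⟨huv, mem_image.2 ⟨(σ, τ), mem_univ _, hτ⟩⟩)
  · intro h _ u _ hu γ _
    exact C2_lip hk hq1 hf h v u (ne_of_mem_erase hu) γ c A hA
  · intro h _ u _ γ γ' _ _ h1 h2
    refine sum_congr rfl fun σ _ => ?_
    rw [C2_upd2 h (v + sv σ) v u γ γ' c h1 h2]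
  · intro u _ hu
    obtain ⟨p, -, rfl⟩ := mem_image.1 (mem_of_mem_erase hu)
    have h1 : c1 e3 * q ≤ (av f (v + sv p.1 + sv p.2) : ℝ) := hR p.1 p.2
    exact one_div_le_one_div_of_le (by positivity) h1

end

/-- numbers -/
private theorem C2_num (κ C δ B : ℝ) (hκ : 0 < κ) (hδ : 0 < δ) (K : ℕ) : ∀ᶠ d : ℕ in atTop, ∀ q : ℕ, d ≤ 1000 * q →
    B ≤ q ∧ C / q ≤ δ ∧ q * (2 * Real.exp (-(κ * q))) ≤ 1 / (d : ℝ) ^ K := by
  have h1 := (Real.tendsto_pow_mul_exp_neg_atTop_nhds_zero (K + 1)).eventually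
    (ge_mem_nhds (show (0 : ℝ) < κ ^ (K + 1) / (2 * 1000 ^ K) by positivity))
  obtain ⟨X, hX⟩ := eventually_atTop.1 h1
  obtain ⟨m, hm⟩ := exists_nat_ge (1000 * (|X| / κ + |B| + |C| / δ + 1))
  filter_upwards [eventually_ge_atTop (max m 1)] with d hd q hdq
  have hm' : (m : ℝ) ≤ d := by exact_mod_cast (le_max_left _ _).trans hd
  have hd1 : (1 : ℝ) ≤ d := by exact_mod_cast (le_max_right _ _).trans hd
  have hdq' : (d : ℝ) ≤ 1000 * q := by exact_mod_cast hdq
  have hXk : 0 ≤ |X| / κ := by positivity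
  have hCd : 0 ≤ |C| / δ := by positivity
  have hB0 := abs_nonneg B
  have hq : |X| / κ + |B| + |C| / δ + 1 ≤ q := by linarith
  have hq0 : (0 : ℝ) < q := by linarith
  refine ⟨by linarith [le_abs_self B], ?_, ?_⟩
  · rw [div_le_iff₀ hq0]
    have h2 : |C| / δ ≤ q := by linarith
    rw [div_le_iff₀ hδ] at h2
    linarith [le_abs_self C]
  · have h2 : X ≤ κ * q := by
      have h3 : |X| / κ ≤ q := by linarith
      rw [div_le_iff₀ hκ] at h3
      linarith [le_abs_self X]
    have h3 := hX _ h2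
    rw [le_div_iff₀ (by positivity)] at h3 ⊢
    have h4 : (d : ℝ) ^ K ≤ (1000 * q) ^ K := pow_le_pow_left₀ (by linarith) hdq' K
    calc q * (2 * Real.exp (-(κ * q))) * (d : ℝ) ^ K ≤ q * (2 * Real.exp (-(κ * q))) * (1000 * q) ^ K :=
          mul_le_mul_of_nonneg_left h4 (by positivity)
      _ = ((κ * q) ^ (K + 1) * Real.exp (-(κ * q)) * (2 * 1000 ^ K)) / κ ^ (K + 1) := by
          rw [mul_pow, mul_pow, pow_succ (q : ℝ) K]
          field_simp
      _ ≤ κ ^ (K + 1) / κ ^ (K + 1) := div_le_div_of_nonneg_right h3 (by positivity)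
      _ = 1 := div_self (by positivity)

theorem hF_pt (δ : ℝ) (hδ : 0 < δ) : SR fun d _ q f v => ∃ c : Fin q,
    δ < |(∑ σ : Stp d, zc f (v + sv σ) v c / (q * al f (v + sv σ))) - ra d q * PP (ya c f) v| := by
  have hc1 : 0 < c1 e3 := by
    unfold c1
    positivity
  have hE := Real.exp_pos 2000
  refine SR_local true 3 (fun d _ _ f v => ∀ σ τ : Stp d, THR.Rg e3 f (v + sv σ + sv τ)) _ ?_ ?_ ?_ ?_ ?_
  · refine SR.mono nc_pt ?_
    refine ⟨0, fun d q _ _ _ => Eventually.of_forall fun k _ f _ v h1 h2 => h1 h2.2.2⟩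
  · intro d k q f g v h
    obtain ⟨h1, -⟩ := C2_loc f g v h
    refine forall_congr' fun σ => forall_congr' fun τ => ?_
    unfold THR.Rg av
    rw [h1 σ τ]
  · intro d k q f g v h
    obtain ⟨-, h1⟩ := C2_loc f g v h
    refine exists_congr fun c => ?_
    have h2 : (∑ σ : Stp d, zc f (v + sv σ) v c / (q * al f (v + sv σ))) =
        ∑ σ : Stp d, zc g (v + sv σ) v c / (q * al g (v + sv σ)) :=
      sum_congr rfl fun σ _ => by rw [(h1 σ c).1, (h1 σ c).2.2]
    have h3 : PP (ya c f) v = PP (ya c g) v := by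
      unfold PP
      congr 1
      exact sum_congr rfl fun σ _ => (h1 σ c).2.1
    rw [h2, h3]
  · refine (EvT_reg (ε := e3) (by unfold e3; norm_num) (by unfold e3; norm_num) 1).mono ?_
    intro d k q hreg _ f _ b v hv h hh
    have hk : 1 ≤ k := by exact_mod_cast hreg.2.2.1
    have hr : rcl true b = b := by simp [rcl]
    rw [hr] at hh
    refine forall_congr' fun σ => forall_congr' fun τ => ?_
    have h1 : v + sv σ + sv τ ∈ cls b d k := by
      rw [mem_cls_step hk, mem_cls_step hk, Bool.not_not]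
      exact hv
    unfold THR.Rg av
    rw [fib_SS hk b hh _ h1]
  · intro K
    obtain ⟨s, hs, hs1, hs2⟩ : ∃ s : ℝ, 0 < s ∧ 2 * s * Real.exp 2000 ≤ 1 ∧
        16 * s * Real.exp 2000 ^ 2 * 2000 ^ 2 ≤ δ * c1 e3 := by
      refine ⟨min (1 / (2 * Real.exp 2000)) (δ * c1 e3 / (16 * Real.exp 2000 ^ 2 * 2000 ^ 2)),
        lt_min (by positivity) (by positivity), ?_, ?_⟩
      · have h1 := min_le_left (1 / (2 * Real.exp 2000)) (δ * c1 e3 / (16 * Real.exp 2000 ^ 2 * 2000 ^ 2))
        rw [le_div_iff₀ (by positivity)] at h1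
        linarith
      · have h1 := min_le_right (1 / (2 * Real.exp 2000)) (δ * c1 e3 / (16 * Real.exp 2000 ^ 2 * 2000 ^ 2))
        rw [le_div_iff₀ (by positivity)] at h1
        linarith
    refine ((EvT_reg (ε := e3) (by unfold e3; norm_num) (by unfold e3; norm_num) 3).and
      (EvT_d (C2_num (s * δ / 4) (2000 * (1 / c1 e3 + 2000 / c1 e3 ^ 2) * Real.exp 2000) (δ / 2) (2 / c1 e3)
        (by positivity) (by positivity) K))).mono ?_
    rintro d k q ⟨hreg, hnum⟩ hRg f hf b v hv hR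
    have hf' : Prp f := by
      unfold prps at hf
      simpa using hf
    have hk : 3 ≤ k := by exact_mod_cast hreg.2.2.1
    have hd : 3 ≤ d := by exact_mod_cast hreg.1
    obtain ⟨hq, hmu, hexp⟩ := hnum q (by have := hRg.2.2; omega)
    have hq0 : (0 : ℝ) < q := lt_of_lt_of_le (by positivity) hq
    have hA : ra d q ≤ 2000 := by
      unfold ra
      rw [div_le_iff₀ hq0]
      exact_mod_cast hRg.2.2
    have hr : rcl true b = b := by simp [rcl]
    rw [hr]
    have h1 : ∀ h ∈ fib b f, ind (∃ c : Fin q,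
        δ < |(∑ σ : Stp d, zc h (v + sv σ) v c / (q * al h (v + sv σ))) - ra d q * PP (ya c h) v|) ≤
        ∑ c : Fin q, ind (δ / 2 ≤ |∑ σ : Stp d, zc h (v + sv σ) v c / (q * al f (v + sv σ)) -
          fm b (fun h => ∑ σ : Stp d, zc h (v + sv σ) v c / (q * al f (v + sv σ))) f|) := by
      intro h hh
      have h0 : ∀ P : Prop, 0 ≤ ind P := by
        intro P
        unfold ind
        split_ifs <;> norm_num
      by_cases hP : ∃ c : Fin q,
        δ < |(∑ σ : Stp d, zc h (v + sv σ) v c / (q * al h (v + sv σ))) - ra d q * PP (ya c h) v|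
      · obtain ⟨c, hc⟩ := hP
        have h2 : ∀ σ : Stp d, v + sv σ ∈ cls (!b) d k := by
          intro σ
          rw [mem_cls_step (by omega), Bool.not_not]
          exact hv
        have h' : h ∈ fib (!(!b)) f := by
          rw [Bool.not_not]
          exact hh
        have h3 := fun σ : Stp d => loc_fib (by omega) (!b) h' (v + sv σ) (h2 σ) c
        have h4 : (∑ σ : Stp d, zc h (v + sv σ) v c / (q * al h (v + sv σ))) =
            ∑ σ : Stp d, zc h (v + sv σ) v c / (q * al f (v + sv σ)) :=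
          sum_congr rfl fun σ _ => by rw [(h3 σ).2.1]
        have h5 : PP (ya c h) v = PP (ya c f) v := by
          unfold PP
          congr 1
          exact sum_congr rfl fun σ _ => (h3 σ).2.2
        rw [h4, h5] at hc
        have h6 := (C2_mu (by omega) (by omega) b hf' v hv c 2000 (by norm_num) hA hq hR).trans hmu
        have h7 := abs_sub_le (∑ σ : Stp d, zc h (v + sv σ) v c / (q * al f (v + sv σ)))
          (fm b (fun h => ∑ σ : Stp d, zc h (v + sv σ) v c / (q * al f (v + sv σ))) f) (ra d q * PP (ya c f) v)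
        have h8 : δ / 2 ≤ |∑ σ : Stp d, zc h (v + sv σ) v c / (q * al f (v + sv σ)) -
          fm b (fun h => ∑ σ : Stp d, zc h (v + sv σ) v c / (q * al f (v + sv σ))) f| := by linarith
        have h9 : ∀ P : Prop, ind P ≤ 1 := by
          intro P
          unfold ind
          split_ifs <;> norm_num
        refine (h9 _).trans (le_trans (le_of_eq ?_) (single_le_sum (fun c _ => h0 _) (mem_univ c)))
        unfold ind
        exact (if_pos h8).symm
      · have h2 : ind (∃ c : Fin q,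
          δ < |(∑ σ : Stp d, zc h (v + sv σ) v c / (q * al h (v + sv σ))) - ra d q * PP (ya c h) v|) = 0 := by
          unfold ind
          exact if_neg hP
        rw [h2]
        exact sum_nonneg fun c _ => h0 _
    refine (fm_mono b hf' h1).trans ?_
    rw [fm_sum b f (univ : Finset (Fin q)) fun c h => ind (δ / 2 ≤ |∑ σ : Stp d, zc h (v + sv σ) v c /
      (q * al f (v + sv σ)) - fm b (fun h => ∑ σ : Stp d, zc h (v + sv σ) v c / (q * al f (v + sv σ))) f|)]
    refine (sum_le_sum fun c _ => C2_bern hk b hf' v c 2000 s δ (by norm_num) hA hq hR hs hs1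
      hs2).trans ?_
    rw [sum_const, card_univ, Fintype.card_fin, nsmul_eq_mul]
    exact hexp

end Pool.Agent.LC
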