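import Pool.Agent.Lib_MP_2c424f_lc1.C1
import Pool.Agent.Lib_MP_2c424f_lc1.C2

/-!
# LC1 C3: the local mean-field equation at single sites

`|hc - F| ≤ ∑_σ |1/av - 1/(q al)| ≤ 2d δ'/(c1 q * e^{-a})` if all neighbours are regular and have `|av/q - al| ≤ δ'` (`av_pt`, `nc_pt`, `SR.nb`); `hF_pt`.
-/

set_option autoImplicit false

open Finset Filter

namespace Pool.Agent.LC

open Pool.Agent.LO Pool.Agent.LIN Pool.Agent.THR Pool.Agent.COR

private theorem C3_term {A B z q c b e : ℝ} (hq : 0 < q) (hc : 0 < c) (hb : 0 < b) (hz : z = 0 ∨ z = 1)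
    (hA : c * q ≤ A) (hB : b ≤ B) (h : |A / q - B| ≤ e) : |z / A - z / (q * B)| ≤ e / (c * q * b) := by
  have hcq : 0 < c * q := mul_pos hc hq
  have hA0 : 0 < A := lt_of_lt_of_le hcq hA
  have hB0 : 0 < B := lt_of_lt_of_le hb hB
  have he : 0 ≤ e := le_trans (abs_nonneg _) h
  rcases hz with hz | hz
  · rw [hz, zero_div, zero_div, sub_zero, abs_zero]
    positivity
  · have e1 : z / A - z / (q * B) = (B - A / q) / (A * B) := by
      rw [hz]
      field_simp
    rw [e1, abs_div, abs_of_pos (mul_pos hA0 hB0), abs_sub_comm]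
    exact div_le_div₀ he h (by positivity) (mul_le_mul hA hB hb.le hA0.le)

theorem hc_pt (δ : ℝ) (hδ : 0 < δ) : SR fun d _ q f v => ∃ c : Fin q, δ < |hc c f v - ra d q * PP (ya c f) v| := by
  have hc1 : 0 < c1 e3 := by
    unfold c1
    positivity
  obtain ⟨b, hb⟩ : ∃ b : ℝ, b = Real.exp (-2000) := ⟨_, rfl⟩
  have hb0 : 0 < b := by rw [hb]; exact Real.exp_pos _
  obtain ⟨e, he⟩ : ∃ e : ℝ, e = δ / 2 * (c1 e3 * b) / 2000 := ⟨_, rfl⟩
  have he0 : 0 < e := by rw [he]; positivity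
  have h1 := ((av_pt e he0).nb.or reg_pt.nb).or (hF_pt (δ / 2) (by positivity))
  refine h1.mono ?_
  have hd : EvT e3 fun d _ _ => 1 ≤ d := EvT_d (eventually_ge_atTop 1)
  refine hd.mono ?_
  rintro d k q hd1 hR f hf v ⟨c, hcc⟩
  obtain ⟨hq, -, ha, hra, -⟩ := rg_pos hd1 hR
  have hq0 : (0 : ℝ) < q := by exact_mod_cast hq
  have hfP : Prp f := by
    classical
    unfold prps at hf
    exact (mem_filter.1 hf).2
  by_contra hneg
  rw [not_or, not_or] at hneg
  obtain ⟨⟨n1, n2⟩, n3⟩ := hneg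
  rw [not_exists] at n1 n2 n3
  have t1 : ∀ σ : Stp d, |(av f (v + sv σ) : ℝ) / q - al f (v + sv σ)| ≤ e := fun σ => not_lt.1 (n1 σ)
  have t2 : ∀ σ : Stp d, c1 e3 * q ≤ (av f (v + sv σ) : ℝ) := fun σ => not_not.1 (n2 σ)
  have t3 := not_lt.1 (n3 c)
  have t4 : ∀ σ : Stp d, b ≤ al f (v + sv σ) := fun σ => by
    refine le_trans ?_ (al_ge hq hfP (v + sv σ))
    rw [hb]
    exact Real.exp_le_exp.2 (by linarith)
  have key : |hc c f v - ∑ σ : Stp d, zc f (v + sv σ) v c / (q * al f (v + sv σ))| ≤ δ / 2 := by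
    unfold hc
    rw [← sum_sub_distrib]
    refine (abs_sum_le_sum_abs _ _).trans ?_
    have g1 : ∀ σ ∈ (univ : Finset (Stp d)),
        |zc f (v + sv σ) v c / (av f (v + sv σ) : ℝ) - zc f (v + sv σ) v c / (q * al f (v + sv σ))| ≤
          e / (c1 e3 * q * b) := fun σ _ =>
      C3_term hq0 hc1 hb0 (zc_01 f (v + sv σ) v c) (t2 σ) (t4 σ) (t1 σ)
    refine (sum_le_sum g1).trans ?_
    rw [sum_const, card_univ, Fintype.card_prod, Fintype.card_fin, Fintype.card_bool, nsmul_eq_mul]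
    push_cast
    have g2 : (d : ℝ) * 2 * (e / (c1 e3 * q * b)) = ra d q * e / (c1 e3 * b) := by
      rw [mul_comm (d : ℝ) 2, hra]
      field_simp
    rw [g2]
    calc ra d q * e / (c1 e3 * b) ≤ 2000 * e / (c1 e3 * b) := by
          refine div_le_div_of_nonneg_right ?_ (by positivity)
          exact mul_le_mul_of_nonneg_right ha he0.le
      _ = δ / 2 := by
          rw [he]
          field_simp
  have key2 := abs_sub_le (hc c f v) (∑ σ : Stp d, zc f (v + sv σ) v c / (q * al f (v + sv σ)))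
    (ra d q * PP (ya c f) v)
  linarith

end Pool.Agent.LC
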