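import Pool.Agent.Lib_MP_2c424f_lc1.Defs
import Pool.Agent.Lib_MP_2c424f_thr.N1

/-!
# LC1 T2: rare sites and rare triples, elementary rules

* `SRK.mono`, `SRK.le`, `SRK.or`: `WOP.mono`, `WOP.and`; `2 N/d^(K+1) ≤ N/d^K` for `d ≥ 2`.
* `SRK.nb`: `#{v : ∃ σ, B (v+σ)} ≤ 2d #{v : B v}` (translation), `2d/d^2 ≤ 1`.
* `SRK.avgs`: Markov: `#{v : x < PP^[s] g v} ≤ (∑ g)/x` (`PPt_total`), `g` the indicator; union over `s ≤ S` (`S + 1 ≤ d`).
* `TRK_of_SRK`, `SRK_of_TRK`: for a site `x` and a bit vector `b` there is exactly one `(t,a)` with `pt t a b = x` (THR B7a `pt_tb`, `tb_pt`,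
  or `LO.sum_pt`), so `#{p : B (tp p)} = 2^d #{x : B x}`; `NN d (k+1) = 2^d NN d k`.  In `SRK_of_TRK` the statement for `k + 1`, `k` large,
  gives the statement for all large `k`.
* `TRK_blk`: every block has `4^d` triples.
-/

set_option autoImplicit false

open Finset Filter

namespace Pool.Agent.LC

open Pool.Agent.LO Pool.Agent.LIN Pool.Agent.THR Pool.Agent.COR

private theorem T2_cn {α : Type} [Fintype α] (P : α → Prop) : cn P = ∑ x, ind (P x) := by
  classical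
  unfold cn ind
  rw [Finset.sum_boole]

private theorem T2_ind0 (P : Prop) : 0 ≤ ind P := by
  unfold ind
  split_ifs <;> norm_num

private theorem T2_ind_mono {P Q : Prop} (h : P → Q) : ind P ≤ ind Q := by
  unfold ind
  by_cases hP : P
  · rw [if_pos hP, if_pos (h hP)]
  · rw [if_neg hP]
    split_ifs <;> norm_num

private theorem T2_mono {α : Type} [Fintype α] {P Q : α → Prop} (h : ∀ x, P x → Q x) : cn P ≤ cn Q := by
  rw [T2_cn, T2_cn]
  exact Finset.sum_le_sum fun x _ => T2_ind_mono (h x)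

private theorem T2_or {α : Type} [Fintype α] (P Q : α → Prop) : cn (fun x => P x ∨ Q x) ≤ cn P + cn Q := by
  rw [T2_cn, T2_cn, T2_cn, ← Finset.sum_add_distrib]
  refine Finset.sum_le_sum fun x _ => ?_
  unfold ind
  by_cases hP : P x <;> by_cases hQ : Q x <;> simp [hP, hQ]

private theorem T2_ex {α ι : Type} [Fintype α] (S : Finset ι) (P : ι → α → Prop) :
    cn (fun x => ∃ i ∈ S, P i x) ≤ ∑ i ∈ S, cn (P i) := by
  classical
  have h1 : ∑ i ∈ S, cn (P i) = ∑ x, ∑ i ∈ S, ind (P i x) := by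
    rw [Finset.sum_comm]
    exact Finset.sum_congr rfl fun i _ => T2_cn _
  rw [T2_cn, h1]
  refine Finset.sum_le_sum fun x _ => ?_
  by_cases h : ∃ i ∈ S, P i x
  · obtain ⟨i, hi, hx⟩ := h
    calc ind (∃ i ∈ S, P i x) ≤ 1 := by
          unfold ind
          split_ifs <;> norm_num
      _ = ind (P i x) := by
          unfold ind
          rw [if_pos hx]
      _ ≤ ∑ i ∈ S, ind (P i x) :=
          Finset.single_le_sum (f := fun i => ind (P i x)) (fun i _ => T2_ind0 _) hi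
  · have h2 : ind (∃ i ∈ S, P i x) = 0 := by
      unfold ind
      rw [if_neg h]
    rw [h2]
    exact Finset.sum_nonneg fun i _ => T2_ind0 _

private theorem T2_NN (d k : ℕ) : 0 ≤ NN d k := by
  unfold NN
  positivity

private theorem T2_pow {d K K' : ℕ} (hd : 1 ≤ d) (hK : K' ≤ K) (N : ℝ) (hN : 0 ≤ N) :
    N / (d : ℝ) ^ K ≤ N / (d : ℝ) ^ K' := by
  have hd1 : (1 : ℝ) ≤ d := by exact_mod_cast hd
  exact div_le_div_of_nonneg_left hN (by positivity) (pow_le_pow_right₀ hd1 hK)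

private theorem T2_two {d K : ℕ} (hd : 2 ≤ d) (N : ℝ) (hN : 0 ≤ N) :
    N / (d : ℝ) ^ (K + 1) + N / (d : ℝ) ^ (K + 1) ≤ N / (d : ℝ) ^ K := by
  have hd1 : (2 : ℝ) ≤ d := by exact_mod_cast hd
  have h0 : (0 : ℝ) < (d : ℝ) ^ K := by positivity
  rw [← two_mul, ← mul_div_assoc, div_le_div_iff₀ (by positivity) h0, pow_succ]
  have h1 : 0 ≤ N * (d : ℝ) ^ K := by positivity
  nlinarith

private theorem T2_shift {d k : ℕ} (P : Site d k → Prop) (τ : Site d k) :
    cn (fun v => P (v + τ)) = cn P := by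
  rw [T2_cn, T2_cn]
  exact Equiv.sum_comp (Equiv.addRight τ) (fun v => ind (P v))

private theorem T2_nb {d k : ℕ} (P : Site d k → Prop) :
    cn (fun v => ∃ σ : Stp d, P (v + sv σ)) ≤ 2 * d * cn P := by
  have h1 : cn (fun v : Site d k => ∃ σ : Stp d, P (v + sv σ)) ≤
      cn (fun v : Site d k => ∃ σ ∈ (univ : Finset (Stp d)), P (v + sv σ)) :=
    T2_mono fun v ⟨σ, h⟩ => ⟨σ, Finset.mem_univ σ, h⟩
  refine h1.trans ((T2_ex _ _).trans ?_)
  rw [Finset.sum_congr rfl fun σ _ => T2_shift P (sv σ), Finset.sum_const, Finset.card_univ,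
    nsmul_eq_mul]
  have h2 : Fintype.card (Stp d) = d * 2 := by simp
  rw [h2]
  push_cast
  rw [mul_comm (d : ℝ) 2]

private theorem T2_markov {α : Type} [Fintype α] (φ : α → ℝ) (hφ : ∀ v, 0 ≤ φ v) (x : ℝ) :
    x * cn (fun v => x < φ v) ≤ ∑ v, φ v := by
  rw [T2_cn, Finset.mul_sum]
  refine Finset.sum_le_sum fun v _ => ?_
  unfold ind
  split_ifs with h
  · rw [mul_one]
    exact h.le
  · rw [mul_zero]
    exact hφ v

private theorem T2_avg {d k : ℕ} (hd : 1 ≤ d) (P : Site d k → Prop) (s : ℕ) (x : ℝ) :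
    x * cn (fun v => x < PP^[s] (fun u => ind (P u)) v) ≤ cn P := by
  have h0 : ∀ v : Site d k, 0 ≤ PP^[s] (fun u => ind (P u)) v := by
    intro v
    have h1 := PPt_mono s (g := fun _ : Site d k => (0 : ℝ)) (h := fun u => ind (P u))
      (fun u => T2_ind0 _) v
    rwa [PPt_const hd s 0 v] at h1
  have h2 := T2_markov (fun v : Site d k => PP^[s] (fun u => ind (P u)) v) h0 x
  rw [PPt_total hd s, ← T2_cn] at h2
  exact h2

private theorem T2_tp {d k : ℕ} (P : Site d (k + 1) → Prop) :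
    cn (fun p : Tpl d k => P (tp p)) = 2 ^ d * cn P := by
  have h1 := sum_pt (d := d) (k := k) (fun x _ => ind (P x))
  rw [T2_cn, T2_cn]
  have h2 : ∑ p : Tpl d k, ind (P (tp p)) =
      ∑ t : Blk d k, ∑ a : Bt d, ∑ b : Bt d, ind (P (pt t a b)) := by
    rw [Fintype.sum_prod_type]
    refine Finset.sum_congr rfl fun t _ => ?_
    rw [Fintype.sum_prod_type]
    rfl
  rw [h2, h1, Finset.mul_sum]
  refine Finset.sum_congr rfl fun x _ => ?_
  rw [Finset.sum_const, Finset.card_univ, nsmul_eq_mul]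
  have h3 : Fintype.card (Bt d) = 2 ^ d := by simp
  rw [h3]
  push_cast
  rfl

private theorem T2_bl {d k : ℕ} (P : Blk d k → Prop) :
    cn (fun p : Tpl d k => P p.1) = 4 ^ d * cn P := by
  rw [T2_cn, T2_cn]
  have h2 : ∑ p : Tpl d k, ind (P p.1) = ∑ t : Blk d k, ∑ _q : Bt d × Bt d, ind (P t) := by
    rw [Fintype.sum_prod_type]
  rw [h2, Finset.mul_sum]
  refine Finset.sum_congr rfl fun t _ => ?_
  rw [Finset.sum_const, Finset.card_univ, nsmul_eq_mul]
  have h3 : Fintype.card (Bt d × Bt d) = 4 ^ d := by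
    rw [Fintype.card_prod]
    have h4 : Fintype.card (Bt d) = 2 ^ d := by simp
    rw [h4, ← mul_pow]
    norm_num
  rw [h3]
  push_cast
  rfl

theorem SRK.mono {K : ℕ} {B B' : ∀ d k q : ℕ, (Site d k → Fin q) → Site d k → Prop} (h : SRK K B)
    (hB : EvT e3 fun d k q => Rg d q → ∀ f ∈ prps d k q, ∀ v, B' d k q f v → B d k q f v) : SRK K B' := by
  refine WOP.mono h (hB.mono fun d k q hd f hf h1 hR => ?_)
  exact (T2_mono fun v => hd hR f hf v).trans (h1 hR)

theorem SRK.le {K K' : ℕ} (hK : K' ≤ K) {B : ∀ d k q : ℕ, (Site d k → Fin q) → Site d k → Prop} (h : SRK K B) : SRK K' B := by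
  refine WOP.mono h ((EvT_d (eventually_ge_atTop 1)).mono fun d k q hd f hf h1 hR => ?_)
  exact (h1 hR).trans (T2_pow hd hK _ (T2_NN d k))

theorem SRK.or {K : ℕ} {B B' : ∀ d k q : ℕ, (Site d k → Fin q) → Site d k → Prop} (h : SRK (K + 1) B) (h' : SRK (K + 1) B') :
    SRK K fun d k q f v => B d k q f v ∨ B' d k q f v := by
  refine WOP.mono (WOP.and h h') ((EvT_d (eventually_ge_atTop 2)).mono fun d k q hd f hf h1 hR => ?_)
  refine (T2_or _ _).trans ((add_le_add (h1.1 hR) (h1.2 hR)).trans ?_)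
  exact T2_two hd _ (T2_NN d k)

theorem SRK.nb {K : ℕ} {B : ∀ d k q : ℕ, (Site d k → Fin q) → Site d k → Prop} (h : SRK (K + 2) B) :
    SRK K fun d k q f v => ∃ σ : Stp d, B d k q f (v + sv σ) := by
  refine WOP.mono h ((EvT_d (eventually_ge_atTop 2)).mono fun d k q hd f hf h1 hR => ?_)
  refine (T2_nb _).trans ?_
  have hd1 : (2 : ℝ) ≤ d := by exact_mod_cast hd
  refine (mul_le_mul_of_nonneg_left (h1 hR) (by positivity)).trans ?_
  have h0 : (0 : ℝ) < (d : ℝ) ^ K := by positivity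
  have hN := T2_NN d k
  rw [← mul_div_assoc, div_le_div_iff₀ (by positivity) h0, pow_add]
  have h2 : 0 ≤ NN d k * (d : ℝ) ^ K := by positivity
  have h3 : (2 * d : ℝ) ≤ (d : ℝ) ^ 2 := by nlinarith
  nlinarith [mul_le_mul_of_nonneg_left h3 h2]

theorem SRK.avgs {K K' : ℕ} {B : ∀ d k q : ℕ, (Site d k → Fin q) → Site d k → Prop} (h : SRK (K + K' + 1) B) (S : ℕ) :
    SRK K fun d k q f v => ∃ s ≤ S, 1 / (d : ℝ) ^ K' < PP^[s] (fun u => ind (B d k q f u)) v := by
  refine WOP.mono h ((EvT_d (eventually_ge_atTop (S + 1))).mono fun d k q hd f hf h1 hR => ?_)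
  have hd0 : 1 ≤ d := by omega
  have hd1 : (1 : ℝ) ≤ d := by exact_mod_cast hd0
  have hdS : ((S + 1 : ℕ) : ℝ) ≤ d := by exact_mod_cast hd
  have hN := T2_NN d k
  have h2 : cn (fun v : Site d k => ∃ s ≤ S, 1 / (d : ℝ) ^ K' < PP^[s] (fun u => ind (B d k q f u)) v) ≤
      ∑ s ∈ Finset.range (S + 1), cn (fun v : Site d k => 1 / (d : ℝ) ^ K' <
        PP^[s] (fun u => ind (B d k q f u)) v) := by
    refine le_trans (T2_mono fun v => ?_) (T2_ex (Finset.range (S + 1)) fun s (v : Site d k) =>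
      1 / (d : ℝ) ^ K' < PP^[s] (fun u => ind (B d k q f u)) v)
    rintro ⟨s, hs, h3⟩
    exact ⟨s, Finset.mem_range.2 (by omega), h3⟩
  refine h2.trans ?_
  have h3 : ∀ s ∈ Finset.range (S + 1), cn (fun v : Site d k => 1 / (d : ℝ) ^ K' <
      PP^[s] (fun u => ind (B d k q f u)) v) ≤ (d : ℝ) ^ K' * (NN d k / (d : ℝ) ^ (K + K' + 1)) := by
    intro s _
    have h4 := T2_avg hd0 (B d k q f) s (1 / (d : ℝ) ^ K')
    have h5 := h4.trans (h1 hR)
    rw [div_mul_eq_mul_div, one_mul, div_le_iff₀ (by positivity)] at h5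
    rw [mul_comm]
    exact h5
  refine (Finset.sum_le_sum h3).trans ?_
  rw [Finset.sum_const, Finset.card_range, nsmul_eq_mul]
  have h0 : (0 : ℝ) < (d : ℝ) ^ K := by positivity
  have h6 : ((S + 1 : ℕ) : ℝ) * ((d : ℝ) ^ K' * (NN d k / (d : ℝ) ^ (K + K' + 1))) =
      ((S + 1 : ℕ) : ℝ) / d * (NN d k / (d : ℝ) ^ K) := by
    rw [pow_succ, pow_add]
    field_simp
  rw [h6]
  have h7 : ((S + 1 : ℕ) : ℝ) / d ≤ 1 := by
    rw [div_le_one (by positivity)]
    exact hdS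
  have h8 : 0 ≤ NN d k / (d : ℝ) ^ K := by positivity
  nlinarith

theorem SR.mono {B B' : ∀ d k q : ℕ, (Site d k → Fin q) → Site d k → Prop} (h : SR B)
    (hB : EvT e3 fun d k q => Rg d q → ∀ f ∈ prps d k q, ∀ v, B' d k q f v → B d k q f v) : SR B' := by
  exact fun K => (h K).mono hB

theorem SR.or {B B' : ∀ d k q : ℕ, (Site d k → Fin q) → Site d k → Prop} (h : SR B) (h' : SR B') :
    SR fun d k q f v => B d k q f v ∨ B' d k q f v := by
  exact fun K => (h (K + 1)).or (h' (K + 1))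

theorem SR.nb {B : ∀ d k q : ℕ, (Site d k → Fin q) → Site d k → Prop} (h : SR B) :
    SR fun d k q f v => ∃ σ : Stp d, B d k q f (v + sv σ) := by
  exact fun K => (h (K + 2)).nb

theorem SR.avgs {B : ∀ d k q : ℕ, (Site d k → Fin q) → Site d k → Prop} (h : SR B) (K' S : ℕ) :
    SR fun d k q f v => ∃ s ≤ S, 1 / (d : ℝ) ^ K' < PP^[s] (fun u => ind (B d k q f u)) v := by
  exact fun K => (h (K + K' + 1)).avgs S

theorem TRK.mono {K : ℕ} {B B' : ∀ d k q : ℕ, (Site d (k + 1) → Fin q) → Tpl d k → Prop} (h : TRK K B)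
    (hB : EvT e3 fun d k q => Rg d q → ∀ f ∈ prps d (k + 1) q, ∀ p, B' d k q f p → B d k q f p) : TRK K B' := by
  refine WOPb.mono h (hB.mono fun d k q hd f hf h1 hR => ?_)
  exact (T2_mono fun v => hd hR f hf v).trans (h1 hR)

theorem TRK.le {K K' : ℕ} (hK : K' ≤ K) {B : ∀ d k q : ℕ, (Site d (k + 1) → Fin q) → Tpl d k → Prop} (h : TRK K B) : TRK K' B := by
  refine WOPb.mono h ((EvT_d (eventually_ge_atTop 1)).mono fun d k q hd f hf h1 hR => ?_)
  exact (h1 hR).trans (T2_pow hd hK _ (mul_nonneg (by positivity) (T2_NN d k)))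

theorem TRK.or {K : ℕ} {B B' : ∀ d k q : ℕ, (Site d (k + 1) → Fin q) → Tpl d k → Prop} (h : TRK (K + 1) B) (h' : TRK (K + 1) B') :
    TRK K fun d k q f p => B d k q f p ∨ B' d k q f p := by
  refine WOPb.mono (WOPb.and h h') ((EvT_d (eventually_ge_atTop 2)).mono fun d k q hd f hf h1 hR => ?_)
  refine (T2_or _ _).trans ((add_le_add (h1.1 hR) (h1.2 hR)).trans ?_)
  exact T2_two hd _ (mul_nonneg (by positivity) (T2_NN d k))

theorem TRK_of_SRK {K : ℕ} {B : ∀ d k q : ℕ, (Site d k → Fin q) → Site d k → Prop} (h : SRK K B) :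
    TRK K fun d k q f p => B d (k + 1) q f (tp p) := by
  refine WOPb.mono (WOP.blk h) ((EvT_d (eventually_ge_atTop 1)).mono fun d k q hd f hf h1 hR => ?_)
  rw [T2_tp]
  refine (mul_le_mul_of_nonneg_left (h1 hR) (by positivity)).trans_eq ?_
  have h4 : (4 : ℝ) ^ d = 2 ^ d * 2 ^ d := by
    rw [← mul_pow]
    norm_num
  rw [NN_succ, h4]
  ring

theorem SRK_of_TRK {K : ℕ} {B : ∀ d k q : ℕ, (Site d k → Fin q) → Site d k → Prop}
    (h : TRK K fun d k q f p => B d (k + 1) q f (tp p)) : SRK K B := by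
  obtain ⟨C, d₀, hC⟩ := h
  refine ⟨C, d₀, fun d q hd h1 h2 => ?_⟩
  obtain ⟨k₀, hk₀⟩ := eventually_atTop.1 (hC d q hd h1 h2)
  refine eventually_atTop.2 ⟨k₀ + 1, fun k hk => ?_⟩
  obtain ⟨m, rfl⟩ : ∃ m, k = m + 1 := ⟨k - 1, by omega⟩
  refine (hk₀ m (by omega)).mono fun f _ hn hn' => hn fun hR => ?_
  have h3 := hn' hR
  rw [T2_tp] at h3
  have h4 : (4 : ℝ) ^ d = 2 ^ d * 2 ^ d := by
    rw [← mul_pow]
    norm_num
  have h5 : (4 : ℝ) ^ d * NN d m / (d : ℝ) ^ K = 2 ^ d * (NN d (m + 1) / (d : ℝ) ^ K) := by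
    rw [NN_succ, h4]
    ring
  rw [h5] at h3
  exact le_of_mul_le_mul_left h3 (by positivity)

theorem TRK_blk {K : ℕ} {B : ∀ d k q : ℕ, (Site d (k + 1) → Fin q) → Blk d k → Prop}
    (h : WOPb e3 fun d k q f => Rg d q → cn (B d k q f) ≤ NN d k / (d : ℝ) ^ K) : TRK K fun d k q f p => B d k q f p.1 := by
  refine WOPb.mono h ((EvT_d (eventually_ge_atTop 1)).mono fun d k q hd f hf h1 hR => ?_)
  rw [T2_bl]
  refine (mul_le_mul_of_nonneg_left (h1 hR) (by positivity)).trans_eq ?_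
  ring

end Pool.Agent.LC
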