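import Pool.Agent.Lib_MP_2c424f_lc1.T1
import Pool.Agent.Lib_MP_2c424f_lc1.T2

/-!
# LC1 T3: local rarity

`v` runs through the class `b`; one resamples the class `rcl o b` (`b` if `o`, `!b` otherwise).
`R` is a property which does not change under this resampling and fails rarely; on `R` the conditional probability of `B` is at most `d^(-K)`,
every `K`; `B`, `R` depend on the colours within distance `r`.  Then `B` is rare.

Proof.  `Ψ_b f := #{v ∈ cls b : B f v ∧ R f v}`.  Changing `f` at one site `u` affects only the `v` with `nr r v u` (`nr_symm`, `nr_card`): `Lip (rcl o b) (d^κ)` with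
`(2d+1)^r ≤ d^κ`, `κ = 2r` (`d ≥ 3`).  `WOPi_tail` (index `b`, level `K+2`): `Ψ_b f ≤ fm (rcl o b) Ψ_b f + N/d^(K+2)`; `fm (rcl o b) Ψ_b f = ∑_{v ∈ cls b} fm (rcl o b) 1[B ∧ R] f
≤ N/d^(K+2)`: for `v` with `R f v` by `hp`; otherwise all `h` in the fibre have `¬ R h v` and the mean is `0`.  Sum over `b`, plus `#{¬ R}`.
-/

set_option autoImplicit false

open Finset Filter

namespace Pool.Agent.LC

open Pool.Agent.LO Pool.Agent.LIN Pool.Agent.THR Pool.Agent.COR

/-- the resampled class -/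
def rcl (o b : Bool) : Bool := if o then b else !b

/-- number of the bad sites of the class `b` -/
private noncomputable def T3_Psi {d k q : ℕ} (B R : (Site d k → Fin q) → Site d k → Prop) (b : Bool)
    (f : Site d k → Fin q) : ℝ := ∑ v ∈ cls b d k, ind (B f v ∧ R f v)

private theorem T3_ind_nonneg (P : Prop) : 0 ≤ ind P := by
  unfold ind
  split_ifs <;> norm_num

private theorem T3_ind_le_one (P : Prop) : ind P ≤ 1 := by
  unfold ind
  split_ifs <;> norm_num

private theorem T3_ind_mono {P Q : Prop} (h : P → Q) : ind P ≤ ind Q := by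
  unfold ind
  split_ifs with h1 h2
  · exact le_refl _
  · exact absurd (h h1) h2
  · norm_num
  · exact le_refl _

private theorem T3_ind_false {P : Prop} (h : ¬ P) : ind P = 0 := by
  unfold ind
  rw [if_neg h]

private theorem T3_ind_true {P : Prop} (h : P) : ind P = 1 := by
  unfold ind
  rw [if_pos h]

private theorem T3_ind_congr {P Q : Prop} (h : P ↔ Q) : ind P = ind Q := by
  rw [propext h]

private theorem T3_cn {α : Type} [Fintype α] (P : α → Prop) : cn P = ∑ v, ind (P v) := by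
  classical
  unfold cn ind
  rw [Finset.sum_ite]
  simp

private theorem T3_lip {d k q r : ℕ} (hd : 3 ≤ d) (B R : (Site d k → Fin q) → Site d k → Prop)
    (lR : ∀ (f g : Site d k → Fin q) (v : Site d k), (∀ u, nr r v u → f u = g u) → (R f v ↔ R g v))
    (lB : ∀ (f g : Site d k → Fin q) (v : Site d k), (∀ u, nr r v u → f u = g u) → (B f v ↔ B g v))
    (b b' : Bool) : Lip b' ((d : ℝ) ^ (2 * r)) (T3_Psi B R b) := by
  intro f _ h _ v _ γ _
  unfold T3_Psi
  rw [← Finset.sum_sub_distrib]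
  have h1 : ∀ w : Site d k, |ind (B (Function.update h v γ) w ∧ R (Function.update h v γ) w) - ind (B h w ∧ R h w)| ≤
      ind (nr r v w) := by
    intro w
    by_cases hw : nr r v w
    · rw [T3_ind_true hw, abs_le]
      have a1 := T3_ind_nonneg (B (Function.update h v γ) w ∧ R (Function.update h v γ) w)
      have a2 := T3_ind_le_one (B (Function.update h v γ) w ∧ R (Function.update h v γ) w)
      have a3 := T3_ind_nonneg (B h w ∧ R h w)
      have a4 := T3_ind_le_one (B h w ∧ R h w)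
      constructor <;> linarith
    · have h2 : ∀ u, nr r w u → Function.update h v γ u = h u := by
        intro u hu
        have h3 : u ≠ v := by
          rintro rfl
          exact hw (nr_symm hu)
        exact Function.update_of_ne h3 _ _
      rw [T3_ind_congr (and_congr (lB _ _ w h2) (lR _ _ w h2)), sub_self, abs_zero]
      exact T3_ind_nonneg _
  calc |∑ w ∈ cls b d k, (ind (B (Function.update h v γ) w ∧ R (Function.update h v γ) w) - ind (B h w ∧ R h w))|
      ≤ ∑ w ∈ cls b d k, |ind (B (Function.update h v γ) w ∧ R (Function.update h v γ) w) - ind (B h w ∧ R h w)| :=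
        Finset.abs_sum_le_sum_abs _ _
    _ ≤ ∑ w ∈ cls b d k, ind (nr r v w) := Finset.sum_le_sum fun w _ => h1 w
    _ ≤ ∑ w, ind (nr r v w) :=
        Finset.sum_le_sum_of_subset_of_nonneg (Finset.subset_univ _) fun w _ _ => T3_ind_nonneg _
    _ = cn (nr r v) := (T3_cn _).symm
    _ ≤ (2 * (d : ℝ) + 1) ^ r := nr_card r v
    _ ≤ ((d : ℝ) ^ 2) ^ r := by
        have hd' : (3 : ℝ) ≤ d := by exact_mod_cast hd
        have h4 : 2 * (d : ℝ) + 1 ≤ (d : ℝ) ^ 2 := by nlinarith
        exact pow_le_pow_left₀ (by positivity) h4 r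
    _ = (d : ℝ) ^ (2 * r) := by rw [← pow_mul]

private theorem T3_fm {d k q : ℕ} (B R : (Site d k → Fin q) → Site d k → Prop) (b b' : Bool)
    (f : Site d k → Fin q) (x : ℝ) (hx : 0 ≤ x)
    (hm : ∀ v ∈ cls b d k, ∀ h ∈ fib b' f, (R h v ↔ R f v))
    (hp : ∀ v ∈ cls b d k, R f v → fm b' (fun h => ind (B h v)) f ≤ x) :
    fm b' (T3_Psi B R b) f ≤ ((cls b d k).card : ℝ) * x := by
  have h1 : fm b' (T3_Psi B R b) f = ∑ v ∈ cls b d k, fm b' (fun h => ind (B h v ∧ R h v)) f := by
    unfold fm T3_Psi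
    rw [Finset.sum_comm, Finset.sum_div]
  rw [h1, ← nsmul_eq_mul]
  refine Finset.sum_le_card_nsmul _ _ _ fun v hv => ?_
  by_cases hv' : R f v
  · refine le_trans ?_ (hp v hv hv')
    unfold fm
    refine div_le_div_of_nonneg_right ?_ (Nat.cast_nonneg _)
    exact Finset.sum_le_sum fun h _ => T3_ind_mono fun h => h.1
  · unfold fm
    rw [Finset.sum_eq_zero, zero_div]
    · exact hx
    · intro h hh
      exact T3_ind_false fun h2 => hv' ((hm v hv h hh).1 h2.2)

private theorem T3_cls (d k : ℕ) (φ : Site d k → ℝ) :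
    ∑ v, φ v = ∑ v ∈ cls true d k, φ v + ∑ v ∈ cls false d k, φ v := by
  classical
  have h1 := Finset.sum_filter_add_sum_filter_not (univ : Finset (Site d k)) (fun x => evn x) φ
  rw [← h1]
  rfl

private theorem T3_card (b : Bool) (d k : ℕ) : ((cls b d k).card : ℝ) ≤ NN d k := by
  have h1 : (cls b d k).card ≤ Fintype.card (Site d k) := Finset.card_le_univ _
  have h2 : Fintype.card (Site d k) = (2 ^ k) ^ d := by
    rw [Fintype.card_fun, ZMod.card, Fintype.card_fin]
  rw [h2] at h1
  unfold NN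
  exact_mod_cast h1

theorem SR_local (o : Bool) (r : ℕ) (R B : ∀ d k q : ℕ, (Site d k → Fin q) → Site d k → Prop)
    (hR : SR fun d k q f v => ¬ R d k q f v)
    (lR : ∀ (d k q : ℕ) (f g : Site d k → Fin q) (v : Site d k), (∀ u, nr r v u → f u = g u) → (R d k q f v ↔ R d k q g v))
    (lB : ∀ (d k q : ℕ) (f g : Site d k → Fin q) (v : Site d k), (∀ u, nr r v u → f u = g u) → (B d k q f v ↔ B d k q g v))
    (hm : EvT e3 fun d k q => Rg d q → ∀ f ∈ prps d k q, ∀ b, ∀ v ∈ cls b d k, ∀ h ∈ fib (rcl o b) f, (R d k q h v ↔ R d k q f v))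
    (hp : ∀ K : ℕ, EvT e3 fun d k q => Rg d q → ∀ f ∈ prps d k q, ∀ b, ∀ v ∈ cls b d k, R d k q f v →
      fm (rcl o b) (fun h => ind (B d k q h v)) f ≤ 1 / (d : ℝ) ^ K) : SR B := by
  intro K
  have he : (0 : ℝ) < e3 := by unfold e3; norm_num
  have he1 : e3 ≤ 1 := by unfold e3; norm_num
  have hL : EvT e3 fun d k q => ∀ i : Bool, Rg d q → Lip (rcl o i) ((d : ℝ) ^ (2 * r))
      (T3_Psi (B d k q) (R d k q) i) := by
    refine (EvT_d (eventually_ge_atTop 3)).mono fun d k q hd i _ => ?_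
    exact T3_lip hd (B d k q) (R d k q) (lR d k q) (lB d k q) i (rcl o i)
  have hT := WOPi_tail he he1 (fun _ _ _ => Bool) (fun _ _ _ i => rcl o i) (fun d _ q _ => Rg d q)
    (fun d k q i => T3_Psi (B d k q) (R d k q) i) (2 * r) (K + 2) hL
  have hT2 := WOPi.all hT (fun _ _ => 2) (fun _ _ _ => by simp)
  refine (hT2.and (hR (K + 1))).mono ?_
  refine ((hm.and (hp (K + 2))).and (EvT_d (eventually_ge_atTop 3))).mono ?_
  rintro d k q ⟨⟨h1, h2⟩, hd⟩ f hf ⟨h3, h4⟩ hRg
  have h1' := h1 hRg f hf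
  have h2' := h2 hRg f hf
  have h4' := h4 hRg
  have hd' : (3 : ℝ) ≤ d := by exact_mod_cast hd
  have hd0 : (0 : ℝ) < d := by linarith
  have hN : 0 ≤ NN d k := by unfold NN; positivity
  have hb : ∀ b : Bool, T3_Psi (B d k q) (R d k q) b f ≤ 2 * (NN d k / (d : ℝ) ^ (K + 2)) := by
    intro b
    have h5 := h3 b hRg
    have h6 := T3_fm (B d k q) (R d k q) b (rcl o b) f (1 / (d : ℝ) ^ (K + 2)) (by positivity) (h1' b) (h2' b)
    have h7 : ((cls b d k).card : ℝ) * (1 / (d : ℝ) ^ (K + 2)) ≤ NN d k / (d : ℝ) ^ (K + 2) := by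
      rw [mul_one_div]
      exact div_le_div_of_nonneg_right (T3_card b d k) (by positivity)
    linarith
  have h8 : cn (B d k q f) ≤ T3_Psi (B d k q) (R d k q) true f + T3_Psi (B d k q) (R d k q) false f +
      cn (fun v => ¬ R d k q f v) := by
    rw [T3_cn, T3_cn]
    unfold T3_Psi
    rw [← T3_cls, ← Finset.sum_add_distrib]
    refine Finset.sum_le_sum fun v _ => ?_
    by_cases hv : R d k q f v
    · have h9 : ind (B d k q f v) ≤ ind (B d k q f v ∧ R d k q f v) := T3_ind_mono fun h => ⟨h, hv⟩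
      have h10 := T3_ind_nonneg (¬ R d k q f v)
      linarith
    · have h9 := T3_ind_nonneg (B d k q f v ∧ R d k q f v)
      have h10 := T3_ind_le_one (B d k q f v)
      rw [T3_ind_true (P := ¬ R d k q f v) hv]
      linarith
  have h11 : 4 * (NN d k / (d : ℝ) ^ (K + 2)) + NN d k / (d : ℝ) ^ (K + 1) ≤ NN d k / (d : ℝ) ^ K := by
    have h12 : 4 * (NN d k / (d : ℝ) ^ (K + 2)) + NN d k / (d : ℝ) ^ (K + 1) =
        NN d k / (d : ℝ) ^ K * (4 / (d : ℝ) ^ 2 + 1 / d) := by
      field_simp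
      ring
    rw [h12]
    have h13 : 4 / (d : ℝ) ^ 2 + 1 / d ≤ 1 := by
      rw [div_add_div _ _ (by positivity) (by positivity), div_le_one (by positivity)]
      nlinarith
    have h14 : 0 ≤ NN d k / (d : ℝ) ^ K := by positivity
    nlinarith
  have h15 := hb true
  have h16 := hb false
  have h17 : cn (fun v => ¬ R d k q f v) ≤ NN d k / (d : ℝ) ^ (K + 1) := h4'
  linarith

end Pool.Agent.LC
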