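import Pool.Agent.Lib_MP_2c424f_lc1.C1
import Pool.Agent.Lib_MP_2c424f_thr.N1a
import Pool.Agent.Lib_MP_2c424f_thr.N1
import Pool.Agent.Lib_MP_2c424f_thr.T2
import Pool.Agent.Lib_MP_2c424f_thr.M1
import Pool.Agent.Lib_MP_2c424f_lin.L7a
import Pool.Agent.Lib_MP_2c424f_lin.L7c
import Pool.Agent.Lib_MP_2c424f_lc1.T3
import Pool.Agent.Lib_MP_2c424f_lc1.T4

/-!
# LC1 C4: averages of `gg` and `ya`

`PP^[s] |gg - zz/al| v`: at regular sites with `|av/q - al| ≤ δ'` at most `δ' e^a/c1`, elsewhere at most `q + e^a`: `SR.avgs` (with `K' = 2`) for the exceptional sites.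
`PP^[s] |zt/al - ya| v`: `zt_exp` at sites with regular neighbours (`≤ C/q`), elsewhere `≤ e^a`: `SR.avgs`.
`X := PP^[s] ((zz - zt)/al) v`: `v ∈ cls b`.  The averaged sites `u` are in the class `b` (`s` even) or `!b` (`s` odd); resample the other class `β'` (`o = false` for `s` even, `o = true` for `s` odd);
`zt`, `al` at the sites `u` do not change, `fm (zz f u c) = zt f u c` (LIN `fm_zt` or so, `fm_prod`), so the mean of `X` is `0`.  A site `w ∈ β'` changes `X` by at most `c_w = ∑_{u ~ w} Kt s v u e^a`; `c_w ≤ 2d e^a sup Kt`,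
`∑_w c_w ≤ 2d e^a`, so `∑ c_w² ≤ 4d² e^{2a} sup Kt ≤ C d^(-7)` (`Kt_sup` for `2⌊s/2⌋`, `Kt_succ_le`, `s ≥ 20`).  `fm_mcd`.  `SR_local`, radius `s + 2`, `R = True`.
-/

set_option autoImplicit false

open Finset Filter

namespace Pool.Agent.LC

open Pool.Agent.LO Pool.Agent.LIN Pool.Agent.THR Pool.Agent.COR

section aux
variable {d k q : ℕ}

/-- the centred part -/
private noncomputable def C4_X (c : Fin q) (f : Site d k → Fin q) (u : Site d k) : ℝ :=
  (zz f u c - zt f u c) / al f u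

private theorem C4_upd (b : Bool) {f h : Site d k → Fin q} (hh : h ∈ fib b f) (v : Site d k)
    (hv : v ∈ cls b d k) (γ : Fin q) (hγ : γ ∉ SS f v) : Function.update h v γ ∈ fib b f := by
  classical
  unfold fib at hh ⊢
  rw [Fintype.mem_piFinset] at hh ⊢
  intro x
  by_cases hx : x = v
  · subst hx
    rw [Function.update_self, if_pos hv]
    exact mem_compl.2 hγ
  · rw [Function.update_of_ne hx]
    exact hh x

private theorem C4_prp {f : Site d k → Fin q} (hf : f ∈ prps d k q) : Prp f := by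
  classical
  exact (Finset.mem_filter.1 hf).2

private theorem C4_zz01 (f : Site d k → Fin q) (x : Site d k) (c : Fin q) : 0 ≤ zz f x c ∧ zz f x c ≤ 1 := by
  unfold zz
  split_ifs <;> norm_num

private theorem C4_on_fib (hk : 2 ≤ k) (b : Bool) {f h : Site d k → Fin q} (hh : h ∈ fib (!b) f) (u : Site d k)
    (hu : u ∈ cls b d k) (c : Fin q) : C4_X c h u = (1 / al f u) * (zz h u c - zt f u c) := by
  unfold C4_X
  rw [zt_fib hk b hh u hu c, (loc_fib hk b hh u hu c).2.1]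
  ring

private theorem C4_mean1 (hk : 2 ≤ k) (b : Bool) {f : Site d k → Fin q} (hf : Prp f) (u : Site d k)
    (hu : u ∈ cls b d k) (c : Fin q) : fm (!b) (fun h => C4_X c h u) f = 0 := by
  have h1 : fm (!b) (fun h => C4_X c h u) f = fm (!b) (fun h => (1 / al f u) * (zz h u c - zt f u c)) f :=
    fm_congr (!b) fun h hh => C4_on_fib hk b hh u hu c
  rw [h1, fm_mul, fm_sub, fm_zz hk b hf u hu c, fm_const (!b) hf]
  ring

private theorem C4_mean (hk : 2 ≤ k) (b : Bool) {f : Site d k → Fin q} (hf : Prp f) (t : ℕ) (v : Site d k)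
    (h0 : ∀ y : Site d k, y ∉ cls b d k → Kt t v y = 0) (c : Fin q) :
    fm (!b) (fun h => PP^[t] (C4_X c h) v) f = 0 := by
  have h1 : (fun h : Site d k → Fin q => PP^[t] (C4_X c h) v) = fun h => ∑ y, Kt t v y * C4_X c h y :=
    funext fun h => Kt_repr t _ v
  rw [h1, fm_sum]
  refine Finset.sum_eq_zero fun y _ => ?_
  rw [fm_mul]
  by_cases hy : y ∈ cls b d k
  · rw [C4_mean1 hk b hf y hy c, mul_zero]
  · rw [h0 y hy, zero_mul]

private theorem C4_inv {f : Site d k → Fin q} (hq : 1 ≤ q) (hf : Prp f) (y : Site d k) :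
    0 < al f y ∧ 1 / al f y ≤ Real.exp (ra d q) := by
  have hal := al_ge hq hf y
  have hal0 : 0 < al f y := (Real.exp_pos _).trans_le hal
  refine ⟨hal0, ?_⟩
  rw [div_le_iff₀ hal0]
  calc (1 : ℝ) = Real.exp (ra d q) * Real.exp (-ra d q) := by rw [← Real.exp_add]; simp
    _ ≤ _ := mul_le_mul_of_nonneg_left hal (Real.exp_pos _).le

private theorem C4_diff (hk : 2 ≤ k) (hq : 1 ≤ q) (b : Bool) {f h : Site d k → Fin q} (hf : Prp f)
    (hh : h ∈ fib (!b) f) (w : Site d k) (hw : w ∈ cls (!b) d k) (γ : Fin q) (hγ : γ ∉ SS f w) (c : Fin q)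
    (y : Site d k) (hy : y ∈ cls b d k) :
    |C4_X c (Function.update h w γ) y - C4_X c h y| ≤
      Real.exp (ra d q) * ∑ σ : Stp d, (if w + sv σ = y then (1 : ℝ) else 0) := by
  have h1 := C4_upd (!b) hh w hw γ hγ
  rw [C4_on_fib hk b h1 y hy c, C4_on_fib hk b hh y hy c]
  obtain ⟨hal0, hE⟩ := C4_inv hq hf y
  have h2 : 1 / al f y * (zz (Function.update h w γ) y c - zt f y c) - 1 / al f y * (zz h y c - zt f y c) =
      1 / al f y * (zz (Function.update h w γ) y c - zz h y c) := by ring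
  rw [h2, abs_mul, abs_of_nonneg (by positivity : (0 : ℝ) ≤ 1 / al f y)]
  refine mul_le_mul hE ?_ (abs_nonneg _) (Real.exp_pos _).le
  by_cases hn : ∃ σ : Stp d, w + sv σ = y
  · obtain ⟨σ, hσ⟩ := hn
    have h3 : (1 : ℝ) ≤ ∑ σ : Stp d, (if w + sv σ = y then (1 : ℝ) else 0) := by
      have h4 := Finset.single_le_sum (f := fun σ : Stp d => if w + sv σ = y then (1 : ℝ) else 0)
        (fun σ _ => by split_ifs <;> norm_num) (Finset.mem_univ σ)
      have h5 : (if w + sv σ = y then (1 : ℝ) else 0) = 1 := if_pos hσ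
      exact (le_of_eq h5.symm).trans h4
    refine le_trans ?_ h3
    have a1 := C4_zz01 (Function.update h w γ) y c
    have a2 := C4_zz01 h y c
    rw [abs_le]
    constructor <;> linarith
  · have h3 : (fun σ : Stp d => Function.update h w γ (y + sv σ)) = fun σ => h (y + sv σ) := by
      funext σ
      refine Function.update_of_ne ?_ _ _
      intro hc
      refine hn ⟨(σ.1, !σ.2), ?_⟩
      rw [← hc, add_assoc, show (sv σ : Site d k) + sv (σ.1, !σ.2) = 0 from sv_opp σ.1 σ.2, add_zero]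
    have h4 : SS (Function.update h w γ) y = SS h y := by
      unfold SS
      rw [h3]
    have h5 : zz (Function.update h w γ) y c = zz h y c := by
      unfold zz
      rw [h4]
    rw [h5, sub_self, abs_zero]
    exact Finset.sum_nonneg fun σ _ => by split_ifs <;> norm_num

private theorem C4_lip (hk : 2 ≤ k) (hq : 1 ≤ q) (b : Bool) {f h : Site d k → Fin q} (hf : Prp f)
    (hh : h ∈ fib (!b) f) (w : Site d k) (hw : w ∈ cls (!b) d k) (γ : Fin q) (hγ : γ ∉ SS f w) (c : Fin q)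
    (t : ℕ) (v : Site d k) (h0 : ∀ y : Site d k, y ∉ cls b d k → Kt t v y = 0) :
    |PP^[t] (C4_X c (Function.update h w γ)) v - PP^[t] (C4_X c h) v| ≤
      Real.exp (ra d q) * ∑ σ : Stp d, Kt t v (w + sv σ) := by
  classical
  rw [Kt_repr, Kt_repr, ← Finset.sum_sub_distrib]
  refine (Finset.abs_sum_le_sum_abs _ _).trans ?_
  have h1 : ∀ y, |Kt t v y * C4_X c (Function.update h w γ) y - Kt t v y * C4_X c h y| ≤
      Real.exp (ra d q) * ∑ σ : Stp d, (if w + sv σ = y then Kt t v y else 0) := by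
    intro y
    rw [← mul_sub, abs_mul, abs_of_nonneg (Kt_nonneg _ _ _)]
    by_cases hy : y ∈ cls b d k
    · have h2 := C4_diff hk hq b hf hh w hw γ hγ c y hy
      refine (mul_le_mul_of_nonneg_left h2 (Kt_nonneg _ _ _)).trans (le_of_eq ?_)
      rw [mul_left_comm, Finset.mul_sum]
      congr 1
      refine Finset.sum_congr rfl fun σ _ => ?_
      split_ifs
      · rw [mul_one]
      · rw [mul_zero]
    · rw [h0 y hy, zero_mul]
      refine mul_nonneg (Real.exp_pos _).le (Finset.sum_nonneg fun σ _ => ?_)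
      split_ifs <;> exact le_rfl
  refine (Finset.sum_le_sum fun y _ => h1 y).trans (le_of_eq ?_)
  rw [← Finset.mul_sum, Finset.sum_comm]
  congr 1
  refine Finset.sum_congr rfl fun σ _ => ?_
  rw [Finset.sum_ite_eq, if_pos (Finset.mem_univ _)]

private theorem C4_card : (Fintype.card (Stp d) : ℝ) = 2 * d := by
  rw [Fintype.card_prod, Fintype.card_fin, Fintype.card_bool]
  push_cast
  ring

private theorem C4_s1 (t : ℕ) (v : Site d k) (κ : ℝ) (hκ : ∀ y, Kt t v y ≤ κ) (w : Site d k) :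
    0 ≤ ∑ σ : Stp d, Kt t v (w + sv σ) ∧ ∑ σ : Stp d, Kt t v (w + sv σ) ≤ 2 * d * κ := by
  refine ⟨Finset.sum_nonneg fun σ _ => Kt_nonneg _ _ _, ?_⟩
  have h1 := Finset.sum_le_card_nsmul (Finset.univ : Finset (Stp d)) (fun σ => Kt t v (w + sv σ)) κ
    (fun σ _ => hκ _)
  rw [nsmul_eq_mul, Finset.card_univ, C4_card] at h1
  exact h1

private theorem C4_s2 (hd : 1 ≤ d) (t : ℕ) (v : Site d k) :
    ∑ w : Site d k, ∑ σ : Stp d, Kt t v (w + sv σ) = 2 * d := by
  rw [Finset.sum_comm]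
  have h1 : ∀ σ : Stp d, ∑ w : Site d k, Kt t v (w + sv σ) = 1 := by
    intro σ
    rw [← Kt_one hd t v]
    exact Fintype.sum_equiv (Equiv.addRight (sv σ)) _ _ (fun _ => rfl)
  rw [Finset.sum_congr rfl fun σ _ => h1 σ, Finset.sum_const, nsmul_eq_mul, mul_one, Finset.card_univ, C4_card]

private theorem C4_sq (hd : 1 ≤ d) (t : ℕ) (v : Site d k) (κ : ℝ) (hκ : ∀ y, Kt t v y ≤ κ) (E : ℝ)
    (A : Finset (Site d k)) :
    ∑ w ∈ A, (E * ∑ σ : Stp d, Kt t v (w + sv σ)) ^ 2 ≤ 4 * (d : ℝ) ^ 2 * E ^ 2 * κ := by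
  calc ∑ w ∈ A, (E * ∑ σ : Stp d, Kt t v (w + sv σ)) ^ 2
      ≤ ∑ w : Site d k, (E * ∑ σ : Stp d, Kt t v (w + sv σ)) ^ 2 :=
        Finset.sum_le_sum_of_subset_of_nonneg (Finset.subset_univ _) fun w _ _ => sq_nonneg _
    _ ≤ ∑ w : Site d k, (E ^ 2 * (2 * d * κ)) * ∑ σ : Stp d, Kt t v (w + sv σ) := by
        refine Finset.sum_le_sum fun w _ => ?_
        obtain ⟨h1, h2⟩ := C4_s1 t v κ hκ w
        rw [mul_pow, sq (∑ σ : Stp d, Kt t v (w + sv σ)), ← mul_assoc]
        refine mul_le_mul_of_nonneg_right ?_ h1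
        exact mul_le_mul_of_nonneg_left h2 (sq_nonneg _)
    _ = 4 * (d : ℝ) ^ 2 * E ^ 2 * κ := by
        rw [← Finset.mul_sum, C4_s2 hd]
        ring

private theorem C4_kap (hd : 1 ≤ d) (t : ℕ) (ht : 20 ≤ t) (hk : 2 * (t / 2) < 2 ^ k) (u y : Site d k) :
    Kt t u y ≤ (8 * ((t / 2 : ℕ) : ℝ)) ^ (2 * (t / 2)) / (d : ℝ) ^ 10 := by
  have hd' : (1 : ℝ) ≤ d := by exact_mod_cast hd
  have h1 : ∀ u y : Site d k, Kt (2 * (t / 2)) u y ≤ (8 * ((t / 2 : ℕ) : ℝ)) ^ (2 * (t / 2)) / (d : ℝ) ^ 10 := by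
    intro u y
    refine (Kt_sup hd (t / 2) hk u y).trans ?_
    refine div_le_div_of_nonneg_left (by positivity) (by positivity) ?_
    have h2 : (d : ℝ) ^ 10 ≤ (d : ℝ) ^ (t / 2) := pow_le_pow_right₀ hd' (by omega)
    refine h2.trans ?_
    exact pow_le_pow_left₀ (by positivity) (by linarith) _
  rcases Nat.even_or_odd' t with ⟨m, hm | hm⟩
  · have h2 : 2 * (t / 2) = t := by omega
    have h3 := h1 u y
    rw [show Kt (2 * (t / 2)) u y = Kt t u y from by rw [h2]] at h3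
    exact h3
  · have h2 : 2 * (t / 2) + 1 = t := by omega
    have h3 := Kt_succ_le hd (2 * (t / 2)) _ h1 u y
    rw [show Kt (2 * (t / 2) + 1) u y = Kt t u y from by rw [h2]] at h3
    exact h3

/-- the deviation for one colour -/
private theorem C4_dev (hd : 1 ≤ d) (hk : 2 ≤ k) (hq : 1 ≤ q) (b : Bool) {f : Site d k → Fin q} (hf : Prp f)
    (t : ℕ) (v : Site d k) (h0 : ∀ y : Site d k, y ∉ cls b d k → Kt t v y = 0) (c : Fin q)
    (E M θ : ℝ) (hE : Real.exp (ra d q) ≤ E) (hθ : 0 ≤ θ) (hκ : ∀ y, Kt t v y ≤ M / (d : ℝ) ^ 10)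
    (h1 : 4 * E ^ 2 * M ≤ d) (h2 : θ * E * M ≤ d) :
    fm (!b) (fun h => ind (θ < |PP^[t] (C4_X c h) v|)) f ≤ 2 * Real.exp (-(θ ^ 2 / 4 * (d : ℝ))) := by
  have hd' : (1 : ℝ) ≤ d := by exact_mod_cast hd
  have hd0 : (0 : ℝ) < d := by linarith
  have hE0 : 0 < E := (Real.exp_pos _).trans_le hE
  have hm := C4_mean hk b hf t v h0 c
  have h3 := fm_mcd hk (!b) hf (fun h => PP^[t] (C4_X c h) v) (fun w => E * ∑ σ : Stp d, Kt t v (w + sv σ))
    (fun w => mul_nonneg hE0.le (C4_s1 t v _ hκ w).1)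
    (fun h hh w hw γ hγ => (C4_lip hk hq b hf hh w hw γ hγ c t v h0).trans
      (mul_le_mul_of_nonneg_right hE (C4_s1 t v _ hκ w).1)) (1 / (d : ℝ) ^ 7) θ ?_ (by positivity) hθ ?_
  · rw [hm] at h3
    have h4 : fm (!b) (fun h => ind (θ < |PP^[t] (C4_X c h) v|)) f ≤
        fm (!b) (fun h => ind (θ ≤ |PP^[t] (C4_X c h) v - 0|)) f := by
      refine fm_mono (!b) hf fun h _ => ?_
      rw [sub_zero]
      unfold ind
      split_ifs with a1 a2 a2
      · exact le_rfl
      · exact absurd a1.le a2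
      · exact zero_le_one
      · exact le_rfl
    refine h4.trans (h3.trans ?_)
    refine mul_le_mul_of_nonneg_left (Real.exp_le_exp.2 (neg_le_neg ?_)) zero_le_two
    have h5 : θ ^ 2 / (4 * (1 / (d : ℝ) ^ 7)) = θ ^ 2 / 4 * (d : ℝ) ^ 7 := by
      field_simp
    rw [h5]
    refine mul_le_mul_of_nonneg_left ?_ (by positivity)
    calc (d : ℝ) = (d : ℝ) ^ 1 := (pow_one _).symm
      _ ≤ (d : ℝ) ^ 7 := pow_le_pow_right₀ hd' (by norm_num)
  · refine (C4_sq hd t v _ hκ E _).trans ?_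
    have h4 : 4 * (d : ℝ) ^ 2 * E ^ 2 * (M / (d : ℝ) ^ 10) = (4 * E ^ 2 * M) / (d : ℝ) ^ 8 := by
      field_simp
    rw [h4]
    calc (4 * E ^ 2 * M) / (d : ℝ) ^ 8 ≤ (d : ℝ) / (d : ℝ) ^ 8 :=
          div_le_div_of_nonneg_right h1 (by positivity)
      _ = 1 / (d : ℝ) ^ 7 := by field_simp
  · intro w _
    have h4 := (C4_s1 t v _ hκ w).2
    calc θ * (E * ∑ σ : Stp d, Kt t v (w + sv σ)) ≤ θ * (E * (2 * d * (M / (d : ℝ) ^ 10))) :=
          mul_le_mul_of_nonneg_left (mul_le_mul_of_nonneg_left h4 hE0.le) hθ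
      _ = 2 * (θ * E * M) / (d : ℝ) ^ 9 := by field_simp
      _ ≤ 2 * (d : ℝ) / (d : ℝ) ^ 9 :=
          div_le_div_of_nonneg_right (mul_le_mul_of_nonneg_left h2 zero_le_two) (by positivity)
      _ = 2 * (1 / (d : ℝ) ^ 8) := by field_simp
      _ ≤ 2 * (1 / (d : ℝ) ^ 7) := by
          refine mul_le_mul_of_nonneg_left ?_ zero_le_two
          exact one_div_le_one_div_of_le (by positivity) (pow_le_pow_right₀ hd' (by norm_num))

private theorem C4_union (b : Bool) {f : Site d k → Fin q} (hf : Prp f) (B : Fin q → (Site d k → Fin q) → Prop)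
    (x : ℝ) (hx : ∀ c, fm b (fun h => ind (B c h)) f ≤ x) : fm b (fun h => ind (∃ c, B c h)) f ≤ q * x := by
  have h1 : fm b (fun h => ind (∃ c, B c h)) f ≤ fm b (fun h => ∑ c : Fin q, ind (B c h)) f := by
    refine fm_mono b hf fun h _ => ?_
    have h2 : ∀ c, 0 ≤ ind (B c h) := fun c => by
      unfold ind
      split_ifs <;> norm_num
    by_cases hc : ∃ c, B c h
    · obtain ⟨c, hc'⟩ := hc
      have h3 := Finset.single_le_sum (f := fun c => ind (B c h)) (fun c _ => h2 c) (Finset.mem_univ c)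
      have h4 : ind (B c h) = 1 := if_pos hc'
      have h5 : ind (∃ c, B c h) = 1 := if_pos ⟨c, hc'⟩
      rw [h5, ← h4]
      exact h3
    · have h5 : ind (∃ c, B c h) = 0 := if_neg hc
      rw [h5]
      exact Finset.sum_nonneg fun c _ => h2 c
  refine h1.trans ?_
  rw [fm_sum b f Finset.univ (fun c h => ind (B c h))]
  have h2 := Finset.sum_le_card_nsmul (Finset.univ : Finset (Fin q)) (fun c => fm b (fun h => ind (B c h)) f) x
    (fun c _ => hx c)
  rw [nsmul_eq_mul, Finset.card_univ, Fintype.card_fin] at h2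
  exact h2

private theorem C4_loc (θ : ℝ) (t : ℕ) (f g : Site d k → Fin q) (v : Site d k)
    (h : ∀ u, nr (t + 2) v u → f u = g u) :
    (∃ c : Fin q, θ < |PP^[t] (C4_X c f) v|) ↔ ∃ c : Fin q, θ < |PP^[t] (C4_X c g) v| := by
  have h1 : ∀ c : Fin q, PP^[t] (C4_X c f) v = PP^[t] (C4_X c g) v := by
    intro c
    refine loc_PPt t fun u hu => ?_
    have h2 : ∀ w, nr 2 u w → f w = g w := fun w hw => h w (nr_trans hu hw)
    have h3 : ∀ w, nr 1 u w → f w = g w := fun w hw => h2 w (nr_mono (by norm_num) hw)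
    unfold C4_X
    rw [(loc_av h3).2.2 c, (loc_hh h2 c).2.1, (loc_hh h2 c).2.2.2.1]
  constructor
  · rintro ⟨c, hc⟩
    exact ⟨c, by rw [← h1 c]; exact hc⟩
  · rintro ⟨c, hc⟩
    exact ⟨c, by rw [h1 c]; exact hc⟩

end aux

private theorem C4_exp (θ : ℝ) (hθ : 0 < θ) (K : ℕ) :
    ∀ᶠ d : ℕ in atTop, 2 * (d : ℝ) * (2 * Real.exp (-(θ ^ 2 / 4 * (d : ℝ)))) ≤ 1 / (d : ℝ) ^ K := by
  have h1 := (isLittleO_pow_exp_pos_mul_atTop (k := K + 1) (b := θ ^ 2 / 4) (by positivity)).bound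
    (by norm_num : (0 : ℝ) < 1 / 4)
  have h2 := (tendsto_natCast_atTop_atTop (R := ℝ)).eventually h1
  filter_upwards [h2, eventually_ge_atTop 1] with d hd hd1
  have hd' : (1 : ℝ) ≤ d := by exact_mod_cast hd1
  rw [Real.norm_of_nonneg (by positivity), Real.norm_of_nonneg (Real.exp_pos _).le] at hd
  rw [le_div_iff₀ (by positivity)]
  have h3 := Real.exp_pos (θ ^ 2 / 4 * (d : ℝ))
  rw [Real.exp_neg]
  have h4 : 2 * (d : ℝ) * (2 * (Real.exp (θ ^ 2 / 4 * (d : ℝ)))⁻¹) * (d : ℝ) ^ K =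
      4 * (d : ℝ) ^ (K + 1) / Real.exp (θ ^ 2 / 4 * (d : ℝ)) := by
    rw [pow_succ, div_eq_mul_inv]
    ring
  rw [h4, div_le_one h3]
  linarith

private theorem C4_main (s : ℕ) (hs : 20 ≤ s) (θ : ℝ) (hθ : 0 < θ) : SR fun _ _ q f v =>
    ∃ c : Fin q, θ < |PP^[s] (C4_X c f) v| := by
  set E : ℝ := Real.exp 2000 with hE
  set M : ℝ := (8 * ((s / 2 : ℕ) : ℝ)) ^ (2 * (s / 2))
  have he : 0 < e3 := by unfold e3; norm_num
  have he1 : e3 ≤ 1 := by unfold e3; norm_num
  have hbig : ∀ K : ℕ, EvT e3 fun d k q => Rg d q → 1 ≤ d ∧ 2 ≤ k ∧ 1 ≤ q ∧ 2 * (s / 2) < 2 ^ k ∧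
      Real.exp (ra d q) ≤ E ∧ 4 * E ^ 2 * M ≤ d ∧ θ * E * M ≤ d ∧
      (q : ℝ) * (2 * Real.exp (-(θ ^ 2 / 4 * (d : ℝ)))) ≤ 1 / (d : ℝ) ^ K := by
    intro K
    refine (((EvT_d ((C4_exp θ hθ K).and ((tendsto_natCast_atTop_atTop (R := ℝ)).eventually
      ((eventually_ge_atTop (4 * E ^ 2 * M)).and (eventually_ge_atTop (θ * E * M)))))).and
      (EvT_reg he he1 2)).and (EvT_pow (ε := e3) fun _ _ => ((2 * (s / 2) : ℕ) : ℝ) + 1)).mono ?_
    rintro d k q ⟨⟨⟨h1, h2, h3⟩, h4⟩, h5⟩ hR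
    have hd2 : (2 : ℝ) ≤ d := h4.1
    have hq2 : (2 : ℝ) ≤ q := h4.2.1
    have hk2 : (2 : ℝ) ≤ k := h4.2.2.1
    have hd : 1 ≤ d := by
      have : 2 ≤ d := by exact_mod_cast hd2
      omega
    have hq : 1 ≤ q := by
      have : 2 ≤ q := by exact_mod_cast hq2
      omega
    refine ⟨hd, by exact_mod_cast hk2, hq, ?_, ?_, h2, h3, ?_⟩
    · have h6 : ((2 * (s / 2) + 1 : ℕ) : ℝ) ≤ ((2 ^ k : ℕ) : ℝ) := by
        push_cast
        push_cast at h5
        exact h5
      have h7 : 2 * (s / 2) + 1 ≤ 2 ^ k := by exact_mod_cast h6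
      omega
    · exact Real.exp_le_exp.2 (rg_pos hd hR).2.2.1
    · have h6 : (q : ℝ) ≤ 2 * d := by
        have h7 := h4.2.2.2.2.1
        have h8 : e3 * (d : ℝ) ≥ 0 := by positivity
        nlinarith
      exact (mul_le_mul_of_nonneg_right h6 (by positivity)).trans h1
  by_cases hev : Even s
  · refine SR_local false (s + 2) (fun _ _ _ _ _ => True) _ ?_ ?_ ?_ ?_ ?_
    · exact reg_pt.mono ((EvT_d (P := fun _ => True) (Filter.Eventually.of_forall fun _ => trivial)).mono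
        fun d k q _ _ f _ v h => absurd trivial h)
    · intro d k q f g v _
      exact Iff.rfl
    · intro d k q f g v h
      exact C4_loc θ s f g v h
    · exact (EvT_d (P := fun _ => True) (Filter.Eventually.of_forall fun _ => trivial)).mono
        fun d k q _ _ f _ b v _ h _ => Iff.rfl
    · intro K
      refine (hbig K).mono fun d k q h hR f hf b v hv _ => ?_
      obtain ⟨hd, hk, hq, hk', hEr, h1, h2, h3⟩ := h hR
      have hf' : Prp f := C4_prp hf
      refine (C4_union (!b) hf' (fun c h => θ < |PP^[s] (C4_X c h) v|) _ fun c => ?_).trans h3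
      refine C4_dev hd hk hq b hf' s v ?_ c E M θ hEr hθ.le (fun y => C4_kap hd s hs hk' v y) h1 h2
      intro y hy
      exact Kt_cls (by omega) s hev b v y hv ((cls_not b y).2 hy)
  · refine SR_local true (s + 2) (fun _ _ _ _ _ => True) _ ?_ ?_ ?_ ?_ ?_
    · exact reg_pt.mono ((EvT_d (P := fun _ => True) (Filter.Eventually.of_forall fun _ => trivial)).mono
        fun d k q _ _ f _ v h => absurd trivial h)
    · intro d k q f g v _
      exact Iff.rfl
    · intro d k q f g v h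
      exact C4_loc θ s f g v h
    · exact (EvT_d (P := fun _ => True) (Filter.Eventually.of_forall fun _ => trivial)).mono
        fun d k q _ _ f _ b v _ h _ => Iff.rfl
    · intro K
      refine (hbig K).mono fun d k q h hR f hf b v hv _ => ?_
      obtain ⟨hd, hk, hq, hk', hEr, h1, h2, h3⟩ := h hR
      have hf' : Prp f := C4_prp hf
      refine (C4_union b hf' (fun c h => θ < |PP^[s] (C4_X c h) v|) _ fun c => ?_).trans h3
      have h4 := C4_dev hd hk hq (!b) hf' s v (fun y hy => ?_) c E M θ hEr hθ.le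
        (fun y => C4_kap hd s hs hk' v y) h1 h2
      · rw [Bool.not_not] at h4
        exact h4
      · refine Kt_cls' (by omega) s hev b v y hv ?_
        by_contra hc
        exact hy ((cls_not b y).2 hc)

section aux2
variable {d k q : ℕ}

/-- exceptional site -/
private def C4_Bad (δ : ℝ) (f : Site d k → Fin q) (u : Site d k) : Prop :=
  (δ < |(av f u : ℝ) / q - al f u| ∨ ¬ THR.Rg e3 f u) ∨ ∃ σ : Stp d, ¬ THR.Rg e3 f (u + sv σ)

private theorem C4_pw (hq : 1 ≤ q) (hc : 2 / c1 e3 ≤ q) (δ E : ℝ) (hδ : 0 ≤ δ) (hE : Real.exp (ra d q) ≤ E)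
    (ha : ra d q ≤ 2000) {f : Site d k → Fin q} (hf : Prp f) (c : Fin q) (u : Site d k) :
    |THR.gg c f u - ya c f u - C4_X c f u| ≤
      (δ * E / c1 e3 + E * 2000 / (c1 e3 ^ 2 * q)) + (q + 2 * E) * ind (C4_Bad δ f u) := by
  have hq0 : (0 : ℝ) < q := by exact_mod_cast hq
  have hc1 : 0 < c1 e3 := by
    unfold c1
    positivity
  have hE0 : 0 < E := (Real.exp_pos _).trans_le hE
  obtain ⟨hal0, hinv⟩ := C4_inv hq hf u
  have hinv' : 1 / al f u ≤ E := hinv.trans hE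
  have hav : (1 : ℝ) ≤ av f u := by exact_mod_cast av_pos hf u
  have hav0 : (0 : ℝ) < av f u := by linarith
  have hz := C4_zz01 f u c
  have h1 : THR.gg c f u - ya c f u - C4_X c f u =
      zz f u c * ((q : ℝ) / av f u - 1 / al f u) + (zt f u c - Real.exp (-THR.hh c f u)) * (1 / al f u) := by
    unfold THR.gg ya C4_X
    field_simp
    ring
  have h2 : |THR.gg c f u - ya c f u - C4_X c f u| ≤
      |(q : ℝ) / av f u - 1 / al f u| + |zt f u c - Real.exp (-THR.hh c f u)| * E := by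
    rw [h1]
    refine (abs_add_le _ _).trans (add_le_add ?_ ?_)
    · rw [abs_mul, abs_of_nonneg hz.1]
      exact mul_le_of_le_one_left (abs_nonneg _) hz.2
    · rw [abs_mul, abs_of_nonneg (by positivity : (0 : ℝ) ≤ 1 / al f u)]
      exact mul_le_mul_of_nonneg_left hinv' (abs_nonneg _)
  refine h2.trans ?_
  by_cases hB : C4_Bad δ f u
  · have h3 : ind (C4_Bad δ f u) = 1 := if_pos hB
    rw [h3, mul_one]
    have h4 : |(q : ℝ) / av f u - 1 / al f u| ≤ q + E := by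
      have h5 : 0 ≤ (q : ℝ) / av f u := by positivity
      have h6 : (q : ℝ) / av f u ≤ q := div_le_self hq0.le hav
      have h7 : 0 ≤ 1 / al f u := by positivity
      rw [abs_le]
      constructor <;> linarith
    have h5 := zt_exp' hf c u
    have h6 : |zt f u c - Real.exp (-THR.hh c f u)| * E ≤ 1 * E := mul_le_mul_of_nonneg_right h5 hE0.le
    have h7 : 0 ≤ δ * E / c1 e3 := by positivity
    have h8 : 0 ≤ E * 2000 / (c1 e3 ^ 2 * q) := by positivity
    linarith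
  · have h3 : ind (C4_Bad δ f u) = 0 := if_neg hB
    rw [h3, mul_zero, add_zero]
    unfold C4_Bad at hB
    push Not at hB
    obtain ⟨⟨b1, b2⟩, b3⟩ := hB
    have hreg : c1 e3 * q ≤ (av f u : ℝ) := b2
    refine add_le_add ?_ ?_
    · have h4 : (q : ℝ) / av f u - 1 / al f u = (al f u - (av f u : ℝ) / q) * ((q : ℝ) / av f u) * (1 / al f u) := by
        field_simp
      have h5 : (q : ℝ) / av f u ≤ 1 / c1 e3 := by
        rw [div_le_div_iff₀ hav0 hc1, one_mul, mul_comm]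
        exact hreg
      rw [h4, abs_mul, abs_mul, abs_of_nonneg (by positivity : (0 : ℝ) ≤ (q : ℝ) / av f u),
        abs_of_nonneg (by positivity : (0 : ℝ) ≤ 1 / al f u), abs_sub_comm]
      calc |(av f u : ℝ) / q - al f u| * ((q : ℝ) / av f u) * (1 / al f u) ≤ δ * (1 / c1 e3) * E := by
            refine mul_le_mul (mul_le_mul b1 h5 (by positivity) hδ) hinv' (by positivity) (by positivity)
        _ = δ * E / c1 e3 := by ring
    · have h4 := zt_exp (ε := e3) (by unfold e3; norm_num) hc hf c u b3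
      have h5 : ra d q / (c1 e3 ^ 2 * q) ≤ 2000 / (c1 e3 ^ 2 * q) :=
        div_le_div_of_nonneg_right ha (by positivity)
      calc |zt f u c - Real.exp (-THR.hh c f u)| * E ≤ 2000 / (c1 e3 ^ 2 * q) * E :=
            mul_le_mul_of_nonneg_right (h4.trans h5) hE0.le
        _ = E * 2000 / (c1 e3 ^ 2 * q) := by ring

end aux2

theorem gy_pt (s : ℕ) (hs : 20 ≤ s) (δ : ℝ) (hδ : 0 < δ) : SR fun _ _ q f v =>
    ∃ c : Fin q, δ < |PP^[s] (gg c f) v - PP^[s] (ya c f) v| := by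
  set E : ℝ := Real.exp 2000 with hE
  have hE0 : 0 < E := Real.exp_pos _
  have hc1 : 0 < c1 e3 := by
    unfold c1
    positivity
  have he : 0 < e3 := by unfold e3; norm_num
  have he1 : e3 ≤ 1 := by unfold e3; norm_num
  set θ : ℝ := δ / 3 with hθ
  have hθ0 : 0 < θ := by positivity
  set δ' : ℝ := θ * c1 e3 / E with hδ'
  have hδ0 : 0 < δ' := by positivity
  have hbad : SR fun _ _ q f v => C4_Bad (q := q) δ' f v :=
    ((av_pt δ' hδ0).or reg_pt).or reg_pt.nb
  refine ((C4_main s hs θ hθ0).or (hbad.avgs 2 s)).mono ?_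
  refine ((EvT_reg he he1 (max 2 (max (2 / c1 e3) (2 * (E * 2000) / (c1 e3 ^ 2 * θ))))).and
    (EvT_d ((tendsto_natCast_atTop_atTop (R := ℝ)).eventually
      ((eventually_ge_atTop (4 / θ * (1 + E))).and (eventually_ge_atTop (1 : ℝ)))))).mono ?_
  rintro d k q ⟨h4, h5, h6⟩ hR f hf v ⟨c, hc⟩
  have hq2 : max 2 (max (2 / c1 e3) (2 * (E * 2000) / (c1 e3 ^ 2 * θ))) ≤ (q : ℝ) := h4.2.1
  have hqa : (2 : ℝ) ≤ q := (le_max_left _ _).trans hq2
  have hqb : 2 / c1 e3 ≤ q := ((le_max_left _ _).trans (le_max_right _ _)).trans hq2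
  have hqc : 2 * (E * 2000) / (c1 e3 ^ 2 * θ) ≤ q := ((le_max_right _ _).trans (le_max_right _ _)).trans hq2
  have hq : 1 ≤ q := by
    have : 2 ≤ q := by exact_mod_cast hqa
    omega
  have hq0 : (0 : ℝ) < q := by linarith
  have hd : 1 ≤ d := by exact_mod_cast h6
  have hd0 : (0 : ℝ) < d := by linarith
  have hf' : Prp f := C4_prp hf
  obtain ⟨_, _, hra, _, _, hqd, _⟩ := rg_pos hd hR
  have hEr : Real.exp (ra d q) ≤ E := Real.exp_le_exp.2 hra
  by_contra hcon
  push Not at hcon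
  obtain ⟨g1, g2⟩ := hcon
  have g1' := g1 c
  have g2' := g2 s le_rfl
  have h7 := C4_pw hq hqb δ' E hδ0.le hEr hra hf' c
  have h8 : PP^[s] (THR.gg c f) v - PP^[s] (ya c f) v =
      PP^[s] (C4_X c f) v + PP^[s] (fun u => THR.gg c f u - ya c f u - C4_X c f u) v := by
    have e1 := PPt_sub s (fun u => THR.gg c f u - ya c f u) (C4_X c f) v
    have e2 := PPt_sub s (THR.gg c f) (ya c f) v
    rw [e1, e2]
    ring
  have h9 : |PP^[s] (fun u => THR.gg c f u - ya c f u - C4_X c f u) v| ≤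
      (δ' * E / c1 e3 + E * 2000 / (c1 e3 ^ 2 * q)) + (q + 2 * E) * (1 / (d : ℝ) ^ 2) := by
    refine (PPt_abs s _ v).trans ((PPt_mono s h7 v).trans ?_)
    have e1 : PP^[s] (fun u => (δ' * E / c1 e3 + E * 2000 / (c1 e3 ^ 2 * q)) + (q + 2 * E) * ind (C4_Bad δ' f u)) v =
        PP^[s] (fun _ => δ' * E / c1 e3 + E * 2000 / (c1 e3 ^ 2 * q)) v -
          PP^[s] (fun u => (-(q + 2 * E)) * ind (C4_Bad δ' f u)) v := by
      rw [← PPt_sub]
      exact congrArg (fun g : Site d k → ℝ => PP^[s] g v) (funext fun u => by ring)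
    rw [e1, PPt_const hd, PPt_mul]
    have e2 : (q + 2 * E) * PP^[s] (fun u => ind (C4_Bad δ' f u)) v ≤ (q + 2 * E) * (1 / (d : ℝ) ^ 2) :=
      mul_le_mul_of_nonneg_left g2' (by positivity)
    linarith
  have h10 : δ' * E / c1 e3 = θ := by
    rw [hδ']
    field_simp
  have h11 : E * 2000 / (c1 e3 ^ 2 * q) ≤ θ / 2 := by
    rw [div_le_div_iff₀ (by positivity) (by norm_num)]
    rw [div_le_iff₀ (by positivity)] at hqc
    nlinarith
  have h12 : (q + 2 * E) * (1 / (d : ℝ) ^ 2) ≤ θ / 2 := by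
    have h13 : (q : ℝ) ≤ 2 * d := by
      have h14 : 0 ≤ e3 * (d : ℝ) := by positivity
      nlinarith
    have h15 : 4 * (1 + E) ≤ θ * d := by
      have h16 := h5
      rw [div_mul_eq_mul_div, div_le_iff₀ hθ0] at h16
      linarith
    rw [mul_one_div, div_le_div_iff₀ (by positivity) (by norm_num)]
    nlinarith
  have h17 : |PP^[s] (THR.gg c f) v - PP^[s] (ya c f) v| ≤ θ + (θ + θ / 2 + θ / 2) := by
    rw [h8]
    refine (abs_add_le _ _).trans (add_le_add g1' (h9.trans ?_))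
    rw [h10]
    linarith
  have h18 : δ < |PP^[s] (THR.gg c f) v - PP^[s] (ya c f) v| := hc
  have h19 : θ + (θ + θ / 2 + θ / 2) = δ := by
    rw [hθ]
    ring
  linarith

end Pool.Agent.LC
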