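import Pool.Agent.Lib_MP_2c424f_lc1.DDefs
import Pool.Agent.Lib_MP_2c424f_lc1.T7

/-!
# LC1 D1: one-variable inequalities; one site

`Lm_ge`: `log r ≤ r - 1`.  `Lm_sq`: `k(r) = 2(1+r) Lm r - (r-1)²`, `k(1) = 0`, `k'(r) = 2 Lm r + 2(r-1)/r`, `≥ 0` for `r ≥ 1`, `≤ 0` for `r ≤ 1` (`Lm r ≤ (1-r)/r` iff `r - 1/r ≤ log r`).
`Lm_quad`: apply `Lm_sq` to `y/γ`: `(y-γ)² ≤ 2 γ (γ + y) Lm (y/γ)`.

`site_ineq`: `α := (∑_c e^{-h c})/q = p + l`, `p := (1/q) ∑_{c ∈ H} e^{-h c}`, `ℓ := (1/q) ∑_{c ∉ H} e^{-h c}/α = l/α`; `log α = log p - log (1-ℓ)`.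
(B) `log p ≤ log (#H/q) - mean_H h + (4/#H) ∑_H (h - aμ)²`, `μ = 1 - m`, `aμ ≤ 1/4`: with `x̄ = mean_H h`: if `x̄ ≤ 1`: `log mean e^{-(h-x̄)} ≤ mean (e^{-(h-x̄)} - 1 + (h-x̄)) ≤ (e/2) mean (h-x̄)²`
(`e^{-u} - 1 + u ≤ (u²/2) e^{max(-u,0)}`, `h ≥ 0`), and the variance is at most the second moment about `aμ`; if `x̄ > 1`: `log mean e^{-h} ≤ 0` and `x̄ ≤ 4 (x̄ - aμ)² ≤ 4 mean (h-aμ)²`.
`log (#H/q) ≤ log (1/2) + 2η`.
(A) `-log (1-ℓ) ≤ -log (1-μ/2) + (ℓ-μ/2)/(1-μ/2) + 10^5 (ℓ-μ/2)²`: for `ℓ ≤ 1/2` Taylor (second derivative `≤ 4`, coefficient `2`); for `ℓ > 1/2`: `1 - ℓ = p/α ≥ p ≥ (#H/q) e^{-x̄}`,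
`x̄ ≤ a q/#H ≤ 2.1 a ≤ 4200`, so `-log(1-ℓ) ≤ 4202`, and `(ℓ - μ/2)² ≥ 1/5`.
`log (1/2) - aμ - log (1-μ/2) = log (als a m)` because `e^{-aμ} = als (1+m) = 2 als (1-μ/2)`.
-/

set_option autoImplicit false

open Finset Filter

namespace Pool.Agent.LC

open Pool.Agent.LO Pool.Agent.LIN Pool.Agent.THR Pool.Agent.COR

private noncomputable def D1_k (r : ℝ) : ℝ := (r + 1) / 2 - 2 / (r + 1) - Real.log r

private theorem D1_kder {r : ℝ} (hr : 0 < r) :
    HasDerivAt D1_k ((r - 1) * (r ^ 2 + r + 2) / (2 * r * (r + 1) ^ 2)) r := by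
  have h0 : r + 1 ≠ 0 := by linarith
  have h1 : HasDerivAt (fun r : ℝ => (r + 1) / 2) (1 / 2) r :=
    ((hasDerivAt_id r).add_const 1).div_const 2
  have h2 : HasDerivAt (fun r : ℝ => 2 / (r + 1)) (-(2 / (r + 1) ^ 2)) r := by
    have h3 := (hasDerivAt_const r (2 : ℝ)).div ((hasDerivAt_id r).add_const (1 : ℝ)) h0
    refine h3.congr_deriv ?_
    simp only [id]
    field_simp
    ring
  have h4 : HasDerivAt Real.log r⁻¹ r := Real.hasDerivAt_log hr.ne'
  have h5 := (h1.sub h2).sub h4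
  refine h5.congr_deriv ?_
  field_simp
  ring

private theorem D1_knn {r : ℝ} (hr : 0 < r) : 0 ≤ D1_k r := by
  have hk1 : D1_k 1 = 0 := by
    unfold D1_k
    rw [Real.log_one]
    norm_num
  have hcont : ∀ s : Set ℝ, (∀ x ∈ s, 0 < x) → ContinuousOn D1_k s := fun s hs x hx =>
    (D1_kder (hs x hx)).continuousAt.continuousWithinAt
  rcases le_total 1 r with h | h
  · have hm : MonotoneOn D1_k (Set.Ici 1) := by
      refine monotoneOn_of_deriv_nonneg (convex_Ici 1)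
        (hcont _ fun x hx => lt_of_lt_of_le one_pos hx) ?_ ?_
      · intro x hx
        rw [interior_Ici] at hx
        exact (D1_kder (lt_trans one_pos hx)).differentiableAt.differentiableWithinAt
      · intro x hx
        rw [interior_Ici] at hx
        have hx1 : (1 : ℝ) < x := hx
        rw [(D1_kder (lt_trans one_pos hx1)).deriv]
        have : 0 < x := lt_trans one_pos hx1
        have h2 : 0 ≤ x - 1 := by linarith
        positivity
    have := hm (Set.mem_Ici.2 le_rfl) (Set.mem_Ici.2 h) h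
    rw [hk1] at this
    exact this
  · have hm : AntitoneOn D1_k (Set.Ioc 0 1) := by
      refine antitoneOn_of_deriv_nonpos (convex_Ioc 0 1) (hcont _ fun x hx => hx.1) ?_ ?_
      · intro x hx
        rw [interior_Ioc] at hx
        exact (D1_kder hx.1).differentiableAt.differentiableWithinAt
      · intro x hx
        rw [interior_Ioc] at hx
        rw [(D1_kder hx.1).deriv]
        have h3 : 0 < x := hx.1
        have h4 : x < 1 := hx.2
        refine div_nonpos_of_nonpos_of_nonneg ?_ (by positivity)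
        have h5 : 0 < x ^ 2 + x + 2 := by positivity
        nlinarith
    have := hm (Set.mem_Ioc.2 ⟨hr, h⟩) (Set.mem_Ioc.2 ⟨one_pos, le_rfl⟩) h
    rw [hk1] at this
    exact this

theorem Lm_ge {r : ℝ} (hr : 0 < r) : 0 ≤ Lm r := by
  unfold Lm
  have := Real.log_le_sub_one_of_pos hr
  linarith

theorem Lm_sq {r : ℝ} (hr : 0 < r) : (r - 1) ^ 2 ≤ 2 * (1 + r) * Lm r := by
  have h := D1_knn hr
  unfold D1_k at h
  unfold Lm
  have h1 : 0 < 1 + r := by linarith
  have h2 : 0 ≤ 2 * (1 + r) * ((r + 1) / 2 - 2 / (r + 1) - Real.log r) :=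
    mul_nonneg (by linarith) h
  have h3 : 2 * (1 + r) * ((r + 1) / 2 - 2 / (r + 1) - Real.log r) =
      2 * (1 + r) * (r - 1 - Real.log r) - (r - 1) ^ 2 := by
    have : r + 1 ≠ 0 := by linarith
    field_simp
    ring
  linarith

theorem Lm_quad {y γ Y : ℝ} (hy : 0 < y) (hγ : 0 < γ) (hY : y ≤ Y) : (y - γ) ^ 2 ≤ 2 * γ * (γ + Y) * Lm (y / γ) := by
  have h := Lm_sq (div_pos hy hγ)
  have h0 := Lm_ge (div_pos hy hγ)
  have h1 : γ ^ 2 * (y / γ - 1) ^ 2 ≤ γ ^ 2 * (2 * (1 + y / γ) * Lm (y / γ)) :=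
    mul_le_mul_of_nonneg_left h (by positivity)
  have h2 : γ ^ 2 * (y / γ - 1) ^ 2 = (y - γ) ^ 2 := by
    field_simp
  have h3 : γ ^ 2 * (2 * (1 + y / γ) * Lm (y / γ)) = 2 * γ * (γ + y) * Lm (y / γ) := by
    field_simp
  rw [h2, h3] at h1
  refine h1.trans ?_
  refine mul_le_mul_of_nonneg_right ?_ h0
  exact mul_le_mul_of_nonneg_left (by linarith) (by linarith)

private theorem D1_exp {v : ℝ} (hv : v ≤ 1) : Real.exp v ≤ 1 + v + v ^ 2 := by
  rcases le_or_gt (-1) v with h | h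
  · have h1 := Real.abs_exp_sub_one_sub_id_le (x := v) (abs_le.2 ⟨h, hv⟩)
    have h2 := le_abs_self (Real.exp v - 1 - v)
    linarith
  · have h1 : Real.exp v ≤ 1 := Real.exp_le_one_iff.2 (by linarith)
    nlinarith

private theorem D1_sq {ι : Type} (H : Finset ι) (h : ι → ℝ) (x θ : ℝ) (hx : ∑ c ∈ H, h c = H.card * x) :
    ∑ c ∈ H, (h c - θ) ^ 2 = ∑ c ∈ H, (h c - x) ^ 2 + H.card * (x - θ) ^ 2 := by
  have h1 : ∀ c ∈ H, (h c - θ) ^ 2 = (h c - x) ^ 2 + (2 * (x - θ) * h c + (θ ^ 2 - x ^ 2)) := by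
    intro c _
    ring
  rw [Finset.sum_congr rfl h1, Finset.sum_add_distrib, Finset.sum_add_distrib, ← Finset.mul_sum, hx,
    Finset.sum_const, nsmul_eq_mul]
  ring

private theorem D1_mean {ι : Type} (H : Finset ι) (hH : 0 < (H.card : ℝ)) (h : ι → ℝ) (h0 : ∀ c ∈ H, 0 ≤ h c)
    (x θ : ℝ) (hx : ∑ c ∈ H, h c = H.card * x) (hθ : θ ≤ 1 / 4) :
    Real.log ((∑ c ∈ H, Real.exp (-h c)) / H.card) ≤ -x + 4 / (H.card : ℝ) * ∑ c ∈ H, (h c - θ) ^ 2 := by
  have hne : H.Nonempty := Finset.card_pos.1 (by exact_mod_cast hH)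
  have hP : 0 < ∑ c ∈ H, Real.exp (-h c) := Finset.sum_pos (fun c _ => Real.exp_pos _) hne
  have hV0 : 0 ≤ ∑ c ∈ H, (h c - x) ^ 2 := Finset.sum_nonneg fun c _ => sq_nonneg _
  have hsq := D1_sq H h x θ hx
  rcases le_or_gt x 1 with hx1 | hx1
  · have h1 : ∑ c ∈ H, Real.exp (-h c) ≤
        Real.exp (-x) * ((H.card : ℝ) + ∑ c ∈ H, (h c - x) ^ 2) := by
      have h2 : ∀ c ∈ H, Real.exp (-h c) ≤ Real.exp (-x) * (1 + (x - h c) + (h c - x) ^ 2) := by
        intro c hc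
        have h3 : Real.exp (-h c) = Real.exp (-x) * Real.exp (x - h c) := by
          rw [← Real.exp_add]
          congr 1
          ring
        rw [h3]
        refine mul_le_mul_of_nonneg_left ?_ (Real.exp_nonneg _)
        have h4 := D1_exp (v := x - h c) (by have := h0 c hc; linarith)
        have h5 : (x - h c) ^ 2 = (h c - x) ^ 2 := by ring
        rw [h5] at h4
        exact h4
      refine (Finset.sum_le_sum h2).trans (le_of_eq ?_)
      rw [← Finset.mul_sum]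
      congr 1
      rw [Finset.sum_add_distrib, Finset.sum_add_distrib, Finset.sum_sub_distrib, hx]
      simp only [Finset.sum_const, nsmul_eq_mul]
      ring
    have h6 : (∑ c ∈ H, Real.exp (-h c)) / H.card ≤
        Real.exp (-x) * (1 + (∑ c ∈ H, (h c - x) ^ 2) / H.card) := by
      rw [div_le_iff₀ hH]
      refine h1.trans (le_of_eq ?_)
      field_simp
    have hW : 0 ≤ (∑ c ∈ H, (h c - x) ^ 2) / (H.card : ℝ) := div_nonneg hV0 hH.le
    have h7 : Real.log ((∑ c ∈ H, Real.exp (-h c)) / H.card) ≤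
        -x + (∑ c ∈ H, (h c - x) ^ 2) / H.card := by
      refine (Real.log_le_log (div_pos hP hH) h6).trans ?_
      rw [Real.log_mul (Real.exp_pos _).ne' (by positivity), Real.log_exp]
      have h8 := Real.log_le_sub_one_of_pos (x := 1 + (∑ c ∈ H, (h c - x) ^ 2) / (H.card : ℝ)) (by positivity)
      linarith
    refine h7.trans ?_
    have h9 : (∑ c ∈ H, (h c - x) ^ 2) / (H.card : ℝ) ≤ 4 / (H.card : ℝ) * ∑ c ∈ H, (h c - θ) ^ 2 := by
      rw [div_mul_eq_mul_div]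
      refine div_le_div_of_nonneg_right ?_ hH.le
      rw [hsq]
      have : 0 ≤ (H.card : ℝ) * (x - θ) ^ 2 := by positivity
      linarith
    linarith
  · have h1 : (∑ c ∈ H, Real.exp (-h c)) / H.card ≤ 1 := by
      rw [div_le_one hH]
      have h2 : ∀ c ∈ H, Real.exp (-h c) ≤ 1 := fun c hc =>
        Real.exp_le_one_iff.2 (by have := h0 c hc; linarith)
      refine (Finset.sum_le_sum h2).trans (le_of_eq ?_)
      simp
    have h3 : Real.log ((∑ c ∈ H, Real.exp (-h c)) / H.card) ≤ 0 :=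
      Real.log_nonpos (div_pos hP hH).le h1
    have h4 : x ≤ 4 / (H.card : ℝ) * ∑ c ∈ H, (h c - θ) ^ 2 := by
      rw [hsq, div_mul_eq_mul_div, le_div_iff₀ hH]
      have h5 : x ≤ 4 * (x - θ) ^ 2 := by nlinarith
      have h6 : x * (H.card : ℝ) ≤ 4 * (x - θ) ^ 2 * H.card := mul_le_mul_of_nonneg_right h5 hH.le
      nlinarith
    linarith

private theorem D1_A {l ν : ℝ} (hν0 : 0 ≤ ν) (hν : ν ≤ 1 / 4) (hl : l < 1) (hlow : -Real.log (1 - l) ≤ 6250) :
    -Real.log (1 - l) ≤ -Real.log (1 - ν) + (l - ν) / (1 - ν) + 10 ^ 5 * (l - ν) ^ 2 := by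
  have h1 : 0 < 1 - l := by linarith
  have h2 : 0 < 1 - ν := by linarith
  rcases le_or_gt l (1 / 2) with h | h
  · have h3 := Real.log_le_sub_one_of_pos (div_pos h2 h1)
    rw [Real.log_div h2.ne' h1.ne'] at h3
    have h4 : (1 - ν) / (1 - l) - 1 = (l - ν) / (1 - ν) + (l - ν) ^ 2 / ((1 - l) * (1 - ν)) := by
      field_simp
      ring
    have h5 : (l - ν) ^ 2 / ((1 - l) * (1 - ν)) ≤ 10 ^ 5 * (l - ν) ^ 2 := by
      rw [div_le_iff₀ (by positivity)]
      have h6 : 1 ≤ 10 ^ 5 * ((1 - l) * (1 - ν)) := by nlinarith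
      have h7 := mul_le_mul_of_nonneg_left h6 (sq_nonneg (l - ν))
      nlinarith
    linarith
  · have h3 : 0 ≤ -Real.log (1 - ν) := by
      have := Real.log_nonpos h2.le (by linarith : 1 - ν ≤ 1)
      linarith
    have h4 : 0 ≤ (l - ν) / (1 - ν) := div_nonneg (by linarith) h2.le
    have h5 : (1 / 4 : ℝ) ^ 2 ≤ (l - ν) ^ 2 := pow_le_pow_left₀ (by norm_num) (by linarith) 2
    have h6 : (6250 : ℝ) ≤ 10 ^ 5 * (l - ν) ^ 2 := by nlinarith
    linarith

theorem site_ineq {q : ℕ} (hq : 0 < q) {a m : ℝ} (ha : 1000 ≤ a) (ha2 : a ≤ 2000) (hm : MFE a m) (η : ℝ) (hη : 0 ≤ η) (hη1 : η ≤ 1 / 100)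
    (H : Finset (Fin q)) (hH : |(H.card : ℝ) / q - 1 / 2| ≤ η) (h : Fin q → ℝ) (h0 : ∀ c, 0 ≤ h c) (hs : ∑ c, h c = a * q) :
    Real.log ((∑ c, Real.exp (-h c)) / q) ≤ Real.log (als a m) - 1 / (H.card : ℝ) * ∑ c ∈ H, (h c - a * (1 - m)) +
      4 / (H.card : ℝ) * ∑ c ∈ H, (h c - a * (1 - m)) ^ 2 +
      ((∑ c ∈ Hᶜ, Real.exp (-h c) / ((∑ c, Real.exp (-h c)) / q)) / q - (1 - m) / 2) / (1 - (1 - m) / 2) +
      10 ^ 5 * ((∑ c ∈ Hᶜ, Real.exp (-h c) / ((∑ c, Real.exp (-h c)) / q)) / q - (1 - m) / 2) ^ 2 + 2 * η := by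
  obtain ⟨hm0, hm1, hm2, hm3, -, hm5, -, hm7, -, -, hm10⟩ := mf_num ha hm
  have hq' : (0 : ℝ) < q := by exact_mod_cast hq
  have hcard := abs_le.1 hH
  -- the number of elements of `H`
  have hN1 : (49 / 100 : ℝ) ≤ (H.card : ℝ) / q := by linarith [hcard.1]
  have hN2 : (H.card : ℝ) / q ≤ 1 / 2 + η := by linarith [hcard.2]
  have hN : 0 < (H.card : ℝ) := by
    have h1 : (49 / 100 : ℝ) * q ≤ H.card := (le_div_iff₀ hq').1 hN1
    nlinarith
  have hne : H.Nonempty := Finset.card_pos.1 (by exact_mod_cast hN)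
  obtain ⟨x, hx⟩ : ∃ x : ℝ, ∑ c ∈ H, h c = H.card * x := ⟨(∑ c ∈ H, h c) / H.card, by field_simp⟩
  have hexp4 : Real.exp (-a) ≤ 1 / 4 := by
    have h1 : a + 1 ≤ Real.exp a := Real.add_one_le_exp a
    rw [Real.exp_neg, inv_le_comm₀ (Real.exp_pos _) (by norm_num)]
    linarith
  have hθ : a * (1 - m) ≤ 1 / 4 := hm10.trans hexp4
  have hmu : 1 - m ≤ 1 / 4 := by nlinarith
  set P : ℝ := ∑ c ∈ H, Real.exp (-h c) with hPdef
  set L : ℝ := ∑ c ∈ Hᶜ, Real.exp (-h c) with hLdef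
  have hP : 0 < P := Finset.sum_pos (fun c _ => Real.exp_pos _) hne
  have hL : 0 ≤ L := Finset.sum_nonneg fun c _ => (Real.exp_pos _).le
  have hS : ∑ c, Real.exp (-h c) = P + L := (Finset.sum_add_sum_compl H _).symm
  have hE : 0 < (P + L) / q := div_pos (by linarith) hq'
  have hl : (∑ c ∈ Hᶜ, Real.exp (-h c) / ((∑ c, Real.exp (-h c)) / q)) / q = L / (P + L) := by
    rw [← Finset.sum_div, hS, ← hLdef]
    have h1 : P + L ≠ 0 := by linarith
    field_simp
  rw [hl, hS]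
  have hone : 1 - L / (P + L) = P / (P + L) := by
    have h1 : P + L ≠ 0 := by linarith
    field_simp
    ring
  have hlt : L / (P + L) < 1 := by
    rw [div_lt_one (by linarith)]
    linarith
  -- the total is at most `q`
  have htot : P + L ≤ q := by
    rw [← hS]
    have h2 : ∀ c ∈ (univ : Finset (Fin q)), Real.exp (-h c) ≤ 1 := fun c _ =>
      Real.exp_le_one_iff.2 (by have := h0 c; linarith)
    refine (Finset.sum_le_sum h2).trans (le_of_eq ?_)
    simp
  -- lower bound of `P`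
  have hPlow : (H.card : ℝ) * Real.exp (-x) ≤ P := by
    have h2 : ∀ c ∈ H, Real.exp (-x) * (1 + (x - h c)) ≤ Real.exp (-h c) := by
      intro c _
      have h3 : Real.exp (-h c) = Real.exp (-x) * Real.exp (x - h c) := by
        rw [← Real.exp_add]
        congr 1
        ring
      rw [h3]
      refine mul_le_mul_of_nonneg_left ?_ (Real.exp_nonneg _)
      have := Real.add_one_le_exp (x - h c)
      linarith
    refine le_trans (le_of_eq ?_) (Finset.sum_le_sum h2)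
    rw [← Finset.mul_sum, Finset.sum_add_distrib, Finset.sum_sub_distrib, hx]
    simp only [Finset.sum_const, nsmul_eq_mul]
    ring
  have hxup : x ≤ 4100 := by
    have h1 : ∑ c ∈ H, h c ≤ ∑ c, h c :=
      Finset.sum_le_sum_of_subset_of_nonneg (Finset.subset_univ _) fun c _ _ => h0 c
    rw [hx, hs] at h1
    have h2 : (49 / 100 : ℝ) * q ≤ H.card := (le_div_iff₀ hq').1 hN1
    by_contra hcon
    push Not at hcon
    have h3 : (49 / 100 : ℝ) * q * 4100 < H.card * x := by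
      calc (49 / 100 : ℝ) * q * 4100 ≤ H.card * 4100 := by linarith
        _ < H.card * x := mul_lt_mul_of_pos_left hcon hN
    nlinarith
  have hlow : -Real.log (1 - L / (P + L)) ≤ 6250 := by
    rw [hone]
    have h1 : (H.card : ℝ) / q * Real.exp (-x) ≤ P / (P + L) := by
      rw [le_div_iff₀ (by linarith)]
      calc (H.card : ℝ) / q * Real.exp (-x) * (P + L) ≤ (H.card : ℝ) / q * Real.exp (-x) * q :=
            mul_le_mul_of_nonneg_left htot (by positivity)
        _ = (H.card : ℝ) * Real.exp (-x) := by field_simp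
        _ ≤ P := hPlow
    have h2 : (49 / 100 : ℝ) * Real.exp (-4100) ≤ P / (P + L) := by
      refine le_trans ?_ h1
      exact mul_le_mul hN1 (Real.exp_le_exp.2 (by linarith)) (Real.exp_nonneg _) (by positivity)
    have h3 := Real.log_le_log (by positivity) h2
    rw [Real.log_mul (by norm_num) (Real.exp_pos _).ne', Real.log_exp] at h3
    have h4 : -2 ≤ Real.log (49 / 100 : ℝ) := by
      rw [Real.le_log_iff_exp_le (by norm_num)]
      have h5 : (2 : ℝ) + 1 ≤ Real.exp 2 := Real.add_one_le_exp 2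
      rw [Real.exp_neg, inv_le_comm₀ (Real.exp_pos _) (by norm_num)]
      norm_num
      linarith
    linarith
  have hA := D1_A (l := L / (P + L)) (ν := (1 - m) / 2) (by linarith) (by linarith) hlt hlow
  have hB := D1_mean H hN h (fun c _ => h0 c) x (a * (1 - m)) hx hθ
  rw [← hPdef] at hB
  -- the logarithm of the total
  have hlog : Real.log ((P + L) / q) = Real.log ((H.card : ℝ) / q) + Real.log (P / H.card) -
      Real.log (1 - L / (P + L)) := by
    rw [hone, Real.log_div (by linarith) hq'.ne', Real.log_div hN.ne' hq'.ne', Real.log_div hP.ne' hN.ne',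
      Real.log_div hP.ne' (by linarith)]
    ring
  have hlogN : Real.log ((H.card : ℝ) / q) ≤ -Real.log 2 + 2 * η := by
    have h1 : (H.card : ℝ) / q ≤ (1 / 2) * (1 + 2 * η) := by linarith
    have h2 := Real.log_le_log (by positivity) h1
    rw [Real.log_mul (by norm_num) (by linarith), one_div, Real.log_inv] at h2
    have h3 := Real.log_le_sub_one_of_pos (x := 1 + 2 * η) (by linarith)
    linarith
  have hals : Real.log (als a m) = -(a * (1 - m)) - Real.log 2 - Real.log (1 - (1 - m) / 2) := by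
    have h1 : Real.exp (-(a * (1 - m))) = als a m * (2 * (1 - (1 - m) / 2)) := by
      rw [hm5]
      ring
    have h2 := congrArg Real.log h1
    rw [Real.log_exp, Real.log_mul hm7.ne' (by linarith), Real.log_mul (by norm_num) (by linarith)] at h2
    linarith
  have hmean : 1 / (H.card : ℝ) * ∑ c ∈ H, (h c - a * (1 - m)) = x - a * (1 - m) := by
    rw [Finset.sum_sub_distrib, hx]
    simp only [Finset.sum_const, nsmul_eq_mul]
    field_simp
  rw [hlog, hals, hmean]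
  linarith

end Pool.Agent.LC
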