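import Pool.Agent.Lib_MP_2c424f_lc1.D1

/-!
# LC1 D2: the gap of one colour

`log (ya c f u) = - hh c f u - log (al f u)`.  `γ := gs A v s c ∈ {1 + m, 1 - m}`, `e^{-a(2-γ)} = als γ` (`mf_num`), so `log γ = -a(2-γ) - log als`, and `γ ≥ 1 - m = e^{-a(1+m)}/als ≥ e^{-4000}`.
`PP^[s] (Lm (ya/γ)) v = (PP^[s] ya v)/γ - 1 + PP^[s] hh v + PP^[s] (log al) v + log γ` (linearity, `PPt_const`) `= Gp + ((PP^[s] ya v)/γ - 1) + (PP^[s] hh v - a(2-γ))`.
`gap_quad`: `Lm_quad` with `Y = e^a` (`ya_bound`), `PPt_mono`: for `γ = 1 - m ≤ 3e^{-2a}`: `2γ(γ + e^a) ≤ 12 e^{-a}`; in general `≤ 8 e^{2000}`.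
-/

set_option autoImplicit false

open Finset Filter

namespace Pool.Agent.LC

open Pool.Agent.LO Pool.Agent.LIN Pool.Agent.THR Pool.Agent.COR

variable {d k q : ℕ}

theorem gm_cases (A : Finset (Fin q)) (v : Site d k) (s : ℕ) (c : Fin q) :
    gs A v s c = 1 + ms d q ∨ gs A v s c = 1 - ms d q := by
  have h : gm A v c = 1 + ms d q ∨ gm A v c = 1 - ms d q := by
    unfold gm
    split_ifs
    · exact Or.inl rfl
    · exact Or.inr rfl
  unfold gs
  split_ifs
  · exact h
  · rcases h with h | h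
    · right
      rw [h]
      ring
    · left
      rw [h]
      ring

private theorem D2_add (s : ℕ) (g h : Site d k → ℝ) (x : Site d k) :
    PP^[s] (fun y => g y + h y) x = PP^[s] g x + PP^[s] h x := by
  have h1 := PPt_sub s g (fun y => (-1) * h y) x
  rw [PPt_mul] at h1
  have h2 : (fun y => g y - (-1) * h y) = fun y => g y + h y := by
    funext y
    ring
  rw [h2] at h1
  rw [h1]
  ring

/-- facts about `γ` -/
private theorem D2_gs (hd : 1 ≤ d) (hR : Rg d q) (A : Finset (Fin q)) (v : Site d k) (s : ℕ) (c : Fin q) :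
    Real.exp (-4000) ≤ gs A v s c ∧ gs A v s c ≤ 2 ∧
      Real.log (gs A v s c) = -(ra d q * (2 - gs A v s c)) - Real.log (als (ra d q) (ms d q)) := by
  obtain ⟨-, ha, ha2, -⟩ := rg_pos hd hR
  obtain ⟨hm0, hm1, -, hmu, -, h1, h2, h3, h4, -, -⟩ := mf_num ha (ms_spec hd hR)
  have hlow : Real.exp (-4000) ≤ 1 - ms d q := by
    have h5 : Real.exp (-4000) ≤ Real.exp (-(ra d q * (1 + ms d q))) := by
      refine Real.exp_le_exp.2 ?_
      nlinarith
    rw [h2] at h5
    have h6 : als (ra d q) (ms d q) * (1 - ms d q) ≤ 1 * (1 - ms d q) :=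
      mul_le_mul_of_nonneg_right h4 hmu.le
    linarith
  rcases gm_cases A v s c with h | h
  · rw [h]
    refine ⟨by linarith, by linarith, ?_⟩
    have h5 := congrArg Real.log h1
    rw [Real.log_exp, Real.log_mul h3.ne' (by linarith)] at h5
    have h6 : (2 : ℝ) - (1 + ms d q) = 1 - ms d q := by ring
    rw [h6]
    linarith
  · rw [h]
    refine ⟨hlow, by linarith, ?_⟩
    have h5 := congrArg Real.log h2
    rw [Real.log_exp, Real.log_mul h3.ne' (by linarith)] at h5
    have h6 : (2 : ℝ) - (1 - ms d q) = 1 + ms d q := by ring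
    rw [h6]
    linarith

/-- the mean of `Lm` -/
private theorem D2_eq (hd : 1 ≤ d) (hR : Rg d q) {f : Site d k → Fin q} (hf : Prp f) (A : Finset (Fin q))
    (v : Site d k) (s : ℕ) (c : Fin q) :
    PP^[s] (fun u => Lm (ya c f u / gs A v s c)) v - Gp f v s =
      (PP^[s] (ya c f) v - gs A v s c) / gs A v s c +
        (PP^[s] (hh c f) v - ra d q * (2 - gs A v s c)) := by
  obtain ⟨hq, -⟩ := rg_pos hd hR
  obtain ⟨hg0, -, hlog⟩ := D2_gs hd hR A v s c
  have hg : 0 < gs A v s c := lt_of_lt_of_le (Real.exp_pos _) hg0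
  have hfun : (fun u => Lm (ya c f u / gs A v s c)) = fun u =>
      (((gs A v s c)⁻¹ * ya c f u + hh c f u) + Real.log (al f u)) + (Real.log (gs A v s c) - 1) := by
    funext u
    have hal : 0 < al f u := lt_of_lt_of_le (Real.exp_pos _) (al_ge hq hf u)
    have hya : Real.log (ya c f u) = -hh c f u - Real.log (al f u) := by
      unfold ya
      rw [Real.log_div (Real.exp_pos _).ne' hal.ne', Real.log_exp]
    have hypos := (ya_bound hq hf c u).1
    unfold Lm
    rw [Real.log_div hypos.ne' hg.ne', hya]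
    ring
  rw [hfun, D2_add s (fun u => ((gs A v s c)⁻¹ * ya c f u + hh c f u) + Real.log (al f u))
    (fun _ => Real.log (gs A v s c) - 1), PPt_const hd,
    D2_add s (fun u => (gs A v s c)⁻¹ * ya c f u + hh c f u) (fun u => Real.log (al f u)),
    D2_add s (fun u => (gs A v s c)⁻¹ * ya c f u) (hh c f), PPt_mul s _ (ya c f)]
  unfold Gp
  rw [hlog]
  field_simp
  ring

theorem gap_eq (hd : 1 ≤ d) (hR : Rg d q) {f : Site d k → Fin q} (hf : Prp f) (A : Finset (Fin q)) (v : Site d k) (s : ℕ) (η : ℝ)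
    (hη : 0 ≤ η) (hG : GapH η A f v s) (c : Fin q) :
    |PP^[s] (fun u => Lm (ya c f u / gs A v s c)) v - Gp f v s| ≤ Real.exp 4001 * η := by
  obtain ⟨hg0, -, -⟩ := D2_gs hd hR A v s c
  have hg : 0 < gs A v s c := lt_of_lt_of_le (Real.exp_pos _) hg0
  rw [D2_eq hd hR hf]
  refine (abs_add_le _ _).trans ?_
  have h1 : |(PP^[s] (ya c f) v - gs A v s c) / gs A v s c| ≤ Real.exp 4000 * η := by
    rw [abs_div, abs_of_pos hg, div_le_iff₀ hg]
    have h2 : 1 ≤ Real.exp 4000 * gs A v s c := by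
      have h3 : Real.exp 4000 * Real.exp (-4000) = 1 := by
        rw [← Real.exp_add]
        norm_num
      rw [← h3]
      exact mul_le_mul_of_nonneg_left hg0 (Real.exp_nonneg _)
    have h4 := hG.y c
    calc |PP^[s] (ya c f) v - gs A v s c| ≤ η := h4
      _ = η * 1 := (mul_one _).symm
      _ ≤ η * (Real.exp 4000 * gs A v s c) := mul_le_mul_of_nonneg_left h2 hη
      _ = Real.exp 4000 * η * gs A v s c := by ring
  have h5 := hG.h c
  have h6 : Real.exp 4000 + 1 ≤ Real.exp 4001 := by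
    have h7 : Real.exp 4001 = Real.exp 4000 * Real.exp 1 := by
      rw [← Real.exp_add]
      norm_num
    have h8 : (1 : ℝ) + 1 ≤ Real.exp 1 := Real.add_one_le_exp 1
    have h9 : (1 : ℝ) ≤ Real.exp 4000 := Real.one_le_exp (by norm_num)
    rw [h7]
    nlinarith
  calc |(PP^[s] (ya c f) v - gs A v s c) / gs A v s c| + |PP^[s] (hh c f) v - ra d q * (2 - gs A v s c)|
      ≤ Real.exp 4000 * η + η := add_le_add h1 h5
    _ = (Real.exp 4000 + 1) * η := by ring
    _ ≤ Real.exp 4001 * η := mul_le_mul_of_nonneg_right h6 hη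

private theorem D2_quad (hd : 1 ≤ d) (hR : Rg d q) {f : Site d k → Fin q} (hf : Prp f) (A : Finset (Fin q))
    (v : Site d k) (s : ℕ) (η : ℝ) (hη : 0 ≤ η) (hG : GapH η A f v s) (c : Fin q) (K : ℝ) (hK : 0 ≤ K)
    (hK2 : 2 * gs A v s c * (gs A v s c + Real.exp (ra d q)) ≤ K) :
    PP^[s] (fun u => (ya c f u - gs A v s c) ^ 2) v ≤ K * (Gp f v s + Real.exp 4001 * η) := by
  obtain ⟨hq, -⟩ := rg_pos hd hR
  obtain ⟨hg0, -, -⟩ := D2_gs hd hR A v s c
  have hg : 0 < gs A v s c := lt_of_lt_of_le (Real.exp_pos _) hg0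
  have h1 : ∀ u, (ya c f u - gs A v s c) ^ 2 ≤ K * Lm (ya c f u / gs A v s c) := by
    intro u
    obtain ⟨hy, hy2⟩ := ya_bound hq hf c u
    refine (Lm_quad hy hg hy2).trans ?_
    exact mul_le_mul_of_nonneg_right hK2 (Lm_ge (div_pos hy hg))
  refine (PPt_mono s h1 v).trans ?_
  rw [PPt_mul s K (fun u => Lm (ya c f u / gs A v s c))]
  refine mul_le_mul_of_nonneg_left ?_ hK
  have h2 := (abs_le.1 (gap_eq hd hR hf A v s η hη hG c)).2
  linarith

theorem gap_lo (hd : 1 ≤ d) (hR : Rg d q) {f : Site d k → Fin q} (hf : Prp f) (A : Finset (Fin q)) (v : Site d k) (s : ℕ) (η : ℝ)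
    (hη : 0 ≤ η) (hG : GapH η A f v s) (c : Fin q) (hc : gs A v s c = 1 - ms d q) :
    PP^[s] (fun u => (ya c f u - (1 - ms d q)) ^ 2) v ≤ 12 * Real.exp (-ra d q) * (Gp f v s + Real.exp 4001 * η) := by
  obtain ⟨-, ha, -⟩ := rg_pos hd hR
  obtain ⟨-, -, hmu, hmu0, -⟩ := mf_num ha (ms_spec hd hR)
  have h := D2_quad hd hR hf A v s η hη hG c (12 * Real.exp (-ra d q)) (by positivity) (by
    rw [hc]
    have h1 : Real.exp (-(2 * ra d q)) = Real.exp (-ra d q) * Real.exp (-ra d q) := by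
      rw [← Real.exp_add]
      congr 1
      ring
    have h2 : Real.exp (-ra d q) * Real.exp (ra d q) = 1 := by
      rw [← Real.exp_add]
      simp
    have h3 : Real.exp (-ra d q) ≤ 1 := Real.exp_le_one_iff.2 (by linarith)
    have h4 : (1001 : ℝ) ≤ Real.exp (ra d q) := by
      have := Real.add_one_le_exp (ra d q)
      linarith
    have h5 : 0 < Real.exp (-ra d q) := Real.exp_pos _
    have h6 : 1 - ms d q ≤ Real.exp (ra d q) := by nlinarith
    calc 2 * (1 - ms d q) * (1 - ms d q + Real.exp (ra d q))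
        ≤ 2 * (1 - ms d q) * (Real.exp (ra d q) + Real.exp (ra d q)) :=
          mul_le_mul_of_nonneg_left (by linarith) (by linarith)
      _ = 4 * Real.exp (ra d q) * (1 - ms d q) := by ring
      _ ≤ 4 * Real.exp (ra d q) * (3 * Real.exp (-(2 * ra d q))) :=
          mul_le_mul_of_nonneg_left hmu (by positivity)
      _ = 12 * Real.exp (-ra d q) * (Real.exp (-ra d q) * Real.exp (ra d q)) := by
          rw [h1]
          ring
      _ = 12 * Real.exp (-ra d q) := by rw [h2, mul_one])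
  rwa [hc] at h

theorem gap_quad (hd : 1 ≤ d) (hR : Rg d q) {f : Site d k → Fin q} (hf : Prp f) (A : Finset (Fin q)) (v : Site d k) (s : ℕ) (η : ℝ)
    (hη : 0 ≤ η) (hG : GapH η A f v s) (c : Fin q) :
    PP^[s] (fun u => (ya c f u - gs A v s c) ^ 2) v ≤ 8 * Real.exp 2000 * (Gp f v s + Real.exp 4001 * η) := by
  obtain ⟨-, -, ha2, -⟩ := rg_pos hd hR
  obtain ⟨hg0, hg2, -⟩ := D2_gs hd hR A v s c
  have hg : 0 < gs A v s c := lt_of_lt_of_le (Real.exp_pos _) hg0
  refine D2_quad hd hR hf A v s η hη hG c (8 * Real.exp 2000) (by positivity) ?_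
  have h1 : Real.exp (ra d q) ≤ Real.exp 2000 := Real.exp_le_exp.2 ha2
  have h2 : (2 : ℝ) ≤ Real.exp 2000 := by
    have := Real.add_one_le_exp (2000 : ℝ)
    linarith
  calc 2 * gs A v s c * (gs A v s c + Real.exp (ra d q))
      ≤ 2 * gs A v s c * (Real.exp 2000 + Real.exp 2000) :=
        mul_le_mul_of_nonneg_left (by linarith) (by linarith)
    _ ≤ 2 * 2 * (Real.exp 2000 + Real.exp 2000) :=
        mul_le_mul_of_nonneg_right (by linarith) (by positivity)
    _ = 8 * Real.exp 2000 := by ring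

end Pool.Agent.LC
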