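import Pool.Agent.Lib_MP_2c424f_lc1.D2

/-!
# LC1 D3: contraction of the gap

`m = ms d q`, `μ = 1 - m`, `H := {c : gs A v s c = 1 + m}`.  `mc (ya · f u) = 1` (THR `ya_mean`), so `mc (gs A v s) = 1 + O(η)`, `|#H/q - 1/2| ≤ η` (`m ≥ 0.99`).
`site_ineq` at every site `u` with `h c = hh c f u` (`sum_hh`: `∑_c hh = 2d = a q`), `al f u = (∑ e^{-hh})/q`, `ya = e^{-hh}/al`; apply `PP^[s]` at `v` (`PPt_mono`, linearity):
  `Gp f v s ≤ -(1/#H) ∑_H (PP^[s] hh v - aμ) + (4/#H) ∑_H PP^[s] (hh - aμ)² v + (E ℓ - μ/2)/(1-μ/2) + 10^5 E (ℓ - μ/2)² + 2η`,  `ℓ u = (1/q) ∑_{c ∉ H} ya c f u`, `E = PP^[s] .. v`.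
* `|PP^[s] hh v - aμ| ≤ η` for `c ∈ H`;  `|E ℓ - μ/2| ≤ 2η`;  `E (ℓ - μ/2)² ≤ 2 (1/q) ∑_{c ∉ H} PP^[s] (ya - μ)² v + 2η² ≤ 24 e^{-a} (Gp⁺ + e^{4001} η) + 2η²` (`gap_lo` at `s`).
* `c ∈ H`: at a site `u` which is not `Xs η`: if `f u ≠ c`: `hh = hc` (`hc_eq`), `(hh - aμ)² ≤ 2a² (PP ya u - μ)² + 2η² ≤ 2a² PP ((ya - μ)²) u + 2η²`; if `f u = c`: `hh = 0`, `(aμ)² ≤ 1`;
  at a site `Xs`: `(hh - aμ)² ≤ 8 d²`.  `(1/#H) ∑_{c ∈ H} 1[f u = c] ≤ 1/#H ≤ 4/q ≤ 4η`.  `PP^[s] (PP φ) = PP^[s+1] φ`.  `gs A v (s+1) c = 1 - m` for `c ∈ H`: `gap_lo` at `s+1`: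
  `(4/#H) ∑_H .. ≤ 96 a² e^{-a} (Gp(s+1)⁺ + e^{4001} η) + 8η² + 16η + 4η`.
`96 a² e^{-a} ≤ 1/4`, `24 * 10^5 e^{-a} ≤ 1/4` for `a ≥ 1000`.
`gap_iter`: `x ≤ (x⁺ + y⁺)/4 + e^{4100}η` gives `x⁺ ≤ y⁺/3 + (4/3) e^{4100} η`; `Gp ≤ 1` (`al ≤ 1`, `als ≥ e^{-1}`); iterate `J` times: `Gp(t)⁺ ≤ 3^{-J} + 2 e^{4100} η ≤ 3 e^{4100} η`.
Then `gap_quad`: `8 e^{2000} (3 e^{4100} + e^{4001}) η ≤ e^{7000} η`.
-/

set_option autoImplicit false

open Finset Filter

namespace Pool.Agent.LC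

open Pool.Agent.LO Pool.Agent.LIN Pool.Agent.THR Pool.Agent.COR

variable {d k q : ℕ}

private theorem D3_add (s : ℕ) (g h : Site d k → ℝ) (x : Site d k) :
    PP^[s] (fun y => g y + h y) x = PP^[s] g x + PP^[s] h x := by
  rw [Kt_repr s (fun y => g y + h y) x, Kt_repr s g x, Kt_repr s h x, ← Finset.sum_add_distrib]
  exact Finset.sum_congr rfl fun y _ => by ring

private theorem D3_num {a : ℝ} (ha : 1000 ≤ a) :
    96 * a ^ 2 * Real.exp (-a) ≤ 1 / 4 ∧ 24 * 10 ^ 5 * Real.exp (-a) ≤ 1 / 4 := by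
  have h1 : a ^ 4 / 24 ≤ Real.exp a := by
    have h := Real.pow_div_factorial_le_exp a (by linarith) 4
    have h4 : ((Nat.factorial 4 : ℕ) : ℝ) = 24 := by norm_num [Nat.factorial]
    rwa [h4] at h
  have hp := Real.exp_pos a
  have h2 : (10 : ℝ) ^ 6 ≤ a ^ 2 := by nlinarith
  have h3 : a ^ 4 = a ^ 2 * a ^ 2 := by ring
  constructor
  · rw [Real.exp_neg, ← div_eq_mul_inv, div_le_iff₀ hp]
    nlinarith
  · rw [Real.exp_neg, ← div_eq_mul_inv, div_le_iff₀ hp]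
    nlinarith

private theorem D3_gs_succ (A : Finset (Fin q)) (v : Site d k) (s : ℕ) (c : Fin q) :
    gs A v (s + 1) c = 2 - gs A v s c := by
  unfold gs
  by_cases h : Even s
  · rw [if_pos h, if_neg (by rw [Nat.even_add_one]; exact not_not.mpr h)]
  · rw [if_neg h, if_pos (by rw [Nat.even_add_one]; exact h)]
    ring

private theorem D3_mu (hd : 1 ≤ d) (hR : Rg d q) : 0 < 1 - ms d q ∧ 1 - ms d q ≤ 1 / 1000 ∧
    0 ≤ ra d q * (1 - ms d q) ∧ ra d q * (1 - ms d q) ≤ 1 := by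
  obtain ⟨-, ha, -⟩ := rg_pos hd hR
  obtain ⟨-, -, -, hmu0, -, -, -, -, -, -, hmu⟩ := mf_num ha (ms_spec hd hR)
  have hea : Real.exp (-ra d q) ≤ 1 := Real.exp_le_one_iff.2 (by linarith)
  have h1 : 1000 * (1 - ms d q) ≤ ra d q * (1 - ms d q) := mul_le_mul_of_nonneg_right ha hmu0.le
  refine ⟨hmu0, by linarith, mul_nonneg (by linarith) hmu0.le, by linarith⟩

private theorem D3_card (hd : 1 ≤ d) (hR : Rg d q) {f : Site d k → Fin q} (A : Finset (Fin q)) (v : Site d k)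
    (s : ℕ) (η : ℝ) (hG : GapH η A f v s) (H : Finset (Fin q)) (hH : ∀ c, c ∈ H ↔ gs A v s c = 1 + ms d q) :
    |(H.card : ℝ) / q - 1 / 2| ≤ η := by
  classical
  obtain ⟨hq, -⟩ := rg_pos hd hR
  obtain ⟨hmu0, hmu1, -, -⟩ := D3_mu hd hR
  have hq0 : (0 : ℝ) < q := by exact_mod_cast hq
  have e1 : ∑ c, PP^[s] (ya c f) v = q := by
    rw [← PPt_sum s univ (fun c => ya c f) v]
    have h1 : (fun y => ∑ c, ya c f y) = fun _ => (q : ℝ) := by
      funext y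
      have h2 := ya_mean hq f y
      unfold mc at h2
      rwa [div_eq_one_iff_eq hq0.ne'] at h2
    rw [h1, PPt_const hd]
  have e2 : ∑ c, gs A v s c = q * (1 - ms d q) + 2 * ms d q * H.card := by
    have h1 : ∀ c ∈ (univ : Finset (Fin q)), gs A v s c = (1 - ms d q) + 2 * ms d q * (if c ∈ H then (1 : ℝ) else 0) := by
      intro c _
      by_cases hc : c ∈ H
      · rw [if_pos hc, (hH c).1 hc]
        ring
      · rw [if_neg hc]
        rcases gm_cases A v s c with h | h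
        · exact absurd ((hH c).2 h) hc
        · rw [h]
          ring
    rw [Finset.sum_congr rfl h1, Finset.sum_add_distrib, Finset.sum_const, Finset.card_univ, Fintype.card_fin,
      nsmul_eq_mul, ← Finset.mul_sum, Finset.sum_ite_mem, Finset.univ_inter, Finset.sum_const, nsmul_eq_mul, mul_one]
  have e3 : |∑ c, (PP^[s] (ya c f) v - gs A v s c)| ≤ q * η := by
    refine (Finset.abs_sum_le_sum_abs _ _).trans ?_
    refine (Finset.sum_le_sum fun c _ => hG.y c).trans (le_of_eq ?_)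
    rw [Finset.sum_const, Finset.card_univ, Fintype.card_fin, nsmul_eq_mul]
  rw [Finset.sum_sub_distrib, e1, e2, abs_le] at e3
  obtain ⟨h1, h2⟩ := e3
  set μ := 1 - ms d q with hμ
  have hm : ms d q = 1 - μ := by rw [hμ]; ring
  rw [hm] at h1 h2
  have h4 : (H.card : ℝ) = (H.card : ℝ) / q * q := (div_mul_cancel₀ _ hq0.ne').symm
  set x := (H.card : ℝ) / q with hx
  rw [h4] at h1 h2
  have h1' : -η ≤ 1 - μ - 2 * (1 - μ) * x := by
    have h5 : q * -η ≤ q * (1 - μ - 2 * (1 - μ) * x) := by nlinarith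
    exact le_of_mul_le_mul_left h5 hq0
  have h2' : 1 - μ - 2 * (1 - μ) * x ≤ η := by
    have h5 : q * (1 - μ - 2 * (1 - μ) * x) ≤ q * η := by nlinarith
    exact le_of_mul_le_mul_left h5 hq0
  have hη0 : 0 ≤ η := by linarith
  rw [abs_le]
  constructor
  · by_contra hcon
    push Not at hcon
    nlinarith
  · by_contra hcon
    push Not at hcon
    nlinarith

private theorem D3_site (hd : 1 ≤ d) (hR : Rg d q) {f : Site d k → Fin q} (hf : Prp f) (η : ℝ) (u : Site d k)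
    (c : Fin q) :
    (hh c f u - ra d q * (1 - ms d q)) ^ 2 ≤
      ((2 * ra d q ^ 2 * PP (fun y => (ya c f y - (1 - ms d q)) ^ 2) u + 2 * η ^ 2) +
      (if f u = c then (1 : ℝ) else 0)) + 8 * (d : ℝ) ^ 2 * ind (Xs η f u) := by
  obtain ⟨hq, ha, ha2, h2d, -⟩ := rg_pos hd hR
  obtain ⟨hmu0, hmu1, hamu0, hamu1⟩ := D3_mu hd hR
  have hdr : (1 : ℝ) ≤ d := by exact_mod_cast hd
  set a := ra d q with ha_def
  set μ := 1 - ms d q with hμ_def
  have hP : 0 ≤ PP (fun y => (ya c f y - μ) ^ 2) u := by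
    have h := PPt_mono 1 (g := fun _ => (0 : ℝ)) (h := fun y => (ya c f y - μ) ^ 2) (fun _ => sq_nonneg _) u
    rw [PPt_const hd] at h
    exact h
  have hP2 : 0 ≤ 2 * a ^ 2 * PP (fun y => (ya c f y - μ) ^ 2) u := by positivity
  have hη2 : 0 ≤ 2 * η ^ 2 := by positivity
  by_cases hX : Xs η f u
  · have h0 : ind (Xs η f u) = 1 := by
      unfold ind
      rw [if_pos hX]
    rw [h0]
    have h1 := hh_nonneg c f u
    have h2 := hh_le hf c u
    have h4 : (hh c f u - a * μ) ^ 2 ≤ (2 * (d : ℝ)) ^ 2 := by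
      apply sq_le_sq' <;> linarith
    have h5 : (0 : ℝ) ≤ if f u = c then (1 : ℝ) else 0 := by
      split_ifs <;> norm_num
    nlinarith
  · have h0 : ind (Xs η f u) = 0 := by
      unfold ind
      rw [if_neg hX]
    rw [h0]
    unfold Xs at hX
    push Not at hX
    obtain ⟨hX1, -⟩ := hX
    by_cases hc : f u = c
    · rw [if_pos hc, ← hc, hh_self]
      rw [← hc] at hP2
      have h3 : (0 - a * μ) ^ 2 ≤ 1 := by nlinarith
      nlinarith
    · rw [if_neg hc]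
      have h1 := hX1 c
      rw [hc_eq f u c hc] at h1
      have h2 : (PP (ya c f) u - μ) ^ 2 ≤ PP (fun y => (ya c f y - μ) ^ 2) u := by
        have h := PPt_sq hd 1 (fun y => ya c f y - μ) u
        rw [PPt_sub 1 (ya c f) (fun _ => μ) u, PPt_const hd] at h
        exact h
      have h4 : (hh c f u - a * PP (ya c f) u) ^ 2 ≤ η ^ 2 := sq_le_sq' (abs_le.1 h1).1 (abs_le.1 h1).2
      have h3 : (hh c f u - a * μ) ^ 2 ≤
          2 * (hh c f u - a * PP (ya c f) u) ^ 2 + 2 * (a * (PP (ya c f) u - μ)) ^ 2 := by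
        nlinarith [sq_nonneg ((hh c f u - a * PP (ya c f) u) - a * (PP (ya c f) u - μ))]
      have h5 : (a * (PP (ya c f) u - μ)) ^ 2 ≤ a ^ 2 * PP (fun y => (ya c f y - μ) ^ 2) u := by
        rw [mul_pow]
        exact mul_le_mul_of_nonneg_left h2 (sq_nonneg a)
      linarith

private theorem D3_T2 (hd : 1 ≤ d) (hR : Rg d q) {f : Site d k → Fin q} (hf : Prp f) (A : Finset (Fin q)) (v : Site d k)
    (s : ℕ) (η : ℝ) (hη : 0 < η) (hq : 1 / η ≤ q) (hG : GapH η A f v s)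
    (hG' : GapH η A f v (s + 1)) (H : Finset (Fin q)) (hH : ∀ c ∈ H, gs A v s c = 1 + ms d q)
    (hc : (q : ℝ) * (49 / 100) ≤ H.card) :
    4 / (H.card : ℝ) * PP^[s] (fun u => ∑ c ∈ H, (hh c f u - ra d q * (1 - ms d q)) ^ 2) v ≤
      (max (Gp f v (s + 1)) 0 + Real.exp 4001 * η) / 4 + 8 * η ^ 2 + 13 * η := by
  classical
  obtain ⟨hq1, ha, ha2, h2d, -⟩ := rg_pos hd hR
  obtain ⟨hmu0, hmu1, hamu0, hamu1⟩ := D3_mu hd hR
  have hq0 : (0 : ℝ) < q := by exact_mod_cast hq1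
  have hH0 : (0 : ℝ) < H.card := by nlinarith
  set G1 := max (Gp f v (s + 1)) 0 with hG1
  set B := 2 * ra d q ^ 2 * (12 * Real.exp (-ra d q) * (G1 + Real.exp 4001 * η)) + 2 * η ^ 2 + η with hB
  have h1 : ∀ c ∈ H, PP^[s] (fun u => (hh c f u - ra d q * (1 - ms d q)) ^ 2) v ≤
      B + PP^[s] (fun u => if f u = c then (1 : ℝ) else 0) v := by
    intro c hcH
    have hgs : gs A v (s + 1) c = 1 - ms d q := by
      rw [D3_gs_succ, hH c hcH]
      ring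
    have hlo := gap_lo hd hR hf A v (s + 1) η hη.le hG' c hgs
    have hlo' : PP^[s + 1] (fun u => (ya c f u - (1 - ms d q)) ^ 2) v ≤
        12 * Real.exp (-ra d q) * (G1 + Real.exp 4001 * η) := by
      refine hlo.trans (mul_le_mul_of_nonneg_left ?_ (by positivity))
      have := le_max_left (Gp f v (s + 1)) 0
      linarith
    have hm := PPt_mono s (fun u => D3_site hd hR hf η u c) v
    rw [D3_add s (fun u => (2 * ra d q ^ 2 * PP (fun y => (ya c f y - (1 - ms d q)) ^ 2) u + 2 * η ^ 2) +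
        (if f u = c then (1 : ℝ) else 0)) (fun u => 8 * (d : ℝ) ^ 2 * ind (Xs η f u)) v,
      D3_add s (fun u => 2 * ra d q ^ 2 * PP (fun y => (ya c f y - (1 - ms d q)) ^ 2) u + 2 * η ^ 2)
        (fun u => if f u = c then (1 : ℝ) else 0) v,
      D3_add s (fun u => 2 * ra d q ^ 2 * PP (fun y => (ya c f y - (1 - ms d q)) ^ 2) u) (fun _ => 2 * η ^ 2) v,
      PPt_const hd, PPt_mul, PPt_mul] at hm
    have hit : PP^[s] (PP (fun y => (ya c f y - (1 - ms d q)) ^ 2)) v =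
        PP^[s + 1] (fun u => (ya c f u - (1 - ms d q)) ^ 2) v := rfl
    have hm' : PP^[s] (fun u => PP (fun y => (ya c f y - (1 - ms d q)) ^ 2) u) v ≤
        12 * Real.exp (-ra d q) * (G1 + Real.exp 4001 * η) := by
      calc PP^[s] (fun u => PP (fun y => (ya c f y - (1 - ms d q)) ^ 2) u) v =
            PP^[s + 1] (fun u => (ya c f u - (1 - ms d q)) ^ 2) v := rfl
        _ ≤ _ := hlo'
    have he := hG.e
    have h3 : 2 * ra d q ^ 2 * PP^[s] (fun u => PP (fun y => (ya c f y - (1 - ms d q)) ^ 2) u) v ≤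
        2 * ra d q ^ 2 * (12 * Real.exp (-ra d q) * (G1 + Real.exp 4001 * η)) :=
      mul_le_mul_of_nonneg_left hm' (by positivity)
    rw [hB]
    linarith
  have h2 : ∑ c ∈ H, PP^[s] (fun u => if f u = c then (1 : ℝ) else 0) v ≤ 1 := by
    rw [← PPt_sum s H (fun c u => if f u = c then (1 : ℝ) else 0) v]
    have h3 := PPt_mono s (g := fun y => ∑ c ∈ H, if f y = c then (1 : ℝ) else 0) (h := fun _ => (1 : ℝ)) (fun y => by
      rw [Finset.sum_ite_eq]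
      split_ifs <;> norm_num) v
    rwa [PPt_const hd] at h3
  have h3 : PP^[s] (fun u => ∑ c ∈ H, (hh c f u - ra d q * (1 - ms d q)) ^ 2) v ≤ H.card * B + 1 := by
    rw [PPt_sum s H (fun c u => (hh c f u - ra d q * (1 - ms d q)) ^ 2) v]
    refine (Finset.sum_le_sum h1).trans ?_
    rw [Finset.sum_add_distrib, Finset.sum_const, nsmul_eq_mul]
    linarith
  have h4 : 4 / (H.card : ℝ) * PP^[s] (fun u => ∑ c ∈ H, (hh c f u - ra d q * (1 - ms d q)) ^ 2) v ≤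
      4 * B + 4 / H.card := by
    have h5 : 4 / (H.card : ℝ) * PP^[s] (fun u => ∑ c ∈ H, (hh c f u - ra d q * (1 - ms d q)) ^ 2) v ≤
        4 / (H.card : ℝ) * (H.card * B + 1) := mul_le_mul_of_nonneg_left h3 (by positivity)
    have h6 : 4 / (H.card : ℝ) * (H.card * B + 1) = 4 * B + 4 / H.card := by
      field_simp
    linarith
  have h7 : 4 / (H.card : ℝ) ≤ 9 * η := by
    rw [div_le_iff₀ hH0]
    have h8 : 1 ≤ η * q := by
      rw [div_le_iff₀ hη] at hq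
      linarith
    nlinarith
  have hnum := (D3_num ha).1
  have hG0 : 0 ≤ G1 + Real.exp 4001 * η := add_nonneg (le_max_right _ _) (by positivity)
  have h9 : 4 * B ≤ (G1 + Real.exp 4001 * η) / 4 + 8 * η ^ 2 + 4 * η := by
    have h10 : 96 * ra d q ^ 2 * Real.exp (-ra d q) * (G1 + Real.exp 4001 * η) ≤ 1 / 4 * (G1 + Real.exp 4001 * η) :=
      mul_le_mul_of_nonneg_right hnum hG0
    rw [hB]
    linarith
  linarith

private theorem D3_lsq (hd : 1 ≤ d) (hR : Rg d q) (f : Site d k → Fin q) (η : ℝ)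
    (H : Finset (Fin q)) (hH : |(H.card : ℝ) / q - 1 / 2| ≤ η) (u : Site d k) :
    ((∑ c ∈ Hᶜ, ya c f u) / q - (1 - ms d q) / 2) ^ 2 ≤
      2 / (q : ℝ) * ∑ c ∈ Hᶜ, (ya c f u - (1 - ms d q)) ^ 2 + 2 * η ^ 2 := by
  classical
  obtain ⟨hq1, -⟩ := rg_pos hd hR
  obtain ⟨hmu0, hmu1, -, -⟩ := D3_mu hd hR
  have hq0 : (0 : ℝ) < q := by exact_mod_cast hq1
  set μ := 1 - ms d q with hμ
  have hn : ((Hᶜ.card : ℕ) : ℝ) = q - H.card := by
    rw [Finset.card_compl, Fintype.card_fin, Nat.cast_sub]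
    have := Finset.card_le_univ H
    rwa [Fintype.card_fin] at this
  have hnq : ((Hᶜ.card : ℕ) : ℝ) ≤ q := by
    rw [hn]
    have : (0 : ℝ) ≤ H.card := Nat.cast_nonneg _
    linarith
  have h1 : (∑ c ∈ Hᶜ, (ya c f u - μ)) ^ 2 ≤ (Hᶜ.card : ℝ) * ∑ c ∈ Hᶜ, (ya c f u - μ) ^ 2 := by
    have h := sq_sum_le_card_mul_sum_sq (s := Hᶜ) (f := fun c => ya c f u - μ)
    exact_mod_cast h
  have hS0 : 0 ≤ ∑ c ∈ Hᶜ, (ya c f u - μ) ^ 2 := Finset.sum_nonneg fun _ _ => sq_nonneg _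
  have h2 : ((∑ c ∈ Hᶜ, (ya c f u - μ)) / q) ^ 2 ≤ 1 / (q : ℝ) * ∑ c ∈ Hᶜ, (ya c f u - μ) ^ 2 := by
    rw [div_pow, div_le_iff₀ (by positivity)]
    have h3 : 1 / (q : ℝ) * (∑ c ∈ Hᶜ, (ya c f u - μ) ^ 2) * (q : ℝ) ^ 2 = q * ∑ c ∈ Hᶜ, (ya c f u - μ) ^ 2 := by
      field_simp
    rw [h3]
    exact h1.trans (mul_le_mul_of_nonneg_right hnq hS0)
  have h4 : (∑ c ∈ Hᶜ, ya c f u) / q - μ / 2 =
      (∑ c ∈ Hᶜ, (ya c f u - μ)) / q + μ * (1 / 2 - (H.card : ℝ) / q) := by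
    rw [Finset.sum_sub_distrib, Finset.sum_const, nsmul_eq_mul, hn]
    field_simp
    ring
  have h5 : (μ * (1 / 2 - (H.card : ℝ) / q)) ^ 2 ≤ η ^ 2 := by
    rw [mul_pow]
    have h6 : (1 / 2 - (H.card : ℝ) / q) ^ 2 ≤ η ^ 2 := by
      obtain ⟨h7, h8⟩ := abs_le.1 hH
      apply sq_le_sq' <;> linarith
    have h9 : μ ^ 2 ≤ 1 := by nlinarith
    calc μ ^ 2 * (1 / 2 - (H.card : ℝ) / q) ^ 2 ≤ 1 * η ^ 2 :=
          mul_le_mul h9 h6 (sq_nonneg _) zero_le_one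
      _ = η ^ 2 := one_mul _
  rw [h4]
  have h10 : ((∑ c ∈ Hᶜ, (ya c f u - μ)) / q + μ * (1 / 2 - (H.card : ℝ) / q)) ^ 2 ≤
      2 * ((∑ c ∈ Hᶜ, (ya c f u - μ)) / q) ^ 2 + 2 * (μ * (1 / 2 - (H.card : ℝ) / q)) ^ 2 := by
    nlinarith [sq_nonneg ((∑ c ∈ Hᶜ, (ya c f u - μ)) / q - μ * (1 / 2 - (H.card : ℝ) / q))]
  have h11 : 2 / (q : ℝ) * ∑ c ∈ Hᶜ, (ya c f u - μ) ^ 2 = 2 * (1 / (q : ℝ) * ∑ c ∈ Hᶜ, (ya c f u - μ) ^ 2) := by
    ring
  rw [h11]
  linarith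

private theorem D3_T4 (hd : 1 ≤ d) (hR : Rg d q) {f : Site d k → Fin q} (hf : Prp f) (A : Finset (Fin q)) (v : Site d k)
    (s : ℕ) (η : ℝ) (hη : 0 < η) (hG : GapH η A f v s) (H : Finset (Fin q))
    (hH : |(H.card : ℝ) / q - 1 / 2| ≤ η) (hH' : ∀ c ∈ Hᶜ, gs A v s c = 1 - ms d q) :
    PP^[s] (fun u => ((∑ c ∈ Hᶜ, ya c f u) / q - (1 - ms d q) / 2) ^ 2) v ≤
      24 * Real.exp (-ra d q) * (max (Gp f v s) 0 + Real.exp 4001 * η) + 2 * η ^ 2 := by
  classical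
  obtain ⟨hq1, -⟩ := rg_pos hd hR
  have hq0 : (0 : ℝ) < q := by exact_mod_cast hq1
  have hm := PPt_mono s (fun u => D3_lsq hd hR f η H hH u) v
  rw [D3_add s (fun u => 2 / (q : ℝ) * ∑ c ∈ Hᶜ, (ya c f u - (1 - ms d q)) ^ 2) (fun _ => 2 * η ^ 2) v, PPt_const hd,
    PPt_mul, PPt_sum s Hᶜ (fun c u => (ya c f u - (1 - ms d q)) ^ 2) v] at hm
  set G0 := max (Gp f v s) 0 with hG0
  have hpos : 0 ≤ 12 * Real.exp (-ra d q) * (G0 + Real.exp 4001 * η) :=
    mul_nonneg (by positivity) (add_nonneg (le_max_right _ _) (by positivity))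
  have h1 : ∑ c ∈ Hᶜ, PP^[s] (fun u => (ya c f u - (1 - ms d q)) ^ 2) v ≤
      q * (12 * Real.exp (-ra d q) * (G0 + Real.exp 4001 * η)) := by
    have h2 : ∀ c ∈ Hᶜ, PP^[s] (fun u => (ya c f u - (1 - ms d q)) ^ 2) v ≤
        12 * Real.exp (-ra d q) * (G0 + Real.exp 4001 * η) := by
      intro c hc
      refine (gap_lo hd hR hf A v s η hη.le hG c (hH' c hc)).trans (mul_le_mul_of_nonneg_left ?_ (by positivity))
      have := le_max_left (Gp f v s) 0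
      linarith
    refine (Finset.sum_le_sum h2).trans ?_
    rw [Finset.sum_const, nsmul_eq_mul]
    refine mul_le_mul_of_nonneg_right ?_ hpos
    have h3 := Finset.card_le_univ Hᶜ
    rw [Fintype.card_fin] at h3
    exact_mod_cast h3
  have h4 : 2 / (q : ℝ) * ∑ c ∈ Hᶜ, PP^[s] (fun u => (ya c f u - (1 - ms d q)) ^ 2) v ≤
      24 * Real.exp (-ra d q) * (G0 + Real.exp 4001 * η) := by
    refine (mul_le_mul_of_nonneg_left h1 (by positivity)).trans (le_of_eq ?_)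
    field_simp
    ring
  linarith

private theorem D3_T3 (hd : 1 ≤ d) (hR : Rg d q) {f : Site d k → Fin q} (A : Finset (Fin q)) (v : Site d k)
    (s : ℕ) (η : ℝ) (hη : 0 < η) (hη1 : η ≤ 1 / 1000) (hG : GapH η A f v s) (H : Finset (Fin q))
    (hH : |(H.card : ℝ) / q - 1 / 2| ≤ η) (hH' : ∀ c ∈ Hᶜ, gs A v s c = 1 - ms d q) :
    PP^[s] (fun u => ((∑ c ∈ Hᶜ, ya c f u) / q - (1 - ms d q) / 2) / (1 - (1 - ms d q) / 2)) v ≤ 2 * η := by
  classical
  obtain ⟨hq1, -⟩ := rg_pos hd hR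
  obtain ⟨hmu0, hmu1, -, -⟩ := D3_mu hd hR
  have hq0 : (0 : ℝ) < q := by exact_mod_cast hq1
  set μ := 1 - ms d q with hμ
  have e1 : (fun u => ((∑ c ∈ Hᶜ, ya c f u) / q - μ / 2) / (1 - μ / 2)) =
      fun u => (1 / (1 - μ / 2) * (1 / (q : ℝ))) * (∑ c ∈ Hᶜ, ya c f u) - μ / 2 / (1 - μ / 2) := by
    funext u
    ring
  rw [e1, PPt_sub s (fun u => (1 / (1 - μ / 2) * (1 / (q : ℝ))) * (∑ c ∈ Hᶜ, ya c f u)) (fun _ => μ / 2 / (1 - μ / 2)) v,
    PPt_const hd, PPt_mul, PPt_sum s Hᶜ (fun c u => ya c f u) v]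
  have hn : ((Hᶜ.card : ℕ) : ℝ) = q - H.card := by
    rw [Finset.card_compl, Fintype.card_fin, Nat.cast_sub]
    have := Finset.card_le_univ H
    rwa [Fintype.card_fin] at this
  have h1 : ∑ c ∈ Hᶜ, PP^[s] (fun u => ya c f u) v ≤ (q - H.card) * (μ + η) := by
    have h2 : ∀ c ∈ Hᶜ, PP^[s] (fun u => ya c f u) v ≤ μ + η := by
      intro c hc
      have h3 := hG.y c
      rw [hH' c hc, abs_le] at h3
      have h4 : PP^[s] (fun u => ya c f u) v = PP^[s] (ya c f) v := rfl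
      rw [h4]
      linarith [h3.2]
    refine (Finset.sum_le_sum h2).trans (le_of_eq ?_)
    rw [Finset.sum_const, nsmul_eq_mul, hn]
  have hx : (H.card : ℝ) = (H.card : ℝ) / q * q := (div_mul_cancel₀ _ hq0.ne').symm
  set x := (H.card : ℝ) / q with hxd
  obtain ⟨hx1, hx2⟩ := abs_le.1 hH
  have hden : 0 < 1 - μ / 2 := by linarith
  have h5 : 1 / (1 - μ / 2) * (1 / (q : ℝ)) * ∑ c ∈ Hᶜ, PP^[s] (fun u => ya c f u) v ≤
      1 / (1 - μ / 2) * ((1 - x) * (μ + η)) := by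
    rw [mul_assoc]
    refine mul_le_mul_of_nonneg_left ?_ (by positivity)
    rw [one_div, inv_mul_le_iff₀ hq0]
    refine h1.trans (le_of_eq ?_)
    rw [hx]
    ring
  have h6 : 1 / (1 - μ / 2) * ((1 - x) * (μ + η)) - μ / 2 / (1 - μ / 2) = ((1 - x) * (μ + η) - μ / 2) / (1 - μ / 2) := by
    ring
  have h7 : ((1 - x) * (μ + η) - μ / 2) / (1 - μ / 2) ≤ 2 * η := by
    rw [div_le_iff₀ hden]
    nlinarith
  linarith

private theorem D3_T1 (hd : 1 ≤ d) {f : Site d k → Fin q} (A : Finset (Fin q)) (v : Site d k)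
    (s : ℕ) (η : ℝ) (hG : GapH η A f v s) (H : Finset (Fin q))
    (hH : ∀ c ∈ H, gs A v s c = 1 + ms d q) (hc : (0 : ℝ) < H.card) :
    -(1 / (H.card : ℝ)) * PP^[s] (fun u => ∑ c ∈ H, (hh c f u - ra d q * (1 - ms d q))) v ≤ η := by
  classical
  rw [PPt_sum s H (fun c u => hh c f u - ra d q * (1 - ms d q)) v]
  have h1 : -(H.card * η) ≤ ∑ c ∈ H, PP^[s] (fun u => hh c f u - ra d q * (1 - ms d q)) v := by
    have h2 : ∀ c ∈ H, -η ≤ PP^[s] (fun u => hh c f u - ra d q * (1 - ms d q)) v := by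
      intro c hcH
      rw [PPt_sub s (hh c f) (fun _ => ra d q * (1 - ms d q)) v, PPt_const hd]
      have h3 := hG.h c
      rw [hH c hcH, abs_le] at h3
      have h4 := h3.1
      have h5 : 2 - (1 + ms d q) = 1 - ms d q := by ring
      rw [h5] at h4
      exact h4
    refine le_trans (le_of_eq ?_) (Finset.sum_le_sum h2)
    rw [Finset.sum_const, nsmul_eq_mul]
    ring
  have h6 : -(1 / (H.card : ℝ)) * ∑ c ∈ H, PP^[s] (fun u => hh c f u - ra d q * (1 - ms d q)) v =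
      (-∑ c ∈ H, PP^[s] (fun u => hh c f u - ra d q * (1 - ms d q)) v) / H.card := by
    ring
  rw [h6, div_le_iff₀ hc]
  linarith

private theorem D3_exp : (1000 : ℝ) ≤ Real.exp 4001 ∧ 2 * Real.exp 4001 ≤ Real.exp 4100 ∧
    40 * Real.exp 6100 ≤ Real.exp 7000 ∧ (1 : ℝ) ≤ Real.exp 4100 := by
  have h1 := Real.add_one_le_exp (4001 : ℝ)
  have h2 : (2 : ℝ) ≤ Real.exp 99 := by
    have := Real.add_one_le_exp (99 : ℝ)
    linarith
  have h3 : (40 : ℝ) ≤ Real.exp 900 := by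
    have := Real.add_one_le_exp (900 : ℝ)
    linarith
  have h4 : Real.exp 4100 = Real.exp 99 * Real.exp 4001 := by
    rw [← Real.exp_add]
    norm_num
  have h5 : Real.exp 7000 = Real.exp 900 * Real.exp 6100 := by
    rw [← Real.exp_add]
    norm_num
  refine ⟨by linarith, ?_, ?_, ?_⟩
  · rw [h4]
    exact mul_le_mul_of_nonneg_right h2 (Real.exp_pos _).le
  · rw [h5]
    exact mul_le_mul_of_nonneg_right h3 (Real.exp_pos _).le
  · have := Real.add_one_le_exp (4100 : ℝ)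
    linarith

theorem gap_step (hd : 1 ≤ d) (hR : Rg d q) {f : Site d k → Fin q} (hf : Prp f) (A : Finset (Fin q)) (v : Site d k) (s : ℕ) (η : ℝ)
    (hη : 0 < η) (hη1 : η ≤ 1 / 1000) (hq : 1 / η ≤ q) (hG : GapH η A f v s) (hG' : GapH η A f v (s + 1)) :
    Gp f v s ≤ (max (Gp f v s) 0 + max (Gp f v (s + 1)) 0) / 4 + Real.exp 4100 * η := by
  classical
  obtain ⟨hq1, ha, ha2, h2d, -⟩ := rg_pos hd hR
  have hq0 : (0 : ℝ) < q := by exact_mod_cast hq1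
  set H : Finset (Fin q) := univ.filter fun c => gs A v s c = 1 + ms d q with hHdef
  have hmem : ∀ c, c ∈ H ↔ gs A v s c = 1 + ms d q := by
    intro c
    rw [hHdef, Finset.mem_filter]
    exact ⟨fun h => h.2, fun h => ⟨Finset.mem_univ _, h⟩⟩
  have hcard := D3_card hd hR A v s η hG H hmem
  have hHin : ∀ c ∈ H, gs A v s c = 1 + ms d q := fun c hc => (hmem c).1 hc
  have hHout : ∀ c ∈ Hᶜ, gs A v s c = 1 - ms d q := by
    intro c hc
    rw [Finset.mem_compl] at hc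
    rcases gm_cases A v s c with h | h
    · exact absurd ((hmem c).2 h) hc
    · exact h
  have hc49 : (q : ℝ) * (49 / 100) ≤ H.card := by
    have h1 := (abs_le.1 hcard).1
    have h2 : (49 / 100 : ℝ) ≤ (H.card : ℝ) / q := by linarith
    rw [le_div_iff₀ hq0] at h2
    linarith
  have hH0 : (0 : ℝ) < H.card := by nlinarith
  have hpt : ∀ u : Site d k, Real.log (al f u) ≤
      ((((Real.log (als (ra d q) (ms d q)) + -(1 / (H.card : ℝ)) * ∑ c ∈ H, (hh c f u - ra d q * (1 - ms d q))) +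
      4 / (H.card : ℝ) * ∑ c ∈ H, (hh c f u - ra d q * (1 - ms d q)) ^ 2) +
      ((∑ c ∈ Hᶜ, ya c f u) / q - (1 - ms d q) / 2) / (1 - (1 - ms d q) / 2)) +
      10 ^ 5 * ((∑ c ∈ Hᶜ, ya c f u) / q - (1 - ms d q) / 2) ^ 2) + 2 * η := by
    intro u
    have h := site_ineq hq1 ha ha2 (ms_spec hd hR) η hη.le (by linarith) H hcard (fun c => hh c f u)
      (fun c => hh_nonneg c f u) (by rw [sum_hh hf u]; exact h2d)
    unfold ya al
    linarith
  have hE := PPt_mono s hpt v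
  rw [D3_add s (fun u => (((Real.log (als (ra d q) (ms d q)) + -(1 / (H.card : ℝ)) * ∑ c ∈ H, (hh c f u - ra d q * (1 - ms d q))) +
      4 / (H.card : ℝ) * ∑ c ∈ H, (hh c f u - ra d q * (1 - ms d q)) ^ 2) +
      ((∑ c ∈ Hᶜ, ya c f u) / q - (1 - ms d q) / 2) / (1 - (1 - ms d q) / 2)) +
      10 ^ 5 * ((∑ c ∈ Hᶜ, ya c f u) / q - (1 - ms d q) / 2) ^ 2) (fun _ => 2 * η) v,
    D3_add s (fun u => ((Real.log (als (ra d q) (ms d q)) + -(1 / (H.card : ℝ)) * ∑ c ∈ H, (hh c f u - ra d q * (1 - ms d q))) +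
      4 / (H.card : ℝ) * ∑ c ∈ H, (hh c f u - ra d q * (1 - ms d q)) ^ 2) +
      ((∑ c ∈ Hᶜ, ya c f u) / q - (1 - ms d q) / 2) / (1 - (1 - ms d q) / 2))
      (fun u => 10 ^ 5 * ((∑ c ∈ Hᶜ, ya c f u) / q - (1 - ms d q) / 2) ^ 2) v,
    D3_add s (fun u => (Real.log (als (ra d q) (ms d q)) + -(1 / (H.card : ℝ)) * ∑ c ∈ H, (hh c f u - ra d q * (1 - ms d q))) +
      4 / (H.card : ℝ) * ∑ c ∈ H, (hh c f u - ra d q * (1 - ms d q)) ^ 2)
      (fun u => ((∑ c ∈ Hᶜ, ya c f u) / q - (1 - ms d q) / 2) / (1 - (1 - ms d q) / 2)) v,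
    D3_add s (fun u => Real.log (als (ra d q) (ms d q)) + -(1 / (H.card : ℝ)) * ∑ c ∈ H, (hh c f u - ra d q * (1 - ms d q)))
      (fun u => 4 / (H.card : ℝ) * ∑ c ∈ H, (hh c f u - ra d q * (1 - ms d q)) ^ 2) v,
    D3_add s (fun _ => Real.log (als (ra d q) (ms d q)))
      (fun u => -(1 / (H.card : ℝ)) * ∑ c ∈ H, (hh c f u - ra d q * (1 - ms d q))) v,
    PPt_const hd, PPt_const hd,
    PPt_mul s (-(1 / (H.card : ℝ))) (fun u => ∑ c ∈ H, (hh c f u - ra d q * (1 - ms d q))) v,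
    PPt_mul s (4 / (H.card : ℝ)) (fun u => ∑ c ∈ H, (hh c f u - ra d q * (1 - ms d q)) ^ 2) v,
    PPt_mul s (10 ^ 5) (fun u => ((∑ c ∈ Hᶜ, ya c f u) / q - (1 - ms d q) / 2) ^ 2) v] at hE
  have t1 := D3_T1 hd A v s η hG H hHin hH0
  have t2 := D3_T2 hd hR hf A v s η hη hq hG hG' H hHin hc49
  have t3 := D3_T3 hd hR A v s η hη hη1 hG H hcard hHout
  have t4 := D3_T4 hd hR hf A v s η hη hG H hcard hHout
  have hG0 : 0 ≤ max (Gp f v s) 0 + Real.exp 4001 * η := add_nonneg (le_max_right _ _) (by positivity)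
  have t5 : 24 * 10 ^ 5 * Real.exp (-ra d q) * (max (Gp f v s) 0 + Real.exp 4001 * η) ≤
      1 / 4 * (max (Gp f v s) 0 + Real.exp 4001 * η) := mul_le_mul_of_nonneg_right (D3_num ha).2 hG0
  have hηη : η ^ 2 ≤ η / 1000 := by nlinarith
  obtain ⟨x1, x2, -, -⟩ := D3_exp
  have x1' : 1000 * η ≤ Real.exp 4001 * η := mul_le_mul_of_nonneg_right x1 hη.le
  have x2' : 2 * Real.exp 4001 * η ≤ Real.exp 4100 * η := mul_le_mul_of_nonneg_right x2 hη.le
  have hGp : Gp f v s = PP^[s] (fun u => Real.log (al f u)) v - Real.log (als (ra d q) (ms d q)) := rfl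
  rw [hGp] at t5 t4 ⊢
  linarith

private theorem D3_le_one (hd : 1 ≤ d) (hR : Rg d q) {f : Site d k → Fin q} (hf : Prp f) (v : Site d k) (s : ℕ) :
    max (Gp f v s) 0 ≤ 1 := by
  obtain ⟨hq1, ha, -⟩ := rg_pos hd hR
  obtain ⟨-, -, -, -, -, -, -, hals0, -, halse, -⟩ := mf_num ha (ms_spec hd hR)
  refine max_le ?_ zero_le_one
  unfold Gp
  have h1 : PP^[s] (fun u => Real.log (al f u)) v ≤ 0 := by
    have h2 := PPt_mono s (g := fun u => Real.log (al f u)) (h := fun _ => (0 : ℝ)) (fun u => by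
      refine Real.log_nonpos ?_ (al_le hq1 f u)
      exact (Real.exp_pos _).le.trans (al_ge hq1 hf u)) v
    rwa [PPt_const hd] at h2
  have h3 : -1 ≤ Real.log (als (ra d q) (ms d q)) := by
    rw [Real.le_log_iff_exp_le hals0]
    exact halse
  linarith

private theorem D3_step {x y E : ℝ} (hE : 0 ≤ E) (h : x ≤ (max x 0 + max y 0) / 4 + E) :
    max x 0 ≤ max y 0 / 3 + 4 / 3 * E := by
  have hy : 0 ≤ max y 0 := le_max_right _ _
  rcases le_total x 0 with hx | hx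
  · rw [max_eq_right hx]
    positivity
  · rw [max_eq_left hx] at h ⊢
    linarith

private theorem D3_iter (hd : 1 ≤ d) (hR : Rg d q) {f : Site d k → Fin q} (hf : Prp f) (A : Finset (Fin q)) (v : Site d k) (η : ℝ)
    (hη : 0 < η) (hη1 : η ≤ 1 / 1000) (hq : 1 / η ≤ q) (n : ℕ) :
    ∀ s, (∀ j, s ≤ j → j ≤ s + n → GapH η A f v j) → max (Gp f v s) 0 ≤ (1 / 3 : ℝ) ^ n + 2 * (Real.exp 4100 * η) := by
  induction n with
  | zero =>
    intro s _
    have h1 := D3_le_one hd hR hf v s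
    have h2 : 0 ≤ 2 * (Real.exp 4100 * η) := by positivity
    rw [pow_zero]
    linarith
  | succ n ih =>
    intro s hs
    have h1 := gap_step hd hR hf A v s η hη hη1 hq (hs s le_rfl (by omega)) (hs (s + 1) (by omega) (by omega))
    have h2 := D3_step (by positivity) h1
    have h3 := ih (s + 1) (fun j hj1 hj2 => hs j (by omega) (by omega))
    rw [pow_succ]
    linarith

theorem gap_iter (hd : 1 ≤ d) (hR : Rg d q) {f : Site d k → Fin q} (hf : Prp f) (A : Finset (Fin q)) (v : Site d k) (t J : ℕ) (η : ℝ)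
    (hη : 0 < η) (hη1 : η ≤ 1 / 1000) (hq : 1 / η ≤ q) (hJ : (1 / 3 : ℝ) ^ J ≤ η)
    (hG : ∀ s, t ≤ s → s ≤ t + J + 1 → GapH η A f v s) (s : ℕ) (hs : s = t ∨ s = t + 1) (c : Fin q) :
    PP^[s] (fun u => (ya c f u - gs A v s c) ^ 2) v ≤ Real.exp 7000 * η := by
  have h1 := D3_iter hd hR hf A v η hη hη1 hq J s (fun j hj1 hj2 => hG j (by omega) (by omega))
  have h2 := gap_quad hd hR hf A v s η hη.le (hG s (by omega) (by omega)) c
  obtain ⟨-, x2, x3, x4⟩ := D3_exp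
  have h3 : Gp f v s ≤ 3 * (Real.exp 4100 * η) := by
    have h4 := le_max_left (Gp f v s) 0
    have h5 : η ≤ Real.exp 4100 * η := le_mul_of_one_le_left hη.le x4
    linarith
  have h6 : Gp f v s + Real.exp 4001 * η ≤ 4 * Real.exp 4100 * η := by
    have h7 : 2 * Real.exp 4001 * η ≤ Real.exp 4100 * η := mul_le_mul_of_nonneg_right x2 hη.le
    have h8 : 0 ≤ Real.exp 4001 * η := by positivity
    linarith
  have h9 : 8 * Real.exp 2000 * (Gp f v s + Real.exp 4001 * η) ≤ 8 * Real.exp 2000 * (4 * Real.exp 4100 * η) :=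
    mul_le_mul_of_nonneg_left h6 (by positivity)
  have h10 : 8 * Real.exp 2000 * (4 * Real.exp 4100 * η) = 32 * Real.exp 6100 * η := by
    have h11 : Real.exp 6100 = Real.exp 2000 * Real.exp 4100 := by
      rw [← Real.exp_add]
      norm_num
    rw [h11]
    ring
  have h12 : 32 * Real.exp 6100 * η ≤ Real.exp 7000 * η := by
    refine mul_le_mul_of_nonneg_right ?_ hη.le
    have := Real.exp_pos (6100 : ℝ)
    linarith
  linarith

end Pool.Agent.LC
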