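import Pool.Agent.Lib_MP_2c424f_lc1.D2

/-!
# LC1 D4: linear growth

`D j c u := |hc c f u - a (2 - gs A v j c)|`, `Db j u := mc (fun c => D j c u)`, `X j u := D j c u + Db j u`.
(1) `γ = gs A v j c`, `hs = a(2-γ)`, `e^{-hs} = als γ`: `|ya c f w - γ| ≤ |e^{-hh} - e^{-hs}|/al + γ |al - als|/al ≤ e^a |hh - hs| + 2e^a |al - als|`, `al ≥ e^{-a}`;
    `|al f w - als| ≤ mc |e^{-hh} - e^{-hs}| + |als| |mc (gs A v j) - 1| ≤ mc |hh - hs| + 2η` (`hA`: `mc (gs) = 1 + O(η)`);  `|hh - hs| ≤ D j c w + 2a 1[f w = c]` (`hc_eq`, `hh_self`), `mc` of it `≤ Db + 2a/q`.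
    So `|ya c f w - γ_j| ≤ 2e^a (X j w + 2a 1[f w = c] + 2a/q + 2η)`.
(2) `u` not `Xs η`: `D j c u ≤ a |PP (ya c f) u - gs A v (j+1) c| + η ≤ a PP |ya c f - gs A v (j+1) c| u + η`  (`2 - gs A v j c = gs A v (j+1) c`), `PP 1[f · = c] u = nf c f u/(2d) ≤ η`.
    Hence `X j u ≤ e^{2100} (PP (X (j+1)) u + η)`; for all `u`: `X j u ≤ 8d` (`hc_le`, `2a ≤ 4000 ≤ 2d`).  So `X j u ≤ e^{2100} (PP (X (j+1)) u + η) + 8d 1[Xs u]`.
(3) iterate `t` times at `v`: `X 0 v ≤ e^{2100 t} PP^[t] (X t) v + t e^{2100 t} η + ∑_{j<t} e^{2100 j} 8d PP^[j] 1[Xs] v`, and `PP^[t] (X t) v ≤ a PP^[t+1] |ya - gs| v + η + 8d PP^[t] 1[Xs] v` (for `c` and the mean over the colours),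
    `PP^[t+1] |ya - gs| v ≤ √ζ` (`PPt_sq`).   All together `≤ e^{2200 (t+2)} (√ζ + η)`.
`al_near`: (1) at `v` itself.
-/

set_option autoImplicit false

open Finset Filter

namespace Pool.Agent.LC

open Pool.Agent.LO Pool.Agent.LIN Pool.Agent.THR Pool.Agent.COR

variable {d k q : ℕ}

/-! ### the mean over the colours -/

private theorem D4_mc_mono {φ ψ : Fin q → ℝ} (h : ∀ c, φ c ≤ ψ c) : mc φ ≤ mc ψ := by
  unfold mc
  exact div_le_div_of_nonneg_right (Finset.sum_le_sum fun c _ => h c) (Nat.cast_nonneg _)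

private theorem D4_mc_add (φ ψ : Fin q → ℝ) : mc (fun c => φ c + ψ c) = mc φ + mc ψ := by
  unfold mc
  rw [Finset.sum_add_distrib, add_div]

private theorem D4_mc_sub (φ ψ : Fin q → ℝ) : mc (fun c => φ c - ψ c) = mc φ - mc ψ := by
  unfold mc
  rw [Finset.sum_sub_distrib, sub_div]

private theorem D4_mc_mul (r : ℝ) (φ : Fin q → ℝ) : mc (fun c => r * φ c) = r * mc φ := by
  unfold mc
  rw [← Finset.mul_sum, mul_div_assoc]

private theorem D4_mc_const (hq : 0 < q) (r : ℝ) : mc (fun _ : Fin q => r) = r := by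
  have hq' : (0 : ℝ) < q := by exact_mod_cast hq
  unfold mc
  rw [Finset.sum_const, Finset.card_univ, Fintype.card_fin, nsmul_eq_mul]
  field_simp

private theorem D4_mc_abs (φ : Fin q → ℝ) : |mc φ| ≤ mc fun c => |φ c| := by
  unfold mc
  rw [abs_div, Nat.abs_cast]
  exact div_le_div_of_nonneg_right (Finset.abs_sum_le_sum_abs _ _) (Nat.cast_nonneg _)

private theorem D4_mc_one (w : Fin q) : mc (fun c => ind (w = c)) = 1 / q := by
  have h : ∑ c : Fin q, ind (w = c) = 1 := by
    rw [Finset.sum_eq_single w]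
    · unfold ind
      rw [if_pos rfl]
    · intro b _ hb
      unfold ind
      rw [if_neg fun h => hb h.symm]
    · intro h
      exact absurd (Finset.mem_univ w) h
  show (∑ c : Fin q, ind (w = c)) / (q : ℝ) = 1 / q
  rw [h]

private theorem D4_PP_mc (t : ℕ) (g : Fin q → Site d k → ℝ) (x : Site d k) :
    PP^[t] (fun u => mc fun c => g c u) x = mc fun c => PP^[t] (g c) x := by
  have h1 : (fun u => mc fun c => g c u) = fun u => (1 / (q : ℝ)) * ∑ c, g c u := by
    funext u
    unfold mc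
    ring
  rw [h1, PPt_mul, PPt_sum]
  unfold mc
  ring

private theorem D4_PP_add (t : ℕ) (g h : Site d k → ℝ) (x : Site d k) :
    PP^[t] (fun u => g u + h u) x = PP^[t] g x + PP^[t] h x := by
  have h1 : (fun u => g u + h u) = fun u => g u - (-1) * h u := by
    funext u
    ring
  rw [h1, PPt_sub t g (fun u => (-1) * h u), PPt_mul]
  ring

private theorem D4_PP_one (g : Site d k → ℝ) (x : Site d k) : PP^[1] g x = PP g x := rfl

/-! ### the mean-field values -/

private theorem D4_gs_succ (A : Finset (Fin q)) (v : Site d k) (j : ℕ) (c : Fin q) :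
    gs A v (j + 1) c = 2 - gs A v j c := by
  unfold gs
  by_cases h : Even j
  · have h1 : ¬ Even (j + 1) := by
      rw [Nat.even_add_one, not_not]
      exact h
    rw [if_pos h, if_neg h1]
  · have h1 : Even (j + 1) := by
      rw [Nat.even_add_one]
      exact h
    rw [if_neg h, if_pos h1]
    ring

private theorem D4_gs_bd (hd : 1 ≤ d) (hR : Rg d q) (A : Finset (Fin q)) (v : Site d k) (j : ℕ) (c : Fin q) :
    0 ≤ gs A v j c ∧ gs A v j c ≤ 2 ∧
      Real.exp (-(ra d q * (2 - gs A v j c))) = als (ra d q) (ms d q) * gs A v j c := by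
  have hra := (rg_pos hd hR).2.1
  obtain ⟨h0, h1, _, h2, _, h3, h4, _⟩ := mf_num hra (ms_spec hd hR)
  rcases gm_cases A v j c with h | h
  · rw [h]
    refine ⟨by linarith, by linarith, ?_⟩
    rw [← h3]
    congr 2
    ring
  · rw [h]
    refine ⟨by linarith, by linarith, ?_⟩
    rw [← h4]
    congr 2
    ring

private theorem D4_gm_mc (hd : 1 ≤ d) (hR : Rg d q) (A : Finset (Fin q)) (v : Site d k) (η : ℝ)
    (hA : |(A.card : ℝ) / q - 1 / 2| ≤ η) : |mc (gm A v) - 1| ≤ 2 * η := by
  classical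
  have hra := (rg_pos hd hR).2.1
  have hq := (rg_pos hd hR).1
  have hq' : (0 : ℝ) < q := by exact_mod_cast hq
  obtain ⟨h0, h1, _⟩ := mf_num hra (ms_spec hd hR)
  have hη : 0 ≤ η := le_trans (abs_nonneg _) hA
  have key : |2 * ms d q * ((A.card : ℝ) / q - 1 / 2)| ≤ 2 * η := by
    rw [abs_mul, abs_of_pos (by linarith : (0 : ℝ) < 2 * ms d q)]
    have := mul_le_mul (by linarith : 2 * ms d q ≤ 2) hA (abs_nonneg _) (by norm_num)
    linarith
  have hs1 : ∑ c : Fin q, (if c ∈ A then (2 * ms d q) else 0) = 2 * ms d q * A.card := by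
    rw [Finset.sum_ite_mem, Finset.univ_inter, Finset.sum_const, nsmul_eq_mul]
    ring
  by_cases hv : evn v
  · have e1 : ∀ c, gm A v c = (1 - ms d q) + (if c ∈ A then (2 * ms d q) else 0) := by
      intro c
      unfold gm tS
      by_cases hc : c ∈ A
      · rw [if_pos hc, if_pos (by tauto)]
        ring
      · rw [if_neg hc, if_neg (by tauto)]
        ring
    have e2 : mc (gm A v) - 1 = 2 * ms d q * ((A.card : ℝ) / q - 1 / 2) := by
      unfold mc
      rw [Finset.sum_congr rfl fun c _ => e1 c, Finset.sum_add_distrib, hs1, Finset.sum_const,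
        Finset.card_univ, Fintype.card_fin, nsmul_eq_mul]
      field_simp
      ring
    rw [e2]
    exact key
  · have e1 : ∀ c, gm A v c = (1 + ms d q) - (if c ∈ A then (2 * ms d q) else 0) := by
      intro c
      unfold gm tS
      by_cases hc : c ∈ A
      · rw [if_pos hc, if_neg (by tauto)]
        ring
      · rw [if_neg hc, if_pos (by tauto)]
        ring
    have e2 : mc (gm A v) - 1 = -(2 * ms d q * ((A.card : ℝ) / q - 1 / 2)) := by
      unfold mc
      rw [Finset.sum_congr rfl fun c _ => e1 c, Finset.sum_sub_distrib, hs1, Finset.sum_const,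
        Finset.card_univ, Fintype.card_fin, nsmul_eq_mul]
      field_simp
      ring
    rw [e2, abs_neg]
    exact key

private theorem D4_gs_mc (hd : 1 ≤ d) (hR : Rg d q) (A : Finset (Fin q)) (v : Site d k) (j : ℕ) (η : ℝ)
    (hA : |(A.card : ℝ) / q - 1 / 2| ≤ η) : |mc (gs A v j) - 1| ≤ 2 * η := by
  have h1 := D4_gm_mc hd hR A v η hA
  have hq := (rg_pos hd hR).1
  by_cases h : Even j
  · have e : gs A v j = gm A v := by
      funext c
      unfold gs
      rw [if_pos h]
    rw [e]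
    exact h1
  · have e : gs A v j = fun c => 2 - gm A v c := by
      funext c
      unfold gs
      rw [if_neg h]
    rw [e, D4_mc_sub (fun _ => (2 : ℝ)) (gm A v), D4_mc_const hq]
    have e2 : 2 - mc (gm A v) - 1 = -(mc (gm A v) - 1) := by ring
    rw [e2, abs_neg]
    exact h1

/-! ### one step -/

private noncomputable def D4_D (A : Finset (Fin q)) (f : Site d k → Fin q) (v : Site d k) (j : ℕ) (c : Fin q) (u : Site d k) : ℝ :=
  |hc c f u - ra d q * (2 - gs A v j c)|

private noncomputable def D4_B (A : Finset (Fin q)) (f : Site d k → Fin q) (v : Site d k) (j : ℕ) (u : Site d k) : ℝ :=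
  mc fun c => D4_D A f v j c u

private theorem D4_ind (P : Prop) : 0 ≤ ind P := by
  unfold ind
  split_ifs <;> norm_num

private theorem D4_hh (hd : 1 ≤ d) (hR : Rg d q) (f : Site d k → Fin q) (A : Finset (Fin q))
    (v : Site d k) (j : ℕ) (c : Fin q) (w : Site d k) :
    |hh c f w - ra d q * (2 - gs A v j c)| ≤ D4_D A f v j c w + 2 * ra d q * ind (f w = c) := by
  have hra := (rg_pos hd hR).2.1
  obtain ⟨h0, h2, _⟩ := D4_gs_bd hd hR A v j c
  by_cases h : f w = c
  · have e1 : hh c f w = 0 := by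
      rw [← h]
      exact hh_self f w
    have e2 : ind (f w = c) = 1 := by
      unfold ind
      rw [if_pos h]
    have e3 : 0 ≤ D4_D A f v j c w := abs_nonneg _
    rw [e1, e2, zero_sub, abs_neg, abs_of_nonneg (mul_nonneg (by linarith) (by linarith))]
    nlinarith
  · have e1 : ind (f w = c) = 0 := by
      unfold ind
      rw [if_neg h]
    rw [e1, mul_zero, add_zero, ← hc_eq f w c h]
    exact le_refl _

private theorem D4_expL (x y : ℝ) (hx : 0 ≤ x) (hy : 0 ≤ y) :
    |Real.exp (-x) - Real.exp (-y)| ≤ |x - y| := by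
  have key : ∀ a b : ℝ, 0 ≤ a → a ≤ b → |Real.exp (-a) - Real.exp (-b)| ≤ |a - b| := by
    intro a b ha hab
    have h1 : Real.exp (-b) ≤ Real.exp (-a) := Real.exp_le_exp.2 (by linarith)
    have h2 : Real.exp (-a) ≤ 1 := Real.exp_le_one_iff.2 (by linarith)
    have h3 : Real.exp (-b) = Real.exp (-a) * Real.exp (-(b - a)) := by
      rw [← Real.exp_add]
      congr 1
      ring
    have h4 := Real.add_one_le_exp (-(b - a))
    rw [abs_of_nonneg (by linarith), abs_of_nonpos (by linarith), h3]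
    have h5 := Real.exp_pos (-a)
    nlinarith
  rcases le_total x y with h | h
  · exact key x y hx h
  · rw [abs_sub_comm, abs_sub_comm x y]
    exact key y x hy h

private theorem D4_al (hd : 1 ≤ d) (hR : Rg d q) (f : Site d k → Fin q) (A : Finset (Fin q))
    (v : Site d k) (j : ℕ) (η : ℝ) (hA : |(A.card : ℝ) / q - 1 / 2| ≤ η) (w : Site d k) :
    |al f w - als (ra d q) (ms d q)| ≤ D4_B A f v j w + 2 * ra d q / q + 2 * η := by
  have hra := (rg_pos hd hR).2.1
  have hq := (rg_pos hd hR).1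
  obtain ⟨h0, h1, _, h2, _, h3, h4, h5, h6, _⟩ := mf_num hra (ms_spec hd hR)
  have e1 : al f w = mc (fun c => Real.exp (-hh c f w)) := rfl
  have e2 : mc (fun c => Real.exp (-(ra d q * (2 - gs A v j c)))) = als (ra d q) (ms d q) * mc (gs A v j) := by
    rw [← D4_mc_mul]
    congr 1
    funext c
    exact (D4_gs_bd hd hR A v j c).2.2
  have e3 : al f w - als (ra d q) (ms d q) = mc (fun c => Real.exp (-hh c f w) - Real.exp (-(ra d q * (2 - gs A v j c)))) +
      als (ra d q) (ms d q) * (mc (gs A v j) - 1) := by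
    rw [D4_mc_sub (fun c => Real.exp (-hh c f w)) (fun c => Real.exp (-(ra d q * (2 - gs A v j c)))), e1, e2]
    ring
  rw [e3]
  refine (abs_add_le _ _).trans ?_
  have e4 : |als (ra d q) (ms d q) * (mc (gs A v j) - 1)| ≤ 2 * η := by
    rw [abs_mul, abs_of_pos h5]
    have h7 := D4_gs_mc hd hR A v j η hA
    calc als (ra d q) (ms d q) * |mc (gs A v j) - 1| ≤ 1 * |mc (gs A v j) - 1| :=
          mul_le_mul_of_nonneg_right h6 (abs_nonneg _)
      _ ≤ 2 * η := by linarith
  have e5 : |mc (fun c => Real.exp (-hh c f w) - Real.exp (-(ra d q * (2 - gs A v j c))))| ≤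
      D4_B A f v j w + 2 * ra d q / q := by
    refine (D4_mc_abs _).trans ?_
    have e6 : D4_B A f v j w + 2 * ra d q / q = mc (fun c => D4_D A f v j c w + 2 * ra d q * ind (f w = c)) := by
      rw [D4_mc_add (fun c => D4_D A f v j c w) (fun c => 2 * ra d q * ind (f w = c)), D4_mc_mul, D4_mc_one]
      unfold D4_B
      ring
    rw [e6]
    refine D4_mc_mono fun c => ?_
    refine (D4_expL _ _ (hh_nonneg c f w) ?_).trans (D4_hh hd hR f A v j c w)
    have h8 := (D4_gs_bd hd hR A v j c).2.1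
    exact mul_nonneg (by linarith) (by linarith)
  linarith

private theorem D4_ya (hd : 1 ≤ d) (hR : Rg d q) {f : Site d k → Fin q} (hf : Prp f) (A : Finset (Fin q))
    (v : Site d k) (j : ℕ) (η : ℝ) (hA : |(A.card : ℝ) / q - 1 / 2| ≤ η) (c : Fin q) (w : Site d k) :
    |ya c f w - gs A v j c| ≤ 2 * Real.exp (ra d q) * (D4_D A f v j c w + D4_B A f v j w +
      2 * ra d q * ind (f w = c) + 2 * ra d q / q + 2 * η) := by
  have hra := (rg_pos hd hR).2.1
  have hq := (rg_pos hd hR).1
  obtain ⟨g0, g2, g3⟩ := D4_gs_bd hd hR A v j c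
  have h1 := al_ge hq hf w
  have h2 : 0 < al f w := lt_of_lt_of_le (Real.exp_pos _) h1
  have h3 := D4_al hd hR f A v j η hA w
  have h4 := D4_hh hd hR f A v j c w
  have h5 : |Real.exp (-hh c f w) - Real.exp (-(ra d q * (2 - gs A v j c)))| ≤
      D4_D A f v j c w + 2 * ra d q * ind (f w = c) :=
    (D4_expL _ _ (hh_nonneg c f w) (mul_nonneg (by linarith) (by linarith))).trans h4
  have h9 : 1 / al f w ≤ Real.exp (ra d q) := by
    rw [div_le_iff₀ h2]
    calc (1 : ℝ) = Real.exp (ra d q) * Real.exp (-ra d q) := by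
          rw [← Real.exp_add, add_neg_cancel, Real.exp_zero]
      _ ≤ _ := mul_le_mul_of_nonneg_left h1 (Real.exp_nonneg _)
  have e1 : ya c f w - gs A v j c = (1 / al f w) * ((Real.exp (-hh c f w) - Real.exp (-(ra d q * (2 - gs A v j c)))) -
      gs A v j c * (al f w - als (ra d q) (ms d q))) := by
    rw [g3]
    unfold ya
    field_simp
    ring
  have e2 : |(Real.exp (-hh c f w) - Real.exp (-(ra d q * (2 - gs A v j c)))) -
      gs A v j c * (al f w - als (ra d q) (ms d q))| ≤
      2 * (D4_D A f v j c w + D4_B A f v j w + 2 * ra d q * ind (f w = c) + 2 * ra d q / q + 2 * η) := by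
    refine (abs_sub _ _).trans ?_
    rw [abs_mul, abs_of_nonneg g0]
    have h6 : gs A v j c * |al f w - als (ra d q) (ms d q)| ≤ 2 * (D4_B A f v j w + 2 * ra d q / q + 2 * η) := by
      calc gs A v j c * |al f w - als (ra d q) (ms d q)| ≤ 2 * |al f w - als (ra d q) (ms d q)| :=
            mul_le_mul_of_nonneg_right g2 (abs_nonneg _)
        _ ≤ _ := by linarith
    have h7 : 0 ≤ D4_D A f v j c w := abs_nonneg _
    have h8 : 0 ≤ 2 * ra d q * ind (f w = c) := mul_nonneg (by linarith) (D4_ind _)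
    linarith
  rw [e1, abs_mul, abs_of_pos (by positivity : 0 < 1 / al f w)]
  calc 1 / al f w * |(Real.exp (-hh c f w) - Real.exp (-(ra d q * (2 - gs A v j c)))) -
      gs A v j c * (al f w - als (ra d q) (ms d q))| ≤
      Real.exp (ra d q) * (2 * (D4_D A f v j c w + D4_B A f v j w + 2 * ra d q * ind (f w = c) + 2 * ra d q / q + 2 * η)) :=
        mul_le_mul h9 e2 (abs_nonneg _) (Real.exp_nonneg _)
    _ = _ := by ring

/-- the number of neighbours of one colour as a mean -/
private theorem D4_nf (hd : 1 ≤ d) (c : Fin q) (f : Site d k → Fin q) (u : Site d k) :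
    PP (fun w => ind (f w = c)) u = nf c f u / (2 * d) := by
  unfold PP nf ind
  congr 1
  rw [Finset.card_filter]
  push_cast
  refine Finset.sum_congr rfl fun σ _ => ?_
  by_cases h : f (u + sv σ) = c
  · rw [if_pos h, if_pos h]
  · rw [if_neg h, if_neg h]

/-- not exceptional: the local equation -/
private theorem D4_loc (hd : 1 ≤ d) (hR : Rg d q) (f : Site d k → Fin q) (A : Finset (Fin q)) (v : Site d k) (j : ℕ)
    (η : ℝ) (c : Fin q) (u : Site d k) (hu : ¬ Xs η f u) :
    D4_D A f v j c u ≤ η + ra d q * PP (fun w => |ya c f w - gs A v (j + 1) c|) u := by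
  have hra := (rg_pos hd hR).2.1
  unfold Xs at hu
  push Not at hu
  have h1 := hu.1 c
  have h2 : PP (ya c f) u - gs A v (j + 1) c = PP (fun w => ya c f w - gs A v (j + 1) c) u := by
    have h3 := PPt_sub 1 (ya c f) (fun _ => gs A v (j + 1) c) u
    rw [PPt_const hd] at h3
    exact h3.symm
  have h4 : |PP (fun w => ya c f w - gs A v (j + 1) c) u| ≤ PP (fun w => |ya c f w - gs A v (j + 1) c|) u :=
    PPt_abs 1 (fun w => ya c f w - gs A v (j + 1) c) u
  unfold D4_D
  rw [← D4_gs_succ]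
  have e1 : hc c f u - ra d q * gs A v (j + 1) c = (hc c f u - ra d q * PP (ya c f) u) +
      ra d q * (PP (ya c f) u - gs A v (j + 1) c) := by ring
  rw [e1]
  refine (abs_add_le _ _).trans (add_le_add h1 ?_)
  rw [abs_mul, abs_of_nonneg (by linarith : (0 : ℝ) ≤ ra d q), h2]
  exact mul_le_mul_of_nonneg_left h4 (by linarith)

private theorem D4_D_le (hd : 2000 ≤ d) (hR : Rg d q) {f : Site d k → Fin q} (hf : Prp f) (A : Finset (Fin q))
    (v : Site d k) (j : ℕ) (c : Fin q) (u : Site d k) : D4_D A f v j c u ≤ 2 * d := by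
  have hd1 : 1 ≤ d := by omega
  have hd' : (2000 : ℝ) ≤ d := by exact_mod_cast hd
  have hra := (rg_pos hd1 hR).2.1
  have hra2 := (rg_pos hd1 hR).2.2.1
  obtain ⟨g0, g2, _⟩ := D4_gs_bd hd1 hR A v j c
  obtain ⟨h0, h1⟩ := hc_le hf u c
  have h2 : 0 ≤ ra d q * (2 - gs A v j c) := mul_nonneg (by linarith) (by linarith)
  have h3 : ra d q * (2 - gs A v j c) ≤ 2000 * 2 := mul_le_mul hra2 (by linarith) (by linarith) (by norm_num)
  unfold D4_D
  rw [abs_le]
  constructor <;> linarith

private theorem D4_D0 (A : Finset (Fin q)) (f : Site d k → Fin q) (v : Site d k) (j : ℕ) (c : Fin q) (u : Site d k) :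
    0 ≤ D4_D A f v j c u := abs_nonneg _

private theorem D4_B0 (A : Finset (Fin q)) (f : Site d k → Fin q) (v : Site d k) (j : ℕ) (u : Site d k) :
    0 ≤ D4_B A f v j u := by
  unfold D4_B mc
  exact div_nonneg (Finset.sum_nonneg fun c _ => D4_D0 A f v j c u) (Nat.cast_nonneg _)

private theorem D4_B_le (hd : 2000 ≤ d) (hR : Rg d q) {f : Site d k → Fin q} (hf : Prp f) (A : Finset (Fin q))
    (v : Site d k) (j : ℕ) (u : Site d k) : D4_B A f v j u ≤ 2 * d := by
  have hq := (rg_pos (by omega : 1 ≤ d) hR).1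
  unfold D4_B
  refine (D4_mc_mono fun c => D4_D_le hd hR hf A v j c u).trans ?_
  rw [D4_mc_const hq]

private theorem D4_exp_num {a : ℝ} (ha : 1000 ≤ a) (ha2 : a ≤ 2000) :
    6 * a * Real.exp a ≤ Real.exp 2100 ∧ 2 + 4 * a * Real.exp a * (3 * a + 2) ≤ Real.exp 2100 := by
  have h1 : Real.exp a ≤ Real.exp 2000 := Real.exp_le_exp.2 ha2
  have h2 : Real.exp 2100 = Real.exp 2000 * Real.exp 100 := by
    rw [← Real.exp_add]
    norm_num
  have h3 : (2 : ℝ) ^ 100 ≤ Real.exp 100 := by
    have h4 : (2 : ℝ) ≤ Real.exp 1 := by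
      have := Real.add_one_le_exp (1 : ℝ)
      linarith
    calc (2 : ℝ) ^ 100 ≤ Real.exp 1 ^ 100 := pow_le_pow_left₀ (by norm_num) h4 _
      _ = Real.exp 100 := by
          rw [← Real.exp_nat_mul]
          norm_num
  have h5 : (1 : ℝ) ≤ Real.exp 2000 := Real.one_le_exp (by norm_num)
  have h6 := Real.exp_pos a
  have h7 : (10 : ℝ) ^ 10 ≤ Real.exp 100 := le_trans (by norm_num) h3
  constructor
  · rw [h2]
    calc 6 * a * Real.exp a ≤ 12000 * Real.exp 2000 :=
          mul_le_mul (by linarith) h1 h6.le (by norm_num)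
      _ ≤ Real.exp 2000 * Real.exp 100 := by nlinarith
  · rw [h2]
    have h8 : 4 * a * Real.exp a * (3 * a + 2) ≤ 8000 * Real.exp 2000 * 6002 := by
      refine mul_le_mul (mul_le_mul (by linarith) h1 h6.le (by norm_num)) (by linarith) (by linarith) (by positivity)
    nlinarith

/-- one step of the growth, for all sites -/
private theorem D4_step (hd : 2000 ≤ d) (hR : Rg d q) {f : Site d k → Fin q} (hf : Prp f) (A : Finset (Fin q))
    (v : Site d k) (j : ℕ) (η : ℝ) (hη : 0 < η) (hq : 1 / η ≤ q) (hA : |(A.card : ℝ) / q - 1 / 2| ≤ η)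
    (c : Fin q) (u : Site d k) :
    D4_D A f v j c u + D4_B A f v j u ≤
      (Real.exp 2100 * PP (fun w => D4_D A f v (j + 1) c w + D4_B A f v (j + 1) w) u + Real.exp 2100 * η) +
        8 * d * ind (Xs η f u) := by
  have hd1 : 1 ≤ d := by omega
  have hd' : (2000 : ℝ) ≤ d := by exact_mod_cast hd
  have hdp : (0 : ℝ) < d := by linarith
  have hra := (rg_pos hd1 hR).2.1
  have hra2 := (rg_pos hd1 hR).2.2.1
  have hq0 := (rg_pos hd1 hR).1
  have hq' : (0 : ℝ) < q := by exact_mod_cast hq0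
  have hK := D4_exp_num hra hra2
  have hK0 := Real.exp_pos 2100
  have hP0 : ∀ g : Site d k → ℝ, (∀ w, 0 ≤ g w) → 0 ≤ PP g u := by
    intro g hg
    have h := PPt_mono 1 (g := fun _ => (0 : ℝ)) (h := g) hg u
    rw [PPt_const hd1] at h
    exact h
  by_cases hu : Xs η f u
  · have e1 : ind (Xs η f u) = 1 := by
      unfold ind
      rw [if_pos hu]
    have e2 := D4_D_le hd hR hf A v j c u
    have e3 := D4_B_le hd hR hf A v j u
    have e4 : 0 ≤ PP (fun w => D4_D A f v (j + 1) c w + D4_B A f v (j + 1) w) u :=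
      hP0 _ fun w => add_nonneg (D4_D0 _ _ _ _ _ _) (D4_B0 _ _ _ _ _)
    have e5 : 0 ≤ Real.exp 2100 * PP (fun w => D4_D A f v (j + 1) c w + D4_B A f v (j + 1) w) u + Real.exp 2100 * η := by
      positivity
    rw [e1]
    linarith
  · have hnf : ∀ c : Fin q, nf c f u ≤ η * d := by
      unfold Xs at hu
      push Not at hu
      exact hu.2
    have hqη : 2 * ra d q / q ≤ 2 * ra d q * η := by
      have h1 : 1 / (q : ℝ) ≤ η := by
        rw [div_le_iff₀ hη] at hq
        rw [div_le_iff₀ hq']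
        linarith
      calc 2 * ra d q / q = 2 * ra d q * (1 / q) := by ring
        _ ≤ _ := mul_le_mul_of_nonneg_left h1 (by linarith)
    have hstep : ∀ c : Fin q, D4_D A f v j c u ≤ η + 2 * ra d q * Real.exp (ra d q) *
        (PP (D4_D A f v (j + 1) c) u + PP (D4_B A f v (j + 1)) u + (3 * ra d q + 2) * η) := by
      intro c
      refine (D4_loc hd1 hR f A v j η c u hu).trans ?_
      have h1 : PP (fun w => |ya c f w - gs A v (j + 1) c|) u ≤ PP (fun w => 2 * Real.exp (ra d q) *
          ((D4_D A f v (j + 1) c w + D4_B A f v (j + 1) w) + (2 * ra d q * ind (f w = c) +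
            (2 * ra d q / q + 2 * η)))) u := by
        refine PPt_mono 1 (g := fun w => |ya c f w - gs A v (j + 1) c|) (h := fun w => 2 * Real.exp (ra d q) *
          ((D4_D A f v (j + 1) c w + D4_B A f v (j + 1) w) + (2 * ra d q * ind (f w = c) +
            (2 * ra d q / q + 2 * η)))) (fun w => ?_) u
        refine (D4_ya hd1 hR hf A v (j + 1) η hA c w).trans (le_of_eq ?_)
        ring
      have h2 : PP (fun w => 2 * Real.exp (ra d q) *
          ((D4_D A f v (j + 1) c w + D4_B A f v (j + 1) w) + (2 * ra d q * ind (f w = c) +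
            (2 * ra d q / q + 2 * η)))) u = 2 * Real.exp (ra d q) *
          ((PP (D4_D A f v (j + 1) c) u + PP (D4_B A f v (j + 1)) u) + (2 * ra d q * PP (fun w => ind (f w = c)) u +
            (2 * ra d q / q + 2 * η))) := by
        have g1 := PPt_mul 1 (2 * Real.exp (ra d q)) (fun w => (D4_D A f v (j + 1) c w + D4_B A f v (j + 1) w) +
          (2 * ra d q * ind (f w = c) + (2 * ra d q / q + 2 * η))) u
        have g2 := D4_PP_add 1 (fun w => D4_D A f v (j + 1) c w + D4_B A f v (j + 1) w)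
          (fun w => 2 * ra d q * ind (f w = c) + (2 * ra d q / q + 2 * η)) u
        have g3 := D4_PP_add 1 (D4_D A f v (j + 1) c) (D4_B A f v (j + 1)) u
        have g4 := D4_PP_add 1 (fun w => 2 * ra d q * ind (f w = c)) (fun _ => 2 * ra d q / q + 2 * η) u
        have g5 := PPt_mul 1 (2 * ra d q) (fun w => ind (f w = c)) u
        have g6 := PPt_const hd1 1 (2 * ra d q / q + 2 * η) u
        rw [g3, g4, g5, g6] at g2
        rw [g2] at g1
        exact g1
      have h3 : PP (fun w => ind (f w = c)) u ≤ η / 2 := by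
        rw [D4_nf hd1, div_le_iff₀ (by linarith)]
        have := hnf c
        linarith
      have h4 : 2 * ra d q * PP (fun w => ind (f w = c)) u ≤ ra d q * η := by
        calc 2 * ra d q * PP (fun w => ind (f w = c)) u ≤ 2 * ra d q * (η / 2) :=
              mul_le_mul_of_nonneg_left h3 (by linarith)
          _ = _ := by ring
      have h5 : PP (fun w => |ya c f w - gs A v (j + 1) c|) u ≤ 2 * Real.exp (ra d q) *
          (PP (D4_D A f v (j + 1) c) u + PP (D4_B A f v (j + 1)) u + (3 * ra d q + 2) * η) := by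
        refine (h1.trans (le_of_eq h2)).trans ?_
        refine mul_le_mul_of_nonneg_left ?_ (by positivity)
        linarith
      have h6 := mul_le_mul_of_nonneg_left h5 (by linarith : (0 : ℝ) ≤ ra d q)
      linarith
    have hB : D4_B A f v j u ≤ η + 2 * ra d q * Real.exp (ra d q) *
        (2 * PP (D4_B A f v (j + 1)) u + (3 * ra d q + 2) * η) := by
      unfold D4_B
      refine (D4_mc_mono hstep).trans (le_of_eq ?_)
      have g1 : mc (fun c : Fin q => PP (D4_D A f v (j + 1) c) u) = PP (D4_B A f v (j + 1)) u :=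
        (D4_PP_mc 1 (fun c => D4_D A f v (j + 1) c) u).symm
      have g2 := D4_mc_add (q := q) (fun _ => η) (fun c => 2 * ra d q * Real.exp (ra d q) *
        (PP (D4_D A f v (j + 1) c) u + PP (D4_B A f v (j + 1)) u + (3 * ra d q + 2) * η))
      have g3 := D4_mc_mul (q := q) (2 * ra d q * Real.exp (ra d q)) (fun c =>
        (PP (D4_D A f v (j + 1) c) u + PP (D4_B A f v (j + 1)) u + (3 * ra d q + 2) * η))
      have g4 := D4_mc_add (q := q) (fun c => PP (D4_D A f v (j + 1) c) u + PP (D4_B A f v (j + 1)) u)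
        (fun _ => (3 * ra d q + 2) * η)
      have g5 := D4_mc_add (q := q) (fun c => PP (D4_D A f v (j + 1) c) u) (fun _ => PP (D4_B A f v (j + 1)) u)
      rw [D4_mc_const hq0] at g2 g4 g5
      rw [g2, g3, g4, g5, g1]
      have g6 : (PP (fun u => mc fun c => D4_D A f v (j + 1) c u) u) = PP (D4_B A f v (j + 1)) u := rfl
      try rw [g6]
      ring
    have e1 : ind (Xs η f u) = 0 := by
      unfold ind
      rw [if_neg hu]
    have e2 : PP (fun w => D4_D A f v (j + 1) c w + D4_B A f v (j + 1) w) u =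
        PP (D4_D A f v (j + 1) c) u + PP (D4_B A f v (j + 1)) u :=
      D4_PP_add 1 (D4_D A f v (j + 1) c) (D4_B A f v (j + 1)) u
    have e3 : 0 ≤ PP (D4_D A f v (j + 1) c) u := hP0 _ fun w => D4_D0 _ _ _ _ _ _
    have e4 : 0 ≤ PP (D4_B A f v (j + 1)) u := hP0 _ fun w => D4_B0 _ _ _ _ _
    have e5 := hstep c
    rw [e1, e2, mul_zero, add_zero]
    have e6 : 0 < Real.exp (ra d q) := Real.exp_pos _
    have e7 : 6 * ra d q * Real.exp (ra d q) * (PP (D4_D A f v (j + 1) c) u + PP (D4_B A f v (j + 1)) u) ≤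
        Real.exp 2100 * (PP (D4_D A f v (j + 1) c) u + PP (D4_B A f v (j + 1)) u) :=
      mul_le_mul_of_nonneg_right hK.1 (by linarith)
    have e8 : (2 + 4 * ra d q * Real.exp (ra d q) * (3 * ra d q + 2)) * η ≤ Real.exp 2100 * η :=
      mul_le_mul_of_nonneg_right hK.2 hη.le
    have e9 : 0 ≤ ra d q * Real.exp (ra d q) * PP (D4_D A f v (j + 1) c) u := by positivity
    nlinarith

/-- the iteration -/
private theorem D4_iter (hd : 2000 ≤ d) (hR : Rg d q) {f : Site d k → Fin q} (hf : Prp f) (A : Finset (Fin q))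
    (v : Site d k) (t : ℕ) (η : ℝ) (hη : 0 < η) (hq : 1 / η ≤ q) (hA : |(A.card : ℝ) / q - 1 / 2| ≤ η)
    (h2 : ∀ j ≤ t, 8 * (d : ℝ) * PP^[j] (fun u => ind (Xs η f u)) v ≤ η) (c : Fin q) (n : ℕ) (hn : n ≤ t) :
    D4_D A f v 0 c v + D4_B A f v 0 v ≤
      Real.exp 2100 ^ n * PP^[n] (fun w => D4_D A f v n c w + D4_B A f v n w) v + 2 * n * Real.exp 2100 ^ n * η := by
  have hK1 : (1 : ℝ) ≤ Real.exp 2100 := Real.one_le_exp (by norm_num)
  induction n with
  | zero =>
    simp
  | succ n ih =>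
    refine (ih (by omega)).trans ?_
    have h1 : PP^[n] (fun w => D4_D A f v n c w + D4_B A f v n w) v ≤
        PP^[n] (fun u => (Real.exp 2100 * PP (fun w => D4_D A f v (n + 1) c w + D4_B A f v (n + 1) w) u +
          Real.exp 2100 * η) + 8 * d * ind (Xs η f u)) v :=
      PPt_mono n (fun u => D4_step hd hR hf A v n η hη hq hA c u) v
    have h3 : PP^[n] (fun u => (Real.exp 2100 * PP (fun w => D4_D A f v (n + 1) c w + D4_B A f v (n + 1) w) u +
          Real.exp 2100 * η) + 8 * d * ind (Xs η f u)) v =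
        (Real.exp 2100 * PP^[n + 1] (fun w => D4_D A f v (n + 1) c w + D4_B A f v (n + 1) w) v + Real.exp 2100 * η) +
          8 * d * PP^[n] (fun u => ind (Xs η f u)) v := by
      rw [D4_PP_add n (fun u => Real.exp 2100 * PP (fun w => D4_D A f v (n + 1) c w + D4_B A f v (n + 1) w) u +
          Real.exp 2100 * η) (fun u => 8 * d * ind (Xs η f u)),
        D4_PP_add n (fun u => Real.exp 2100 * PP (fun w => D4_D A f v (n + 1) c w + D4_B A f v (n + 1) w) u)
          (fun _ => Real.exp 2100 * η), PPt_const (by omega : 1 ≤ d),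
        PPt_mul n (8 * (d : ℝ)) (fun u => ind (Xs η f u)),
        PPt_mul n (Real.exp 2100) (PP (fun w => D4_D A f v (n + 1) c w + D4_B A f v (n + 1) w)),
        Function.iterate_succ_apply]
    have h4 := h2 n (by omega)
    have h5 : PP^[n] (fun w => D4_D A f v n c w + D4_B A f v n w) v ≤
        Real.exp 2100 * PP^[n + 1] (fun w => D4_D A f v (n + 1) c w + D4_B A f v (n + 1) w) v +
          (Real.exp 2100 * η + η) := by
      refine (h1.trans (le_of_eq h3)).trans ?_
      linarith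
    have h6 := mul_le_mul_of_nonneg_left h5 (by positivity : (0 : ℝ) ≤ Real.exp 2100 ^ n)
    have h7 : Real.exp 2100 ^ (n + 1) = Real.exp 2100 ^ n * Real.exp 2100 := pow_succ _ _
    have h8 : Real.exp 2100 ^ n ≤ Real.exp 2100 ^ (n + 1) := by
      rw [h7]
      exact le_mul_of_one_le_right (by positivity) hK1
    have h9 : 0 ≤ Real.exp 2100 ^ n := by positivity
    have h10 : 2 * (n : ℝ) * Real.exp 2100 ^ n * η ≤ 2 * n * Real.exp 2100 ^ (n + 1) * η := by
      refine mul_le_mul_of_nonneg_right (mul_le_mul_of_nonneg_left h8 (by positivity)) hη.le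
    have h11 : Real.exp 2100 ^ n * η ≤ Real.exp 2100 ^ (n + 1) * η := mul_le_mul_of_nonneg_right h8 hη.le
    push_cast
    calc Real.exp 2100 ^ n * PP^[n] (fun w => D4_D A f v n c w + D4_B A f v n w) v + 2 * n * Real.exp 2100 ^ n * η
        ≤ Real.exp 2100 ^ n * (Real.exp 2100 * PP^[n + 1] (fun w => D4_D A f v (n + 1) c w + D4_B A f v (n + 1) w) v +
          (Real.exp 2100 * η + η)) + 2 * n * Real.exp 2100 ^ (n + 1) * η := add_le_add h6 h10
      _ = Real.exp 2100 ^ (n + 1) * PP^[n + 1] (fun w => D4_D A f v (n + 1) c w + D4_B A f v (n + 1) w) v +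
          (Real.exp 2100 ^ (n + 1) * η + Real.exp 2100 ^ n * η) + 2 * n * Real.exp 2100 ^ (n + 1) * η := by
          rw [h7]
          ring
      _ ≤ _ := by linarith

/-- the last step -/
private theorem D4_last (hd : 2000 ≤ d) (hR : Rg d q) {f : Site d k → Fin q} (hf : Prp f) (A : Finset (Fin q))
    (v : Site d k) (t : ℕ) (η ζ : ℝ) (hη : 0 < η)
    (h1 : ∀ c : Fin q, PP^[t + 1] (fun u => (ya c f u - gs A v (t + 1) c) ^ 2) v ≤ ζ)
    (h2 : 8 * (d : ℝ) * PP^[t] (fun u => ind (Xs η f u)) v ≤ η) (c : Fin q) :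
    PP^[t] (D4_D A f v t c) v ≤ 2000 * Real.sqrt ζ + 2 * η := by
  have hd1 : 1 ≤ d := by omega
  have hra := (rg_pos hd1 hR).2.1
  have hra2 := (rg_pos hd1 hR).2.2.1
  have hdp : (0 : ℝ) < d := by
    have : (2000 : ℝ) ≤ d := by exact_mod_cast hd
    linarith
  have hstep : ∀ u, D4_D A f v t c u ≤ (η + ra d q * PP (fun w => |ya c f w - gs A v (t + 1) c|) u) +
      2 * d * ind (Xs η f u) := by
    intro u
    have hP0 : 0 ≤ PP (fun w => |ya c f w - gs A v (t + 1) c|) u := by
      have h := PPt_mono 1 (g := fun _ => (0 : ℝ)) (h := fun w => |ya c f w - gs A v (t + 1) c|)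
        (fun w => abs_nonneg _) u
      rw [PPt_const hd1] at h
      exact h
    by_cases hu : Xs η f u
    · have e1 : ind (Xs η f u) = 1 := by
        unfold ind
        rw [if_pos hu]
      have e2 := D4_D_le hd hR hf A v t c u
      have e3 : 0 ≤ ra d q * PP (fun w => |ya c f w - gs A v (t + 1) c|) u := mul_nonneg (by linarith) hP0
      rw [e1]
      linarith
    · have e1 : ind (Xs η f u) = 0 := by
        unfold ind
        rw [if_neg hu]
      rw [e1, mul_zero, add_zero]
      exact D4_loc hd1 hR f A v t η c u hu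
  have h3 := PPt_mono t hstep v
  rw [D4_PP_add t (fun u => η + ra d q * PP (fun w => |ya c f w - gs A v (t + 1) c|) u) (fun u => 2 * d * ind (Xs η f u)),
    D4_PP_add t (fun _ => η) (fun u => ra d q * PP (fun w => |ya c f w - gs A v (t + 1) c|) u), PPt_const hd1,
    PPt_mul t (2 * (d : ℝ)) (fun u => ind (Xs η f u)),
    PPt_mul t (ra d q) (PP (fun w => |ya c f w - gs A v (t + 1) c|)), ← Function.iterate_succ_apply] at h3
  have h4 : PP^[t + 1] (fun w => |ya c f w - gs A v (t + 1) c|) v ≤ Real.sqrt ζ := by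
    refine Real.le_sqrt_of_sq_le ?_
    refine (PPt_sq hd1 (t + 1) (fun w => |ya c f w - gs A v (t + 1) c|) v).trans ?_
    have e : (fun y => |ya c f y - gs A v (t + 1) c| ^ 2) = fun y => (ya c f y - gs A v (t + 1) c) ^ 2 := by
      funext y
      exact sq_abs _
    rw [e]
    exact h1 c
  have h5 : ra d q * PP^[t + 1] (fun w => |ya c f w - gs A v (t + 1) c|) v ≤ 2000 * Real.sqrt ζ := by
    calc ra d q * PP^[t + 1] (fun w => |ya c f w - gs A v (t + 1) c|) v ≤ ra d q * Real.sqrt ζ :=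
          mul_le_mul_of_nonneg_left h4 (by linarith)
      _ ≤ _ := mul_le_mul_of_nonneg_right hra2 (Real.sqrt_nonneg _)
  have h6 : 0 ≤ PP^[t] (fun u => ind (Xs η f u)) v := by
    have h := PPt_mono t (g := fun _ => (0 : ℝ)) (h := fun u => ind (Xs η f u)) (fun w => D4_ind _) v
    rw [PPt_const hd1] at h
    exact h
  have h7 : 0 ≤ d * PP^[t] (fun u => ind (Xs η f u)) v := mul_nonneg hdp.le h6
  linarith

theorem growth (hd : 2000 ≤ d) (hR : Rg d q) {f : Site d k → Fin q} (hf : Prp f) (A : Finset (Fin q)) (v : Site d k) (t : ℕ) (η ζ : ℝ)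
    (hη : 0 < η) (hη1 : η ≤ 1 / 1000) (hζ : 0 ≤ ζ) (hq : 1 / η ≤ q) (hA : |(A.card : ℝ) / q - 1 / 2| ≤ η)
    (h1 : ∀ c : Fin q, PP^[t + 1] (fun u => (ya c f u - gs A v (t + 1) c) ^ 2) v ≤ ζ)
    (h2 : ∀ j ≤ t, 8 * (d : ℝ) * PP^[j] (fun u => ind (Xs η f u)) v ≤ η) (c : Fin q) :
    |hc c f v - hs A v c| ≤ Real.exp (2200 * (t + 2)) * (Real.sqrt ζ + η) := by
  have hd1 : 1 ≤ d := by omega
  have hq0 := (rg_pos hd1 hR).1
  have hK1 : (1 : ℝ) ≤ Real.exp 2100 := Real.one_le_exp (by norm_num)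
  have e0 : |hc c f v - hs A v c| = D4_D A f v 0 c v := by
    unfold D4_D hs gs
    rw [if_pos Even.zero]
  have e1 := D4_iter hd hR hf A v t η hη hq hA h2 c t le_rfl
  have e2 : ∀ c, PP^[t] (D4_D A f v t c) v ≤ 2000 * Real.sqrt ζ + 2 * η :=
    fun c => D4_last hd hR hf A v t η ζ hη h1 (h2 t le_rfl) c
  have e3 : PP^[t] (D4_B A f v t) v ≤ 2000 * Real.sqrt ζ + 2 * η := by
    have g1 : PP^[t] (D4_B A f v t) v = mc fun c => PP^[t] (D4_D A f v t c) v :=
      D4_PP_mc t (fun c => D4_D A f v t c) v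
    rw [g1]
    refine (D4_mc_mono e2).trans ?_
    rw [D4_mc_const hq0]
  have e4 : PP^[t] (fun w => D4_D A f v t c w + D4_B A f v t w) v ≤ 4000 * Real.sqrt ζ + 4 * η := by
    rw [D4_PP_add t (D4_D A f v t c) (D4_B A f v t)]
    have := e2 c
    linarith
  have e5 := D4_B0 A f v 0 v
  have e6 : 0 ≤ Real.exp 2100 ^ t := by positivity
  have e7 := mul_le_mul_of_nonneg_left e4 e6
  have e8 : Real.exp (2200 * (t + 2)) = Real.exp 2100 ^ t * Real.exp (100 * t + 4400) := by
    rw [← Real.exp_nat_mul, ← Real.exp_add]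
    congr 1
    ring
  have e9 := Real.add_one_le_exp (100 * (t : ℝ) + 4400)
  have ht0 : (0 : ℝ) ≤ t := Nat.cast_nonneg _
  have hs0 := Real.sqrt_nonneg ζ
  have e10 : 4000 * Real.sqrt ζ + (4 + 2 * t) * η ≤ Real.exp (100 * t + 4400) * (Real.sqrt ζ + η) := by
    rw [mul_add]
    refine add_le_add (mul_le_mul_of_nonneg_right (by linarith) hs0) (mul_le_mul_of_nonneg_right (by linarith) hη.le)
  have e11 := mul_le_mul_of_nonneg_left e10 e6
  rw [e0, e8]
  calc D4_D A f v 0 c v ≤ D4_D A f v 0 c v + D4_B A f v 0 v := by linarith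
    _ ≤ Real.exp 2100 ^ t * (4000 * Real.sqrt ζ + 4 * η) + 2 * t * Real.exp 2100 ^ t * η := by linarith
    _ = Real.exp 2100 ^ t * (4000 * Real.sqrt ζ + (4 + 2 * t) * η) := by ring
    _ ≤ _ := by
        rw [mul_assoc]
        exact e11

theorem al_near (hd : 1 ≤ d) (hR : Rg d q) {f : Site d k → Fin q} (hf : Prp f) (A : Finset (Fin q)) (v : Site d k) (η θ : ℝ)
    (hη : 0 < η) (hq : 1 / η ≤ q) (hA : |(A.card : ℝ) / q - 1 / 2| ≤ η) (h : ∀ c : Fin q, |hc c f v - hs A v c| ≤ θ) :
    |al f v - als (ra d q) (ms d q)| ≤ θ + 5000 * η := by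
  have hra := (rg_pos hd hR).2.1
  have hra2 := (rg_pos hd hR).2.2.1
  have hq0 := (rg_pos hd hR).1
  have hq' : (0 : ℝ) < q := by exact_mod_cast hq0
  have h1 := D4_al hd hR f A v 0 η hA v
  have h2 : D4_B A f v 0 v ≤ θ := by
    unfold D4_B
    refine (D4_mc_mono (ψ := fun _ => θ) fun c => ?_).trans (le_of_eq (D4_mc_const hq0 θ))
    have h3 := h c
    unfold D4_D gs
    rw [if_pos Even.zero]
    exact h3
  have h4 : 2 * ra d q / q ≤ 4000 * η := by
    have h5 : 1 / (q : ℝ) ≤ η := by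
      rw [div_le_iff₀ hη] at hq
      rw [div_le_iff₀ hq']
      linarith
    calc 2 * ra d q / q = 2 * ra d q * (1 / q) := by ring
      _ ≤ 4000 * η := mul_le_mul (by linarith) h5 (by positivity) (by norm_num)
  linarith

end Pool.Agent.LC
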