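import Pool.Agent.Lib_MP_2c424f_lc1.C0
import Pool.Agent.Lib_MP_2c424f_thr.N1
import Pool.Agent.Lib_MP_2c424f_thr.N6

/-!
# LC1: definitions for the Jensen gap and the growth argument

`v` a site, `A` the set of the colours used at the even sites.
-/

set_option autoImplicit false

open Finset Filter

namespace Pool.Agent.LC

open Pool.Agent.LO Pool.Agent.LIN Pool.Agent.THR Pool.Agent.COR

/-- `r - 1 - log r` -/
noncomputable def Lm (r : ℝ) : ℝ := r - 1 - Real.log r

section
variable {d k q : ℕ}

/-- the value of `gm` at the sites at distance `s` of `v` -/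
noncomputable def gs (A : Finset (Fin q)) (v : Site d k) (s : ℕ) (c : Fin q) : ℝ := if Even s then gm A v c else 2 - gm A v c

/-- exceptional site: the local mean-field equation fails, or too many neighbours of one colour -/
def Xs (η : ℝ) (f : Site d k → Fin q) (u : Site d k) : Prop :=
  (∃ c : Fin q, η < |hc c f u - ra d q * PP (ya c f) u|) ∨ ∃ c : Fin q, η * d < nf c f u

/-- hypotheses at the level `s` -/
structure GapH (η : ℝ) (A : Finset (Fin q)) (f : Site d k → Fin q) (v : Site d k) (s : ℕ) : Prop where
  y : ∀ c, |PP^[s] (ya c f) v - gs A v s c| ≤ η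
  h : ∀ c, |PP^[s] (hh c f) v - ra d q * (2 - gs A v s c)| ≤ η
  e : 8 * (d : ℝ) ^ 2 * PP^[s] (fun u => ind (Xs η f u)) v ≤ η

/-- the Jensen gap -/
noncomputable def Gp (f : Site d k → Fin q) (v : Site d k) (s : ℕ) : ℝ :=
  PP^[s] (fun u => Real.log (al f u)) v - Real.log (als (ra d q) (ms d q))

end

end Pool.Agent.LC
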