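import Pool.Agent.Lib_MP_2c424f_lc.Defs
import Pool.Agent.Lib_MP_2c424f_thr.B0

/-!
# MP_2c424f_pr, corners in the linear regime, Part I (typicality on the torus): definitions

Paper proof: `/team-store/typ_proof.md` (helper31) and Part I of `/team-store/lincor_proof.md`.
Every statement of `THR` is used with `ε = e3 = 1/1000`; `Rg d q` is the regime `1000 ≤ 2d/q ≤ 2000`, `q` even.
-/

set_option autoImplicit false

open Finset Filter

namespace Pool.Agent.LC

open Pool.Agent.LO Pool.Agent.LIN Pool.Agent.THR Pool.Agent.COR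

/-- the parameter of `THR` -/
noncomputable def e3 : ℝ := 1 / 1000

open scoped Classical in
/-- number of elements with a property -/
noncomputable def cn {α : Type} [Fintype α] (P : α → Prop) : ℝ := ((univ.filter P).card : ℝ)

/-- the property `B` of sites is rare at the level `K`: w.o.p. at most `N/d^K` sites have it -/
def SRK (K : ℕ) (B : ∀ d k q : ℕ, (Site d k → Fin q) → Site d k → Prop) : Prop :=
  WOP e3 fun d k q f => Rg d q → cn (B d k q f) ≤ NN d k / (d : ℝ) ^ K

/-- the property `B` of sites is rare at every level -/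
def SR (B : ∀ d k q : ℕ, (Site d k → Fin q) → Site d k → Prop) : Prop := ∀ K : ℕ, SRK K B

/-- a point of a closed block: block and bit vectors -/
abbrev Tpl (d k : ℕ) := Blk d k × Bt d × Bt d

/-- the property `B` of (block, point) is rare at the level `K` (torus of side `2^(k+1)`) -/
def TRK (K : ℕ) (B : ∀ d k q : ℕ, (Site d (k + 1) → Fin q) → Tpl d k → Prop) : Prop :=
  WOPb e3 fun d k q f => Rg d q → cn (B d k q f) ≤ 4 ^ d * NN d k / (d : ℝ) ^ K

/-- the site of a triple -/
def tp {d k : ℕ} (p : Tpl d k) : Site d (k + 1) := pt p.1 p.2.1 p.2.2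

/-- `v` is reached from `u` by at most `r` steps -/
def nr {d k : ℕ} : ℕ → Site d k → Site d k → Prop
  | 0, u, v => u = v
  | r + 1, u, v => nr r u v ∨ ∃ σ : Stp d, nr r (u + sv σ) v

section stats
variable {d k q : ℕ}

open scoped Classical in
/-- `1` if no neighbour of `x`, except `v`, has the colour `c` -/
noncomputable def zc (f : Site d k → Fin q) (x v : Site d k) (c : Fin q) : ℝ :=
  if ∀ τ : Stp d, x + sv τ ≠ v → f (x + sv τ) ≠ c then 1 else 0

/-- `∑_{x ~ v} 1[c not on N(x) \ v] / |R_x|`; equal to `hh c f v` if `f v ≠ c` -/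
noncomputable def hc (c : Fin q) (f : Site d k → Fin q) (v : Site d k) : ℝ :=
  ∑ σ : Stp d, zc f (v + sv σ) v c / (av f (v + sv σ) : ℝ)

open scoped Classical in
/-- number of neighbours of `v` with the colour `c` -/
noncomputable def nf (c : Fin q) (f : Site d k → Fin q) (v : Site d k) : ℝ :=
  ((univ.filter fun σ : Stp d => f (v + sv σ) = c).card : ℝ)

open scoped Classical in
/-- number of neighbours of `x`, except `v`, with the colour `c` -/
noncomputable def nfx (c : Fin q) (f : Site d k → Fin q) (x v : Site d k) : ℝ :=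
  ((univ.filter fun τ : Stp d => x + sv τ ≠ v ∧ f (x + sv τ) = c).card : ℝ)

/-- the mean-field value of the density of the colour `c` at the parity of `v`: `1+m` if `c` is used there -/
noncomputable def gm (A : Finset (Fin q)) (v : Site d k) (c : Fin q) : ℝ := by
  classical exact if tS evn A v c then 1 + ms d q else 1 - ms d q

/-- the mean-field value of `hh c f v`: `a(1-m)` if `c` is used at the parity of `v`, `a(1+m)` otherwise -/
noncomputable def hs (A : Finset (Fin q)) (v : Site d k) (c : Fin q) : ℝ := ra d q * (2 - gm A v c)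

/-- typical site relative to the set `A` of the even colours, precision `θ` -/
def TS (θ : ℝ) (A : Finset (Fin q)) (f : Site d k → Fin q) (v : Site d k) : Prop :=
  (∀ c, |hc c f v - hs A v c| ≤ θ) ∧ |(av f v : ℝ) / q - als (ra d q) (ms d q)| ≤ θ

/-- pinned site: the `t`-step averages of the colour densities have the mean-field values -/
def Pn (δ : ℝ) (t : ℕ) (A : Finset (Fin q)) (f : Site d k → Fin q) (v : Site d k) : Prop :=
  ∀ c, |PP^[t] (bq c f) v - gm A v c| ≤ δ

/-- the gradient of the `t`-step averages is large at `v` -/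
def Gb (C₄ : ℝ) (t : ℕ) (f : Site d k → Fin q) (v : Site d k) : Prop :=
  ∃ (c : Fin q) (σ τ : Stp d), C₄ / q < |PP^[t] (bq c f) (v + sv σ) - PP^[t] (bq c f) (v + sv τ)|

open scoped Classical in
/-- indicator -/
noncomputable def ind (P : Prop) : ℝ := if P then 1 else 0

end stats

/-! ## Block means for both parities -/

section block
variable {d k q : ℕ}

/-- odd (`e = false`) or even (`e = true`) pairs of bit vectors in the shape -/
noncomputable def pS (e : Bool) (s : Shp d) : Finset (Bt d × Bt d) := if e then eS s else oS s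

/-- mean over the odd or even points of the shape -/
noncomputable def Mp (e : Bool) (s : Shp d) (t : Blk d k) (φ : Site d (k + 1) → ℝ) : ℝ :=
  (∑ p ∈ pS e s, φ (pt t p.1 p.2)) / ((pS e s).card : ℝ)

/-- the colour `c` has the density `τ` at the odd points and `F τ` at the even points of the block -/
def tau2 (η m yM : ℝ) (c : Fin q) (f : Site d (k + 1) → Fin q) (t : Blk d k) : Prop :=
  ∃ τ : ℝ, (τ = 1 - m ∨ τ = yM ∨ τ = 1 + m) ∧ (∀ s, |Mp false s t (bq c f) - τ| ≤ η) ∧
    ∀ s, |Mp true s t (bq c f) - Fy (ra d q) m τ| ≤ η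

end block

end Pool.Agent.LC
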