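import Pool.Agent.Lib_MP_2c424f_lc1.DDefs
import Pool.Agent.Lib_MP_2c424f_lc1.C1
import Pool.Agent.Lib_MP_2c424f_lc1.C3
import Pool.Agent.Lib_MP_2c424f_lc1.C4
import Pool.Agent.Lib_MP_2c424f_lc1.B5

/-!
# LC1 E1: the exceptional sites of the growth argument are rare

`GE_SRK`: `¬ GE` is the disjunction of five events.  `g`: `SRK.avgs` for `Gb C₄ t` with `K' = 2`, level `K + 1` (`K + 1 + 2 + 1 ≤ K + 6`, `SRK.le`).  `m`: `SR.avgs` for `smooth_pt t δ`.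
`y`: finite union of `gy_pt s δ`, `t ≤ s ≤ S` (`s ≥ 20`), induction over `S` with `SR.or`.
`x`: `Xs η` is rare by `hc_pt η`, `nf_pt η`; `SR.avgs` with `K' = 3`.  `a`: `av_pt δ`.  The last four are combined with `SR.or`, then `SRK.or` once.
-/

set_option autoImplicit false

open Finset Filter

namespace Pool.Agent.LC

open Pool.Agent.LO Pool.Agent.LIN Pool.Agent.THR Pool.Agent.COR

/-- site without exceptional averages -/
structure GE {d k q : ℕ} (η δ C₄ : ℝ) (t S : ℕ) (f : Site d k → Fin q) (v : Site d k) : Prop where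
  g : ∀ s ≤ S, PP^[s] (fun u => ind (Gb C₄ t f u)) v ≤ 1 / (d : ℝ) ^ 2
  m : ∀ s ≤ S, PP^[s] (fun u => ind (∃ c : Fin q, δ < |PP^[t] (bq c f) u - PP^[t] (gg c f) u|)) v ≤ 1 / (d : ℝ) ^ 2
  y : ∀ s, t ≤ s → s ≤ S → ∀ c : Fin q, |PP^[s] (gg c f) v - PP^[s] (ya c f) v| ≤ δ
  x : ∀ s ≤ S, PP^[s] (fun u => ind (Xs η f u)) v ≤ 1 / (d : ℝ) ^ 3
  a : |(av f v : ℝ) / q - al f v| ≤ δ

private theorem E1_all {P : ℕ → ℕ → ℕ → Prop} (h : ∀ d k q, P d k q) : EvT e3 P :=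
  ⟨0, fun d q _ _ _ => Filter.Eventually.of_forall fun k => h d k q⟩

private theorem E1_y (δ : ℝ) (hδ : 0 < δ) (S : ℕ) : SR fun _ _ q f v =>
    ∃ s, 20 ≤ s ∧ s ≤ S ∧ ∃ c : Fin q, δ < |PP^[s] (gg c f) v - PP^[s] (ya c f) v| := by
  induction S with
  | zero =>
    refine (gy_pt 20 le_rfl δ hδ).mono (E1_all ?_)
    rintro d k q _ f _ v ⟨s, h1, h2, _⟩
    omega
  | succ S ih =>
    by_cases h : 20 ≤ S + 1
    · refine (ih.or (gy_pt (S + 1) h δ hδ)).mono (E1_all ?_)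
      rintro d k q _ f _ v ⟨s, h1, h2, c, hc⟩
      rcases Nat.lt_or_ge s (S + 1) with h3 | h3
      · exact Or.inl ⟨s, h1, by omega, c, hc⟩
      · have h4 : s = S + 1 := by omega
        subst h4
        exact Or.inr ⟨c, hc⟩
    · refine ih.mono (E1_all ?_)
      rintro d k q _ f _ v ⟨s, h1, h2, _⟩
      omega

private theorem E1_x (η : ℝ) (hη : 0 < η) : SR fun _ _ _ f v => Xs η f v :=
  ((hc_pt η hη).or (nf_pt η hη)).mono (E1_all fun _ _ _ _ _ _ _ h => h)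

theorem GE_SRK (C₄ : ℝ) (K t : ℕ) (ht : Even t) (ht' : 20 ≤ t) (h : SRK (K + 6) fun _ _ _ f v => Gb C₄ t f v)
    (η δ : ℝ) (hη : 0 < η) (hδ : 0 < δ) (S : ℕ) : SRK K fun _ _ _ f v => ¬ GE η δ C₄ t S f v := by
  have hg := SRK.avgs (K := K + 1) (K' := 2) (h.le (by omega)) S
  have hm := (smooth_pt t ht ht' δ hδ).avgs 2 S
  have hy := E1_y δ hδ S
  have hx := (E1_x η hη).avgs 3 S
  have ha := av_pt δ hδ
  refine (SRK.or hg ((hm.or (hy.or (hx.or ha))) (K + 1))).mono (E1_all ?_)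
  intro d k q _ f _ v hn
  by_contra hcon
  rw [not_or, not_or, not_or, not_or] at hcon
  obtain ⟨c1, c2, c3, c4, c5⟩ := hcon
  refine hn ⟨?_, ?_, ?_, ?_, ?_⟩
  · intro s hs
    by_contra h1
    exact c1 ⟨s, hs, not_le.1 h1⟩
  · intro s hs
    by_contra h1
    exact c2 ⟨s, hs, not_le.1 h1⟩
  · intro s h1 h2 c
    by_contra h3
    exact c3 ⟨s, ht'.trans h1, h2, c, not_le.1 h3⟩
  · intro s hs
    by_contra h1
    exact c4 ⟨s, hs, not_le.1 h1⟩
  · exact not_lt.1 c5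

end Pool.Agent.LC
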