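import Pool.Agent.Lib_MP_2c424f_lc1.DDefs
import Pool.Agent.Lib_MP_2c424f_lc1.E1

/-!
# LC1 E2: from the pinned values to the hypotheses of the gap argument (deterministic)

`gm_step`: `evn_step` (`Prp f` and `1 ≤ d` imply `1 ≤ k`: for `k = 0` there is only one site).
`A_card`: `∑_c bq c f u = q` at every `u`, so `∑_c PP^[t] (bq c f) v = q` and `|∑_c gm A v c - q| ≤ δ q`; `∑_c gm A v c = q (1 - m) + 2 m #{c : tS evn A v c}` and this set is `A` (`v` even) or its complement;
`m ≥ 1/2` (`mf_num`).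
`avg_bq`: `G := PP^[t] (bq c f)`, `0 ≤ G ≤ q`.  `r = 0, 1`: hypotheses and `gm_step`.  `|PP (PP G) u - G u| ≤ C₄/q + q PP (ind Gb) u`: `PP (PP G) u = mean_{σ,τ} G (u+σ+τ)`, `G u = mean_σ G (u+σ+opp σ)`, and for
`u + σ` not `Gb` the difference is at most `C₄/q`, otherwise at most `q`.  Apply `PP^[r-2]` (`PP^[r-2] (PP φ) = PP^[r-1] φ`); induction over `r` in steps of two; `gs A v (r+2) = gs A v r`.
`avg_gg`: `|PP^[t] (bq c f) u - PP^[t] (gg c f) u| ≤ δ + q ind (..)` (both in `[0,q]`: `gg ≤ q` by `av ≥ 1`), `PP^[r]`, `PPt_mono`.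
-/

set_option autoImplicit false

open Finset Filter

namespace Pool.Agent.LC

open Pool.Agent.LO Pool.Agent.LIN Pool.Agent.THR Pool.Agent.COR

variable {d k q : ℕ}

theorem k_pos (hd : 1 ≤ d) {f : Site d k → Fin q} (hf : Prp f) : 1 ≤ k := by
  rcases Nat.eq_zero_or_pos k with rfl | h
  · exfalso
    have hs : Subsingleton (ZMod (2 ^ 0)) := by
      rw [pow_zero]
      infer_instance
    have h1 : (0 : Site d 0) + sv (⟨⟨0, hd⟩, true⟩ : Stp d) = 0 := Subsingleton.elim _ _
    exact hf 0 ⟨⟨0, hd⟩, true⟩ (by rw [h1])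
  · exact h

theorem gm_step (hk : 1 ≤ k) (A : Finset (Fin q)) (v : Site d k) (σ : Stp d) (c : Fin q) :
    gm A (v + sv σ) c = 2 - gm A v c := by
  unfold gm tS
  have h := evn_step hk v σ
  by_cases h1 : evn v
  · have h2 : ¬ evn (v + sv σ) := fun h3 => (h.1 h3) h1
    by_cases h3 : c ∈ A
    · rw [if_neg (by tauto), if_pos (by tauto)]
      ring
    · rw [if_pos (by tauto), if_neg (by tauto)]
      ring
  · have h2 : evn (v + sv σ) := h.2 h1
    by_cases h3 : c ∈ A
    · rw [if_pos (by tauto), if_neg (by tauto)]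
      ring
    · rw [if_neg (by tauto), if_pos (by tauto)]
      ring

private theorem E2_sum_bq (hd : 1 ≤ d) (t : ℕ) (f : Site d k → Fin q) (v : Site d k) :
    ∑ c, PP^[t] (bq c f) v = q := by
  have h1 : ∀ u : Site d k, ∑ c, bq c f u = (q : ℝ) := by
    intro u
    unfold bq
    rw [Finset.sum_ite_eq, if_pos (Finset.mem_univ _)]
  have h2 := PPt_sum t Finset.univ (fun c => bq c f) v
  rw [← h2]
  simp only [h1]
  exact PPt_const hd t _ v

theorem A_card (hd : 1 ≤ d) (hR : Rg d q) {f : Site d k → Fin q} (hf : Prp f) (A : Finset (Fin q)) (v : Site d k) (t : ℕ) (δ : ℝ)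
    (h : Pn δ t A f v) : |(A.card : ℝ) / q - 1 / 2| ≤ δ := by
  classical
  obtain ⟨hq0, ha, -, -, -⟩ := rg_pos hd hR
  have hq : (0 : ℝ) < q := by exact_mod_cast hq0
  obtain ⟨hm0, hm1, -, h1m, -, -, -, -, -, -, hx⟩ := mf_num ha (ms_spec hd hR)
  have hm : 1 / 2 ≤ ms d q := by
    have h1 : Real.exp (-ra d q) ≤ 1 := Real.exp_le_one_iff.2 (by linarith)
    have h2 : 1000 * (1 - ms d q) ≤ ra d q * (1 - ms d q) := mul_le_mul_of_nonneg_right ha h1m.le
    linarith
  -- the sum of the mean-field values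
  have h2 : ∃ n : ℝ, |n / q - 1 / 2| = |(A.card : ℝ) / q - 1 / 2| ∧
      ∑ c, gm A v c = q * (1 - ms d q) + 2 * ms d q * n := by
    have h3 : ∀ (P : Fin q → Prop) [DecidablePred P], ∑ c, (if P c then 1 + ms d q else 1 - ms d q) =
        q * (1 - ms d q) + 2 * ms d q * ((Finset.univ.filter P).card : ℝ) := by
      intro P _
      have h4 : ∀ c, (if P c then 1 + ms d q else 1 - ms d q) = (1 - ms d q) + 2 * ms d q * (if P c then 1 else 0) := by
        intro c
        split_ifs <;> ring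
      simp only [h4]
      rw [Finset.sum_add_distrib, Finset.sum_const, Finset.card_univ, Fintype.card_fin, nsmul_eq_mul,
        ← Finset.mul_sum, Finset.sum_boole]
    by_cases he : evn v
    · refine ⟨A.card, rfl, ?_⟩
      have h5 : ∀ c, gm A v c = if c ∈ A then 1 + ms d q else 1 - ms d q := by
        intro c
        unfold gm tS
        by_cases hc : c ∈ A
        · rw [if_pos (by tauto), if_pos hc]
        · rw [if_neg (by tauto), if_neg hc]
      rw [Finset.sum_congr rfl fun c _ => h5 c, h3 fun c => c ∈ A]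
      congr 4
      ext c
      simp
    · refine ⟨q - A.card, ?_, ?_⟩
      · have h6 : ((q : ℝ) - A.card) / q - 1 / 2 = -((A.card : ℝ) / q - 1 / 2) := by
          field_simp
          ring
        rw [h6, abs_neg]
      · have h5 : ∀ c, gm A v c = if c ∉ A then 1 + ms d q else 1 - ms d q := by
          intro c
          unfold gm tS
          by_cases hc : c ∈ A
          · rw [if_neg (by tauto), if_neg (by tauto)]
          · rw [if_pos (by tauto), if_pos hc]
        rw [Finset.sum_congr rfl fun c _ => h5 c, h3 fun c => c ∉ A]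
        have h7 : (Finset.univ.filter fun c => c ∉ A) = Finset.univ \ A := by
          ext c
          simp
        have h8 : (A.card : ℝ) + ((Finset.univ.filter fun c => c ∉ A).card : ℝ) = q := by
          rw [h7, ← Nat.cast_add, add_comm, Finset.card_sdiff_add_card_eq_card (Finset.subset_univ A),
            Finset.card_univ, Fintype.card_fin]
        rw [← h8]
        ring
  obtain ⟨n, hn1, hn2⟩ := h2
  rw [← hn1]
  have h9 : |∑ c, (PP^[t] (bq c f) v - gm A v c)| ≤ q * δ := by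
    refine (Finset.abs_sum_le_sum_abs _ _).trans ((Finset.sum_le_sum fun c _ => h c).trans (le_of_eq ?_))
    rw [Finset.sum_const, Finset.card_univ, Fintype.card_fin, nsmul_eq_mul]
  rw [Finset.sum_sub_distrib, E2_sum_bq hd, hn2] at h9
  have h10 : (q : ℝ) - (q * (1 - ms d q) + 2 * ms d q * n) = -(q * (2 * ms d q) * (n / q - 1 / 2)) := by
    field_simp
    ring
  rw [h10, abs_neg, abs_mul, abs_of_pos (by positivity : 0 < (q : ℝ) * (2 * ms d q))] at h9
  have h11 : (q : ℝ) * |n / q - 1 / 2| ≤ q * (2 * ms d q) * |n / q - 1 / 2| := by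
    refine mul_le_mul_of_nonneg_right ?_ (abs_nonneg _)
    nlinarith
  exact le_of_mul_le_mul_left (h11.trans h9) hq

private theorem E2_bq_bd (c : Fin q) (f : Site d k → Fin q) (v : Site d k) : 0 ≤ bq c f v ∧ bq c f v ≤ q := by
  have h : (0 : ℝ) ≤ q := Nat.cast_nonneg q
  unfold bq
  split_ifs
  · exact ⟨h, le_refl _⟩
  · exact ⟨le_refl _, h⟩

private theorem E2_bd (hd : 1 ≤ d) (t : ℕ) {g : Site d k → ℝ} {M : ℝ} (h0 : ∀ u, 0 ≤ g u) (h1 : ∀ u, g u ≤ M) (v : Site d k) :
    0 ≤ PP^[t] g v ∧ PP^[t] g v ≤ M := by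
  constructor
  · have h := PPt_mono t (g := fun _ => (0 : ℝ)) (h := g) h0 v
    rwa [PPt_const hd] at h
  · have h := PPt_mono t (g := g) (h := fun _ => M) h1 v
    rwa [PPt_const hd] at h

/-- averages of functions which are pointwise close -/
private theorem E2_mean (hd : 1 ≤ d) (g : Site d k → ℝ) (x y : ℝ) (b : Stp d → ℝ) (v : Site d k)
    (h : ∀ σ : Stp d, |g (v + sv σ) - x| ≤ y + b σ) : |PP g v - x| ≤ y + (∑ σ, b σ) / (2 * d) := by
  have hd0 : (0 : ℝ) < 2 * d := by
    have : (1 : ℝ) ≤ d := by exact_mod_cast hd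
    linarith
  have hc : ((Fintype.card (Stp d) : ℕ) : ℝ) = 2 * d := by
    rw [Fintype.card_prod, Fintype.card_fin, Fintype.card_bool]
    push_cast
    ring
  have h1 : PP g v - x = (∑ σ : Stp d, (g (v + sv σ) - x)) / (2 * d) := by
    unfold PP
    rw [Finset.sum_sub_distrib, Finset.sum_const, Finset.card_univ, nsmul_eq_mul, hc]
    field_simp
  have h2 : |∑ σ : Stp d, (g (v + sv σ) - x)| ≤ 2 * d * y + ∑ σ, b σ := by
    refine (Finset.abs_sum_le_sum_abs _ _).trans ((Finset.sum_le_sum fun σ _ => h σ).trans (le_of_eq ?_))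
    rw [Finset.sum_add_distrib, Finset.sum_const, Finset.card_univ, nsmul_eq_mul, hc]
  rw [h1, abs_div, abs_of_pos hd0, div_le_iff₀ hd0]
  refine h2.trans (le_of_eq ?_)
  field_simp

private theorem E2_ind (P : Prop) : 0 ≤ ind P ∧ ind P ≤ 1 := by
  unfold ind
  split_ifs <;> norm_num

/-- two steps -/
private theorem E2_two (hd : 1 ≤ d) (t : ℕ) (f : Site d k → Fin q) (c : Fin q) (C₄ : ℝ) (hC : 0 ≤ C₄) (u : Site d k) :
    |PP (PP (PP^[t] (bq c f))) u - PP^[t] (bq c f) u| ≤ C₄ / q + q * PP (fun w => ind (Gb C₄ t f w)) u := by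
  have hG := fun w => E2_bd hd t (fun u => (E2_bq_bd c f u).1) (fun u => (E2_bq_bd c f u).2) w
  have hCq : 0 ≤ C₄ / q := div_nonneg hC (Nat.cast_nonneg q)
  have h1 : ∀ σ : Stp d, |PP (PP^[t] (bq c f)) (u + sv σ) - PP^[t] (bq c f) u| ≤
      C₄ / q + q * ind (Gb C₄ t f (u + sv σ)) := by
    intro σ
    have hu : u = u + sv σ + sv (opp σ) := by
      rw [add_assoc, sv_opp' σ, add_zero]
    have h2 : ∀ τ : Stp d, |PP^[t] (bq c f) (u + sv σ + sv τ) - PP^[t] (bq c f) u| ≤
        (C₄ / q + q * ind (Gb C₄ t f (u + sv σ))) + 0 := by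
      intro τ
      rw [add_zero]
      by_cases hg : Gb C₄ t f (u + sv σ)
      · have h3 := hG (u + sv σ + sv τ)
        have h4 := hG u
        have h5 : ind (Gb C₄ t f (u + sv σ)) = 1 := by
          unfold ind
          rw [if_pos hg]
        rw [h5, mul_one, abs_le]
        constructor <;> linarith [h3.1, h3.2, h4.1, h4.2]
      · have h5 : ind (Gb C₄ t f (u + sv σ)) = 0 := by
          unfold ind
          rw [if_neg hg]
        rw [h5, mul_zero, add_zero]
        by_contra h6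
        push Not at h6
        refine hg ⟨c, τ, opp σ, ?_⟩
        rwa [← hu]
    have h7 := E2_mean hd (PP^[t] (bq c f)) (PP^[t] (bq c f) u) _ (fun _ => 0) (u + sv σ) h2
    simpa using h7
  have h8 := E2_mean hd (PP (PP^[t] (bq c f))) (PP^[t] (bq c f) u) (C₄ / q)
    (fun σ => q * ind (Gb C₄ t f (u + sv σ))) u h1
  refine h8.trans (le_of_eq ?_)
  unfold PP
  rw [← Finset.mul_sum, mul_div_assoc]

theorem avg_bq (hd : 1 ≤ d) (hR : Rg d q) {f : Site d k → Fin q} (hf : Prp f) (A : Finset (Fin q)) (v : Site d k) (t r : ℕ) (δ C₄ κ : ℝ)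
    (hδ : 0 ≤ δ) (hC : 0 ≤ C₄) (hκ : 0 ≤ κ) (h0 : Pn δ t A f v) (h1 : ∀ σ : Stp d, Pn δ t A f (v + sv σ))
    (hG : ∀ s ≤ r, PP^[s] (fun u => ind (Gb C₄ t f u)) v ≤ κ) (c : Fin q) :
    |PP^[r] (PP^[t] (bq c f)) v - gs A v r c| ≤ δ + r * (C₄ / q + q * κ) := by
  have hk := k_pos hd hf
  have hq : (0 : ℝ) ≤ q := Nat.cast_nonneg q
  have hE : 0 ≤ C₄ / q + q * κ := by positivity
  suffices hs : ∀ m, m ≤ r → |PP^[m] (PP^[t] (bq c f)) v - gs A v m c| ≤ δ + m * (C₄ / q + q * κ) from hs r le_rfl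
  intro m
  induction m using Nat.strong_induction_on with
  | _ m ih =>
    intro hm
    match m, ih, hm with
    | 0, _, _ =>
      have h2 : gs A v 0 c = gm A v c := by simp [gs]
      rw [h2]
      simpa using h0 c
    | 1, _, _ =>
      have h2 : gs A v 1 c = 2 - gm A v c := by simp [gs]
      rw [h2]
      have h3 := E2_mean hd (PP^[t] (bq c f)) (2 - gm A v c) δ (fun _ => 0) v (fun σ => by
        rw [← gm_step hk A v σ c, add_zero]
        exact h1 σ c)
      simp only [Finset.sum_const_zero, zero_div, add_zero] at h3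
      have h4 : PP^[1] (PP^[t] (bq c f)) v = PP (PP^[t] (bq c f)) v := rfl
      rw [h4]
      push_cast
      linarith
    | m + 2, ih, hm =>
      have h2 := ih m (by omega) (by omega)
      have h3 : gs A v (m + 2) c = gs A v m c := by
        unfold gs
        simp [Nat.even_add]
      have h4 : PP^[m + 2] (PP^[t] (bq c f)) v - PP^[m] (PP^[t] (bq c f)) v =
          PP^[m] (fun u => PP (PP (PP^[t] (bq c f))) u - PP^[t] (bq c f) u) v := by
        rw [PPt_sub m (PP (PP (PP^[t] (bq c f)))) (PP^[t] (bq c f)) v]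
        rfl
      have h5 : |PP^[m + 2] (PP^[t] (bq c f)) v - PP^[m] (PP^[t] (bq c f)) v| ≤ C₄ / q + q * κ := by
        rw [h4]
        refine (PPt_abs m _ v).trans ((PPt_mono m (fun u => E2_two hd t f c C₄ hC u) v).trans ?_)
        have h6 : PP^[m] (fun u => C₄ / q + q * PP (fun w => ind (Gb C₄ t f w)) u) v =
            C₄ / q + q * PP^[m + 1] (fun w => ind (Gb C₄ t f w)) v := by
          have h7 : (fun u : Site d k => C₄ / q + q * PP (fun w => ind (Gb C₄ t f w)) u) =
              fun u => q * PP (fun w => ind (Gb C₄ t f w)) u - (-(C₄ / q)) := by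
            funext u
            ring
          rw [h7, PPt_sub, PPt_mul, PPt_const hd]
          have h8 : PP^[m] (PP (fun w => ind (Gb C₄ t f w))) v = PP^[m + 1] (fun w => ind (Gb C₄ t f w)) v := rfl
          rw [h8]
          ring
        rw [h6]
        have h9 := hG (m + 1) (by omega)
        have h10 := mul_le_mul_of_nonneg_left h9 hq
        linarith
      rw [h3]
      have h11 : PP^[m + 2] (PP^[t] (bq c f)) v - gs A v m c =
          (PP^[m + 2] (PP^[t] (bq c f)) v - PP^[m] (PP^[t] (bq c f)) v) + (PP^[m] (PP^[t] (bq c f)) v - gs A v m c) := by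
        ring
      rw [h11]
      refine (abs_add_le _ _).trans ?_
      push_cast
      nlinarith

private theorem E2_gg_bd {f : Site d k → Fin q} (hf : Prp f) (c : Fin q) (v : Site d k) :
    0 ≤ THR.gg c f v ∧ THR.gg c f v ≤ q := by
  have h1 : (1 : ℝ) ≤ av f v := by exact_mod_cast av_pos hf v
  have hq : (0 : ℝ) ≤ q := Nat.cast_nonneg q
  unfold THR.gg
  have h2 : zz f v c = 0 ∨ zz f v c = 1 := by
    unfold zz
    split_ifs
    · exact Or.inl rfl
    · exact Or.inr rfl
  rcases h2 with h2 | h2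
  · rw [h2]
    simp [hq]
  · rw [h2, mul_one]
    exact ⟨by positivity, div_le_self hq h1⟩

theorem avg_gg (hd : 1 ≤ d) (hR : Rg d q) {f : Site d k → Fin q} (hf : Prp f) (v : Site d k) (t r : ℕ) (δ κ : ℝ) (hδ : 0 ≤ δ)
    (hG : PP^[r] (fun u => ind (∃ c : Fin q, δ < |PP^[t] (bq c f) u - PP^[t] (gg c f) u|)) v ≤ κ) (c : Fin q) :
    |PP^[r] (PP^[t] (bq c f)) v - PP^[r] (PP^[t] (gg c f)) v| ≤ δ + q * κ := by
  have hq : (0 : ℝ) ≤ q := Nat.cast_nonneg q
  have h1 := fun w => E2_bd hd t (fun u => (E2_bq_bd c f u).1) (fun u => (E2_bq_bd c f u).2) w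
  have h2 := fun w => E2_bd hd t (fun u => (E2_gg_bd hf c u).1) (fun u => (E2_gg_bd hf c u).2) w
  have h3 : ∀ u : Site d k, |PP^[t] (bq c f) u - PP^[t] (THR.gg c f) u| ≤
      q * ind (∃ c : Fin q, δ < |PP^[t] (bq c f) u - PP^[t] (THR.gg c f) u|) - (-δ) := by
    intro u
    by_cases h : ∃ c : Fin q, δ < |PP^[t] (bq c f) u - PP^[t] (THR.gg c f) u|
    · have h4 : ind (∃ c : Fin q, δ < |PP^[t] (bq c f) u - PP^[t] (THR.gg c f) u|) = 1 := by
        unfold ind
        rw [if_pos h]
      rw [h4, mul_one, abs_le]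
      constructor <;> linarith [(h1 u).1, (h1 u).2, (h2 u).1, (h2 u).2]
    · have h4 : ind (∃ c : Fin q, δ < |PP^[t] (bq c f) u - PP^[t] (THR.gg c f) u|) = 0 := by
        unfold ind
        rw [if_neg h]
      rw [h4, mul_zero]
      push Not at h
      linarith [h c]
  rw [← PPt_sub]
  refine (PPt_abs r _ v).trans ((PPt_mono r h3 v).trans ?_)
  rw [PPt_sub, PPt_mul, PPt_const hd]
  have h5 := mul_le_mul_of_nonneg_left hG hq
  linarith

end Pool.Agent.LC
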