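import Pool.Agent.Lib_MP_2c424f_lc1.E2

/-!
# LC1 E2b: the hypotheses of the gap argument

`gapH_of`: with `δ = η/10^5`, `s = t + r`, `r ≤ J + 2`:  `PP^[s] (gg c f) v = PP^[r] (PP^[t] (gg c f)) v` is `gs A v s c` up to `2δ + q/d² + r (C₄/q + q/d²) ≤ 3δ` for `d` large (`q ≤ 2d/1000`; `gs A v (t+r) = gs A v r` as `t` is even).
`GapH.y`: `GE.y`.  `GapH.h`: `PP^[s] (hh c f) = a PP^[s+1] (gg c f)` (`hh = a PP gg`: THR `hh_eq` or so), `a ≤ 2000`, `gs A v (s+1) c = 2 - gs A v s c`.  `GapH.e`: `8/d ≤ η`.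
-/

set_option autoImplicit false

open Finset Filter

namespace Pool.Agent.LC

open Pool.Agent.LO Pool.Agent.LIN Pool.Agent.THR Pool.Agent.COR

variable {d k q : ℕ}

private theorem E2b_gs_succ (A : Finset (Fin q)) (v : Site d k) (s : ℕ) (c : Fin q) :
    gs A v (s + 1) c = 2 - gs A v s c := by
  unfold gs
  by_cases h : Even s
  · have h' : ¬ Even (s + 1) := by
      rw [Nat.even_add_one]
      exact fun h1 => h1 h
    rw [if_neg h', if_pos h]
  · have h' : Even (s + 1) := by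
      rw [Nat.even_add_one]
      exact h
    rw [if_pos h', if_neg h]
    ring

private theorem E2b_gs_add (A : Finset (Fin q)) (v : Site d k) {t : ℕ} (ht : Even t) (r : ℕ) (c : Fin q) :
    gs A v (t + r) c = gs A v r c := by
  unfold gs
  have h : Even (t + r) ↔ Even r := by
    rw [Nat.even_add]
    exact ⟨fun h => h.1 ht, fun h => ⟨fun _ => h, fun _ => ht⟩⟩
  by_cases h1 : Even r
  · rw [if_pos h1, if_pos (h.2 h1)]
  · rw [if_neg h1, if_neg fun h2 => h1 (h.1 h2)]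

private theorem E2b_num (η C₄ : ℝ) (hη : 0 < η) (hC : 0 ≤ C₄) (J : ℕ) : ∃ d₀ : ℕ, ∀ d : ℕ, d₀ ≤ d → ∀ q : ℕ,
    Rg d q → 1 ≤ d ∧ 1 ≤ q ∧ 8 / (d : ℝ) ≤ η ∧ (q : ℝ) * (1 / (d : ℝ) ^ 2) + (J + 2) * (C₄ / q + q * (1 / (d : ℝ) ^ 2)) ≤
      η / 10 ^ 5 := by
  obtain ⟨n, hn⟩ := exists_nat_gt ((8 / η) + (1 + (J + 2) * (1000 * C₄ + 1)) / (η / 10 ^ 5))
  refine ⟨n + 1, fun d hd q hR => ?_⟩
  obtain ⟨-, hR1, hR2⟩ := hR
  have hd1 : 1 ≤ d := by omega
  have hq1 : 1 ≤ q := by omega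
  have hdn : (n : ℝ) ≤ d := by
    have : n ≤ d := by omega
    exact_mod_cast this
  have hd0 : (0 : ℝ) < d := by exact_mod_cast hd1
  have hq0 : (0 : ℝ) < q := by exact_mod_cast hq1
  have h8 : 0 < 8 / η := by positivity
  have hδ : 0 < η / 10 ^ 5 := by positivity
  have hB0 : 0 ≤ 1 + ((J : ℝ) + 2) * (1000 * C₄ + 1) := by positivity
  have hB : 0 ≤ (1 + ((J : ℝ) + 2) * (1000 * C₄ + 1)) / (η / 10 ^ 5) := by positivity
  have h1 : 8 / η ≤ d := by linarith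
  have h2 : (1 + ((J : ℝ) + 2) * (1000 * C₄ + 1)) / (η / 10 ^ 5) ≤ d := by linarith
  refine ⟨hd1, hq1, ?_, ?_⟩
  · rw [div_le_iff₀ hη] at h1
    rw [div_le_iff₀ hd0]
    linarith
  · have hqd : (q : ℝ) ≤ d := by
      have : q ≤ d := by omega
      exact_mod_cast this
    have hdq : (d : ℝ) ≤ 1000 * q := by
      have : d ≤ 1000 * q := by omega
      exact_mod_cast this
    have e1 : (q : ℝ) * (1 / (d : ℝ) ^ 2) ≤ 1 / d := by
      rw [mul_one_div, div_le_div_iff₀ (by positivity) hd0]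
      nlinarith
    have e2 : C₄ / q ≤ 1000 * C₄ / d := by
      rw [div_le_div_iff₀ hq0 hd0]
      nlinarith
    have e3 : (q : ℝ) * (1 / (d : ℝ) ^ 2) + ((J : ℝ) + 2) * (C₄ / q + q * (1 / (d : ℝ) ^ 2)) ≤
        1 / d + ((J : ℝ) + 2) * (1000 * C₄ / d + 1 / d) := by
      have : (0 : ℝ) ≤ (J : ℝ) + 2 := by positivity
      have := mul_le_mul_of_nonneg_left (add_le_add e2 e1) this
      linarith
    refine e3.trans ?_
    have e4 : 1 / (d : ℝ) + ((J : ℝ) + 2) * (1000 * C₄ / d + 1 / d) =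
        (1 + ((J : ℝ) + 2) * (1000 * C₄ + 1)) / d := by
      field_simp
    rw [e4, div_le_iff₀ hd0]
    rw [div_le_iff₀ hδ] at h2
    linarith

theorem gapH_of (η C₄ : ℝ) (hη : 0 < η) (hC : 0 ≤ C₄) (t J : ℕ) (ht : Even t) : ∃ d₀ : ℕ, ∀ d : ℕ, d₀ ≤ d → ∀ k q : ℕ, Rg d q →
    ∀ f : Site d k → Fin q, Prp f → ∀ (A : Finset (Fin q)) (v : Site d k), GE η (η / 10 ^ 5) C₄ t (t + J + 3) f v →
    Pn (η / 10 ^ 5) t A f v → (∀ σ : Stp d, Pn (η / 10 ^ 5) t A f (v + sv σ)) →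
    ∀ s, t ≤ s → s ≤ t + J + 1 → GapH η A f v s := by
  obtain ⟨d₀, hd₀⟩ := E2b_num η C₄ hη hC J
  refine ⟨d₀, fun d hd k q hR f hf A v hGE hP hPs s hts hsJ => ?_⟩
  obtain ⟨hd1, hq1, h8, hnum⟩ := hd₀ d hd q hR
  have hd0 : (0 : ℝ) < d := by exact_mod_cast hd1
  have hq0 : (0 : ℝ) < q := by exact_mod_cast hq1
  have hδ : 0 < η / 10 ^ 5 := by positivity
  -- the main estimate
  have key : ∀ s, t ≤ s → s ≤ t + J + 2 → ∀ c, |PP^[s] (gg c f) v - gs A v s c| ≤ 3 * (η / 10 ^ 5) := by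
    intro s hts hs c
    obtain ⟨r, rfl⟩ := Nat.exists_eq_add_of_le hts
    have hr : r ≤ J + 2 := by omega
    have a1 := avg_bq hd1 hR hf A v t r (η / 10 ^ 5) C₄ (1 / (d : ℝ) ^ 2) hδ.le hC (by positivity) hP hPs
      (fun s hs => hGE.g s (by omega)) c
    have a2 := avg_gg hd1 hR hf v t r (η / 10 ^ 5) (1 / (d : ℝ) ^ 2) hδ.le (hGE.m r (by omega)) c
    have a3 : PP^[t + r] (gg c f) v = PP^[r] (PP^[t] (gg c f)) v := by
      rw [Nat.add_comm, Function.iterate_add_apply]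
    rw [a3, E2b_gs_add A v ht r c]
    have a4 : (r : ℝ) * (C₄ / q + q * (1 / (d : ℝ) ^ 2)) ≤ (J + 2) * (C₄ / q + q * (1 / (d : ℝ) ^ 2)) := by
      refine mul_le_mul_of_nonneg_right ?_ (by positivity)
      have : r ≤ J + 2 := hr
      exact_mod_cast this
    have a5 : |PP^[r] (PP^[t] (gg c f)) v - gs A v r c| ≤
        |PP^[r] (PP^[t] (bq c f)) v - PP^[r] (PP^[t] (gg c f)) v| + |PP^[r] (PP^[t] (bq c f)) v - gs A v r c| := by
      rw [abs_sub_comm (PP^[r] (PP^[t] (bq c f)) v) (PP^[r] (PP^[t] (gg c f)) v)]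
      exact abs_sub_le _ _ _
    linarith
  refine ⟨fun c => ?_, fun c => ?_, ?_⟩
  · have b1 := key s hts (by omega) c
    have b2 := hGE.y s hts (by omega) c
    have b3 : |PP^[s] (ya c f) v - gs A v s c| ≤
        |PP^[s] (gg c f) v - PP^[s] (ya c f) v| + |PP^[s] (gg c f) v - gs A v s c| := by
      rw [abs_sub_comm (PP^[s] (gg c f) v) (PP^[s] (ya c f) v)]
      exact abs_sub_le _ _ _
    have b4 : 4 * (η / 10 ^ 5) ≤ η := by
      rw [mul_div_assoc', div_le_iff₀ (by positivity)]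
      nlinarith
    linarith
  · have b1 := key (s + 1) (by omega) (by omega) c
    have b2 : PP^[s] (hh c f) v = ra d q * PP^[s + 1] (gg c f) v := by
      have : hh c f = fun y : Site d k => ra d q * PP (gg c f) y := by
        funext y
        exact hh_eq hd1 hq1 c f y
      rw [this, PPt_mul, Function.iterate_succ_apply]
    rw [b2, ← E2b_gs_succ A v s c, ← mul_sub, abs_mul]
    have b3 : |ra d q| ≤ 2000 := by
      have h0 : 0 ≤ ra d q := by
        unfold ra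
        positivity
      rw [abs_of_nonneg h0]
      unfold ra
      rw [div_le_iff₀ hq0]
      have := hR.2.2
      exact_mod_cast this
    calc |ra d q| * |PP^[s + 1] (gg c f) v - gs A v (s + 1) c| ≤ 2000 * (3 * (η / 10 ^ 5)) :=
          mul_le_mul b3 b1 (abs_nonneg _) (by norm_num)
      _ ≤ η := by
          have : 2000 * (3 * (η / 10 ^ 5)) = 6 / 100 * η := by ring
          rw [this]
          linarith
  · have b1 := hGE.x s (by omega)
    calc 8 * (d : ℝ) ^ 2 * PP^[s] (fun u => ind (Xs η f u)) v ≤ 8 * (d : ℝ) ^ 2 * (1 / (d : ℝ) ^ 3) :=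
          mul_le_mul_of_nonneg_left b1 (by positivity)
      _ = 8 / d := by
          field_simp
      _ ≤ η := h8

end Pool.Agent.LC
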