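import Pool.Agent.Lib_MP_2c424f_lc1.D3
import Pool.Agent.Lib_MP_2c424f_lc1.D4
import Pool.Agent.Lib_MP_2c424f_lc1.E2b

/-!
# LC1 E3: pinned sites are typical

Choose `η ≤ 1/1000` with `exp (2200 (t+2)) (√(exp 7000 η) + η) ≤ θ/4` and `5000 η ≤ θ/4`, `J` with `(1/3)^J ≤ η`, `δ = η/10^5`.  `GE_SRK` with `S = t + J + 3`; `SRK.mono`.
At a site `v` with `GE` and `Pn` at `v` and all `v + σ`: `gapH_of`, `gap_iter` (`s = t + 1`), `A_card`, `growth` with `ζ = exp 7000 η` (`h2` from `GE.x`: `8 d/d³ ≤ η`), `al_near`, `GE.a`: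
`TS θ A f v`.
-/

set_option autoImplicit false

open Finset Filter

namespace Pool.Agent.LC

open Pool.Agent.LO Pool.Agent.LIN Pool.Agent.THR Pool.Agent.COR

private theorem E3_par (t : ℕ) (θ : ℝ) (hθ : 0 < θ) : ∃ η : ℝ, 0 < η ∧ η ≤ 1 / 1000 ∧ 5000 * η ≤ θ / 4 ∧
    Real.exp (2200 * (t + 2)) * (Real.sqrt (Real.exp 7000 * η) + η) ≤ θ / 4 := by
  set E := Real.exp (2200 * ((t : ℝ) + 2)) with hE
  have hE0 : 0 < E := Real.exp_pos _
  have h7 := Real.exp_pos 7000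
  refine ⟨min (min (1 / 1000) (θ / 20000)) (min (θ / (8 * E)) ((θ / (8 * E)) ^ 2 / Real.exp 7000)),
    lt_min (lt_min (by norm_num) (by positivity)) (lt_min (by positivity) (by positivity)),
    (min_le_left _ _).trans (min_le_left _ _), ?_, ?_⟩
  · have h1 : min (min (1 / 1000) (θ / 20000)) (min (θ / (8 * E)) ((θ / (8 * E)) ^ 2 / Real.exp 7000)) ≤ θ / 20000 :=
      (min_le_left _ _).trans (min_le_right _ _)
    linarith
  · set η := min (min (1 / 1000) (θ / 20000)) (min (θ / (8 * E)) ((θ / (8 * E)) ^ 2 / Real.exp 7000)) with hη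
    have h1 : η ≤ θ / (8 * E) := (min_le_right _ _).trans (min_le_left _ _)
    have h2 : η ≤ (θ / (8 * E)) ^ 2 / Real.exp 7000 := (min_le_right _ _).trans (min_le_right _ _)
    have h3 : Real.exp 7000 * η ≤ (θ / (8 * E)) ^ 2 := by
      rw [le_div_iff₀ h7] at h2
      linarith
    have h4 : Real.sqrt (Real.exp 7000 * η) ≤ θ / (8 * E) := by
      rw [← Real.sqrt_sq (by positivity : 0 ≤ θ / (8 * E))]
      exact Real.sqrt_le_sqrt h3
    calc E * (Real.sqrt (Real.exp 7000 * η) + η) ≤ E * (θ / (8 * E) + θ / (8 * E)) :=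
          mul_le_mul_of_nonneg_left (add_le_add h4 h1) hE0.le
      _ = θ / 4 := by
          field_simp
          ring

theorem typ_site (C₄ : ℝ) (hC : 0 ≤ C₄) (K t : ℕ) (ht : Even t) (ht' : 20 ≤ t) (h : SRK (K + 6) fun _ _ _ f v => Gb C₄ t f v)
    (θ : ℝ) (hθ : 0 < θ) : ∃ δ : ℝ, 0 < δ ∧ SRK K fun d _ _ f v =>
      ∃ A, Pn δ t A f v ∧ (∀ σ : Stp d, Pn δ t A f (v + sv σ)) ∧ ¬ TS θ A f v := by
  have hε : 0 < e3 := by unfold e3; norm_num
  have hε1 : e3 ≤ 1 := by unfold e3; norm_num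
  obtain ⟨η, hη, hη1, hη2, hη3⟩ := E3_par t θ hθ
  obtain ⟨J, hJ⟩ : ∃ J : ℕ, (1 / 3 : ℝ) ^ J ≤ η := by
    obtain ⟨J, hJ⟩ := exists_pow_lt_of_lt_one hη (by norm_num : (1 / 3 : ℝ) < 1)
    exact ⟨J, hJ.le⟩
  have hδ : 0 < η / 10 ^ 5 := by positivity
  have hδη : η / 10 ^ 5 ≤ η := by
    rw [div_le_iff₀ (by norm_num)]
    nlinarith
  obtain ⟨d₀, hd₀⟩ := gapH_of η C₄ hη hC t J ht
  refine ⟨η / 10 ^ 5, hδ, (GE_SRK C₄ K t ht ht' h η (η / 10 ^ 5) hη hδ (t + J + 3)).mono ?_⟩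
  refine ((EvT_d (eventually_ge_atTop (max d₀ 2000))).and (EvT_reg hε hε1 (max (1 / η) (8 / η)))).mono ?_
  rintro d k q ⟨hd, hMd, hMq, -⟩ hR f hf v ⟨A, hA1, hA2, hA3⟩ hGE
  refine hA3 ?_
  have hd1 : d₀ ≤ d := (le_max_left _ _).trans hd
  have hd2 : 2000 ≤ d := (le_max_right _ _).trans hd
  have hd3 : 1 ≤ d := by omega
  have hf' : Prp f := by simpa [prps] using hf
  have hq : 1 / η ≤ q := (le_max_left _ _).trans hMq
  have h8 : 8 / η ≤ d := (le_max_right _ _).trans hMd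
  have hcard : |(A.card : ℝ) / q - 1 / 2| ≤ η := (A_card hd3 hR hf' A v t _ hA1).trans hδη
  have hgap := hd₀ d hd1 k q hR f hf' A v hGE hA1 hA2
  have hit : ∀ c : Fin q, PP^[t + 1] (fun u => (ya c f u - gs A v (t + 1) c) ^ 2) v ≤ Real.exp 7000 * η := fun c =>
    gap_iter hd3 hR hf' A v t J η hη hη1 hq hJ hgap (t + 1) (Or.inr rfl) c
  have hx : ∀ j ≤ t, 8 * (d : ℝ) * PP^[j] (fun u => ind (Xs η f u)) v ≤ η := by
    intro j hj
    have h1 := hGE.x j (by omega)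
    have hdr : (1 : ℝ) ≤ d := by exact_mod_cast hd3
    have hd0 : (0 : ℝ) < d := by linarith
    have h2 : 8 * (d : ℝ) * PP^[j] (fun u => ind (Xs η f u)) v ≤ 8 * (d : ℝ) * (1 / (d : ℝ) ^ 3) :=
      mul_le_mul_of_nonneg_left h1 (by positivity)
    refine h2.trans ?_
    have h3 : 8 * (d : ℝ) * (1 / (d : ℝ) ^ 3) = 8 / (d : ℝ) / d := by
      field_simp
    have h4 : 8 / (d : ℝ) ≤ η := by
      rw [div_le_iff₀ hd0]
      rw [div_le_iff₀ hη] at h8
      linarith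
    rw [h3]
    refine (div_le_self (by positivity) hdr).trans h4
  have hgr : ∀ c, |hc c f v - hs A v c| ≤ θ / 4 := fun c =>
    (growth hd2 hR hf' A v t η (Real.exp 7000 * η) hη hη1 (by positivity) hq hcard hit hx c).trans hη3
  have hal := al_near hd3 hR hf' A v η (θ / 4) hη hq hcard hgr
  refine ⟨fun c => (hgr c).trans (by linarith), ?_⟩
  have ha := hGE.a
  have h1 := abs_sub_le ((av f v : ℝ) / q) (al f v) (als (ra d q) (ms d q))
  linarith

end Pool.Agent.LC
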