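import Pool.Agent.Lib_MP_2c424f_lc1.B6
import Pool.Agent.Lib_MP_2c424f_lc1.E3
import Pool.Agent.Lib_MP_2c424f_lc1.T6

/-!
# LC1 E4: typical points of the good blocks

`typ_tpl`: `C₄` from `pin_T`, `t` from `pin_T` at the level `K + 12`, `δ` from `typ_site` at the level `K + 6`.  Let `p = (u, a, b)`, `A = ALP (pat f u)`, `x = tp p`, `p' = (u, flp (0, false) (a, b))`
(flip the first bit of `a`): `x' = tp p'` is a neighbour of `x` (the `0`-th coordinate changes by one).  Exceptional `p`: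
 `¬ Pn (δ/2)` at `p` (`pin_T`), or at `p'` (`p ↦ p'` is an involution of the triples with the same block, so the number is the same);  `x` or some `x + σ` is `Gb` (`TRK_of_SRK`, `SRK.nb`);
 `x` or some `x + σ` is exceptional for `typ_site` (`TRK_of_SRK`, `SRK.nb`).  Combine with `TRK.or`, `TRK.le`.
Otherwise: `x` not `Gb`: the values of `PP^[t] (bq c f)` at the `x + σ` differ by at most `C₄/q ≤ δ/2` from the value at `x'`, and `gm A (x+σ) = gm A x'` (`gm_step`): `Pn δ` at all `x + σ`.  `x + σ` not `Gb`: the values at `x + σ + τ`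
differ by at most `C₄/q` from the value at `x = x + σ + opp σ`: `Pn δ` at all `x + σ + τ`.  So `TS θ` at `x` and at all `x + σ`.
-/

set_option autoImplicit false

open Finset Filter

namespace Pool.Agent.LC

open Pool.Agent.LO Pool.Agent.LIN Pool.Agent.THR Pool.Agent.COR

/-- flip the first bit -/
private def E4_F (d k : ℕ) (p : Tpl d k) : Tpl d k :=
  if h : 0 < d then (p.1, Pool.Agent.LO.flp p.2.1 ⟨0, h⟩, p.2.2) else p

private theorem E4_F_fst {d k : ℕ} (p : Tpl d k) : (E4_F d k p).1 = p.1 := by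
  unfold E4_F
  split_ifs <;> rfl

private theorem E4_F_F {d k : ℕ} (p : Tpl d k) : E4_F d k (E4_F d k p) = p := by
  unfold E4_F
  split_ifs with h
  · obtain ⟨t, a, b⟩ := p
    refine Prod.ext rfl (Prod.ext ?_ rfl)
    show Pool.Agent.LO.flp (Pool.Agent.LO.flp a ⟨0, h⟩) ⟨0, h⟩ = a
    unfold Pool.Agent.LO.flp
    simp
  · rfl

private theorem E4_tp {d k : ℕ} (hd : 0 < d) (p : Tpl d k) :
    tp (E4_F d k p) = tp p + sv (⟨0, hd⟩, !(p.2.1 ⟨0, hd⟩)) := by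
  unfold E4_F tp
  rw [dif_pos hd]
  exact (pt_flp p.1 p.2.1 p.2.2 ⟨0, hd⟩).1

private theorem E4_cn {d k : ℕ} (B : Tpl d k → Prop) : cn (fun p => B (E4_F d k p)) ≤ cn B := by
  classical
  unfold cn
  have h : (univ.filter fun p => B (E4_F d k p)).card ≤ (univ.filter B).card := by
    refine card_le_card_of_injOn (E4_F d k) ?_ ?_
    · intro p hp
      rw [mem_coe, mem_filter] at hp ⊢
      exact ⟨mem_univ _, hp.2⟩
    · intro p _ p' _ hpp
      rw [← E4_F_F p, ← E4_F_F p']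
      exact congrArg (E4_F d k) hpp
  exact_mod_cast h

private theorem E4_comap {K : ℕ} {B : ∀ d k q : ℕ, (Site d (k + 1) → Fin q) → Tpl d k → Prop} (h : TRK K B) :
    TRK K fun d k q f p => B d k q f (E4_F d k p) := by
  unfold TRK at *
  refine WOPb.mono h ⟨0, fun d q _ _ _ => Eventually.of_forall fun k f _ h1 hR => ?_⟩
  exact (E4_cn (B d k q f)).trans (h1 hR)

private theorem E4_step {d k q t : ℕ} {f : Site d (k + 1) → Fin q} {A : Finset (Fin q)} {C₄ δ : ℝ}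
    {x : Site d (k + 1)} (σ₀ : Stp d) (hq : C₄ / q ≤ δ / 2) (hG : ¬ Gb C₄ t f x)
    (h0 : Pn (δ / 2) t A f (x + sv σ₀)) (σ : Stp d) : Pn δ t A f (x + sv σ) := by
  intro c
  unfold Gb at hG
  push Not at hG
  have h1 := hG c σ σ₀
  have h2 := h0 c
  have e : gm A (x + sv σ) c = gm A (x + sv σ₀) c := by
    rw [gm_step (Nat.succ_le_succ (Nat.zero_le k)), gm_step (Nat.succ_le_succ (Nat.zero_le k))]
  rw [e]
  have h3 := abs_sub_le (PP^[t] (bq c f) (x + sv σ)) (PP^[t] (bq c f) (x + sv σ₀)) (gm A (x + sv σ₀) c)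
  linarith

theorem typ_tpl (K : ℕ) (θ : ℝ) (hθ : 0 < θ) : TRK K fun d _ _ f p => G0P (pat f p.1) ∧
    ¬ (TS θ (ALP (pat f p.1)) f (tp p) ∧ ∀ σ : Stp d, TS θ (ALP (pat f p.1)) f (tp p + sv σ)) := by
  obtain ⟨C₄, hC₄, hpin⟩ := pin_T
  obtain ⟨t, ht, ht', hGb, hPn⟩ := hpin (K + 12)
  obtain ⟨δ, hδ, hS⟩ := typ_site C₄ hC₄.le (K + 6) t ht ht' hGb θ hθ
  have h1 : TRK (K + 12) _ := hPn (δ / 2) (by positivity)
  have h2 := E4_comap h1
  have h3 := TRK_of_SRK hGb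
  have h4 : TRK (K + 10) _ := TRK_of_SRK (SRK.nb (K := K + 10) hGb)
  have h5 := TRK_of_SRK hS
  have h6 : TRK (K + 4) _ := TRK_of_SRK (SRK.nb (K := K + 4) hS)
  have hor := TRK.or (K := K + 1)
    (TRK.or (K := K + 2) (TRK.or (K := K + 3) (h1.le (by omega)) (h2.le (by omega)))
      (TRK.or (K := K + 3) (h3.le (by omega)) (h4.le (by omega))))
    ((TRK.or (K := K + 3) (h5.le (by omega)) h6).le (by omega : K + 2 ≤ K + 3))
  refine TRK.mono (hor.le (by omega : K ≤ K + 1)) ?_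
  refine (EvT_reg (ε := e3) (by unfold e3; norm_num) (by unfold e3; norm_num) (2 * C₄ / δ + 1)).mono ?_
  rintro d k q ⟨hMd, hMq, -, -, -, -, -, -⟩ hR f hf p ⟨hG0, hn⟩
  by_contra hcon
  have hd : 0 < d := by
    have h7 : (0 : ℝ) < d := lt_of_lt_of_le (by positivity) hMd
    exact_mod_cast h7
  have hq0 : (0 : ℝ) < q := lt_of_lt_of_le (by positivity) hMq
  have hq : C₄ / q ≤ δ / 2 := by
    rw [div_le_iff₀ hq0]
    have h7 : 2 * C₄ / δ ≤ q := by linarith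
    rw [div_le_iff₀ hδ] at h7
    linarith
  have e1 : ¬ (G0P (pat f p.1) ∧ ¬ Pn (δ / 2) t (ALP (pat f p.1)) f (tp p)) :=
    fun h => hcon (Or.inl (Or.inl (Or.inl h)))
  have e2 : ¬ (G0P (pat f (E4_F d k p).1) ∧
      ¬ Pn (δ / 2) t (ALP (pat f (E4_F d k p).1)) f (tp (E4_F d k p))) :=
    fun h => hcon (Or.inl (Or.inl (Or.inr h)))
  have e3 : ¬ Gb C₄ t f (tp p) := fun h => hcon (Or.inl (Or.inr (Or.inl h)))
  have e4 : ¬ ∃ σ : Stp d, Gb C₄ t f (tp p + sv σ) := fun h => hcon (Or.inl (Or.inr (Or.inr h)))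
  have e5 : ¬ ∃ A, Pn δ t A f (tp p) ∧ (∀ σ : Stp d, Pn δ t A f (tp p + sv σ)) ∧ ¬ TS θ A f (tp p) :=
    fun h => hcon (Or.inr (Or.inl h))
  have e6 : ¬ ∃ σ : Stp d, ∃ A, Pn δ t A f (tp p + sv σ) ∧
      (∀ τ : Stp d, Pn δ t A f (tp p + sv σ + sv τ)) ∧ ¬ TS θ A f (tp p + sv σ) :=
    fun h => hcon (Or.inr (Or.inr h))
  rw [E4_F_fst, E4_tp hd] at e2
  have hx : Pn (δ / 2) t (ALP (pat f p.1)) f (tp p) := by
    by_contra h
    exact e1 ⟨hG0, h⟩
  have hx' : Pn (δ / 2) t (ALP (pat f p.1)) f (tp p + sv (⟨0, hd⟩, !(p.2.1 ⟨0, hd⟩))) := by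
    by_contra h
    exact e2 ⟨hG0, h⟩
  have hxd : Pn δ t (ALP (pat f p.1)) f (tp p) := fun c => (hx c).trans (by linarith)
  have hn1 : ∀ σ : Stp d, Pn δ t (ALP (pat f p.1)) f (tp p + sv σ) := E4_step _ hq e3 hx'
  have hn2 : ∀ σ τ : Stp d, Pn δ t (ALP (pat f p.1)) f (tp p + sv σ + sv τ) := by
    intro σ
    refine E4_step (opp σ) hq (fun h => e4 ⟨σ, h⟩) ?_
    rw [add_assoc, sv_opp', add_zero]
    exact hx
  refine hn ⟨?_, fun σ => ?_⟩
  · by_contra h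
    exact e5 ⟨_, hxd, hn1, h⟩
  · by_contra h
    exact e6 ⟨σ, _, hn1 σ, hn2 σ, h⟩

end Pool.Agent.LC
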