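import Pool.Agent.Lib_MP_2c424f_lc1.E4

/-!
# LC1 E5: many available colours

`q3_pt`: `SRK_of_TRK`; `typ_tpl (K+1) (1/100)`: `av/q ≥ als - 1/100 ≥ 1/3` (`mf_num`, `ms_spec`); `bd_few et` (`TRK_blk`) for the blocks with `¬ G0P`.
`q3n_pt`: `SR.nb` twice.
-/

set_option autoImplicit false

open Finset Filter

namespace Pool.Agent.LC

open Pool.Agent.LO Pool.Agent.LIN Pool.Agent.THR Pool.Agent.COR

theorem q3_pt : SR fun _ _ q f v => (av f v : ℝ) < q / 3 := by
  intro K
  apply SRK_of_TRK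
  have het : (0 : ℝ) < et := by unfold et; norm_num
  have h1 := typ_tpl (K + 1) (1 / 100) (by norm_num)
  have h2 := TRK_blk (bd_few et het (K + 1))
  refine (h1.or h2).mono ?_
  refine (EvT_d (eventually_ge_atTop 1)).mono fun d k q hd hRg f _ p hp => ?_
  by_cases hG : G0P (pat f p.1)
  · left
    refine ⟨hG, fun hT => ?_⟩
    have h3 := hT.1.2
    obtain ⟨hq, ha, _⟩ := rg_pos hd hRg
    obtain ⟨_, _, _, _, h4, _⟩ := mf_num ha (ms_spec hd hRg)
    have hq' : (0 : ℝ) < q := by exact_mod_cast hq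
    have h5 : Real.exp (-ra d q) ≤ 1 / 1000 := by
      have h6 : ra d q + 1 ≤ Real.exp (ra d q) := Real.add_one_le_exp _
      rw [Real.exp_neg, inv_eq_one_div]
      apply one_div_le_one_div_of_le (by norm_num)
      linarith
    have h7 := (abs_le.1 h4).1
    have h8 := (abs_le.1 h3).1
    have h9 : (1 : ℝ) / 3 ≤ (av f (tp p) : ℝ) / q := by linarith
    rw [le_div_iff₀ hq'] at h9
    have hp' : (av f (tp p) : ℝ) < q / 3 := hp
    linarith
  · right
    unfold G0P at hG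
    push Not at hG
    exact hG

/-- all sites within two steps have at least `q/3` available colours -/
def Q3 {d k q : ℕ} (f : Site d k → Fin q) (v : Site d k) : Prop :=
  (q : ℝ) / 3 ≤ av f v ∧ (∀ σ : Stp d, (q : ℝ) / 3 ≤ av f (v + sv σ)) ∧ ∀ σ τ : Stp d, (q : ℝ) / 3 ≤ av f (v + sv σ + sv τ)

theorem q3n_pt : SR fun _ _ _ f v => ¬ Q3 f v := by
  have h1 := q3_pt
  have h2 := h1.nb
  have h3 := h2.nb
  refine ((h1.or h2).or h3).mono ?_
  refine (EvT_d (eventually_ge_atTop 1)).mono fun d k q _ _ f _ v hv => ?_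
  by_contra h0
  push Not at h0
  obtain ⟨⟨h4, h5⟩, h6⟩ := h0
  exact hv ⟨h4, h5, h6⟩

end Pool.Agent.LC
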