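import Pool.Agent.Lib_MP_2c424f_lc1.T3
import Pool.Agent.Lib_MP_2c424f_lc1.T4
import Pool.Agent.Lib_MP_2c424f_lc1.C0
import Pool.Agent.Lib_MP_2c424f_thr.T2

/-!
# LC1 F0: numbers of neighbours with a given colour on a fibre

`v` in the class `b`.  `nf c h v` depends on the colours of the neighbours (class `!b`), `nfx c h (v+σ) v` on the colours of the second neighbours (class `b`).  The neighbours of a site are distinct (`k ≥ 3`).
* `comm_nb`: if `w = v + σ + τ ≠ v` then `σ` is determined up to two values (`w - v` is `± e_i ± e_j` or `± 2 e_i`; side `2^k ≥ 8`).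
* `nf_exp`, `nfx_exp`: `fm_expn` with `U` the set of the neighbours (except `v`); `∑_{u ∈ U} zz/av ≤ hh`.
* `nf_mean`, `nfx_mean`: mean of `1[h u = c]` is `zz f u c/av f u` (`fm_ind`).
* `nf_sq`, `nfx_sq`: square of a sum of indicators; different sites are independent (THR `fm_indep2` or `fm_prod`): mean at most `λ + λ²`.
* `nf_four`: `n⁴ ≤ (λ/e)⁴ e^{4n/λ}` (`x⁴ ≤ e^{4(x-1)}` for `x = n/λ ≥ 0`) and `nf_exp` with `x = 4/λ`, `(e^x - 1) λ ≤ 4 + 16/λ` for `x ≤ 1`, `λ = 3a ≥ 3000`: `λ⁴ e^{16/λ} ≤ 2 λ⁴ ≤ 200 a⁴`.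
* `loc_hh_fib`, `loc_hh_fib2`: `hh c f v` depends on the colours of the class of `v` only (THR M1 `loc_fib`).
-/

set_option autoImplicit false

open Finset Filter

namespace Pool.Agent.LC

open Pool.Agent.LO Pool.Agent.LIN Pool.Agent.THR Pool.Agent.COR

variable {d k q : ℕ}

/-! ### sums over neighbours -/

open scoped Classical in
/-- the neighbours of a site -/
private noncomputable def F0_U (v : Site d k) : Finset (Site d k) := univ.image fun σ : Stp d => v + sv σ

private theorem F0_sum (hk : 2 ≤ k) (v : Site d k) (g : Site d k → ℝ) :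
    ∑ u ∈ F0_U v, g u = ∑ σ : Stp d, g (v + sv σ) := by
  classical
  unfold F0_U
  rw [Finset.sum_image]
  intro a _ b _ h
  exact sv_inj hk (add_left_cancel h)

private theorem F0_sub (hk : 1 ≤ k) {b : Bool} {v : Site d k} (hv : v ∈ cls b d k) : F0_U v ⊆ cls (!b) d k := by
  classical
  intro u hu
  unfold F0_U at hu
  obtain ⟨σ, _, rfl⟩ := Finset.mem_image.1 hu
  rw [mem_cls_step hk, Bool.not_not]
  exact hv

private theorem F0_nf (hk : 2 ≤ k) (c : Fin q) (h : Site d k → Fin q) (v : Site d k) :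
    nf c h v = ∑ u ∈ F0_U v, (if h u = c then (1 : ℝ) else 0) := by
  classical
  rw [F0_sum hk]
  unfold nf
  rw [Finset.natCast_card_filter]

private theorem F0_nfx (hk : 2 ≤ k) (c : Fin q) (h : Site d k → Fin q) (x v : Site d k) :
    nfx c h x v = ∑ u ∈ (F0_U x).filter (fun u => u ≠ v), (if h u = c then (1 : ℝ) else 0) := by
  classical
  rw [Finset.sum_filter, F0_sum hk]
  unfold nfx
  rw [Finset.natCast_card_filter]
  refine Finset.sum_congr rfl fun τ _ => ?_
  by_cases h1 : x + sv τ = v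
  · rw [if_neg (fun hh => hh.1 h1), if_neg (fun hh => hh h1)]
  · by_cases h2 : h (x + sv τ) = c
    · rw [if_pos ⟨h1, h2⟩, if_pos h1, if_pos h2]
    · rw [if_neg (fun hh => h2 hh.2), if_pos h1, if_neg h2]

private theorem F0_exp (hk : 2 ≤ k) (b : Bool) {f : Site d k → Fin q} (hf : Prp f) (U : Finset (Site d k))
    (hU : U ⊆ cls b d k) (c : Fin q) (x : ℝ) (hx : 0 ≤ x) :
    fm b (fun h => Real.exp (x * ∑ u ∈ U, (if h u = c then (1 : ℝ) else 0))) f ≤
      Real.exp ((Real.exp x - 1) * ∑ u ∈ U, zz f u c / (av f u : ℝ)) := by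
  classical
  refine le_trans (le_of_eq ?_) (fm_expn hk b hf U hU c x hx)
  refine fm_congr b fun h _ => ?_
  rw [Finset.natCast_card_filter]

private theorem F0_ind (hk : 2 ≤ k) (b : Bool) {f : Site d k → Fin q} (hf : Prp f) (u : Site d k)
    (hu : u ∈ cls b d k) (c : Fin q) :
    fm b (fun h => if h u = c then (1 : ℝ) else 0) f = zz f u c / (av f u : ℝ) := by
  classical
  refine Eq.trans ?_ (fm_ind (by omega) b hf u hu c)
  refine fm_congr b fun h _ => ?_
  by_cases h1 : h u = c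
  · simp only [h1, if_true]
  · simp only [h1, if_false]

private theorem F0_mean (hk : 2 ≤ k) (b : Bool) {f : Site d k → Fin q} (hf : Prp f) (U : Finset (Site d k))
    (hU : U ⊆ cls b d k) (c : Fin q) :
    fm b (fun h => ∑ u ∈ U, (if h u = c then (1 : ℝ) else 0)) f = ∑ u ∈ U, zz f u c / (av f u : ℝ) := by
  rw [fm_sum b f U (fun u h => if h u = c then (1 : ℝ) else 0)]
  exact Finset.sum_congr rfl fun u hu => F0_ind hk b hf u (hU hu) c

private theorem F0_sq (hk : 2 ≤ k) (b : Bool) {f : Site d k → Fin q} (hf : Prp f) (U : Finset (Site d k))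
    (hU : U ⊆ cls b d k) (c : Fin q) :
    fm b (fun h => (∑ u ∈ U, (if h u = c then (1 : ℝ) else 0)) ^ 2) f ≤
      ∑ u ∈ U, zz f u c / (av f u : ℝ) + (∑ u ∈ U, zz f u c / (av f u : ℝ)) ^ 2 := by
  classical
  have h1 : fm b (fun h => (∑ u ∈ U, (if h u = c then (1 : ℝ) else 0)) ^ 2) f =
      ∑ u ∈ U, ∑ w ∈ U, fm b (fun h => (if h u = c then (1 : ℝ) else 0) * (if h w = c then (1 : ℝ) else 0)) f := by
    rw [← Finset.sum_congr rfl fun u _ => fm_sum b f U
      (fun w h => (if h u = c then (1 : ℝ) else 0) * (if h w = c then (1 : ℝ) else 0))]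
    rw [← fm_sum b f U
      (fun u h => ∑ w ∈ U, (if h u = c then (1 : ℝ) else 0) * (if h w = c then (1 : ℝ) else 0))]
    refine fm_congr b fun h _ => ?_
    rw [sq, Finset.sum_mul_sum]
  have h2 : ∀ u ∈ U, ∀ w ∈ U,
      fm b (fun h => (if h u = c then (1 : ℝ) else 0) * (if h w = c then (1 : ℝ) else 0)) f ≤
      (if u = w then zz f u c / (av f u : ℝ) else 0) + zz f u c / (av f u : ℝ) * (zz f w c / (av f w : ℝ)) := by
    intro u hu w hw
    have hu1 := zz_av_le hf u c
    have hw1 := zz_av_le hf w c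
    by_cases huw : u = w
    · subst huw
      rw [if_pos rfl]
      have h3 : fm b (fun h => (if h u = c then (1 : ℝ) else 0) * (if h u = c then (1 : ℝ) else 0)) f =
          fm b (fun h => if h u = c then (1 : ℝ) else 0) f := by
        refine fm_congr b fun h _ => ?_
        split_ifs <;> norm_num
      rw [h3, F0_ind hk b hf u (hU hu) c]
      have := mul_nonneg hu1.1 hu1.1
      linarith
    · rw [if_neg huw, zero_add]
      have h3 := fm_two (by omega) b hf u w (hU hu) (hU hw) huw (fun γ => if γ = c then (1 : ℝ) else 0)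
        (fun γ => if γ = c then (1 : ℝ) else 0)
      rw [F0_ind hk b hf u (hU hu) c, F0_ind hk b hf w (hU hw) c] at h3
      exact h3.le
  rw [h1]
  refine (Finset.sum_le_sum fun u hu => Finset.sum_le_sum fun w hw => h2 u hu w hw).trans (le_of_eq ?_)
  simp only [Finset.sum_add_distrib]
  congr 1
  · refine Finset.sum_congr rfl fun u hu => ?_
    rw [Finset.sum_ite_eq, if_pos hu]
  · rw [sq, Finset.sum_mul_sum]

private theorem F0_hh (hk : 2 ≤ k) (c : Fin q) (f : Site d k → Fin q) (v : Site d k) :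
    ∑ u ∈ F0_U v, zz f u c / (av f u : ℝ) = hh c f v := by
  rw [F0_sum hk]
  rfl

private theorem F0_hhx (hk : 2 ≤ k) (c : Fin q) {f : Site d k → Fin q} (hf : Prp f) (x v : Site d k) :
    0 ≤ ∑ u ∈ (F0_U x).filter (fun u => u ≠ v), zz f u c / (av f u : ℝ) ∧
    ∑ u ∈ (F0_U x).filter (fun u => u ≠ v), zz f u c / (av f u : ℝ) ≤ hh c f x := by
  refine ⟨Finset.sum_nonneg fun u _ => (zz_av_le hf u c).1, ?_⟩
  rw [← F0_hh hk]
  exact Finset.sum_le_sum_of_subset_of_nonneg (Finset.filter_subset _ _) fun u _ _ => (zz_av_le hf u c).1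

/-! ### coordinates of the steps -/

private def F0_s (σ : Stp d) : ℤ := if σ.2 then 1 else -1

private def F0_e (σ : Stp d) (i : Fin d) : ℤ := if i = σ.1 then F0_s σ else 0

private theorem F0_sv (σ : Stp d) (i : Fin d) : (sv σ : Site d k) i = ((F0_e σ i : ℤ) : ZMod (2 ^ k)) := by
  unfold sv F0_e F0_s
  rw [Pi.single_apply]
  split_ifs <;> simp

private theorem F0_zero (hk : 3 ≤ k) {n : ℤ} (h1 : -4 ≤ n) (h2 : n ≤ 4) (h : ((n : ℤ) : ZMod (2 ^ k)) = 0) : n = 0 := by
  rw [ZMod.intCast_zmod_eq_zero_iff_dvd] at h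
  have h8 : 8 ≤ 2 ^ k := by
    calc 8 = 2 ^ 3 := by norm_num
      _ ≤ 2 ^ k := Nat.pow_le_pow_right (by norm_num) hk
  obtain ⟨m, hm⟩ := h
  have h8' : (8 : ℤ) ≤ ((2 ^ k : ℕ) : ℤ) := by exact_mod_cast h8
  by_contra hn
  have hm0 : m ≠ 0 := by
    rintro rfl
    rw [mul_zero] at hm
    exact hn hm
  rcases lt_or_gt_of_ne hm0 with hlt | hgt
  · nlinarith
  · nlinarith

private theorem F0_s_cases (σ : Stp d) : F0_s σ = 1 ∨ F0_s σ = -1 := by
  unfold F0_s
  split_ifs <;> simp

private theorem F0_e_cases (σ : Stp d) (i : Fin d) : F0_e σ i = 0 ∨ (i = σ.1 ∧ F0_e σ i = F0_s σ) := by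
  unfold F0_e
  by_cases h : i = σ.1
  · right
    exact ⟨h, if_pos h⟩
  · left
    exact if_neg h

private theorem F0_ext {σ τ : Stp d} (h1 : σ.1 = τ.1) (h2 : F0_s σ = F0_s τ) : σ = τ := by
  refine Prod.ext h1 ?_
  unfold F0_s at h2
  cases hs : σ.2 <;> cases ht : τ.2 <;> rw [hs, ht] at h2 <;> simp at h2 ⊢

private theorem F0_two (hk : 3 ≤ k) {σ τ σ' τ' : Stp d} (hne : (sv σ : Site d k) + sv τ ≠ 0)
    (h : (sv σ : Site d k) + sv τ = sv σ' + sv τ') : σ = σ' ∨ σ = τ' := by
  by_contra hcon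
  rw [not_or] at hcon
  obtain ⟨hc1, hc2⟩ := hcon
  have h1 := congrFun h σ.1
  simp only [Pi.add_apply, F0_sv] at h1
  have ea : F0_e σ σ.1 = F0_s σ := by
    unfold F0_e
    rw [if_pos rfl]
  have eb := F0_e_cases τ σ.1
  have ec := F0_e_cases σ' σ.1
  have ed := F0_e_cases τ' σ.1
  have sa := F0_s_cases σ
  have sb := F0_s_cases τ
  have sc := F0_s_cases σ'
  have sd := F0_s_cases τ'
  -- the second step does not cancel the first one
  have hb : F0_e τ σ.1 = 0 ∨ F0_e τ σ.1 = F0_s σ := by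
    rcases eb with eb | ⟨eb1, eb2⟩
    · left
      exact eb
    · right
      rw [eb2]
      by_contra hs
      apply hne
      have hs' : F0_s τ = -F0_s σ := by omega
      funext i
      simp only [Pi.add_apply, F0_sv, Pi.zero_apply]
      rw [← Int.cast_add]
      have : F0_e σ i + F0_e τ i = 0 := by
        unfold F0_e
        rw [← eb1, hs']
        split_ifs <;> omega
      rw [this, Int.cast_zero]
  have hc : F0_e σ' σ.1 = 0 ∨ F0_e σ' σ.1 = -F0_s σ := by
    rcases ec with ec | ⟨ec1, ec2⟩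
    · left
      exact ec
    · right
      rw [ec2]
      have : F0_s σ' ≠ F0_s σ := fun hh => hc1 (F0_ext ec1 hh.symm)
      omega
  have hd : F0_e τ' σ.1 = 0 ∨ F0_e τ' σ.1 = -F0_s σ := by
    rcases ed with ed | ⟨ed1, ed2⟩
    · left
      exact ed
    · right
      rw [ed2]
      have : F0_s τ' ≠ F0_s σ := fun hh => hc2 (F0_ext ed1 hh.symm)
      omega
  have h2 : ((F0_e σ σ.1 + F0_e τ σ.1 - (F0_e σ' σ.1 + F0_e τ' σ.1) : ℤ) : ZMod (2 ^ k)) = 0 := by
    push_cast
    rw [h1, sub_self]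
  rw [ea] at h2
  have h3 := F0_zero hk (by omega) (by omega) h2
  omega

private theorem F0_cn2 (P : Stp d → Prop) (a b : Stp d) (h : ∀ σ, P σ → σ = a ∨ σ = b) : cn P ≤ 2 := by
  classical
  have h5 : (2 : ℝ) = ((2 : ℕ) : ℝ) := by norm_num
  unfold cn
  rw [h5]
  refine Nat.cast_le.2 (le_trans (Finset.card_le_card ?_) (Finset.card_le_two (a := a) (b := b)))
  intro σ hσ
  rcases h σ (Finset.mem_filter.1 hσ).2 with rfl | rfl <;> simp

private theorem F0_cn0 (P : Stp d → Prop) (h : ∀ σ, ¬ P σ) : cn P ≤ 2 := by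
  classical
  unfold cn
  rw [Finset.filter_false_of_mem fun σ _ => h σ]
  norm_num

theorem comm_nb (hk : 3 ≤ k) {v w : Site d k} (h : w ≠ v) : cn (fun σ : Stp d => ∃ τ : Stp d, w = v + sv σ + sv τ) ≤ 2 := by
  by_cases hex : ∃ σ τ : Stp d, w = v + sv σ + sv τ
  · obtain ⟨σ₀, τ₀, h0⟩ := hex
    refine F0_cn2 _ σ₀ τ₀ ?_
    rintro σ ⟨τ, hτ⟩
    have h2 : (sv σ : Site d k) + sv τ = sv σ₀ + sv τ₀ := by
      have h3 : v + (sv σ + sv τ) = v + (sv σ₀ + sv τ₀) := by
        rw [← add_assoc, ← add_assoc, ← hτ, ← h0]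
      exact add_left_cancel h3
    have h4 : (sv σ : Site d k) + sv τ ≠ 0 := by
      intro h5
      apply h
      rw [hτ, add_assoc, h5, add_zero]
    exact F0_two hk h4 h2
  · exact F0_cn0 _ fun σ hσ => hex ⟨σ, hσ⟩

theorem nf_exp (hk : 3 ≤ k) {b : Bool} {f : Site d k → Fin q} (hf : Prp f) {v : Site d k} (hv : v ∈ cls b d k) (c : Fin q) (x : ℝ)
    (hx : 0 ≤ x) : fm (!b) (fun h => Real.exp (x * nf c h v)) f ≤ Real.exp ((Real.exp x - 1) * hh c f v) := by
  have h1 := F0_exp (by omega) (!b) hf (F0_U v) (F0_sub (by omega) hv) c x hx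
  rw [F0_hh (by omega)] at h1
  refine le_trans (le_of_eq ?_) h1
  exact fm_congr _ fun h _ => by rw [F0_nf (by omega)]

theorem nfx_exp (hk : 3 ≤ k) {b : Bool} {f : Site d k → Fin q} (hf : Prp f) {v : Site d k} (hv : v ∈ cls b d k) (c : Fin q) (σ : Stp d)
    (x : ℝ) (hx : 0 ≤ x) :
    fm b (fun h => Real.exp (x * nfx c h (v + sv σ) v)) f ≤ Real.exp ((Real.exp x - 1) * hh c f (v + sv σ)) := by
  have hv' : v + sv σ ∈ cls (!b) d k := by
    rw [mem_cls_step (by omega), Bool.not_not]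
    exact hv
  have hsub : (F0_U (v + sv σ)).filter (fun u => u ≠ v) ⊆ cls b d k := by
    have := F0_sub (by omega) hv'
    rw [Bool.not_not] at this
    exact (Finset.filter_subset _ _).trans this
  have h1 := F0_exp (by omega) b hf _ hsub c x hx
  refine le_trans (le_of_eq ?_) (h1.trans (Real.exp_le_exp.2 ?_))
  · exact fm_congr _ fun h _ => by rw [F0_nfx (by omega)]
  · refine mul_le_mul_of_nonneg_left (F0_hhx (by omega) c hf _ _).2 ?_
    have := Real.one_le_exp hx
    linarith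

theorem nfx_mean (hk : 3 ≤ k) {b : Bool} {f : Site d k → Fin q} (hf : Prp f) {v : Site d k} (hv : v ∈ cls b d k) (c : Fin q)
    (σ : Stp d) : fm b (fun h => nfx c h (v + sv σ) v) f ≤ hh c f (v + sv σ) := by
  have hv' : v + sv σ ∈ cls (!b) d k := by
    rw [mem_cls_step (by omega), Bool.not_not]
    exact hv
  have hsub : (F0_U (v + sv σ)).filter (fun u => u ≠ v) ⊆ cls b d k := by
    have := F0_sub (by omega) hv'
    rw [Bool.not_not] at this
    exact (Finset.filter_subset _ _).trans this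
  have h1 := F0_mean (by omega) b hf _ hsub c
  refine le_trans (le_of_eq ?_) (F0_hhx (by omega) c hf (v + sv σ) v).2
  rw [← h1]
  exact fm_congr _ fun h _ => by rw [F0_nfx (by omega)]

theorem nf_sq (hk : 3 ≤ k) {b : Bool} {f : Site d k → Fin q} (hf : Prp f) {v : Site d k} (hv : v ∈ cls b d k) (c : Fin q) :
    fm (!b) (fun h => nf c h v ^ 2) f ≤ hh c f v + hh c f v ^ 2 := by
  have h1 := F0_sq (by omega) (!b) hf (F0_U v) (F0_sub (by omega) hv) c
  rw [F0_hh (by omega)] at h1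
  refine le_trans (le_of_eq ?_) h1
  exact fm_congr _ fun h _ => by rw [F0_nf (by omega)]

theorem nfx_sq (hk : 3 ≤ k) {b : Bool} {f : Site d k → Fin q} (hf : Prp f) {v : Site d k} (hv : v ∈ cls b d k) (c : Fin q)
    (σ : Stp d) : fm b (fun h => nfx c h (v + sv σ) v ^ 2) f ≤ hh c f (v + sv σ) + hh c f (v + sv σ) ^ 2 := by
  have hv' : v + sv σ ∈ cls (!b) d k := by
    rw [mem_cls_step (by omega), Bool.not_not]
    exact hv
  have hsub : (F0_U (v + sv σ)).filter (fun u => u ≠ v) ⊆ cls b d k := by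
    have := F0_sub (by omega) hv'
    rw [Bool.not_not] at this
    exact (Finset.filter_subset _ _).trans this
  have h1 := F0_sq (by omega) b hf _ hsub c
  obtain ⟨h2, h3⟩ := F0_hhx (by omega) c hf (v + sv σ) v
  refine le_trans (le_of_eq ?_) (h1.trans (add_le_add h3 (pow_le_pow_left₀ h2 h3 2)))
  exact fm_congr _ fun h _ => by rw [F0_nfx (by omega)]

theorem nf_four (hk : 3 ≤ k) {b : Bool} {f : Site d k → Fin q} (hf : Prp f) {v : Site d k} (hv : v ∈ cls b d k) (c : Fin q) {a : ℝ}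
    (ha : 1000 ≤ a) (h : hh c f v ≤ 3 * a) : fm (!b) (fun h => nf c h v ^ 4) f ≤ 200 * a ^ 4 := by
  set l : ℝ := 3 * a with hl
  have hl0 : 3000 ≤ l := by linarith
  have hlp : 0 < l := by linarith
  have h4 : 0 < 4 / l := by positivity
  have h41 : 4 / l ≤ 1 := by
    rw [div_le_one hlp]
    linarith
  have hpt : ∀ n : ℝ, 0 ≤ n → n ^ 4 ≤ (l ^ 4 * Real.exp (-4)) * Real.exp (4 / l * n) := by
    intro n hn
    have h1 : n / l ≤ Real.exp (n / l - 1) := by
      have := Real.add_one_le_exp (n / l - 1)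
      linarith
    have h2 : (n / l) ^ 4 ≤ Real.exp (n / l - 1) ^ 4 := pow_le_pow_left₀ (by positivity) h1 4
    have h3 : Real.exp (n / l - 1) ^ 4 = Real.exp (-4) * Real.exp (4 / l * n) := by
      rw [← Real.exp_nat_mul, ← Real.exp_add]
      congr 1
      push_cast
      ring
    rw [h3] at h2
    have h5 : n ^ 4 = l ^ 4 * (n / l) ^ 4 := by
      field_simp
    rw [h5]
    calc l ^ 4 * (n / l) ^ 4 ≤ l ^ 4 * (Real.exp (-4) * Real.exp (4 / l * n)) :=
          mul_le_mul_of_nonneg_left h2 (by positivity)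
      _ = _ := by ring
  have h1 : fm (!b) (fun h => nf c h v ^ 4) f ≤
      fm (!b) (fun h => (l ^ 4 * Real.exp (-4)) * Real.exp (4 / l * nf c h v)) f :=
    fm_mono _ hf fun g _ => hpt _ (by unfold nf; positivity)
  rw [fm_mul] at h1
  have h2 := nf_exp hk hf hv c (4 / l) h4.le
  have h5 : Real.exp (4 / l) - 1 ≤ 4 / l + (4 / l) ^ 2 := by
    have h6 := Real.abs_exp_sub_one_sub_id_le (x := 4 / l) (by rw [abs_of_pos h4]; exact h41)
    have h7 := (abs_le.1 h6).2
    linarith
  have h6 : (Real.exp (4 / l) - 1) * hh c f v ≤ 4 + 16 / l := by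
    have h7 : (4 / l + (4 / l) ^ 2) * l = 4 + 16 / l := by
      field_simp
      ring
    have h8 : 0 ≤ Real.exp (4 / l) - 1 := by
      have := Real.one_le_exp h4.le
      linarith
    calc (Real.exp (4 / l) - 1) * hh c f v ≤ (Real.exp (4 / l) - 1) * l := mul_le_mul_of_nonneg_left h h8
      _ ≤ (4 / l + (4 / l) ^ 2) * l := mul_le_mul_of_nonneg_right h5 hlp.le
      _ = _ := h7
  have h7 : Real.exp (16 / l) ≤ 2 := by
    have h8 : 16 / l ≤ 1 / 2 := by
      rw [div_le_iff₀ hlp]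
      linarith
    have h9 : 0 < 16 / l := by positivity
    have h10 := Real.abs_exp_sub_one_sub_id_le (x := 16 / l) (by rw [abs_of_pos h9]; linarith)
    have h11 := (abs_le.1 h10).2
    nlinarith
  refine h1.trans ?_
  calc l ^ 4 * Real.exp (-4) * fm (!b) (fun h => Real.exp (4 / l * nf c h v)) f
      ≤ l ^ 4 * Real.exp (-4) * Real.exp (4 + 16 / l) :=
        mul_le_mul_of_nonneg_left (h2.trans (Real.exp_le_exp.2 h6)) (by positivity)
    _ = l ^ 4 * Real.exp (16 / l) := by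
        rw [mul_assoc, ← Real.exp_add]
        congr 2
        ring
    _ ≤ l ^ 4 * 2 := mul_le_mul_of_nonneg_left h7 (by positivity)
    _ = 162 * a ^ 4 := by
        rw [hl]
        ring
    _ ≤ 200 * a ^ 4 := by
        have : 0 < a ^ 4 := by positivity
        linarith

theorem loc_hh_fib (hk : 3 ≤ k) {b : Bool} {f : Site d k → Fin q} {v : Site d k} (hv : v ∈ cls b d k) (c : Fin q)
    {h : Site d k → Fin q} (hh' : h ∈ fib (!b) f) : hh c h v = hh c f v :=
  (loc_fib (by omega) b hh' v hv c).1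

theorem loc_hh_fib2 (hk : 3 ≤ k) {b : Bool} {f : Site d k → Fin q} {v : Site d k} (hv : v ∈ cls b d k) (c : Fin q) (σ : Stp d)
    {h : Site d k → Fin q} (hh' : h ∈ fib b f) : hh c h (v + sv σ) = hh c f (v + sv σ) := by
  have hv' : v + sv σ ∈ cls (!b) d k := by
    rw [mem_cls_step (by omega), Bool.not_not]
    exact hv
  refine (loc_fib (by omega) (!b) ?_ _ hv' c).1
  rw [Bool.not_not]
  exact hh'

end Pool.Agent.LC
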