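import Pool.Agent.Lib_MP_2c424f_lc1.F0

/-!
# LC1 F1: few available colours with a large field

`SR_local`, `o = false`, `R = True`, radius 2.  `v ∈ cls b`: the set `H = {c : 1.79 a ≤ hh c f v}` does not change on the fibre of `!b` (`loc_hh_fib`).  `F h = ∑_{c ∈ H} zz h v c`, mean `∑_{c ∈ H} zt f v c ≤ q e^{-1.79a} ≤ e^{-a} q/4`
(`zt ≤ e^{-hh}`: `1 - x ≤ e^{-x}`).  A neighbour changes `F` by at most `1`: `fm_mcd` with `S = 2d`, `θ = e^{-a} q/4`: `≤ 2 exp (-e^{-2a} q²/(128 d)) ≤ d^(-K)`.
-/

set_option autoImplicit false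

open Finset Filter

namespace Pool.Agent.LC

open Pool.Agent.LO Pool.Agent.LIN Pool.Agent.THR Pool.Agent.COR

variable {d k q : ℕ}

private theorem F1_zt_le {f : Site d k → Fin q} (hf : Prp f) (v : Site d k) (c : Fin q) :
    zt f v c ≤ Real.exp (-hh c f v) := by
  unfold zt THR.hh
  rw [← Finset.sum_neg_distrib, Real.exp_sum]
  refine Finset.prod_le_prod (fun σ _ => ?_) fun σ _ => ?_
  · have h1 := (zz_av_le hf (v + sv σ) c).2
    have h2 := (zz_av_le hf (v + sv σ) c).1
    have h3 : zz f (v + sv σ) c / (av f (v + sv σ) : ℝ) ≤ 1 := by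
      have h4 : (1 : ℝ) ≤ av f (v + sv σ) := by exact_mod_cast av_pos hf (v + sv σ)
      have h5 : zz f (v + sv σ) c ≤ 1 := by
        unfold zz
        split_ifs
        · exact zero_le_one
        · exact le_rfl
      rw [div_le_one (by linarith)]
      exact h5.trans h4
    linarith
  · have h1 := Real.add_one_le_exp (-(zz f (v + sv σ) c / (av f (v + sv σ) : ℝ)))
    linarith

private theorem F1_zz_01 (f : Site d k → Fin q) (v : Site d k) (c : Fin q) : zz f v c = 0 ∨ zz f v c = 1 := by
  unfold zz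
  split_ifs
  · exact Or.inl rfl
  · exact Or.inr rfl

private theorem F1_mem (f : Site d k → Fin q) (x : Site d k) (c : Fin q) :
    c ∈ SS f x ↔ ∃ τ : Stp d, f (x + sv τ) = c := by
  unfold SS
  simp only [Finset.mem_image, Finset.mem_univ, true_and]

private theorem F1_zz_congr {f g : Site d k → Fin q} {v : Site d k} {c : Fin q} (h : c ∈ SS f v ↔ c ∈ SS g v) :
    zz f v c = zz g v c := by
  unfold zz
  by_cases h1 : c ∈ SS f v
  · rw [if_pos h1, if_pos (h.1 h1)]
  · rw [if_neg h1, if_neg fun h2 => h1 (h.2 h2)]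

private theorem F1_zz_upd (h : Site d k → Fin q) (v u : Site d k) (γ c : Fin q) :
    |zz (Function.update h u γ) v c - zz h v c| ≤ ind (c = h u) + ind (c = γ) := by
  have hi : ∀ P : Prop, 0 ≤ ind P := by
    intro P
    unfold ind
    split_ifs <;> norm_num
  have hi1 : ∀ P : Prop, P → ind P = 1 := by
    intro P hP
    unfold ind
    rw [if_pos hP]
  have habs : |zz (Function.update h u γ) v c - zz h v c| ≤ 1 := by
    rcases F1_zz_01 (Function.update h u γ) v c with h1 | h1 <;> rcases F1_zz_01 h v c with h2 | h2 <;>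
      rw [h1, h2] <;> norm_num
  by_cases h1 : c = h u
  · rw [hi1 _ h1]
    linarith [hi (c = γ)]
  · by_cases h2 : c = γ
    · rw [hi1 _ h2]
      linarith [hi (c = h u)]
    · have h3 : zz (Function.update h u γ) v c = zz h v c := by
        refine F1_zz_congr ?_
        rw [F1_mem, F1_mem]
        refine exists_congr fun τ => ?_
        by_cases h4 : v + sv τ = u
        · rw [h4, Function.update_self]
          exact ⟨fun h5 => absurd h5.symm h2, fun h5 => absurd h5.symm h1⟩
        · rw [Function.update_of_ne h4]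
      rw [h3, sub_self, abs_zero]
      linarith [hi (c = h u), hi (c = γ)]

private theorem F1_zz_off (h : Site d k → Fin q) (v u : Site d k) (γ c : Fin q) (hu : ∀ τ : Stp d, v + sv τ ≠ u) :
    zz (Function.update h u γ) v c = zz h v c := by
  refine F1_zz_congr ?_
  rw [F1_mem, F1_mem]
  refine exists_congr fun τ => ?_
  rw [Function.update_of_ne (hu τ)]

private theorem F1_ind_sum (x : Fin q) : ∑ c : Fin q, ind (c = x) = 1 := by
  classical
  unfold ind
  rw [Finset.sum_eq_single x]
  · rw [if_pos rfl]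
  · intro c _ hc
    rw [if_neg hc]
  · intro h
    exact absurd (Finset.mem_univ x) h

private theorem F1_lip (H : Finset (Fin q)) (h : Site d k → Fin q) (v u : Site d k) (γ : Fin q) :
    |∑ c ∈ H, zz (Function.update h u γ) v c - ∑ c ∈ H, zz h v c| ≤ 2 * ind (∃ τ : Stp d, v + sv τ = u) := by
  have hi : ∀ P : Prop, 0 ≤ ind P := by
    intro P
    unfold ind
    split_ifs <;> norm_num
  by_cases hu : ∃ τ : Stp d, v + sv τ = u
  · have h0 : ind (∃ τ : Stp d, v + sv τ = u) = 1 := by
      unfold ind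
      rw [if_pos hu]
    rw [h0, ← Finset.sum_sub_distrib]
    calc |∑ c ∈ H, (zz (Function.update h u γ) v c - zz h v c)|
        ≤ ∑ c ∈ H, |zz (Function.update h u γ) v c - zz h v c| := Finset.abs_sum_le_sum_abs _ _
      _ ≤ ∑ c ∈ H, (ind (c = h u) + ind (c = γ)) := Finset.sum_le_sum fun c _ => F1_zz_upd h v u γ c
      _ ≤ ∑ c : Fin q, (ind (c = h u) + ind (c = γ)) :=
          Finset.sum_le_sum_of_subset_of_nonneg (Finset.subset_univ _) fun c _ _ => by
            linarith [hi (c = h u), hi (c = γ)]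
      _ = 2 * 1 := by
          rw [Finset.sum_add_distrib, F1_ind_sum, F1_ind_sum]
          norm_num
  · have h0 : ∀ c ∈ H, zz (Function.update h u γ) v c = zz h v c := fun c _ =>
      F1_zz_off h v u γ c fun τ hτ => hu ⟨τ, hτ⟩
    rw [Finset.sum_congr rfl h0, sub_self, abs_zero]
    linarith [hi (∃ τ : Stp d, v + sv τ = u)]

private theorem F1_nb (v : Site d k) (A : Finset (Site d k)) :
    ∑ u ∈ A, (2 * ind (∃ τ : Stp d, v + sv τ = u)) ^ 2 ≤ 8 * (d : ℝ) := by
  classical
  have h1 : ∀ u : Site d k, (2 * ind (∃ τ : Stp d, v + sv τ = u)) ^ 2 ≤ ∑ τ : Stp d, (if v + sv τ = u then (4 : ℝ) else 0) := by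
    intro u
    by_cases hu : ∃ τ : Stp d, v + sv τ = u
    · obtain ⟨τ, hτ⟩ := hu
      have h2 : ind (∃ τ : Stp d, v + sv τ = u) = 1 := by
        unfold ind
        rw [if_pos ⟨τ, hτ⟩]
      rw [h2]
      have h3 : (if v + sv τ = u then (4 : ℝ) else 0) ≤ ∑ τ : Stp d, (if v + sv τ = u then (4 : ℝ) else 0) :=
        Finset.single_le_sum (f := fun τ : Stp d => if v + sv τ = u then (4 : ℝ) else 0) (fun τ' _ => by
          split_ifs
          · norm_num
          · exact le_rfl) (Finset.mem_univ τ)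
      rw [if_pos hτ] at h3
      linarith
    · have h2 : ind (∃ τ : Stp d, v + sv τ = u) = 0 := by
        unfold ind
        rw [if_neg hu]
      rw [h2]
      have h3 : (0 : ℝ) ≤ ∑ τ : Stp d, (if v + sv τ = u then (4 : ℝ) else 0) :=
        Finset.sum_nonneg fun τ _ => by
          split_ifs
          · norm_num
          · exact le_rfl
      linarith
  calc ∑ u ∈ A, (2 * ind (∃ τ : Stp d, v + sv τ = u)) ^ 2
      ≤ ∑ u : Site d k, (2 * ind (∃ τ : Stp d, v + sv τ = u)) ^ 2 :=
        Finset.sum_le_sum_of_subset_of_nonneg (Finset.subset_univ _) fun u _ _ => sq_nonneg _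
    _ ≤ ∑ u : Site d k, ∑ τ : Stp d, (if v + sv τ = u then (4 : ℝ) else 0) := Finset.sum_le_sum fun u _ => h1 u
    _ = ∑ τ : Stp d, ∑ u : Site d k, (if v + sv τ = u then (4 : ℝ) else 0) := Finset.sum_comm
    _ = ∑ _τ : Stp d, (4 : ℝ) := by
        refine Finset.sum_congr rfl fun τ _ => ?_
        rw [Finset.sum_ite_eq, if_pos (Finset.mem_univ _)]
    _ = 8 * d := by
        rw [Finset.sum_const, nsmul_eq_mul, Finset.card_univ, Fintype.card_prod, Fintype.card_fin, Fintype.card_bool]
        push_cast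
        ring

private theorem F1_cn (P : Fin q → Prop) (f : Site d k → Fin q) (v : Site d k) (H : Finset (Fin q))
    (hH : ∀ c, c ∈ H ↔ P c) : cn (fun c : Fin q => zz f v c = 1 ∧ P c) = ∑ c ∈ H, zz f v c := by
  classical
  unfold cn
  have h1 : (univ.filter fun c : Fin q => zz f v c = 1 ∧ P c) = H.filter fun c => zz f v c = 1 := by
    ext c
    simp only [Finset.mem_filter, Finset.mem_univ, true_and, hH]
    exact and_comm
  have h2 : ∀ c ∈ H, zz f v c = if zz f v c = 1 then (1 : ℝ) else 0 := by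
    intro c _
    rcases F1_zz_01 f v c with h3 | h3
    · rw [h3, if_neg (by norm_num)]
    · rw [h3, if_pos rfl]
  rw [Finset.sum_congr rfl h2, Finset.sum_boole, ← h1]
  congr 2
  ext c
  simp only [Finset.mem_filter]

private theorem F1_ev (K : ℕ) : ∀ᶠ d : ℕ in atTop,
    2 * Real.exp (-(Real.exp (-4000) / 512000000 * d)) ≤ 1 / (d : ℝ) ^ K := by
  have hb : (0 : ℝ) < Real.exp (-4000) / 512000000 := by positivity
  have h := (isLittleO_pow_exp_pos_mul_atTop (k := K) hb).bound (c := 1 / 2) (by norm_num)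
  have h' := tendsto_natCast_atTop_atTop.eventually h
  filter_upwards [h', eventually_ge_atTop 1] with d hd hd1
  have hd0 : (0 : ℝ) < d := by exact_mod_cast hd1
  rw [Real.norm_of_nonneg (by positivity), Real.norm_of_nonneg (Real.exp_pos _).le] at hd
  rw [Real.exp_neg, le_div_iff₀ (by positivity)]
  have he := Real.exp_pos (Real.exp (-4000) / 512000000 * (d : ℝ))
  have h3 : 2 * (Real.exp (Real.exp (-4000) / 512000000 * (d : ℝ)))⁻¹ * (d : ℝ) ^ K =
      2 * (d : ℝ) ^ K / Real.exp (Real.exp (-4000) / 512000000 * (d : ℝ)) := by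
    field_simp
  rw [h3, div_le_one he]
  linarith

private theorem F1_main (hk : 3 ≤ k) (hd : 1 ≤ d) (hR : Rg d q) {f : Site d k → Fin q} (hf : Prp f) (b : Bool)
    (v : Site d k) (hv : v ∈ cls b d k) :
    fm (!b) (fun h => ind (Real.exp (-ra d q) * q / 2 < cn (fun c : Fin q => zz h v c = 1 ∧ 1.79 * ra d q ≤ hh c h v))) f ≤
      2 * Real.exp (-(Real.exp (-4000) / 512000000 * d)) := by
  classical
  obtain ⟨_, hR1, hR2⟩ := hR
  have hR1' : 1000 * (q : ℝ) ≤ 2 * d := by exact_mod_cast hR1
  have hR2' : 2 * (d : ℝ) ≤ 2000 * q := by exact_mod_cast hR2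
  have hd0 : (1 : ℝ) ≤ d := by exact_mod_cast hd
  have hq0 : (0 : ℝ) < q := by linarith
  set a : ℝ := ra d q with ha
  have ha1 : 1000 ≤ a := by
    rw [ha]
    unfold ra
    rw [le_div_iff₀ hq0]
    exact hR1'
  have ha2 : a ≤ 2000 := by
    rw [ha]
    unfold ra
    rw [div_le_iff₀ hq0]
    exact hR2'
  set H : Finset (Fin q) := univ.filter fun c => 1.79 * a ≤ hh c f v with hH
  have hHm : ∀ c, c ∈ H ↔ 1.79 * a ≤ hh c f v := by
    intro c
    rw [hH]
    simp only [Finset.mem_filter, Finset.mem_univ, true_and]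
  set F : (Site d k → Fin q) → ℝ := fun h => ∑ c ∈ H, zz h v c with hF
  have hmean : fm (!b) F f = ∑ c ∈ H, zt f v c := by
    rw [hF, fm_sum]
    exact Finset.sum_congr rfl fun c _ => fm_zz (by omega) b hf v hv c
  have hmean2 : fm (!b) F f ≤ Real.exp (-a) * q / 4 := by
    rw [hmean]
    have h1 : ∀ c ∈ H, zt f v c ≤ Real.exp (-a) / 4 := by
      intro c hc
      have h2 := F1_zt_le hf v c
      have h3 := (hHm c).1 hc
      have h4 : Real.exp (-hh c f v) ≤ Real.exp (-a + -(0.79 * a)) := Real.exp_le_exp.2 (by linarith)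
      rw [Real.exp_add] at h4
      have h5 : Real.exp (-(0.79 * a)) ≤ 1 / 4 := by
        rw [Real.exp_neg, inv_le_comm₀ (Real.exp_pos _) (by norm_num)]
        have h6 := Real.add_one_le_exp (0.79 * a)
        have h7 : (4 : ℝ) ≤ 0.79 * a + 1 := by
          have : (0.79 : ℝ) * 1000 ≤ 0.79 * a := mul_le_mul_of_nonneg_left ha1 (by norm_num)
          norm_num at this ⊢
          linarith
        norm_num
        linarith
      have h8 := Real.exp_pos (-a)
      have h9 : Real.exp (-a) * Real.exp (-(0.79 * a)) ≤ Real.exp (-a) * (1 / 4) :=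
        mul_le_mul_of_nonneg_left h5 h8.le
      linarith
    calc ∑ c ∈ H, zt f v c ≤ ∑ _c ∈ H, Real.exp (-a) / 4 := Finset.sum_le_sum h1
      _ = (H.card : ℝ) * (Real.exp (-a) / 4) := by rw [Finset.sum_const, nsmul_eq_mul]
      _ ≤ (q : ℝ) * (Real.exp (-a) / 4) := by
          refine mul_le_mul_of_nonneg_right ?_ (by positivity)
          have h2 : H.card ≤ q := by
            refine (Finset.card_le_univ H).trans ?_
            rw [Fintype.card_fin]
          exact_mod_cast h2
      _ = Real.exp (-a) * q / 4 := by ring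
  set θ : ℝ := Real.exp (-a) * q / 4 with hθ
  have hea : Real.exp (-a) ≤ 1 := Real.exp_le_one_iff.2 (by linarith)
  have hea0 := Real.exp_pos (-a)
  have hqd : (q : ℝ) ≤ d := by linarith
  have hθ1 : θ ≤ d := by
    rw [hθ]
    nlinarith
  have hθ0 : 0 ≤ θ := by positivity
  have hi : ∀ P : Prop, 0 ≤ ind P ∧ ind P ≤ 1 := by
    intro P
    unfold ind
    split_ifs <;> norm_num
  have hm := fm_mcd (by omega) (!b) hf F (fun u => 2 * ind (∃ τ : Stp d, v + sv τ = u))
    (fun u => by
      have := (hi (∃ τ : Stp d, v + sv τ = u)).1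
      positivity) (fun h _ u _ γ _ => F1_lip H h v u γ) (8 * d) θ (F1_nb v _) (by positivity) hθ0 (by
        intro u _
        have h1 := (hi (∃ τ : Stp d, v + sv τ = u)).2
        have h2 := (hi (∃ τ : Stp d, v + sv τ = u)).1
        have h3 : θ * (2 * ind (∃ τ : Stp d, v + sv τ = u)) ≤ d * (2 * 1) :=
          mul_le_mul hθ1 (by linarith) (by linarith) (by linarith)
        linarith)
  have hle : fm (!b) (fun h => ind (Real.exp (-a) * q / 2 < cn (fun c : Fin q => zz h v c = 1 ∧ 1.79 * a ≤ hh c h v))) f ≤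
      fm (!b) (fun h => ind (θ ≤ |F h - fm (!b) F f|)) f := by
    refine fm_mono (!b) hf fun h hh' => ?_
    by_cases h1 : Real.exp (-a) * q / 2 < cn (fun c : Fin q => zz h v c = 1 ∧ 1.79 * a ≤ hh c h v)
    · have h2 : cn (fun c : Fin q => zz h v c = 1 ∧ 1.79 * a ≤ hh c h v) = F h := by
        refine F1_cn (fun c => 1.79 * a ≤ hh c h v) h v H fun c => ?_
        rw [hHm c, loc_hh_fib hk hv c hh']
      rw [h2] at h1
      have h3 : θ ≤ |F h - fm (!b) F f| := by
        refine le_trans ?_ (le_abs_self _)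
        have h4 : θ = Real.exp (-a) * q / 2 - Real.exp (-a) * q / 4 := by
          rw [hθ]
          ring
        rw [h4]
        linarith
      have h5 : ind (θ ≤ |F h - fm (!b) F f|) = 1 := by
        unfold ind
        rw [if_pos h3]
      rw [h5]
      exact (hi _).2
    · have h5 : ind (Real.exp (-a) * q / 2 < cn (fun c : Fin q => zz h v c = 1 ∧ 1.79 * a ≤ hh c h v)) = 0 := by
        unfold ind
        rw [if_neg h1]
      rw [h5]
      exact (hi _).1
  refine hle.trans (hm.trans ?_)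
  refine mul_le_mul_of_nonneg_left (Real.exp_le_exp.2 (neg_le_neg ?_)) (by norm_num)
  have h1 : Real.exp (-4000) ≤ Real.exp (-a) ^ 2 := by
    rw [← Real.exp_nat_mul]
    refine Real.exp_le_exp.2 ?_
    push_cast
    linarith
  have h2 : (d : ℝ) ^ 2 ≤ 1000000 * (q : ℝ) ^ 2 := by nlinarith
  have h3 : θ ^ 2 / (4 * (8 * (d : ℝ))) = Real.exp (-a) ^ 2 * (q : ℝ) ^ 2 / (512 * d) := by
    rw [hθ]
    field_simp
    ring
  rw [h3, le_div_iff₀ (by positivity)]
  have h4 : Real.exp (-4000) / 512000000 * (d : ℝ) * (512 * d) = Real.exp (-4000) * ((d : ℝ) ^ 2 / 1000000) := by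
    ring
  rw [h4]
  refine mul_le_mul h1 ?_ (by positivity) (by positivity)
  linarith

private theorem F1_true : EvT e3 fun _ _ _ => True :=
  (EvT_d (P := fun _ => True) (Filter.Eventually.of_forall fun _ => trivial)).mono
    fun _ _ _ _ => trivial

theorem f1_pt : SR fun d _ q f v => Real.exp (-ra d q) * q / 2 < cn (fun c : Fin q => zz f v c = 1 ∧ 1.79 * ra d q ≤ hh c f v) := by
  refine SR_local false 2 (fun _ _ _ _ _ => True) _ ?_ ?_ ?_ ?_ ?_
  · exact reg_pt.mono (F1_true.mono fun _ _ _ _ _ _ _ _ h => absurd trivial h)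
  · intro _ _ _ _ _ _ _
    exact Iff.rfl
  · intro d k q f g v h
    have h1 := (loc_av (fun u hu => h u (nr_mono (by norm_num) hu))).2.2
    have h2 : ∀ c, hh c f v = hh c g v := fun c => (loc_hh h c).1
    simp only [h1, h2]
  · exact F1_true.mono fun _ _ _ _ _ _ _ _ _ _ _ _ => Iff.rfl
  · intro K
    have he : (0 : ℝ) < e3 := by unfold e3; norm_num
    have he1 : e3 ≤ 1 := by unfold e3; norm_num
    refine (((EvT_d (F1_ev K)).and (EvT_d (eventually_ge_atTop 1))).and (EvT_reg he he1 3)).mono ?_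
    rintro d k q ⟨⟨h1, h2⟩, h3⟩ hR f hf b v hv _
    have hk : 3 ≤ k := by
      have h4 : (3 : ℝ) ≤ k := h3.2.2.1
      exact_mod_cast h4
    have hf' : Prp f := by
      classical
      unfold prps at hf
      exact (Finset.mem_filter.1 hf).2
    exact (F1_main hk h2 hR hf' b v hv).trans h1

end Pool.Agent.LC
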