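import Pool.Agent.Lib_MP_2c424f_lc1.F0
import Pool.Agent.Lib_MP_2c424f_lc1.E5

/-!
# LC1 F2: fourth moment of the numbers of neighbours of one colour

`SR_local`, `o = false`, `R f v := ∀ σ, q/3 ≤ av f (v+σ)` (`q3_pt.nb`; `av f (v+σ)` does not change on the fibre of `!b`), radius 2.  On `R`: `hh c f v ≤ 2d * 3/q = 3a`.  `T := d^{1/16}`.
`P(∃ c, T < nf c) ≤ q e^{-T} e^{2 * 3a}` (`nf_exp` with `x = 1`).  `F h := ∑_c min (nf c h v) T ^ 4`: mean `≤ 200 a⁴ q` (`nf_four`); a neighbour changes `F` by at most `2 T⁴`; `fm_mcd` with `S = 2d (2T⁴)²`, `θ = 400 a⁴ q`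
(`θ 2T⁴ ≤ 2S` for `d` large): `2 exp (-c d/T⁸) = 2 exp (-c d^{1/2})`.  `ind B ≤ ind (∃ c, T < nf c) + ind (θ ≤ |F - mean|)`.
-/

set_option autoImplicit false

open Finset Filter

namespace Pool.Agent.LC

open Pool.Agent.LO Pool.Agent.LIN Pool.Agent.THR Pool.Agent.COR

private theorem F2_ind_nonneg (P : Prop) : 0 ≤ ind P := by
  unfold ind
  split_ifs <;> norm_num

private theorem F2_ind_le_one (P : Prop) : ind P ≤ 1 := by
  unfold ind
  split_ifs <;> norm_num

private theorem F2_ind_true {P : Prop} (h : P) : ind P = 1 := by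
  unfold ind
  rw [if_pos h]

private theorem F2_ind_false {P : Prop} (h : ¬ P) : ind P = 0 := by
  unfold ind
  rw [if_neg h]

section
variable {d k q : ℕ}

private theorem F2_card : (Fintype.card (Stp d) : ℝ) = 2 * d := by
  rw [Fintype.card_prod, Fintype.card_fin, Fintype.card_bool]
  push_cast
  ring

private theorem F2_nf_nonneg (c : Fin q) (f : Site d k → Fin q) (v : Site d k) : 0 ≤ nf c f v := by
  unfold nf
  positivity

private theorem F2_nf_congr {f g : Site d k → Fin q} {v : Site d k} (c : Fin q)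
    (h : ∀ σ : Stp d, f (v + sv σ) = c ↔ g (v + sv σ) = c) : nf c f v = nf c g v := by
  unfold nf
  congr 2
  exact Finset.filter_congr fun σ _ => h σ

/-- the truncated statistic -/
private noncomputable def F2_F (T : ℝ) (v : Site d k) (h : Site d k → Fin q) : ℝ :=
  ∑ c : Fin q, min (nf c h v) T ^ 4

private theorem F2_term {T x : ℝ} (hT : 0 ≤ T) (hx : 0 ≤ x) : 0 ≤ min x T ^ 4 ∧ min x T ^ 4 ≤ T ^ 4 := by
  have h0 : 0 ≤ min x T := le_min hx hT
  exact ⟨by positivity, pow_le_pow_left₀ h0 (min_le_right _ _) 4⟩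

private theorem F2_upd {T : ℝ} (hT : 0 ≤ T) (v u : Site d k) (h : Site d k → Fin q) (γ : Fin q) :
    |F2_F T v (Function.update h u γ) - F2_F T v h| ≤ if ∃ σ : Stp d, u = v + sv σ then 2 * T ^ 4 else 0 := by
  classical
  split_ifs with hu
  · unfold F2_F
    rw [← Finset.sum_sub_distrib]
    have h1 : ∀ c : Fin q, |min (nf c (Function.update h u γ) v) T ^ 4 - min (nf c h v) T ^ 4| ≤
        if c ∈ ({γ, h u} : Finset (Fin q)) then T ^ 4 else 0 := by
      intro c
      split_ifs with hc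
      · have a1 := F2_term hT (F2_nf_nonneg c (Function.update h u γ) v)
        have a2 := F2_term hT (F2_nf_nonneg c h v)
        rw [abs_le]
        constructor <;> linarith [a1.1, a1.2, a2.1, a2.2]
      · rw [Finset.mem_insert, Finset.mem_singleton, not_or] at hc
        have h2 : nf c (Function.update h u γ) v = nf c h v := by
          apply F2_nf_congr
          intro σ
          by_cases hσ : v + sv σ = u
          · rw [hσ, Function.update_self]
            exact ⟨fun h3 => absurd h3.symm hc.1, fun h3 => absurd h3.symm hc.2⟩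
          · rw [Function.update_of_ne hσ]
        rw [h2, sub_self, abs_zero]
    calc |∑ c : Fin q, (min (nf c (Function.update h u γ) v) T ^ 4 - min (nf c h v) T ^ 4)|
        ≤ ∑ c : Fin q, |min (nf c (Function.update h u γ) v) T ^ 4 - min (nf c h v) T ^ 4| :=
          Finset.abs_sum_le_sum_abs _ _
      _ ≤ ∑ c : Fin q, (if c ∈ ({γ, h u} : Finset (Fin q)) then T ^ 4 else 0) :=
          Finset.sum_le_sum fun c _ => h1 c
      _ = (({γ, h u} : Finset (Fin q)).card : ℝ) * T ^ 4 := by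
          rw [Finset.sum_ite_mem, Finset.univ_inter, Finset.sum_const, nsmul_eq_mul]
      _ ≤ 2 * T ^ 4 := by
          apply mul_le_mul_of_nonneg_right _ (by positivity)
          have : ({γ, h u} : Finset (Fin q)).card ≤ 2 := Finset.card_le_two
          exact_mod_cast this
  · have h2 : ∀ c : Fin q, nf c (Function.update h u γ) v = nf c h v := by
      intro c
      apply F2_nf_congr
      intro σ
      have hσ : v + sv σ ≠ u := fun h3 => hu ⟨σ, h3.symm⟩
      rw [Function.update_of_ne hσ]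
    have h3 : F2_F T v (Function.update h u γ) = F2_F T v h := by
      unfold F2_F
      exact Finset.sum_congr rfl fun c _ => by rw [h2 c]
    rw [h3, sub_self, abs_zero]

private theorem F2_sq {T : ℝ} (v : Site d k) (b : Bool) :
    ∑ u ∈ cls b d k, (if ∃ σ : Stp d, u = v + sv σ then 2 * T ^ 4 else 0) ^ 2 ≤ 8 * d * T ^ 8 := by
  classical
  have h1 : ∀ u : Site d k, (if ∃ σ : Stp d, u = v + sv σ then 2 * T ^ 4 else 0) ^ 2 =
      if u ∈ (univ : Finset (Stp d)).image (fun σ => v + sv σ) then 4 * T ^ 8 else 0 := by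
    intro u
    by_cases hu : ∃ σ : Stp d, u = v + sv σ
    · rw [if_pos hu, if_pos]
      · ring
      · obtain ⟨σ, hσ⟩ := hu
        exact Finset.mem_image.2 ⟨σ, Finset.mem_univ _, hσ.symm⟩
    · rw [if_neg hu, if_neg]
      · ring
      · intro h
        obtain ⟨σ, _, hσ⟩ := Finset.mem_image.1 h
        exact hu ⟨σ, hσ.symm⟩
  rw [Finset.sum_congr rfl fun u _ => h1 u]
  calc ∑ u ∈ cls b d k, (if u ∈ (univ : Finset (Stp d)).image (fun σ => v + sv σ) then 4 * T ^ 8 else 0)
      ≤ ∑ u, (if u ∈ (univ : Finset (Stp d)).image (fun σ => (v + sv σ : Site d k)) then 4 * T ^ 8 else 0) := by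
        apply Finset.sum_le_sum_of_subset_of_nonneg (Finset.subset_univ _)
        intro u _ _
        split_ifs
        · positivity
        · exact le_refl _
    _ = (((univ : Finset (Stp d)).image (fun σ => (v + sv σ : Site d k))).card : ℝ) * (4 * T ^ 8) := by
        rw [Finset.sum_ite_mem, Finset.univ_inter, Finset.sum_const, nsmul_eq_mul]
    _ ≤ (2 * d) * (4 * T ^ 8) := by
        apply mul_le_mul_of_nonneg_right _ (by positivity)
        rw [← F2_card]
        have : ((univ : Finset (Stp d)).image (fun σ => (v + sv σ : Site d k))).card ≤ Fintype.card (Stp d) :=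
          Finset.card_image_le
        exact_mod_cast this
    _ = 8 * d * T ^ 8 := by ring

private theorem F2_core (hd : 1 ≤ d) (hk : 3 ≤ k) (hR : Rg d q) {b : Bool} {f : Site d k → Fin q} (hf : Prp f)
    {v : Site d k} (hv : v ∈ cls b d k) (hav : ∀ σ : Stp d, (q : ℝ) / 3 ≤ av f (v + sv σ))
    (T : ℝ) (hT1 : 1000 ≤ T) (hT : T ^ 16 = d) :
    fm (!b) (fun h => ind (1000 * ra d q ^ 4 * q < ∑ c : Fin q, nf c h v ^ 4)) f ≤
      d * Real.exp 12000 * Real.exp (-T) + 2 * Real.exp (-T) := by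
  obtain ⟨hq, ha1, ha2, h2d, _, hqd, _, _, _⟩ := rg_pos hd hR
  set a := ra d q with ha
  have hqr : (0 : ℝ) < q := by exact_mod_cast hq
  have hdr : (1 : ℝ) ≤ d := by exact_mod_cast hd
  have hT0 : 0 ≤ T := by linarith
  have hqd' : (q : ℝ) ≤ d := by nlinarith
  -- the fields
  have hhc : ∀ c : Fin q, hh c f v ≤ 3 * a := by
    intro c
    have h1 : ∀ σ : Stp d, zz f (v + sv σ) c / (av f (v + sv σ) : ℝ) ≤ 3 / q := by
      intro σ
      have h2 := hav σ
      have h3 : (0 : ℝ) < av f (v + sv σ) := lt_of_lt_of_le (by positivity) h2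
      rw [div_le_div_iff₀ h3 hqr]
      have h4 : zz f (v + sv σ) c ≤ 1 := by
        unfold zz
        split_ifs <;> norm_num
      have h5 : zz f (v + sv σ) c * q ≤ 1 * q := mul_le_mul_of_nonneg_right h4 hqr.le
      linarith
    unfold THR.hh
    calc ∑ σ : Stp d, zz f (v + sv σ) c / (av f (v + sv σ) : ℝ) ≤ ∑ σ : Stp d, (3 / q : ℝ) :=
          Finset.sum_le_sum fun σ _ => h1 σ
      _ = 2 * d * (3 / q) := by
          rw [Finset.sum_const, nsmul_eq_mul, Finset.card_univ, F2_card]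
      _ = 3 * a := by
          rw [ha]
          unfold ra
          ring
  -- large numbers of neighbours
  have hbig : ∀ c : Fin q, fm (!b) (fun h => ind (T < nf c h v)) f ≤ Real.exp 12000 * Real.exp (-T) := by
    intro c
    have h1 : fm (!b) (fun h => ind (T < nf c h v)) f ≤
        fm (!b) (fun h => Real.exp (-T) * Real.exp (1 * nf c h v)) f := by
      apply fm_mono _ hf
      intro h _
      by_cases hc : T < nf c h v
      · rw [F2_ind_true hc, ← Real.exp_add]
        apply Real.one_le_exp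
        linarith
      · rw [F2_ind_false hc]
        positivity
    rw [fm_mul] at h1
    have h2 := nf_exp hk hf hv c 1 zero_le_one
    have h3 : (Real.exp 1 - 1) * hh c f v ≤ 12000 := by
      have h4 := Real.exp_one_lt_d9
      have h5 := Real.one_le_exp (zero_le_one : (0 : ℝ) ≤ 1)
      have h6 : (Real.exp 1 - 1) * hh c f v ≤ (Real.exp 1 - 1) * 6000 := by
        apply mul_le_mul_of_nonneg_left _ (by linarith)
        linarith [hhc c]
      linarith
    have h7 := Real.exp_le_exp.2 h3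
    calc fm (!b) (fun h => ind (T < nf c h v)) f ≤
        Real.exp (-T) * fm (!b) (fun h => Real.exp (1 * nf c h v)) f := h1
      _ ≤ Real.exp (-T) * Real.exp 12000 :=
          mul_le_mul_of_nonneg_left (h2.trans h7) (Real.exp_pos _).le
      _ = Real.exp 12000 * Real.exp (-T) := mul_comm _ _
  -- the mean
  have hmean : fm (!b) (F2_F T v) f ≤ 200 * a ^ 4 * q := by
    have h1 : fm (!b) (F2_F T v) f = ∑ c : Fin q, fm (!b) (fun h => min (nf c h v) T ^ 4) f := by
      rw [← fm_sum]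
      rfl
    rw [h1]
    calc ∑ c : Fin q, fm (!b) (fun h => min (nf c h v) T ^ 4) f ≤ ∑ c : Fin q, 200 * a ^ 4 := by
          refine Finset.sum_le_sum fun c _ => ?_
          refine le_trans (fm_mono _ hf fun h _ => ?_) (nf_four hk hf hv c ha1 (hhc c))
          exact pow_le_pow_left₀ (le_min (F2_nf_nonneg c h v) hT0) (min_le_left _ _) 4
      _ = 200 * a ^ 4 * q := by
          rw [Finset.sum_const, nsmul_eq_mul, Finset.card_univ, Fintype.card_fin]
          ring
  have hmean0 : 0 ≤ fm (!b) (F2_F T v) f := by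
    have h1 := fm_const (!b) hf (0 : ℝ)
    rw [← h1]
    apply fm_mono _ hf
    intro h _
    unfold F2_F
    exact Finset.sum_nonneg fun c _ => (F2_term hT0 (F2_nf_nonneg c h v)).1
  -- deviations
  have hapos : (0 : ℝ) < a := by linarith
  have hθ : (400 * a ^ 4 * q : ℝ) = 800 * a ^ 3 * d := by
    have : (400 * a ^ 4 * q : ℝ) = 400 * a ^ 3 * (a * q) := by ring
    rw [this, ← h2d]
    ring
  have ha3 : (10 : ℝ) ^ 9 ≤ a ^ 3 := by
    calc (10 : ℝ) ^ 9 = 1000 ^ 3 := by norm_num
      _ ≤ a ^ 3 := pow_le_pow_left₀ (by norm_num) ha1 3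
  have ha3' : a ^ 3 ≤ 8 * 10 ^ 9 := by
    calc a ^ 3 ≤ 2000 ^ 3 := pow_le_pow_left₀ hapos.le ha2 3
      _ = 8 * 10 ^ 9 := by norm_num
  have hT4 : (10 : ℝ) ^ 12 ≤ T ^ 4 := by
    calc (10 : ℝ) ^ 12 = 1000 ^ 4 := by norm_num
      _ ≤ T ^ 4 := pow_le_pow_left₀ (by norm_num) hT1 4
  have hT8 : T ≤ T ^ 8 := by
    calc T = T ^ 1 := (pow_one T).symm
      _ ≤ T ^ 8 := pow_le_pow_right₀ (by linarith) (by norm_num)
  have hdev := fm_mcd (by omega : 2 ≤ k) (!b) hf (F2_F T v)
    (fun u => if ∃ σ : Stp d, u = v + sv σ then 2 * T ^ 4 else 0)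
    (fun u => by
      split_ifs
      · positivity
      · exact le_refl _)
    (fun h _ u _ γ _ => F2_upd hT0 v u h γ) (8 * d * T ^ 8) (400 * a ^ 4 * q) (F2_sq v (!b)) (by positivity)
    (by positivity) (by
      intro u _
      beta_reduce
      split_ifs
      · rw [hθ]
        have h1 : 800 * a ^ 3 ≤ 8 * T ^ 4 := by nlinarith
        have h2 : 800 * a ^ 3 * d * (2 * T ^ 4) = (800 * a ^ 3) * (2 * d * T ^ 4) := by ring
        rw [h2]
        calc (800 * a ^ 3) * (2 * d * T ^ 4) ≤ (8 * T ^ 4) * (2 * d * T ^ 4) :=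
              mul_le_mul_of_nonneg_right h1 (by positivity)
          _ = 2 * (8 * d * T ^ 8) := by ring
      · rw [mul_zero]
        positivity)
  have hexp : Real.exp (-((400 * a ^ 4 * q) ^ 2 / (4 * (8 * d * T ^ 8)))) ≤ Real.exp (-T) := by
    apply Real.exp_le_exp.2
    rw [neg_le_neg_iff, hθ, le_div_iff₀ (by positivity)]
    have h1 : T * (4 * (8 * d * T ^ 8)) ≤ 32 * (d * (T ^ 8 * T ^ 8)) := by
      have h2 : T * (4 * (8 * d * T ^ 8)) = 32 * (d * (T * T ^ 8)) := by ring
      rw [h2]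
      have h3 : T * T ^ 8 ≤ T ^ 8 * T ^ 8 := mul_le_mul_of_nonneg_right hT8 (by positivity)
      have h4 : d * (T * T ^ 8) ≤ d * (T ^ 8 * T ^ 8) := mul_le_mul_of_nonneg_left h3 (by positivity)
      linarith
    have h5 : T ^ 8 * T ^ 8 = d := by rw [← hT]; ring
    rw [h5] at h1
    have h6 : (32 : ℝ) ≤ (800 * a ^ 3) ^ 2 := by nlinarith
    have h7 : 32 * ((d : ℝ) * d) ≤ (800 * a ^ 3) ^ 2 * (d * d) := mul_le_mul_of_nonneg_right h6 (by positivity)
    calc T * (4 * (8 * d * T ^ 8)) ≤ 32 * ((d : ℝ) * d) := h1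
      _ ≤ (800 * a ^ 3) ^ 2 * (d * d) := h7
      _ = (800 * a ^ 3 * d) ^ 2 := by ring
  -- the pointwise bound
  have hpt : fm (!b) (fun h => ind (1000 * a ^ 4 * q < ∑ c : Fin q, nf c h v ^ 4)) f ≤
      fm (!b) (fun h => (∑ c : Fin q, ind (T < nf c h v)) +
        ind (400 * a ^ 4 * q ≤ |F2_F T v h - fm (!b) (F2_F T v) f|)) f := by
    apply fm_mono _ hf
    intro h _
    beta_reduce
    have hs0 : 0 ≤ ∑ c : Fin q, ind (T < nf c h v) := Finset.sum_nonneg fun c _ => F2_ind_nonneg _
    by_cases hB : 1000 * a ^ 4 * q < ∑ c : Fin q, nf c h v ^ 4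
    · rw [F2_ind_true hB]
      by_cases hc : ∃ c : Fin q, T < nf c h v
      · obtain ⟨c, hc⟩ := hc
        have h1 : (1 : ℝ) ≤ ∑ c : Fin q, ind (T < nf c h v) := by
          rw [← F2_ind_true hc]
          exact Finset.single_le_sum (f := fun c : Fin q => ind (T < nf c h v))
            (fun c _ => F2_ind_nonneg _) (Finset.mem_univ c)
        have h2 := F2_ind_nonneg (400 * a ^ 4 * q ≤ |F2_F T v h - fm (!b) (F2_F T v) f|)
        linarith
      · push Not at hc
        have h1 : F2_F T v h = ∑ c : Fin q, nf c h v ^ 4 := by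
          unfold F2_F
          exact Finset.sum_congr rfl fun c _ => by rw [min_eq_left (hc c)]
        have h2 : 400 * a ^ 4 * q ≤ |F2_F T v h - fm (!b) (F2_F T v) f| := by
          refine le_trans ?_ (le_abs_self _)
          rw [h1]
          have h3 : (0 : ℝ) ≤ a ^ 4 * q := by positivity
          linarith
        rw [F2_ind_true h2]
        linarith
    · rw [F2_ind_false hB]
      have h2 := F2_ind_nonneg (400 * a ^ 4 * q ≤ |F2_F T v h - fm (!b) (F2_F T v) f|)
      linarith
  refine hpt.trans ?_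
  rw [fm_add, fm_sum]
  have h1 : ∑ c : Fin q, fm (!b) (fun h => ind (T < nf c h v)) f ≤ d * Real.exp 12000 * Real.exp (-T) := by
    calc ∑ c : Fin q, fm (!b) (fun h => ind (T < nf c h v)) f
        ≤ ∑ _c : Fin q, Real.exp 12000 * Real.exp (-T) := Finset.sum_le_sum fun c _ => hbig c
      _ = q * (Real.exp 12000 * Real.exp (-T)) := by
          rw [Finset.sum_const, nsmul_eq_mul, Finset.card_univ, Fintype.card_fin]
      _ ≤ d * (Real.exp 12000 * Real.exp (-T)) := mul_le_mul_of_nonneg_right hqd' (by positivity)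
      _ = d * Real.exp 12000 * Real.exp (-T) := by ring
  have h2 := hdev.trans (mul_le_mul_of_nonneg_left hexp (by norm_num))
  exact add_le_add h1 h2

end

private theorem F2_large (K : ℕ) : ∀ᶠ d : ℕ in atTop, ∃ T : ℝ, 1000 ≤ T ∧ T ^ 16 = (d : ℝ) ∧
    (d : ℝ) * Real.exp 12000 * Real.exp (-T) + 2 * Real.exp (-T) ≤ 1 / (d : ℝ) ^ K := by
  have h1 : Tendsto (fun T : ℝ => Real.exp 12000 * (T ^ (16 * K + 16) * Real.exp (-T)) +
      2 * (T ^ (16 * K) * Real.exp (-T))) atTop (nhds (Real.exp 12000 * 0 + 2 * 0)) :=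
    ((Real.tendsto_pow_mul_exp_neg_atTop_nhds_zero (16 * K + 16)).const_mul _).add
      ((Real.tendsto_pow_mul_exp_neg_atTop_nhds_zero (16 * K)).const_mul _)
  rw [mul_zero, mul_zero, add_zero] at h1
  have h2 : ∀ᶠ T : ℝ in atTop, Real.exp 12000 * (T ^ (16 * K + 16) * Real.exp (-T)) +
      2 * (T ^ (16 * K) * Real.exp (-T)) < 1 := h1.eventually (gt_mem_nhds zero_lt_one)
  have h3 := h2.and (eventually_ge_atTop (1000 : ℝ))
  have h4 : Tendsto (fun d : ℕ => (d : ℝ) ^ (((16 : ℕ) : ℝ)⁻¹)) atTop atTop :=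
    (tendsto_rpow_atTop (by norm_num)).comp tendsto_natCast_atTop_atTop
  refine (h4.eventually h3).mono fun d hd => ?_
  obtain ⟨hd1, hd2⟩ := hd
  set T : ℝ := (d : ℝ) ^ (((16 : ℕ) : ℝ)⁻¹) with hT
  have h5 : T ^ 16 = (d : ℝ) := Real.rpow_inv_natCast_pow (Nat.cast_nonneg d) (by norm_num)
  refine ⟨T, hd2, h5, ?_⟩
  have hTp : (0 : ℝ) < T := by linarith
  rw [← h5, ← pow_mul, le_div_iff₀ (by positivity)]
  refine le_trans (le_of_eq ?_) hd1.le
  rw [pow_add]
  ring

theorem f2_pt : SR fun d _ q f v => 1000 * ra d q ^ 4 * q < ∑ c : Fin q, nf c f v ^ 4 := by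
  have he : (0 : ℝ) < e3 ∧ e3 ≤ 1 := by
    unfold e3
    norm_num
  refine SR_local false 2 (fun _ _ q f v => ∀ σ : Stp _, (q : ℝ) / 3 ≤ av f (v + sv σ))
    (fun d _ q f v => 1000 * ra d q ^ 4 * q < ∑ c : Fin q, nf c f v ^ 4) ?_ ?_ ?_ ?_ ?_
  · refine q3_pt.nb.mono ⟨0, fun d q _ _ _ => Eventually.of_forall fun k _ f _ v hv => ?_⟩
    push Not at hv
    exact hv
  · intro d k q f g v h
    have h1 : ∀ σ : Stp d, av f (v + sv σ) = av g (v + sv σ) := fun σ =>
      (loc_av fun u hu => h u (Or.inr ⟨σ, hu⟩)).2.1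
    simp only [h1]
  · intro d k q f g v h
    have h1 : ∀ c : Fin q, nf c f v = nf c g v := fun c =>
      F2_nf_congr c fun σ => by rw [h _ (nr_mono (by norm_num) (nr_step v σ))]
    simp only [h1]
  · refine (EvT_reg he.1 he.2 3).mono fun d k q hM _ f _ b v hv h hh => ?_
    have hk : 3 ≤ k := by exact_mod_cast hM.2.2.1
    have h1 : ∀ σ : Stp d, av h (v + sv σ) = av f (v + sv σ) := by
      intro σ
      have h2 : v + sv σ ∈ cls (!b) d k := by
        rw [mem_cls_step (by omega), Bool.not_not]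
        exact hv
      have h3 := fib_SS (by omega) (!b) hh _ h2
      unfold av
      rw [h3]
    simp only [h1]
  · intro K
    refine ((EvT_reg he.1 he.2 3).and (EvT_d (F2_large K))).mono fun d k q hM hR f hf b v hv hav => ?_
    obtain ⟨hM, T, hT1, hT, hle⟩ := hM
    have hk : 3 ≤ k := by exact_mod_cast hM.2.2.1
    have hd : 1 ≤ d := by
      have h1 : (3 : ℝ) ≤ d := hM.1
      have h2 : 3 ≤ d := by exact_mod_cast h1
      omega
    have hf' : Prp f := by
      classical
      unfold prps at hf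
      exact (Finset.mem_filter.1 hf).2
    exact (F2_core hd hk hR hf' hv hav T hT1 hT).trans hle

end Pool.Agent.LC
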