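import Pool.Agent.Lib_MP_2c424f_lc1.F0
import Pool.Agent.Lib_MP_2c424f_lc1.E5

/-!
# LC1 F3: colours with a small field

`SR_local`, `o = false`, `R = True`, radius 2.  `H = {c : hh c f v ≤ 1.1 e^{-a}}` does not change on the fibre of `!b`.  `T := d^{1/16}`.  `P(∃ c ∈ H, T < nf c) ≤ q e^{-T} e^{2}` (`nf_exp` with `x = 1`).
`F h := ∑_{c ∈ H} min (nf c h v) T ^ 2`: mean `≤ q * 1.1 e^{-a} (1 + 1.1 e^{-a}) ≤ e^{-a/2} q/4` (`nf_sq`, `a ≥ 1000`); a neighbour changes `F` by at most `2T²`; `fm_mcd` with `S = 2d (2T²)²`, `θ = e^{-a/2} q/4`.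
-/

set_option autoImplicit false

open Finset Filter

namespace Pool.Agent.LC

open Pool.Agent.LO Pool.Agent.LIN Pool.Agent.THR Pool.Agent.COR

private theorem F3_ind_nonneg (P : Prop) : 0 ≤ ind P := by
  unfold ind
  split_ifs <;> norm_num

private theorem F3_ind_true {P : Prop} (h : P) : ind P = 1 := by
  unfold ind
  rw [if_pos h]

private theorem F3_ind_false {P : Prop} (h : ¬ P) : ind P = 0 := by
  unfold ind
  rw [if_neg h]

/-- `10 d e^{-c d^{1/16}} ≤ d^{-K}` for `d` large -/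
private theorem F3_ev (K : ℕ) {c : ℝ} (hc : 0 < c) :
    ∀ᶠ d : ℕ in atTop, 10 * (d : ℝ) * Real.exp (-(c * (d : ℝ) ^ (1 / 16 : ℝ))) ≤ 1 / (d : ℝ) ^ K := by
  have h0 : Tendsto (fun d : ℕ => (d : ℝ) ^ (1 / 16 : ℝ)) atTop atTop :=
    (tendsto_rpow_atTop (by norm_num)).comp tendsto_natCast_atTop_atTop
  have h1 : Tendsto (fun d : ℕ => c * (d : ℝ) ^ (1 / 16 : ℝ)) atTop atTop := h0.const_mul_atTop hc
  have h2 := (Real.tendsto_pow_mul_exp_neg_atTop_nhds_zero (16 * (K + 1))).comp h1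
  have h3 : (0 : ℝ) < c ^ (16 * (K + 1)) / 10 := by positivity
  filter_upwards [h2.eventually (ge_mem_nhds h3), eventually_ge_atTop 1] with d h4 hd
  have hd' : (0 : ℝ) < d := by exact_mod_cast hd
  simp only [Function.comp_apply] at h4
  rw [le_div_iff₀ (by positivity)]
  have h16 : ((d : ℝ) ^ (1 / 16 : ℝ)) ^ (16 * (K + 1)) = (d : ℝ) ^ (K + 1) := by
    rw [pow_mul, ← Real.rpow_natCast ((d : ℝ) ^ (1 / 16 : ℝ)) 16, ← Real.rpow_mul hd'.le]
    norm_num
  rw [mul_pow, h16] at h4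
  have h7 : (0 : ℝ) < c ^ (16 * (K + 1)) := by positivity
  have h6 : (d : ℝ) ^ (K + 1) * Real.exp (-(c * (d : ℝ) ^ (1 / 16 : ℝ))) ≤ 1 / 10 := by
    have h8 : c ^ (16 * (K + 1)) * ((d : ℝ) ^ (K + 1) * Real.exp (-(c * (d : ℝ) ^ (1 / 16 : ℝ)))) ≤
        c ^ (16 * (K + 1)) * (1 / 10) := by linarith
    exact le_of_mul_le_mul_left h8 h7
  have h9 : 10 * (d : ℝ) * Real.exp (-(c * (d : ℝ) ^ (1 / 16 : ℝ))) * (d : ℝ) ^ K =
      10 * ((d : ℝ) ^ (K + 1) * Real.exp (-(c * (d : ℝ) ^ (1 / 16 : ℝ)))) := by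
    rw [pow_succ]; ring
  rw [h9]
  linarith

variable {d k q : ℕ}

private theorem F3_card : ((univ : Finset (Stp d)).card : ℝ) = 2 * d := by
  rw [card_univ, Fintype.card_prod, Fintype.card_fin, Fintype.card_bool]
  push_cast
  ring

private theorem F3_mcd (hk : 2 ≤ k) (b : Bool) {f : Site d k → Fin q} (hf : Prp f) (v : Site d k)
    (F : (Site d k → Fin q) → ℝ) (L : ℝ) (hL : 0 < L) (hF : ∀ h w γ, |F (Function.update h w γ) - F h| ≤ L)
    (hF0 : ∀ h w γ, (∀ σ : Stp d, w ≠ v + sv σ) → F (Function.update h w γ) = F h)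
    (θ : ℝ) (hθ : 0 ≤ θ) (hθ' : θ ≤ 4 * d * L) (hd : 1 ≤ d) :
    fm b (fun h => ind (θ ≤ |F h - fm b F f|)) f ≤ 2 * Real.exp (-(θ ^ 2 / (8 * d * L ^ 2))) := by
  classical
  have hd' : (0 : ℝ) < d := by exact_mod_cast hd
  have key := fm_mcd hk b hf F (fun w => if w ∈ univ.image (fun σ : Stp d => v + sv σ) then L else 0)
    (fun w => by split_ifs <;> [exact hL.le; exact le_rfl]) ?_ (2 * d * L ^ 2) θ ?_ (by positivity) hθ ?_
  · have e1 : (4 : ℝ) * (2 * d * L ^ 2) = 8 * d * L ^ 2 := by ring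
    rw [e1] at key
    exact key
  · intro h _ w _ γ _
    by_cases hw : w ∈ univ.image (fun σ : Stp d => v + sv σ)
    · simp only [if_pos hw]
      exact hF h w γ
    · simp only [if_neg hw]
      rw [hF0 h w γ fun σ hσ => hw (mem_image.2 ⟨σ, mem_univ σ, hσ.symm⟩), sub_self, abs_zero]
  · have e2 : ∀ w ∈ cls b d k, (if w ∈ univ.image (fun σ : Stp d => v + sv σ) then L else 0) ^ 2 =
        if w ∈ univ.image (fun σ : Stp d => v + sv σ) then L ^ 2 else 0 := fun w _ => by
      split_ifs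
      · rfl
      · norm_num
    rw [sum_congr rfl e2, ← sum_filter, sum_const, nsmul_eq_mul, ← F3_card]
    refine mul_le_mul_of_nonneg_right (Nat.cast_le.2 ((card_le_card ?_).trans
      (card_image_le (s := (univ : Finset (Stp d))) (f := fun σ => v + sv σ)))) (sq_nonneg L)
    intro w hw
    exact (mem_filter.1 hw).2
  · intro w _
    split_ifs
    · nlinarith
    · have : 0 ≤ 2 * (2 * (d : ℝ) * L ^ 2) := by positivity
      linarith

open scoped Classical in
private theorem F3_nf (c : Fin q) (h : Site d k → Fin q) (v : Site d k) :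
    nf c h v = ∑ σ : Stp d, if h (v + sv σ) = c then (1 : ℝ) else 0 := by
  unfold nf
  rw [sum_boole]

private theorem F3_nf_nonneg (c : Fin q) (h : Site d k → Fin q) (v : Site d k) : 0 ≤ nf c h v := by
  unfold nf
  exact Nat.cast_nonneg _

private theorem F3_nf0 (c : Fin q) (v : Site d k) (h : Site d k → Fin q) (w : Site d k) (γ : Fin q)
    (hw : ∀ σ : Stp d, w ≠ v + sv σ) : nf c (Function.update h w γ) v = nf c h v := by
  classical
  rw [F3_nf, F3_nf]
  refine sum_congr rfl fun σ _ => ?_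
  rw [Function.update_of_ne (fun e => hw σ e.symm)]

private theorem F3_nf_other (c : Fin q) (v : Site d k) (h : Site d k → Fin q) (w : Site d k) (γ : Fin q)
    (h1 : h w ≠ c) (h2 : γ ≠ c) : nf c (Function.update h w γ) v = nf c h v := by
  classical
  rw [F3_nf, F3_nf]
  refine sum_congr rfl fun σ _ => ?_
  by_cases e : v + sv σ = w
  · rw [e, Function.update_self, if_neg h1, if_neg h2]
  · rw [Function.update_of_ne e]

private theorem F3_trunc {x T : ℝ} (hx : 0 ≤ x) (hT : 0 ≤ T) : 0 ≤ (min x T) ^ 2 ∧ (min x T) ^ 2 ≤ T ^ 2 :=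
  ⟨sq_nonneg _, pow_le_pow_left₀ (le_min hx hT) (min_le_right _ _) 2⟩

private theorem F3_lip (H : Finset (Fin q)) (T : ℝ) (hT : 0 ≤ T) (v : Site d k) (h : Site d k → Fin q) (w : Site d k)
    (γ : Fin q) : |(∑ c ∈ H, (min (nf c (Function.update h w γ) v) T) ^ 2) - ∑ c ∈ H, (min (nf c h v) T) ^ 2| ≤ 2 * T ^ 2 := by
  classical
  rw [← sum_sub_distrib]
  refine (abs_sum_le_sum_abs _ _).trans ?_
  have h1 : ∀ c ∈ H, |(min (nf c (Function.update h w γ) v) T) ^ 2 - (min (nf c h v) T) ^ 2| ≤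
      if c ∈ ({h w, γ} : Finset (Fin q)) then T ^ 2 else 0 := by
    intro c _
    by_cases hc : c ∈ ({h w, γ} : Finset (Fin q))
    · rw [if_pos hc, abs_le]
      obtain ⟨a1, a2⟩ := F3_trunc (F3_nf_nonneg c (Function.update h w γ) v) hT
      obtain ⟨a3, a4⟩ := F3_trunc (F3_nf_nonneg c h v) hT
      constructor <;> linarith
    · rw [if_neg hc]
      rw [mem_insert, mem_singleton, not_or] at hc
      rw [F3_nf_other c v h w γ (fun e => hc.1 e.symm) (fun e => hc.2 e.symm), sub_self, abs_zero]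
  refine (sum_le_sum h1).trans ?_
  have h2 : ∑ c ∈ H, (if c ∈ ({h w, γ} : Finset (Fin q)) then T ^ 2 else 0) ≤
      ∑ c : Fin q, (if c ∈ ({h w, γ} : Finset (Fin q)) then T ^ 2 else 0) := by
    refine sum_le_sum_of_subset_of_nonneg (subset_univ _) fun c _ _ => ?_
    split_ifs
    · exact sq_nonneg T
    · exact le_rfl
  refine h2.trans ?_
  rw [← sum_filter, sum_const, nsmul_eq_mul]
  refine mul_le_mul_of_nonneg_right ?_ (sq_nonneg T)
  have h3 : (univ.filter fun c : Fin q => c ∈ ({h w, γ} : Finset (Fin q))) ⊆ {h w, γ} := fun c hc => (mem_filter.1 hc).2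
  have h4 := (card_le_card h3).trans card_le_two
  exact_mod_cast h4

/-- the deterministic inequality between the indicators -/
private theorem F3_point (H : Finset (Fin q)) (T θ μ : ℝ) (n : Fin q → ℝ)
    (hμ : μ ≤ θ) :
    ind (4 * θ < ∑ c ∈ H, n c ^ 2) ≤ (∑ c ∈ H, Real.exp (-T) * Real.exp (1 * n c)) +
      ind (θ ≤ |(∑ c ∈ H, (min (n c) T) ^ 2) - μ|) := by
  have h0 : ∀ c, 0 ≤ Real.exp (-T) * Real.exp (1 * n c) := fun c => by positivity
  by_cases hB : 4 * θ < ∑ c ∈ H, n c ^ 2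
  · rw [F3_ind_true hB]
    by_cases hT : ∃ c ∈ H, T < n c
    · obtain ⟨c, hc, hcT⟩ := hT
      have h1 : (1 : ℝ) ≤ Real.exp (-T) * Real.exp (1 * n c) := by
        rw [← Real.exp_add]
        exact Real.one_le_exp (by linarith)
      have h2 := single_le_sum (f := fun c => Real.exp (-T) * Real.exp (1 * n c)) (fun c _ => h0 c) hc
      have h3 := F3_ind_nonneg (θ ≤ |(∑ c ∈ H, (min (n c) T) ^ 2) - μ|)
      have h4 : Real.exp (-T) * Real.exp (1 * n c) ≤ ∑ c ∈ H, Real.exp (-T) * Real.exp (1 * n c) := h2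
      linarith
    · push Not at hT
      have h1 : ∑ c ∈ H, (min (n c) T) ^ 2 = ∑ c ∈ H, n c ^ 2 :=
        sum_congr rfl fun c hc => by rw [min_eq_left (hT c hc)]
      have h2 : 0 ≤ ∑ c ∈ H, Real.exp (-T) * Real.exp (1 * n c) := sum_nonneg fun c _ => h0 c
      have h3 : θ ≤ |(∑ c ∈ H, (min (n c) T) ^ 2) - μ| := by
        refine le_trans ?_ (le_abs_self _)
        rw [h1]
        have h5 : 0 ≤ ∑ c ∈ H, n c ^ 2 := sum_nonneg fun c _ => sq_nonneg _
        by_cases hθ : 0 ≤ θ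
        · linarith
        · push Not at hθ
          linarith
      rw [F3_ind_true h3]
      linarith
  · rw [F3_ind_false hB]
    exact add_nonneg (sum_nonneg fun c _ => h0 c) (F3_ind_nonneg _)

private theorem F3_exp_one : Real.exp 1 ≤ 3 := by
  have := Real.exp_one_lt_d9
  linarith

/-- the conditional probability -/
private theorem F3_prob (hd : 1 ≤ d) (hk : 3 ≤ k) (hR : Rg d q) (T : ℝ) (hT : 1 ≤ T) (b : Bool) {f : Site d k → Fin q}
    (hf : Prp f) (v : Site d k) (hv : v ∈ cls b d k) :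
    fm (!b) (fun h => ind (Real.exp (-ra d q / 2) * q <
      ∑ c : Fin q, ind (hh c h v ≤ 1.1 * Real.exp (-ra d q)) * nf c h v ^ 2)) f ≤
      8 * d * Real.exp (-T) + 2 * Real.exp (-((Real.exp (-1000) * q / 4) ^ 2 / (8 * d * (2 * T ^ 2) ^ 2))) := by
  classical
  obtain ⟨hq, hra1, hra2, hda, -, hqd, -, -, -⟩ := rg_pos hd hR
  have hd1 : (1 : ℝ) ≤ d := by exact_mod_cast hd
  have hq0 : (0 : ℝ) < q := by exact_mod_cast hq
  have hqd' : (q : ℝ) ≤ d := by nlinarith
  set H : Finset (Fin q) := univ.filter fun c => hh c f v ≤ 1.1 * Real.exp (-ra d q) with hH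
  set E : ℝ := Real.exp (-ra d q) with hE
  set θ : ℝ := Real.exp (-ra d q / 2) * q / 4 with hθ
  have hE0 : 0 < E := Real.exp_pos _
  have hE1 : E ≤ 1 := by
    rw [hE]
    exact Real.exp_le_one_iff.2 (by linarith)
  have hs0 : 0 < Real.exp (-ra d q / 2) := Real.exp_pos _
  have hs1 : Real.exp (-ra d q / 2) ≤ 1 / 500 := by
    have h1 : Real.exp (-ra d q / 2) ≤ Real.exp (-500) := Real.exp_le_exp.2 (by linarith)
    have h2 : Real.exp (-500) ≤ 1 / 500 := by
      rw [Real.exp_neg, ← one_div]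
      have h3 := Real.add_one_le_exp (500 : ℝ)
      exact one_div_le_one_div_of_le (by norm_num) (by linarith)
    exact h1.trans h2
  have hEs : E = Real.exp (-ra d q / 2) * Real.exp (-ra d q / 2) := by
    rw [hE, ← Real.exp_add]
    congr 1
    ring
  have hθ0 : 0 < θ := by positivity
  -- the mean
  have hmean : fm (!b) (fun h => ∑ c ∈ H, (min (nf c h v) T) ^ 2) f ≤ θ := by
    rw [fm_sum]
    have h1 : ∀ c ∈ H, fm (!b) (fun h => (min (nf c h v) T) ^ 2) f ≤ 3 * E := by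
      intro c hc
      have hc' : hh c f v ≤ 1.1 * E := (mem_filter.1 hc).2
      have hc0 : 0 ≤ hh c f v := hh_nonneg c f v
      have h2 : fm (!b) (fun h => (min (nf c h v) T) ^ 2) f ≤ fm (!b) (fun h => nf c h v ^ 2) f := by
        refine fm_mono (!b) hf fun h _ => ?_
        exact pow_le_pow_left₀ (le_min (F3_nf_nonneg c h v) (by linarith)) (min_le_left _ _) 2
      refine h2.trans ((nf_sq hk hf hv c).trans ?_)
      have h3 : hh c f v ^ 2 ≤ (1.1 * E) ^ 2 := pow_le_pow_left₀ hc0 hc' 2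
      have h4 : (1.1 * E) ^ 2 ≤ 1.21 * E := by
        have : (1.1 * E) ^ 2 = 1.21 * (E * E) := by ring
        rw [this]
        nlinarith
      linarith
    refine (sum_le_sum h1).trans ?_
    rw [sum_const, nsmul_eq_mul]
    have h5 : ((H.card : ℕ) : ℝ) ≤ q := by
      have := card_le_univ H
      rw [Fintype.card_fin] at this
      exact_mod_cast this
    calc (H.card : ℝ) * (3 * E) ≤ q * (3 * E) := mul_le_mul_of_nonneg_right h5 (by positivity)
      _ ≤ θ := by
        rw [hθ, hEs]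
        have h6 : 0 < (q : ℝ) * Real.exp (-ra d q / 2) := by positivity
        nlinarith
  -- comparison of the indicators
  have hle : ∀ h ∈ fib (!b) f, ind (Real.exp (-ra d q / 2) * q < ∑ c : Fin q, ind (hh c h v ≤ 1.1 * E) * nf c h v ^ 2) ≤
      (∑ c ∈ H, Real.exp (-T) * Real.exp (1 * nf c h v)) +
        ind (θ ≤ |(∑ c ∈ H, (min (nf c h v) T) ^ 2) - fm (!b) (fun h => ∑ c ∈ H, (min (nf c h v) T) ^ 2) f|) := by
    intro h hh'
    have h1 : ∑ c : Fin q, ind (hh c h v ≤ 1.1 * E) * nf c h v ^ 2 = ∑ c ∈ H, nf c h v ^ 2 := by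
      rw [hH, sum_filter]
      refine sum_congr rfl fun c _ => ?_
      rw [loc_hh_fib hk hv c hh']
      by_cases hc : hh c f v ≤ 1.1 * E
      · rw [F3_ind_true hc, if_pos hc, one_mul]
      · rw [F3_ind_false hc, if_neg hc, zero_mul]
    have h2 : Real.exp (-ra d q / 2) * q = 4 * θ := by
      rw [hθ]; ring
    rw [h1, h2]
    exact F3_point H T θ _ (fun c => nf c h v) hmean
  refine (fm_mono (!b) hf hle).trans ?_
  rw [fm_add, fm_sum]
  refine add_le_add ?_ ?_
  · -- the exponential moments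
    have h1 : ∀ c ∈ H, fm (!b) (fun h => Real.exp (-T) * Real.exp (1 * nf c h v)) f ≤ 8 * Real.exp (-T) := by
      intro c hc
      have hc' : hh c f v ≤ 1.1 * E := (mem_filter.1 hc).2
      have hc0 : 0 ≤ hh c f v := hh_nonneg c f v
      rw [fm_mul]
      have h2 := nf_exp hk hf hv c 1 zero_le_one
      have h3 : (Real.exp 1 - 1) * hh c f v ≤ 2 := by
        have h4 := F3_exp_one
        have h5 : hh c f v ≤ 1 := by
          have h6 : E ≤ 1 / 500 * (1 / 500) := by
            rw [hEs]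
            exact mul_le_mul hs1 hs1 hs0.le (by norm_num)
          linarith
        have h7 : 0 ≤ Real.exp 1 - 1 := by
          have := Real.add_one_le_exp (1 : ℝ)
          linarith
        nlinarith
      have h8 : Real.exp 2 ≤ 8 := by
        have h9 : Real.exp 2 = Real.exp 1 * Real.exp 1 := by
          rw [← Real.exp_add]; norm_num
        have h10 := Real.exp_one_lt_d9
        have h11 := Real.exp_pos 1
        rw [h9]
        nlinarith
      have h9 : fm (!b) (fun h => Real.exp (1 * nf c h v)) f ≤ 8 :=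
        h2.trans ((Real.exp_le_exp.2 h3).trans h8)
      have h10 := Real.exp_pos (-T)
      nlinarith
    refine (sum_le_sum h1).trans ?_
    rw [sum_const, nsmul_eq_mul]
    have h5 : ((H.card : ℕ) : ℝ) ≤ q := by
      have := card_le_univ H
      rw [Fintype.card_fin] at this
      exact_mod_cast this
    have h10 := Real.exp_pos (-T)
    calc (H.card : ℝ) * (8 * Real.exp (-T)) ≤ d * (8 * Real.exp (-T)) :=
          mul_le_mul_of_nonneg_right (h5.trans hqd') (by positivity)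
      _ = 8 * d * Real.exp (-T) := by ring
  · -- the deviation
    have h1 := F3_mcd (by omega : 2 ≤ k) (!b) hf v (fun h => ∑ c ∈ H, (min (nf c h v) T) ^ 2) (2 * T ^ 2) (by positivity)
      (fun h w γ => F3_lip H T (by linarith) v h w γ)
      (fun h w γ hw => by
        refine sum_congr rfl fun c _ => ?_
        rw [F3_nf0 c v h w γ hw]) θ hθ0.le (by
        have h2 : θ ≤ q := by
          rw [hθ]
          nlinarith
        have h3 : (1 : ℝ) ≤ T ^ 2 := one_le_pow₀ hT
        nlinarith) hd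
    refine h1.trans ?_
    have h2 : (Real.exp (-1000) * q / 4) ^ 2 / (8 * d * (2 * T ^ 2) ^ 2) ≤ θ ^ 2 / (8 * d * (2 * T ^ 2) ^ 2) := by
      refine div_le_div_of_nonneg_right ?_ (by positivity)
      refine pow_le_pow_left₀ (by positivity) ?_ 2
      rw [hθ]
      have h3 : Real.exp (-1000) ≤ Real.exp (-ra d q / 2) := Real.exp_le_exp.2 (by linarith)
      have h4 : Real.exp (-1000) * q ≤ Real.exp (-ra d q / 2) * q := mul_le_mul_of_nonneg_right h3 hq0.le
      linarith
    have h3 : Real.exp (-(θ ^ 2 / (8 * d * (2 * T ^ 2) ^ 2))) ≤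
        Real.exp (-((Real.exp (-1000) * q / 4) ^ 2 / (8 * d * (2 * T ^ 2) ^ 2))) := Real.exp_le_exp.2 (by linarith)
    linarith

private theorem F3_prps {f : Site d k → Fin q} (hf : f ∈ prps d k q) : Prp f := by
  classical
  unfold prps at hf
  exact (mem_filter.1 hf).2

theorem f3_pt : SR fun d _ q f v => Real.exp (-ra d q / 2) * q <
    ∑ c : Fin q, ind (hh c f v ≤ 1.1 * Real.exp (-ra d q)) * nf c f v ^ 2 := by
  refine SR_local false 2 (fun _ _ _ _ _ => True) _ ?_ ?_ ?_ ?_ ?_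
  · refine reg_pt.mono ?_
    have h0 : EvT e3 fun d _ _ => 1 ≤ d := EvT_d (eventually_ge_atTop 1)
    exact h0.mono fun d k q _ _ f _ v h => absurd trivial h
  · intro d k q f g v _
    exact Iff.rfl
  · intro d k q f g v h
    have h1 : ∀ c, nf c f v = nf c g v := by
      intro c
      classical
      rw [F3_nf, F3_nf]
      refine sum_congr rfl fun σ _ => ?_
      rw [h _ (nr_mono (by norm_num) (nr_step v σ))]
    have h2 : ∀ c, hh c f v = hh c g v := fun c => (loc_hh h c).1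
    simp only [h1, h2]
  · have h0 : EvT e3 fun d _ _ => 1 ≤ d := EvT_d (eventually_ge_atTop 1)
    exact h0.mono fun d k q _ _ f _ b v _ h _ => Iff.rfl
  · intro K
    set c₀ : ℝ := Real.exp (-1000) ^ 2 / (512 * 10 ^ 6) with hc₀
    have hc₀0 : 0 < c₀ := by positivity
    have hc₀1 : c₀ ≤ 1 := by
      rw [hc₀, div_le_one (by positivity)]
      have h1 : Real.exp (-1000) ≤ 1 := Real.exp_le_one_iff.2 (by norm_num)
      have h2 : Real.exp (-1000) ^ 2 ≤ 1 := pow_le_one₀ (Real.exp_pos _).le h1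
      linarith
    have hexp : EvT e3 fun d _ _ => 10 * (d : ℝ) * Real.exp (-(c₀ * (d : ℝ) ^ (1 / 16 : ℝ))) ≤ 1 / (d : ℝ) ^ K :=
      EvT_d (F3_ev K hc₀0)
    refine ((EvT_reg (ε := e3) (by unfold e3; norm_num) (by unfold e3; norm_num) 3).and hexp).mono ?_
    rintro d k q ⟨⟨hd, hq, hk, hreg, hreg', -, -, hda⟩, hexp⟩ hR f hf b v hv _
    have hd1 : (1 : ℝ) ≤ d := by linarith
    have hd1' : 1 ≤ d := by exact_mod_cast hd1
    have hd0 : (0 : ℝ) < d := by linarith
    have hk3 : 3 ≤ k := by exact_mod_cast hk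
    have hq0 : (0 : ℝ) < q := by linarith
    set T : ℝ := (d : ℝ) ^ (1 / 16 : ℝ) with hT
    have hT1 : 1 ≤ T := Real.one_le_rpow hd1 (by norm_num)
    have hT0 : 0 < T := by linarith
    have hT16 : T ^ 16 = d := by
      rw [hT, ← Real.rpow_natCast ((d : ℝ) ^ (1 / 16 : ℝ)) 16, ← Real.rpow_mul hd0.le]
      norm_num
    have hp := F3_prob hd1' hk3 hR T hT1 b (F3_prps hf) v hv
    refine le_trans (le_trans hp ?_) hexp
    have h1 : Real.exp (-T) ≤ Real.exp (-(c₀ * T)) := Real.exp_le_exp.2 (by nlinarith)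
    have h2 : Real.exp (-((Real.exp (-1000) * q / 4) ^ 2 / (8 * d * (2 * T ^ 2) ^ 2))) ≤ Real.exp (-(c₀ * T)) := by
      refine Real.exp_le_exp.2 (neg_le_neg ?_)
      rw [le_div_iff₀ (by positivity)]
      have h3 : (e3 * d) ^ 2 ≤ (q : ℝ) ^ 2 := pow_le_pow_left₀ (by unfold e3; positivity) hreg 2
      have h4 : T ^ 5 ≤ T ^ 16 := pow_le_pow_right₀ hT1 (by norm_num)
      rw [hT16] at h4
      have h5 : c₀ * T * (8 * d * (2 * T ^ 2) ^ 2) = 32 * c₀ * d * T ^ 5 := by ring
      have h6 : (Real.exp (-1000) * q / 4) ^ 2 = Real.exp (-1000) ^ 2 / 16 * (q : ℝ) ^ 2 := by ring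
      rw [h5, h6]
      calc 32 * c₀ * d * T ^ 5 ≤ 32 * c₀ * d * d := mul_le_mul_of_nonneg_left h4 (by positivity)
        _ = Real.exp (-1000) ^ 2 / 16 * (e3 * d) ^ 2 := by
          rw [hc₀]
          unfold e3
          ring
        _ ≤ Real.exp (-1000) ^ 2 / 16 * (q : ℝ) ^ 2 := mul_le_mul_of_nonneg_left h3 (by positivity)
    have h3 := Real.exp_pos (-(c₀ * T))
    calc 8 * (d : ℝ) * Real.exp (-T) + 2 * Real.exp (-((Real.exp (-1000) * q / 4) ^ 2 / (8 * d * (2 * T ^ 2) ^ 2)))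
        ≤ 8 * (d : ℝ) * Real.exp (-(c₀ * T)) + 2 * Real.exp (-(c₀ * T)) := by
          refine add_le_add (mul_le_mul_of_nonneg_left h1 (by positivity)) (mul_le_mul_of_nonneg_left h2 (by norm_num))
      _ ≤ 10 * (d : ℝ) * Real.exp (-(c₀ * T)) := by nlinarith

end Pool.Agent.LC
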