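import Pool.Agent.Lib_MP_2c424f_lc1.F0
import Pool.Agent.Lib_MP_2c424f_lc1.T5
import Pool.Agent.Lib_MP_2c424f_lc1.E5

/-!
# LC1 F4: second moment over the second neighbours

`SR_local`, `o = true` (resample the class `b` of `v`), `R f v := ∀ σ τ, q/3 ≤ av f (v+σ+τ)` (`q3_pt.nb.nb`; class `b` sites: `av` does not change on the fibre of `b`), radius 3.  On `R`: `hh c f (v+σ) ≤ 3a`.
`T := d^{1/16}`.  `P(∃ c σ, T < nfx c h (v+σ) v) ≤ 2d q e^{-T} e^{6a}` (`nfx_exp` with `x = 1`).  `F h := ∑_σ min (nfx c h (v+σ) v) T ^ 2`: mean `≤ 2d (3a + 9a²) ≤ 10 a² 2d` (`nfx_sq`).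
`fm_bern`: `F` depends on the indicators of `c` at the sites `w = v+σ+τ ≠ v` (`W`, at most `4d²`); such a site changes `F` by at most `M = 2 * 3 T²` (`comm_nb`); `p = 3/q`; `θ = 10 a² 2d`, `lam = s/T⁴` with a small
constant `s > 0` (`lam M ≤ 1`): exponent `-s θ/T⁴ + s² 36/T⁴ * (3/q) * 4d² ≤ -c d/T⁴`.  Union over `c`.
-/

set_option autoImplicit false

open Finset Filter

namespace Pool.Agent.LC

open Pool.Agent.LO Pool.Agent.LIN Pool.Agent.THR Pool.Agent.COR

variable {d k q : ℕ}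

/-- the truncated second moment -/
private noncomputable def F4_F (T : ℝ) (c : Fin q) (v : Site d k) (h : Site d k → Fin q) : ℝ :=
  ∑ σ : Stp d, min (nfx c h (v + sv σ) v) T ^ 2

/-- the second neighbours -/
private noncomputable def F4_W (v : Site d k) : Finset (Site d k) := by
  classical exact univ.image fun p : Stp d × Stp d => v + sv p.1 + sv p.2

private theorem F4_ind_nonneg (P : Prop) : 0 ≤ ind P := by
  unfold ind
  split_ifs <;> norm_num

private theorem F4_ind_true {P : Prop} (h : P) : ind P = 1 := by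
  unfold ind
  rw [if_pos h]

private theorem F4_ind_false {P : Prop} (h : ¬ P) : ind P = 0 := by
  unfold ind
  rw [if_neg h]

private theorem F4_card : (Fintype.card (Stp d) : ℝ) = 2 * d := by
  rw [Fintype.card_prod, Fintype.card_fin, Fintype.card_bool]
  push_cast
  ring

private theorem F4_nfx_nonneg (c : Fin q) (h : Site d k → Fin q) (x v : Site d k) : 0 ≤ nfx c h x v := by
  unfold nfx
  exact Nat.cast_nonneg _

private theorem F4_nfx_congr {c : Fin q} {g h : Site d k → Fin q} {x v : Site d k}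
    (H : ∀ τ : Stp d, x + sv τ ≠ v → (g (x + sv τ) = c ↔ h (x + sv τ) = c)) : nfx c g x v = nfx c h x v := by
  unfold nfx
  congr 2
  ext τ
  simp only [mem_filter, mem_univ, true_and]
  constructor
  · rintro ⟨h1, h2⟩
    exact ⟨h1, (H τ h1).1 h2⟩
  · rintro ⟨h1, h2⟩
    exact ⟨h1, (H τ h1).2 h2⟩

private theorem F4_term {T n : ℝ} (hT : 0 ≤ T) (hn : 0 ≤ n) : 0 ≤ min n T ^ 2 ∧ min n T ^ 2 ≤ T ^ 2 :=
  ⟨sq_nonneg _, pow_le_pow_left₀ (le_min hn hT) (min_le_right _ _) 2⟩

private theorem F4_cn {α : Type} [Fintype α] (P : α → Prop) : cn P = ∑ v, ind (P v) := by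
  classical
  unfold cn ind
  rw [Finset.sum_ite]
  simp

private theorem F4_far (T : ℝ) (c : Fin q) (v w : Site d k) (hw : w ∉ F4_W v) (h : Site d k → Fin q) (γ : Fin q) :
    F4_F T c v (Function.update h w γ) = F4_F T c v h := by
  classical
  unfold F4_F
  refine Finset.sum_congr rfl fun σ _ => ?_
  rw [F4_nfx_congr]
  intro τ _
  have h1 : v + sv σ + sv τ ≠ w := by
    intro h2
    apply hw
    unfold F4_W
    rw [mem_image]
    exact ⟨(σ, τ), mem_univ _, h2⟩
  rw [Function.update_of_ne h1]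

private theorem F4_lip (hk : 3 ≤ k) {T : ℝ} (hT : 0 ≤ T) (c : Fin q) (v w : Site d k) (h : Site d k → Fin q) (γ : Fin q) :
    |F4_F T c v (Function.update h w γ) - F4_F T c v h| ≤ 2 * T ^ 2 := by
  by_cases hwv : w = v
  · have h1 : F4_F T c v (Function.update h w γ) = F4_F T c v h := by
      unfold F4_F
      refine Finset.sum_congr rfl fun σ _ => ?_
      rw [F4_nfx_congr]
      intro τ hτ
      rw [Function.update_of_ne (by rw [hwv]; exact hτ)]
    rw [h1, sub_self, abs_zero]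
    positivity
  · unfold F4_F
    rw [← Finset.sum_sub_distrib]
    have h1 : ∀ σ : Stp d, |min (nfx c (Function.update h w γ) (v + sv σ) v) T ^ 2 -
        min (nfx c h (v + sv σ) v) T ^ 2| ≤ ind (∃ τ : Stp d, w = v + sv σ + sv τ) * T ^ 2 := by
      intro σ
      by_cases hσ : ∃ τ : Stp d, w = v + sv σ + sv τ
      · rw [F4_ind_true hσ, one_mul, abs_le]
        have a1 := F4_term hT (F4_nfx_nonneg c (Function.update h w γ) (v + sv σ) v)
        have a2 := F4_term hT (F4_nfx_nonneg c h (v + sv σ) v)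
        constructor <;> linarith [a1.1, a1.2, a2.1, a2.2]
      · have h2 : nfx c (Function.update h w γ) (v + sv σ) v = nfx c h (v + sv σ) v := by
          refine F4_nfx_congr fun τ _ => ?_
          have h3 : v + sv σ + sv τ ≠ w := fun h4 => hσ ⟨τ, h4.symm⟩
          rw [Function.update_of_ne h3]
        rw [h2, sub_self, abs_zero]
        exact mul_nonneg (F4_ind_nonneg _) (sq_nonneg _)
    calc |∑ σ : Stp d, (min (nfx c (Function.update h w γ) (v + sv σ) v) T ^ 2 -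
          min (nfx c h (v + sv σ) v) T ^ 2)|
        ≤ ∑ σ : Stp d, |min (nfx c (Function.update h w γ) (v + sv σ) v) T ^ 2 -
          min (nfx c h (v + sv σ) v) T ^ 2| := Finset.abs_sum_le_sum_abs _ _
      _ ≤ ∑ σ : Stp d, ind (∃ τ : Stp d, w = v + sv σ + sv τ) * T ^ 2 := Finset.sum_le_sum fun σ _ => h1 σ
      _ = cn (fun σ : Stp d => ∃ τ : Stp d, w = v + sv σ + sv τ) * T ^ 2 := by
          rw [← Finset.sum_mul, F4_cn]
      _ ≤ 2 * T ^ 2 := mul_le_mul_of_nonneg_right (comm_nb hk hwv) (sq_nonneg _)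

private theorem F4_two (T : ℝ) (c : Fin q) (v w : Site d k) (h : Site d k → Fin q) (γ γ' : Fin q) (h1 : γ ≠ c)
    (h2 : γ' ≠ c) : F4_F T c v (Function.update h w γ) = F4_F T c v (Function.update h w γ') := by
  unfold F4_F
  refine Finset.sum_congr rfl fun σ _ => ?_
  rw [F4_nfx_congr]
  intro τ _
  by_cases h3 : v + sv σ + sv τ = w
  · rw [h3, Function.update_self, Function.update_self]
    exact ⟨fun h => absurd h h1, fun h => absurd h h2⟩
  · rw [Function.update_of_ne h3, Function.update_of_ne h3]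

private theorem F4_Wcard (v : Site d k) : ((F4_W v).card : ℝ) ≤ 4 * (d : ℝ) ^ 2 := by
  classical
  have h1 : (F4_W v).card ≤ (univ : Finset (Stp d × Stp d)).card := by
    unfold F4_W
    exact card_image_le
  have h2 : ((univ : Finset (Stp d × Stp d)).card : ℝ) = 4 * (d : ℝ) ^ 2 := by
    rw [card_univ, Fintype.card_prod]
    push_cast
    rw [F4_card]
    ring
  rw [← h2]
  exact_mod_cast h1

private theorem F4_hh (hq : 1 ≤ q) {f : Site d k → Fin q} {v : Site d k} (c : Fin q)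
    (hR : ∀ σ τ : Stp d, (q : ℝ) / 3 ≤ av f (v + sv σ + sv τ)) (σ : Stp d) : THR.hh c f (v + sv σ) ≤ 3 * ra d q := by
  have hq0 : (0 : ℝ) < q := by exact_mod_cast hq
  have h1 : ∀ τ : Stp d, zz f (v + sv σ + sv τ) c / (av f (v + sv σ + sv τ) : ℝ) ≤ 3 / q := by
    intro τ
    have h2 := hR σ τ
    have h3 : (0 : ℝ) < av f (v + sv σ + sv τ) := lt_of_lt_of_le (by positivity) h2
    have h4 : zz f (v + sv σ + sv τ) c ≤ 1 := by
      unfold zz
      split_ifs <;> norm_num
    rw [div_le_div_iff₀ h3 hq0]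
    nlinarith
  unfold THR.hh
  calc ∑ τ : Stp d, zz f (v + sv σ + sv τ) c / (av f (v + sv σ + sv τ) : ℝ) ≤ ∑ _τ : Stp d, (3 : ℝ) / q :=
        Finset.sum_le_sum fun τ _ => h1 τ
    _ = 3 * ra d q := by
        rw [Finset.sum_const, nsmul_eq_mul, Finset.card_univ, F4_card]
        unfold ra
        ring

private theorem F4_mean (hk : 3 ≤ k) (hq : 1 ≤ q) {T : ℝ} (hT : 0 ≤ T) {b : Bool} {f : Site d k → Fin q} (hf : Prp f)
    {v : Site d k} (hv : v ∈ cls b d k) (c : Fin q)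
    (hR : ∀ σ τ : Stp d, (q : ℝ) / 3 ≤ av f (v + sv σ + sv τ)) :
    fm b (F4_F T c v) f ≤ 2 * d * (3 * ra d q + 9 * ra d q ^ 2) := by
  have h1 : fm b (F4_F T c v) f = ∑ σ : Stp d, fm b (fun h => min (nfx c h (v + sv σ) v) T ^ 2) f := by
    unfold F4_F
    exact fm_sum b f univ fun σ h => min (nfx c h (v + sv σ) v) T ^ 2
  rw [h1]
  have h2 : ∀ σ : Stp d, fm b (fun h => min (nfx c h (v + sv σ) v) T ^ 2) f ≤ 3 * ra d q + 9 * ra d q ^ 2 := by
    intro σ
    have h3 : fm b (fun h => min (nfx c h (v + sv σ) v) T ^ 2) f ≤ fm b (fun h => nfx c h (v + sv σ) v ^ 2) f := by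
      refine fm_mono b hf fun h _ => ?_
      exact pow_le_pow_left₀ (le_min (F4_nfx_nonneg _ _ _ _) hT) (min_le_left _ _) 2
    have h4 := nfx_sq hk hf hv c σ
    have h5 := F4_hh hq c hR σ
    have h6 := hh_nonneg c f (v + sv σ)
    have h7 : THR.hh c f (v + sv σ) ^ 2 ≤ (3 * ra d q) ^ 2 := pow_le_pow_left₀ h6 h5 2
    nlinarith
  calc ∑ σ : Stp d, fm b (fun h => min (nfx c h (v + sv σ) v) T ^ 2) f
      ≤ ∑ _σ : Stp d, (3 * ra d q + 9 * ra d q ^ 2) := Finset.sum_le_sum fun σ _ => h2 σ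
    _ = 2 * d * (3 * ra d q + 9 * ra d q ^ 2) := by
        rw [Finset.sum_const, nsmul_eq_mul, Finset.card_univ, F4_card]

private theorem F4_tail (hk : 3 ≤ k) (hq : 1 ≤ q) (T : ℝ) {b : Bool} {f : Site d k → Fin q} (hf : Prp f)
    {v : Site d k} (hv : v ∈ cls b d k) (c : Fin q)
    (hR : ∀ σ τ : Stp d, (q : ℝ) / 3 ≤ av f (v + sv σ + sv τ)) (σ : Stp d) :
    fm b (fun h => ind (T < nfx c h (v + sv σ) v)) f ≤ Real.exp (-T) * Real.exp (6 * ra d q) := by
  have h1 : fm b (fun h => ind (T < nfx c h (v + sv σ) v)) f ≤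
      fm b (fun h => Real.exp (-T) * Real.exp (1 * nfx c h (v + sv σ) v)) f := by
    refine fm_mono b hf fun h _ => ?_
    by_cases h2 : T < nfx c h (v + sv σ) v
    · rw [F4_ind_true h2, ← Real.exp_add]
      exact Real.one_le_exp (by linarith)
    · rw [F4_ind_false h2]
      positivity
  rw [fm_mul] at h1
  have h2 := nfx_exp hk hf hv c σ 1 zero_le_one
  have h3 := F4_hh hq c hR σ
  have h4 := hh_nonneg c f (v + sv σ)
  have h5 : (Real.exp 1 - 1) * THR.hh c f (v + sv σ) ≤ 6 * ra d q := by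
    have h6 := Real.exp_one_lt_d9
    have h7 : Real.exp 1 - 1 ≤ 2 := by linarith
    calc (Real.exp 1 - 1) * THR.hh c f (v + sv σ) ≤ 2 * THR.hh c f (v + sv σ) :=
          mul_le_mul_of_nonneg_right h7 h4
      _ ≤ 6 * ra d q := by linarith
  refine h1.trans (mul_le_mul_of_nonneg_left (h2.trans (Real.exp_le_exp.2 h5)) (Real.exp_pos _).le)

private theorem F4_dev (hk : 3 ≤ k) (hd : 1 ≤ d) (hRg : Rg d q) {T : ℝ} (hT : 1 ≤ T) (hTd : T ^ 16 = d) {b : Bool}
    {f : Site d k → Fin q} (hf : Prp f) {v : Site d k} (c : Fin q)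
    (hR : ∀ σ τ : Stp d, (q : ℝ) / 3 ≤ av f (v + sv σ + sv τ)) :
    fm b (fun h => ind (10 * ra d q ^ 2 * (2 * d) ≤ |F4_F T c v h - fm b (F4_F T c v) f|)) f ≤
      2 * Real.exp (-T) := by
  obtain ⟨hq, ha1, ha2, haq, -, -, -, -, -⟩ := rg_pos hd hRg
  have hq0 : (0 : ℝ) < q := by exact_mod_cast hq
  have hT0 : (0 : ℝ) < T := by linarith
  have hd0 : (0 : ℝ) < d := by exact_mod_cast hd
  have h := fm_bern (by omega : 2 ≤ k) b hf c (F4_F T c v) (F4_W v) (2 * T ^ 2) (3 / q) (1 / (2 * T ^ 4))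
    (10 * ra d q ^ 2 * (2 * d)) (by positivity) (by positivity) (by positivity)
    (by
      have h1 : 1 / (2 * T ^ 4) * (2 * T ^ 2) = 1 / T ^ 2 := by
        field_simp
      rw [h1, div_le_one (by positivity)]
      exact one_le_pow₀ hT)
    (fun h _ w _ hw γ _ => F4_far T c v w hw h γ)
    (fun h _ w _ _ γ _ => F4_lip hk hT0.le c v w h γ)
    (fun h _ w _ γ γ' _ _ h1 h2 => F4_two T c v w h γ γ' h1 h2)
    (by
      intro w _ hw
      classical
      unfold F4_W at hw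
      rw [mem_image] at hw
      obtain ⟨p, -, rfl⟩ := hw
      have h2 := hR p.1 p.2
      have h3 : (0 : ℝ) < av f (v + sv p.1 + sv p.2) := lt_of_lt_of_le (by positivity) h2
      rw [div_le_div_iff₀ h3 hq0]
      linarith)
  refine h.trans ?_
  refine mul_le_mul_of_nonneg_left (Real.exp_le_exp.2 ?_) (by norm_num)
  set a : ℝ := ra d q with ha
  have hW := F4_Wcard (d := d) (k := k) v
  have e1 : 1 / (2 * T ^ 4) * (10 * a ^ 2 * (2 * d)) = 10 * a ^ 2 * T ^ 12 := by
    rw [← hTd]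
    field_simp
  have hdq : 12 * (d : ℝ) ^ 2 / q = 6 * a * d := by
    have h5 : (d : ℝ) = a * q / 2 := by linarith
    have h6 : (d : ℝ) ^ 2 = d * (a * q / 2) := by rw [sq]; nth_rewrite 2 [h5]; rfl
    rw [h6]
    field_simp
    ring
  have e2 : (1 / (2 * T ^ 4)) ^ 2 * (2 * T ^ 2) ^ 2 * (3 / q) * (4 * (d : ℝ) ^ 2) = 6 * a * T ^ 12 := by
    have h5 : (1 / (2 * T ^ 4)) ^ 2 * (2 * T ^ 2) ^ 2 * (3 / q) * (4 * (d : ℝ) ^ 2) =
        (12 * (d : ℝ) ^ 2 / q) / T ^ 4 := by
      field_simp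
      ring
    rw [h5, hdq, ← hTd]
    field_simp
  have e3' : (1 / (2 * T ^ 4)) ^ 2 * (2 * T ^ 2) ^ 2 * (3 / q) * ((F4_W v).card : ℝ) ≤ 6 * a * T ^ 12 := by
    rw [← e2]
    exact mul_le_mul_of_nonneg_left hW (by positivity)
  rw [e1]
  have h7 : T ≤ T ^ 12 := le_self_pow₀ hT (by norm_num)
  have h8 : 0 < T ^ 12 := by positivity
  have h9 : 1 ≤ 10 * a ^ 2 - 6 * a := by nlinarith
  nlinarith

private theorem F4_asym (K : ℕ) : ∀ᶠ d : ℕ in atTop,
    4 * Real.exp 12000 * (d : ℝ) ^ (K + 2) ≤ Real.exp ((d : ℝ) ^ (1 / 16 : ℝ)) := by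
  have h1 := Real.tendsto_pow_mul_exp_neg_atTop_nhds_zero (16 * (K + 2))
  have h2 : Tendsto (fun d : ℕ => ((d : ℝ)) ^ (1 / 16 : ℝ)) atTop atTop :=
    (tendsto_rpow_atTop (by norm_num)).comp tendsto_natCast_atTop_atTop
  have h3 := h1.comp h2
  have h4 : (0 : ℝ) < 1 / (4 * Real.exp 12000) := by positivity
  filter_upwards [h3.eventually_le_const h4] with d hd
  simp only [Function.comp_apply] at hd
  have h5 : ((d : ℝ) ^ (1 / 16 : ℝ)) ^ (16 * (K + 2)) = (d : ℝ) ^ (K + 2) := by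
    rw [pow_mul, ← Real.rpow_natCast ((d : ℝ) ^ (1 / 16 : ℝ)) 16, ← Real.rpow_mul (Nat.cast_nonneg _)]
    norm_num
  rw [h5, Real.exp_neg, ← div_eq_mul_inv, div_le_iff₀ (Real.exp_pos _), one_div, mul_comm _ (Real.exp _),
    ← div_eq_mul_inv, le_div_iff₀ (by positivity)] at hd
  linarith

private theorem F4_hp (hk : 3 ≤ k) (hd : 1 ≤ d) (hRg : Rg d q) {T : ℝ} (hT : 1 ≤ T) (hTd : T ^ 16 = d) {b : Bool}
    {f : Site d k → Fin q} (hf : Prp f) {v : Site d k} (hv : v ∈ cls b d k)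
    (hR : ∀ σ τ : Stp d, (q : ℝ) / 3 ≤ av f (v + sv σ + sv τ)) :
    fm b (fun h => ind (∃ c : Fin q, 20 * ra d q ^ 2 * (2 * d) < ∑ σ : Stp d, nfx c h (v + sv σ) v ^ 2)) f ≤
      4 * (d : ℝ) ^ 2 * Real.exp 12000 * Real.exp (-T) := by
  obtain ⟨hq, ha1, ha2, haq, -, -, -, -, -⟩ := rg_pos hd hRg
  have hq0 : (0 : ℝ) < q := by exact_mod_cast hq
  have hT0 : (0 : ℝ) < T := by linarith
  have hd0 : (0 : ℝ) < d := by exact_mod_cast hd
  have hd1 : (1 : ℝ) ≤ d := by exact_mod_cast hd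
  have hqd : (q : ℝ) ≤ d := by nlinarith
  have h1 : fm b (fun h => ind (∃ c : Fin q, 20 * ra d q ^ 2 * (2 * d) < ∑ σ : Stp d, nfx c h (v + sv σ) v ^ 2)) f ≤
      fm b (fun h => ∑ c : Fin q, (∑ σ : Stp d, ind (T < nfx c h (v + sv σ) v) +
        ind (10 * ra d q ^ 2 * (2 * d) ≤ |F4_F T c v h - fm b (F4_F T c v) f|))) f := by
    refine fm_mono b hf fun h _ => ?_
    have hnn : ∀ c : Fin q, 0 ≤ ∑ σ : Stp d, ind (T < nfx c h (v + sv σ) v) +
        ind (10 * ra d q ^ 2 * (2 * d) ≤ |F4_F T c v h - fm b (F4_F T c v) f|) := fun c =>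
      add_nonneg (Finset.sum_nonneg fun σ _ => F4_ind_nonneg _) (F4_ind_nonneg _)
    by_cases hB : ∃ c : Fin q, 20 * ra d q ^ 2 * (2 * d) < ∑ σ : Stp d, nfx c h (v + sv σ) v ^ 2
    · rw [F4_ind_true hB]
      obtain ⟨c, hc⟩ := hB
      refine le_trans ?_ (Finset.single_le_sum (f := fun c : Fin q => ∑ σ : Stp d, ind (T < nfx c h (v + sv σ) v) +
        ind (10 * ra d q ^ 2 * (2 * d) ≤ |F4_F T c v h - fm b (F4_F T c v) f|)) (fun c _ => hnn c) (mem_univ c))
      by_cases hσ : ∃ σ : Stp d, T < nfx c h (v + sv σ) v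
      · obtain ⟨σ, hσ⟩ := hσ
        have h2 := Finset.single_le_sum (f := fun σ : Stp d => ind (T < nfx c h (v + sv σ) v))
          (fun σ _ => F4_ind_nonneg _) (mem_univ σ)
        rw [F4_ind_true hσ] at h2
        have h3 := F4_ind_nonneg (10 * ra d q ^ 2 * (2 * d) ≤ |F4_F T c v h - fm b (F4_F T c v) f|)
        linarith
      · push Not at hσ
        have h2 : F4_F T c v h = ∑ σ : Stp d, nfx c h (v + sv σ) v ^ 2 := by
          unfold F4_F
          refine Finset.sum_congr rfl fun σ _ => ?_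
          rw [min_eq_left (hσ σ)]
        have h3 := F4_mean hk hq hT0.le hf hv c hR
        have h4 : 3 * ra d q + 9 * ra d q ^ 2 ≤ 10 * ra d q ^ 2 := by nlinarith
        have h5 : 10 * ra d q ^ 2 * (2 * d) ≤ |F4_F T c v h - fm b (F4_F T c v) f| := by
          refine le_trans ?_ (le_abs_self _)
          rw [h2]
          have h6 : 2 * (d : ℝ) * (3 * ra d q + 9 * ra d q ^ 2) ≤ 2 * d * (10 * ra d q ^ 2) :=
            mul_le_mul_of_nonneg_left h4 (by positivity)
          linarith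
        rw [F4_ind_true h5]
        have h6 : 0 ≤ ∑ σ : Stp d, ind (T < nfx c h (v + sv σ) v) := Finset.sum_nonneg fun σ _ => F4_ind_nonneg _
        linarith
    · rw [F4_ind_false hB]
      exact Finset.sum_nonneg fun c _ => hnn c
  refine h1.trans ?_
  rw [fm_sum]
  have h2 : ∀ c : Fin q, fm b (fun h => ∑ σ : Stp d, ind (T < nfx c h (v + sv σ) v) +
        ind (10 * ra d q ^ 2 * (2 * d) ≤ |F4_F T c v h - fm b (F4_F T c v) f|)) f ≤
      2 * d * (Real.exp (-T) * Real.exp 12000) + 2 * Real.exp (-T) := by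
    intro c
    rw [fm_add, fm_sum]
    refine add_le_add ?_ (F4_dev hk hd hRg hT hTd hf c hR)
    calc ∑ σ : Stp d, fm b (fun h => ind (T < nfx c h (v + sv σ) v)) f
        ≤ ∑ _σ : Stp d, (Real.exp (-T) * Real.exp 12000) := by
          refine Finset.sum_le_sum fun σ _ => (F4_tail hk hq T hf hv c hR σ).trans ?_
          refine mul_le_mul_of_nonneg_left (Real.exp_le_exp.2 ?_) (Real.exp_pos _).le
          linarith
      _ = 2 * d * (Real.exp (-T) * Real.exp 12000) := by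
          rw [Finset.sum_const, nsmul_eq_mul, Finset.card_univ, F4_card]
  calc ∑ c : Fin q, fm b (fun h => ∑ σ : Stp d, ind (T < nfx c h (v + sv σ) v) +
        ind (10 * ra d q ^ 2 * (2 * d) ≤ |F4_F T c v h - fm b (F4_F T c v) f|)) f
      ≤ ∑ _c : Fin q, (2 * d * (Real.exp (-T) * Real.exp 12000) + 2 * Real.exp (-T)) :=
        Finset.sum_le_sum fun c _ => h2 c
    _ = q * (2 * d * (Real.exp (-T) * Real.exp 12000) + 2 * Real.exp (-T)) := by
        rw [Finset.sum_const, nsmul_eq_mul, Finset.card_univ, Fintype.card_fin]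
    _ ≤ d * (2 * d * (Real.exp (-T) * Real.exp 12000) + 2 * d * (Real.exp (-T) * Real.exp 12000)) := by
        have h3 : (1 : ℝ) ≤ Real.exp 12000 := Real.one_le_exp (by norm_num)
        have h4 : 2 * Real.exp (-T) ≤ 2 * d * (Real.exp (-T) * Real.exp 12000) := by
          have h5 : Real.exp (-T) ≤ Real.exp (-T) * Real.exp 12000 :=
            le_mul_of_one_le_right (Real.exp_pos _).le h3
          have h6 : 2 * (Real.exp (-T)) ≤ 2 * (Real.exp (-T) * Real.exp 12000) := by linarith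
          have h7 : 0 ≤ Real.exp (-T) * Real.exp 12000 := by positivity
          nlinarith
        refine mul_le_mul hqd (add_le_add le_rfl h4) (by positivity) hd0.le
    _ = 4 * (d : ℝ) ^ 2 * Real.exp 12000 * Real.exp (-T) := by ring

theorem f4_pt : SR fun d _ q f v => ∃ c : Fin q, 20 * ra d q ^ 2 * (2 * d) < ∑ σ : Stp d, nfx c f (v + sv σ) v ^ 2 := by
  have he0 : (0 : ℝ) < e3 := by unfold e3; norm_num
  have he1 : e3 ≤ (1 : ℝ) := by unfold e3; norm_num
  refine SR_local true 3 (fun d _ q f v => ∀ σ τ : Stp d, (q : ℝ) / 3 ≤ av f (v + sv σ + sv τ)) _ ?_ ?_ ?_ ?_ ?_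
  · refine (q3_pt.nb.nb).mono ((EvT_d (P := fun _ => True) (Filter.Eventually.of_forall fun _ => trivial)).mono ?_)
    intro d k q _ _ f _ v hv
    push Not at hv
    exact hv
  · intro d k q f g v h
    have h1 : ∀ σ τ : Stp d, av f (v + sv σ + sv τ) = av g (v + sv σ + sv τ) := by
      intro σ τ
      refine (loc_av fun u hu => h u ?_).2.1
      have h2 : nr 1 v (v + sv σ) := nr_step v σ
      have h3 : nr 1 (v + sv σ) (v + sv σ + sv τ) := nr_step _ τ
      have h4 := nr_trans (nr_trans h2 h3) hu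
      exact h4
    constructor
    · intro h2 σ τ
      rw [← h1]
      exact h2 σ τ
    · intro h2 σ τ
      rw [h1]
      exact h2 σ τ
  · intro d k q f g v h
    have h1 : ∀ (c : Fin q) (σ : Stp d), nfx c f (v + sv σ) v = nfx c g (v + sv σ) v := by
      intro c σ
      refine F4_nfx_congr fun τ _ => ?_
      have h2 : nr 1 v (v + sv σ) := nr_step v σ
      have h3 : nr 1 (v + sv σ) (v + sv σ + sv τ) := nr_step _ τ
      rw [h _ (nr_mono (by norm_num : 2 ≤ 3) (nr_trans h2 h3))]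
    simp only [h1]
  · refine (EvT_reg he0 he1 1).mono ?_
    rintro d k q ⟨-, -, hk, -⟩ _ f _ b v hv h hh
    have hk1 : 1 ≤ k := by exact_mod_cast hk
    have hh' : h ∈ fib b f := hh
    have h1 : ∀ σ τ : Stp d, av h (v + sv σ + sv τ) = av f (v + sv σ + sv τ) := by
      intro σ τ
      have h2 : v + sv σ + sv τ ∈ cls b d k := by
        rw [mem_cls_step hk1, mem_cls_step hk1, Bool.not_not]
        exact hv
      unfold av
      rw [fib_SS hk1 b hh' _ h2]
    simp only [h1]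
  · intro K
    refine ((EvT_reg he0 he1 3).and (EvT_d (F4_asym K))).mono ?_
    rintro d k q ⟨⟨hd, -, hk, -⟩, has⟩ hRg f hf b v hv hR
    have hk3 : 3 ≤ k := by exact_mod_cast hk
    have hd3 : 3 ≤ d := by exact_mod_cast hd
    have hf' : Prp f := by
      classical
      unfold prps at hf
      rw [mem_filter] at hf
      exact hf.2
    have hd0 : (0 : ℝ) < d := by linarith
    have hT : 1 ≤ (d : ℝ) ^ (1 / 16 : ℝ) := Real.one_le_rpow (by linarith) (by norm_num)
    have hTd : ((d : ℝ) ^ (1 / 16 : ℝ)) ^ 16 = d := by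
      rw [← Real.rpow_natCast ((d : ℝ) ^ (1 / 16 : ℝ)) 16, ← Real.rpow_mul hd0.le]
      norm_num
    have h1 := F4_hp hk3 (by omega) hRg hT hTd hf' hv hR
    refine le_trans h1 ?_
    rw [Real.exp_neg, le_div_iff₀ (by positivity), ← div_eq_mul_inv, div_mul_eq_mul_div,
      div_le_one (Real.exp_pos _)]
    refine le_trans (le_of_eq ?_) has
    rw [pow_add]
    ring

end Pool.Agent.LC
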