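import Pool.Agent.Lib_MP_2c424f_lc1.F0
import Pool.Agent.Lib_MP_2c424f_lc1.T5
import Pool.Agent.Lib_MP_2c424f_lc1.E5

/-!
# LC1 F5: first moment over the second neighbours, rare colour

`SR_local`, `o = true` (resample the class `b` of `v`), `R f v := ∀ σ τ, q/3 ≤ av f (v+σ+τ)` (`q3_pt.nb.nb`), radius 3.  `hh c f (v+σ)` does not change (`loc_hh_fib2`).
`F h := ∑_σ nfx c h (v+σ) v`, mean `≤ ∑_σ hh c f (v+σ) ≤ 1.1 e^{-a} 2d ≤ e^{-a/2} 2d/2` (`nfx_mean`).  `fm_bern`: `F` depends on the indicators of `c` at the sites `w = v+σ+τ ≠ v` (at most `4d²`), `M = 2` (`comm_nb`), `p = 3/q`,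
`θ = e^{-a/2} 2d/2`, `lam = s` a small constant: exponent `-s θ + 4 s² (3/q) 4d² ≤ -c d`.  Union over `c`.
-/

set_option autoImplicit false

open Finset Filter

namespace Pool.Agent.LC

open Pool.Agent.LO Pool.Agent.LIN Pool.Agent.THR Pool.Agent.COR

private theorem F5_ind01 (P : Prop) : 0 ≤ ind P ∧ ind P ≤ 1 := by
  unfold ind
  split_ifs <;> norm_num

private theorem F5_ind_mono {P Q : Prop} (h : P → Q) : ind P ≤ ind Q := by
  unfold ind
  by_cases hP : P
  · rw [if_pos hP, if_pos (h hP)]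
  · rw [if_neg hP]
    split_ifs <;> norm_num

private theorem F5_ind_ex {α : Type} [Fintype α] (P : α → Prop) : ind (∃ c, P c) ≤ ∑ c, ind (P c) := by
  by_cases h : ∃ c, P c
  · obtain ⟨c, hc⟩ := h
    have h1 : ind (∃ c, P c) ≤ ind (P c) := F5_ind_mono fun _ => hc
    exact h1.trans (single_le_sum (f := fun c => ind (P c)) (fun c _ => (F5_ind01 _).1) (mem_univ c))
  · have h1 : ind (∃ c, P c) = 0 := by
      unfold ind
      rw [if_neg h]
    rw [h1]
    exact sum_nonneg fun c _ => (F5_ind01 _).1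

private theorem F5_exp (K : ℕ) {c : ℝ} (hc : 0 < c) :
    ∀ᶠ d : ℕ in atTop, 4 * (d : ℝ) * Real.exp (-(c * d)) ≤ 1 / (d : ℝ) ^ K := by
  have h1 : Tendsto (fun d : ℕ => c * (d : ℝ)) atTop atTop :=
    (tendsto_natCast_atTop_atTop).const_mul_atTop hc
  have h2 := (Real.tendsto_pow_mul_exp_neg_atTop_nhds_zero (K + 1)).comp h1
  have h3 : (0 : ℝ) < c ^ (K + 1) / 4 := by positivity
  filter_upwards [h2.eventually (ge_mem_nhds h3), eventually_ge_atTop 1] with d h4 hd
  have hd' : (0 : ℝ) < d := by exact_mod_cast hd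
  simp only [Function.comp_apply] at h4
  rw [le_div_iff₀ (by positivity)]
  have h5 : (c * d) ^ (K + 1) * Real.exp (-(c * d)) = c ^ (K + 1) * ((d : ℝ) ^ (K + 1) * Real.exp (-(c * d))) := by
    rw [mul_pow]; ring
  rw [h5] at h4
  have h6 : (d : ℝ) ^ (K + 1) * Real.exp (-(c * d)) ≤ 1 / 4 := by
    have h7 : (0 : ℝ) < c ^ (K + 1) := by positivity
    have h8 : c ^ (K + 1) * ((d : ℝ) ^ (K + 1) * Real.exp (-(c * d))) ≤ c ^ (K + 1) * (1 / 4) := by linarith
    exact le_of_mul_le_mul_left h8 h7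
  have h9 : 4 * (d : ℝ) * Real.exp (-(c * d)) * (d : ℝ) ^ K = 4 * ((d : ℝ) ^ (K + 1) * Real.exp (-(c * d))) := by
    rw [pow_succ]
    ring
  linarith

private theorem F5_cn {T : Type} [Fintype T] (P : T → Prop) [inst : DecidablePred P] :
    cn P = ((univ.filter P).card : ℝ) := by
  unfold cn
  have h : inst = fun a => Classical.propDecidable (P a) := Subsingleton.elim _ _
  rw [h]

private theorem F5_ind_sum {T : Type} [Fintype T] (P : T → Prop) : ∑ t, ind (P t) = cn P := by
  classical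
  unfold cn ind
  rw [Finset.sum_boole]

section
variable {d k q : ℕ}

private theorem F5_nfx (c : Fin q) (f : Site d k → Fin q) (x v : Site d k) :
    nfx c f x v = ∑ τ : Stp d, ind (x + sv τ ≠ v ∧ f (x + sv τ) = c) := by
  rw [F5_ind_sum]
  unfold nfx
  exact (F5_cn _).symm

/-- the sum -/
private noncomputable def F5_F (c : Fin q) (v : Site d k) (h : Site d k → Fin q) : ℝ :=
  ∑ σ : Stp d, nfx c h (v + sv σ) v

private theorem F5_upd (h : Site d k → Fin q) (x v u : Site d k) (γ c : Fin q)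
    (hu : ∀ τ : Stp d, x + sv τ = u → u = v) :
    nfx c (Function.update h u γ) x v = nfx c h x v := by
  rw [F5_nfx, F5_nfx]
  refine sum_congr rfl fun τ _ => ?_
  congr 1
  refine propext (and_congr_right fun hτ => ?_)
  rw [Function.update_of_ne]
  intro h2
  exact hτ (h2.trans (hu τ h2))

private theorem F5_upd2 (h : Site d k → Fin q) (x v u : Site d k) (γ γ' c : Fin q) (hγ : γ ≠ c) (hγ' : γ' ≠ c) :
    nfx c (Function.update h u γ) x v = nfx c (Function.update h u γ') x v := by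
  rw [F5_nfx, F5_nfx]
  refine sum_congr rfl fun τ _ => ?_
  congr 1
  refine propext (and_congr_right fun hτ => ?_)
  by_cases h2 : x + sv τ = u
  · rw [h2, Function.update_self, Function.update_self]
    exact iff_of_false hγ hγ'
  · rw [Function.update_of_ne h2, Function.update_of_ne h2]

private theorem F5_abs (hk : 3 ≤ k) (h : Site d k → Fin q) (x v u : Site d k) (γ c : Fin q) :
    |nfx c (Function.update h u γ) x v - nfx c h x v| ≤ 1 := by
  classical
  rw [F5_nfx, F5_nfx, ← sum_sub_distrib]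
  refine (abs_sum_le_sum_abs _ _).trans ?_
  have h1 : ∀ τ ∈ (univ : Finset (Stp d)), |ind (x + sv τ ≠ v ∧ Function.update h u γ (x + sv τ) = c) -
      ind (x + sv τ ≠ v ∧ h (x + sv τ) = c)| ≤ if x + sv τ = u then (1 : ℝ) else 0 := by
    intro τ _
    split_ifs with h2
    · have h3 := F5_ind01 (x + sv τ ≠ v ∧ Function.update h u γ (x + sv τ) = c)
      have h4 := F5_ind01 (x + sv τ ≠ v ∧ h (x + sv τ) = c)
      rw [abs_le]
      constructor <;> linarith [h3.1, h3.2, h4.1, h4.2]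
    · rw [Function.update_of_ne h2, sub_self, abs_zero]
  refine (sum_le_sum h1).trans ?_
  rw [sum_boole]
  have h5 : (univ.filter fun τ : Stp d => x + sv τ = u).card ≤ 1 := by
    rw [card_le_one]
    intro a ha b hb
    have h6 := (mem_filter.1 ha).2
    have h7 := (mem_filter.1 hb).2
    exact sv_inj (by omega) (add_left_cancel (h6.trans h7.symm))
  exact_mod_cast h5

private theorem F5_lip (hk : 3 ≤ k) (h : Site d k → Fin q) (v u : Site d k) (huv : u ≠ v) (γ c : Fin q) :
    |F5_F c v (Function.update h u γ) - F5_F c v h| ≤ 2 := by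
  classical
  unfold F5_F
  rw [← sum_sub_distrib]
  refine (abs_sum_le_sum_abs _ _).trans ?_
  have h1 : ∀ σ ∈ (univ : Finset (Stp d)), |nfx c (Function.update h u γ) (v + sv σ) v - nfx c h (v + sv σ) v| ≤
      ind (∃ τ : Stp d, u = v + sv σ + sv τ) := by
    intro σ _
    by_cases h4 : ∃ τ : Stp d, u = v + sv σ + sv τ
    · have h5 : ind (∃ τ : Stp d, u = v + sv σ + sv τ) = 1 := by
        unfold ind
        rw [if_pos h4]
      rw [h5]
      exact F5_abs hk h _ _ _ _ _
    · rw [F5_upd h (v + sv σ) v u γ c fun τ hτ => absurd ⟨τ, hτ.symm⟩ h4, sub_self, abs_zero]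
      exact (F5_ind01 _).1
  refine (sum_le_sum h1).trans ?_
  have h2 : ∑ σ : Stp d, ind (∃ τ : Stp d, u = v + sv σ + sv τ) = cn (fun σ : Stp d => ∃ τ : Stp d, u = v + sv σ + sv τ) :=
    F5_ind_sum _
  rw [h2]
  exact comm_nb hk huv

/-- locality -/
private theorem F5_loc (f g : Site d k → Fin q) (v : Site d k) (h : ∀ u, nr 3 v u → f u = g u) (c : Fin q) (σ : Stp d) :
    THR.hh c f (v + sv σ) = THR.hh c g (v + sv σ) ∧ nfx c f (v + sv σ) v = nfx c g (v + sv σ) v := by
  constructor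
  · exact (loc_hh (fun u hu => h u (Or.inr ⟨σ, hu⟩)) c).1
  · rw [F5_nfx, F5_nfx]
    refine sum_congr rfl fun τ _ => ?_
    rw [h (v + sv σ + sv τ) (Or.inr ⟨σ, Or.inr ⟨τ, nr_self 1 _⟩⟩)]

/-- Bernstein -/
private theorem F5_bern (hk : 3 ≤ k) (b : Bool) {f : Site d k → Fin q} (hf : Prp f) (v : Site d k) (c : Fin q) (s θ : ℝ)
    (hq : 0 < q) (hdq : (d : ℝ) ≤ 1000 * q)
    (hR : ∀ σ τ : Stp d, (q : ℝ) / 3 ≤ av f (v + sv σ + sv τ)) (hs : 0 < s) (hs1 : 2 * s ≤ 1)
    (hθ : 96000 * s * d ≤ θ) :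
    fm b (fun h => ind (θ ≤ |F5_F c v h - fm b (F5_F c v) f|)) f ≤ 2 * Real.exp (-(s * θ / 2)) := by
  classical
  have hq0 : (0 : ℝ) < q := by exact_mod_cast hq
  set W : Finset (Site d k) := (univ.image fun p : Stp d × Stp d => v + sv p.1 + sv p.2).erase v with hW
  have h := fm_bern (d := d) (k := k) (q := q) (by omega) b hf c (F5_F c v) W 2 (3 / q)
    s θ (by norm_num) (by positivity) hs.le (by linarith) ?_ ?_ ?_ ?_
  · refine h.trans ?_
    refine mul_le_mul_of_nonneg_left (Real.exp_le_exp.2 ?_) (by norm_num)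
    have h1 : (W.card : ℝ) ≤ (2 * d) ^ 2 := by
      have h2 : W.card ≤ (2 * d) ^ 2 := by
        refine (card_le_card (erase_subset _ _)).trans (card_image_le.trans (le_of_eq ?_))
        rw [card_univ, Fintype.card_prod, Fintype.card_prod, Fintype.card_fin, Fintype.card_bool]
        ring
      exact_mod_cast h2
    have h4 : s ^ 2 * 2 ^ 2 * (3 / q) * (W.card : ℝ) ≤ s ^ 2 * 2 ^ 2 * (3 / q) * (2 * d) ^ 2 :=
      mul_le_mul_of_nonneg_left h1 (by positivity)
    have h5 : s ^ 2 * 2 ^ 2 * (3 / q) * (2 * (d : ℝ)) ^ 2 ≤ 48000 * s ^ 2 * d := by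
      have h6 : s ^ 2 * 2 ^ 2 * (3 / q) * (2 * (d : ℝ)) ^ 2 = 48 * s ^ 2 * d * (d / q) := by
        field_simp
        ring
      have h7 : (d : ℝ) / q ≤ 1000 := by
        rw [div_le_iff₀ hq0]
        exact hdq
      rw [h6]
      calc 48 * s ^ 2 * d * (d / q) ≤ 48 * s ^ 2 * d * 1000 := mul_le_mul_of_nonneg_left h7 (by positivity)
        _ = 48000 * s ^ 2 * d := by ring
    have h8 : 48000 * s ^ 2 * d ≤ s * θ / 2 := by
      have := mul_le_mul_of_nonneg_left hθ hs.le
      nlinarith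
    linarith
  · intro h _ u _ hu γ _
    unfold F5_F
    refine sum_congr rfl fun σ _ => ?_
    refine F5_upd h (v + sv σ) v u γ c fun τ hτ => ?_
    by_contra huv
    exact hu (mem_erase.2 ⟨huv, mem_image.2 ⟨(σ, τ), mem_univ _, hτ⟩⟩)
  · intro h _ u _ hu γ _
    exact F5_lip hk h v u (ne_of_mem_erase hu) γ c
  · intro h _ u _ γ γ' _ _ h1 h2
    unfold F5_F
    exact sum_congr rfl fun σ _ => F5_upd2 h (v + sv σ) v u γ γ' c h1 h2
  · intro u _ hu
    obtain ⟨p, -, rfl⟩ := mem_image.1 (mem_of_mem_erase hu)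
    have h1 := hR p.1 p.2
    have h2 : (0 : ℝ) < q / 3 := by positivity
    calc 1 / (av f (v + sv p.1 + sv p.2) : ℝ) ≤ 1 / ((q : ℝ) / 3) := one_div_le_one_div_of_le h2 h1
      _ = 3 / q := by field_simp

/-- the mean -/
private theorem F5_mean (hk : 3 ≤ k) {b : Bool} {f : Site d k → Fin q} (hf : Prp f) {v : Site d k} (hv : v ∈ cls b d k)
    (c : Fin q) : fm b (F5_F c v) f ≤ ∑ σ : Stp d, THR.hh c f (v + sv σ) := by
  unfold F5_F
  rw [fm_sum b f (univ : Finset (Stp d)) fun σ h => nfx c h (v + sv σ) v]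
  exact sum_le_sum fun σ _ => nfx_mean hk hf hv c σ

end

theorem f5_pt : SR fun d _ q f v => ∃ c : Fin q, ∑ σ : Stp d, hh c f (v + sv σ) ≤ 1.1 * Real.exp (-ra d q) * (2 * d) ∧
    Real.exp (-ra d q / 2) * (2 * d) < ∑ σ : Stp d, nfx c f (v + sv σ) v := by
  have he : 0 < e3 := by unfold e3; norm_num
  have he1 : e3 ≤ 1 := by unfold e3; norm_num
  refine SR_local true 3 (fun d _ q f v => ∀ σ τ : Stp d, (q : ℝ) / 3 ≤ av f (v + sv σ + sv τ)) _ ?_ ?_ ?_ ?_ ?_
  · refine SR.mono q3n_pt ?_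
    refine ⟨0, fun d q _ _ _ => Eventually.of_forall fun k _ f _ v h1 h2 => h1 h2.2.2⟩
  · intro d k q f g v h
    refine forall_congr' fun σ => forall_congr' fun τ => ?_
    rw [(loc_av fun u hu => h u (Or.inr ⟨σ, Or.inr ⟨τ, hu⟩⟩)).2.1]
  · intro d k q f g v h
    refine exists_congr fun c => ?_
    rw [sum_congr rfl fun σ _ => (F5_loc f g v h c σ).1, sum_congr rfl fun σ _ => (F5_loc f g v h c σ).2]
  · refine (EvT_reg he he1 1).mono ?_
    intro d k q hreg _ f _ b v hv h hh
    have hk : 1 ≤ k := by exact_mod_cast hreg.2.2.1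
    have hr : rcl true b = b := by simp [rcl]
    rw [hr] at hh
    refine forall_congr' fun σ => forall_congr' fun τ => ?_
    have h1 : v + sv σ + sv τ ∈ cls b d k := by
      rw [mem_cls_step hk, mem_cls_step hk, Bool.not_not]
      exact hv
    unfold av
    rw [fib_SS hk b hh _ h1]
  · intro K
    have hE := Real.exp_pos (-1000)
    have hE1 : Real.exp (-1000) ≤ 1 := Real.exp_le_one_iff.2 (by norm_num)
    set s : ℝ := Real.exp (-1000) / 96000 with hs
    have hs0 : 0 < s := by positivity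
    refine ((EvT_reg he he1 3).and (EvT_d (F5_exp K (c := s * Real.exp (-1000) / 2) (by positivity)))).mono ?_
    rintro d k q ⟨hreg, hexp⟩ hRg f hf b v hv hR
    have hf' : Prp f := by
      unfold prps at hf
      simpa using hf
    have hk : 3 ≤ k := by exact_mod_cast hreg.2.2.1
    have hd : 3 ≤ d := by exact_mod_cast hreg.1
    have hd0 : (0 : ℝ) < d := by
      have : 0 < d := by omega
      exact_mod_cast this
    obtain ⟨hq, ha, ha2, h2d, -, hq2, -⟩ := rg_pos (by omega : 1 ≤ d) hRg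
    have hq0 : (0 : ℝ) < q := by exact_mod_cast hq
    have hdq : (d : ℝ) ≤ 1000 * q := by nlinarith
    have hr : rcl true b = b := by simp [rcl]
    rw [hr]
    set θ : ℝ := Real.exp (-ra d q / 2) * d with hθ
    have hθE : Real.exp (-1000) * d ≤ θ := by
      rw [hθ]
      exact mul_le_mul_of_nonneg_right (Real.exp_le_exp.2 (by linarith)) hd0.le
    have hsmall : 1.1 * Real.exp (-ra d q) * (2 * d) ≤ θ := by
      have h1 : Real.exp (-ra d q) = Real.exp (-ra d q / 2) * Real.exp (-ra d q / 2) := by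
        rw [← Real.exp_add]
        congr 1
        ring
      have h2 : Real.exp (-ra d q / 2) ≤ 1 / 4 := by
        have h3 := Real.add_one_le_exp (ra d q / 2)
        have h4 : Real.exp (-ra d q / 2) = 1 / Real.exp (ra d q / 2) := by
          rw [show -ra d q / 2 = -(ra d q / 2) by ring, Real.exp_neg, one_div]
        rw [h4]
        exact one_div_le_one_div_of_le (by norm_num) (by linarith)
      have h5 := Real.exp_pos (-ra d q / 2)
      have h6 : Real.exp (-ra d q) ≤ Real.exp (-ra d q / 2) * (1 / 4) := by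
        rw [h1]
        exact mul_le_mul_of_nonneg_left h2 h5.le
      rw [hθ]
      nlinarith
    have h1 : ∀ h ∈ fib b f, ind (∃ c : Fin q, ∑ σ : Stp d, THR.hh c h (v + sv σ) ≤ 1.1 * Real.exp (-ra d q) * (2 * d) ∧
        Real.exp (-ra d q / 2) * (2 * d) < ∑ σ : Stp d, nfx c h (v + sv σ) v) ≤
        ∑ c : Fin q, ind (θ ≤ |F5_F c v h - fm b (F5_F c v) f|) := by
      intro h hh
      refine (F5_ind_ex _).trans (sum_le_sum fun c _ => F5_ind_mono ?_)
      rintro ⟨h2, h3⟩
      rw [sum_congr rfl fun σ _ => loc_hh_fib2 hk hv c σ hh] at h2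
      have h4 := F5_mean hk hf' hv c
      have h5 : F5_F c v h = ∑ σ : Stp d, nfx c h (v + sv σ) v := rfl
      refine le_trans ?_ (le_abs_self _)
      rw [h5]
      have h6 : Real.exp (-ra d q / 2) * (2 * d) = 2 * θ := by
        rw [hθ]
        ring
      rw [h6] at h3
      linarith
    refine (fm_mono b hf' h1).trans ?_
    rw [fm_sum b f (univ : Finset (Fin q)) fun c h => ind (θ ≤ |F5_F c v h - fm b (F5_F c v) f|)]
    refine (sum_le_sum fun c _ => F5_bern hk b hf' v c s θ hq hdq hR hs0 (by rw [hs]; linarith) ?_).trans ?_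
    · have h2 : 96000 * s * d = Real.exp (-1000) * d := by
        rw [hs]
        ring
      rw [h2]
      exact hθE
    · rw [sum_const, card_univ, Fintype.card_fin, nsmul_eq_mul]
      refine le_trans ?_ hexp
      have h2 : Real.exp (-(s * θ / 2)) ≤ Real.exp (-(s * Real.exp (-1000) / 2 * d)) := by
        refine Real.exp_le_exp.2 (neg_le_neg ?_)
        have := mul_le_mul_of_nonneg_left hθE hs0.le
        linarith
      have h3 : (q : ℝ) ≤ 2 * d := by
        have : (0 : ℝ) < e3 * d := by positivity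
        linarith
      calc (q : ℝ) * (2 * Real.exp (-(s * θ / 2))) ≤ (2 * d) * (2 * Real.exp (-(s * Real.exp (-1000) / 2 * d))) :=
            mul_le_mul h3 (mul_le_mul_of_nonneg_left h2 (by norm_num)) (by positivity) (by positivity)
        _ = 4 * d * Real.exp (-(s * Real.exp (-1000) / 2 * d)) := by ring

end Pool.Agent.LC
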