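import Pool.Agent.Lib_MP_2c424f_lc1.C0
import Pool.Agent.Lib_MP_2c424f_lc1.E2

/-!
# LC1 F6: from the analytic to the combinatorial notion of typical sites (deterministic)

`X = tG d k = gV univ`: `X.Adj v x` iff `x = v + sv σ` for some `σ` (`k ≥ 3`: the `v + sv σ` are distinct), so `∑_{x ∈ nb X v} φ x = ∑_σ φ (v + sv σ)`; `c ∈ Rc X f (v + sv σ) v` iff `zc f (v + sv σ) v c = 1`;
`nc X f (v + sv σ) v c = nfx c f (v + sv σ) v`; `nv X f v c = nf c f v`; `c ∈ Rv X f v` iff `zz f v c = 1`; `(Rv X f v).card = av f v`.  `a = ra d q`, `m = ms d q`; `ep d q * (2d) = e^{-a} q`.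
`tS evn A v c`: `hs A v c = a (1-m) ≤ 3a e^{-2a}` (`mf_num`); `¬ tS`: `hs A v c = a (1+m) ≥ 1.9 a`.  `e^{-2100} ≤ e^{-a}/4`.
* `o1`: `∑_σ zc ≤ q hc c f v ≤ q (3a e^{-2a} + e^{-2100}) ≤ q e^{-a}` (`av ≤ q`).   * `o2`: `f4`.
* `o3`: `¬ tS evn A v c` implies `tS evn A (v+σ) c` (`gm_step`, `evn_step`), so `hh c f (v+σ) ≤ hc c f (v+σ) ≤ 1.1 e^{-a}` (`hh_le_hc`), and `f5`.
* `e1`: `q3`.   * `e2`: `c ∈ Rv`, `¬ tS`, `c ≠ f v`: `hh c f v = hc c f v ≥ 1.79 a` (`hc_eq`): at most `e^{-a} q/2 + 1 ≤ e^{-a} q` colours (`f1`).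
* `e3`: `f2`.   * `e4`: `tS`: `hh ≤ hc ≤ 1.1 e^{-a}`; `f3`.
-/

set_option autoImplicit false

open Finset Filter

namespace Pool.Agent.LC

open Pool.Agent.LO Pool.Agent.LIN Pool.Agent.THR Pool.Agent.COR

/-- site with good local statistics -/
structure FG {d k q : ℕ} (f : Site d k → Fin q) (v : Site d k) : Prop where
  f1 : cn (fun c : Fin q => zz f v c = 1 ∧ 1.79 * ra d q ≤ hh c f v) ≤ Real.exp (-ra d q) * q / 2
  f2 : ∑ c : Fin q, nf c f v ^ 4 ≤ 1000 * ra d q ^ 4 * q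
  f3 : ∑ c : Fin q, ind (hh c f v ≤ 1.1 * Real.exp (-ra d q)) * nf c f v ^ 2 ≤ Real.exp (-ra d q / 2) * q
  f4 : ∀ c : Fin q, ∑ σ : Stp d, nfx c f (v + sv σ) v ^ 2 ≤ 20 * ra d q ^ 2 * (2 * d)
  f5 : ∀ c : Fin q, ∑ σ : Stp d, hh c f (v + sv σ) ≤ 1.1 * Real.exp (-ra d q) * (2 * d) →
    ∑ σ : Stp d, nfx c f (v + sv σ) v ≤ Real.exp (-ra d q / 2) * (2 * d)
  q3 : (q : ℝ) / 3 ≤ av f v

private theorem F6_add_ne {d k : ℕ} (hk : 3 ≤ k) (v : Site d k) (σ : Stp d) : v ≠ v + sv σ := by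
  intro h
  have h0 : (sv σ : Site d k) = 0 := by
    have := h.symm
    rwa [add_eq_left] at this
  have h1 : (sv σ : Site d k) + sv (σ.1, !σ.2) = 0 := sv_opp σ.1 σ.2
  rw [h0, zero_add] at h1
  have h2 : σ = (σ.1, !σ.2) := sv_inj (by omega : 2 ≤ k) (h0.trans h1.symm)
  have h3 := congrArg Prod.snd h2
  simp at h3

private theorem F6_adj {d k : ℕ} (hk : 3 ≤ k) (v x : Site d k) :
    (tG d k).Adj v x ↔ ∃ σ : Stp d, x = v + sv σ := by
  constructor
  · intro h
    exact h.2.2.2.1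
  · rintro ⟨σ, rfl⟩
    refine ⟨F6_add_ne hk v σ, Finset.mem_univ _, Finset.mem_univ _, ⟨σ, rfl⟩, ⟨(σ.1, !σ.2), ?_⟩⟩
    rw [add_assoc, show (sv σ : Site d k) + sv (σ.1, !σ.2) = 0 from sv_opp σ.1 σ.2, add_zero]

private theorem F6_inj {d k : ℕ} (hk : 3 ≤ k) (v : Site d k) :
    Function.Injective fun σ : Stp d => v + sv σ := by
  intro σ τ h
  exact sv_inj (by omega : 2 ≤ k) (add_left_cancel h)

private theorem F6_sum {d k : ℕ} (hk : 3 ≤ k) (v : Site d k) (φ : Site d k → ℝ) :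
    ∑ x ∈ nb (tG d k) v, φ x = ∑ σ : Stp d, φ (v + sv σ) := by
  classical
  have h1 : nb (tG d k) v = Finset.univ.image fun σ : Stp d => v + sv σ := by
    ext x
    simp only [nb, Finset.mem_filter, Finset.mem_univ, true_and, Finset.mem_image]
    rw [F6_adj hk]
    constructor
    · rintro ⟨σ, rfl⟩
      exact ⟨σ, rfl⟩
    · rintro ⟨σ, rfl⟩
      exact ⟨σ, rfl⟩
  rw [h1, Finset.sum_image fun σ _ τ _ h => F6_inj hk v h]

private theorem F6_card {d k : ℕ} (hk : 3 ≤ k) (v : Site d k) (P : Site d k → Prop) (Q : Stp d → Prop)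
    (S : Finset (Site d k)) (T : Finset (Stp d)) (hS : ∀ x, x ∈ S ↔ (tG d k).Adj v x ∧ P x)
    (hT : ∀ σ, σ ∈ T ↔ Q σ) (h : ∀ σ, P (v + sv σ) ↔ Q σ) : S.card = T.card := by
  symm
  refine Finset.card_bij (fun σ _ => v + sv σ) ?_ ?_ ?_
  · intro σ hσ
    rw [hS, F6_adj hk]
    exact ⟨⟨σ, rfl⟩, (h σ).2 ((hT σ).1 hσ)⟩
  · intro σ _ τ _ hστ
    exact F6_inj hk v hστ
  · intro x hx
    rw [hS, F6_adj hk] at hx
    obtain ⟨⟨σ, rfl⟩, hP⟩ := hx
    exact ⟨σ, (hT σ).2 ((h σ).1 hP), rfl⟩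

private theorem F6_nv {d k q : ℕ} (hk : 3 ≤ k) (f : Site d k → Fin q) (v : Site d k) (c : Fin q) :
    (nv (tG d k) f v c : ℝ) = nf c f v := by
  unfold nv nf
  rw [Nat.cast_inj]
  refine F6_card hk v (fun x => f x = c) (fun σ => f (v + sv σ) = c) _ _ ?_ ?_ fun σ => Iff.rfl
  · intro x
    simp
  · intro σ
    simp

private theorem F6_nc {d k q : ℕ} (hk : 3 ≤ k) (f : Site d k → Fin q) (x v : Site d k) (c : Fin q) :
    (nc (tG d k) f x v c : ℝ) = nfx c f x v := by
  unfold nc nfx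
  rw [Nat.cast_inj]
  refine F6_card hk x (fun y => y ≠ v ∧ f y = c) (fun σ => x + sv σ ≠ v ∧ f (x + sv σ) = c) _ _
    ?_ ?_ fun σ => Iff.rfl
  · intro y
    simp
  · intro σ
    simp

private theorem F6_mem_SS {d k q : ℕ} (f : Site d k → Fin q) (x : Site d k) (c : Fin q) :
    c ∈ SS f x ↔ ∃ τ : Stp d, f (x + sv τ) = c := by
  unfold SS
  simp only [Finset.mem_image, Finset.mem_univ, true_and]

private theorem F6_Rv {d k q : ℕ} (hk : 3 ≤ k) (f : Site d k → Fin q) (v : Site d k) :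
    Rv (tG d k) f v = (SS f v)ᶜ := by
  ext c
  rw [Finset.mem_compl, F6_mem_SS]
  simp only [Rv, Finset.mem_filter, Finset.mem_univ, true_and]
  constructor
  · rintro h ⟨τ, hτ⟩
    exact h (v + sv τ) ((F6_adj hk v _).2 ⟨τ, rfl⟩) hτ
  · intro h x hx hc
    obtain ⟨σ, rfl⟩ := (F6_adj hk v x).1 hx
    exact h ⟨σ, hc⟩

private theorem F6_Rv_card {d k q : ℕ} (hk : 3 ≤ k) (f : Site d k → Fin q) (v : Site d k) :
    (Rv (tG d k) f v).card = av f v := by
  rw [F6_Rv hk, Finset.card_compl, Fintype.card_fin]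
  rfl

open scoped Classical in
private theorem F6_Rc {d k q : ℕ} (hk : 3 ≤ k) (f : Site d k → Fin q) (x v : Site d k) (c : Fin q) :
    (if c ∈ Rc (tG d k) f x v then (1 : ℝ) else 0) = zc f x v c := by
  have h1 : c ∈ Rc (tG d k) f x v ↔ ∀ τ : Stp d, x + sv τ ≠ v → f (x + sv τ) ≠ c := by
    simp only [Rc, Finset.mem_filter, Finset.mem_univ, true_and]
    constructor
    · intro h τ hτ
      exact h _ ((F6_adj hk x _).2 ⟨τ, rfl⟩) hτ
    · intro h y hy hyv
      obtain ⟨τ, rfl⟩ := (F6_adj hk x y).1 hy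
      exact h τ hyv
  unfold zc
  by_cases h : ∀ τ : Stp d, x + sv τ ≠ v → f (x + sv τ) ≠ c
  · rw [if_pos (h1.2 h), if_pos h]
  · rw [if_neg (fun h' => h (h1.1 h')), if_neg h]

open scoped Classical in
private theorem F6_o1 {d k q : ℕ} (hk : 3 ≤ k) {f : Site d k → Fin q} (hf : Prp f) (v : Site d k)
    (c : Fin q) (S : Finset (Site d k))
    (hS : ∀ x, x ∈ S ↔ (tG d k).Adj v x ∧ c ∈ Rc (tG d k) f x v) : (S.card : ℝ) ≤ q * hc c f v := by
  have h1 : (S.card : ℝ) = ∑ σ : Stp d, zc f (v + sv σ) v c := by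
    have h2 : S.card = (Finset.univ.filter fun σ : Stp d => c ∈ Rc (tG d k) f (v + sv σ) v).card :=
      F6_card hk v (fun x => c ∈ Rc (tG d k) f x v) (fun σ => c ∈ Rc (tG d k) f (v + sv σ) v) _ _ hS
        (fun σ => by simp) fun σ => Iff.rfl
    rw [h2, ← Finset.sum_boole]
    exact Finset.sum_congr rfl fun σ _ => F6_Rc hk f _ v c
  rw [h1]
  unfold hc
  rw [Finset.mul_sum]
  refine Finset.sum_le_sum fun σ _ => ?_
  have h2 : (1 : ℝ) ≤ av f (v + sv σ) := by exact_mod_cast av_pos hf (v + sv σ)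
  have h3 : (av f (v + sv σ) : ℝ) ≤ q := by
    have : av f (v + sv σ) ≤ q := by
      unfold av
      exact Nat.sub_le _ _
    exact_mod_cast this
  have h4 : 0 ≤ zc f (v + sv σ) v c := by
    rcases zc_01 f (v + sv σ) v c with h5 | h5 <;> rw [h5]
    exact zero_le_one
  rw [mul_div_assoc', le_div_iff₀ (by linarith), mul_comm]
  exact mul_le_mul_of_nonneg_right h3 h4

open scoped Classical in
private theorem F6_cn {α : Type} [Fintype α] (P : α → Prop) (S : Finset α) (hS : ∀ x, x ∈ S ↔ P x) :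
    (S.card : ℝ) = cn P := by
  unfold cn
  have h : S = Finset.univ.filter P := by
    ext x
    rw [hS, Finset.mem_filter]
    simp
  rw [h]

private theorem F6_num {a : ℝ} (h1 : 1000 ≤ a) (h2 : a ≤ 2000) {m : ℝ}
    (hm : 1 - m ≤ 3 * Real.exp (-(2 * a))) : a * (1 - m) + Real.exp (-2100) ≤ Real.exp (-a) := by
  have h3 : a * (1 - m) ≤ Real.exp (-a) / 2 := by
    have h4 : a * (1 - m) ≤ a * (3 * Real.exp (-(2 * a))) :=
      mul_le_mul_of_nonneg_left hm (by linarith)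
    have h5 : Real.exp (-(2 * a)) = Real.exp (-a) * Real.exp (-a) := by
      rw [← Real.exp_add]; congr 1; ring
    have h6 : 6 * a ≤ Real.exp a := by
      have := Real.quadratic_le_exp_of_nonneg (x := a) (by linarith)
      nlinarith
    have h7 : 6 * a * Real.exp (-a) ≤ 1 := by
      have h8 : Real.exp a * Real.exp (-a) = 1 := by rw [← Real.exp_add]; simp
      have h9 := mul_le_mul_of_nonneg_right h6 (Real.exp_pos (-a)).le
      linarith
    have h8 := mul_le_mul_of_nonneg_right h7 (Real.exp_pos (-a)).le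
    rw [h5] at h4
    nlinarith
  have h4 : Real.exp (-2100) ≤ Real.exp (-a) / 2 := by
    have h5 : Real.exp (-2100) = Real.exp (-a) * Real.exp (a - 2100) := by
      rw [← Real.exp_add]; congr 1; ring
    have h6 : Real.exp (a - 2100) ≤ 1 / 2 := by
      have h7 : Real.exp (a - 2100) ≤ Real.exp (-1) := Real.exp_le_exp.2 (by linarith)
      have h8 : Real.exp (-1) ≤ 1 / 2 := by
        rw [Real.exp_neg, ← one_div]
        apply one_div_le_one_div_of_le (by norm_num)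
        have := Real.add_one_le_exp (1 : ℝ)
        linarith
      linarith
    rw [h5]
    have := mul_le_mul_of_nonneg_left h6 (Real.exp_pos (-a)).le
    linarith
  linarith

theorem ty_det : ∃ d₀ : ℕ, ∀ d : ℕ, d₀ ≤ d → ∀ k q : ℕ, 3 ≤ k → Rg d q → ∀ f : Site d k → Fin q, Prp f →
    ∀ (A : Finset (Fin q)) (v : Site d k), TS (Real.exp (-2100)) A f v → (∀ σ : Stp d, TS (Real.exp (-2100)) A f (v + sv σ)) →
    FG f v → Ty d (tG d k) evn A f v := by
  classical
  obtain ⟨d₀, hd₀⟩ := exists_nat_ge (2000 * Real.exp 2000)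
  refine ⟨d₀ + 1, ?_⟩
  intro d hd k q hk hR f hf A v hTS hTSn hFG
  have hd1 : 1 ≤ d := by omega
  obtain ⟨hq0, ha1, ha2, hdq, -, -, -, -, -⟩ := rg_pos hd1 hR
  obtain ⟨hm0, hm1, hm3, hm4, -, -, -, -, -, -, hx⟩ := mf_num ha1 (ms_spec hd1 hR)
  set a : ℝ := ra d q with ha
  set m : ℝ := ms d q with hm
  have hq : (0 : ℝ) < q := by exact_mod_cast hq0
  have hnum := F6_num ha1 ha2 hm3
  have he1 : Real.exp (-a) ≤ 1 := Real.exp_le_one_iff.2 (by linarith)
  have he0 := Real.exp_pos (-a)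
  have hep : ep d q * (2 * d) = Real.exp (-a) * q := by
    unfold ep
    rw [← ha, hdq]
    field_simp
  have hgm_t : ∀ c, tS evn A v c → gm A v c = 1 + m := by
    intro c hc
    unfold gm
    rw [if_pos hc]
  have hgm_f : ∀ c, ¬ tS evn A v c → gm A v c = 1 - m := by
    intro c hc
    unfold gm
    rw [if_neg hc]
  -- bounds for `hc`
  have hc_t : ∀ c, tS evn A v c → hc c f v ≤ Real.exp (-a) := by
    intro c hc
    have h1 := (abs_le.1 (hTS.1 c)).2
    unfold hs at h1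
    rw [hgm_t c hc, ← ha] at h1
    have h2 : a * (2 - (1 + m)) = a * (1 - m) := by ring
    rw [h2] at h1
    linarith
  have hc_f : ∀ c, ¬ tS evn A v c → 1.79 * a ≤ hc c f v := by
    intro c hc
    have h1 := (abs_le.1 (hTS.1 c)).1
    unfold hs at h1
    rw [hgm_f c hc, ← ha] at h1
    have h2 : a * (2 - (1 - m)) = 2 * a - a * (1 - m) := by ring
    rw [h2] at h1
    have h3 : 0 ≤ a * (1 - m) := mul_nonneg (by linarith) hm4.le
    linarith
  have hc_n : ∀ c, ¬ tS evn A v c → ∀ σ : Stp d, hh c f (v + sv σ) ≤ 1.1 * Real.exp (-a) := by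
    intro c hc σ
    have h1 := (abs_le.1 ((hTSn σ).1 c)).2
    unfold hs at h1
    rw [gm_step (by omega), hgm_f c hc, ← ha] at h1
    have h2 : a * (2 - (2 - (1 - m))) = a * (1 - m) := by ring
    rw [h2] at h1
    have h3 := hh_le_hc f (v + sv σ) c
    linarith
  refine ⟨⟨?_, ?_, ?_⟩, ⟨?_, ?_, ?_, ?_⟩⟩
  · -- o1
    intro c hc
    have h1 := F6_o1 hk hf v c ((nb (tG d k) v).filter fun x => c ∈ Rc (tG d k) f x v) (fun x => by
      simp [nb])
    rw [hep]
    refine h1.trans ?_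
    rw [mul_comm]
    exact mul_le_mul_of_nonneg_right (hc_t c hc) hq.le
  · -- o2
    intro c
    rw [F6_sum hk v fun x => (nc (tG d k) f x v c : ℝ) ^ 2]
    simp only [F6_nc hk]
    exact hFG.f4 c
  · -- o3
    intro c hc
    rw [F6_sum hk v fun x => (nc (tG d k) f x v c : ℝ)]
    simp only [F6_nc hk]
    refine hFG.f5 c ?_
    calc ∑ σ : Stp d, hh c f (v + sv σ) ≤ ∑ _σ : Stp d, 1.1 * Real.exp (-a) :=
          Finset.sum_le_sum fun σ _ => hc_n c hc σ
      _ = 1.1 * Real.exp (-a) * (2 * d) := by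
          rw [Finset.sum_const, nsmul_eq_mul, Finset.card_univ, Fintype.card_prod, Fintype.card_fin,
            Fintype.card_bool]
          push_cast
          ring
  · -- e1
    rw [F6_Rv_card hk]
    exact hFG.q3
  · -- e2
    have h1 := hFG.f1
    have hsub : ((Rv (tG d k) f v).filter fun c => ¬ tS evn A v c) ⊆
        (Finset.univ.filter fun c : Fin q => zz f v c = 1 ∧ 1.79 * ra d q ≤ hh c f v) ∪ {f v} := by
      intro c hc
      rw [Finset.mem_filter, F6_Rv hk, Finset.mem_compl] at hc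
      rw [Finset.mem_union, Finset.mem_filter, Finset.mem_singleton]
      by_cases h2 : c = f v
      · exact Or.inr h2
      · left
        refine ⟨Finset.mem_univ _, ?_, ?_⟩
        · unfold zz
          rw [if_neg hc.1]
        · rw [← hc_eq f v c (Ne.symm h2)]
          exact hc_f c hc.2
    have h2 : (((Rv (tG d k) f v).filter fun c => ¬ tS evn A v c).card : ℝ) ≤
        ((Finset.univ.filter fun c : Fin q => zz f v c = 1 ∧ 1.79 * ra d q ≤ hh c f v).card : ℝ) + 1 := by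
      have h3 := (Finset.card_le_card hsub).trans (Finset.card_union_le _ _)
      rw [Finset.card_singleton] at h3
      exact_mod_cast h3
    have h3 : 2 ≤ Real.exp (-a) * q := by
      have h4 : Real.exp (-2000) ≤ Real.exp (-a) := Real.exp_le_exp.2 (by linarith)
      have h5 : 2000 * Real.exp 2000 ≤ d := hd₀.trans (by
        have : d₀ ≤ d := by omega
        exact_mod_cast this)
      have h6 : 2 * Real.exp 2000 ≤ q := by
        have h7 : 2 * (d : ℝ) ≤ 2000 * q := by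
          rw [hdq]
          exact mul_le_mul_of_nonneg_right ha2 hq.le
        linarith
      have h7 : Real.exp (-2000) * Real.exp 2000 = 1 := by
        rw [← Real.exp_add]; simp
      have h8 : Real.exp (-2000) * (2 * Real.exp 2000) ≤ Real.exp (-2000) * q :=
        mul_le_mul_of_nonneg_left h6 (Real.exp_pos _).le
      have h9 := mul_le_mul_of_nonneg_right h4 hq.le
      linarith
    have h4 : ((Finset.univ.filter fun c : Fin q => zz f v c = 1 ∧ 1.79 * ra d q ≤ hh c f v).card : ℝ)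
        ≤ Real.exp (-a) * q / 2 := by
      rw [F6_cn (fun c : Fin q => zz f v c = 1 ∧ 1.79 * ra d q ≤ hh c f v) _ (fun c => by simp)]
      exact h1
    calc (((Rv (tG d k) f v).filter fun c => ¬ tS evn A v c).card : ℝ)
        ≤ Real.exp (-a) * q / 2 + 1 := h2.trans (by linarith)
      _ ≤ Real.exp (-a) * q := by linarith
  · -- e3
    simp only [F6_nv hk]
    exact hFG.f2
  · -- e4
    simp only [F6_nv hk]
    refine le_trans ?_ hFG.f3
    rw [Finset.sum_filter]
    refine Finset.sum_le_sum fun c _ => ?_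
    have h0 : 0 ≤ ind (hh c f v ≤ 1.1 * Real.exp (-a)) * nf c f v ^ 2 := by
      unfold ind
      split_ifs <;> positivity
    by_cases hc : tS evn A v c
    · rw [if_pos hc]
      have h1 : hh c f v ≤ 1.1 * Real.exp (-a) := by
        have h2 := hh_le_hc f v c
        have h3 := hc_t c hc
        linarith
      have h2 : ind (hh c f v ≤ 1.1 * Real.exp (-a)) = 1 := by
        unfold ind
        rw [if_pos h1]
      rw [h2, one_mul]
    · rw [if_neg hc]
      exact h0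

end Pool.Agent.LC
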