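import Pool.Agent.Lib_MP_2c424f_lc1.E5
import Pool.Agent.Lib_MP_2c424f_lc1.F1
import Pool.Agent.Lib_MP_2c424f_lc1.F2
import Pool.Agent.Lib_MP_2c424f_lc1.F3
import Pool.Agent.Lib_MP_2c424f_lc1.F4
import Pool.Agent.Lib_MP_2c424f_lc1.F5
import Pool.Agent.Lib_MP_2c424f_lc1.F6

/-!
# LC1 F7: the two theorems of Part I

`FG_pt`: `SR.or` of `f1_pt .. f5_pt`, `q3_pt`.
`typ'`: `typ_tpl (K+1) (exp (-2100))` and `TRK_of_SRK (FG_pt (K+1))`, `TRK.or`, `TRK.mono` with `ty_det` (for `k + 1 ≥ 3`): `TRK K (G0P ∧ ¬ Ty)`; `nAt f = cn (..)`; `EvR_of_EvT`; `NN d k = (2^k)^d`.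
`allbad'`: `allbd et` and `EvR_of_EvT`.
-/

set_option autoImplicit false

open Finset Filter

namespace Pool.Agent.LC

open Pool.Agent.LO Pool.Agent.LIN Pool.Agent.THR Pool.Agent.COR

private theorem F7_true : EvT e3 fun _ _ _ => True :=
  (EvT_d (P := fun _ => True) (Filter.Eventually.of_forall fun _ => trivial)).mono
    fun _ _ _ _ => trivial

private theorem F7_cn {d k q : ℕ} (f : Site d (k + 1) → Fin q) : (nAt f : ℝ) = cn fun p : Tpl d k => G0P (pat f p.1) ∧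
      ¬ Ty d (tG d (k + 1)) evn (ALP (pat f p.1)) f (tp p) := by
  unfold nAt cn tp
  have h : ∀ (i1 i2 : DecidablePred fun p : Blk d k × Bt d × Bt d => G0P (pat f p.1) ∧
      ¬ Ty d (tG d (k + 1)) evn (ALP (pat f p.1)) f (pt p.1 p.2.1 p.2.2)),
      (@Finset.filter _ _ i1 univ) = (@Finset.filter _ _ i2 univ) := by
    intro i1 i2
    ext p
    simp only [mem_filter, mem_univ, true_and]
  rw [h]

theorem FG_pt : SR fun _ _ _ f v => ¬ FG f v := by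
  refine (f1_pt.or (f2_pt.or (f3_pt.or (f4_pt.or (f5_pt.or q3_pt))))).mono (F7_true.mono ?_)
  intro d k q _ _ f _ v h
  by_contra hcon
  push Not at hcon
  obtain ⟨h1, h2, h3, h4, h5, h6⟩ := hcon
  exact h ⟨h1, h2, h3, h4, h5, h6⟩

private theorem F7_fg (K : ℕ) : TRK K fun _ _ _ f p => ¬ FG f (tp p) := by
  have h : SRK K fun d k q (f : Site d k → Fin q) (v : Site d k) => ¬ FG f v := FG_pt K
  have h2 := TRK_of_SRK h
  exact h2

private theorem F7_trk (K : ℕ) : TRK K fun d k _ f p => G0P (pat f p.1) ∧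
    ¬ Ty d (tG d (k + 1)) evn (ALP (pat f p.1)) f (tp p) := by
  classical
  have h1 := typ_tpl (K + 1) (Real.exp (-2100)) (Real.exp_pos _)
  have h3 := h1.or (F7_fg (K + 1))
  refine h3.mono ?_
  obtain ⟨d₀, hd₀⟩ := ty_det
  have hk : EvT e3 fun _ k _ => 3 ≤ k := ⟨0, fun d q _ _ _ => eventually_ge_atTop 3⟩
  refine ((EvT_d (eventually_ge_atTop d₀)).and hk).mono ?_
  rintro d k q ⟨hd, hk⟩ hR f hf p ⟨hG, hT⟩
  by_contra hcon
  push Not at hcon
  obtain ⟨c1, c2⟩ := hcon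
  have hfP : Prp f := by
    unfold prps at hf
    exact (mem_filter.1 hf).2
  obtain ⟨c3, c4⟩ := c1 hG
  exact hT (hd₀ d hd (k + 1) q (by omega) hR f hfP _ _ c3 c4 c2)

theorem typ' (K : ℕ) : ∃ C : ℕ, EvR fun d k q => Rar C d (k + 1) q fun f =>
    (4 : ℝ) ^ d * (2 ^ k) ^ d / (d : ℝ) ^ K < (nAt f : ℝ) := by
  obtain ⟨C, hC⟩ := F7_trk K
  refine ⟨C, EvR_of_EvT (hC.mono ?_)⟩
  intro d k q h hR
  refine h.mono ?_
  intro f _ hf
  rw [F7_cn] at hf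
  rw [Classical.not_imp, not_le]
  exact ⟨hR, hf⟩

theorem allbad' : ∃ C : ℕ, EvR fun d k q => ∀ c : Fin q, Rar C d (k + 1) q fun f =>
    ∀ t : Blk d k, bdP et c (pat f t) := by
  obtain ⟨C, hC⟩ := allbd et (by unfold et; norm_num)
  exact ⟨C, EvR_of_EvT hC⟩

end Pool.Agent.LC
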