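import Pool.Agent.Lib_MP_2c424f_lc1.Defs

/-!
# LC1 T1: balls and locality

`nr r u v`: `v` is reached from `u` by at most `r` steps (induction over `r`).
`av f v`, `SS f v`, `zz f v c` depend on `f` at the sites within distance `1` of `v`; `hh`, `al`, `ya`, `zt`, `hc`, `gg (v+σ)` on the sites within
distance `2`; averages `PP^[t]` add `t`.
-/

set_option autoImplicit false

open Finset Filter

namespace Pool.Agent.LC

open Pool.Agent.LO Pool.Agent.LIN Pool.Agent.THR Pool.Agent.COR

variable {d k q : ℕ}

theorem nr_self (r : ℕ) (u : Site d k) : nr r u u := by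
  induction r with
  | zero => exact rfl
  | succ r ih => exact Or.inl ih

theorem nr_step (u : Site d k) (σ : Stp d) : nr 1 u (u + sv σ) :=
  Or.inr ⟨σ, rfl⟩

theorem nr_mono {r s : ℕ} (h : r ≤ s) {u v : Site d k} (hu : nr r u v) : nr s u v := by
  induction s, h using Nat.le_induction with
  | base => exact hu
  | succ s _ ih => exact Or.inl ih

theorem nr_trans {r s : ℕ} {u v w : Site d k} (h : nr r u v) (h' : nr s v w) : nr (r + s) u w := by
  induction r generalizing u with
  | zero =>
    have h1 : u = v := h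
    subst h1
    rw [Nat.zero_add]
    exact h'
  | succ r ih =>
    rcases h with h | ⟨σ, h⟩
    · exact nr_mono (by omega) (ih h)
    · have h2 : nr (r + s + 1) u w := Or.inr ⟨σ, ih h⟩
      have h3 : r + 1 + s = r + s + 1 := by omega
      rw [h3]
      exact h2

private theorem T1_neg (σ : Stp d) : (sv (σ.1, !σ.2) : Site d k) = -sv σ := by
  unfold sv
  rw [← Pi.single_neg]
  congr 1
  cases σ.2 <;> simp

theorem nr_symm {r : ℕ} {u v : Site d k} (h : nr r u v) : nr r v u := by
  induction r generalizing u with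
  | zero => exact (show u = v from h).symm
  | succ r ih =>
    rcases h with h | ⟨σ, h⟩
    · exact Or.inl (ih h)
    · have h1 : nr r v (u + sv σ) := ih h
      have h2 : nr 1 (u + sv σ) u := by
        have h3 := nr_step (u + sv σ) (σ.1, !σ.2)
        rw [T1_neg, add_neg_cancel_right] at h3
        exact h3
      exact nr_trans h1 h2

theorem nr_card (r : ℕ) (u : Site d k) : cn (nr r u) ≤ (2 * (d : ℝ) + 1) ^ r := by
  classical
  induction r generalizing u with
  | zero =>
    have h1 : (univ.filter (nr 0 u)).card ≤ 1 := by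
      rw [Finset.card_le_one]
      intro a ha b hb
      have h2 : u = a := (Finset.mem_filter.1 ha).2
      have h3 : u = b := (Finset.mem_filter.1 hb).2
      rw [← h2, ← h3]
    unfold cn
    rw [pow_zero]
    refine le_trans (le_of_eq ?_) (Nat.cast_le.2 h1 |>.trans (le_of_eq Nat.cast_one))
    congr 2
  | succ r ih =>
    have hsub : (univ.filter (nr (r + 1) u)) ⊆ (univ.filter (nr r u)) ∪
        (univ : Finset (Stp d)).biUnion (fun σ => univ.filter (nr r (u + sv σ))) := by
      intro v hv
      rw [Finset.mem_union, Finset.mem_biUnion]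
      rcases (Finset.mem_filter.1 hv).2 with h | ⟨σ, h⟩
      · exact Or.inl (Finset.mem_filter.2 ⟨mem_univ _, h⟩)
      · exact Or.inr ⟨σ, mem_univ _, Finset.mem_filter.2 ⟨mem_univ _, h⟩⟩
    have h1 : ((univ.filter (nr (r + 1) u)).card : ℝ) ≤ ((univ.filter (nr r u)).card : ℝ) +
        ∑ σ : Stp d, ((univ.filter (nr r (u + sv σ))).card : ℝ) := by
      have h2 := (Finset.card_le_card hsub).trans ((Finset.card_union_le _ _).trans
        (Nat.add_le_add_left Finset.card_biUnion_le _))
      exact_mod_cast h2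
    have h3 : ∀ w : Site d k, ((univ.filter (nr r w)).card : ℝ) ≤ (2 * (d : ℝ) + 1) ^ r := by
      intro w
      refine le_trans (le_of_eq ?_) (ih w)
      unfold cn
      congr 2
    have h4 : ∑ σ : Stp d, ((univ.filter (nr r (u + sv σ))).card : ℝ) ≤
        2 * (d : ℝ) * (2 * (d : ℝ) + 1) ^ r := by
      refine le_trans (Finset.sum_le_sum fun σ _ => h3 (u + sv σ)) (le_of_eq ?_)
      rw [Finset.sum_const, nsmul_eq_mul, Finset.card_univ, Fintype.card_prod, Fintype.card_fin, Fintype.card_bool]
      push_cast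
      ring
    have h5 : cn (nr (r + 1) u) = ((univ.filter (nr (r + 1) u)).card : ℝ) := by
      unfold cn
      congr 2
    rw [h5, pow_succ]
    linarith [h1, h3 u, h4]

theorem loc_av {f g : Site d k → Fin q} {v : Site d k} (h : ∀ u, nr 1 v u → f u = g u) :
    SS f v = SS g v ∧ av f v = av g v ∧ ∀ c, zz f v c = zz g v c := by
  have h1 : SS f v = SS g v := by
    unfold SS
    congr 1
    funext σ
    exact h _ (nr_step v σ)
  refine ⟨h1, ?_, fun c => ?_⟩
  · unfold av
    rw [h1]
  · unfold zz
    rw [h1]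

theorem loc_hh {f g : Site d k → Fin q} {v : Site d k} (h : ∀ u, nr 2 v u → f u = g u) (c : Fin q) :
    hh c f v = hh c g v ∧ al f v = al g v ∧ ya c f v = ya c g v ∧ zt f v c = zt g v c ∧ hc c f v = hc c g v := by
  have h0 : ∀ σ : Stp d, ∀ u, nr 1 (v + sv σ) u → f u = g u := fun σ u hu => h u (Or.inr ⟨σ, hu⟩)
  have h1 : ∀ c, hh c f v = hh c g v := by
    intro c
    unfold THR.hh
    refine Finset.sum_congr rfl fun σ _ => ?_
    rw [(loc_av (h0 σ)).2.2 c, (loc_av (h0 σ)).2.1]
  have h2 : al f v = al g v := by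
    unfold al
    rw [Finset.sum_congr rfl fun c _ => by rw [h1 c]]
  refine ⟨h1 c, h2, ?_, ?_, ?_⟩
  · unfold ya
    rw [h1 c, h2]
  · unfold zt
    refine Finset.prod_congr rfl fun σ _ => ?_
    rw [(loc_av (h0 σ)).2.2 c, (loc_av (h0 σ)).2.1]
  · unfold hc
    refine Finset.sum_congr rfl fun σ _ => ?_
    have h3 : zc f (v + sv σ) v c = zc g (v + sv σ) v c := by
      unfold zc
      have h4 : ∀ τ : Stp d, f (v + sv σ + sv τ) = g (v + sv σ + sv τ) := fun τ =>
        h0 σ _ (nr_step _ τ)
      simp only [h4]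
    rw [h3, (loc_av (h0 σ)).2.1]

theorem loc_PPt (t : ℕ) {φ ψ : Site d k → ℝ} {v : Site d k} (h : ∀ u, nr t v u → φ u = ψ u) :
    PP^[t] φ v = PP^[t] ψ v := by
  induction t generalizing v with
  | zero => exact h v rfl
  | succ t ih =>
    rw [Function.iterate_succ_apply', Function.iterate_succ_apply']
    unfold PP
    congr 1
    exact Finset.sum_congr rfl fun σ _ => ih fun u hu => h u (Or.inr ⟨σ, hu⟩)

end Pool.Agent.LC
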